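import Pool.Agent.SPN.Lin

/-! # Module Cyc (difficulty 4): the cyclic identity

Pointwise: for `x y z : X`, `sg x y * sg x z + sg y x * sg y z + sg z x * sg z y = 1 - eqi x y * eqi x z`
(cases on the order of the three points: 1 if not all equal, 0 if all equal), and
`eqi x y * eqi x z = eqi y x * eqi y z = eqi z x * eqi z y`.
For fixed `v` write `x = q (π (v h₁))`, `y = q (π (v h₂))`, `z = q (π (v h₃))`. By Fubini
`T1 a b c = ∫_{v ∈ D} ∫∫∫ a(h₁) b(h₂) c(h₃) sg x y * sg x z`: indeed the inner integral is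
`∫ a(h₁) (∫ b(h₂) sg x y) (∫ c(h₃) sg x z)`. It is convenient to prove a general lemma: for a
bounded function `Ψ : Γ → Γ → Γ → ℝ` the three iterated integrals
`∫_{h₁} ∫_{h₂} ∫_{h₃} a b c Ψ(π(v h₁), π(v h₂), π(v h₃))` in any order agree (the integrand is integrable on
`μ.prod (μ.prod μ)`: product of integrable functions times a bounded measurable function). Then sum the
three terms pointwise and use `∫_{v ∈ D} 1 = dm μ π`. -/

set_option linter.unusedSimpArgs false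
set_option linter.unusedSectionVars false
set_option linter.unusedVariables false
set_option linter.style.haveILetI false

open MeasureTheory

namespace SPN

section

variable {X : Type*} [LinearOrder X]

theorem sg_cyc (x y z : X) :
    sg x y * sg x z + sg y x * sg y z + sg z x * sg z y = 1 - eqi x y * eqi x z := by
  rcases lt_trichotomy x y with h1 | h1 | h1 <;> rcases lt_trichotomy y z with h2 | h2 | h2 <;>
    rcases lt_trichotomy x z with h3 | h3 | h3 <;>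
    simp only [sg, eqi] <;>
    first
      | (subst h1; subst h2; simp)
      | (exfalso; order)
      | (simp [h1, h2, h3, h1.le, h2.le, h3.le, h1.ne, h2.ne, h3.ne, h1.not_ge, h2.not_ge,
          h3.not_ge, h1.ne', h2.ne', h3.ne'])
      | (subst h1; simp [h2, h3, h2.le, h3.le, h2.ne, h3.ne, h2.not_ge, h3.not_ge, h2.ne', h3.ne'])
      | (subst h2; simp [h1, h3, h1.le, h3.le, h1.ne, h3.ne, h1.not_ge, h3.not_ge, h1.ne', h3.ne'])
      | (subst h3; simp [h1, h2, h1.le, h2.le, h1.ne, h2.ne, h1.not_ge, h2.not_ge, h1.ne', h2.ne'])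

theorem eqi_cyc (x y z : X) : eqi x y * eqi x z = eqi y x * eqi y z := by
  by_cases h1 : x = y
  · subst h1
    by_cases h2 : x = z <;> simp [eqi, h2]
  · have h1' : y ≠ x := fun h => h1 h.symm
    simp [eqi, h1, h1']

end

variable {G : Type*} [Group G] [MeasurableSpace G] [MeasurableMul₂ G] {μ : Measure G}
  [SigmaFinite μ] {Γ : Subgroup G} {π : G → Γ} {X : Type*} [LinearOrder X] {q : Γ → X}

omit [SigmaFinite μ] in
private theorem cyc_meas1 (hD : Dm μ Γ π) (v : G) (g : Γ → ℝ) :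
    Measurable (fun h : G => g (π (v * h))) := by
  haveI := hD.cnt
  intro s _
  have e : (fun h : G => g (π (v * h))) ⁻¹' s =
      ⋃ γ ∈ {γ : Γ | g γ ∈ s}, (fun h => v * h) ⁻¹' (π ⁻¹' {γ}) := by
    ext h
    simp
  rw [e]
  exact MeasurableSet.biUnion (Set.to_countable _)
    (fun γ _ => (measurable_const_mul v) (hD.meas γ))

omit [SigmaFinite μ] in
private theorem cyc_meas2 (hD : Dm μ Γ π) (v : G) (g : Γ → Γ → ℝ) :
    Measurable (fun p : G × G => g (π (v * p.1)) (π (v * p.2))) := by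
  haveI := hD.cnt
  intro s _
  have e : (fun p : G × G => g (π (v * p.1)) (π (v * p.2))) ⁻¹' s =
      ⋃ γ ∈ {γ : Γ × Γ | g γ.1 γ.2 ∈ s},
        ((fun h => v * h) ⁻¹' (π ⁻¹' {γ.1})) ×ˢ ((fun h => v * h) ⁻¹' (π ⁻¹' {γ.2})) := by
    ext p
    simp
  rw [e]
  exact MeasurableSet.biUnion (Set.to_countable _)
    (fun γ _ => ((measurable_const_mul v) (hD.meas γ.1)).prod
      ((measurable_const_mul v) (hD.meas γ.2)))

omit [SigmaFinite μ] in
private theorem cyc_int1 (hD : Dm μ Γ π) (v : G) {g : Γ → ℝ} {C : ℝ} (hg : ∀ x, |g x| ≤ C)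
    {c : G → ℝ} (hc : Integrable c μ) : Integrable (fun h => c h * g (π (v * h))) μ := by
  refine (hc.norm.mul_const C).mono' (hc.1.mul (cyc_meas1 hD v g).aestronglyMeasurable) ?_
  filter_upwards with h
  rw [norm_mul]
  exact mul_le_mul_of_nonneg_left (hg _) (norm_nonneg _)

omit [SigmaFinite μ] in
private theorem cyc_bd1 (hD : Dm μ Γ π) (v : G) {g : Γ → ℝ} {C : ℝ} (hg : ∀ x, |g x| ≤ C)
    {c : G → ℝ} (hc : Integrable c μ) :
    |∫ h, c h * g (π (v * h)) ∂μ| ≤ (∫ h, ‖c h‖ ∂μ) * C := by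
  rw [← integral_mul_const, ← Real.norm_eq_abs]
  refine (norm_integral_le_integral_norm _).trans
    (integral_mono (cyc_int1 hD v hg hc).norm (hc.norm.mul_const C) fun h => ?_)
  simp only [norm_mul]
  exact mul_le_mul_of_nonneg_left (hg _) (norm_nonneg _)

private theorem cyc_swap (hD : Dm μ Γ π) (v : G) {g : Γ → Γ → ℝ} {C : ℝ}
    (hg : ∀ x y, |g x y| ≤ C) {a b : G → ℝ} (ha : Integrable a μ) (hb : Integrable b μ) :
    ∫ h1, a h1 * ∫ h2, b h2 * g (π (v * h1)) (π (v * h2)) ∂μ ∂μ =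
      ∫ h2, b h2 * ∫ h1, a h1 * g (π (v * h1)) (π (v * h2)) ∂μ ∂μ := by
  have hint : Integrable (Function.uncurry (fun h1 h2 => a h1 * (b h2 *
      g (π (v * h1)) (π (v * h2))))) (μ.prod μ) := by
    have h0 : Integrable (fun p : G × G => a p.1 * b p.2) (μ.prod μ) := ha.mul_prod hb
    have := (h0.norm.mul_const C).mono'
      (f := fun p : G × G => (a p.1 * b p.2) * g (π (v * p.1)) (π (v * p.2)))
      (h0.1.mul (cyc_meas2 hD v g).aestronglyMeasurable)
      (by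
        filter_upwards with p
        rw [norm_mul]
        exact mul_le_mul_of_nonneg_left (hg _ _) (norm_nonneg _))
    refine this.congr ?_
    filter_upwards with p
    simp only [Function.uncurry]
    ring
  have e1 : ∀ h1, a h1 * ∫ h2, b h2 * g (π (v * h1)) (π (v * h2)) ∂μ =
      ∫ h2, a h1 * (b h2 * g (π (v * h1)) (π (v * h2))) ∂μ := fun h1 =>
    (integral_const_mul _ _).symm
  have e2 : ∀ h2, b h2 * ∫ h1, a h1 * g (π (v * h1)) (π (v * h2)) ∂μ =
      ∫ h1, a h1 * (b h2 * g (π (v * h1)) (π (v * h2))) ∂μ := fun h2 => by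
    rw [← integral_const_mul]
    refine integral_congr_ae ?_
    filter_upwards with h1
    ring
  simp only [e1, e2]
  exact integral_integral_swap hint

/-- the triple integral -/
private noncomputable def M3 (μ : Measure G) (π : G → Γ) (v : G) (a b c : G → ℝ)
    (Ψ : Γ → Γ → Γ → ℝ) : ℝ :=
  ∫ h1, a h1 * ∫ h2, b h2 * ∫ h3, c h3 * Ψ (π (v * h1)) (π (v * h2)) (π (v * h3)) ∂μ ∂μ ∂μ

private theorem M3_swap12 (hD : Dm μ Γ π) (v : G) {Ψ : Γ → Γ → Γ → ℝ} {C : ℝ}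
    (hΨ : ∀ x y z, |Ψ x y z| ≤ C) {a b c : G → ℝ} (ha : Integrable a μ) (hb : Integrable b μ)
    (hc : Integrable c μ) : M3 μ π v a b c Ψ = M3 μ π v b a c (fun x y z => Ψ y x z) := by
  unfold M3
  exact cyc_swap hD v (g := fun x y => ∫ h3, c h3 * Ψ x y (π (v * h3)) ∂μ)
    (fun x y => cyc_bd1 hD v (fun z => hΨ x y z) hc) ha hb

private theorem M3_swap23 (hD : Dm μ Γ π) (v : G) {Ψ : Γ → Γ → Γ → ℝ} {C : ℝ}
    (hΨ : ∀ x y z, |Ψ x y z| ≤ C) {a b c : G → ℝ} (hb : Integrable b μ)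
    (hc : Integrable c μ) : M3 μ π v a b c Ψ = M3 μ π v a c b (fun x y z => Ψ x z y) := by
  unfold M3
  refine integral_congr_ae ?_
  filter_upwards with h1
  congr 1
  exact cyc_swap hD v (g := fun y z => Ψ (π (v * h1)) y z) (fun y z => hΨ _ y z) hb hc

private theorem M3_add (hD : Dm μ Γ π) (v : G) {Ψ Φ : Γ → Γ → Γ → ℝ} {C C' : ℝ}
    (hΨ : ∀ x y z, |Ψ x y z| ≤ C) (hΦ : ∀ x y z, |Φ x y z| ≤ C') {a b c : G → ℝ}
    (ha : Integrable a μ) (hb : Integrable b μ) (hc : Integrable c μ) :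
    M3 μ π v a b c (fun x y z => Ψ x y z + Φ x y z) = M3 μ π v a b c Ψ + M3 μ π v a b c Φ := by
  unfold M3
  have e3 : ∀ x y, ∫ h3, c h3 * (Ψ x y (π (v * h3)) + Φ x y (π (v * h3))) ∂μ =
      (∫ h3, c h3 * Ψ x y (π (v * h3)) ∂μ) + ∫ h3, c h3 * Φ x y (π (v * h3)) ∂μ := fun x y => by
    rw [← integral_add (cyc_int1 hD v (fun z => hΨ x y z) hc)
      (cyc_int1 hD v (fun z => hΦ x y z) hc)]
    refine integral_congr_ae ?_
    filter_upwards with h
    ring
  simp only [e3]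
  have e2 : ∀ x, ∫ h2, b h2 * ((∫ h3, c h3 * Ψ x (π (v * h2)) (π (v * h3)) ∂μ) +
      ∫ h3, c h3 * Φ x (π (v * h2)) (π (v * h3)) ∂μ) ∂μ =
      (∫ h2, b h2 * ∫ h3, c h3 * Ψ x (π (v * h2)) (π (v * h3)) ∂μ ∂μ) +
      ∫ h2, b h2 * ∫ h3, c h3 * Φ x (π (v * h2)) (π (v * h3)) ∂μ ∂μ := fun x => by
    rw [← integral_add
      (cyc_int1 hD v (g := fun y => ∫ h3, c h3 * Ψ x y (π (v * h3)) ∂μ)
        (fun y => cyc_bd1 hD v (fun z => hΨ x y z) hc) hb)
      (cyc_int1 hD v (g := fun y => ∫ h3, c h3 * Φ x y (π (v * h3)) ∂μ)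
        (fun y => cyc_bd1 hD v (fun z => hΦ x y z) hc) hb)]
    refine integral_congr_ae ?_
    filter_upwards with h
    ring
  simp only [e2]
  rw [← integral_add
      (cyc_int1 hD v (g := fun x => ∫ h2, b h2 * ∫ h3, c h3 * Ψ x (π (v * h2)) (π (v * h3)) ∂μ ∂μ)
        (fun x => cyc_bd1 hD v (g := fun y => ∫ h3, c h3 * Ψ x y (π (v * h3)) ∂μ)
          (fun y => cyc_bd1 hD v (fun z => hΨ x y z) hc) hb) ha)
      (cyc_int1 hD v (g := fun x => ∫ h2, b h2 * ∫ h3, c h3 * Φ x (π (v * h2)) (π (v * h3)) ∂μ ∂μ)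
        (fun x => cyc_bd1 hD v (g := fun y => ∫ h3, c h3 * Φ x y (π (v * h3)) ∂μ)
          (fun y => cyc_bd1 hD v (fun z => hΦ x y z) hc) hb) ha)]
  refine integral_congr_ae ?_
  filter_upwards with h
  ring

private theorem M3_const (v : G) (a b c : G → ℝ) (r : ℝ) :
    M3 μ π v a b c (fun _ _ _ => r) = (∫ h, a h ∂μ) * (∫ h, b h ∂μ) * (∫ h, c h ∂μ) * r := by
  unfold M3
  simp only [integral_mul_const]
  ring

private theorem M3_split (v : G) (a b c : G → ℝ) (s : Γ → Γ → ℝ) :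
    M3 μ π v a b c (fun x y z => s x y * s x z) =
      ∫ h, a h * ((∫ h', b h' * s (π (v * h)) (π (v * h')) ∂μ) *
        ∫ h', c h' * s (π (v * h)) (π (v * h')) ∂μ) ∂μ := by
  unfold M3
  refine integral_congr_ae ?_
  filter_upwards with h1
  congr 1
  rw [← integral_mul_const]
  refine integral_congr_ae ?_
  filter_upwards with h2
  have : ∫ h3, c h3 * (s (π (v * h1)) (π (v * h2)) * s (π (v * h1)) (π (v * h3))) ∂μ =
      s (π (v * h1)) (π (v * h2)) * ∫ h3, c h3 * s (π (v * h1)) (π (v * h3)) ∂μ := by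
    rw [← integral_const_mul]
    refine integral_congr_ae ?_
    filter_upwards with h3
    ring
  rw [this]
  ring

private theorem cyc_sg1 (q : Γ → X) (x y : Γ) : |sg (q x) (q y)| ≤ 1 := sg_abs_le _ _

private theorem cyc_eqi1 (q : Γ → X) (x y : Γ) : |eqi (q x) (q y)| ≤ 1 := by
  rw [abs_of_nonneg (eqi_nonneg _ _)]
  exact eqi_le_one _ _

private theorem cyc_mul1 {s t : ℝ} (hs : |s| ≤ 1) (ht : |t| ≤ 1) : |s * t| ≤ 1 := by
  rw [abs_mul]
  exact mul_le_one₀ hs (abs_nonneg _) ht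

private theorem cyc_T1in (v : G) (a b c : G → ℝ) :
    ∫ h, a h * (Sf μ π q b v (π (v * h)) * Sf μ π q c v (π (v * h))) ∂μ =
      M3 μ π v a b c (fun x y z => sg (q x) (q y) * sg (q x) (q z)) := by
  rw [M3_split v a b c (fun x y => sg (q x) (q y))]
  rfl

private theorem cyc_N1in (v : G) (a b c : G → ℝ) :
    ∫ h, a h * (Nf μ π q b v (π (v * h)) * Nf μ π q c v (π (v * h))) ∂μ =
      M3 μ π v a b c (fun x y z => eqi (q x) (q y) * eqi (q x) (q z)) := by
  rw [M3_split v a b c (fun x y => eqi (q x) (q y))]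
  rfl

private theorem cyc_pt (hD : Dm μ Γ π) (v : G) {a b c : G → ℝ} (ha : Integrable a μ)
    (hb : Integrable b μ) (hc : Integrable c μ) :
    (∫ h, a h * (Sf μ π q b v (π (v * h)) * Sf μ π q c v (π (v * h))) ∂μ) +
    (∫ h, b h * (Sf μ π q a v (π (v * h)) * Sf μ π q c v (π (v * h))) ∂μ) +
    (∫ h, c h * (Sf μ π q a v (π (v * h)) * Sf μ π q b v (π (v * h))) ∂μ) +
    (∫ h, a h * (Nf μ π q b v (π (v * h)) * Nf μ π q c v (π (v * h))) ∂μ) =
      (∫ h, a h ∂μ) * (∫ h, b h ∂μ) * (∫ h, c h ∂μ) := by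
  rw [cyc_T1in, cyc_T1in, cyc_T1in, cyc_N1in]
  have b1 : ∀ x y z : Γ, |sg (q x) (q y) * sg (q x) (q z)| ≤ 1 := fun x y z =>
    cyc_mul1 (cyc_sg1 q _ _) (cyc_sg1 q _ _)
  have b2 : ∀ x y z : Γ, |sg (q y) (q x) * sg (q y) (q z)| ≤ 1 := fun x y z => b1 y x z
  have b3 : ∀ x y z : Γ, |sg (q z) (q x) * sg (q z) (q y)| ≤ 1 := fun x y z => b1 z x y
  have b4 : ∀ x y z : Γ, |eqi (q x) (q y) * eqi (q x) (q z)| ≤ 1 := fun x y z =>
    cyc_mul1 (cyc_eqi1 q _ _) (cyc_eqi1 q _ _)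
  rw [M3_swap12 hD v b1 hb ha hc, M3_swap12 hD v b1 hc ha hb, M3_swap23 hD v b2 hc hb,
    ← M3_add hD v b1 b2 ha hb hc, ← M3_add hD v (C := 2) (C' := 1) _ b3 ha hb hc,
    ← M3_add hD v (C := 3) (C' := 1) _ b4 ha hb hc]
  · have e : (fun x y z : Γ => sg (q x) (q y) * sg (q x) (q z) + sg (q y) (q x) * sg (q y) (q z)
        + sg (q z) (q x) * sg (q z) (q y) + eqi (q x) (q y) * eqi (q x) (q z)) =
        fun _ _ _ => (1 : ℝ) := by
      funext x y z
      rw [sg_cyc]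
      ring
    rw [e, M3_const, mul_one]
  · intro x y z
    refine (abs_add_le _ _).trans ?_
    have h1 := (abs_add_le (sg (q x) (q y) * sg (q x) (q z)) (sg (q y) (q x) * sg (q y) (q z)))
    have := b1 x y z
    have := b2 x y z
    have := b3 x y z
    linarith
  · intro x y z
    refine (abs_add_le _ _).trans ?_
    have := b1 x y z
    have := b2 x y z
    linarith

private theorem cyc_Sint (hD : Dm μ Γ π) (hq : Mo q) {a b c : G → ℝ} (ha : Integrable a μ)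
    (hb : Integrable b μ) (hc : Integrable c μ) :
    Integrable (fun v => ∫ h, a h * (Sf μ π q b v (π (v * h)) * Sf μ π q c v (π (v * h))) ∂μ)
      (μ.restrict (D0 π)) :=
  integrable_out hD ((Gf_Sf hD hq hb).mul (Gf_Sf hD hq hc)) ha

private theorem cyc_Nint (hD : Dm μ Γ π) (hq : Mo q) {a b c : G → ℝ} (ha : Integrable a μ)
    (hb : Integrable b μ) (hc : Integrable c μ) :
    Integrable (fun v => ∫ h, a h * (Nf μ π q b v (π (v * h)) * Nf μ π q c v (π (v * h))) ∂μ)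
      (μ.restrict (D0 π)) :=
  integrable_out hD ((Gf_Nf hD hq hb).mul (Gf_Nf hD hq hc)) ha

private theorem cyc_add4 {ν : Measure G} {f1 f2 f3 f4 : G → ℝ} (h1 : Integrable f1 ν)
    (h2 : Integrable f2 ν) (h3 : Integrable f3 ν) (h4 : Integrable f4 ν) :
    (∫ v, f1 v ∂ν) + (∫ v, f2 v ∂ν) + (∫ v, f3 v ∂ν) + (∫ v, f4 v ∂ν) =
      ∫ v, (f1 v + f2 v + f3 v + f4 v) ∂ν := by
  have e1 : ∫ v, (f1 v + f2 v) ∂ν = (∫ v, f1 v ∂ν) + ∫ v, f2 v ∂ν := integral_add h1 h2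
  have e2 : ∫ v, ((f1 v + f2 v) + f3 v) ∂ν = (∫ v, (f1 v + f2 v) ∂ν) + ∫ v, f3 v ∂ν :=
    integral_add (h1.add h2) h3
  have e3 : ∫ v, ((f1 v + f2 v + f3 v) + f4 v) ∂ν =
      (∫ v, (f1 v + f2 v + f3 v) ∂ν) + ∫ v, f4 v ∂ν := integral_add ((h1.add h2).add h3) h4
  rw [e3, e2, e1]

theorem T1_cyc (hD : Dm μ Γ π) (hq : Mo q) {a b c : G → ℝ} (ha : Integrable a μ)
    (hb : Integrable b μ) (hc : Integrable c μ) :
    T1 μ π q a b c + T1 μ π q b a c + T1 μ π q c a b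
      = dm μ π * (∫ h, a h ∂μ) * (∫ h, b h ∂μ) * (∫ h, c h ∂μ) - N1 μ π q a b c := by
  rw [eq_sub_iff_add_eq]
  unfold T1 N1 av
  have hsum := cyc_add4 (cyc_Sint hD hq ha hb hc) (cyc_Sint hD hq hb ha hc)
    (cyc_Sint hD hq hc ha hb) (cyc_Nint hD hq ha hb hc)
  refine hsum.trans ?_
  have : ∀ v, (∫ h, a h * (Sf μ π q b v (π (v * h)) * Sf μ π q c v (π (v * h))) ∂μ) +
    (∫ h, b h * (Sf μ π q a v (π (v * h)) * Sf μ π q c v (π (v * h))) ∂μ) +
    (∫ h, c h * (Sf μ π q a v (π (v * h)) * Sf μ π q b v (π (v * h))) ∂μ) +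
    (∫ h, a h * (Nf μ π q b v (π (v * h)) * Nf μ π q c v (π (v * h))) ∂μ) =
      (∫ h, a h ∂μ) * (∫ h, b h ∂μ) * (∫ h, c h ∂μ) := fun v => cyc_pt hD v ha hb hc
  calc _ = ∫ v in D0 π, (∫ h, a h ∂μ) * (∫ h, b h ∂μ) * (∫ h, c h ∂μ) ∂μ :=
        integral_congr_ae (Filter.Eventually.of_forall this)
    _ = _ := by
        rw [setIntegral_const, smul_eq_mul]
        unfold dm Measure.real
        ring

theorem N1_perm (hD : Dm μ Γ π) (hq : Mo q) {a b c : G → ℝ} (ha : Integrable a μ)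
    (hb : Integrable b μ) (hc : Integrable c μ) : N1 μ π q a b c = N1 μ π q b a c := by
  unfold N1 av
  refine integral_congr_ae (Filter.Eventually.of_forall fun v => ?_)
  show ∫ h, a h * (Nf μ π q b v (π (v * h)) * Nf μ π q c v (π (v * h))) ∂μ =
    ∫ h, b h * (Nf μ π q a v (π (v * h)) * Nf μ π q c v (π (v * h))) ∂μ
  rw [cyc_N1in, cyc_N1in]
  rw [M3_swap12 hD v (C := 1) (fun x y z => cyc_mul1 (cyc_eqi1 q _ _) (cyc_eqi1 q _ _)) ha hb hc]
  congr 1
  funext x y z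
  exact eqi_cyc _ _ _

theorem TT_cyc (hD : Dm μ Γ π) (hq : Mo q) {a b c : G → ℝ} (ha : Integrable a μ)
    (hb : Integrable b μ) (hc : Integrable c μ) :
    TT μ π q a b c + TT μ π q b a c + TT μ π q c a b
      = dm μ π * (∫ h, a h ∂μ) * (∫ h, b h ∂μ) * (∫ h, c h ∂μ) := by
  have h1 := T1_cyc hD hq ha hb hc
  have h2 := N1_perm hD hq ha hb hc
  have h3 := N1_perm hD hq hc ha hb
  have h4 : N1 μ π q a c b = N1 μ π q a b c := by
    unfold N1
    congr 1
    funext v γ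
    ring
  unfold TT
  linarith

end SPN
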