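import Pool.Agent.SPN.Sgf

/-! # Module Lin (difficulty 3): linearity and monotonicity of `av`, `Sf`, `Nf`

All statements follow from linearity and monotonicity of integrals: the inner integral
`∫ a h * g v (π (v h))` is integrable (`integrable_in`), the outer one over `D0 π` too (`integrable_out`).
`av_abs_le`: `|∫ a h * g v (..)| ≤ C ∫ |a|`, and `(μ (D0 π)).toReal = dm μ π` (`hD.fin`).
For `Sf`, `Nf` integrability of `b h * sg ..`: bounded measurable times integrable (`integrable_in` with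
the `g` given by `g v γ' = sg (q γ) (q γ')`: this `g` is not invariant, so reprove it with
`meas_pair` composed with `h ↦ (v, h)`). -/

open MeasureTheory

namespace SPN

variable {G : Type*} [Group G] [MeasurableSpace G] [MeasurableMul₂ G] {μ : Measure G}
  {Γ : Subgroup G} {π : G → Γ} {X : Type*} [LinearOrder X] {q : Γ → X}

private theorem Lin_int (hD : Dm μ Γ π) {b : G → ℝ} (hb : Integrable b μ) (f : Γ → ℝ)
    (hf : ∀ γ, |f γ| ≤ 1) (v : G) : Integrable (fun h => b h * f (π (v * h))) μ := by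
  have hm : Measurable (fun h : G => f (π (v * h))) := by
    have h1 := meas_pair hD (g := fun _ γ => f γ) (fun γ => measurable_const)
    exact h1.comp measurable_prodMk_left
  have h2 := hb.bdd_mul (f := fun h : G => f (π (v * h))) (c := 1) hm.aestronglyMeasurable
    (Filter.Eventually.of_forall fun h => by rw [Real.norm_eq_abs]; exact hf _)
  refine h2.congr (Filter.Eventually.of_forall fun h => ?_)
  exact mul_comm _ _

private theorem Lin_intS (hD : Dm μ Γ π) {b : G → ℝ} (hb : Integrable b μ) (v : G) (γ : Γ) :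
    Integrable (fun h => b h * sg (q γ) (q (π (v * h)))) μ :=
  Lin_int hD hb (fun γ' => sg (q γ) (q γ')) (fun _ => sg_abs_le _ _) v

private theorem Lin_intN (hD : Dm μ Γ π) {b : G → ℝ} (hb : Integrable b μ) (v : G) (γ : Γ) :
    Integrable (fun h => b h * eqi (q γ) (q (π (v * h)))) μ :=
  Lin_int hD hb (fun γ' => eqi (q γ) (q γ'))
    (fun _ => by rw [abs_of_nonneg (eqi_nonneg _ _)]; exact eqi_le_one _ _) v

theorem Sf_add (hD : Dm μ Γ π) {b c : G → ℝ} (hb : Integrable b μ) (hc : Integrable c μ)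
    (v : G) (γ : Γ) :
    Sf μ π q (fun h => b h + c h) v γ = Sf μ π q b v γ + Sf μ π q c v γ := by
  unfold Sf
  simp only [add_mul]
  exact integral_add (Lin_intS hD hb v γ) (Lin_intS hD hc v γ)

theorem Sf_cmul (r : ℝ) (b : G → ℝ) (v : G) (γ : Γ) :
    Sf μ π q (fun h => r * b h) v γ = r * Sf μ π q b v γ := by
  unfold Sf
  simp only [mul_assoc]
  exact integral_const_mul _ _

theorem Sf_sum (hD : Dm μ Γ π) {ι : Type*} (s : Finset ι) {b : ι → G → ℝ}
    (hb : ∀ i ∈ s, Integrable (b i) μ) (v : G) (γ : Γ) :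
    Sf μ π q (fun h => ∑ i ∈ s, b i h) v γ = ∑ i ∈ s, Sf μ π q (b i) v γ := by
  unfold Sf
  simp only [Finset.sum_mul]
  exact integral_finsetSum s (fun i hi => Lin_intS hD (hb i hi) v γ)

theorem Nf_add (hD : Dm μ Γ π) {b c : G → ℝ} (hb : Integrable b μ) (hc : Integrable c μ)
    (v : G) (γ : Γ) :
    Nf μ π q (fun h => b h + c h) v γ = Nf μ π q b v γ + Nf μ π q c v γ := by
  unfold Nf
  simp only [add_mul]
  exact integral_add (Lin_intN hD hb v γ) (Lin_intN hD hc v γ)

theorem Nf_cmul (r : ℝ) (b : G → ℝ) (v : G) (γ : Γ) :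
    Nf μ π q (fun h => r * b h) v γ = r * Nf μ π q b v γ := by
  unfold Nf
  simp only [mul_assoc]
  exact integral_const_mul _ _

theorem Nf_le (hD : Dm μ Γ π) {b : G → ℝ} (hb : Integrable b μ) (h0 : ∀ h, 0 ≤ b h) (v : G)
    (γ : Γ) : Nf μ π q b v γ ≤ ∫ h, b h ∂μ := by
  unfold Nf
  apply integral_mono (Lin_intN hD hb v γ) hb
  intro h
  have h1 := mul_le_mul_of_nonneg_left (eqi_le_one (q γ) (q (π (v * h)))) (h0 h)
  rw [mul_one] at h1
  exact h1

variable [SigmaFinite μ]

theorem av_add_left (hD : Dm μ Γ π) {a a' : G → ℝ} (ha : Integrable a μ) (ha' : Integrable a' μ)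
    {g : G → Γ → ℝ} (hg : Gf g) :
    av μ π (fun h => a h + a' h) g = av μ π a g + av μ π a' g := by
  unfold av
  rw [← integral_add (integrable_out hD hg ha) (integrable_out hD hg ha')]
  congr 1
  funext v
  rw [← integral_add (integrable_in hD hg ha v) (integrable_in hD hg ha' v)]
  congr 1
  funext h
  ring

theorem av_cmul_left (r : ℝ) (a : G → ℝ) (g : G → Γ → ℝ) :
    av μ π (fun h => r * a h) g = r * av μ π a g := by
  unfold av
  simp only [mul_assoc, integral_const_mul]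

theorem av_sum_left (hD : Dm μ Γ π) {ι : Type*} (s : Finset ι) {a : ι → G → ℝ}
    (ha : ∀ i ∈ s, Integrable (a i) μ) {g : G → Γ → ℝ} (hg : Gf g) :
    av μ π (fun h => ∑ i ∈ s, a i h) g = ∑ i ∈ s, av μ π (a i) g := by
  unfold av
  rw [← integral_finsetSum s (fun i hi => integrable_out hD hg (ha i hi))]
  congr 1
  funext v
  rw [← integral_finsetSum s (fun i hi => integrable_in hD hg (ha i hi) v)]
  congr 1
  funext h
  rw [Finset.sum_mul]

theorem av_add_right (hD : Dm μ Γ π) {a : G → ℝ} (ha : Integrable a μ) {g g' : G → Γ → ℝ}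
    (hg : Gf g) (hg' : Gf g') :
    av μ π a (fun v γ => g v γ + g' v γ) = av μ π a g + av μ π a g' := by
  unfold av
  rw [← integral_add (integrable_out hD hg ha) (integrable_out hD hg' ha)]
  congr 1
  funext v
  rw [← integral_add (integrable_in hD hg ha v) (integrable_in hD hg' ha v)]
  congr 1
  funext h
  ring

theorem av_cmul_right (r : ℝ) (a : G → ℝ) (g : G → Γ → ℝ) :
    av μ π a (fun v γ => r * g v γ) = r * av μ π a g := by
  unfold av
  simp only [mul_left_comm _ r, integral_const_mul]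

theorem av_sum_right (hD : Dm μ Γ π) {a : G → ℝ} (ha : Integrable a μ) {ι : Type*}
    (s : Finset ι) {g : ι → G → Γ → ℝ} (hg : ∀ i ∈ s, Gf (g i)) :
    av μ π a (fun v γ => ∑ i ∈ s, g i v γ) = ∑ i ∈ s, av μ π a (g i) := by
  unfold av
  rw [← integral_finsetSum s (fun i hi => integrable_out hD (hg i hi) ha)]
  congr 1
  funext v
  rw [← integral_finsetSum s (fun i hi => integrable_in hD (hg i hi) ha v)]
  congr 1
  funext h
  rw [Finset.mul_sum]

theorem av_mono_right (hD : Dm μ Γ π) {a : G → ℝ} (ha : Integrable a μ) (h0 : ∀ h, 0 ≤ a h)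
    {g g' : G → Γ → ℝ} (hg : Gf g) (hg' : Gf g') (h : ∀ v γ, g v γ ≤ g' v γ) :
    av μ π a g ≤ av μ π a g' := by
  unfold av
  apply integral_mono (integrable_out hD hg ha) (integrable_out hD hg' ha)
  intro v
  apply integral_mono (integrable_in hD hg ha v) (integrable_in hD hg' ha v)
  intro x
  exact mul_le_mul_of_nonneg_left (h _ _) (h0 x)

theorem av_mono_left (hD : Dm μ Γ π) {a a' : G → ℝ} (ha : Integrable a μ)
    (ha' : Integrable a' μ) (h : ∀ x, a x ≤ a' x) {g : G → Γ → ℝ} (hg : Gf g)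
    (h0 : ∀ v γ, 0 ≤ g v γ) : av μ π a g ≤ av μ π a' g := by
  unfold av
  apply integral_mono (integrable_out hD hg ha) (integrable_out hD hg ha')
  intro v
  apply integral_mono (integrable_in hD hg ha v) (integrable_in hD hg ha' v)
  intro x
  exact mul_le_mul_of_nonneg_right (h x) (h0 _ _)

theorem av_nonneg {a : G → ℝ} (h0 : ∀ h, 0 ≤ a h) {g : G → Γ → ℝ} (h1 : ∀ v γ, 0 ≤ g v γ) :
    0 ≤ av μ π a g := by
  unfold av
  apply integral_nonneg
  intro v
  apply integral_nonneg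
  intro x
  exact mul_nonneg (h0 x) (h1 _ _)

theorem av_abs_le (hD : Dm μ Γ π) {a : G → ℝ} (ha : Integrable a μ) {g : G → Γ → ℝ}
    (hg : Gf g) {C : ℝ} (hC : ∀ v γ, |g v γ| ≤ C) :
    |av μ π a g| ≤ dm μ π * (∫ h, |a h| ∂μ) * C := by
  have hin : ∀ v, ‖∫ h, a h * g v (π (v * h)) ∂μ‖ ≤ (∫ h, |a h| ∂μ) * C := by
    intro v
    rw [← integral_mul_const]
    apply norm_integral_le_of_norm_le (ha.abs.mul_const C)
    refine Filter.Eventually.of_forall fun h => ?_
    rw [Real.norm_eq_abs, abs_mul]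
    exact mul_le_mul_of_nonneg_left (hC _ _) (abs_nonneg _)
  have h1 := norm_setIntegral_le_of_norm_le_const (μ := μ) (s := D0 π)
    (f := fun v => ∫ h, a h * g v (π (v * h)) ∂μ) (C := (∫ h, |a h| ∂μ) * C) hD.fin
    (fun v _ => hin v)
  unfold av dm
  rw [Real.norm_eq_abs] at h1
  refine h1.trans (le_of_eq ?_)
  rw [Measure.real]
  ring

theorem av_const (hD : Dm μ Γ π) {a : G → ℝ} (ha : Integrable a μ) (c : ℝ) :
    av μ π a (fun _ _ => c) = dm μ π * (∫ h, a h ∂μ) * c := by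
  unfold av dm
  simp only [integral_mul_const, integral_const, MeasurableSet.univ, measureReal_restrict_apply,
    Set.univ_inter, smul_eq_mul]
  have e : μ.real (D0 π) = (μ (D0 π)).toReal := rfl
  rw [e, mul_assoc]

/-- Cauchy-Schwarz: `⟨|g|⟩_a² ≤ dm * ∫ a * ⟨g²⟩_a`. PROOF. `0 ≤ ⟨(|g| - t)²⟩_a` for all real `t`
(`av_nonneg`, `av_add_right`, ...), take `t = ⟨|g|⟩ / (dm ∫ a)` (if `dm ∫ a = 0` then `⟨|g|⟩ = 0` by
`av_abs_le`). -/
theorem av_cs (hD : Dm μ Γ π) {a : G → ℝ} (ha : Integrable a μ) (h0 : ∀ h, 0 ≤ a h)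
    {g : G → Γ → ℝ} (hg : Gf g) :
    av μ π a (fun v γ => |g v γ|) ^ 2 ≤
      dm μ π * (∫ h, a h ∂μ) * av μ π a (fun v γ => g v γ ^ 2) := by
  obtain ⟨C, hC⟩ := hg.bdd
  have hga := hg.abs
  have hg2 : Gf (fun v γ => g v γ ^ 2) := by
    have := hg.mul hg
    simpa only [pow_two] using this
  obtain ⟨A, hA⟩ : ∃ A, A = av μ π a (fun v γ => g v γ ^ 2) := ⟨_, rfl⟩
  obtain ⟨B, hB⟩ : ∃ B, B = av μ π a (fun v γ => |g v γ|) := ⟨_, rfl⟩
  obtain ⟨M, hM⟩ : ∃ M, M = dm μ π * (∫ h, a h ∂μ) := ⟨_, rfl⟩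
  have hM0 : 0 ≤ M := by
    rw [hM]
    exact mul_nonneg ENNReal.toReal_nonneg (integral_nonneg h0)
  have hexp : ∀ t : ℝ, 0 ≤ A + ((-2 * t) * B + M * t ^ 2) := by
    intro t
    have e1 : av μ π a (fun v γ => g v γ ^ 2 + ((-2 * t) * |g v γ| + t ^ 2)) =
        A + ((-2 * t) * B + M * t ^ 2) := by
      rw [av_add_right hD ha hg2 ((hga.cmul (-2 * t)).add (Gf_const (t ^ 2))),
        av_add_right hD ha (hga.cmul (-2 * t)) (Gf_const (t ^ 2)), av_cmul_right,
        av_const hD ha, hA, hB, hM]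
    rw [← e1]
    apply av_nonneg h0
    intro v γ
    have : g v γ ^ 2 + (-2 * t * |g v γ| + t ^ 2) = (|g v γ| - t) ^ 2 := by
      rw [← sq_abs (g v γ)]
      ring
    rw [this]
    positivity
  rw [← hA, ← hB, ← hM]
  rcases hM0.eq_or_lt with h | h
  · have h1 := av_abs_le hD ha hga (C := C) (fun v γ => by rw [abs_abs]; exact hC v γ)
    have h2 : (∫ h, |a h| ∂μ) = ∫ h, a h ∂μ := by
      congr 1
      funext x
      exact abs_of_nonneg (h0 x)
    rw [h2, ← hM, ← h, zero_mul, ← hB] at h1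
    have h3 : B = 0 := abs_nonpos_iff.1 h1
    rw [h3, ← h]
    simp
  · have h1 := hexp (B / M)
    have h2 : A + ((-2 * (B / M)) * B + M * (B / M) ^ 2) = A - B ^ 2 / M := by
      field_simp
      ring
    rw [h2] at h1
    have h3 : B ^ 2 / M ≤ A := by linarith
    rw [div_le_iff₀ h] at h3
    linarith

end SPN
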