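import Pool.Agent.SPN.Inv
import Pool.Agent.SPN.Lin

/-! # Module Tra (difficulty 3): invariance under translations

`Sf_mul_right`: `∫ b(h) sg(q γ, q (π (v x h))) dh`, substitute `h ↦ x⁻¹ h` (`integral_mul_left_eq_self`).
`av_translate`: for fixed `v` put `Θ v' = ∫ a(x h) g(v', π (v' h)) dh`. Then
`∫ a(h) g(v x, π (v h)) dh = ∫ a(x h') g(v x, π (v x h')) dh' = Θ (v x)` (substitution `h = x h'`), `Θ` is
`Γ`-invariant (`hg.inv`, `hD.equiv`) and measurable (`StronglyMeasurable.integral_prod_right'`; if `a` is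
only ae-measurable replace it by a measurable function equal to it almost everywhere), so
`int_translate` gives the claim.
`T1_translate`: `T1` of the three translated kernels is `av` of `a (x⁻¹ ·)` applied to the product of
`S_b(v x⁻¹ ..)`: by `Sf_mul_right` with `x⁻¹`... precisely `Sf (fun h => b (x⁻¹ * h)) v γ = Sf b (v * x) γ`, and
`av (fun h => a (x⁻¹ * h)) G' = av a (fun v γ => G' (v * x⁻¹) γ)` by `av_translate` with `x⁻¹`;
`Sf b (v * x⁻¹ * x) γ = Sf b v γ`. -/

open MeasureTheory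

namespace SPN

variable {G : Type*} [Group G] [MeasurableSpace G] [MeasurableMul₂ G] {μ : Measure G}
  [μ.IsMulLeftInvariant] {Γ : Subgroup G} {π : G → Γ} {X : Type*} [LinearOrder X] {q : Γ → X}

theorem Sf_mul_right (b : G → ℝ) (v x : G) (γ : Γ) :
    Sf μ π q b (v * x) γ = Sf μ π q (fun h => b (x⁻¹ * h)) v γ := by
  unfold Sf
  rw [← integral_mul_left_eq_self
    (fun h => b (x⁻¹ * h) * sg (q γ) (q (π (v * h)))) x]
  simp only [inv_mul_cancel_left, mul_assoc]

theorem Nf_mul_right (b : G → ℝ) (v x : G) (γ : Γ) :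
    Nf μ π q b (v * x) γ = Nf μ π q (fun h => b (x⁻¹ * h)) v γ := by
  unfold Nf
  rw [← integral_mul_left_eq_self
    (fun h => b (x⁻¹ * h) * eqi (q γ) (q (π (v * h)))) x]
  simp only [inv_mul_cancel_left, mul_assoc]

variable [SigmaFinite μ] [μ.IsMulRightInvariant]

theorem av_translate (hD : Dm μ Γ π) {a : G → ℝ} (ha : Integrable a μ) {g : G → Γ → ℝ}
    (hg : Gf g) (x : G) :
    av μ π a (fun v γ => g (v * x) γ) = av μ π (fun h => a (x * h)) g := by
  have hsm : StronglyMeasurable (ha.1.mk a) := ha.1.stronglyMeasurable_mk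
  have hae : (fun h => a (x * h)) =ᵐ[μ] fun h => ha.1.mk a (x * h) :=
    (measurePreserving_mul_left μ x).quasiMeasurePreserving.ae_eq_comp ha.1.ae_eq_mk
  obtain ⟨Θ, hΘ⟩ : ∃ Θ : G → ℝ, Θ = fun v' => ∫ h, ha.1.mk a (x * h) * g v' (π (v' * h)) ∂μ :=
    ⟨_, rfl⟩
  have hΦ : ∀ v', ∫ h, a (x * h) * g v' (π (v' * h)) ∂μ = Θ v' := by
    intro v'
    rw [hΘ]
    refine integral_congr_ae ?_
    filter_upwards [hae] with h hh
    rw [hh]
  have hΘm : Measurable Θ := by
    rw [hΘ]
    have h1 : StronglyMeasurable (fun p : G × G => ha.1.mk a (x * p.2) * g p.1 (π (p.1 * p.2))) :=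
      ((hsm.comp_measurable (measurable_const_mul x)).comp_measurable measurable_snd).mul
        (meas_pair hD hg.meas).stronglyMeasurable
    exact (h1.integral_prod_right' (ν := μ)).measurable
  have hΘi : ∀ (γ : Γ) (v : G), Θ (γ * v) = Θ v := by
    intro γ v
    rw [hΘ]
    refine integral_congr_ae (Filter.Eventually.of_forall fun h => ?_)
    show ha.1.mk a (x * h) * g (γ * v) (π (γ * v * h)) = ha.1.mk a (x * h) * g v (π (v * h))
    rw [mul_assoc (γ : G) v h, hD.equiv, hg.inv]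
  unfold av
  have h1 : ∀ v, ∫ h, a h * g (v * x) (π (v * h)) ∂μ = Θ (v * x) := by
    intro v
    rw [← hΦ (v * x), ← integral_mul_left_eq_self (fun h => a h * g (v * x) (π (v * h))) x]
    simp only [mul_assoc]
  simp only [h1, hΦ]
  exact int_translate hD hΘm hΘi x

theorem T1_translate (hD : Dm μ Γ π) (hq : Mo q) {a b c : G → ℝ} (ha : Integrable a μ)
    (hb : Integrable b μ) (hc : Integrable c μ) (x : G) :
    T1 μ π q (fun h => a (x⁻¹ * h)) (fun h => b (x⁻¹ * h)) (fun h => c (x⁻¹ * h))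
      = T1 μ π q a b c := by
  unfold T1
  simp only [← Sf_mul_right]
  have h1 := av_translate hD (ha.comp_mul_left x⁻¹)
    ((Gf_Sf hD hq hb).mul (Gf_Sf hD hq hc)) x
  rw [h1]
  simp only [inv_mul_cancel_left]

theorem TT_translate (hD : Dm μ Γ π) (hq : Mo q) {a b c : G → ℝ} (ha : Integrable a μ)
    (hb : Integrable b μ) (hc : Integrable c μ) (x : G) :
    TT μ π q (fun h => a (x⁻¹ * h)) (fun h => b (x⁻¹ * h)) (fun h => c (x⁻¹ * h))
      = TT μ π q a b c := by
  unfold TT
  rw [T1_translate hD hq ha hb hc x]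
  congr 2
  unfold N1
  simp only [← Nf_mul_right]
  have h1 := av_translate hD (ha.comp_mul_left x⁻¹)
    ((Gf_Nf hD hq hb).mul (Gf_Nf hD hq hc)) x
  rw [h1]
  simp only [inv_mul_cancel_left]

end SPN
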