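import Pool.Agent.SPN.Bnd
import Pool.Agent.SPN.Tra

/-! # Module Der (difficulty 3): the product rule for `TT`

`LD μ x b b'`: `b (x(t)⁻¹ ·) = b + t b' + r_t` with `‖r_t‖₁ / |t| → 0` as `t → 0`, `t ≠ 0`.
`int_deriv`: `∫ b (x(t)⁻¹ h) dh = ∫ b` (left invariance), so `|t ∫ b'| ≤ ‖r_t‖₁`; divide by `|t|`, limit.
`TT_deriv`: by `TT_translate` `TT (a_t) (b_t) (c_t) = TT a b c` with `a_t = a (x(t)⁻¹ ·)` etc. Write
`a_t = a + t a' + r`, ... and expand by trilinearity (`TT_add1`, ..., all functions are integrable: `a_t` by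
left invariance (`Integrable.comp_mul_left`), `r` as a difference). With `‖a_t‖ = ‖a‖` one may
use the telescoping identity
`0 = TT a_t b_t c_t - TT a b c = TT (a_t - a) b_t c_t + TT a (b_t - b) c_t + TT a b (c_t - c)` and
`TT (a_t - a) b_t c_t = t TT a' b c + O(...)`: `a_t - a = t a' + r`, `TT a' b_t c_t - TT a' b c → 0` since
`‖b_t - b‖ ≤ |t| ‖b'‖ + ‖r‖ → 0`. Divide by `t` and let `t → 0`; use `TT_abs_le`. -/

open MeasureTheory

namespace SPN

variable {G : Type*} [Group G] [MeasurableSpace G] [MeasurableMul₂ G] {μ : Measure G}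
  [μ.IsMulLeftInvariant] {Γ : Subgroup G} {π : G → Γ} {X : Type*} [LinearOrder X] {q : Γ → X}

private theorem der_int_r {x : ℝ → G} {b b' : G → ℝ} (hb : Integrable b μ)
    (hb' : Integrable b' μ) (t : ℝ) :
    Integrable (fun h => b ((x t)⁻¹ * h) - b h - t * b' h) μ :=
  ((hb.comp_mul_left (x t)⁻¹).sub hb).sub (hb'.const_mul t)

theorem int_deriv {x : ℝ → G} {b b' : G → ℝ} (hb : Integrable b μ) (hb' : Integrable b' μ)
    (h : LD μ x b b') : ∫ h, b' h ∂μ = 0 := by
  have key : ∀ t : ℝ, t ≠ 0 →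
      |∫ h, b' h ∂μ| ≤ (∫ h, |b ((x t)⁻¹ * h) - b h - t * b' h| ∂μ) / |t| := by
    intro t ht
    have e1 : ∫ h, (b ((x t)⁻¹ * h) - b h - t * b' h) ∂μ = - (t * ∫ h, b' h ∂μ) := by
      have i1 := hb.comp_mul_left (x t)⁻¹
      have s1 : ∫ h, (b ((x t)⁻¹ * h) - b h - t * b' h) ∂μ
          = ∫ h, (b ((x t)⁻¹ * h) - b h) ∂μ - ∫ h, t * b' h ∂μ :=
        integral_sub (i1.sub hb) (hb'.const_mul t)
      have s2 : ∫ h, (b ((x t)⁻¹ * h) - b h) ∂μ = ∫ h, b ((x t)⁻¹ * h) ∂μ - ∫ h, b h ∂μ :=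
        integral_sub i1 hb
      rw [s1, s2, integral_mul_left_eq_self b (x t)⁻¹, integral_const_mul]
      ring
    have e2 : |∫ h, (b ((x t)⁻¹ * h) - b h - t * b' h) ∂μ|
        ≤ ∫ h, |b ((x t)⁻¹ * h) - b h - t * b' h| ∂μ := abs_integral_le_integral_abs
    rw [e1, abs_neg, abs_mul] at e2
    have ht' : 0 < |t| := abs_pos.mpr ht
    rw [le_div_iff₀ ht', mul_comm]
    exact e2
  have h0 : |∫ h, b' h ∂μ| ≤ 0 := by
    refine ge_of_tendsto h ?_
    filter_upwards [self_mem_nhdsWithin] with t ht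
    exact key t ht
  exact abs_nonpos_iff.mp h0

private theorem der_norm_d {x : ℝ → G} {b b' : G → ℝ} (hb : Integrable b μ)
    (hb' : Integrable b' μ) {t : ℝ} (ht : t ≠ 0) :
    ∫ h, |b ((x t)⁻¹ * h) - b h| ∂μ ≤ |t| * ((∫ h, |b' h| ∂μ)
      + (∫ h, |b ((x t)⁻¹ * h) - b h - t * b' h| ∂μ) / |t|) := by
  have ht' : |t| ≠ 0 := (abs_pos.mpr ht).ne'
  have e : |t| * ((∫ h, |b' h| ∂μ)
      + (∫ h, |b ((x t)⁻¹ * h) - b h - t * b' h| ∂μ) / |t|)
      = ∫ h, (|t| * |b' h| + |b ((x t)⁻¹ * h) - b h - t * b' h|) ∂μ := by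
    have s : ∫ h, (|t| * |b' h| + |b ((x t)⁻¹ * h) - b h - t * b' h|) ∂μ
        = ∫ h, |t| * |b' h| ∂μ + ∫ h, |b ((x t)⁻¹ * h) - b h - t * b' h| ∂μ :=
      integral_add (hb'.abs.const_mul |t|) (der_int_r hb hb' t).abs
    rw [s, integral_const_mul]
    field_simp
  rw [e]
  refine integral_mono ((hb.comp_mul_left (x t)⁻¹).sub hb).abs
    ((hb'.abs.const_mul |t|).add (der_int_r hb hb' t).abs) ?_
  intro h
  show |b ((x t)⁻¹ * h) - b h| ≤ |t| * |b' h| + |b ((x t)⁻¹ * h) - b h - t * b' h|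
  have := abs_add_le (t * b' h) (b ((x t)⁻¹ * h) - b h - t * b' h)
  rw [abs_mul] at this
  have e3 : t * b' h + (b ((x t)⁻¹ * h) - b h - t * b' h) = b ((x t)⁻¹ * h) - b h := by ring
  rw [e3] at this
  exact this

theorem TT_deriv [SigmaFinite μ] [μ.IsMulRightInvariant] (hD : Dm μ Γ π) (hq : Mo q)
    {x : ℝ → G} {a a' b b' c c' : G → ℝ} (ha : Integrable a μ) (ha' : Integrable a' μ)
    (hb : Integrable b μ) (hb' : Integrable b' μ) (hc : Integrable c μ) (hc' : Integrable c' μ)
    (h1 : LD μ x a a') (h2 : LD μ x b b') (h3 : LD μ x c c') :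
    TT μ π q a' b c + TT μ π q a b' c + TT μ π q a b c' = 0 := by
  set K : ℝ := 4 / 3 * dm μ π with hK
  set A := ∫ h, |a h| ∂μ with hA
  set A' := ∫ h, |a' h| ∂μ with hA'
  set B := ∫ h, |b h| ∂μ with hB
  set B' := ∫ h, |b' h| ∂μ with hB'
  set C := ∫ h, |c h| ∂μ with hC
  set C' := ∫ h, |c' h| ∂μ with hC'
  set ea : ℝ → ℝ := fun t => (∫ h, |a ((x t)⁻¹ * h) - a h - t * a' h| ∂μ) / |t| with hea
  set eb : ℝ → ℝ := fun t => (∫ h, |b ((x t)⁻¹ * h) - b h - t * b' h| ∂μ) / |t| with heb
  set ec : ℝ → ℝ := fun t => (∫ h, |c ((x t)⁻¹ * h) - c h - t * c' h| ∂μ) / |t| with hec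
  have hK0 : 0 ≤ K := by
    have : (0 : ℝ) ≤ dm μ π := ENNReal.toReal_nonneg
    positivity
  have nn : ∀ f : G → ℝ, 0 ≤ ∫ h, |f h| ∂μ := fun f => integral_nonneg fun h => abs_nonneg _
  have hA0 : 0 ≤ A := nn a
  have hA0' : 0 ≤ A' := nn a'
  have hB0 : 0 ≤ B := nn b
  have hB0' : 0 ≤ B' := nn b'
  have hC0 : 0 ≤ C := nn c
  have hC0' : 0 ≤ C' := nn c'
  have key : ∀ t : ℝ, t ≠ 0 →
      |TT μ π q a' b c + TT μ π q a b' c + TT μ π q a b c'| ≤
        K * A' * (|t| * (B' + eb t)) * C + K * A' * B * (|t| * (C' + ec t))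
        + K * ea t * B * C + K * A * B' * (|t| * (C' + ec t)) + K * A * eb t * C
        + K * A * B * ec t := by
    intro t ht
    have ht' : 0 < |t| := abs_pos.mpr ht
    have iat := ha.comp_mul_left (x t)⁻¹
    have ibt := hb.comp_mul_left (x t)⁻¹
    have ict := hc.comp_mul_left (x t)⁻¹
    set at' : G → ℝ := fun h => a ((x t)⁻¹ * h) with hat
    set bt : G → ℝ := fun h => b ((x t)⁻¹ * h) with hbt
    set ct : G → ℝ := fun h => c ((x t)⁻¹ * h) with hct
    set da : G → ℝ := fun h => at' h - a h with hda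
    set db : G → ℝ := fun h => bt h - b h with hdb
    set dc : G → ℝ := fun h => ct h - c h with hdc
    set ra : G → ℝ := fun h => at' h - a h - t * a' h with hra
    set rb : G → ℝ := fun h => bt h - b h - t * b' h with hrb
    set rc : G → ℝ := fun h => ct h - c h - t * c' h with hrc
    have ida : Integrable da μ := iat.sub ha
    have idb : Integrable db μ := ibt.sub hb
    have idc : Integrable dc μ := ict.sub hc
    have ira : Integrable ra μ := der_int_r ha ha' t
    have irb : Integrable rb μ := der_int_r hb hb' t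
    have irc : Integrable rc μ := der_int_r hc hc' t
    have nbt : ∫ h, |bt h| ∂μ = B := integral_mul_left_eq_self (fun h => |b h|) (x t)⁻¹
    have nct : ∫ h, |ct h| ∂μ = C := integral_mul_left_eq_self (fun h => |c h|) (x t)⁻¹
    have tr : TT μ π q at' bt ct = TT μ π q a b c := TT_translate hD hq ha hb hc (x t)
    have f1 : at' = fun h => a h + da h := by funext h; simp only [hda]; ring
    have f2 : bt = fun h => b h + db h := by funext h; simp only [hdb]; ring
    have f3 : ct = fun h => c h + dc h := by funext h; simp only [hdc]; ring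
    have g1 : da = fun h => t * a' h + ra h := by funext h; simp only [hda, hra]; ring
    have g2 : db = fun h => t * b' h + rb h := by funext h; simp only [hdb, hrb]; ring
    have g3 : dc = fun h => t * c' h + rc h := by funext h; simp only [hdc, hrc]; ring
    have x1 : TT μ π q at' bt ct = TT μ π q a bt ct + TT μ π q da bt ct := by
      conv_lhs => rw [f1]
      exact TT_add1 hD hq ha ida ibt ict
    have x2 : TT μ π q a bt ct = TT μ π q a b ct + TT μ π q a db ct := by
      conv_lhs => rw [f2]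
      exact TT_add2 hD hq ha hb idb ict
    have x3 : TT μ π q a b ct = TT μ π q a b c + TT μ π q a b dc := by
      conv_lhs => rw [f3]
      exact TT_add3 hD hq ha hb hc idc
    have y1 : TT μ π q da bt ct = t * TT μ π q a' bt ct + TT μ π q ra bt ct := by
      conv_lhs => rw [g1]
      rw [TT_add1 hD hq (ha'.const_mul t) ira ibt ict, TT_cmul1]
    have y2 : TT μ π q a db ct = t * TT μ π q a b' ct + TT μ π q a rb ct := by
      conv_lhs => rw [g2]
      rw [TT_add2 hD hq ha (hb'.const_mul t) irb ict, TT_cmul2]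
    have y3 : TT μ π q a b dc = t * TT μ π q a b c' + TT μ π q a b rc := by
      conv_lhs => rw [g3]
      rw [TT_add3 hD hq ha hb (hc'.const_mul t) irc, TT_cmul3]
    have z1 : TT μ π q a' bt ct = TT μ π q a' b ct + TT μ π q a' db ct := by
      conv_lhs => rw [f2]
      exact TT_add2 hD hq ha' hb idb ict
    have z2 : TT μ π q a' b ct = TT μ π q a' b c + TT μ π q a' b dc := by
      conv_lhs => rw [f3]
      exact TT_add3 hD hq ha' hb hc idc
    have z3 : TT μ π q a b' ct = TT μ π q a b' c + TT μ π q a b' dc := by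
      conv_lhs => rw [f3]
      exact TT_add3 hD hq ha hb' hc idc
    have n1 : |TT μ π q a' db ct| ≤ K * A' * (|t| * (B' + eb t)) * C := by
      refine (TT_abs_le hD hq ha' idb ict).trans ?_
      rw [nct]
      have := der_norm_d (x := x) hb hb' ht
      exact mul_le_mul_of_nonneg_right
        (mul_le_mul_of_nonneg_left this (mul_nonneg hK0 hA0')) hC0
    have ndc : ∫ h, |dc h| ∂μ ≤ |t| * (C' + ec t) := der_norm_d (x := x) hc hc' ht
    have n2 : |TT μ π q a' b dc| ≤ K * A' * B * (|t| * (C' + ec t)) := by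
      refine (TT_abs_le hD hq ha' hb idc).trans ?_
      exact mul_le_mul_of_nonneg_left ndc (mul_nonneg (mul_nonneg hK0 hA0') hB0)
    have n3 : |TT μ π q ra bt ct| ≤ K * (|t| * ea t) * B * C := by
      refine (TT_abs_le hD hq ira ibt ict).trans ?_
      rw [nbt, nct]
      have : ∫ h, |ra h| ∂μ = |t| * ea t := by
        simp only [hea]
        rw [mul_div_cancel₀ _ ht'.ne']
      rw [this]
    have n4 : |TT μ π q a b' dc| ≤ K * A * B' * (|t| * (C' + ec t)) := by
      refine (TT_abs_le hD hq ha hb' idc).trans ?_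
      exact mul_le_mul_of_nonneg_left ndc (mul_nonneg (mul_nonneg hK0 hA0) hB0')
    have n5 : |TT μ π q a rb ct| ≤ K * A * (|t| * eb t) * C := by
      refine (TT_abs_le hD hq ha irb ict).trans ?_
      rw [nct]
      have : ∫ h, |rb h| ∂μ = |t| * eb t := by
        simp only [heb]
        rw [mul_div_cancel₀ _ ht'.ne']
      rw [this]
    have n6 : |TT μ π q a b rc| ≤ K * A * B * (|t| * ec t) := by
      refine (TT_abs_le hD hq ha hb irc).trans ?_
      have : ∫ h, |rc h| ∂μ = |t| * ec t := by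
        simp only [hec]
        rw [mul_div_cancel₀ _ ht'.ne']
      rw [this]
    have main : t * (TT μ π q a' b c + TT μ π q a b' c + TT μ π q a b c')
        = -(t * (TT μ π q a' db ct + TT μ π q a' b dc) + TT μ π q ra bt ct
          + t * TT μ π q a b' dc + TT μ π q a rb ct + TT μ π q a b rc) := by
      have : TT μ π q a b c = TT μ π q at' bt ct := tr.symm
      rw [x1, x2, x3, y1, y2, y3, z1, z2, z3] at this
      linear_combination -this
    have m2 : |t| * |TT μ π q a' b c + TT μ π q a b' c + TT μ π q a b c'|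
        ≤ |t| * (K * A' * (|t| * (B' + eb t)) * C + K * A' * B * (|t| * (C' + ec t))
        + K * ea t * B * C + K * A * B' * (|t| * (C' + ec t)) + K * A * eb t * C
        + K * A * B * ec t) := by
      rw [← abs_mul, main, abs_neg]
      have b1 : |t * (TT μ π q a' db ct + TT μ π q a' b dc)| ≤
          |t| * (K * A' * (|t| * (B' + eb t)) * C + K * A' * B * (|t| * (C' + ec t))) := by
        rw [abs_mul]
        exact mul_le_mul_of_nonneg_left ((abs_add_le _ _).trans (add_le_add n1 n2)) ht'.le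
      have b2 : |t * TT μ π q a b' dc| ≤ |t| * (K * A * B' * (|t| * (C' + ec t))) := by
        rw [abs_mul]
        exact mul_le_mul_of_nonneg_left n4 ht'.le
      have t1 := abs_add_le (t * (TT μ π q a' db ct + TT μ π q a' b dc) + TT μ π q ra bt ct
          + t * TT μ π q a b' dc + TT μ π q a rb ct) (TT μ π q a b rc)
      have t2 := abs_add_le (t * (TT μ π q a' db ct + TT μ π q a' b dc) + TT μ π q ra bt ct
          + t * TT μ π q a b' dc) (TT μ π q a rb ct)
      have t3 := abs_add_le (t * (TT μ π q a' db ct + TT μ π q a' b dc) + TT μ π q ra bt ct)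
          (t * TT μ π q a b' dc)
      have t4 := abs_add_le (t * (TT μ π q a' db ct + TT μ π q a' b dc)) (TT μ π q ra bt ct)
      have : |t| * (K * A' * (|t| * (B' + eb t)) * C + K * A' * B * (|t| * (C' + ec t))
        + K * ea t * B * C + K * A * B' * (|t| * (C' + ec t)) + K * A * eb t * C
        + K * A * B * ec t) =
        |t| * (K * A' * (|t| * (B' + eb t)) * C + K * A' * B * (|t| * (C' + ec t)))
        + K * (|t| * ea t) * B * C + |t| * (K * A * B' * (|t| * (C' + ec t)))
        + K * A * (|t| * eb t) * C + K * A * B * (|t| * ec t) := by ring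
      rw [this]
      linarith
    exact le_of_mul_le_mul_left m2 ht'
  have lea : Filter.Tendsto ea (nhdsWithin 0 {0}ᶜ) (nhds 0) := h1
  have leb : Filter.Tendsto eb (nhdsWithin 0 {0}ᶜ) (nhds 0) := h2
  have lec : Filter.Tendsto ec (nhdsWithin 0 {0}ᶜ) (nhds 0) := h3
  have lt : Filter.Tendsto (fun t : ℝ => |t|) (nhdsWithin 0 {0}ᶜ) (nhds 0) := by
    have : Filter.Tendsto (fun t : ℝ => |t|) (nhds 0) (nhds |(0 : ℝ)|) := continuous_abs.tendsto 0
    rw [abs_zero] at this
    exact this.mono_left nhdsWithin_le_nhds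
  have lim : Filter.Tendsto (fun t : ℝ => K * A' * (|t| * (B' + eb t)) * C
        + K * A' * B * (|t| * (C' + ec t))
        + K * ea t * B * C + K * A * B' * (|t| * (C' + ec t)) + K * A * eb t * C
        + K * A * B * ec t) (nhdsWithin 0 {0}ᶜ) (nhds 0) := by
    have l1 := lt.mul (leb.const_add B')
    have l2 := lt.mul (lec.const_add C')
    have q1 := (l1.const_mul (K * A')).mul_const C
    have q2 := l2.const_mul (K * A' * B)
    have q3 := ((lea.const_mul K).mul_const B).mul_const C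
    have q4 := l2.const_mul (K * A * B')
    have q5 := (leb.const_mul (K * A)).mul_const C
    have q6 := lec.const_mul (K * A * B)
    have q := ((((q1.add q2).add q3).add q4).add q5).add q6
    have e0 : K * A' * (0 * (B' + 0)) * C + K * A' * B * (0 * (C' + 0)) + K * 0 * B * C
      + K * A * B' * (0 * (C' + 0)) + K * A * 0 * C + K * A * B * 0 = 0 := by ring
    rw [e0] at q
    exact q
  have h0 : |TT μ π q a' b c + TT μ π q a b' c + TT μ π q a b c'| ≤ 0 := by
    refine ge_of_tendsto lim ?_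
    filter_upwards [self_mem_nhdsWithin] with t ht
    exact key t ht
  exact abs_nonpos_iff.mp h0

private theorem der_cs {f : ℝ → ℝ} (hf : Continuous f) {t : ℝ} (ht : 0 ≤ t) :
    (∫ u in (0)..t, f u) ^ 2 ≤ t * ∫ u in (0)..t, f u ^ 2 := by
  rcases ht.eq_or_lt with h | h
  · subst h; simp
  set m := (∫ u in (0)..t, f u) / t with hm
  have h1 : 0 ≤ ∫ u in (0)..t, (f u - m) ^ 2 :=
    intervalIntegral.integral_nonneg ht fun u _ => sq_nonneg _
  have e : ∫ u in (0)..t, (f u - m) ^ 2
      = (∫ u in (0)..t, f u ^ 2) - 2 * m * (∫ u in (0)..t, f u) + t * m ^ 2 := by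
    have e1 : (fun u => (f u - m) ^ 2) = fun u => (f u ^ 2 - 2 * m * f u) + m ^ 2 := by
      funext u; ring
    have i1 : IntervalIntegrable (fun u => f u ^ 2) volume 0 t :=
      (hf.pow 2).intervalIntegrable 0 t
    have i2 : IntervalIntegrable (fun u => 2 * m * f u) volume 0 t :=
      (hf.const_mul (2 * m)).intervalIntegrable 0 t
    have i3 : IntervalIntegrable (fun _ : ℝ => m ^ 2) volume 0 t :=
      continuous_const.intervalIntegrable 0 t
    rw [e1, intervalIntegral.integral_add (i1.sub i2) i3, intervalIntegral.integral_sub i1 i2,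
      intervalIntegral.integral_const_mul, intervalIntegral.integral_const]
    simp
  rw [e] at h1
  have e2 : ∫ u in (0)..t, f u = m * t := by rw [hm]; field_simp
  rw [e2] at h1 ⊢
  nlinarith [mul_nonneg ht h1]

/-- the derivative of `S_b` along a one parameter group and the squared increment.
`x (s + t) = x s * x t`. For every `v` and `k`: `S_b(v x(u))` has derivative `S_{b'}(v x(u))` in `u`, so
`(S_b(v x(t)) - S_b(v))² ≤ t ∫_0^t S_{b'}(v x(u))² du` for `0 ≤ t` (Cauchy-Schwarz).
PROOF. `S_b(v x(u + t)) = S_{b_t}(v x(u))`, `b_t = b (x(t)⁻¹ ·)` (`Sf_mul_right`), and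
`|S_{b_t} - S_b - t S_{b'}| ≤ ‖b_t - b - t b'‖₁` (`Sf_add`, `Sf_cmul`, `Sf_abs_le`): `HasDerivAt`. The derivative
`u ↦ S_{b'}(v x(u))` is assumed continuous (`hc`), so `intervalIntegral.integral_eq_sub_of_hasDerivAt`,
then `(∫_0^t f)² ≤ t ∫_0^t f²` (e.g. from `0 ≤ ∫_0^t (f - m)²`, `m = (∫ f) / t`). -/
theorem Sf_incr (hD : Dm μ Γ π) {x : ℝ → G} (h0 : x 0 = 1)
    (hx : ∀ s t, x (s + t) = x s * x t) {b b' : G → ℝ} (hb : Integrable b μ)
    (hb' : Integrable b' μ) (h : LD μ x b b') (v : G) (γ : Γ)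
    (hc : Continuous (fun u => Sf μ π q b' (v * x u) γ)) {t : ℝ} (ht : 0 ≤ t) :
    (Sf μ π q b (v * x t) γ - Sf μ π q b v γ) ^ 2
      ≤ t * ∫ u in (0)..t, Sf μ π q b' (v * x u) γ ^ 2 := by
  have hder : ∀ u : ℝ, HasDerivAt (fun u => Sf μ π q b (v * x u) γ)
      (Sf μ π q b' (v * x u) γ) u := by
    intro u
    rw [hasDerivAt_iff_isLittleO_nhds_zero, Asymptotics.isLittleO_iff]
    intro ε hε
    have e1 : ∀ᶠ t in nhdsWithin (0 : ℝ) {0}ᶜ,
        (∫ h, |b ((x t)⁻¹ * h) - b h - t * b' h| ∂μ) / |t| < ε := h.eventually_lt_const hε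
    rw [eventually_nhdsWithin_iff] at e1
    filter_upwards [e1] with t ht
    by_cases h0t : t = 0
    · subst h0t; simp
    · have ht' : 0 < |t| := abs_pos.mpr h0t
      have e2 := (ht h0t).le
      rw [div_le_iff₀ ht'] at e2
      have e3 : Sf μ π q b (v * x (u + t)) γ - Sf μ π q b (v * x u) γ
          - t • Sf μ π q b' (v * x u) γ
          = Sf μ π q (fun h => b ((x t)⁻¹ * h) - b h - t * b' h) (v * x u) γ := by
        have f1 : Sf μ π q b (v * x (u + t)) γ
            = Sf μ π q (fun h => b ((x t)⁻¹ * h)) (v * x u) γ := by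
          rw [hx, ← mul_assoc, Sf_mul_right]
        have f2 : (fun h => b ((x t)⁻¹ * h))
            = fun h => (b h + t * b' h) + (b ((x t)⁻¹ * h) - b h - t * b' h) := by
          funext h; ring
        have i4 : Integrable (fun h => b h + t * b' h) μ := hb.add (hb'.const_mul t)
        rw [f1, f2, Sf_add hD i4 (der_int_r hb hb' t),
          Sf_add hD hb (hb'.const_mul t), Sf_cmul, smul_eq_mul]
        ring
      show ‖Sf μ π q b (v * x (u + t)) γ - Sf μ π q b (v * x u) γ
          - t • Sf μ π q b' (v * x u) γ‖ ≤ ε * ‖t‖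
      rw [e3, Real.norm_eq_abs, Real.norm_eq_abs]
      exact (Sf_abs_le (der_int_r hb hb' t) _ _).trans e2
  have e1 : ∫ u in (0)..t, Sf μ π q b' (v * x u) γ
      = Sf μ π q b (v * x t) γ - Sf μ π q b (v * x 0) γ :=
    intervalIntegral.integral_eq_sub_of_hasDerivAt (fun u _ => hder u)
      (hc.intervalIntegrable 0 t)
  rw [h0, mul_one] at e1
  rw [← e1]
  exact der_cs hc ht

end SPN
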