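import Pool.Agent.SPN.Sgf

/-! # Module Ctn (difficulty 2): continuity of `S_b`

`Sf b v γ = ∫ b (v⁻¹ z) sg (q γ) (q (π z)) dz` (substitute `h = v⁻¹ z`, `integral_mul_left_eq_self`), and
`v ↦ b (v⁻¹ z)` is continuous for every `z`. `continuousAt_of_dominated`: on a compact neighbourhood `V₀` of `v₀`
the integrand is bounded by `‖b‖_∞` times the indicator of the compact set `V₀ * tsupport b`. Measurability in `z`:
`b (v⁻¹ ·)` is continuous and `z ↦ sg (q γ) (q (π z))` is measurable (`Γ` countable; `meas_pair` at `v = 1`). -/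

open MeasureTheory Pointwise

namespace SPN

variable {G : Type*} [Group G] [TopologicalSpace G] [IsTopologicalGroup G] [T2Space G]
  [LocallyCompactSpace G] [SecondCountableTopology G] [MeasurableSpace G] [BorelSpace G]
  {μ : Measure G} [IsFiniteMeasureOnCompacts μ] [μ.IsMulLeftInvariant]
  {Γ : Subgroup G} {π : G → Γ} {X : Type*} [LinearOrder X] {q : Γ → X}

theorem Sf_continuous (hD : Dm μ Γ π) {b : G → ℝ} (hb : Continuous b)
    (hs : HasCompactSupport b) (γ : Γ) : Continuous (fun v => Sf μ π q b v γ) := by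
  have hcnt := hD.cnt
  have e : (fun v => Sf μ π q b v γ) =
      fun v => ∫ z, b (v⁻¹ * z) * sg (q γ) (q (π z)) ∂μ := by
    funext v
    unfold Sf
    rw [← integral_mul_left_eq_self (fun z => b (v⁻¹ * z) * sg (q γ) (q (π z))) v]
    simp only [inv_mul_cancel_left]
  rw [e]
  have hmeas : Measurable (fun z : G => sg (q γ) (q (π z))) := by
    intro U _
    have e2 : (fun z : G => sg (q γ) (q (π z))) ⁻¹' U =
        ⋃ δ ∈ {δ : Γ | sg (q γ) (q δ) ∈ U}, π ⁻¹' {δ} := by
      ext z
      simp
    rw [e2]
    exact MeasurableSet.biUnion (Set.to_countable _) fun δ _ => hD.meas δ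
  obtain ⟨C, hC⟩ := hs.exists_bound_of_continuous hb
  rw [continuous_iff_continuousAt]
  intro v₀
  obtain ⟨V₀, hVc, hVn⟩ := exists_compact_mem_nhds v₀
  have hK : IsCompact (V₀ * tsupport b) := hVc.mul hs
  apply continuousAt_of_dominated (bound := (V₀ * tsupport b).indicator fun _ => C)
  · refine Filter.Eventually.of_forall fun v => ?_
    exact ((hb.comp (continuous_const.mul continuous_id)).measurable.mul
      hmeas).aestronglyMeasurable
  · filter_upwards [hVn] with v hv
    refine Filter.Eventually.of_forall fun z => ?_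
    by_cases hz : z ∈ V₀ * tsupport b
    · rw [Set.indicator_of_mem hz, norm_mul]
      have h1 := hC (v⁻¹ * z)
      have h2 : ‖sg (q γ) (q (π z))‖ ≤ 1 := sg_abs_le _ _
      calc ‖b (v⁻¹ * z)‖ * ‖sg (q γ) (q (π z))‖ ≤ C * 1 := by
            apply mul_le_mul h1 h2 (norm_nonneg _) ((norm_nonneg _).trans h1)
        _ = C := mul_one C
    · rw [Set.indicator_of_notMem hz]
      have : b (v⁻¹ * z) = 0 := by
        by_contra hne
        apply hz
        refine Set.mem_mul.mpr ⟨v, hv, v⁻¹ * z, subset_tsupport b hne, by group⟩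
      rw [this, zero_mul, norm_zero]
  · exact (integrable_indicator_iff hK.measurableSet).mpr
      (integrableOn_const hK.measure_lt_top.ne)
  · refine Filter.Eventually.of_forall fun z => ?_
    have : Continuous fun v : G => b (v⁻¹ * z) * sg (q γ) (q (π z)) := by fun_prop
    exact this.continuousAt

end SPN
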