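import Pool.Agent.SPN.Bnd

/-! # Module Ene: from the Matsushima inequality to the energy bound -/

open MeasureTheory

namespace SPN

variable {G : Type*} [Group G] [MeasurableSpace G] [MeasurableMul₂ G] {μ : Measure G}
  [SigmaFinite μ] {Γ : Subgroup G} {π : G → Γ} {X : Type*} [LinearOrder X] {q : Γ → X}

theorem energy_of (hD : Dm μ Γ π) (hq : Mo q) {ι : Type*} [Fintype ι] {m Λ : ℕ → G → ℝ}
    {e : ℕ → ι → G → ℝ} (hm : ∀ n, Integrable (m n) μ) (hΛ : ∀ n, Integrable (Λ n) μ)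
    (hei : ∀ n i, Integrable (e n i) μ) (h0 : ∀ n h, 0 ≤ m n h) (hmn : ∀ n, ∫ h, m n h ∂μ = n)
    {L : ℝ} (hL : ∀ n, ∫ h, |Λ n h| ∂μ ≤ L) {A : ℝ} (hA : 0 < A)
    (h1 : ∀ n, A * ∑ i, TT μ π q (m n) (e n i) (e n i) ≤ TT μ π q (m n) (Λ n) (Λ n))
    (h2 : ∀ n r, A * ∑ i, TT μ π q (fun h => m n h + m r h) (fun h => e n i h + e r i h)
        (fun h => e n i h + e r i h)
      ≤ TT μ π q (fun h => m n h + m r h) (fun h => Λ n h + Λ r h) (fun h => Λ n h + Λ r h)) :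
    ∃ C : ℝ, ∀ r n : ℕ, r ≤ n → ∑ i, T1 μ π q (m n) (e r i) (e r i) ≤ C * n := by
  classical
  have hL0 : 0 ≤ L := le_trans (integral_nonneg fun h => abs_nonneg _) (hL 0)
  have hd0 : 0 ≤ dm μ π := ENNReal.toReal_nonneg
  refine ⟨2 / A * (4 / 3 * dm μ π * 8 * L ^ 2) + 2 / A * (4 / 3 * dm μ π * L ^ 2), ?_⟩
  intro r n hrn
  have hn0 : (0 : ℝ) ≤ (n : ℝ) := Nat.cast_nonneg n
  have hrn' : (r : ℝ) ≤ (n : ℝ) := by exact_mod_cast hrn
  have hmabs : ∫ h, |m n h| ∂μ = (n : ℝ) := by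
    rw [← hmn n]
    exact integral_congr_ae (Filter.Eventually.of_forall fun h => abs_of_nonneg (h0 n h))
  have hmnr : ∫ h, |m n h + m r h| ∂μ = (n : ℝ) + (r : ℝ) := by
    rw [← hmn n, ← hmn r, ← integral_add (hm n) (hm r)]
    exact integral_congr_ae (Filter.Eventually.of_forall fun h =>
      abs_of_nonneg (add_nonneg (h0 n h) (h0 r h)))
  have hΛnr : ∫ h, |Λ n h + Λ r h| ∂μ ≤ 2 * L := by
    have e1 : ∫ h, |Λ n h + Λ r h| ∂μ ≤ ∫ h, (|Λ n h| + |Λ r h|) ∂μ :=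
      integral_mono ((hΛ n).add (hΛ r)).abs ((hΛ n).abs.add (hΛ r).abs)
        (fun h => abs_add_le _ _)
    rw [integral_add (hΛ n).abs (hΛ r).abs] at e1
    linarith [hL n, hL r]
  have hΛnr0 : 0 ≤ ∫ h, |Λ n h + Λ r h| ∂μ := integral_nonneg fun h => abs_nonneg _
  -- bound 1
  have B1 : ∑ i, TT μ π q (m n) (fun h => e n i h + e r i h) (fun h => e n i h + e r i h)
      ≤ 1 / A * (4 / 3 * dm μ π * 8 * L ^ 2 * n) := by
    have hmono : ∑ i, TT μ π q (m n) (fun h => e n i h + e r i h) (fun h => e n i h + e r i h) ≤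
        ∑ i, TT μ π q (fun h => m n h + m r h) (fun h => e n i h + e r i h)
          (fun h => e n i h + e r i h) := by
      refine Finset.sum_le_sum fun i _ => ?_
      have hb : Integrable (fun h => e n i h + e r i h) μ := (hei n i).add (hei r i)
      have hadd := TT_add1 (μ := μ) (π := π) (q := q) hD hq (hm n) (hm r) hb hb
      rw [hadd]
      have := TT_nonneg (μ := μ) (π := π) (q := q) (h0 r) (fun h => e n i h + e r i h)
      linarith
    have hup := (abs_le.mp (TT_abs_le (μ := μ) (π := π) (q := q) hD hq ((hm n).add (hm r))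
      ((hΛ n).add (hΛ r)) ((hΛ n).add (hΛ r)))).2
    have hup' : TT μ π q (fun h => m n h + m r h) (fun h => Λ n h + Λ r h)
        (fun h => Λ n h + Λ r h) ≤ 4 / 3 * dm μ π * 8 * L ^ 2 * n := by
      refine le_trans hup ?_
      show 4 / 3 * dm μ π * (∫ h, |m n h + m r h| ∂μ) * (∫ h, |Λ n h + Λ r h| ∂μ) *
        (∫ h, |Λ n h + Λ r h| ∂μ) ≤ _
      rw [hmnr]
      have e1 : (∫ h, |Λ n h + Λ r h| ∂μ) * (∫ h, |Λ n h + Λ r h| ∂μ) ≤ (2 * L) * (2 * L) :=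
        mul_le_mul hΛnr hΛnr hΛnr0 (by linarith)
      have e2 : 4 / 3 * dm μ π * ((n : ℝ) + r) ≤ 4 / 3 * dm μ π * (2 * n) :=
        mul_le_mul_of_nonneg_left (by linarith) (by positivity)
      have e3 : 4 / 3 * dm μ π * ((n : ℝ) + r) *
          ((∫ h, |Λ n h + Λ r h| ∂μ) * (∫ h, |Λ n h + Λ r h| ∂μ)) ≤
          4 / 3 * dm μ π * (2 * n) * ((2 * L) * (2 * L)) :=
        mul_le_mul e2 e1 (mul_nonneg hΛnr0 hΛnr0) (by positivity)
      calc 4 / 3 * dm μ π * ((n : ℝ) + r) * (∫ h, |Λ n h + Λ r h| ∂μ) *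
            (∫ h, |Λ n h + Λ r h| ∂μ)
          = 4 / 3 * dm μ π * ((n : ℝ) + r) *
            ((∫ h, |Λ n h + Λ r h| ∂μ) * (∫ h, |Λ n h + Λ r h| ∂μ)) := by ring
        _ ≤ 4 / 3 * dm μ π * (2 * n) * ((2 * L) * (2 * L)) := e3
        _ = 4 / 3 * dm μ π * 8 * L ^ 2 * n := by ring
    have h3 := (h2 n r).trans hup'
    have h4 : A * ∑ i, TT μ π q (m n) (fun h => e n i h + e r i h)
        (fun h => e n i h + e r i h) ≤ 4 / 3 * dm μ π * 8 * L ^ 2 * n :=
      (mul_le_mul_of_nonneg_left hmono hA.le).trans h3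
    rw [one_div, ← div_eq_inv_mul, le_div_iff₀ hA, mul_comm]
    exact h4
  have B2 : ∑ i, TT μ π q (m n) (e n i) (e n i) ≤ 1 / A * (4 / 3 * dm μ π * L ^ 2 * n) := by
    have hup := (abs_le.mp (TT_abs_le (μ := μ) (π := π) (q := q) hD hq (hm n) (hΛ n)
      (hΛ n))).2
    rw [hmabs] at hup
    have hΛ0 : 0 ≤ ∫ h, |Λ n h| ∂μ := integral_nonneg fun h => abs_nonneg _
    have e1 : (∫ h, |Λ n h| ∂μ) * (∫ h, |Λ n h| ∂μ) ≤ L * L :=
      mul_le_mul (hL n) (hL n) hΛ0 hL0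
    have hup' : TT μ π q (m n) (Λ n) (Λ n) ≤ 4 / 3 * dm μ π * L ^ 2 * n := by
      refine le_trans hup ?_
      calc 4 / 3 * dm μ π * (n : ℝ) * (∫ h, |Λ n h| ∂μ) * (∫ h, |Λ n h| ∂μ)
          = 4 / 3 * dm μ π * (n : ℝ) * ((∫ h, |Λ n h| ∂μ) * (∫ h, |Λ n h| ∂μ)) := by ring
        _ ≤ 4 / 3 * dm μ π * (n : ℝ) * (L * L) :=
          mul_le_mul_of_nonneg_left e1 (by positivity)
        _ = 4 / 3 * dm μ π * L ^ 2 * n := by ring
    have h4 := (h1 n).trans hup'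
    rw [one_div, ← div_eq_inv_mul, le_div_iff₀ hA, mul_comm]
    exact h4
  have hpt : ∀ i, T1 μ π q (m n) (e r i) (e r i) ≤
      2 * TT μ π q (m n) (fun h => e n i h + e r i h) (fun h => e n i h + e r i h) +
      2 * TT μ π q (m n) (e n i) (e n i) := by
    intro i
    have h3 := T1_sub_le (μ := μ) (π := π) (q := q) hD hq (hm n) (h0 n)
      ((hei n i).add (hei r i)) (hei n i)
    have hfe : (fun h => (e n i + e r i) h - e n i h) = e r i := by
      funext h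
      simp only [Pi.add_apply]
      ring
    rw [hfe] at h3
    have h4 := T1_le_TT (μ := μ) (π := π) (q := q) (h0 n) (fun h => e n i h + e r i h)
    have h5 := T1_le_TT (μ := μ) (π := π) (q := q) (h0 n) (e n i)
    have h6 : T1 μ π q (m n) (e n i + e r i) (e n i + e r i) =
      T1 μ π q (m n) (fun h => e n i h + e r i h) (fun h => e n i h + e r i h) := rfl
    rw [h6] at h3
    linarith
  calc ∑ i, T1 μ π q (m n) (e r i) (e r i)
      ≤ ∑ i, (2 * TT μ π q (m n) (fun h => e n i h + e r i h) (fun h => e n i h + e r i h) +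
        2 * TT μ π q (m n) (e n i) (e n i)) := Finset.sum_le_sum fun i _ => hpt i
    _ = 2 * ∑ i, TT μ π q (m n) (fun h => e n i h + e r i h) (fun h => e n i h + e r i h) +
        2 * ∑ i, TT μ π q (m n) (e n i) (e n i) := by
        rw [Finset.sum_add_distrib, Finset.mul_sum, Finset.mul_sum]
    _ ≤ 2 * (1 / A * (4 / 3 * dm μ π * 8 * L ^ 2 * n)) +
        2 * (1 / A * (4 / 3 * dm μ π * L ^ 2 * n)) := by linarith
    _ = _ := by ring

theorem av_grad (hD : Dm μ Γ π) (hq : Mo q) {ι : Type*} [Fintype ι] {m : G → ℝ}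
    (hm : Integrable m μ) {e : ι → G → ℝ} (he : ∀ i, Integrable (e i) μ) :
    av μ π m (fun v γ => ∑ i, Sf μ π q (e i) v γ ^ 2) = ∑ i, T1 μ π q m (e i) (e i) := by
  classical
  have h1 := av_sum_right (μ := μ) (π := π) hD hm Finset.univ
    (g := fun i v γ => Sf μ π q (e i) v γ * Sf μ π q (e i) v γ)
    (fun i _ => (Gf_Sf hD hq (he i)).mul (Gf_Sf hD hq (he i)))
  have h2 : (fun v γ => ∑ i, Sf μ π q (e i) v γ ^ 2) =
      (fun v γ => ∑ i, Sf μ π q (e i) v γ * Sf μ π q (e i) v γ) := by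
    funext v γ
    exact Finset.sum_congr rfl fun i _ => pow_two _
  rw [h2, h1]
  rfl

end SPN
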