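import Pool.Agent.SPN.Inv

/-! # Module Fun: strict fundamental domains -/

open MeasureTheory

namespace SPN

variable {G : Type*} [Group G] [TopologicalSpace G] [IsTopologicalGroup G]
  [SecondCountableTopology G] [MeasurableSpace G] [BorelSpace G]

private theorem Fun_cover (Γ : Subgroup G) [DiscreteTopology Γ] :
    ∃ V : ℕ → Set G, (∀ i, IsOpen (V i)) ∧ (∀ g, ∃ i, g ∈ V i) ∧
      ∀ i, ∀ (γ δ : Γ) (g : G), (γ : G) * g ∈ V i → (δ : G) * g ∈ V i → γ = δ := by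
  classical
  have h1 : IsOpen ({1} : Set Γ) := isOpen_discrete _
  obtain ⟨W, hWo, hW⟩ := isOpen_induced_iff.mp h1
  have hW1 : (1 : G) ∈ W := by
    have h2 : (1 : Γ) ∈ (Subtype.val ⁻¹' W : Set Γ) := by
      rw [hW]; exact rfl
    exact h2
  have hWΓ : ∀ γ : Γ, (γ : G) ∈ W → γ = 1 := by
    intro γ hγ
    have h2 : γ ∈ (Subtype.val ⁻¹' W : Set Γ) := hγ
    rw [hW] at h2
    exact h2
  obtain ⟨U, hU, hUW⟩ := exists_nhds_split_inv (hWo.mem_nhds hW1)
  obtain ⟨V, hVU, hVo, hV1⟩ := mem_nhds_iff.mp hU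
  have hnhd : ∀ x : G, (fun x : G => {h : G | h * x⁻¹ ∈ V}) x ∈ nhds x := by
    intro x
    have hop : IsOpen {h : G | h * x⁻¹ ∈ V} := hVo.preimage (continuous_mul_const x⁻¹)
    refine hop.mem_nhds ?_
    show x * x⁻¹ ∈ V
    rw [mul_inv_cancel]; exact hV1
  obtain ⟨s, hsc, hs⟩ := TopologicalSpace.countable_cover_nhds hnhd
  have hsne : s.Nonempty := by
    by_contra hne
    rw [Set.not_nonempty_iff_eq_empty] at hne
    have : (1 : G) ∈ (⋃ x ∈ s, (fun x : G => {h : G | h * x⁻¹ ∈ V}) x) := by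
      rw [hs]; trivial
    rw [hne] at this
    simp at this
  obtain ⟨f, hf⟩ := hsc.exists_eq_range hsne
  refine ⟨fun i => {h : G | h * (f i)⁻¹ ∈ V}, ?_, ?_, ?_⟩
  · intro i
    exact hVo.preimage (continuous_mul_const (f i)⁻¹)
  · intro g
    have hg : g ∈ (⋃ x ∈ s, (fun x : G => {h : G | h * x⁻¹ ∈ V}) x) := by
      rw [hs]; trivial
    rw [Set.mem_iUnion₂] at hg
    obtain ⟨x, hx, hgx⟩ := hg
    rw [hf] at hx
    obtain ⟨i, rfl⟩ := hx
    exact ⟨i, hgx⟩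
  · intro i γ δ g hγ hδ
    have h3 := hUW _ (hVU hγ) _ (hVU hδ)
    have h4 : (γ : G) * g * (f i)⁻¹ / ((δ : G) * g * (f i)⁻¹) = ((γ * δ⁻¹ : Γ) : G) := by
      rw [Subgroup.coe_mul, Subgroup.coe_inv, div_eq_mul_inv]
      group
    rw [h4] at h3
    have h5 := hWΓ _ h3
    exact mul_inv_eq_one.mp h5

theorem exists_pi (Γ : Subgroup G) [DiscreteTopology Γ] :
    ∃ π : G → Γ, (∀ γ, MeasurableSet (π ⁻¹' {γ})) ∧ ∀ (γ : Γ) (g : G), π (γ * g) = γ * π g := by
  classical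
  obtain ⟨V, hVo, hcov, huniq⟩ := Fun_cover Γ
  have hP : ∀ g : G, ∃ i, ∃ γ : Γ, (γ : G) * g ∈ V i := by
    intro g
    obtain ⟨i, hi⟩ := hcov g
    exact ⟨i, 1, by rw [Subgroup.coe_one, one_mul]; exact hi⟩
  let ix : G → ℕ := fun g => Nat.find (hP g)
  have hix : ∀ g, ∃ γ : Γ, (γ : G) * g ∈ V (ix g) := fun g => Nat.find_spec (hP g)
  have hPinv : ∀ (δ : Γ) (g : G) (i : ℕ),
      (∃ γ : Γ, (γ : G) * ((δ : G) * g) ∈ V i) ↔ ∃ γ : Γ, (γ : G) * g ∈ V i := by
    intro δ g i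
    constructor
    · rintro ⟨γ, hγ⟩
      refine ⟨γ * δ, ?_⟩
      rw [Subgroup.coe_mul, mul_assoc]; exact hγ
    · rintro ⟨γ, hγ⟩
      refine ⟨γ * δ⁻¹, ?_⟩
      rw [Subgroup.coe_mul, Subgroup.coe_inv]
      have : (γ : G) * (δ : G)⁻¹ * ((δ : G) * g) = (γ : G) * g := by group
      rw [this]; exact hγ
  have hixinv : ∀ (δ : Γ) (g : G), ix ((δ : G) * g) = ix g := by
    intro δ g
    apply le_antisymm
    · exact Nat.find_min' _ ((hPinv δ g _).mpr (hix g))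
    · exact Nat.find_min' _ ((hPinv δ g _).mp (hix _))
  choose c hc using hix
  have hchar : ∀ (g : G) (γ : Γ), (c g)⁻¹ = γ ↔ ((γ⁻¹ : Γ) : G) * g ∈ V (ix g) := by
    intro g γ
    constructor
    · intro h
      rw [← h, inv_inv]; exact hc g
    · intro h
      have := huniq _ _ _ _ h (hc g)
      rw [← this, inv_inv]
  refine ⟨fun g => (c g)⁻¹, ?_, ?_⟩
  · intro γ
    have hopen : ∀ i, IsOpen {g : G | ∃ δ : Γ, (δ : G) * g ∈ V i} := by
      intro i
      have : {g : G | ∃ δ : Γ, (δ : G) * g ∈ V i} = ⋃ δ : Γ, (fun g => (δ : G) * g) ⁻¹' V i := by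
        ext g; simp
      rw [this]
      exact isOpen_iUnion fun δ => (hVo i).preimage (continuous_const_mul (δ : G))
    have hset : ((fun g => (c g)⁻¹) ⁻¹' {γ} : Set G) =
        ⋃ i : ℕ, (({g : G | ∃ δ : Γ, (δ : G) * g ∈ V i} \
          ⋃ j ∈ Finset.range i, {g : G | ∃ δ : Γ, (δ : G) * g ∈ V j}) ∩
          (fun g => ((γ⁻¹ : Γ) : G) * g) ⁻¹' V i) := by
      ext g
      simp only [Set.mem_preimage, Set.mem_singleton_iff, Set.mem_iUnion, Set.mem_inter_iff,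
        Set.mem_sdiff, Set.mem_ofPred_eq]
      rw [hchar g γ]
      constructor
      · intro h
        refine ⟨ix g, ⟨⟨c g, hc g⟩, ?_⟩, h⟩
        rintro ⟨j, hj, hd⟩
        exact Nat.find_min (hP g) (Finset.mem_range.mp hj) hd
      · rintro ⟨i, ⟨hi, hmin⟩, h⟩
        have hii : ix g = i := by
          apply le_antisymm
          · exact Nat.find_min' _ hi
          · by_contra hlt
            have hlt : ix g < i := not_le.mp hlt
            exact hmin ⟨ix g, Finset.mem_range.mpr hlt, ⟨c g, hc g⟩⟩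
        rw [hii]; exact h
    rw [hset]
    refine MeasurableSet.iUnion fun i => ?_
    refine MeasurableSet.inter (MeasurableSet.diff (hopen i).measurableSet ?_) ?_
    · exact Finset.measurableSet_biUnion _ fun j _ => (hopen j).measurableSet
    · exact ((hVo i).preimage (continuous_const_mul _)).measurableSet
  · intro γ g
    show (c ((γ : G) * g))⁻¹ = γ * (c g)⁻¹
    rw [hchar]
    rw [hixinv γ g]
    have : (((γ * (c g)⁻¹)⁻¹ : Γ) : G) * ((γ : G) * g) = (c g : G) * g := by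
      rw [mul_inv_rev, inv_inv, Subgroup.coe_mul, Subgroup.coe_inv]
      group
    rw [this]
    exact hc g

private theorem Fun_fund {μ : Measure G} [μ.IsMulLeftInvariant] {Γ : Subgroup G} {π : G → Γ}
    (hm : ∀ γ, MeasurableSet (π ⁻¹' {γ})) (he : ∀ (γ : Γ) (g : G), π (γ * g) = γ * π g) :
    IsFundamentalDomain Γ (D0 π) μ := by
  refine IsFundamentalDomain.mk' (hm 1).nullMeasurableSet ?_
  intro g
  refine ⟨(π g)⁻¹, ?_, ?_⟩
  · show π ((((π g)⁻¹ : Γ) : G) * g) = 1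
    rw [he, inv_mul_cancel]
  · intro γ hγ
    have hγ' : π ((γ : G) * g) = 1 := hγ
    rw [he] at hγ'
    exact eq_inv_of_mul_eq_one_left hγ'

theorem exists_Dm {μ : Measure G} [μ.IsMulLeftInvariant] (Γ : Subgroup G) [DiscreteTopology Γ]
    {F : Set G} (hF : IsFundamentalDomain Γ F μ) (hfin : μ F < ⊤) :
    ∃ π : G → Γ, Dm μ Γ π := by
  obtain ⟨π, hm, he⟩ := exists_pi Γ
  have hcnt : Countable Γ := TopologicalSpace.separableSpace_iff_countable.mp inferInstance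
  have hfd : IsFundamentalDomain Γ (D0 π) μ := Fun_fund hm he
  refine ⟨π, hcnt, hm, he, ?_⟩
  have h1 : μ (D0 π) = μ F := hfd.measure_eq hF
  show μ (D0 π) < ⊤
  rw [h1]; exact hfin

theorem dm_pos {μ : Measure G} [μ.IsMulLeftInvariant] [NeZero μ] {Γ : Subgroup G} {π : G → Γ}
    (hD : Dm μ Γ π) : 0 < dm μ π := by
  have hcnt := hD.cnt
  have hfd : IsFundamentalDomain Γ (D0 π) μ := Fun_fund hD.meas hD.equiv
  have hne : μ (D0 π) ≠ 0 := by
    intro h0
    exact hfd.measure_ne_zero (NeZero.ne μ) h0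
  exact ENNReal.toReal_pos hne hD.fin.ne

end SPN
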