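import Pool.Agent.SPN.Ab

/-! # Module Poi (difficulty 4): a Poincare inequality -/

open MeasureTheory
open scoped Pointwise

namespace SPN

variable {G : Type*} [Group G] [TopologicalSpace G] [IsTopologicalGroup G] [T2Space G]
  [LocallyCompactSpace G] [SecondCountableTopology G] [MeasurableSpace G] [BorelSpace G]
  {μ : Measure G} [IsFiniteMeasureOnCompacts μ] [μ.IsMulLeftInvariant] [SigmaFinite μ]
  [μ.IsMulRightInvariant] {K : Subgroup G} {xt : ℝ → G}

omit [IsTopologicalGroup G] [T2Space G] [LocallyCompactSpace G] [SecondCountableTopology G]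
  [Group G] [BorelSpace G] [TopologicalSpace G] [IsFiniteMeasureOnCompacts μ]
  [μ.IsMulLeftInvariant] [SigmaFinite μ] [μ.IsMulRightInvariant] in
private lemma poi_fin {B : Set G} (hB : μ B < ⊤) : IsFiniteMeasure (μ.restrict B) :=
  ⟨by rw [Measure.restrict_apply_univ]; exact hB⟩

/-- translation on the right -/
private lemma poi_right {B B' : Set G} (hB : IsCompact B) (hB' : IsCompact B') {F : G → ℝ}
    (hF : Bm F) (h0 : ∀ v, 0 ≤ F v) (y : G) (hy : ∀ v ∈ B, v * y ∈ B') :
    ∫ v in B, F (v * y) ∂μ ≤ ∫ v in B', F v ∂μ := by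
  obtain ⟨C, hC⟩ := hF.bdd
  have hm : Measurable (fun v => F (v * y)) := hF.meas.comp (measurable_mul_const y)
  haveI := poi_fin (μ := μ) hB'.measure_lt_top
  haveI := poi_fin (μ := μ) hB.measure_lt_top
  have e1 : ∫ v in B', F v ∂μ = ∫ v, B'.indicator F (v * y) ∂μ := by
    rw [integral_mul_right_eq_self (B'.indicator F) y, integral_indicator hB'.measurableSet]
  rw [e1, ← integral_indicator hB.measurableSet]
  refine integral_mono ?_ ?_ ?_
  · rw [integrable_indicator_iff hB.measurableSet]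
    exact Integrable.of_bound hm.aestronglyMeasurable C
      (Filter.Eventually.of_forall fun v => by simpa using hC _)
  · refine Integrable.comp_mul_right ?_ y
    rw [integrable_indicator_iff hB'.measurableSet]
    exact Integrable.of_bound hF.meas.aestronglyMeasurable C
      (Filter.Eventually.of_forall fun v => by simpa using hC _)
  · intro v
    by_cases hv : v ∈ B
    · simp only [Set.indicator_of_mem hv, Set.indicator_of_mem (hy v hv)]
      exact le_rfl
    · rw [Set.indicator_of_notMem hv]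
      exact Set.indicator_nonneg (fun w _ => h0 w) _

/-- the estimate for a fixed `h` -/
private lemma poi_fix (hx : Ax K xt) {B B' : Set G} (hB : IsCompact B) (hB' : IsCompact B')
    {β F : G → ℝ} (hβ : Bm β) (hF : Bm F) (h0 : ∀ v, 0 ≤ F v)
    (hβK : ∀ v, ∀ k ∈ K, β (v * k) = β v)
    (hi : ∀ v s, 0 ≤ s → (β (v * xt s) - β v) ^ 2 ≤ s * ∫ u in (0)..s, F (v * xt u))
    {k k' : G} (hk : k ∈ K) (hk' : k' ∈ K) {s S : ℝ} (hs : 0 ≤ s) (hS : s ≤ S)
    (hy : ∀ v ∈ B, ∀ u, 0 ≤ u → u ≤ S → v * (k * xt u) ∈ B') :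
    ∫ v in B, (β v - β (v * (k * xt s * k'))) ^ 2 ∂μ ≤ S ^ 2 * ∫ v in B', F v ∂μ := by
  obtain ⟨C, hC⟩ := hF.bdd
  obtain ⟨D, hD⟩ := hβ.bdd
  haveI := poi_fin (μ := μ) hB.measure_lt_top
  haveI : IsFiniteMeasure ((volume : Measure ℝ).restrict (Set.Ioc 0 s)) :=
    ⟨by rw [Measure.restrict_apply_univ]; exact measure_Ioc_lt_top⟩
  have hI : 0 ≤ ∫ v in B', F v ∂μ := integral_nonneg h0
  have hxt : Measurable xt := hx.cont.measurable
  have hm2 : Measurable (fun p : G × ℝ => F (p.1 * (k * xt p.2))) := by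
    refine hF.meas.comp ?_
    exact measurable_fst.mul (measurable_const.mul (hxt.comp measurable_snd))
  have hpair : Integrable (fun p : G × ℝ => F (p.1 * (k * xt p.2)))
      ((μ.restrict B).prod ((volume : Measure ℝ).restrict (Set.Ioc 0 s))) :=
    Integrable.of_bound hm2.aestronglyMeasurable C
      (Filter.Eventually.of_forall fun v => by simpa using hC _)
  have hpt : ∀ v, (β v - β (v * (k * xt s * k'))) ^ 2
      ≤ s * ∫ u in Set.Ioc 0 s, F (v * (k * xt u)) := by
    intro v
    have e1 : β (v * (k * xt s * k')) = β (v * k * xt s) := by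
      have : v * (k * xt s * k') = v * k * xt s * k' := by simp only [mul_assoc]
      rw [this, hβK _ k' hk']
    have e2 : β v = β (v * k) := (hβK v k hk).symm
    rw [e1, e2, sub_sq_comm]
    have := hi (v * k) s hs
    rw [intervalIntegral.integral_of_le hs] at this
    simpa only [mul_assoc] using this
  have h1 : ∫ v in B, (β v - β (v * (k * xt s * k'))) ^ 2 ∂μ
      ≤ ∫ v in B, (s * ∫ u in Set.Ioc 0 s, F (v * (k * xt u))) ∂μ := by
    refine integral_mono ?_ ?_ hpt
    · refine Integrable.of_bound (C := (D + D) ^ 2) ?_ ?_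
      · exact ((hβ.meas.sub (hβ.meas.comp (measurable_mul_const _))).pow_const 2).aestronglyMeasurable
      · refine Filter.Eventually.of_forall fun v => ?_
        have h3 := abs_sub (β v) (β (v * (k * xt s * k')))
        have h4 := hD v
        have h5 := hD (v * (k * xt s * k'))
        rw [Real.norm_eq_abs, abs_pow]
        exact pow_le_pow_left₀ (abs_nonneg _) (h3.trans (add_le_add h4 h5)) 2
    · exact hpair.integral_prod_left.const_mul s
  refine h1.trans ?_
  rw [integral_const_mul, integral_integral_swap hpair]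
  have h2 : ∫ u in Set.Ioc 0 s, (∫ v in B, F (v * (k * xt u)) ∂μ)
      ≤ ∫ u in Set.Ioc 0 s, (∫ v in B', F v ∂μ) := by
    refine setIntegral_mono_on ?_ ?_ measurableSet_Ioc ?_
    · exact hpair.integral_prod_right
    · exact integrable_const _
    · intro u hu
      exact poi_right hB hB' hF h0 _ (fun v hv => hy v hv u hu.1.le (hu.2.trans hS))
  have h3 : ∫ _u in Set.Ioc 0 s, (∫ v in B', F v ∂μ) = s * ∫ v in B', F v ∂μ := by
    rw [setIntegral_const, smul_eq_mul]
    congr 1
    simp [Measure.real, hs]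
  rw [h3] at h2
  calc s * ∫ u in Set.Ioc 0 s, (∫ v in B, F (v * (k * xt u)) ∂μ)
      ≤ s * (s * ∫ v in B', F v ∂μ) := mul_le_mul_of_nonneg_left h2 hs
    _ = s ^ 2 * ∫ v in B', F v ∂μ := by ring
    _ ≤ S ^ 2 * ∫ v in B', F v ∂μ :=
        mul_le_mul_of_nonneg_right (pow_le_pow_left₀ hs hS 2) hI

theorem poincare (hK : IsCompact (K : Set G)) (hx : Ax K xt) {B : Set G} (hB : IsCompact B) :
    ∃ B' : Set G, IsCompact B' ∧ ∃ C : ℝ, 0 ≤ C ∧ ∀ β F : G → ℝ, Bm β → Bm F →
      (∀ v, 0 ≤ F v) → (∀ v, ∀ k ∈ K, β (v * k) = β v) →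
      (∀ v s, 0 ≤ s → (β (v * xt s) - β v) ^ 2 ≤ s * ∫ u in (0)..s, F (v * xt u)) →
      ∫ v in B, ∫ v' in B, (β v - β v') ^ 2 ∂μ ∂μ ≤ C * ∫ v in B', F v ∂μ := by
  have hL : IsCompact (B⁻¹ * B) := hB.inv.mul hB
  obtain ⟨S0, hS0⟩ := hx.proper _ hL
  set S : ℝ := max S0 0 with hSdef
  have hSn : 0 ≤ S := le_max_right _ _
  set L : Set G := B⁻¹ * B with hLdef
  set B' : Set G := B * ((K : Set G) * xt '' Set.Icc 0 S) with hB'def
  have hB' : IsCompact B' := hB.mul (hK.mul (isCompact_Icc.image hx.cont))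
  refine ⟨B', hB', (μ L).toReal * S ^ 2, by positivity, ?_⟩
  intro β F hβ hF h0 hβK hi
  obtain ⟨D, hD⟩ := hβ.bdd
  haveI := poi_fin (μ := μ) hB.measure_lt_top
  haveI := poi_fin (μ := μ) hL.measure_lt_top
  have hbd : ∀ v w : G, ‖(β v - β w) ^ 2‖ ≤ (D + D) ^ 2 := by
    intro v w
    have h3 := abs_sub (β v) (β w)
    rw [Real.norm_eq_abs, abs_pow]
    exact pow_le_pow_left₀ (abs_nonneg _) (h3.trans (add_le_add (hD v) (hD w))) 2
  have hφ : Measurable (fun p : G × G => (β p.1 - β (p.1 * p.2)) ^ 2) := by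
    refine ((hβ.meas.comp measurable_fst).sub (hβ.meas.comp ?_)).pow_const 2
    exact measurable_fst.mul measurable_snd
  have hψ : Measurable (fun p : G × G => (β p.1 - β p.2) ^ 2) :=
    ((hβ.meas.comp measurable_fst).sub (hβ.meas.comp measurable_snd)).pow_const 2
  have hφi : Integrable (fun p : G × G => (β p.1 - β (p.1 * p.2)) ^ 2)
      ((μ.restrict B).prod (μ.restrict L)) :=
    Integrable.of_bound hφ.aestronglyMeasurable _ (Filter.Eventually.of_forall fun p => hbd _ _)
  have hψi : Integrable (fun p : G × G => (β p.1 - β p.2) ^ 2)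
      ((μ.restrict B).prod (μ.restrict B)) :=
    Integrable.of_bound hψ.aestronglyMeasurable _ (Filter.Eventually.of_forall fun p => hbd _ _)
  -- step 1
  have h1 : ∫ v in B, ∫ v' in B, (β v - β v') ^ 2 ∂μ ∂μ
      ≤ ∫ v in B, ∫ h in L, (β v - β (v * h)) ^ 2 ∂μ ∂μ := by
    refine setIntegral_mono_on hψi.integral_prod_left hφi.integral_prod_left hB.measurableSet ?_
    intro v hv
    rw [← integral_indicator hB.measurableSet, ← integral_indicator hL.measurableSet,
      ← integral_mul_left_eq_self (B.indicator fun v' => (β v - β v') ^ 2) v]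
    refine integral_mono ?_ ?_ ?_
    · refine Integrable.comp_mul_left ?_ v
      rw [integrable_indicator_iff hB.measurableSet]
      exact Integrable.of_bound ((measurable_const.sub hβ.meas).pow_const 2).aestronglyMeasurable _
        (Filter.Eventually.of_forall fun w => hbd v w)
    · rw [integrable_indicator_iff hL.measurableSet]
      exact Integrable.of_bound ((measurable_const.sub
        (hβ.meas.comp (measurable_const_mul v))).pow_const 2).aestronglyMeasurable _
        (Filter.Eventually.of_forall fun w => hbd v (v * w))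
    · intro h
      by_cases hh : v * h ∈ B
      · have : h ∈ L := by
          rw [hLdef]
          exact ⟨v⁻¹, Set.inv_mem_inv.2 hv, v * h, hh, by simp⟩
        simp only [Set.indicator_of_mem hh, Set.indicator_of_mem this]
        exact le_rfl
      · simp only [Set.indicator_of_notMem hh]
        exact Set.indicator_nonneg (fun w _ => sq_nonneg _) _
  refine h1.trans ?_
  rw [integral_integral_swap hφi]
  have h2 : ∫ h in L, ∫ v in B, (β v - β (v * h)) ^ 2 ∂μ ∂μ
      ≤ ∫ h in L, (S ^ 2 * ∫ v in B', F v ∂μ) ∂μ := by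
    refine setIntegral_mono_on hφi.integral_prod_right (integrable_const _) hL.measurableSet ?_
    intro h hh
    obtain ⟨k, hk, s, hs, k', hk', rfl⟩ := hx.kak h
    have hsS : s ≤ S := (hS0 k hk k' hk' s hs hh).trans (le_max_left _ _)
    refine poi_fix hx hB hB' hβ hF h0 hβK hi hk hk' hs hsS ?_
    intro v hv u hu0 huS
    exact ⟨v, hv, k * xt u, ⟨k, hk, xt u, ⟨u, ⟨hu0, huS⟩, rfl⟩, rfl⟩, rfl⟩
  refine h2.trans (le_of_eq ?_)
  rw [setIntegral_const, smul_eq_mul, Measure.real, mul_assoc]

end SPN
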