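import Pool.Agent.SPN.Ab

/-! # Module Tail (difficulty 3): a variance estimate with a weight

PROOF. Let `d = ∫ ω ≥ 0`. Choose `B` compact with `∫_{Bᶜ} ω ≤ ε / (4 (d + 1))` (`ω` is integrable; e.g.
`tendsto_setIntegral_of_monotone` for the compact exhaustion, `compactCovering G`, or
`MeasureTheory.Integrable.exists_hasCompactSupport...`). For `β` with `|β| ≤ M` and `∫ β ω = 0`:
`d ∫ β² ω = (1/2) ∫∫ (β v - β v')² ω v ω v'` (expand). On `B × B` use `ω ≤ 1` (and the integral over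
`B × B` of the bounded function `(β v - β v')²` is finite), on the complement `(β v - β v')² ≤ 4 M²` and
`∫∫_{(B × B)ᶜ} ω ω' ≤ 2 d ∫_{Bᶜ} ω`. So
`d ∫ β² ω ≤ (1/2) ∫_B ∫_B (β v - β v')² + 4 M² d ε / (4 (d + 1))`. -/

open MeasureTheory

namespace SPN

variable {G : Type*} [Group G] [TopologicalSpace G] [IsTopologicalGroup G] [T2Space G]
  [LocallyCompactSpace G] [SecondCountableTopology G] [MeasurableSpace G] [BorelSpace G]
  {μ : Measure G} [IsFiniteMeasureOnCompacts μ] [SigmaFinite μ]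

private theorem Tail_compact {ω : G → ℝ} (hω : Integrable ω μ) {δ : ℝ} (hδ : 0 < δ) :
    ∃ B : Set G, IsCompact B ∧ ∫ v in Bᶜ, ω v ∂μ ≤ δ := by
  have h := tendsto_setIntegral_of_monotone (μ := μ) (f := ω) (s := fun n => compactCovering G n)
    (fun n => (isCompact_compactCovering G n).measurableSet)
    (fun m n hmn => compactCovering_subset G hmn)
    (by rw [iUnion_compactCovering]; exact hω.integrableOn)
  rw [iUnion_compactCovering, setIntegral_univ] at h
  obtain ⟨n, hn⟩ := ((tendsto_order.1 h).1 (∫ v, ω v ∂μ - δ) (by linarith)).exists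
  refine ⟨compactCovering G n, isCompact_compactCovering G n, ?_⟩
  have h2 := integral_add_compl (isCompact_compactCovering G n).measurableSet hω
  linarith

theorem tail {ω : G → ℝ} (hω : Integrable ω μ) (h0 : ∀ v, 0 ≤ ω v) (h1 : ∀ v, ω v ≤ 1) {ε : ℝ}
    (hε : 0 < ε) :
    ∃ B : Set G, IsCompact B ∧ ∀ β : G → ℝ, Bm β → ∀ M : ℝ, (∀ v, |β v| ≤ M) →
      ∫ v, β v * ω v ∂μ = 0 →
      (∫ v, ω v ∂μ) * ∫ v, β v ^ 2 * ω v ∂μ
        ≤ ∫ v in B, ∫ v' in B, (β v - β v') ^ 2 ∂μ ∂μ + ε * M ^ 2 := by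
  set d := ∫ v, ω v ∂μ with hd
  have hd0 : 0 ≤ d := integral_nonneg h0
  set δ := ε / (4 * (d + 1)) with hδ
  have hδ0 : 0 < δ := by positivity
  have hδd : 4 * d * δ ≤ ε := by
    have h3 : 4 * (d + 1) * δ = ε := by
      rw [hδ]; field_simp
    nlinarith
  obtain ⟨B, hBc, hB⟩ := Tail_compact hω hδ0
  refine ⟨B, hBc, fun β hβ M hM hz => ?_⟩
  have hBm : MeasurableSet B := hBc.measurableSet
  have hfin : IsFiniteMeasure (μ.restrict B) := ⟨by
    rw [Measure.restrict_apply_univ]; exact hBc.measure_lt_top⟩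
  have hM0 : 0 ≤ M := (abs_nonneg _).trans (hM 1)
  -- integrability
  have hbd : ∀ v v', (β v - β v') ^ 2 ≤ 4 * M ^ 2 := by
    intro v v'
    have e1 := abs_le.1 (hM v)
    have e2 := abs_le.1 (hM v')
    have e3 : |β v - β v'| ≤ 2 * M := by
      rw [abs_le]; constructor <;> linarith [e1.1, e1.2, e2.1, e2.2]
    have e4 := sq_le_sq' (abs_le.1 e3).1 (abs_le.1 e3).2
    nlinarith
  have hmβ : Measurable β := hβ.meas
  have hiG : ∀ (φ : G → ℝ) (C : ℝ), Measurable φ → (∀ v, |φ v| ≤ C) →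
      Integrable (fun v => φ v * ω v) μ := by
    intro φ C hφ hC
    refine (hω.const_mul C).mono' (hφ.aestronglyMeasurable.mul hω.1) ?_
    refine Filter.Eventually.of_forall fun v => ?_
    rw [Real.norm_eq_abs, abs_mul, abs_of_nonneg (h0 v)]
    exact mul_le_mul_of_nonneg_right (hC v) (h0 v)
  have hiB : ∀ (φ : G → ℝ) (C : ℝ), Measurable φ → (∀ v, |φ v| ≤ C) →
      IntegrableOn φ B μ := by
    intro φ C hφ hC
    refine (integrable_const C).mono' hφ.aestronglyMeasurable ?_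
    exact Filter.Eventually.of_forall fun v => by rw [Real.norm_eq_abs]; exact hC v
  have hβ2 : ∀ v, |β v ^ 2| ≤ M ^ 2 := by
    intro v
    rw [abs_pow]
    exact pow_le_pow_left₀ (abs_nonneg _) (hM v) 2
  set I := ∫ v, β v ^ 2 * ω v ∂μ with hI
  have iβ := hiG β M hmβ hM
  have iβ2 := hiG (fun v => β v ^ 2) (M ^ 2) (hmβ.pow_const 2) hβ2
  have hI0 : 0 ≤ I := integral_nonneg fun v => mul_nonneg (sq_nonneg _) (h0 v)
  -- the inner integral
  have hsq : ∀ v, Measurable (fun v' => (β v - β v') ^ 2) := fun v =>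
    (measurable_const.sub hmβ).pow_const 2
  have hsqb : ∀ v v', |(β v - β v') ^ 2| ≤ 4 * M ^ 2 := fun v v' => by
    rw [abs_of_nonneg (sq_nonneg _)]; exact hbd v v'
  have hJ : ∀ v, ∫ v', (β v - β v') ^ 2 * ω v' ∂μ = d * β v ^ 2 + I := by
    intro v
    have e1 : (fun v' => (β v - β v') ^ 2 * ω v') =
        fun v' => (β v ^ 2 * ω v' + (-2 * β v) * (β v' * ω v')) + β v' ^ 2 * ω v' := by
      funext v'; ring
    have i1 : Integrable (fun v' => β v ^ 2 * ω v') μ := hω.const_mul _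
    have i2 : Integrable (fun v' => (-2 * β v) * (β v' * ω v')) μ := iβ.const_mul _
    have i12 : Integrable (fun v' => β v ^ 2 * ω v' + (-2 * β v) * (β v' * ω v')) μ := i1.add i2
    rw [e1, integral_add i12 iβ2, integral_add i1 i2, integral_const_mul,
      integral_const_mul, hz]
    ring
  have hJL : ∀ v, d * β v ^ 2 + I ≤ (∫ v' in B, (β v - β v') ^ 2 ∂μ) + 4 * M ^ 2 * δ := by
    intro v
    rw [← hJ v, ← integral_add_compl hBm (hiG _ _ (hsq v) (hsqb v))]
    refine add_le_add ?_ ?_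
    · refine integral_mono (hiG _ _ (hsq v) (hsqb v)).integrableOn (hiB _ _ (hsq v) (hsqb v)) ?_
      intro v'
      exact mul_le_of_le_one_right (sq_nonneg _) (h1 v')
    · calc ∫ v' in Bᶜ, (β v - β v') ^ 2 * ω v' ∂μ ≤ ∫ v' in Bᶜ, 4 * M ^ 2 * ω v' ∂μ := by
            refine integral_mono (hiG _ _ (hsq v) (hsqb v)).integrableOn
              (hω.const_mul _).integrableOn ?_
            intro v'
            exact mul_le_mul_of_nonneg_right (hbd v v') (h0 v')
        _ = 4 * M ^ 2 * ∫ v' in Bᶜ, ω v' ∂μ := integral_const_mul _ _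
        _ ≤ 4 * M ^ 2 * δ := mul_le_mul_of_nonneg_left hB (by positivity)
  have hJM : ∀ v, d * β v ^ 2 + I ≤ 4 * M ^ 2 * d := by
    intro v
    rw [← hJ v]
    calc ∫ v', (β v - β v') ^ 2 * ω v' ∂μ ≤ ∫ v', 4 * M ^ 2 * ω v' ∂μ := by
          refine integral_mono (hiG _ _ (hsq v) (hsqb v)) (hω.const_mul _) ?_
          intro v'
          exact mul_le_mul_of_nonneg_right (hbd v v') (h0 v')
      _ = 4 * M ^ 2 * d := integral_const_mul _ _
  -- the function `L`
  have hL : ∀ v, ∫ v' in B, (β v - β v') ^ 2 ∂μ =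
      (β v ^ 2 * (∫ _ in B, (1 : ℝ) ∂μ) + (-2 * β v) * (∫ v' in B, β v' ∂μ)) +
        ∫ v' in B, β v' ^ 2 ∂μ := by
    intro v
    have e1 : (fun v' => (β v - β v') ^ 2) =
        fun v' => (β v ^ 2 * 1 + (-2 * β v) * β v') + β v' ^ 2 := by
      funext v'; ring
    have i1 : Integrable (fun _ : G => β v ^ 2 * 1) (μ.restrict B) := integrable_const _
    have i2 : Integrable (fun v' => (-2 * β v) * β v') (μ.restrict B) :=
      (hiB β M hmβ hM).const_mul _
    have i3 : Integrable (fun v' => β v' ^ 2) (μ.restrict B) :=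
      hiB (fun v => β v ^ 2) (M ^ 2) (hmβ.pow_const 2) hβ2
    have i12 : Integrable (fun v' => β v ^ 2 * 1 + (-2 * β v) * β v') (μ.restrict B) := i1.add i2
    rw [e1, integral_add i12 i3, integral_add i1 i2, integral_const_mul,
      integral_const_mul]
  have hLm : Measurable (fun v => ∫ v' in B, (β v - β v') ^ 2 ∂μ) := by
    simp_rw [hL]
    exact (((hmβ.pow_const 2).mul_const _).add ((hmβ.const_mul (-2)).mul_const _)).add_const _
  have hL0 : ∀ v, 0 ≤ ∫ v' in B, (β v - β v') ^ 2 ∂μ := fun v =>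
    integral_nonneg fun v' => sq_nonneg _
  have hLi : IntegrableOn (fun v => ∫ v' in B, (β v - β v') ^ 2 ∂μ) B μ := by
    refine hiB _ (4 * M ^ 2 * (∫ _ in B, (1 : ℝ) ∂μ)) hLm ?_
    intro v
    rw [abs_of_nonneg (hL0 v), ← integral_const_mul]
    refine integral_mono (hiB _ _ (hsq v) (hsqb v)) (integrable_const _) ?_
    intro v'
    have := hbd v v'
    simp only [mul_one]
    exact this
  -- the outer integral
  have iJ : Integrable (fun v => (d * β v ^ 2 + I) * ω v) μ := by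
    refine hiG _ (4 * M ^ 2 * d) (((hmβ.pow_const 2).const_mul d).add_const I) ?_
    intro v
    rw [abs_of_nonneg (by positivity)]
    exact hJM v
  have hout : ∫ v, (d * β v ^ 2 + I) * ω v ∂μ = 2 * (d * I) := by
    have e1 : (fun v => (d * β v ^ 2 + I) * ω v) =
        fun v => d * (β v ^ 2 * ω v) + I * ω v := by
      funext v; ring
    rw [e1, integral_add (iβ2.const_mul d) (hω.const_mul I), integral_const_mul,
      integral_const_mul, ← hI, ← hd]
    ring
  have hsplit := integral_add_compl hBm iJ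
  have hBd : ∫ v in B, ω v ∂μ ≤ d := by
    have h3 := integral_add_compl hBm hω
    have h4 : 0 ≤ ∫ v in Bᶜ, ω v ∂μ := integral_nonneg h0
    rw [← hd] at h3
    linarith
  have hin : ∫ v in B, (d * β v ^ 2 + I) * ω v ∂μ ≤
      (∫ v in B, ∫ v' in B, (β v - β v') ^ 2 ∂μ ∂μ) + 4 * M ^ 2 * δ * d := by
    calc ∫ v in B, (d * β v ^ 2 + I) * ω v ∂μ
        ≤ ∫ v in B, ((∫ v' in B, (β v - β v') ^ 2 ∂μ) + 4 * M ^ 2 * δ * ω v) ∂μ := by
          refine integral_mono iJ.integrableOn (hLi.add (hω.const_mul _).integrableOn) ?_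
          intro v
          show (d * β v ^ 2 + I) * ω v ≤
            (∫ v' in B, (β v - β v') ^ 2 ∂μ) + 4 * M ^ 2 * δ * ω v
          have e1 := mul_le_mul_of_nonneg_right (hJL v) (h0 v)
          have e2 := mul_le_of_le_one_right (hL0 v) (h1 v)
          rw [add_mul] at e1
          linarith
      _ = (∫ v in B, ∫ v' in B, (β v - β v') ^ 2 ∂μ ∂μ) + 4 * M ^ 2 * δ * ∫ v in B, ω v ∂μ := by
          rw [integral_add hLi (hω.const_mul _).integrableOn, integral_const_mul]
      _ ≤ _ := by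
          have e1 : 4 * M ^ 2 * δ * (∫ v in B, ω v ∂μ) ≤ 4 * M ^ 2 * δ * d :=
            mul_le_mul_of_nonneg_left hBd (by positivity)
          linarith
  have hcp : ∫ v in Bᶜ, (d * β v ^ 2 + I) * ω v ∂μ ≤ 4 * M ^ 2 * d * δ := by
    calc ∫ v in Bᶜ, (d * β v ^ 2 + I) * ω v ∂μ ≤ ∫ v in Bᶜ, 4 * M ^ 2 * d * ω v ∂μ := by
          refine integral_mono iJ.integrableOn (hω.const_mul _).integrableOn ?_
          intro v
          exact mul_le_mul_of_nonneg_right (hJM v) (h0 v)
      _ = 4 * M ^ 2 * d * ∫ v in Bᶜ, ω v ∂μ := integral_const_mul _ _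
      _ ≤ 4 * M ^ 2 * d * δ := mul_le_mul_of_nonneg_left hB (by positivity)
  have hBB : 0 ≤ ∫ v in B, ∫ v' in B, (β v - β v') ^ 2 ∂μ ∂μ := integral_nonneg hL0
  have hfinal : M ^ 2 * (4 * d * δ) ≤ M ^ 2 * ε := mul_le_mul_of_nonneg_left hδd (sq_nonneg M)
  rw [hout] at hsplit
  nlinarith

end SPN
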