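import Pool.Agent.SPN.Lin

/-! # Module Ant (difficulty 2): antisymmetry

`av a (S_b) = ∫_D ∫∫ a(h) b(h') sg(q (π (v h)), q (π (v h')))`: exchange the two integrals (Fubini, the
integrand is integrable on `μ.prod μ`: product of integrable functions times a bounded measurable
function) and use `sg_anti` / `eqi_symm`. -/

open MeasureTheory

namespace SPN

variable {G : Type*} [Group G] [MeasurableSpace G] [MeasurableMul₂ G] {μ : Measure G}
  [SigmaFinite μ] {Γ : Subgroup G} {π : G → Γ} {X : Type*} [LinearOrder X] {q : Γ → X}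

private theorem Ant_meas (hD : Dm μ Γ π) (F : Γ → Γ → ℝ) (v : G) :
    Measurable (fun p : G × G => F (π (v * p.1)) (π (v * p.2))) := by
  haveI := hD.cnt
  intro s _
  have h1 : (fun p : G × G => F (π (v * p.1)) (π (v * p.2))) ⁻¹' s =
      ⋃ (γ : Γ) (γ' : Γ) (_ : F γ γ' ∈ s),
        ({p : G × G | π (v * p.1) = γ} ∩ {p : G × G | π (v * p.2) = γ'}) := by
    ext p
    simp
  rw [h1]
  have h2 : ∀ γ, MeasurableSet {h : G | π (v * h) = γ} := fun γ =>
    (measurable_const_mul v) (hD.meas γ)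
  refine MeasurableSet.iUnion fun γ => MeasurableSet.iUnion fun γ' =>
    MeasurableSet.iUnion fun _ => ?_
  exact (measurable_fst (h2 γ)).inter (measurable_snd (h2 γ'))

private theorem Ant_swap (hD : Dm μ Γ π) {a b : G → ℝ} (ha : Integrable a μ)
    (hb : Integrable b μ) (F : Γ → Γ → ℝ) (hF : ∀ γ γ', |F γ γ'| ≤ 1) (v : G) :
    ∫ h, a h * (∫ h', b h' * F (π (v * h)) (π (v * h')) ∂μ) ∂μ =
      ∫ h', b h' * (∫ h, a h * F (π (v * h)) (π (v * h')) ∂μ) ∂μ := by
  have hi : Integrable (Function.uncurry fun h h' : G =>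
      a h * (b h' * F (π (v * h)) (π (v * h')))) (μ.prod μ) := by
    have h1 : Integrable (fun p : G × G => a p.1 * b p.2) (μ.prod μ) := ha.mul_prod hb
    have h2 := h1.bdd_mul (f := fun p : G × G => F (π (v * p.1)) (π (v * p.2))) (c := 1)
      (Ant_meas hD F v).aestronglyMeasurable
      (Filter.Eventually.of_forall fun p => by rw [Real.norm_eq_abs]; exact hF _ _)
    refine h2.congr (Filter.Eventually.of_forall fun p => ?_)
    simp only [Function.uncurry]
    ring
  calc ∫ h, a h * (∫ h', b h' * F (π (v * h)) (π (v * h')) ∂μ) ∂μ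
      = ∫ h, ∫ h', a h * (b h' * F (π (v * h)) (π (v * h'))) ∂μ ∂μ := by
        simp only [integral_const_mul]
    _ = ∫ h', ∫ h, a h * (b h' * F (π (v * h)) (π (v * h'))) ∂μ ∂μ :=
        integral_integral_swap hi
    _ = ∫ h', b h' * (∫ h, a h * F (π (v * h)) (π (v * h')) ∂μ) ∂μ := by
        congr 1
        ext h'
        rw [← integral_const_mul]
        congr 1
        ext h
        ring

theorem av_Sf_anti (hD : Dm μ Γ π) {a b : G → ℝ} (ha : Integrable a μ) (hb : Integrable b μ) :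
    av μ π a (Sf μ π q b) = - av μ π b (Sf μ π q a) := by
  unfold av Sf
  rw [← integral_neg]
  congr 1
  ext v
  rw [Ant_swap hD ha hb (fun γ γ' => sg (q γ) (q γ')) (fun _ _ => sg_abs_le _ _) v,
    ← integral_neg]
  congr 1
  ext h'
  rw [← mul_neg, ← integral_neg]
  congr 2
  ext h
  rw [sg_anti (q (π (v * h'))) (q (π (v * h)))]
  ring

theorem av_Nf_symm (hD : Dm μ Γ π) {a b : G → ℝ} (ha : Integrable a μ) (hb : Integrable b μ) :
    av μ π a (Nf μ π q b) = av μ π b (Nf μ π q a) := by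
  unfold av Nf
  congr 1
  ext v
  rw [Ant_swap hD ha hb (fun γ γ' => eqi (q γ) (q γ'))
    (fun _ _ => by rw [abs_of_nonneg (eqi_nonneg _ _)]; exact eqi_le_one _ _) v]
  congr 1
  ext h'
  congr 2
  ext h
  rw [eqi_symm (q (π (v * h'))) (q (π (v * h)))]

end SPN
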