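import Pool.Agent.SPN.Trk
import Pool.Agent.SPN.Ant

/-! # Module Zer (difficulty 2): `⟨S_{m_N}⟩_ρ = 0`

`av_Sf_rk_zero`: `av ρ (Sf (rk j)) = av ρ (P^[j] (Sf ρ)) = av (rk j) (Sf ρ)` (`Sf_rk`, `av_rk`, `Sf_rightK`)
`= - av ρ (Sf (rk j))` (`av_Sf_anti`). `av_Sf_mk_zero`: `Sf_sum`, `av_sum_right`.
`Sf_mk_abs`: `Sf_abs_le` and `∫ |mk n| = ∫ mk n = n`. -/

open MeasureTheory

namespace SPN

variable {G : Type*} [Group G] [TopologicalSpace G] [IsTopologicalGroup G] [T2Space G]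
  [LocallyCompactSpace G] [SecondCountableTopology G] [MeasurableSpace G] [BorelSpace G]
  {μ : Measure G} [IsFiniteMeasureOnCompacts μ] [μ.IsMulLeftInvariant] [SigmaFinite μ]
  [μ.IsMulRightInvariant] {Γ : Subgroup G} {π : G → Γ} {X : Type*} [LinearOrder X] {q : Γ → X}
  {K : Subgroup G} {κ : Measure K} {x : G} {ρ : G → ℝ}

theorem av_Sf_rk_zero (hD : Dm μ Γ π) (hq : Mo q) (hw : Wk K κ μ x ρ) (j : ℕ) :
    av μ π ρ (Sf μ π q (rk K κ x ρ j)) = 0 := by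
  have h1 : av μ π ρ (Sf μ π q (rk K κ x ρ j)) = av μ π (rk K κ x ρ j) (Sf μ π q ρ) := by
    rw [← av_rk hD hw (Gf_Sf hD hq hw.bk.integrable)
      (fun v γ k hk => Sf_rightK hw.bk v γ hk) j]
    congr 1
    funext v γ
    exact Sf_rk hD hw j v γ
  have h2 := av_Sf_anti (q := q) hD (hw.bk.integrable (μ := μ)) ((rk_bk hw j).integrable (μ := μ))
  linarith

theorem av_Sf_mk_zero (hD : Dm μ Γ π) (hq : Mo q) (hw : Wk K κ μ x ρ) (N : ℕ) :
    av μ π ρ (Sf μ π q (mk K κ x ρ N)) = 0 := by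
  have h1 : Sf μ π q (mk K κ x ρ N) =
      fun v γ => ∑ j ∈ Finset.range N, Sf μ π q (rk K κ x ρ j) v γ := by
    funext v γ
    exact Sf_sum hD (Finset.range N) (fun j _ => (rk_bk hw j).integrable) v γ
  rw [h1, av_sum_right hD hw.bk.integrable (Finset.range N)
    (fun j _ => Gf_Sf hD hq (rk_bk hw j).integrable)]
  exact Finset.sum_eq_zero fun j _ => av_Sf_rk_zero hD hq hw j

theorem Sf_mk_abs (hw : Wk K κ μ x ρ) (N : ℕ) (v : G) (γ : Γ) :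
    |Sf μ π q (mk K κ x ρ N) v γ| ≤ N := by
  refine (Sf_abs_le (mk_bk hw N).integrable v γ).trans (le_of_eq ?_)
  have h1 : ∀ h, |mk K κ x ρ N h| = mk K κ x ρ N h := fun h => abs_of_nonneg (mk_nonneg hw N h)
  simp_rw [h1]
  exact mk_integral hw N

end SPN
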