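import Pool.Agent.SPN.Enl
import Pool.Agent.SPN.Poi
import Pool.Agent.SPN.Tail
import Pool.Agent.SPN.Zer

/-! # Module ATwo: sublinear growth (A2) -/

open MeasureTheory Filter

namespace SPN

variable {G : Type*} [Group G] [TopologicalSpace G] [IsTopologicalGroup G] [T2Space G]
  [LocallyCompactSpace G] [SecondCountableTopology G] [MeasurableSpace G] [BorelSpace G]
  {μ : Measure G} [IsFiniteMeasureOnCompacts μ] [μ.IsMulLeftInvariant] [SigmaFinite μ]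
  [μ.IsMulRightInvariant] [μ.IsInvInvariant] {Γ : Subgroup G} {π : G → Γ} {X : Type*}
  [LinearOrder X] {q : Γ → X} {K : Subgroup G} {κ : Measure K} {xt : ℝ → G}

theorem a_two (hD : Dm μ Γ π) (hd : 0 < dm μ π) (hq : Mo q) (hx : Ax K xt) {ρ : G → ℝ}
    (hw : Wk K κ μ (xt 1) ρ) (hr : Rh K xt ρ) {F : ℕ → G → Γ → ℝ}
    (he : En μ π q K κ xt ρ F) :
    Tendsto (fun N : ℕ => av μ π ρ (fun v γ => Sf μ π q (mk K κ (xt 1) ρ N) v γ ^ 2)
      / (N : ℝ) ^ 2) atTop (nhds 0) := by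
  have hρ : Integrable ρ μ := hw.bk.integrable
  have hωi : Integrable (om μ π ρ) μ := om_integrable hD hρ
  have hω0 : ∀ v, 0 ≤ om μ π ρ v := fun v => om_nonneg hw.nonneg v
  have hω1 : ∀ v, om μ π ρ v ≤ 1 := by
    intro v
    have h := om_le (μ := μ) (π := π) hρ hw.nonneg v
    rw [hw.one] at h
    exact h
  have hωint : ∫ v, om μ π ρ v ∂μ = dm μ π := by
    rw [om_integral hD hρ, hw.one, mul_one]
  have hmk : ∀ N, Integrable (mk K κ (xt 1) ρ N) μ := fun N => (mk_bk hw N).integrable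
  have hgf : ∀ N, Gf (Sf μ π q (mk K κ (xt 1) ρ N)) := fun N => Gf_Sf hD hq (hmk N)
  have hgf2 : ∀ N, Gf (fun v γ => Sf μ π q (mk K κ (xt 1) ρ N) v γ ^ 2) := by
    intro N
    have h1 := (hgf N).mul (hgf N)
    have h2 : (fun v γ => Sf μ π q (mk K κ (xt 1) ρ N) v γ ^ 2) =
        (fun v γ => Sf μ π q (mk K κ (xt 1) ρ N) v γ * Sf μ π q (mk K κ (xt 1) ρ N) v γ) := by
      funext v γ
      exact pow_two _
    rw [h2]; exact h1
  have hav : ∀ N, av μ π ρ (fun v γ => Sf μ π q (mk K κ (xt 1) ρ N) v γ ^ 2) =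
      ∫ v, Sf μ π q (mk K κ (xt 1) ρ N) v 1 ^ 2 * om μ π ρ v ∂μ := by
    intro N
    exact av_unfold hD hρ (hgf2 N)
  have hzero : ∀ N, ∫ v, Sf μ π q (mk K κ (xt 1) ρ N) v 1 * om μ π ρ v ∂μ = 0 := by
    intro N
    rw [← av_unfold hD hρ (hgf N)]
    exact av_Sf_mk_zero hD hq hw N
  have hnn : ∀ N, 0 ≤ av μ π ρ (fun v γ => Sf μ π q (mk K κ (xt 1) ρ N) v γ ^ 2) := by
    intro N
    exact av_nonneg hw.nonneg (fun v γ => sq_nonneg _)
  rw [Metric.tendsto_atTop]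
  intro ε hε
  have hε2 : 0 < ε * dm μ π / 2 := by positivity
  obtain ⟨B, hB, hBt⟩ := tail hωi hω0 hω1 hε2
  obtain ⟨B', hB', C, hC0, hP⟩ := poincare (μ := μ) hw.cpt hx hB
  obtain ⟨C', N₀, hC'0, hE⟩ := en_local hD hd hx hw hr he hB'
  refine ⟨max N₀ (⌈2 * (C * C') / (ε * dm μ π)⌉₊ + 1), ?_⟩
  intro N hN
  have hN0 : N₀ ≤ N := (le_max_left _ _).trans hN
  have hN1 : ⌈2 * (C * C') / (ε * dm μ π)⌉₊ + 1 ≤ N := (le_max_right _ _).trans hN
  have hNpos : (0 : ℝ) < (N : ℝ) := by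
    have : 0 < N := by omega
    exact_mod_cast this
  have hNbig : 2 * (C * C') / (ε * dm μ π) < (N : ℝ) := by
    have h1 : 2 * (C * C') / (ε * dm μ π) ≤ (⌈2 * (C * C') / (ε * dm μ π)⌉₊ : ℝ) :=
      Nat.le_ceil _
    have h2 : ((⌈2 * (C * C') / (ε * dm μ π)⌉₊ : ℕ) : ℝ) + 1 ≤ (N : ℝ) := by exact_mod_cast hN1
    linarith
  have hNbig' : 2 * (C * C') < (N : ℝ) * (ε * dm μ π) := by
    rwa [div_lt_iff₀ (by positivity)] at hNbig
  have hBm : Bm (fun v => Sf μ π q (mk K κ (xt 1) ρ N) v 1) := by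
    refine ⟨(hgf N).meas 1, ?_⟩
    obtain ⟨D, hD'⟩ := (hgf N).bdd
    exact ⟨D, fun v => hD' v 1⟩
  have hFm : Bm (fun v => F N v 1) := by
    refine ⟨(he.gf N).meas 1, ?_⟩
    obtain ⟨D, hD'⟩ := (he.gf N).bdd
    exact ⟨D, fun v => hD' v 1⟩
  have h1 := hBt (fun v => Sf μ π q (mk K κ (xt 1) ρ N) v 1) hBm (N : ℝ)
    (fun v => Sf_mk_abs hw N v 1) (hzero N)
  have h2 := hP (fun v => Sf μ π q (mk K κ (xt 1) ρ N) v 1) (fun v => F N v 1) hBm hFm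
    (fun v => he.nonneg N v 1) (fun v k hk => Sf_rightK (mk_bk hw N) v 1 hk)
    (fun v s hs => he.incr N v 1 s hs)
  have h3 := hE N hN0
  rw [hωint] at h1
  have h4 : dm μ π * av μ π ρ (fun v γ => Sf μ π q (mk K κ (xt 1) ρ N) v γ ^ 2) ≤
      C * (C' * N) + ε * dm μ π / 2 * (N : ℝ) ^ 2 := by
    rw [hav N]
    refine h1.trans ?_
    have h5 : C * ∫ v in B', F N v 1 ∂μ ≤ C * (C' * N) := mul_le_mul_of_nonneg_left h3 hC0
    linarith
  rw [Real.dist_eq, sub_zero, abs_of_nonneg (div_nonneg (hnn N) (sq_nonneg _)),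
    div_lt_iff₀ (by positivity)]
  have h6 : C * (C' * N) < ε * dm μ π / 2 * (N : ℝ) ^ 2 := by
    have h7 : C * C' * (N : ℝ) < (N : ℝ) * (ε * dm μ π) / 2 * (N : ℝ) :=
      mul_lt_mul_of_pos_right (by linarith) hNpos
    nlinarith
  have h8 : dm μ π * av μ π ρ (fun v γ => Sf μ π q (mk K κ (xt 1) ρ N) v γ ^ 2) <
      dm μ π * (ε * (N : ℝ) ^ 2) := by
    have : dm μ π * (ε * (N : ℝ) ^ 2) =
      ε * dm μ π / 2 * (N : ℝ) ^ 2 + ε * dm μ π / 2 * (N : ℝ) ^ 2 := by ring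
    rw [this]
    linarith
  exact lt_of_mul_lt_mul_left h8 hd.le

end SPN
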