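import Pool.Agent.SPN.Upw

/-! # Module LowA (difficulty 3): the second moment of the walk and the forms `T1`

`av_SNv`: integrate `SNv_expand` (with `f = fun u => Sf ρ u γ`) against `ρ` (`av_sum_right`, `av_add_right`,
`av_cmul_right`; everything is `Gf`: `Gf_Sf`, `Gf.mul`, `Gf.pv_iter`). By `av_rk` (the functions `f²` and
`f P^[j+1] f` are right `K`-invariant: `Sf_rightK`, `Pv_rightK`)
`av ρ (P^[k] (f²)) = T1 (rk k) ρ ρ ≥ 0` and `av ρ (P^[k] (f P^[j+1] f)) = av (rk k) (f P^[j+1] f)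
= T1 (rk k) ρ (rk (j + 1))`, since `P^[j+1] f = Sf (rk (j+1))` (`Sf_rk`). -/

open MeasureTheory

namespace SPN

variable {G : Type*} [Group G] [TopologicalSpace G] [IsTopologicalGroup G] [T2Space G]
  [LocallyCompactSpace G] [SecondCountableTopology G] [MeasurableSpace G] [BorelSpace G]
  {μ : Measure G} [IsFiniteMeasureOnCompacts μ] [μ.IsMulLeftInvariant] [SigmaFinite μ]
  [μ.IsMulRightInvariant] {Γ : Subgroup G} {π : G → Γ} {X : Type*} [LinearOrder X] {q : Γ → X}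
  {K : Subgroup G} {κ : Measure K}

theorem av_SNv (hD : Dm μ Γ π) (hq : Mo q) {x : G} {ρ : G → ℝ} (hw : Wk K κ μ x ρ) (N : ℕ) :
    2 * ∑ k ∈ Finset.range N, ∑ j ∈ Finset.range (N - 1 - k),
        T1 μ π q (rk K κ x ρ k) ρ (rk K κ x ρ (j + 1))
      ≤ av μ π ρ (fun v γ => SNv K κ x (fun u => Sf μ π q ρ u γ) N v) := by
  have hρ : Integrable ρ μ := hw.bk.integrable
  have hκ : Kp K κ := hw.kp
  have hGf : Gf (Sf μ π q ρ) := Gf_Sf hD hq hρ
  have hBm : ∀ γ, Bm (fun u => Sf μ π q ρ u γ) := by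
    intro γ
    obtain ⟨C, hC⟩ := hGf.bdd
    exact ⟨hGf.meas γ, C, fun v => hC v γ⟩
  have hG2 : Gf (fun v γ => Sf μ π q ρ v γ ^ 2) := by
    have h1 := Gf.mul hGf hGf
    have h2 : (fun (v : G) (γ : Γ) => Sf μ π q ρ v γ ^ 2)
        = fun v γ => Sf μ π q ρ v γ * Sf μ π q ρ v γ := by
      funext v γ
      ring
    rw [h2]
    exact h1
  have hGj : ∀ j : ℕ, Gf (fun v γ => Sf μ π q ρ v γ
      * (Pv K κ x)^[j + 1] (fun u => Sf μ π q ρ u γ) v) :=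
    fun j => Gf.mul hGf (Gf.pv_iter hκ hGf (j + 1))
  have hT1 : ∀ k j : ℕ, av μ π ρ (fun v γ => (Pv K κ x)^[k]
      (fun u => Sf μ π q ρ u γ * (Pv K κ x)^[j + 1] (fun w => Sf μ π q ρ w γ) u) v)
      = T1 μ π q (rk K κ x ρ k) ρ (rk K κ x ρ (j + 1)) := by
    intro k j
    have hKinv : ∀ v γ, ∀ k' ∈ K,
        (fun (v : G) (γ : Γ) => Sf μ π q ρ v γ
          * (Pv K κ x)^[j + 1] (fun u => Sf μ π q ρ u γ) v) (v * k') γ
        = (fun (v : G) (γ : Γ) => Sf μ π q ρ v γ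
          * (Pv K κ x)^[j + 1] (fun u => Sf μ π q ρ u γ) v) v γ := by
      intro v γ k' hk'
      simp only
      rw [← Sf_rk hD hw (j + 1) (v * k') γ, ← Sf_rk hD hw (j + 1) v γ,
        Sf_rightK hw.bk v γ hk', Sf_rightK (rk_bk hw (j + 1)) v γ hk']
    have h1 := av_rk hD hw (hGj j) hKinv k
    rw [h1]
    unfold T1
    congr 1
    funext v γ
    rw [Sf_rk hD hw (j + 1) v γ]
  have hT0 : ∀ k : ℕ, 0 ≤ av μ π ρ (fun v γ => (Pv K κ x)^[k]
      (fun u => Sf μ π q ρ u γ ^ 2) v) := by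
    intro k
    have hKinv : ∀ v γ, ∀ k' ∈ K, (fun (v : G) (γ : Γ) => Sf μ π q ρ v γ ^ 2) (v * k') γ
        = (fun (v : G) (γ : Γ) => Sf μ π q ρ v γ ^ 2) v γ := by
      intro v γ k' hk'
      simp only
      rw [Sf_rightK hw.bk v γ hk']
    have h1 := av_rk hD hw hG2 hKinv k
    rw [h1]
    exact av_nonneg (rk_nonneg hw k) (fun v γ => sq_nonneg _)
  have hfun : (fun (v : G) (γ : Γ) => SNv K κ x (fun u => Sf μ π q ρ u γ) N v)
      = fun v γ => ∑ k ∈ Finset.range N, ((Pv K κ x)^[k] (fun u => Sf μ π q ρ u γ ^ 2) v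
        + 2 * ∑ j ∈ Finset.range (N - 1 - k), (Pv K κ x)^[k]
          (fun u => Sf μ π q ρ u γ * (Pv K κ x)^[j + 1] (fun w => Sf μ π q ρ w γ) u) v) := by
    funext v γ
    exact SNv_expand hκ (hBm γ) N v
  have hA : ∀ k : ℕ, Gf (fun (v : G) (γ : Γ) => (Pv K κ x)^[k]
      (fun u => Sf μ π q ρ u γ ^ 2) v) := fun k => Gf.pv_iter hκ hG2 k
  have hB : ∀ k j : ℕ, Gf (fun (v : G) (γ : Γ) => (Pv K κ x)^[k]
      (fun u => Sf μ π q ρ u γ * (Pv K κ x)^[j + 1] (fun w => Sf μ π q ρ w γ) u) v) :=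
    fun k j => Gf.pv_iter hκ (hGj j) k
  have hC : ∀ k : ℕ, Gf (fun (v : G) (γ : Γ) => ∑ j ∈ Finset.range (N - 1 - k),
      (Pv K κ x)^[k] (fun u => Sf μ π q ρ u γ
        * (Pv K κ x)^[j + 1] (fun w => Sf μ π q ρ w γ) u) v) :=
    fun k => Gf.sum (fun j _ => hB k j)
  rw [hfun, av_sum_right hD hρ (Finset.range N)
    (g := fun k v γ => (Pv K κ x)^[k] (fun u => Sf μ π q ρ u γ ^ 2) v
        + 2 * ∑ j ∈ Finset.range (N - 1 - k), (Pv K κ x)^[k]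
          (fun u => Sf μ π q ρ u γ * (Pv K κ x)^[j + 1] (fun w => Sf μ π q ρ w γ) u) v)
    (fun k _ => Gf.add (hA k) (Gf.cmul 2 (hC k)))]
  rw [Finset.mul_sum]
  apply Finset.sum_le_sum
  intro k _
  rw [av_add_right hD hρ (hA k) (Gf.cmul 2 (hC k)), av_cmul_right,
    av_sum_right hD hρ (Finset.range (N - 1 - k))
      (g := fun j v γ => (Pv K κ x)^[k]
        (fun u => Sf μ π q ρ u γ * (Pv K κ x)^[j + 1] (fun w => Sf μ π q ρ w γ) u) v)
      (fun j _ => hB k j)]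
  have h3 : ∑ j ∈ Finset.range (N - 1 - k), av μ π ρ (fun v γ => (Pv K κ x)^[k]
        (fun u => Sf μ π q ρ u γ * (Pv K κ x)^[j + 1] (fun w => Sf μ π q ρ w γ) u) v)
      = ∑ j ∈ Finset.range (N - 1 - k), T1 μ π q (rk K κ x ρ k) ρ (rk K κ x ρ (j + 1)) :=
    Finset.sum_congr rfl (fun j _ => hT1 k j)
  rw [h3]
  have := hT0 k
  linarith

end SPN
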