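import Pool.Agent.SPN.Lin

/-! # Module Bnd (difficulty 3): trilinearity, bounds and positivity of `TT` and `T1`

Everything follows from module Lin (`Sf_add`, `Sf_cmul`, `av_add_left`, ..., `Gf_Sf`, `Gf_Nf`, `Gf.mul`), from
`|S_b| ≤ ‖b‖₁`, `|N_b| ≤ ‖b‖₁` and `av_abs_le`, `av_nonneg`, `av_mono_left`.
`TT_diag_le`: `TT m b b ≤ dm * ‖m‖ * ‖b‖² * (1 + 1/3)`.
`T1_sub_le`: `(S_b - S_c)² ≤ 2 S_b² + 2 S_c²` pointwise. -/

open MeasureTheory

namespace SPN

variable {G : Type*} [Group G] [MeasurableSpace G] [MeasurableMul₂ G] {μ : Measure G}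
  [SigmaFinite μ] {Γ : Subgroup G} {π : G → Γ} {X : Type*} [LinearOrder X] {q : Γ → X}

theorem TT_symm (a b c : G → ℝ) : TT μ π q a b c = TT μ π q a c b := by
  have h1 : (fun (v : G) (γ : Γ) => Sf μ π q b v γ * Sf μ π q c v γ) =
      fun v γ => Sf μ π q c v γ * Sf μ π q b v γ := by
    funext v γ
    ring
  have h2 : (fun (v : G) (γ : Γ) => Nf μ π q b v γ * Nf μ π q c v γ) =
      fun v γ => Nf μ π q c v γ * Nf μ π q b v γ := by
    funext v γ
    ring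
  unfold TT T1 N1
  rw [h1, h2]

theorem TT_add1 (hD : Dm μ Γ π) (hq : Mo q) {a a' b c : G → ℝ} (ha : Integrable a μ)
    (ha' : Integrable a' μ) (hb : Integrable b μ) (hc : Integrable c μ) :
    TT μ π q (fun h => a h + a' h) b c = TT μ π q a b c + TT μ π q a' b c := by
  unfold TT T1 N1
  rw [av_add_left hD ha ha' ((Gf_Sf hD hq hb).mul (Gf_Sf hD hq hc)),
    av_add_left hD ha ha' ((Gf_Nf hD hq hb).mul (Gf_Nf hD hq hc))]
  ring

theorem TT_add2 (hD : Dm μ Γ π) (hq : Mo q) {a b b' c : G → ℝ} (ha : Integrable a μ)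
    (hb : Integrable b μ) (hb' : Integrable b' μ) (hc : Integrable c μ) :
    TT μ π q a (fun h => b h + b' h) c = TT μ π q a b c + TT μ π q a b' c := by
  have h1 : (fun (v : G) (γ : Γ) => Sf μ π q (fun h => b h + b' h) v γ * Sf μ π q c v γ) =
      fun v γ => Sf μ π q b v γ * Sf μ π q c v γ + Sf μ π q b' v γ * Sf μ π q c v γ := by
    funext v γ
    rw [Sf_add hD hb hb']
    ring
  have h2 : (fun (v : G) (γ : Γ) => Nf μ π q (fun h => b h + b' h) v γ * Nf μ π q c v γ) =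
      fun v γ => Nf μ π q b v γ * Nf μ π q c v γ + Nf μ π q b' v γ * Nf μ π q c v γ := by
    funext v γ
    rw [Nf_add hD hb hb']
    ring
  unfold TT T1 N1
  rw [h1, h2, av_add_right hD ha ((Gf_Sf hD hq hb).mul (Gf_Sf hD hq hc))
      ((Gf_Sf hD hq hb').mul (Gf_Sf hD hq hc)),
    av_add_right hD ha ((Gf_Nf hD hq hb).mul (Gf_Nf hD hq hc))
      ((Gf_Nf hD hq hb').mul (Gf_Nf hD hq hc))]
  ring

theorem TT_add3 (hD : Dm μ Γ π) (hq : Mo q) {a b c c' : G → ℝ} (ha : Integrable a μ)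
    (hb : Integrable b μ) (hc : Integrable c μ) (hc' : Integrable c' μ) :
    TT μ π q a b (fun h => c h + c' h) = TT μ π q a b c + TT μ π q a b c' := by
  rw [TT_symm, TT_add2 hD hq ha hc hc' hb, TT_symm a c b, TT_symm a c' b]

theorem TT_cmul1 (r : ℝ) (a b c : G → ℝ) :
    TT μ π q (fun h => r * a h) b c = r * TT μ π q a b c := by
  unfold TT T1 N1
  rw [av_cmul_left, av_cmul_left]
  ring

theorem TT_cmul2 (r : ℝ) (a b c : G → ℝ) :
    TT μ π q a (fun h => r * b h) c = r * TT μ π q a b c := by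
  have h1 : (fun (v : G) (γ : Γ) => Sf μ π q (fun h => r * b h) v γ * Sf μ π q c v γ) =
      fun v γ => r * (Sf μ π q b v γ * Sf μ π q c v γ) := by
    funext v γ
    rw [Sf_cmul]
    ring
  have h2 : (fun (v : G) (γ : Γ) => Nf μ π q (fun h => r * b h) v γ * Nf μ π q c v γ) =
      fun v γ => r * (Nf μ π q b v γ * Nf μ π q c v γ) := by
    funext v γ
    rw [Nf_cmul]
    ring
  unfold TT T1 N1
  rw [h1, h2, av_cmul_right, av_cmul_right]
  ring

theorem TT_cmul3 (r : ℝ) (a b c : G → ℝ) :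
    TT μ π q a b (fun h => r * c h) = r * TT μ π q a b c := by
  rw [TT_symm, TT_cmul2, TT_symm a c b]

theorem TT_sum2 (hD : Dm μ Γ π) (hq : Mo q) {ι : Type*} (s : Finset ι) {a c : G → ℝ}
    {b : ι → G → ℝ} (ha : Integrable a μ) (hb : ∀ i ∈ s, Integrable (b i) μ)
    (hc : Integrable c μ) :
    TT μ π q a (fun h => ∑ i ∈ s, b i h) c = ∑ i ∈ s, TT μ π q a (b i) c := by
  classical
  revert hb
  refine Finset.induction_on s ?_ ?_
  · intro _
    have h0 : (fun h : G => ∑ i ∈ (∅ : Finset ι), b i h) = fun h => (0 : ℝ) * (0 : ℝ) := by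
      funext h
      simp
    rw [h0, TT_cmul2 (0 : ℝ) a (fun _ => (0 : ℝ)) c, zero_mul, Finset.sum_empty]
  · intro i s hi ih hb
    have h1 : (fun h : G => ∑ j ∈ insert i s, b j h) = fun h => b i h + ∑ j ∈ s, b j h := by
      funext h
      rw [Finset.sum_insert hi]
    have hs : Integrable (fun h : G => ∑ j ∈ s, b j h) μ :=
      integrable_finsetSum s (fun j hj => hb j (Finset.mem_insert_of_mem hj))
    rw [h1, TT_add2 hD hq ha (hb i (Finset.mem_insert_self i s)) hs hc,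
      ih (fun j hj => hb j (Finset.mem_insert_of_mem hj)), Finset.sum_insert hi]

theorem TT_sum3 (hD : Dm μ Γ π) (hq : Mo q) {ι : Type*} (s : Finset ι) {a b : G → ℝ}
    {c : ι → G → ℝ} (ha : Integrable a μ) (hb : Integrable b μ)
    (hc : ∀ i ∈ s, Integrable (c i) μ) :
    TT μ π q a b (fun h => ∑ i ∈ s, c i h) = ∑ i ∈ s, TT μ π q a b (c i) := by
  rw [TT_symm, TT_sum2 hD hq s ha hc hb]
  exact Finset.sum_congr rfl (fun i _ => TT_symm a (c i) b)

theorem TT_abs_le (hD : Dm μ Γ π) (hq : Mo q) {a b c : G → ℝ} (ha : Integrable a μ)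
    (hb : Integrable b μ) (hc : Integrable c μ) :
    |TT μ π q a b c| ≤ 4 / 3 * dm μ π * (∫ h, |a h| ∂μ) * (∫ h, |b h| ∂μ) * ∫ h, |c h| ∂μ := by
  have hA : 0 ≤ ∫ h, |a h| ∂μ := integral_nonneg (fun h => abs_nonneg _)
  have h1 : |T1 μ π q a b c| ≤ dm μ π * (∫ h, |a h| ∂μ) * ((∫ h, |b h| ∂μ) * ∫ h, |c h| ∂μ) := by
    refine av_abs_le hD ha ((Gf_Sf hD hq hb).mul (Gf_Sf hD hq hc)) ?_
    intro v γ
    rw [abs_mul]
    exact mul_le_mul (Sf_abs_le hb v γ) (Sf_abs_le hc v γ) (abs_nonneg _)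
      (integral_nonneg (fun h => abs_nonneg _))
  have h2 : |N1 μ π q a b c| ≤ dm μ π * (∫ h, |a h| ∂μ) * ((∫ h, |b h| ∂μ) * ∫ h, |c h| ∂μ) := by
    refine av_abs_le hD ha ((Gf_Nf hD hq hb).mul (Gf_Nf hD hq hc)) ?_
    intro v γ
    rw [abs_mul]
    exact mul_le_mul (Nf_abs_le hb v γ) (Nf_abs_le hc v γ) (abs_nonneg _)
      (integral_nonneg (fun h => abs_nonneg _))
  unfold TT
  have h3 := abs_add_le (T1 μ π q a b c) (N1 μ π q a b c / 3)
  rw [abs_div, abs_of_pos (by norm_num : (0 : ℝ) < 3)] at h3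
  linarith

theorem TT_nonneg {m : G → ℝ} (h0 : ∀ h, 0 ≤ m h) (b : G → ℝ) : 0 ≤ TT μ π q m b b := by
  have h1 : 0 ≤ T1 μ π q m b b := av_nonneg h0 (fun v γ => mul_self_nonneg _)
  have h2 : 0 ≤ N1 μ π q m b b := av_nonneg h0 (fun v γ => mul_self_nonneg _)
  unfold TT
  linarith

theorem T1_nonneg {m : G → ℝ} (h0 : ∀ h, 0 ≤ m h) (b : G → ℝ) : 0 ≤ T1 μ π q m b b := by
  exact av_nonneg h0 (fun v γ => mul_self_nonneg _)

theorem T1_le_TT {m : G → ℝ} (h0 : ∀ h, 0 ≤ m h) (b : G → ℝ) :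
    T1 μ π q m b b ≤ TT μ π q m b b := by
  have h2 : 0 ≤ N1 μ π q m b b := av_nonneg h0 (fun v γ => mul_self_nonneg _)
  unfold TT
  linarith

theorem T1_mono (hD : Dm μ Γ π) (hq : Mo q) {a a' b : G → ℝ} (ha : Integrable a μ)
    (ha' : Integrable a' μ) (hb : Integrable b μ) (h : ∀ x, a x ≤ a' x) :
    T1 μ π q a b b ≤ T1 μ π q a' b b := by
  exact av_mono_left hD ha ha' h ((Gf_Sf hD hq hb).mul (Gf_Sf hD hq hb))
    (fun v γ => mul_self_nonneg _)

theorem T1_sub_le (hD : Dm μ Γ π) (hq : Mo q) {m b c : G → ℝ} (hm : Integrable m μ)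
    (h0 : ∀ h, 0 ≤ m h) (hb : Integrable b μ) (hc : Integrable c μ) :
    T1 μ π q m (fun h => b h - c h) (fun h => b h - c h)
      ≤ 2 * T1 μ π q m b b + 2 * T1 μ π q m c c := by
  have hS : ∀ v γ, Sf μ π q (fun h => b h - c h) v γ = Sf μ π q b v γ - Sf μ π q c v γ := by
    intro v γ
    have h1 : (fun h => b h - c h) = fun h => b h + (-1) * c h := by
      funext h
      ring
    rw [h1, Sf_add hD hb (hc.const_mul (-1)), Sf_cmul]
    ring
  have hd : Integrable (fun h => b h - c h) μ := hb.sub hc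
  have gb := (Gf_Sf hD hq hb).mul (Gf_Sf hD hq hb)
  have gc := (Gf_Sf hD hq hc).mul (Gf_Sf hD hq hc)
  have gd := (Gf_Sf hD hq hd).mul (Gf_Sf hD hq hd)
  have h2 := av_mono_right hD hm h0 gd ((gb.cmul 2).add (gc.cmul 2)) (by
    intro v γ
    rw [hS]
    nlinarith [sq_nonneg (Sf μ π q b v γ + Sf μ π q c v γ)])
  rw [av_add_right hD hm (gb.cmul 2) (gc.cmul 2), av_cmul_right, av_cmul_right] at h2
  exact h2

end SPN
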