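import Pool.Agent.SPN.Ab

/-! # Module Pkb (difficulty 3): the operator `Pk` on kernels

`Bk.integrable`: continuous with compact support.
`Bk.pk`: `Pk K κ x b h = ∫_K b(x⁻¹ k⁻¹ h) dk`. Continuity in `h`: `K` is compact and `(h, k) ↦ b(x⁻¹ k⁻¹ h)` is
continuous: `continuous_parametric_integral_of_continuous` (`∫ k in univ`, `isCompact_univ`; `K` is a
compact space by `hK : IsCompact (K : Set G)`, `isCompact_iff_compactSpace`). Support: contained in the
compact set `K * x * tsupport b`. Left invariance: for `k₀ ∈ K`: `b(x⁻¹ k⁻¹ k₀ h) = b(x⁻¹ (k₀⁻¹ k)⁻¹ h)` and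
`κ` is left invariant (`integral_mul_left_eq_self`).
`Pk_integral`: Fubini (the function `(k, h) ↦ b(x⁻¹ k⁻¹ h)` is continuous, integrable on `κ.prod μ`: for each
`k` the integral of the absolute value is `∫ |b|`) and left invariance of `μ`, `κ` has mass 1.
`Pk_mono`, `Pk_add`, ...: the functions `k ↦ b(x⁻¹ k⁻¹ h)` are continuous on the compact group `K`, so
integrable.
`rk_*`, `mk_*`: induction (`Function.iterate_succ_apply'`). -/

open MeasureTheory

namespace SPN

variable {G : Type*} [Group G] [TopologicalSpace G] [IsTopologicalGroup G] [T2Space G]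
  [LocallyCompactSpace G] [SecondCountableTopology G] [MeasurableSpace G] [BorelSpace G]
  {μ : Measure G} [IsFiniteMeasureOnCompacts μ] [μ.IsMulLeftInvariant] [SigmaFinite μ]
  {K : Subgroup G} {κ : Measure K}

theorem Bk.integrable {b : G → ℝ} (hb : Bk K b) : Integrable b μ := by
  exact hb.cont.integrable_of_hasCompactSupport hb.supp

theorem Bk.pk (hκ : Kp K κ) (hK : IsCompact (K : Set G)) {b : G → ℝ} (hb : Bk K b) (x : G) :
    Bk K (Pk K κ x b) := by
  have := hκ.prob
  have := hκ.left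
  have : CompactSpace K := isCompact_iff_compactSpace.1 hK
  refine ⟨?_, ?_, ?_⟩
  · have h1 : Continuous (fun h : G => ∫ k : K in Set.univ, b (x⁻¹ * (k : G)⁻¹ * h) ∂κ) := by
      refine continuous_parametric_integral_of_continuous ?_ isCompact_univ
      refine hb.cont.comp ?_
      fun_prop
    have h2 : Pk K κ x b = fun h : G => ∫ k : K in Set.univ, b (x⁻¹ * (k : G)⁻¹ * h) ∂κ := by
      funext h
      rw [Measure.restrict_univ]
      rfl
    rw [h2]
    exact h1
  · have hc : IsCompact ((fun p : G × G => p.1 * x * p.2) '' ((K : Set G) ×ˢ tsupport b)) := by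
      refine (hK.prod hb.supp).image ?_
      fun_prop
    refine HasCompactSupport.intro hc ?_
    intro h hh
    unfold Pk
    have h0 : ∀ k : K, b (x⁻¹ * (k : G)⁻¹ * h) = 0 := by
      intro k
      by_contra hne
      apply hh
      refine ⟨((k : G), x⁻¹ * (k : G)⁻¹ * h), ⟨k.2, subset_tsupport b hne⟩, ?_⟩
      show (k : G) * x * (x⁻¹ * (k : G)⁻¹ * h) = h
      group
    simp [h0]
  · intro k₀ hk₀ h
    unfold Pk
    have h1 : (fun k : K => b (x⁻¹ * (k : G)⁻¹ * (k₀ * h))) =
        fun k : K => (fun k' : K => b (x⁻¹ * (k' : G)⁻¹ * h)) ((⟨k₀, hk₀⟩ : K)⁻¹ * k) := by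
      funext k
      show b (x⁻¹ * (k : G)⁻¹ * (k₀ * h)) = b (x⁻¹ * ((k₀)⁻¹ * (k : G))⁻¹ * h)
      congr 1
      group
    rw [h1]
    exact integral_mul_left_eq_self (fun k' : K => b (x⁻¹ * (k' : G)⁻¹ * h)) _

theorem Bk.add {b c : G → ℝ} (hb : Bk K b) (hc : Bk K c) : Bk K (fun h => b h + c h) := by
  exact ⟨hb.cont.add hc.cont, hb.supp.add hc.supp, fun k hk h => by
    simp only [hb.left k hk h, hc.left k hk h]⟩

theorem Bk.sub {b c : G → ℝ} (hb : Bk K b) (hc : Bk K c) : Bk K (fun h => b h - c h) := by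
  have hc' : Bk K (fun h => (-1 : ℝ) * c h) :=
    ⟨continuous_const.mul hc.cont, hc.supp.mul_left, fun k hk h => by
      simp only [hc.left k hk h]⟩
  have h1 : (fun h => b h - c h) = fun h => b h + (-1 : ℝ) * c h := by
    funext h
    ring
  rw [h1]
  exact hb.add hc'

theorem Bk.cmul {b : G → ℝ} (hb : Bk K b) (r : ℝ) : Bk K (fun h => r * b h) := by
  exact ⟨continuous_const.mul hb.cont, hb.supp.mul_left, fun k hk h => by
    simp only [hb.left k hk h]⟩

theorem Bk.sum {ι : Type*} (s : Finset ι) {b : ι → G → ℝ} (hb : ∀ i ∈ s, Bk K (b i)) :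
    Bk K (fun h => ∑ i ∈ s, b i h) := by
  classical
  revert hb
  refine Finset.induction_on s ?_ ?_
  · intro _
    refine ⟨?_, ?_, ?_⟩
    · simp only [Finset.sum_empty]
      exact continuous_const
    · simp only [Finset.sum_empty]
      exact HasCompactSupport.zero
    · intro k _ h
      simp
  · intro i s hi ih hb
    have h1 : (fun h : G => ∑ j ∈ insert i s, b j h) = fun h => b i h + ∑ j ∈ s, b j h := by
      funext h
      rw [Finset.sum_insert hi]
    rw [h1]
    exact (hb i (Finset.mem_insert_self i s)).add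
      (ih (fun j hj => hb j (Finset.mem_insert_of_mem hj)))

theorem Pk_nonneg {b : G → ℝ} (hb : ∀ h, 0 ≤ b h) (x h : G) : 0 ≤ Pk K κ x b h := by
  exact integral_nonneg (fun k => hb _)

theorem Pk_integral (hκ : Kp K κ) (hK : IsCompact (K : Set G)) {b : G → ℝ} (hb : Bk K b)
    (x : G) : ∫ h, Pk K κ x b h ∂μ = ∫ h, b h ∂μ := by
  have := hκ.prob
  have : CompactSpace K := isCompact_iff_compactSpace.1 hK
  have hbi : Integrable b μ := hb.integrable
  have hswap : ∫ h, Pk K κ x b h ∂μ = ∫ k : K, ∫ h, b (x⁻¹ * (k : G)⁻¹ * h) ∂μ ∂κ := by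
    unfold Pk
    refine integral_integral_swap ?_
    have hcont : Continuous (fun p : G × K => b (x⁻¹ * (p.2 : G)⁻¹ * p.1)) := by
      refine hb.cont.comp ?_
      fun_prop
    have hsupp : HasCompactSupport (fun p : G × K => b (x⁻¹ * (p.2 : G)⁻¹ * p.1)) := by
      have hc : IsCompact (((fun p : G × G => p.1 * x * p.2) '' ((K : Set G) ×ˢ tsupport b)) ×ˢ
          (Set.univ : Set K)) := by
        refine IsCompact.prod ((hK.prod hb.supp).image ?_) isCompact_univ
        fun_prop
      refine HasCompactSupport.intro hc ?_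
      rintro ⟨h, k⟩ hh
      by_contra hne
      apply hh
      refine ⟨⟨((k : G), x⁻¹ * (k : G)⁻¹ * h), ⟨k.2, subset_tsupport b hne⟩, ?_⟩, Set.mem_univ _⟩
      show (k : G) * x * (x⁻¹ * (k : G)⁻¹ * h) = h
      group
    exact hcont.integrable_of_hasCompactSupport hsupp
  rw [hswap]
  have h1 : ∀ k : K, ∫ h, b (x⁻¹ * (k : G)⁻¹ * h) ∂μ = ∫ h, b h ∂μ := by
    intro k
    exact integral_mul_left_eq_self b (x⁻¹ * (k : G)⁻¹)
  simp only [h1, integral_const, smul_eq_mul, probReal_univ, one_mul]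

private theorem Pkb_int [IsProbabilityMeasure κ] [CompactSpace K] {b : G → ℝ} (hb : Continuous b)
    (x y : G) : Integrable (fun k : K => b (x⁻¹ * (k : G)⁻¹ * y)) κ := by
  have hcont : Continuous (fun k : K => b (x⁻¹ * (k : G)⁻¹ * y)) := by
    refine hb.comp ?_
    fun_prop
  exact hcont.integrable_of_hasCompactSupport (HasCompactSupport.of_compactSpace _)

theorem Pk_mono (hκ : Kp K κ) (hK : IsCompact (K : Set G)) {b c : G → ℝ} (hb : Continuous b)
    (hc : Continuous c) (h : ∀ y, b y ≤ c y) (x y : G) : Pk K κ x b y ≤ Pk K κ x c y := by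
  have := hκ.prob
  have : CompactSpace K := isCompact_iff_compactSpace.1 hK
  exact integral_mono (Pkb_int hb x y) (Pkb_int hc x y) (fun k => h _)

theorem Pk_add (hκ : Kp K κ) (hK : IsCompact (K : Set G)) {b c : G → ℝ} (hb : Continuous b)
    (hc : Continuous c) (x y : G) :
    Pk K κ x (fun h => b h + c h) y = Pk K κ x b y + Pk K κ x c y := by
  have := hκ.prob
  have : CompactSpace K := isCompact_iff_compactSpace.1 hK
  exact integral_add (Pkb_int hb x y) (Pkb_int hc x y)

theorem Pk_cmul (r : ℝ) (b : G → ℝ) (x y : G) :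
    Pk K κ x (fun h => r * b h) y = r * Pk K κ x b y := by
  exact integral_const_mul r _

theorem Pk_sum (hκ : Kp K κ) (hK : IsCompact (K : Set G)) {ι : Type*} (s : Finset ι)
    {b : ι → G → ℝ} (hb : ∀ i ∈ s, Continuous (b i)) (x y : G) :
    Pk K κ x (fun h => ∑ i ∈ s, b i h) y = ∑ i ∈ s, Pk K κ x (b i) y := by
  have := hκ.prob
  have : CompactSpace K := isCompact_iff_compactSpace.1 hK
  exact integral_finsetSum s (fun i hi => Pkb_int (hb i hi) x y)

section wk

variable {x : G} {ρ : G → ℝ}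

theorem rk_zero : rk K κ x ρ 0 = ρ := rfl

theorem rk_succ (j : ℕ) : rk K κ x ρ (j + 1) = Pk K κ x (rk K κ x ρ j) := by
  unfold rk
  exact Function.iterate_succ_apply' _ _ _

theorem rk_add (i j : ℕ) : rk K κ x ρ (i + j) = (Pk K κ x)^[i] (rk K κ x ρ j) := by
  unfold rk
  exact Function.iterate_add_apply _ _ _ _

theorem rk_bk (hw : Wk K κ μ x ρ) (j : ℕ) : Bk K (rk K κ x ρ j) := by
  induction j with
  | zero => exact hw.bk
  | succ j ih =>
    rw [rk_succ]
    exact ih.pk hw.kp hw.cpt x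

theorem rk_nonneg (hw : Wk K κ μ x ρ) (j : ℕ) (h : G) : 0 ≤ rk K κ x ρ j h := by
  induction j generalizing h with
  | zero => exact hw.nonneg h
  | succ j ih =>
    rw [rk_succ]
    exact Pk_nonneg ih x h

theorem rk_integral (hw : Wk K κ μ x ρ) (j : ℕ) : ∫ h, rk K κ x ρ j h ∂μ = 1 := by
  induction j with
  | zero => exact hw.one
  | succ j ih =>
    rw [rk_succ, Pk_integral hw.kp hw.cpt (rk_bk hw j) x]
    exact ih

theorem mk_bk (hw : Wk K κ μ x ρ) (n : ℕ) : Bk K (mk K κ x ρ n) := by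
  exact Bk.sum (Finset.range n) (fun j _ => rk_bk hw j)

theorem mk_nonneg (hw : Wk K κ μ x ρ) (n : ℕ) (h : G) : 0 ≤ mk K κ x ρ n h := by
  exact Finset.sum_nonneg (fun j _ => rk_nonneg hw j h)

theorem mk_integral (hw : Wk K κ μ x ρ) (n : ℕ) : ∫ h, mk K κ x ρ n h ∂μ = n := by
  unfold mk
  rw [integral_finsetSum (Finset.range n) (fun j _ => (rk_bk hw j).integrable)]
  simp [rk_integral hw]

theorem mk_succ (n : ℕ) (h : G) :
    mk K κ x ρ (n + 1) h = mk K κ x ρ n h + rk K κ x ρ n h := by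
  unfold mk
  exact Finset.sum_range_succ _ _

end wk

end SPN
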