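import Pool.Agent.SPN.Cyc
import Pool.Agent.SPN.Ant
import Pool.Agent.SPN.Bnd
import Pool.Agent.SPN.Pkb

/-! # Module LowB (difficulty 3): the forms `T1 (rk k) ρ (rk j)`

`T1_pair`: `T1_cyc` for `a = ρ`, `b = rk j`, `c = rk k` (all have integral 1) and `T1` is symmetric in the last
two arguments (`mul_comm`): the sum is `dm - N1 ρ (rk j) (rk k) - T1 ρ (rk j) (rk k)`; and
`N1 ρ (rk j) (rk k) ≤ av ρ (Nf (rk j))` since `0 ≤ Nf (rk j)` and `Nf (rk k) ≤ 1` (`Nf_nonneg`, `Nf_le`,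
`av_mono_right`).
`nb_le`: pointwise for fixed `v` and `y`:
`2 Nf ρ v (π (v y)) = ∫∫ ρ(h₀) ρ(h₁) (e(h₀, y) + e(h₁, y)) ≤ ∫∫ ρ(h₀) ρ(h₁) (1 + e(h₀, h₁))
= 1 + ∫ ρ(h₀) Nf ρ v (π (v h₀))`, `e(h, h') = eqi (q (π (v h))) (q (π (v h')))`, because
`eqi s u + eqi t u ≤ 1 + eqi s t`. Integrate against `ρ_j(y)` and over `D0 π`:
`2 av (rk j) (Nf ρ) ≤ dm + av ρ (Nf ρ)` and `av (rk j) (Nf ρ) = av ρ (Nf (rk j))` (`av_Nf_symm`); `rk 0 = ρ`. -/

open MeasureTheory

namespace SPN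

variable {G : Type*} [Group G] [TopologicalSpace G] [IsTopologicalGroup G] [T2Space G]
  [LocallyCompactSpace G] [SecondCountableTopology G] [MeasurableSpace G] [BorelSpace G]
  {μ : Measure G} [IsFiniteMeasureOnCompacts μ] [μ.IsMulLeftInvariant] [SigmaFinite μ]
  {Γ : Subgroup G} {π : G → Γ} {X : Type*} [LinearOrder X] {q : Γ → X}
  {K : Subgroup G} {κ : Measure K}

private theorem LowB_int {x : G} {ρ : G → ℝ} (hw : Wk K κ μ x ρ) (j : ℕ) :
    Integrable (rk K κ x ρ j) μ := (rk_bk hw j).integrable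

private theorem LowB_int0 {x : G} {ρ : G → ℝ} (hw : Wk K κ μ x ρ) : Integrable ρ μ :=
  hw.bk.integrable

private theorem LowB_abs {x : G} {ρ : G → ℝ} (hw : Wk K κ μ x ρ) (j : ℕ) :
    ∫ h, |rk K κ x ρ j h| ∂μ = 1 := by
  have h1 : (fun h => |rk K κ x ρ j h|) = fun h => rk K κ x ρ j h := by
    funext h
    exact abs_of_nonneg (rk_nonneg hw j h)
  rw [h1]
  exact rk_integral hw j

theorem T1_pair (hD : Dm μ Γ π) (hq : Mo q) {x : G} {ρ : G → ℝ} (hw : Wk K κ μ x ρ) (k j : ℕ) :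
    nb μ π q K κ x ρ j - T1 μ π q ρ (rk K κ x ρ j) (rk K κ x ρ k)
      ≤ T1 μ π q (rk K κ x ρ k) ρ (rk K κ x ρ j)
        + T1 μ π q (rk K κ x ρ j) ρ (rk K κ x ρ k) := by
  have hc := T1_cyc (q := q) hD hq (LowB_int0 hw) (LowB_int hw j) (LowB_int hw k)
  rw [hw.one, rk_integral hw j, rk_integral hw k] at hc
  have hN : N1 μ π q ρ (rk K κ x ρ j) (rk K κ x ρ k) ≤ av μ π ρ (Nf μ π q (rk K κ x ρ j)) := by
    unfold N1
    apply av_mono_right hD (LowB_int0 hw) hw.nonneg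
      ((Gf_Nf hD hq (LowB_int hw j)).mul (Gf_Nf hD hq (LowB_int hw k)))
      (Gf_Nf hD hq (LowB_int hw j))
    intro v γ
    have h1 := Nf_nonneg (μ := μ) (π := π) (q := q) (rk_nonneg hw j) v γ
    have h2 := Nf_le (q := q) hD (LowB_int hw k) (rk_nonneg hw k) v γ
    rw [rk_integral hw k] at h2
    nlinarith
  unfold nb
  linarith

theorem nb_nonneg (hD : Dm μ Γ π) {x : G} {ρ : G → ℝ} (hq : Mo q) (hw : Wk K κ μ x ρ)
    (j : ℕ) : 0 ≤ nb μ π q K κ x ρ j := by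
  unfold nb
  have h1 : av μ π ρ (Nf μ π q (rk K κ x ρ j)) ≤ av μ π ρ (fun _ _ => 1) := by
    apply av_mono_right hD (LowB_int0 hw) hw.nonneg (Gf_Nf hD hq (LowB_int hw j)) (Gf_const 1)
    intro v γ
    have h2 := Nf_le (q := q) hD (LowB_int hw j) (rk_nonneg hw j) v γ
    rwa [rk_integral hw j] at h2
  rw [av_const hD (LowB_int0 hw), hw.one] at h1
  linarith

private theorem LowB_tri (s t u : X) : eqi u s + eqi u t ≤ 1 + eqi s t := by
  unfold eqi
  by_cases h1 : u = s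
  · by_cases h2 : u = t
    · subst h1; subst h2; simp
    · subst h1; simp
  · simp only [h1, if_false]
    split_ifs <;> norm_num

private theorem LowB_pt (hD : Dm μ Γ π) (hq : Mo q) {x : G} {ρ : G → ℝ} (hw : Wk K κ μ x ρ)
    (v : G) (γ : Γ) :
    2 * Nf μ π q ρ v γ ≤ 1 + ∫ h, ρ h * Nf μ π q ρ v (π (v * h)) ∂μ := by
  have hρ := LowB_int0 hw
  have hme : ∀ γ' : Γ, Measurable (fun p : G × G => eqi (q γ') (q (π (p.1 * p.2)))) := by
    intro γ'
    exact meas_pair (g := fun _ γ'' => eqi (q γ') (q γ'')) hD (fun γ'' => measurable_const)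
  have hie : ∀ γ' : Γ, Integrable (fun h => ρ h * eqi (q γ') (q (π (v * h)))) μ := by
    intro γ'
    have hm : Measurable (fun h : G => eqi (q γ') (q (π (v * h)))) :=
      (hme γ').comp (measurable_const.prodMk measurable_id)
    apply Integrable.mono' hρ.norm (hρ.aestronglyMeasurable.mul hm.aestronglyMeasurable)
    apply Filter.Eventually.of_forall
    intro h
    rw [Pi.mul_apply, norm_mul]
    have h1 : ‖eqi (q γ') (q (π (v * h)))‖ ≤ 1 := by
      rw [Real.norm_eq_abs, abs_of_nonneg (eqi_nonneg _ _)]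
      exact eqi_le_one _ _
    calc ‖ρ h‖ * ‖eqi (q γ') (q (π (v * h)))‖ ≤ ‖ρ h‖ * 1 :=
          mul_le_mul_of_nonneg_left h1 (norm_nonneg _)
      _ = ‖ρ h‖ := mul_one _
  have h1 : ∀ h₀ : G, eqi (q γ) (q (π (v * h₀))) + Nf μ π q ρ v γ
      ≤ 1 + Nf μ π q ρ v (π (v * h₀)) := by
    intro h₀
    have h2 : ∫ h, (ρ h * eqi (q γ) (q (π (v * h₀))) + ρ h * eqi (q γ) (q (π (v * h)))) ∂μ
        ≤ ∫ h, (ρ h * 1 + ρ h * eqi (q (π (v * h₀))) (q (π (v * h)))) ∂μ := by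
      apply integral_mono ((hρ.mul_const _).add (hie γ))
        ((hρ.mul_const _).add (hie (π (v * h₀))))
      intro h
      have h3 := LowB_tri (q (π (v * h₀))) (q (π (v * h))) (q γ)
      have h4 := mul_le_mul_of_nonneg_left h3 (hw.nonneg h)
      simp only [Pi.add_apply]
      nlinarith [h4]
    rw [integral_add (hρ.mul_const _) (hie γ), integral_add (hρ.mul_const _) (hie _),
      integral_mul_const, integral_mul_const, hw.one, one_mul, one_mul] at h2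
    exact h2
  have hg := integrable_in hD (Gf_Nf (q := q) hD hq hρ) hρ v
  have h2 : ∫ h, (ρ h * eqi (q γ) (q (π (v * h))) + ρ h * Nf μ π q ρ v γ) ∂μ
      ≤ ∫ h, (ρ h * 1 + ρ h * Nf μ π q ρ v (π (v * h))) ∂μ := by
    apply integral_mono ((hie γ).add (hρ.mul_const _)) ((hρ.mul_const _).add hg)
    intro h
    have h4 := mul_le_mul_of_nonneg_left (h1 h) (hw.nonneg h)
    simp only [Pi.add_apply]
    nlinarith [h4]
  rw [integral_add (hie γ) (hρ.mul_const _), integral_add (hρ.mul_const _) hg,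
    integral_mul_const, integral_mul_const, hw.one, one_mul, one_mul] at h2
  have h3 : Nf μ π q ρ v γ = ∫ h, ρ h * eqi (q γ) (q (π (v * h))) ∂μ := rfl
  rw [← h3] at h2
  linarith

theorem nb_le (hD : Dm μ Γ π) (hq : Mo q) {x : G} {ρ : G → ℝ} (hw : Wk K κ μ x ρ) (j : ℕ) :
    nb μ π q K κ x ρ 0 ≤ 2 * nb μ π q K κ x ρ j := by
  have hρ := LowB_int0 hw
  have hj := LowB_int hw j
  have hG := Gf_Nf (q := q) hD hq hρ
  have h1 : av μ π (rk K κ x ρ j) (fun v γ => 2 * Nf μ π q ρ v γ)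
      ≤ dm μ π + av μ π ρ (Nf μ π q ρ) := by
    have h2 : dm μ π + av μ π ρ (Nf μ π q ρ)
        = ∫ v in D0 π, (1 + ∫ h, ρ h * Nf μ π q ρ v (π (v * h)) ∂μ) ∂μ := by
      rw [integral_add]
      · unfold av dm
        congr 1
        rw [integral_const]
        simp [Measure.real]
      · have : IsFiniteMeasure (μ.restrict (D0 π)) := ⟨by
          rw [Measure.restrict_apply_univ]
          exact hD.fin⟩
        exact integrable_const _
      · exact integrable_out hD hG hρ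
    rw [h2]
    unfold av
    have hG2 : Gf (fun v γ => 2 * Nf μ π q ρ v γ) := hG.cmul 2
    apply integral_mono (integrable_out hD hG2 hj)
    · have : IsFiniteMeasure (μ.restrict (D0 π)) := ⟨by
        rw [Measure.restrict_apply_univ]
        exact hD.fin⟩
      exact (integrable_const _).add (integrable_out hD hG hρ)
    · intro v
      have h3 : ∫ h, rk K κ x ρ j h * (2 * Nf μ π q ρ v (π (v * h))) ∂μ
          ≤ ∫ h, rk K κ x ρ j h * (1 + ∫ h', ρ h' * Nf μ π q ρ v (π (v * h')) ∂μ) ∂μ := by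
        apply integral_mono (integrable_in hD hG2 hj v) (hj.mul_const _)
        intro h
        exact mul_le_mul_of_nonneg_left (LowB_pt hD hq hw v (π (v * h))) (rk_nonneg hw j h)
      rw [integral_mul_const, rk_integral hw j, one_mul] at h3
      exact h3
  rw [av_cmul_right, av_Nf_symm hD hj hρ] at h1
  unfold nb
  rw [rk_zero]
  linarith

/-- `|T1 a b c| ≤ dm` when `|S_b|, |S_c| ≤ 1`, for the kernels `ρ_j` -/
theorem T1_rk_abs (hD : Dm μ Γ π) (hq : Mo q) {x : G} {ρ : G → ℝ} (hw : Wk K κ μ x ρ)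
    (i j k : ℕ) :
    |T1 μ π q (rk K κ x ρ i) (rk K κ x ρ j) (rk K κ x ρ k)| ≤ dm μ π := by
  unfold T1
  have h1 := av_abs_le hD (LowB_int hw i)
    (g := fun v γ => Sf μ π q (rk K κ x ρ j) v γ * Sf μ π q (rk K κ x ρ k) v γ)
    ((Gf_Sf hD hq (LowB_int hw j)).mul (Gf_Sf hD hq (LowB_int hw k))) (C := 1) (by
      intro v γ
      have h2 := Sf_abs_le (π := π) (q := q) (LowB_int hw j) v γ
      have h3 := Sf_abs_le (π := π) (q := q) (LowB_int hw k) v γ
      rw [LowB_abs hw] at h2 h3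
      rw [abs_mul]
      nlinarith [abs_nonneg (Sf μ π q (rk K κ x ρ j) v γ),
        abs_nonneg (Sf μ π q (rk K κ x ρ k) v γ)])
  rw [LowB_abs hw, mul_one, mul_one] at h1
  exact h1

/-- `∑_{1 ≤ j < M} T1 ρ ρ_k ρ_j = T1 ρ ρ_k (m_M - ρ) ≤ ⟨|S_{m_M}|⟩_ρ + dm`: linearity in the last
argument (`Sf_sum`), `|S_{ρ_k}| ≤ 1`, `av_mono_right`, `T1_rk_abs` for the term with `ρ`. -/
theorem T1_sum_le (hD : Dm μ Γ π) (hq : Mo q) {x : G} {ρ : G → ℝ} (hw : Wk K κ μ x ρ)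
    (k M : ℕ) (hM : 1 ≤ M) :
    ∑ j ∈ Finset.range (M - 1), T1 μ π q ρ (rk K κ x ρ (j + 1)) (rk K κ x ρ k)
      ≤ av μ π ρ (fun v γ => |Sf μ π q (mk K κ x ρ M) v γ|) + dm μ π := by
  have hρ := LowB_int0 hw
  have hSm : ∀ v γ, Sf μ π q (mk K κ x ρ M) v γ
      = ∑ j ∈ Finset.range M, Sf μ π q (rk K κ x ρ j) v γ := by
    intro v γ
    exact Sf_sum hD (Finset.range M) (fun j _ => LowB_int hw j) v γ
  have hGm : Gf (Sf μ π q (mk K κ x ρ M)) := Gf_Sf hD hq (mk_bk hw M).integrable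
  have hGk : Gf (Sf μ π q (rk K κ x ρ k)) := Gf_Sf hD hq (LowB_int hw k)
  have h1 : ∑ j ∈ Finset.range M, T1 μ π q ρ (rk K κ x ρ j) (rk K κ x ρ k)
      ≤ av μ π ρ (fun v γ => |Sf μ π q (mk K κ x ρ M) v γ|) := by
    unfold T1
    rw [← av_sum_right hD hρ (Finset.range M) (fun j _ =>
      (Gf_Sf hD hq (LowB_int hw j)).mul hGk)]
    apply av_mono_right hD hρ hw.nonneg
      (Gf.sum (fun j _ => (Gf_Sf hD hq (LowB_int hw j)).mul hGk)) hGm.abs
    intro v γ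
    rw [← Finset.sum_mul, ← hSm v γ]
    have h3 := Sf_abs_le (π := π) (q := q) (LowB_int hw k) v γ
    rw [LowB_abs hw] at h3
    calc Sf μ π q (mk K κ x ρ M) v γ * Sf μ π q (rk K κ x ρ k) v γ
        ≤ |Sf μ π q (mk K κ x ρ M) v γ * Sf μ π q (rk K κ x ρ k) v γ| := le_abs_self _
      _ = |Sf μ π q (mk K κ x ρ M) v γ| * |Sf μ π q (rk K κ x ρ k) v γ| := abs_mul _ _
      _ ≤ |Sf μ π q (mk K κ x ρ M) v γ| * 1 := mul_le_mul_of_nonneg_left h3 (abs_nonneg _)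
      _ = |Sf μ π q (mk K κ x ρ M) v γ| := mul_one _
  obtain ⟨M', rfl⟩ : ∃ M', M = M' + 1 := ⟨M - 1, by omega⟩
  rw [Finset.sum_range_succ'] at h1
  have h2 := (abs_le.1 (T1_rk_abs (q := q) hD hq hw 0 0 k)).1
  rw [rk_zero] at h1 h2
  simp only [Nat.add_sub_cancel]
  linarith

end SPN
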