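import Mathlib

/-! # Module LowC (difficulty 3): two facts about real sequences

`low_sum`. `t k j` stands for `T1 (rk k) ρ (rk j)`, `E M` for `⟨|S_{m_M}|⟩_ρ`, `s j k` for
`T1 ρ (rk j) (rk k)`. PROOF. `N = 0, 1`: the left side is `≤ 0`: for `N = 1` it is `c/4 * 0 - 3 d - E 0` and the
right side is `0`. (The hypothesis `1 ≤ N` excludes `N = 0`.) In general the terms `k = 0` of the right side
contribute at least `-2 (N - 1) d` (`h0`). The terms `k ≥ 1`, `k = k' + 1`, are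
`2 ∑_{(k', j) : k' + j + 2 < N} t (k'+1) (j+1) = ∑ (t (k'+1) (j+1) + t (j+1) (k'+1))` (the index set is symmetric)
`≥ ∑_{(k', j) : k' + j + 2 < N} (c/2 - s (j+1) (k'+1))` (`h1`). The number of pairs is `(N-1)(N-2)/2` and for
fixed `k'`, `∑_j s (j+1) (k'+1) ≤ E (N - 1 - k') + d` (`h2` with `M = N - 1 - k'`, `M - 1 = N - 2 - k'`), so the
sum of the `s` is at most `∑_{k' < N - 2} (E (N - 1 - k') + d) ≤ ∑_{M < N} E M + N d`.
`end_contra`. PROOF. `E N ≤ √(d B_N)`, so `E N / N → 0`; let `ε > 0`. For all `N`: `B N ≤ ε N² + C₁`,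
`E N ≤ ε N + C₂` (finitely many exceptions), so `∑_{M < N} E M ≤ ε N² + C₂ N` and, summing `h2` over
`N ≤ n`: `c ∑ (N - 1)(N - 2) - 3 d ∑ N - ∑ (ε N² + C₂ N) ≤ C n² + ∑ (ε N² + C₁)`. The left side is
`≥ (c/3 - ε) n³ - O(n²)` and the right side is `≤ ε n³ + O(n²)`. With `ε = c/12` this fails for large `n`.
(Closed forms: `∑_{N ≤ n} N = n(n+1)/2`, `∑_{N ≤ n} N² = n(n+1)(2n+1)/6` by induction. To avoid them one may
use crude bounds, e.g. only the terms `n/2 ≤ N`, or telescoping comparison with `N³ - (N-1)³`.) -/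

open Filter

namespace SPN

private theorem LowC_range (n k : ℕ) (f : ℕ → ℝ) :
    ∑ j ∈ Finset.range (n - 1 - k), f j
      = ∑ j ∈ Finset.range n, if k + j + 1 < n then f j else 0 := by
  rw [← Finset.sum_filter]
  apply Finset.sum_congr _ (fun _ _ => rfl)
  ext j
  simp only [Finset.mem_range, Finset.mem_filter]
  omega

private theorem LowC_swap (n : ℕ) (f : ℕ → ℕ → ℝ) :
    ∑ k ∈ Finset.range n, ∑ j ∈ Finset.range (n - 1 - k), f k j
      = ∑ k ∈ Finset.range n, ∑ j ∈ Finset.range (n - 1 - k), f j k := by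
  have e1 : ∑ k ∈ Finset.range n, ∑ j ∈ Finset.range (n - 1 - k), f k j
      = ∑ k ∈ Finset.range n, ∑ j ∈ Finset.range n, (if k + j + 1 < n then f k j else 0) :=
    Finset.sum_congr rfl (fun k _ => LowC_range n k (fun j => f k j))
  have e2 : ∑ k ∈ Finset.range n, ∑ j ∈ Finset.range (n - 1 - k), f j k
      = ∑ k ∈ Finset.range n, ∑ j ∈ Finset.range n, (if k + j + 1 < n then f j k else 0) :=
    Finset.sum_congr rfl (fun k _ => LowC_range n k (fun j => f j k))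
  rw [e1, e2, Finset.sum_comm]
  apply Finset.sum_congr rfl
  intro k _
  apply Finset.sum_congr rfl
  intro j _
  rw [Nat.add_comm j k]

private theorem LowC_count (n : ℕ) :
    ∑ k ∈ Finset.range n, ((n - 1 - k : ℕ) : ℝ) = (n : ℝ) * ((n : ℝ) - 1) / 2 := by
  have h : ∑ k ∈ Finset.range n, ((n - 1 - k : ℕ) : ℝ) = ∑ k ∈ Finset.range n, ((k : ℕ) : ℝ) :=
    Finset.sum_range_reflect (fun k : ℕ => (k : ℝ)) n
  rw [h]
  induction n with
  | zero => simp
  | succ m ih =>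
    rw [Finset.sum_range_succ, ih (by
      exact Finset.sum_range_reflect (fun k : ℕ => (k : ℝ)) m)]
    push_cast
    ring

theorem low_sum {t s : ℕ → ℕ → ℝ} {E : ℕ → ℝ} {c d : ℝ} (hc : 0 ≤ c) (hd : 0 ≤ d)
    (hE : ∀ M, 0 ≤ E M) (h0 : ∀ j, -d ≤ t 0 j)
    (h1 : ∀ k j, c / 2 - s j k ≤ t k j + t j k)
    (h2 : ∀ k M, 1 ≤ M → ∑ j ∈ Finset.range (M - 1), s (j + 1) k ≤ E M + d)
    (N : ℕ) (hN : 1 ≤ N) :
    c / 4 * (((N : ℝ) - 1) * ((N : ℝ) - 2)) - 3 * N * d - ∑ M ∈ Finset.range N, E M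
      ≤ 2 * ∑ k ∈ Finset.range N, ∑ j ∈ Finset.range (N - 1 - k), t k (j + 1) := by
  obtain ⟨n, rfl⟩ : ∃ n, N = n + 1 := ⟨N - 1, by omega⟩
  have hsub : n + 1 - 1 = n := by omega
  rw [hsub]
  have hspl : ∑ k ∈ Finset.range (n + 1), ∑ j ∈ Finset.range (n - k), t k (j + 1)
      = (∑ k ∈ Finset.range n, ∑ j ∈ Finset.range (n - 1 - k), t (k + 1) (j + 1))
        + ∑ j ∈ Finset.range n, t 0 (j + 1) := by
    rw [Finset.sum_range_succ']
    congr 1
    apply Finset.sum_congr rfl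
    intro k _
    have e : n - (k + 1) = n - 1 - k := by omega
    rw [e]
  rw [hspl]
  have hzero : -((n : ℝ) * d) ≤ ∑ j ∈ Finset.range n, t 0 (j + 1) := by
    have h : ∑ j ∈ Finset.range n, (-d) ≤ ∑ j ∈ Finset.range n, t 0 (j + 1) :=
      Finset.sum_le_sum (fun j _ => h0 (j + 1))
    rw [Finset.sum_const, Finset.card_range, nsmul_eq_mul] at h
    linarith
  have hsw := LowC_swap n (fun k j => t (k + 1) (j + 1))
  have hpair : ∑ k ∈ Finset.range n, ∑ j ∈ Finset.range (n - 1 - k), (c / 2 - s (j + 1) (k + 1))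
      ≤ (∑ k ∈ Finset.range n, ∑ j ∈ Finset.range (n - 1 - k), t (k + 1) (j + 1))
        + ∑ k ∈ Finset.range n, ∑ j ∈ Finset.range (n - 1 - k), t (j + 1) (k + 1) := by
    rw [← Finset.sum_add_distrib]
    apply Finset.sum_le_sum
    intro k _
    rw [← Finset.sum_add_distrib]
    apply Finset.sum_le_sum
    intro j _
    exact h1 (k + 1) (j + 1)
  have hs : ∑ k ∈ Finset.range n, ∑ j ∈ Finset.range (n - 1 - k), s (j + 1) (k + 1)
      ≤ ∑ M ∈ Finset.range (n + 1), E M + (n : ℝ) * d := by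
    have hA : ∑ k ∈ Finset.range n, ∑ j ∈ Finset.range (n - 1 - k), s (j + 1) (k + 1)
        ≤ ∑ k ∈ Finset.range n, (E (n - k) + d) := by
      apply Finset.sum_le_sum
      intro k hk
      have hk' : k < n := Finset.mem_range.mp hk
      have := h2 (k + 1) (n - k) (by omega)
      have e : n - k - 1 = n - 1 - k := by omega
      rw [e] at this
      exact this
    have hB : ∑ k ∈ Finset.range n, (E (n - k) + d)
        = ∑ k ∈ Finset.range n, E (k + 1) + (n : ℝ) * d := by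
      rw [Finset.sum_add_distrib, Finset.sum_const, Finset.card_range, nsmul_eq_mul]
      congr 1
      have := Finset.sum_range_reflect (fun k : ℕ => E (k + 1)) n
      rw [← this]
      apply Finset.sum_congr rfl
      intro k hk
      have hk' : k < n := Finset.mem_range.mp hk
      have e : n - k = n - 1 - k + 1 := by omega
      simp only [e]
    have hC : ∑ M ∈ Finset.range (n + 1), E M = ∑ k ∈ Finset.range n, E (k + 1) + E 0 :=
      Finset.sum_range_succ' E n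
    have := hE 0
    linarith
  have hcount : ∑ k ∈ Finset.range n, ∑ j ∈ Finset.range (n - 1 - k), (c / 2 - s (j + 1) (k + 1))
      = c / 2 * ((n : ℝ) * ((n : ℝ) - 1) / 2)
        - ∑ k ∈ Finset.range n, ∑ j ∈ Finset.range (n - 1 - k), s (j + 1) (k + 1) := by
    rw [← LowC_count n, Finset.mul_sum, ← Finset.sum_sub_distrib]
    apply Finset.sum_congr rfl
    intro k _
    rw [Finset.sum_sub_distrib, Finset.sum_const, Finset.card_range, nsmul_eq_mul]
    ring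
  push_cast
  have e3 : c / 4 * (((n : ℝ) + 1 - 1) * ((n : ℝ) + 1 - 2)) = c / 2 * ((n : ℝ) * ((n : ℝ) - 1) / 2) := by
    ring
  rw [e3]
  have hsw' : ∑ k ∈ Finset.range n, ∑ j ∈ Finset.range (n - 1 - k), t (k + 1) (j + 1)
      = ∑ k ∈ Finset.range n, ∑ j ∈ Finset.range (n - 1 - k), t (j + 1) (k + 1) := hsw
  rw [← hsw'] at hpair
  linarith

theorem end_contra {A B E : ℕ → ℝ} {C d c : ℝ} (hc : 0 < c) (hd : 0 ≤ d) (hA : A 0 = 0)
    (h1 : ∀ n : ℕ, ∑ N ∈ Finset.range (n + 1), A N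
      ≤ C * (n : ℝ) ^ 2 + ∑ N ∈ Finset.range (n + 1), B N)
    (h2 : ∀ N : ℕ, 1 ≤ N → c * (((N : ℝ) - 1) * ((N : ℝ) - 2)) - 3 * N * d
      - ∑ M ∈ Finset.range N, E M ≤ A N)
    (h3 : Tendsto (fun N : ℕ => B N / (N : ℝ) ^ 2) atTop (nhds 0))
    (h4 : ∀ N, E N ^ 2 ≤ d * B N) : False := by
  obtain ⟨e, he0, hec, hde⟩ : ∃ e : ℝ, 0 < e ∧ e ≤ c / 4 ∧ d * e ≤ (c / 4) ^ 2 := by
    refine ⟨min (c / 4) ((c / 4) ^ 2 / (d + 1)), ?_, min_le_left _ _, ?_⟩
    · apply lt_min (by positivity)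
      positivity
    · have h : min (c / 4) ((c / 4) ^ 2 / (d + 1)) ≤ (c / 4) ^ 2 / (d + 1) := min_le_right _ _
      calc d * min (c / 4) ((c / 4) ^ 2 / (d + 1)) ≤ d * ((c / 4) ^ 2 / (d + 1)) :=
            mul_le_mul_of_nonneg_left h hd
        _ ≤ (d + 1) * ((c / 4) ^ 2 / (d + 1)) := by
            apply mul_le_mul_of_nonneg_right (by linarith)
            positivity
        _ = (c / 4) ^ 2 := by
            field_simp
  obtain ⟨N0, hN0⟩ : ∃ N0 : ℕ, ∀ N ≥ N0, B N / (N : ℝ) ^ 2 < e :=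
    Filter.eventually_atTop.mp (h3.eventually (gt_mem_nhds he0))
  obtain ⟨C1, hC1, hB⟩ : ∃ C1 : ℝ, 0 ≤ C1 ∧ ∀ N : ℕ, B N ≤ e * (N : ℝ) ^ 2 + C1 := by
    refine ⟨∑ N ∈ Finset.range (N0 + 1), |B N|, Finset.sum_nonneg (fun _ _ => abs_nonneg _), ?_⟩
    intro N
    by_cases hN : N < N0 + 1
    · have h : |B N| ≤ ∑ N ∈ Finset.range (N0 + 1), |B N| :=
        Finset.single_le_sum (f := fun N => |B N|) (fun _ _ => abs_nonneg _)
          (Finset.mem_range.mpr hN)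
      have h' := le_abs_self (B N)
      have h'' : 0 ≤ e * (N : ℝ) ^ 2 := by positivity
      linarith
    · have hN1 : N0 ≤ N := by omega
      have hNpos : (0 : ℝ) < (N : ℝ) := by
        have : 0 < N := by omega
        exact_mod_cast this
      have h := hN0 N hN1
      rw [div_lt_iff₀ (by positivity)] at h
      have h' : 0 ≤ ∑ N ∈ Finset.range (N0 + 1), |B N| :=
        Finset.sum_nonneg (fun _ _ => abs_nonneg _)
      linarith
  set K2 : ℝ := Real.sqrt (d * C1) with hK2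
  have hK2n : 0 ≤ K2 := Real.sqrt_nonneg _
  have hK2s : K2 ^ 2 = d * C1 := Real.sq_sqrt (by positivity)
  have hEb : ∀ N : ℕ, E N ≤ c / 4 * (N : ℝ) + K2 := by
    intro N
    have h := h4 N
    have hb := mul_le_mul_of_nonneg_left (hB N) hd
    have hN : (0 : ℝ) ≤ (N : ℝ) := Nat.cast_nonneg N
    have h5 : d * e * (N : ℝ) ^ 2 ≤ (c / 4) ^ 2 * (N : ℝ) ^ 2 :=
      mul_le_mul_of_nonneg_right hde (by positivity)
    have h6 : 0 ≤ c / 4 * (N : ℝ) + K2 := by positivity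
    have h7 : 0 ≤ 2 * (c / 4 * (N : ℝ)) * K2 := by positivity
    apply le_of_sq_le_sq _ h6
    nlinarith [h, hb, h5, h7, hK2s]
  have hEs : ∀ N : ℕ, ∑ M ∈ Finset.range N, E M ≤ c / 4 * (N : ℝ) ^ 2 + K2 * (N : ℝ) := by
    intro N
    have hb : ∀ M ∈ Finset.range N, E M ≤ c / 4 * (N : ℝ) + K2 := by
      intro M hM
      have hM' : (M : ℝ) ≤ (N : ℝ) := by
        exact_mod_cast (Finset.mem_range.mp hM).le
      have := hEb M
      have h8 : c / 4 * (M : ℝ) ≤ c / 4 * (N : ℝ) := mul_le_mul_of_nonneg_left hM' (by positivity)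
      linarith
    have h := Finset.sum_le_sum hb
    rw [Finset.sum_const, Finset.card_range, nsmul_eq_mul] at h
    nlinarith [h]
  set K : ℝ := 3 * c + 3 * d + K2 with hK
  have hKn : 0 ≤ K := by positivity
  have hA' : ∀ N : ℕ, (3 * c / 4) * (N : ℝ) ^ 2 - K * (N : ℝ) ≤ A N := by
    intro N
    rcases Nat.eq_zero_or_pos N with h | h
    · subst h
      rw [hA]
      simp
    · have h5 := h2 N h
      have h6 := hEs N
      have hN : (0 : ℝ) ≤ (N : ℝ) := Nat.cast_nonneg N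
      nlinarith [h5, h6]
  have hsum : ∀ n : ℕ, (3 * c / 4 - e) * ∑ N ∈ Finset.range (n + 1), (N : ℝ) ^ 2
      ≤ C * (n : ℝ) ^ 2 + K * ∑ N ∈ Finset.range (n + 1), (N : ℝ) + C1 * ((n : ℝ) + 1) := by
    intro n
    have hl : ∑ N ∈ Finset.range (n + 1), ((3 * c / 4) * (N : ℝ) ^ 2 - K * (N : ℝ))
        ≤ ∑ N ∈ Finset.range (n + 1), A N := Finset.sum_le_sum (fun N _ => hA' N)
    have hr : ∑ N ∈ Finset.range (n + 1), B N
        ≤ ∑ N ∈ Finset.range (n + 1), (e * (N : ℝ) ^ 2 + C1) := Finset.sum_le_sum (fun N _ => hB N)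
    rw [Finset.sum_sub_distrib, ← Finset.mul_sum, ← Finset.mul_sum] at hl
    rw [Finset.sum_add_distrib, ← Finset.mul_sum, Finset.sum_const, Finset.card_range,
      nsmul_eq_mul] at hr
    have h := h1 n
    push_cast at hr
    nlinarith [h, hl, hr]
  have hsq : ∀ n : ℕ, (n : ℝ) ^ 3 / 3 ≤ ∑ N ∈ Finset.range (n + 1), (N : ℝ) ^ 2 := by
    intro n
    induction n with
    | zero => simp
    | succ m ih =>
      rw [Finset.sum_range_succ]
      push_cast
      have hm : (0 : ℝ) ≤ (m : ℝ) := Nat.cast_nonneg m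
      nlinarith [ih]
  have hlin : ∀ n : ℕ, ∑ N ∈ Finset.range (n + 1), (N : ℝ) ≤ (n : ℝ) ^ 2 := by
    intro n
    induction n with
    | zero => simp
    | succ m ih =>
      rw [Finset.sum_range_succ]
      push_cast
      have hm : (0 : ℝ) ≤ (m : ℝ) := Nat.cast_nonneg m
      nlinarith [ih]
  obtain ⟨n, hn⟩ := exists_nat_gt (6 * (|C| + K + 2 * C1) / c)
  have hn0 : 0 ≤ 6 * (|C| + K + 2 * C1) / c := by positivity
  have hnpos : (0 : ℝ) < (n : ℝ) := lt_of_le_of_lt hn0 hn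
  have hn1 : (1 : ℝ) ≤ (n : ℝ) := by
    have : 0 < n := by exact_mod_cast hnpos
    exact_mod_cast this
  rw [div_lt_iff₀ hc] at hn
  have h5 := hsum n
  have h6 := hsq n
  have h7 := hlin n
  have h8 : (c / 2) * ((n : ℝ) ^ 3 / 3)
      ≤ (3 * c / 4 - e) * ∑ N ∈ Finset.range (n + 1), (N : ℝ) ^ 2 := by
    apply mul_le_mul _ h6 (by positivity) (by linarith)
    linarith
  have h9 : K * ∑ N ∈ Finset.range (n + 1), (N : ℝ) ≤ K * (n : ℝ) ^ 2 :=
    mul_le_mul_of_nonneg_left h7 hKn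
  have h10 : C * (n : ℝ) ^ 2 ≤ |C| * (n : ℝ) ^ 2 :=
    mul_le_mul_of_nonneg_right (le_abs_self C) (by positivity)
  have h11 : C1 * ((n : ℝ) + 1) ≤ 2 * C1 * (n : ℝ) ^ 2 := by
    have : (n : ℝ) + 1 ≤ 2 * (n : ℝ) ^ 2 := by nlinarith
    nlinarith [mul_le_mul_of_nonneg_left this hC1]
  have h12 : (c / 2) * ((n : ℝ) ^ 3 / 3) ≤ (|C| + K + 2 * C1) * (n : ℝ) ^ 2 := by nlinarith
  have h13 : (n : ℝ) ^ 2 * (c * (n : ℝ)) ≤ (n : ℝ) ^ 2 * (6 * (|C| + K + 2 * C1)) := by nlinarith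
  have h14 : c * (n : ℝ) ≤ 6 * (|C| + K + 2 * C1) :=
    le_of_mul_le_mul_left h13 (by positivity)
  linarith

end SPN
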