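import Pool.Agent.SPN.Meg

/-! # Module Inv (difficulty 3): `D0 π` is a fundamental domain; integrals of invariant functions

`isFund`: `Γ` (a subgroup) acts on `G` by left multiplication, `γ • g = (γ : G) * g` (`Subgroup.smul_def`,
`smul_eq_mul`). `IsFundamentalDomain.mk'`: measurable (`hD.meas 1`), and every `g` has a unique `γ` with
`γ • g ∈ D0 π`: `π (γ * g) = γ * π g = 1 ↔ γ = (π g)⁻¹`. (`hD.cnt` for countability.)
`int_translate`: `∫_{v ∈ D} Θ (v * x)`: the set `D' = {v | v * x⁻¹ ∈ D} = D * x` is a fundamental domain as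
well (`π' v = π (v * x⁻¹)` satisfies `Dm μ Γ π'`, since right multiplication by `x⁻¹` preserves `μ`), so
`∫_{D'} Θ = ∫_D Θ` by `IsFundamentalDomain.setIntegral_eq` (both for the action of `Γ`; `Θ` is invariant), and
`∫_{v ∈ D} Θ (v * x) = ∫_{D'} Θ` by right invariance (`MeasurePreserving.setIntegral_preimage_emb` for
`(· * x)`, or `integral_mul_right_eq_self` applied to the function `indicator D' Θ`).
`mass`: mass transport. `D ×ˢ univ` and `univ ×ˢ D` are both fundamental domains for the diagonal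
action of `Γ` on `G × G`, so the integrals of the invariant function `F` over them agree. -/

open MeasureTheory

namespace SPN

variable {G : Type*} [Group G] [MeasurableSpace G] [MeasurableMul₂ G] {μ : Measure G}
  [μ.IsMulLeftInvariant] {Γ : Subgroup G} {π : G → Γ}

private theorem inv_exu (hD : Dm μ Γ π) (g : G) : ∃! γ : Γ, γ • g ∈ D0 π := by
  refine ⟨(π g)⁻¹, ?_, ?_⟩
  · show π ((π g)⁻¹ • g) = 1
    rw [Subgroup.smul_def, smul_eq_mul, hD.equiv]
    simp
  · intro γ hγ
    have h1 : π (γ • g) = 1 := hγ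
    rw [Subgroup.smul_def, smul_eq_mul, hD.equiv] at h1
    exact eq_inv_of_mul_eq_one_left h1

theorem isFund (hD : Dm μ Γ π) : IsFundamentalDomain Γ (D0 π) μ :=
  IsFundamentalDomain.mk' (hD.meas 1).nullMeasurableSet (inv_exu hD)

private theorem inv_exu2 (hD : Dm μ Γ π) (x g : G) :
    ∃! γ : Γ, γ • g ∈ (fun v : G => v * x⁻¹) ⁻¹' D0 π := by
  obtain ⟨γ, h1, h2⟩ := inv_exu hD (g * x⁻¹)
  have key : ∀ δ : Γ, (δ • g) * x⁻¹ = δ • (g * x⁻¹) := by
    intro δ
    rw [Subgroup.smul_def, Subgroup.smul_def, smul_eq_mul, smul_eq_mul, mul_assoc]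
  refine ⟨γ, ?_, ?_⟩
  · show (γ • g) * x⁻¹ ∈ D0 π
    rw [key]; exact h1
  · intro δ hδ
    refine h2 δ ?_
    have h3 : (δ • g) * x⁻¹ ∈ D0 π := hδ
    rwa [key] at h3

theorem int_translate [μ.IsMulRightInvariant] (hD : Dm μ Γ π) {Θ : G → ℝ}
    (hΘ : Measurable Θ) (hinv : ∀ (γ : Γ) (v : G), Θ (γ * v) = Θ v) (x : G) :
    ∫ v in D0 π, Θ (v * x) ∂μ = ∫ v in D0 π, Θ v ∂μ := by
  have : Countable Γ := hD.cnt
  have hmD : MeasurableSet (D0 π) := hD.meas 1
  have hmul : Measurable (fun v : G => v * x⁻¹) := measurable_mul_const x⁻¹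
  have hD' : IsFundamentalDomain Γ ((fun v : G => v * x⁻¹) ⁻¹' D0 π) μ :=
    IsFundamentalDomain.mk' (hmul hmD).nullMeasurableSet (inv_exu2 hD x)
  have h1 : ∫ v in (fun v : G => v * x⁻¹) ⁻¹' D0 π, Θ v ∂μ = ∫ v in D0 π, Θ v ∂μ := by
    refine hD'.setIntegral_eq (isFund hD) ?_
    intro γ v
    rw [Subgroup.smul_def, smul_eq_mul]
    exact hinv γ v
  rw [← h1, ← integral_indicator hmD, ← integral_indicator (hmul hmD)]
  rw [← integral_mul_right_eq_self (μ := μ)
    (fun v => ((fun v : G => v * x⁻¹) ⁻¹' D0 π).indicator Θ v) x]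
  refine integral_congr_ae (Filter.Eventually.of_forall fun v => ?_)
  by_cases hv : v ∈ D0 π
  · have h2 : v * x ∈ (fun v : G => v * x⁻¹) ⁻¹' D0 π := by
      show v * x * x⁻¹ ∈ D0 π
      rwa [mul_inv_cancel_right]
    rw [Set.indicator_of_mem hv]
    show _ = ((fun v : G => v * x⁻¹) ⁻¹' D0 π).indicator Θ (v * x)
    rw [Set.indicator_of_mem h2]
  · have h2 : v * x ∉ (fun v : G => v * x⁻¹) ⁻¹' D0 π := by
      intro h3
      have h4 : v * x * x⁻¹ ∈ D0 π := h3
      rw [mul_inv_cancel_right] at h4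
      exact hv h4
    rw [Set.indicator_of_notMem hv]
    show _ = ((fun v : G => v * x⁻¹) ⁻¹' D0 π).indicator Θ (v * x)
    rw [Set.indicator_of_notMem h2]

private theorem inv_smulinv [SigmaFinite μ] : SMulInvariantMeasure Γ (G × G) (μ.prod μ) := by
  constructor
  intro γ s hs
  have hp : MeasurePreserving (fun v : G => (γ : G) * v) μ μ := measurePreserving_mul_left μ (γ : G)
  have hpp := hp.prod hp
  have h1 : (fun p : G × G => γ • p) = Prod.map (fun v : G => (γ : G) * v) (fun v : G => (γ : G) * v) := by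
    funext p
    rfl
  rw [h1]
  exact hpp.measure_preimage hs.nullMeasurableSet

omit [μ.IsMulLeftInvariant] in
private theorem inv_measconst : MeasurableConstSMul Γ (G × G) := by
  constructor
  intro γ
  have h1 : (fun p : G × G => γ • p) = Prod.map (fun v : G => (γ : G) * v) (fun v : G => (γ : G) * v) := by
    funext p
    rfl
  show Measurable (fun p : G × G => γ • p)
  rw [h1]
  exact (measurable_const_mul (γ : G)).prodMap (measurable_const_mul (γ : G))

theorem mass [SigmaFinite μ] (hD : Dm μ Γ π) {F : G → G → ℝ}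
    (hinv : ∀ (γ : Γ) (v z : G), F (γ * v) (γ * z) = F v z)
    (hF : Integrable (fun p : G × G => F p.1 p.2) ((μ.restrict (D0 π)).prod μ)) :
    ∫ v in D0 π, ∫ z, F v z ∂μ ∂μ = ∫ z in D0 π, ∫ v, F v z ∂μ ∂μ := by
  have : Countable Γ := hD.cnt
  have hmD : MeasurableSet (D0 π) := hD.meas 1
  have : SMulInvariantMeasure Γ (G × G) (μ.prod μ) := inv_smulinv
  have : MeasurableConstSMul Γ (G × G) := inv_measconst
  have e1 : (μ.restrict (D0 π)).prod μ = (μ.prod μ).restrict (D0 π ×ˢ Set.univ) := by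
    have h := Measure.prod_restrict (μ := μ) (ν := μ) (D0 π) Set.univ
    rwa [Measure.restrict_univ] at h
  have e2 : μ.prod (μ.restrict (D0 π)) = (μ.prod μ).restrict (Set.univ ×ˢ D0 π) := by
    have h := Measure.prod_restrict (μ := μ) (ν := μ) Set.univ (D0 π)
    rwa [Measure.restrict_univ] at h
  have f1 : IsFundamentalDomain Γ (D0 π ×ˢ (Set.univ : Set G)) (μ.prod μ) := by
    refine IsFundamentalDomain.mk' (hmD.prod MeasurableSet.univ).nullMeasurableSet ?_
    intro p
    obtain ⟨γ, h1, h2⟩ := inv_exu hD p.1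
    exact ⟨γ, ⟨h1, Set.mem_univ _⟩, fun δ hδ => h2 δ hδ.1⟩
  have f2 : IsFundamentalDomain Γ ((Set.univ : Set G) ×ˢ D0 π) (μ.prod μ) := by
    refine IsFundamentalDomain.mk' (MeasurableSet.univ.prod hmD).nullMeasurableSet ?_
    intro p
    obtain ⟨γ, h1, h2⟩ := inv_exu hD p.2
    exact ⟨γ, ⟨Set.mem_univ _, h1⟩, fun δ hδ => h2 δ hδ.2⟩
  have hi : ∀ (γ : Γ) (p : G × G), (fun p : G × G => F p.1 p.2) (γ • p) = (fun p : G × G => F p.1 p.2) p := by
    intro γ p
    show F ((γ • p).1) ((γ • p).2) = F p.1 p.2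
    rw [Prod.smul_fst, Prod.smul_snd, Subgroup.smul_def, Subgroup.smul_def, smul_eq_mul, smul_eq_mul]
    exact hinv γ p.1 p.2
  have key : ∫ p in D0 π ×ˢ (Set.univ : Set G), F p.1 p.2 ∂(μ.prod μ)
      = ∫ p in (Set.univ : Set G) ×ˢ D0 π, F p.1 p.2 ∂(μ.prod μ) :=
    f1.setIntegral_eq f2 hi
  have hint2 : Integrable (fun p : G × G => F p.1 p.2) (μ.prod (μ.restrict (D0 π))) := by
    rw [e2]
    rw [e1] at hF
    exact (f1.integrableOn_iff f2 hi).1 hF
  rw [← integral_prod (fun p : G × G => F p.1 p.2) hF, e1, key, ← e2]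
  rw [integral_prod_symm (fun p : G × G => F p.1 p.2) hint2]

end SPN
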