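import Pool.Agent.SPN.LowB
import Pool.Agent.SPN.Inv

/-! # Module TriA (difficulty 3): the case `nb_0 = 0`, first step

PROOF. `nb 0 = dm - av ρ (Nf ρ) = ∫_{v ∈ D} ∫∫ ρ(h₀) ρ(h₁) (1 - eqi (q (π (v h₀))) (q (π (v h₁)))) dh₁ dh₀`
(`rk 0 = ρ`, `∫ ρ = 1`), and the integrand is nonnegative and integrable, so if `nb 0 ≤ 0` it vanishes for
almost all `v ∈ D`, `h₀`, `h₁` (`integral_eq_zero_iff_of_nonneg`, three times, or once on the product).
The statement for `v` is `Γ`-invariant (`hq.mono` for `γ` and `γ⁻¹`, `hD.equiv`), true a.e. in `D0 π`, and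
`G` is the countable union of the translates `γ D0 π` (`hD.cnt`, `isFund`), each translation preserves
null sets: so it is true for almost all `v : G`. -/

open MeasureTheory

namespace SPN

variable {G : Type*} [Group G] [TopologicalSpace G] [IsTopologicalGroup G] [T2Space G]
  [LocallyCompactSpace G] [SecondCountableTopology G] [MeasurableSpace G] [BorelSpace G]
  {μ : Measure G} [IsFiniteMeasureOnCompacts μ] [μ.IsMulLeftInvariant] [SigmaFinite μ]
  {Γ : Subgroup G} {π : G → Γ} {X : Type*} [LinearOrder X] {q : Γ → X}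
  {K : Subgroup G} {κ : Measure K}

private theorem TriA_q (hq : Mo q) (γ a b : Γ) (h : q a = q b) : q (γ * a) = q (γ * b) :=
  le_antisymm (hq.mono γ a b h.le) (hq.mono γ b a h.ge)

private theorem TriA_inv (hD : Dm μ Γ π) (hq : Mo q) (ρ : G → ℝ) (γ : Γ) (v : G)
    (h : ∀ᵐ h₀ ∂μ, ∀ᵐ h₁ ∂μ, 0 < ρ h₀ → 0 < ρ h₁ → q (π (v * h₀)) = q (π (v * h₁))) :
    ∀ᵐ h₀ ∂μ, ∀ᵐ h₁ ∂μ, 0 < ρ h₀ → 0 < ρ h₁ →
      q (π ((γ : G) * v * h₀)) = q (π ((γ : G) * v * h₁)) := by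
  filter_upwards [h] with h₀ hh
  filter_upwards [hh] with h₁ hh1 a b
  rw [mul_assoc, mul_assoc, hD.equiv, hD.equiv]
  exact TriA_q hq γ _ _ (hh1 a b)

theorem tri_a (hD : Dm μ Γ π) (hq : Mo q) {x : G} {ρ : G → ℝ} (hw : Wk K κ μ x ρ)
    (h : nb μ π q K κ x ρ 0 ≤ 0) :
    ∀ᵐ v ∂μ, ∀ᵐ h₀ ∂μ, ∀ᵐ h₁ ∂μ, 0 < ρ h₀ → 0 < ρ h₁ →
      q (π (v * h₀)) = q (π (v * h₁)) := by
  have hρ : Integrable ρ μ := hw.bk.cont.integrable_of_hasCompactSupport hw.bk.supp
  have habs : ∫ h, |ρ h| ∂μ = 1 := by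
    rw [← hw.one]
    refine integral_congr_ae (Filter.Eventually.of_forall fun h => ?_)
    exact abs_of_nonneg (hw.nonneg h)
  have hN : Gf (Nf μ π q ρ) := Gf_Nf hD hq hρ
  have hc : Gf (fun (_ : G) (_ : Γ) => (1 : ℝ)) := Gf_const 1
  have hN1 : ∀ v γ, Nf μ π q ρ v γ ≤ 1 := fun v γ =>
    (le_abs_self _).trans ((Nf_abs_le hρ v γ).trans habs.le)
  -- the function on the product
  have hi1 := integrable_pair hD hc hρ
  have hi2 := integrable_pair hD hN hρ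
  have hiv1 := integrable_out hD hc hρ
  have hiv2 := integrable_out hD hN hρ
  have hint : ∫ p : G × G, ρ p.2 * (1 - Nf μ π q ρ p.1 (π (p.1 * p.2)))
      ∂((μ.restrict (D0 π)).prod μ) ≤ 0 := by
    have e1 : ∫ p : G × G, ρ p.2 * (1 - Nf μ π q ρ p.1 (π (p.1 * p.2)))
        ∂((μ.restrict (D0 π)).prod μ)
        = ∫ p : G × G, ρ p.2 * 1 ∂((μ.restrict (D0 π)).prod μ)
          - ∫ p : G × G, ρ p.2 * Nf μ π q ρ p.1 (π (p.1 * p.2)) ∂((μ.restrict (D0 π)).prod μ) := by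
      rw [← integral_sub hi1 hi2]
      congr 1
      funext p
      ring
    rw [e1, integral_prod _ hi1, integral_prod _ hi2]
    have e2 : ∫ v in D0 π, ∫ h, ρ h * 1 ∂μ ∂μ = dm μ π := by
      simp only [mul_one, hw.one]
      rw [setIntegral_const]
      simp [dm, Measure.real]
    have e3 : ∫ v in D0 π, ∫ h, ρ h * Nf μ π q ρ v (π (v * h)) ∂μ ∂μ
        = av μ π ρ (Nf μ π q (rk K κ x ρ 0)) := rfl
    simp only
    rw [e2, e3]
    exact h
  have hnn : ∀ p : G × G, 0 ≤ ρ p.2 * (1 - Nf μ π q ρ p.1 (π (p.1 * p.2))) := fun p =>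
    mul_nonneg (hw.nonneg _) (by linarith [hN1 p.1 (π (p.1 * p.2))])
  have hii : Integrable (fun p : G × G => ρ p.2 * (1 - Nf μ π q ρ p.1 (π (p.1 * p.2))))
      ((μ.restrict (D0 π)).prod μ) := by
    refine (hi1.sub hi2).congr (Filter.Eventually.of_forall fun p => ?_)
    simp only [Pi.sub_apply]
    ring
  have hz : ∫ p : G × G, ρ p.2 * (1 - Nf μ π q ρ p.1 (π (p.1 * p.2)))
      ∂((μ.restrict (D0 π)).prod μ) = 0 :=
    le_antisymm hint (integral_nonneg hnn)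
  have hae := (integral_eq_zero_iff_of_nonneg hnn hii).1 hz
  have hae2 := Measure.ae_ae_of_ae_prod hae
  -- the statement on the fundamental domain
  have hone : ∀ v h₀ : G, ρ h₀ * (1 - Nf μ π q ρ v (π (v * h₀))) = 0 → 0 < ρ h₀ →
      ∀ᵐ h₁ ∂μ, 0 < ρ h₁ → q (π (v * h₀)) = q (π (v * h₁)) := by
    intro v h₀ hh hp
    have hN0 : Nf μ π q ρ v (π (v * h₀)) = 1 := by
      rcases mul_eq_zero.1 hh with h | h
      · exact absurd h hp.ne'
      · linarith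
    have hg : Gf (fun (v : G) (γ : Γ) => eqi (q (π (v * h₀))) (q γ)) := by
      refine ⟨fun γ => ?_, ⟨1, fun v γ => ?_⟩, fun δ v γ => ?_⟩
      · have := hD.cnt
        have hme : Measurable (fun v : G => π (v * h₀)) := by
          refine measurable_to_countable' fun γ' => ?_
          have h2 : (fun v : G => π (v * h₀)) ⁻¹' {γ'} = (fun v : G => v * h₀) ⁻¹' (π ⁻¹' {γ'}) :=
            rfl
          rw [h2]
          exact (measurable_mul_const h₀) (hD.meas γ')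
        have h3 : (fun v : G => eqi (q (π (v * h₀))) (q γ))
            = (fun γ' : Γ => eqi (q γ') (q γ)) ∘ (fun v : G => π (v * h₀)) := rfl
        rw [h3]
        exact Measurable.of_discrete.comp hme
      · rw [abs_of_nonneg (eqi_nonneg _ _)]
        exact eqi_le_one _ _
      · rw [mul_assoc, hD.equiv]
        exact Mo.eqi hq δ _ _
    have hI1 : Integrable (fun h₁ => ρ h₁ * eqi (q (π (v * h₀))) (q (π (v * h₁)))) μ :=
      integrable_in hD hg hρ v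
    have hI2 : Integrable (fun h₁ => ρ h₁ * (1 - eqi (q (π (v * h₀))) (q (π (v * h₁))))) μ := by
      refine (hρ.sub hI1).congr (Filter.Eventually.of_forall fun p => ?_)
      simp only [Pi.sub_apply]
      ring
    have hJ : ∫ h₁, ρ h₁ * (1 - eqi (q (π (v * h₀))) (q (π (v * h₁)))) ∂μ = 0 := by
      have e1 : ∫ h₁, ρ h₁ * (1 - eqi (q (π (v * h₀))) (q (π (v * h₁)))) ∂μ
          = ∫ h₁, ρ h₁ ∂μ - ∫ h₁, ρ h₁ * eqi (q (π (v * h₀))) (q (π (v * h₁))) ∂μ := by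
        rw [← integral_sub hρ hI1]
        congr 1
        funext p
        ring
      have e2 : ∫ h₁, ρ h₁ * eqi (q (π (v * h₀))) (q (π (v * h₁))) ∂μ = 1 := hN0
      rw [e1, e2, hw.one, sub_self]
    have hn2 : ∀ h₁, 0 ≤ ρ h₁ * (1 - eqi (q (π (v * h₀))) (q (π (v * h₁)))) := fun h₁ =>
      mul_nonneg (hw.nonneg _) (by linarith [eqi_le_one (q (π (v * h₀))) (q (π (v * h₁)))])
    have hK := (integral_eq_zero_iff_of_nonneg hn2 hI2).1 hJ
    filter_upwards [hK] with h₁ hh1 hp1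
    simp only [Pi.zero_apply] at hh1
    by_contra hne
    unfold eqi at hh1
    rw [if_neg hne] at hh1
    linarith
  have hdom : ∀ᵐ v ∂(μ.restrict (D0 π)), ∀ᵐ h₀ ∂μ, ∀ᵐ h₁ ∂μ, 0 < ρ h₀ → 0 < ρ h₁ →
      q (π (v * h₀)) = q (π (v * h₁)) := by
    filter_upwards [hae2] with v hv
    filter_upwards [hv] with h₀ hh0
    by_cases hp : 0 < ρ h₀
    · filter_upwards [hone v h₀ hh0 hp] with h₁ hh1 _ b
      exact hh1 b
    · exact Filter.Eventually.of_forall fun h₁ a => absurd a hp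
  have hdom2 : μ ({v | ¬ ∀ᵐ h₀ ∂μ, ∀ᵐ h₁ ∂μ, 0 < ρ h₀ → 0 < ρ h₁ →
      q (π (v * h₀)) = q (π (v * h₁))} ∩ D0 π) = 0 := by
    rw [ae_iff, Measure.restrict_apply₀'  (meas_D0 hD).nullMeasurableSet] at hdom
    exact hdom
  rw [ae_iff]
  have hcn := hD.cnt
  refine measure_mono_null (t := ⋃ γ : Γ, (fun v : G => (γ : G) * v) ⁻¹'
    ({v | ¬ ∀ᵐ h₀ ∂μ, ∀ᵐ h₁ ∂μ, 0 < ρ h₀ → 0 < ρ h₁ →
      q (π (v * h₀)) = q (π (v * h₁))} ∩ D0 π)) ?_ ?_
  · intro v hv
    refine Set.mem_iUnion.2 ⟨(π v)⁻¹, ?_⟩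
    refine ⟨fun hcon => hv ?_, ?_⟩
    · have h5 := TriA_inv hD hq ρ (π v) _ hcon
      simpa using h5
    · show π (((π v)⁻¹ : Γ) * v) = 1
      rw [hD.equiv]
      simp
  · rw [measure_iUnion_null_iff]
    intro γ
    rw [measure_preimage_mul]
    exact hdom2

end SPN
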