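import Pool.Agent.SPN.Meg

/-! # Module TriB (difficulty 4): the case `nb_0 = 0`, second step (stabilizer is everything)

`St` is the set of `g` with `q (π (u g)) = q (π u)` for a.e. `u`. It is a subgroup (right multiplication by
`g` preserves `μ`, hence null sets). `U = {ρ > 0}` is open, contains `K` and `a_s`, `0 ≤ s ≤ 1`
(`hr.pos`, left invariance, `s = 0`). From `h`, substituting `u = v h₀` (for fixed `h₀`, `h₁` right
invariance; Fubini twice to reorder the quantifiers, the set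
`{(v, h₀, h₁) | q (π (v h₀)) = q (π (v h₁))}` is measurable since `Γ` is countable): for a.e. `h₀ ∈ U`,
a.e. `h₁ ∈ U`: `h₀⁻¹ h₁ ∈ St`. Fix one such `h₀` (`μ U > 0`: `μ` is positive on nonempty open sets): there is a
null set `N` with `h₀⁻¹ h₁ ∈ St` for `h₁ ∈ U \ N`, so `(U \ N)⁻¹ (U \ N) ⊆ St`. For `g ∈ U`: the set
`U ∩ U g⁻¹` is open and contains `1`, so it has positive measure and meets the complement of the null set
`N ∪ N g⁻¹`: there is `h` with `h, h g ∈ U \ N`, so `g = h⁻¹ (h g) ∈ St`. So `U ⊆ St`, `K ⊆ St`, `a_s ∈ St` for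
`s ∈ [0, 1]`, `a_s = (a_{s/m})^m ∈ St` for all `s ≥ 0`, and `G = K A K ⊆ St`.
`tri_c`: Fubini: for a.e. `u`, for a.e. `g`: `q (π (u g)) = q (π u)`. Fix such a `u`, substitute `z = u g`: for
a.e. `z`, `q (π z) = q (π u)`. The set `π ⁻¹' {γ} = γ D0 π` has positive measure for every `γ`, so
`q γ = q (π u)`. -/

open MeasureTheory

namespace SPN

variable {G : Type*} [Group G] [TopologicalSpace G] [IsTopologicalGroup G] [T2Space G]
  [LocallyCompactSpace G] [SecondCountableTopology G] [MeasurableSpace G] [BorelSpace G]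
  {μ : Measure G} [IsFiniteMeasureOnCompacts μ] [μ.IsMulLeftInvariant] [SigmaFinite μ]
  [μ.IsMulRightInvariant] [μ.IsOpenPosMeasure]
  {Γ : Subgroup G} {π : G → Γ} {X : Type*} [LinearOrder X] {q : Γ → X}
  {K : Subgroup G} {κ : Measure K} {xt : ℝ → G}

/-- `π` is measurable for the discrete measurable space on `Γ`. -/
private theorem trib_meas_pi (hD : Dm μ Γ π) (S : Set Γ) : MeasurableSet (π ⁻¹' S) := by
  have := hD.cnt
  have : π ⁻¹' S = ⋃ γ ∈ S, π ⁻¹' {γ} := by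
    ext v; simp
  rw [this]
  exact MeasurableSet.biUnion (Set.to_countable S) (fun γ _ => hD.meas γ)

/-- the relation `q (π a) = q (π b)` is measurable -/
private theorem trib_meas_rel (hD : Dm μ Γ π) (q : Γ → X) :
    MeasurableSet {p : G × G | q (π p.1) = q (π p.2)} := by
  have := hD.cnt
  have : {p : G × G | q (π p.1) = q (π p.2)}
      = ⋃ γ : Γ, (Prod.fst ⁻¹' (π ⁻¹' {γ})) ∩ (Prod.snd ⁻¹' (π ⁻¹' {δ | q γ = q δ})) := by
    ext p; simp
  rw [this]
  exact MeasurableSet.iUnion fun γ =>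
    ((trib_meas_pi hD _).preimage measurable_fst).inter
      ((trib_meas_pi hD _).preimage measurable_snd)

/-- the stabilizer -/
private def tribSt (μ : Measure G) (π : G → Γ) (q : Γ → X) (g : G) : Prop :=
  ∀ᵐ u ∂μ, q (π (u * g)) = q (π u)

private theorem trib_one : tribSt μ π q (1 : G) := by
  unfold tribSt
  simp

private theorem trib_mul {g g' : G} (h : tribSt μ π q g) (h' : tribSt μ π q g') :
    tribSt μ π q (g * g') := by
  unfold tribSt at *
  have h1 : ∀ᵐ u ∂μ, q (π (u * g * g')) = q (π (u * g)) :=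
    (measurePreserving_mul_right μ g).quasiMeasurePreserving.ae h'
  filter_upwards [h, h1] with u hu hu1
  rw [← mul_assoc, hu1, hu]

private theorem trib_inv {g : G} (h : tribSt μ π q g) : tribSt μ π q g⁻¹ := by
  unfold tribSt at *
  have h1 : ∀ᵐ u ∂μ, q (π (u * g⁻¹ * g)) = q (π (u * g⁻¹)) :=
    (measurePreserving_mul_right μ g⁻¹).quasiMeasurePreserving.ae h
  filter_upwards [h1] with u hu
  rw [inv_mul_cancel_right] at hu
  exact hu.symm

private theorem trib_pow {g : G} (h : tribSt μ π q g) (n : ℕ) : tribSt μ π q (g ^ n) := by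
  induction n with
  | zero => rw [pow_zero]; exact trib_one
  | succ n ih => rw [pow_succ]; exact trib_mul ih h

private theorem trib_xt_nat (hx : Ax K xt) (t : ℝ) (n : ℕ) : xt (n * t) = xt t ^ n := by
  induction n with
  | zero => simp [hx.zero]
  | succ n ih =>
    rw [pow_succ, ← ih, ← hx.add]
    congr 1
    push_cast
    ring

/-- reordering of the quantifiers -/
private theorem trib_swap (hD : Dm μ Γ π) {ρ : G → ℝ} (hρ : Continuous ρ)
    (h : ∀ᵐ v ∂μ, ∀ᵐ h₀ ∂μ, ∀ᵐ h₁ ∂μ, 0 < ρ h₀ → 0 < ρ h₁ →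
      q (π (v * h₀)) = q (π (v * h₁))) :
    ∀ᵐ h₀ ∂μ, ∀ᵐ h₁ ∂μ, 0 < ρ h₀ → 0 < ρ h₁ → tribSt μ π q (h₀⁻¹ * h₁) := by
  have hU : MeasurableSet {g : G | 0 < ρ g} := (isOpen_lt continuous_const hρ).measurableSet
  have hrel := trib_meas_rel (μ := μ) hD q
  -- the triple relation
  have hT : MeasurableSet {p : (G × G) × G | 0 < ρ p.1.2 → 0 < ρ p.2 →
      q (π (p.1.1 * p.1.2)) = q (π (p.1.1 * p.2))} := by
    have m1 : MeasurableSet {p : (G × G) × G | 0 < ρ p.1.2} :=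
      hU.preimage (measurable_snd.comp measurable_fst)
    have m2 : MeasurableSet {p : (G × G) × G | 0 < ρ p.2} := hU.preimage measurable_snd
    have m3 : MeasurableSet {p : (G × G) × G | q (π (p.1.1 * p.1.2)) = q (π (p.1.1 * p.2))} := by
      have hm : Measurable (fun p : (G × G) × G => ((p.1.1 * p.1.2, p.1.1 * p.2) : G × G)) := by
        fun_prop
      exact hrel.preimage hm
    exact m1.imp (m2.imp m3)
  have hQ : MeasurableSet {p : G × G | ∀ᵐ h₁ ∂μ, 0 < ρ p.2 → 0 < ρ h₁ →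
      q (π (p.1 * p.2)) = q (π (p.1 * h₁))} := by
    have hm := measurable_measure_prodMk_left (ν := μ) hT.compl
    have he : {p : G × G | ∀ᵐ h₁ ∂μ, 0 < ρ p.2 → 0 < ρ h₁ →
        q (π (p.1 * p.2)) = q (π (p.1 * h₁))}
        = (fun x : G × G => μ (Prod.mk x ⁻¹' {p : (G × G) × G | 0 < ρ p.1.2 → 0 < ρ p.2 →
      q (π (p.1.1 * p.1.2)) = q (π (p.1.1 * p.2))}ᶜ)) ⁻¹' {0} := by
      ext p
      rfl
    rw [he]
    exact hm (measurableSet_singleton 0)
  have h1 : ∀ᵐ h₀ ∂μ, ∀ᵐ v ∂μ, ∀ᵐ h₁ ∂μ, 0 < ρ h₀ → 0 < ρ h₁ →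
      q (π (v * h₀)) = q (π (v * h₁)) := (Measure.ae_ae_comm hQ).1 h
  filter_upwards [h1] with h₀ hh₀
  have hP : MeasurableSet {p : G × G | 0 < ρ h₀ → 0 < ρ p.2 →
      q (π (p.1 * h₀)) = q (π (p.1 * p.2))} := by
    have hm : Measurable (fun p : G × G => (((p.1, h₀), p.2) : (G × G) × G)) := by fun_prop
    exact hT.preimage hm
  have h2 : ∀ᵐ h₁ ∂μ, ∀ᵐ v ∂μ, 0 < ρ h₀ → 0 < ρ h₁ →
      q (π (v * h₀)) = q (π (v * h₁)) := (Measure.ae_ae_comm hP).1 hh₀
  filter_upwards [h2] with h₁ hh₁ p0 p1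
  have h3 : ∀ᵐ v ∂μ, 0 < ρ h₀ → 0 < ρ h₁ →
      q (π (v * h₀⁻¹ * h₀)) = q (π (v * h₀⁻¹ * h₁)) :=
    (measurePreserving_mul_right μ h₀⁻¹).quasiMeasurePreserving.ae hh₁
  unfold tribSt
  filter_upwards [h3] with v hv
  have := hv p0 p1
  rw [inv_mul_cancel_right] at this
  rw [this, mul_assoc]

theorem tri_b (hD : Dm μ Γ π) (hx : Ax K xt) {ρ : G → ℝ}
    (hw : Wk K κ μ (xt 1) ρ) (hr : Rh K xt ρ)
    (h : ∀ᵐ v ∂μ, ∀ᵐ h₀ ∂μ, ∀ᵐ h₁ ∂μ, 0 < ρ h₀ → 0 < ρ h₁ →
      q (π (v * h₀)) = q (π (v * h₁))) :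
    ∀ g : G, ∀ᵐ u ∂μ, q (π (u * g)) = q (π u) := by
  have hρ : Continuous ρ := hw.bk.cont
  have hopen : IsOpen {g : G | 0 < ρ g} := isOpen_lt continuous_const hρ
  have h1U : 0 < ρ (1 : G) := by
    have := hr.pos 0 le_rfl zero_le_one
    rwa [hx.zero] at this
  have hsw := trib_swap hD hρ h
  -- a good `h₀`
  obtain ⟨h₀, hh₀U, hh₀⟩ : ∃ h₀, 0 < ρ h₀ ∧
      ∀ᵐ h₁ ∂μ, 0 < ρ h₀ → 0 < ρ h₁ → tribSt μ π q (h₀⁻¹ * h₁) := by
    by_contra hcon
    have hpos : 0 < μ {g : G | 0 < ρ g} := hopen.measure_pos μ ⟨1, h1U⟩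
    have hzero : μ {g : G | 0 < ρ g} = 0 := by
      refine measure_mono_null (fun g hg => ?_) hsw
      intro hc
      exact hcon ⟨g, hg, hc⟩
    exact hpos.ne' hzero
  have hN : ∀ᵐ h₁ ∂μ, 0 < ρ h₁ → tribSt μ π q (h₀⁻¹ * h₁) := by
    filter_upwards [hh₀] with h₁ hh₁ using hh₁ hh₀U
  -- `U ⊆ St`
  have hUSt : ∀ g : G, 0 < ρ g → tribSt μ π q g := by
    intro g hg
    have hN' : ∀ᵐ h₁ ∂μ, 0 < ρ (h₁ * g) → tribSt μ π q (h₀⁻¹ * (h₁ * g)) :=
      (measurePreserving_mul_right μ g).quasiMeasurePreserving.ae hN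
    have hopen' : IsOpen {g' : G | 0 < ρ g' ∧ 0 < ρ (g' * g)} := by
      have h2 : IsOpen {g' : G | 0 < ρ (g' * g)} :=
        isOpen_lt continuous_const (hρ.comp (continuous_mul_const g))
      exact hopen.inter h2
    obtain ⟨k, ⟨hk1, hk2⟩, hk3, hk4⟩ : ∃ k, (0 < ρ k ∧ 0 < ρ (k * g)) ∧
        (0 < ρ k → tribSt μ π q (h₀⁻¹ * k)) ∧
        (0 < ρ (k * g) → tribSt μ π q (h₀⁻¹ * (k * g))) := by
      by_contra hcon
      have hpos : 0 < μ {g' : G | 0 < ρ g' ∧ 0 < ρ (g' * g)} :=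
        hopen'.measure_pos μ ⟨1, h1U, by simpa using hg⟩
      have hzero : μ {g' : G | 0 < ρ g' ∧ 0 < ρ (g' * g)} = 0 := by
        refine measure_mono_null (fun k hk => ?_) (hN.and hN')
        intro hk'
        exact hcon ⟨k, hk, hk'.1, hk'.2⟩
      exact hpos.ne' hzero
    have e : g = (h₀⁻¹ * k)⁻¹ * (h₀⁻¹ * (k * g)) := by group
    rw [e]
    exact trib_mul (trib_inv (hk3 hk1)) (hk4 hk2)
  have hKSt : ∀ k ∈ K, tribSt μ π q k := by
    intro k hk
    apply hUSt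
    have := hw.bk.left k hk 1
    rw [mul_one] at this
    rw [this]
    exact h1U
  have hASt : ∀ s : ℝ, 0 ≤ s → tribSt μ π q (xt s) := by
    intro s hs
    obtain ⟨m, hm⟩ := exists_nat_gt s
    have hm0 : (0 : ℝ) < m := lt_of_le_of_lt hs hm
    have e : xt s = xt (s / m) ^ m := by
      rw [← trib_xt_nat hx]
      congr 1
      field_simp
    rw [e]
    apply trib_pow
    apply hUSt
    exact hr.pos _ (by positivity) ((div_le_one hm0).2 hm.le)
  intro g
  obtain ⟨k, hk, s, hs, k', hk', rfl⟩ := hx.kak g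
  exact trib_mul (trib_mul (hKSt k hk) (hASt s hs)) (hKSt k' hk')

theorem tri_c (hD : Dm μ Γ π) (hd : 0 < dm μ π)
    (h : ∀ g : G, ∀ᵐ u ∂μ, q (π (u * g)) = q (π u)) (γ : Γ) : q γ = q 1 := by
  have hrel := trib_meas_rel (μ := μ) hD q
  have h1 : ∀ᵐ g ∂μ, ∀ᵐ u ∂μ, q (π (u * g)) = q (π u) := Filter.Eventually.of_forall h
  have hm : MeasurableSet {p : G × G | q (π (p.2 * p.1)) = q (π p.2)} := by
    have hm : Measurable (fun p : G × G => ((p.2 * p.1, p.2) : G × G)) := by fun_prop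
    exact hrel.preimage hm
  have h2 : ∀ᵐ u ∂μ, ∀ᵐ g ∂μ, q (π (u * g)) = q (π u) := (Measure.ae_ae_comm hm).1 h1
  have : Filter.NeBot (ae μ) := by
    rw [ae_neBot]
    intro h0
    have : (0 : ENNReal) < μ Set.univ := isOpen_univ.measure_pos μ ⟨1, trivial⟩
    rw [h0] at this
    simp at this
  obtain ⟨u, hu⟩ := h2.exists
  have h3 : ∀ᵐ z ∂μ, q (π (u * (u⁻¹ * z))) = q (π u) :=
    (measurePreserving_mul_left μ u⁻¹).quasiMeasurePreserving.ae hu
  have h4 : ∀ᵐ z ∂μ, q (π z) = q (π u) := by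
    filter_upwards [h3] with z hz
    rwa [mul_inv_cancel_left] at hz
  have hD0 : 0 < μ (D0 π) := by
    unfold dm at hd
    exact (ENNReal.toReal_pos_iff.1 hd).1
  have key : ∀ δ : Γ, q δ = q (π u) := by
    intro δ
    by_contra hne
    have hmeas : μ (π ⁻¹' {δ}) = μ (D0 π) := by
      have : π ⁻¹' {δ} = (fun v : G => ((δ : G)⁻¹ * v)) ⁻¹' (D0 π) := by
        ext v
        have he := hD.equiv δ⁻¹ v
        simp only [Set.mem_preimage, Set.mem_singleton_iff, D0]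
        have he' : π ((δ : G)⁻¹ * v) = δ⁻¹ * π v := by
          rw [← he]
          simp
        rw [he', inv_mul_eq_one]
        exact eq_comm
      rw [this, measure_preimage_mul]
    have hz : μ (π ⁻¹' {δ}) = 0 := by
      refine measure_mono_null (fun z hz => ?_) h4
      intro hz'
      apply hne
      have : π z = δ := hz
      rw [← this]
      exact hz'
    rw [hmeas] at hz
    exact hD0.ne' hz
  rw [key γ, key 1]

end SPN
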