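import Pool.Agent.SPN.AOne
import Pool.Agent.SPN.ATwo
import Pool.Agent.SPN.TriA
import Pool.Agent.SPN.TriB
import Pool.Agent.SPN.LowA
import Pool.Agent.SPN.LowB
import Pool.Agent.SPN.LowC

/-! # Module MainA (difficulty 2): the abstract main theorem

PROOF. Let `x = xt 1`. If `0 < nb 0`: apply `end_contra` with `A N = av ρ (SNv N)`, `B N = av ρ (Sf (mk N) ^ 2)`,
`E N = av ρ |Sf (mk N)|`, `c = nb 0 / 4`, `d = dm`, `C` from `a_one`: `h1` is `upper`, `h2` is `low_sum` (with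
`t k j = T1 (rk k) ρ (rk j)`, `s j k = T1 ρ (rk j) (rk k)`, `c = nb 0`; `h0` from `T1_rk_abs` with `ρ = rk 0`, `h1`
from `T1_pair` and `nb_le`, `h2` from `T1_sum_le`) and `av_SNv`, `h3` is `a_two`, `h4` is `av_cs` with `∫ ρ = 1`.
`A 0 = 0`: `SNv 0 = 0`. So `nb 0 ≤ 0` and `tri_a`, `tri_b`, `tri_c`. -/

open MeasureTheory

namespace SPN

variable {G : Type*} [Group G] [TopologicalSpace G] [IsTopologicalGroup G] [T2Space G]
  [LocallyCompactSpace G] [SecondCountableTopology G] [MeasurableSpace G] [BorelSpace G]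
  {μ : Measure G} [IsFiniteMeasureOnCompacts μ] [μ.IsMulLeftInvariant] [SigmaFinite μ]
  [μ.IsMulRightInvariant] [μ.IsInvInvariant] [μ.IsOpenPosMeasure] {Γ : Subgroup G} {π : G → Γ}
  {X : Type*} [LinearOrder X] {q : Γ → X} {K : Subgroup G} {κ : Measure K} {xt : ℝ → G}

theorem main_a (hD : Dm μ Γ π) (hd : 0 < dm μ π) (hq : Mo q) (hx : Ax K xt) {ρ : G → ℝ}
    (hw : Wk K κ μ (xt 1) ρ) (hr : Rh K xt ρ) {F : ℕ → G → Γ → ℝ}
    (he : En μ π q K κ xt ρ F) (γ : Γ) : q γ = q 1 := by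
  by_cases hnb : nb μ π q K κ (xt 1) ρ 0 ≤ 0
  · exact tri_c hD hd (tri_b hD hx hw hr (tri_a hD hq hw hnb)) γ
  exfalso
  push Not at hnb
  obtain ⟨C, hA⟩ := a_one hD hq hx hw hr he
  have hρ : Integrable ρ μ := hw.bk.integrable
  have hmk : ∀ N, Integrable (mk K κ (xt 1) ρ N) μ := fun N => (mk_bk hw N).integrable
  have hA0 : av μ π ρ (fun v γ => SNv K κ (xt 1) (fun u => Sf μ π q ρ u γ) 0 v) = 0 := by
    simp [av, SNv]
  refine end_contra (A := fun N => av μ π ρ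
      (fun v γ => SNv K κ (xt 1) (fun u => Sf μ π q ρ u γ) N v))
    (B := fun N => av μ π ρ (fun v γ => Sf μ π q (mk K κ (xt 1) ρ N) v γ ^ 2))
    (E := fun N => av μ π ρ (fun v γ => |Sf μ π q (mk K κ (xt 1) ρ N) v γ|))
    (C := C) (d := dm μ π) (c := nb μ π q K κ (xt 1) ρ 0 / 4)
    (by linarith) hd.le hA0 (fun n => upper hD hq hw hA n) (fun N hN => ?_)
    (a_two hD hd hq hx hw hr he) (fun N => ?_)
  · have h1 := low_sum (t := fun k j => T1 μ π q (rk K κ (xt 1) ρ k) ρ (rk K κ (xt 1) ρ j))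
      (s := fun j k => T1 μ π q ρ (rk K κ (xt 1) ρ j) (rk K κ (xt 1) ρ k))
      (E := fun N => av μ π ρ (fun v γ => |Sf μ π q (mk K κ (xt 1) ρ N) v γ|))
      (c := nb μ π q K κ (xt 1) ρ 0) (d := dm μ π) hnb.le hd.le
      (fun M => av_nonneg hw.nonneg (fun v γ => abs_nonneg _))
      (fun j => (abs_le.1 (T1_rk_abs hD hq hw 0 0 j)).1)
      (fun k j => ?_) (fun k M hM => T1_sum_le hD hq hw k M hM) N hN
    · exact h1.trans (av_SNv hD hq hw N)
    · have h2 := T1_pair hD hq hw k j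
      have h3 := nb_le hD hq hw j
      show nb μ π q K κ (xt 1) ρ 0 / 2 - T1 μ π q ρ (rk K κ (xt 1) ρ j) (rk K κ (xt 1) ρ k)
        ≤ T1 μ π q (rk K κ (xt 1) ρ k) ρ (rk K κ (xt 1) ρ j)
          + T1 μ π q (rk K κ (xt 1) ρ j) ρ (rk K κ (xt 1) ρ k)
      linarith
  · have h1 := av_cs hD hρ hw.nonneg (Gf_Sf hD hq (hmk N))
    rw [hw.one, mul_one] at h1
    exact h1

end SPN
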