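import Mathlib

/-! # SPN: abstract definitions

`G` is a unimodular group with Haar measure `μ`, `Γ` a countable subgroup with a strict measurable
fundamental domain `D0 π = π ⁻¹' {1}` of finite measure (`π (γ g) = γ π g`), `q : Γ → X` an
equivariant (order preserving) map to a linear order. Functions `g : G → Γ → ℝ` stand for functions
of a point `v : G` and a position `q γ`. -/

open MeasureTheory

namespace SPN

section ord

variable {X : Type*} [LinearOrder X]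

/-- sign of `s - t` -/
noncomputable def sg (s t : X) : ℝ := (if t ≤ s then 1 else 0) - (if s ≤ t then 1 else 0)

/-- indicator of `s = t` -/
noncomputable def eqi (s t : X) : ℝ := if s = t then 1 else 0

end ord

section dm

variable {G : Type*} [Group G] [MeasurableSpace G]

/-- a countable subgroup with the strict measurable fundamental domain `π ⁻¹' {1}` of finite
measure -/
structure Dm (μ : Measure G) (Γ : Subgroup G) (π : G → Γ) : Prop where
  cnt : Countable Γ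
  meas : ∀ γ, MeasurableSet (π ⁻¹' {γ})
  equiv : ∀ (γ : Γ) (g : G), π (γ * g) = γ * π g
  fin : μ (π ⁻¹' {1}) < ⊤

variable {Γ : Subgroup G}

/-- the fundamental domain -/
def D0 (π : G → Γ) : Set G := π ⁻¹' {1}

/-- the measure of the fundamental domain -/
noncomputable def dm (μ : Measure G) (π : G → Γ) : ℝ := (μ (D0 π)).toReal

/-- order preserving equivariant position map -/
structure Mo {X : Type*} [LinearOrder X] (q : Γ → X) : Prop where
  mono : ∀ γ a b : Γ, q a ≤ q b → q (γ * a) ≤ q (γ * b)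

/-- bounded measurable invariant functions -/
structure Gf (g : G → Γ → ℝ) : Prop where
  meas : ∀ γ, Measurable (fun v => g v γ)
  bdd : ∃ C, ∀ v γ, |g v γ| ≤ C
  inv : ∀ (δ : Γ) (v : G) (γ : Γ), g (δ * v) (δ * γ) = g v γ

variable (μ : Measure G) (π : G → Γ)

/-- `⟨g⟩_a = ∫_{v ∈ D} ∫_h a(h) g(v, π(v h))` -/
noncomputable def av (a : G → ℝ) (g : G → Γ → ℝ) : ℝ :=
  ∫ v in D0 π, ∫ h, a h * g v (π (v * h)) ∂μ ∂μ

variable {X : Type*} [LinearOrder X] (q : Γ → X)

/-- `S_b(v, x) = ∫ b(h) sg(x, p(v h)) dh`, `x = q γ` -/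
noncomputable def Sf (b : G → ℝ) (v : G) (γ : Γ) : ℝ :=
  ∫ h, b h * sg (q γ) (q (π (v * h))) ∂μ

/-- `N_b(v, x) = ∫ b(h) 1[p(v h) = x] dh`, `x = q γ` -/
noncomputable def Nf (b : G → ℝ) (v : G) (γ : Γ) : ℝ :=
  ∫ h, b h * eqi (q γ) (q (π (v * h))) ∂μ

/-- `T'(a; b, c)` -/
noncomputable def T1 (a b c : G → ℝ) : ℝ :=
  av μ π a (fun v γ => Sf μ π q b v γ * Sf μ π q c v γ)

/-- `N'(a; b, c)` -/
noncomputable def N1 (a b c : G → ℝ) : ℝ :=
  av μ π a (fun v γ => Nf μ π q b v γ * Nf μ π q c v γ)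

/-- `T(a; b, c) = T' + N' / 3` -/
noncomputable def TT (a b c : G → ℝ) : ℝ := T1 μ π q a b c + N1 μ π q a b c / 3

end dm

section walk

variable {G : Type*} [Group G] [MeasurableSpace G] (K : Subgroup G) (κ : Measure K)

/-- `(P g)(v) = ∫_K g(v k x) dk` -/
noncomputable def Pv (x : G) (g : G → ℝ) (v : G) : ℝ := ∫ k : K, g (v * k * x) ∂κ

/-- the same operator on kernels: `∫_K b(x⁻¹ k⁻¹ h) dk` -/
noncomputable def Pk (x : G) (b : G → ℝ) (h : G) : ℝ := ∫ k : K, b (x⁻¹ * (k : G)⁻¹ * h) ∂κ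

/-- invariant probability measure on `K` -/
structure Kp : Prop where
  prob : IsProbabilityMeasure κ
  left : κ.IsMulLeftInvariant
  right : κ.IsMulRightInvariant
  inv : κ.IsInvInvariant

/-- kernels: continuous, compactly supported, left `K`-invariant -/
structure Bk [TopologicalSpace G] (b : G → ℝ) : Prop where
  cont : Continuous b
  supp : HasCompactSupport b
  left : ∀ k ∈ K, ∀ h, b (k * h) = b h

/-- second moment of the sum of `f` along the walk -/
noncomputable def SNv (x : G) (f : G → ℝ) : ℕ → G → ℝ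
  | 0 => fun _ => 0
  | N + 1 => fun v => f v ^ 2
      + 2 * f v * Pv K κ x (fun u => ∑ k ∈ Finset.range N, (Pv K κ x)^[k] f u) v
      + Pv K κ x (SNv x f N) v

/-- `∫_K (b(v k x) - b(v))^2 dk` -/
noncomputable def grv (x : G) (b : G → ℝ) (v : G) : ℝ := ∫ k : K, (b (v * k * x) - b v) ^ 2 ∂κ

/-- `ρ_j = P^j ρ` -/
noncomputable def rk (x : G) (ρ : G → ℝ) (j : ℕ) : G → ℝ := (Pk K κ x)^[j] ρ

/-- `m_n = ∑_{j < n} ρ_j` -/
noncomputable def mk (x : G) (ρ : G → ℝ) (n : ℕ) (h : G) : ℝ :=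
  ∑ j ∈ Finset.range n, rk K κ x ρ j h

/-- the data of the walk: the compact group `K` with its invariant probability measure, the step
`x` (conjugate to `x⁻¹` under `K`) and the density `ρ` -/
structure Wk [TopologicalSpace G] (μ : Measure G) (x : G) (ρ : G → ℝ) : Prop where
  kp : Kp K κ
  cpt : IsCompact (K : Set G)
  weyl : ∃ w ∈ K, w * x * w⁻¹ = x⁻¹
  bk : Bk K ρ
  nonneg : ∀ h, 0 ≤ ρ h
  one : ∫ h, ρ h ∂μ = 1

/-- bounded measurable functions on `G` -/
structure Bm (f : G → ℝ) : Prop where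
  meas : Measurable f
  bdd : ∃ C, ∀ v, |f v| ≤ C

end walk

section ax

variable {G : Type*} [Group G] [TopologicalSpace G]

/-- the one parameter group `a_t` and the Cartan decomposition `G = K A K` -/
structure Ax (K : Subgroup G) (xt : ℝ → G) : Prop where
  cont : Continuous xt
  zero : xt 0 = 1
  add : ∀ s t, xt (s + t) = xt s * xt t
  weyl : ∃ w ∈ K, ∀ s, w * xt s * w⁻¹ = (xt s)⁻¹
  kak : ∀ g, ∃ k ∈ K, ∃ s, 0 ≤ s ∧ ∃ k' ∈ K, g = k * xt s * k'
  proper : ∀ L, IsCompact L →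
    ∃ S : ℝ, ∀ k ∈ K, ∀ k' ∈ K, ∀ s, 0 ≤ s → k * xt s * k' ∈ L → s ≤ S

/-- the density is bi-`K`-invariant and positive on the ball of radius 1 -/
structure Rh (K : Subgroup G) (xt : ℝ → G) (ρ : G → ℝ) : Prop where
  right : ∀ k ∈ K, ∀ h, ρ (h * k) = ρ h
  pos : ∀ s, 0 ≤ s → s ≤ 1 → 0 < ρ (xt s)

/-- energy data: `F n` is (a bound of) the square of the gradient of `S_{m_n}` -/
structure En [MeasurableSpace G] {X : Type*} [LinearOrder X] (μ : Measure G) {Γ : Subgroup G}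
    (π : G → Γ) (q : Γ → X) (K : Subgroup G) (κ : Measure K) (xt : ℝ → G) (ρ : G → ℝ)
    (F : ℕ → G → Γ → ℝ) : Prop where
  gf : ∀ n, Gf (F n)
  nonneg : ∀ n v γ, 0 ≤ F n v γ
  right : ∀ n v γ, ∀ k ∈ K, F n (v * k) γ = F n v γ
  incr : ∀ n v γ s, 0 ≤ s →
    (Sf μ π q (mk K κ (xt 1) ρ n) (v * xt s) γ - Sf μ π q (mk K κ (xt 1) ρ n) v γ) ^ 2
      ≤ s * ∫ u in (0)..s, F n (v * xt u) γ
  energy : ∃ C, ∀ r n : ℕ, r ≤ n → av μ π (mk K κ (xt 1) ρ n) (F r) ≤ C * n

/-- `nb_j`: the mean probability that `p(v h) ≠ p(v h')`, `h ~ ρ`, `h' ~ ρ_j` -/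
noncomputable def nb [MeasurableSpace G] {X : Type*} [LinearOrder X] (μ : Measure G)
    {Γ : Subgroup G} (π : G → Γ) (q : Γ → X) (K : Subgroup G) (κ : Measure K) (x : G)
    (ρ : G → ℝ) (j : ℕ) : ℝ :=
  dm μ π - av μ π ρ (Nf μ π q (rk K κ x ρ j))

end ax

section ld

variable {G : Type*} [Group G] [MeasurableSpace G]

/-- `b'` is the derivative in `L¹` at `t = 0` of `t ↦ b (x(t)⁻¹ ·)` -/
def LD (μ : Measure G) (x : ℝ → G) (b b' : G → ℝ) : Prop :=
  Filter.Tendsto (fun t : ℝ => (∫ h, |b ((x t)⁻¹ * h) - b h - t * b' h| ∂μ) / |t|)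
    (nhdsWithin 0 {0}ᶜ) (nhds 0)

end ld

end SPN
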