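import Mathlib

/-! # Module Par (difficulty 4): parametric integrals of smooth functions

`par_hasFDerivAt`: `hasFDerivAt_integral_of_dominated_of_fderiv_le` on a ball around `v`: the derivative of
`v ↦ A k (f (c k + M k v))` is `(A k).comp ((fderiv ℝ f (c k + M k v)).comp (M k))`, jointly continuous in `(k, v)`.
`V` is finite dimensional, so a closed ball around `v` is compact, `T` is compact, and the norm of the
derivative is bounded on `T × closedBall v 1` by a constant. Measurability: continuous functions on `T`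
(`Continuous.aestronglyMeasurable`, `T` second countable), integrable since bounded (`ν` finite).
`par_contDiff`: show `ContDiff ℝ n` for all natural `n` (`contDiff_infty`) by induction on `n`, for all
`F F' f A` (universe 0): `contDiff_succ_iff_fderiv` or `contDiff_succ_iff_hasFDerivAt`: the derivative is again
an integral of this form, with `F` replaced by `W →L[ℝ] F` (`fderiv ℝ f`), `F'` by `V →L[ℝ] F'` and `A k` by the
map `T ↦ (A k).comp (T.comp (M k))`, which is continuous in `k`
(`ContinuousLinearMap.compL`, `(ContinuousLinearMap.compL ℝ V W F').flip (M k)` etc.). Base case: continuity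
(`continuous_parametric_integral_of_continuous`-like, or from differentiability).
`par_interval`: apply `par_contDiff` and `par_hasFDerivAt` with `T = Set.Icc (0:ℝ) 1`, the measure
`volume.comap Subtype.val`, `W = ℝ × V`, `c s = (s, 0)`, `M s v = (0, v)`, `A s = w s • id`
(`intervalIntegral.integral_of_le`, `integral_Icc_eq_integral_Ioc`, `integral_subtype_comap`). -/

open MeasureTheory
open scoped ContDiff

namespace SPN

variable {T : Type} [TopologicalSpace T] [CompactSpace T] [SecondCountableTopology T]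
  [MeasurableSpace T] [OpensMeasurableSpace T] (ν : Measure T) [IsFiniteMeasure ν]
  {V W F F' : Type} [NormedAddCommGroup V] [NormedSpace ℝ V] [FiniteDimensional ℝ V]
  [NormedAddCommGroup W] [NormedSpace ℝ W] [FiniteDimensional ℝ W]
  [NormedAddCommGroup F] [NormedSpace ℝ F] [FiniteDimensional ℝ F]
  [NormedAddCommGroup F'] [NormedSpace ℝ F'] [FiniteDimensional ℝ F']

theorem par_hasFDerivAt {f : W → F} (hf : ContDiff ℝ ∞ f) {c : T → W} (hc : Continuous c)
    {M : T → V →L[ℝ] W} (hM : Continuous M) {A : T → F →L[ℝ] F'} (hA : Continuous A) (v : V) :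
    HasFDerivAt (fun v => ∫ k, A k (f (c k + M k v)) ∂ν)
      (∫ k, (A k).comp ((fderiv ℝ f (c k + M k v)).comp (M k)) ∂ν) v := by
  have hf1 : Continuous (fderiv ℝ f) := hf.continuous_fderiv (by simp)
  have hf0 : Continuous f := hf.continuous
  have hG : Continuous (fun p : V × T =>
      (A p.2).comp ((fderiv ℝ f (c p.2 + M p.2 p.1)).comp (M p.2))) := by
    fun_prop
  obtain ⟨C, hC⟩ := ((isCompact_closedBall v 1).prod (isCompact_univ (X := T))).exists_bound_of_continuousOn
    hG.continuousOn
  refine hasFDerivAt_integral_of_dominated_of_fderiv_le (𝕜 := ℝ)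
    (F := fun v k => A k (f (c k + M k v)))
    (F' := fun v k => (A k).comp ((fderiv ℝ f (c k + M k v)).comp (M k)))
    (s := Metric.ball v 1) (bound := fun _ => C) (Metric.ball_mem_nhds v one_pos)
    ?_ ?_ ?_ ?_ (integrable_const C) ?_
  · refine Filter.Eventually.of_forall (fun v => ?_)
    have h : Continuous (fun k => A k (f (c k + M k v))) := by fun_prop
    exact h.aestronglyMeasurable
  · have h : Continuous (fun k => A k (f (c k + M k v))) := by fun_prop
    exact h.integrable_of_hasCompactSupport (HasCompactSupport.of_compactSpace _)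
  · have h : Continuous (fun k => (A k).comp ((fderiv ℝ f (c k + M k v)).comp (M k))) := by
      fun_prop
    exact h.aestronglyMeasurable
  · exact Filter.Eventually.of_forall (fun k x hx =>
      hC (x, k) ⟨Metric.ball_subset_closedBall hx, Set.mem_univ _⟩)
  · refine Filter.Eventually.of_forall (fun k x hx => ?_)
    have h1 : HasFDerivAt f (fderiv ℝ f (c k + M k x)) (c k + M k x) :=
      (hf.differentiable (by simp) _).hasFDerivAt
    have h2 : HasFDerivAt (fun v => c k + M k v) (M k) x := ((M k).hasFDerivAt).const_add _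
    exact (A k).hasFDerivAt.comp x (h1.comp x h2)

private theorem par_aux {c : T → W} (hc : Continuous c) {M : T → V →L[ℝ] W} (hM : Continuous M)
    (n : ℕ) : ∀ {F F' : Type} [NormedAddCommGroup F] [NormedSpace ℝ F] [FiniteDimensional ℝ F]
      [NormedAddCommGroup F'] [NormedSpace ℝ F'] [FiniteDimensional ℝ F'] {f : W → F}
      (_ : ContDiff ℝ ∞ f) {A : T → F →L[ℝ] F'} (_ : Continuous A),
      ContDiff ℝ n (fun v => ∫ k, A k (f (c k + M k v)) ∂ν) := by
  induction n with
  | zero =>
    intro F F' _ _ _ _ _ _ f hf A hA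
    rw [Nat.cast_zero, contDiff_zero, continuous_iff_continuousAt]
    intro v
    exact (par_hasFDerivAt ν hf hc hM hA v).continuousAt
  | succ n ih =>
    intro F F' _ _ _ _ _ _ f hf A hA
    rw [Nat.cast_succ, contDiff_succ_iff_hasFDerivAt]
    refine ⟨fun v => ∫ k, (A k).comp ((fderiv ℝ f (c k + M k v)).comp (M k)) ∂ν, ?_,
      fun v => par_hasFDerivAt ν hf hc hM hA v⟩
    have h1 : ContDiff ℝ ∞ (fderiv ℝ f) := (contDiff_infty_iff_fderiv.1 hf).2
    have h2 : Continuous (fun k => (ContinuousLinearMap.compL ℝ V F F' (A k)).comp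
        ((ContinuousLinearMap.compL ℝ V W F).flip (M k))) := by fun_prop
    exact ih h1 h2

theorem par_contDiff {f : W → F} (hf : ContDiff ℝ ∞ f) {c : T → W} (hc : Continuous c)
    {M : T → V →L[ℝ] W} (hM : Continuous M) {A : T → F →L[ℝ] F'} (hA : Continuous A) :
    ContDiff ℝ ∞ (fun v => ∫ k, A k (f (c k + M k v)) ∂ν) := by
  rw [contDiff_infty]
  intro n
  exact par_aux ν hc hM n hf hA

private noncomputable abbrev pnu : Measure (Set.Icc (0:ℝ) 1) :=
  Measure.comap Subtype.val volume

private instance pnu_fin : IsFiniteMeasure pnu := by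
  constructor
  rw [pnu, Measure.comap_apply _ Subtype.val_injective
    (fun s hs => measurableSet_Icc.subtype_image hs) _ MeasurableSet.univ,
    Set.image_univ, Subtype.range_coe]
  exact measure_Icc_lt_top

private theorem pnu_int {E : Type*} [NormedAddCommGroup E] [NormedSpace ℝ E] (g : ℝ → E) :
    ∫ s in (0:ℝ)..1, g s = ∫ s : Set.Icc (0:ℝ) 1, g s ∂pnu := by
  rw [intervalIntegral.integral_of_le zero_le_one, ← integral_Icc_eq_integral_Ioc,
    ← integral_subtype_comap measurableSet_Icc]

theorem par_interval {f : ℝ → V → ℝ} (hf : ContDiff ℝ ∞ (fun p : ℝ × V => f p.1 p.2))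
    {w : ℝ → ℝ} (hw : ContinuousOn w (Set.Icc 0 1)) :
    ContDiff ℝ ∞ (fun v => ∫ s in (0)..1, w s * f s v) := by
  have hw' : Continuous (fun s : Set.Icc (0:ℝ) 1 => w s) := continuousOn_iff_continuous_domRestrict.1 hw
  have h := par_contDiff (T := Set.Icc (0:ℝ) 1) (V := V) (W := ℝ × V) (F := ℝ) (F' := ℝ) pnu hf
    (c := fun s => ((s : ℝ), (0 : V))) (by fun_prop)
    (M := fun _ => ContinuousLinearMap.inr ℝ ℝ V) (by fun_prop)
    (A := fun s => (w s) • ContinuousLinearMap.id ℝ ℝ) (hw'.smul continuous_const)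
  have he : (fun v => ∫ s in (0:ℝ)..1, w s * f s v) = fun v => ∫ s : Set.Icc (0:ℝ) 1,
      (w s • ContinuousLinearMap.id ℝ ℝ) (f ((((s : ℝ), (0 : V)) +
        ContinuousLinearMap.inr ℝ ℝ V v) : ℝ × V).1 ((((s : ℝ), (0 : V)) +
        ContinuousLinearMap.inr ℝ ℝ V v) : ℝ × V).2) ∂pnu := by
    funext v
    rw [pnu_int]
    simp
  rw [he]
  exact h

theorem par_interval_fderiv {f : ℝ → V → ℝ} (hf : ContDiff ℝ ∞ (fun p : ℝ × V => f p.1 p.2))
    {w : ℝ → ℝ} (hw : ContinuousOn w (Set.Icc 0 1)) (v u : V) :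
    fderiv ℝ (fun v => ∫ s in (0)..1, w s * f s v) v u
      = ∫ s in (0)..1, w s * fderiv ℝ (f s) v u := by
  have hw' : Continuous (fun s : Set.Icc (0:ℝ) 1 => w s) := continuousOn_iff_continuous_domRestrict.1 hw
  have hf1 : Continuous (fderiv ℝ (fun p : ℝ × V => f p.1 p.2)) := hf.continuous_fderiv (by simp)
  have h := par_hasFDerivAt (T := Set.Icc (0:ℝ) 1) (V := V) (W := ℝ × V) (F := ℝ) (F' := ℝ) pnu hf
    (c := fun s => ((s : ℝ), (0 : V))) (by fun_prop)
    (M := fun _ => ContinuousLinearMap.inr ℝ ℝ V) (by fun_prop)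
    (A := fun s => (w s) • ContinuousLinearMap.id ℝ ℝ) (hw'.smul continuous_const) v
  have he : (fun v => ∫ s in (0:ℝ)..1, w s * f s v) = fun v => ∫ s : Set.Icc (0:ℝ) 1,
      (w s • ContinuousLinearMap.id ℝ ℝ) (f ((((s : ℝ), (0 : V)) +
        ContinuousLinearMap.inr ℝ ℝ V v) : ℝ × V).1 ((((s : ℝ), (0 : V)) +
        ContinuousLinearMap.inr ℝ ℝ V v) : ℝ × V).2) ∂pnu := by
    funext v
    rw [pnu_int]
    simp
  rw [he, h.fderiv, ContinuousLinearMap.integral_apply, pnu_int]
  · refine integral_congr_ae (Filter.Eventually.of_forall (fun s => ?_))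
    have h1 : HasFDerivAt (fun p : ℝ × V => f p.1 p.2)
        (fderiv ℝ (fun p : ℝ × V => f p.1 p.2) ((s : ℝ), v)) ((s : ℝ), v) :=
      (hf.differentiable (by simp) _).hasFDerivAt
    have h2 : HasFDerivAt (fun v : V => ((s : ℝ), v)) (ContinuousLinearMap.inr ℝ ℝ V) v :=
      hasFDerivAt_prodMk_right _ _
    have h3 : HasFDerivAt (f s) ((fderiv ℝ (fun p : ℝ × V => f p.1 p.2) ((s : ℝ), v)).comp
        (ContinuousLinearMap.inr ℝ ℝ V)) v := h1.comp v h2
    simp [h3.fderiv]
  · have hc : Continuous (fun s : Set.Icc (0:ℝ) 1 => ((w s) • ContinuousLinearMap.id ℝ ℝ).comp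
        ((fderiv ℝ (fun p : ℝ × V => f p.1 p.2) (((s : ℝ), (0 : V)) +
          ContinuousLinearMap.inr ℝ ℝ V v)).comp (ContinuousLinearMap.inr ℝ ℝ V))) :=
      (hw'.smul continuous_const).clm_comp (by fun_prop)
    exact hc.integrable_of_hasCompactSupport (HasCompactSupport.of_compactSpace _)

end SPN
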