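import Pool.Agent.SPN.Pkb

/-! # Module Gel (difficulty 2): Gelfand pair

`bi_inv`: `g = k a_s k'` (`hx.kak`), `g⁻¹ = k'⁻¹ a_s⁻¹ k⁻¹ = k'⁻¹ w a_s w⁻¹ k⁻¹` (`hx.weyl`), so
`f (g⁻¹) = f (a_s) = f g`.
`Pk_eq`: for bi-`K`-invariant `f`: `Pk y f` is left `K`-invariant (`Bk.pk`) and right `K`-invariant, so by
`bi_inv` `Pk y f g = Pk y f g⁻¹ = ∫_k f(y⁻¹ k⁻¹ g⁻¹) = ∫_k f((g k y)⁻¹) = ∫_k f(g k y)`.
`Pk_comm`: `Pk y (Pk z f) g = ∫_k (Pk z f)(y⁻¹ k⁻¹ g) = ∫_k ∫_l f(y⁻¹ k⁻¹ g l z)` (`Pk_eq` for `z`) and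
`Pk z (Pk y f) g = ∫_l (Pk y f)(g l z) = ∫_l ∫_k f(y⁻¹ k⁻¹ g l z)` (`Pk_eq` for `z` and the bi-`K`-invariant
function `Pk y f`); Fubini for a continuous function on the compact space `K × K`. -/

open MeasureTheory

namespace SPN

variable {G : Type*} [Group G] [TopologicalSpace G] [IsTopologicalGroup G] [T2Space G]
  [LocallyCompactSpace G] [SecondCountableTopology G] [MeasurableSpace G] [BorelSpace G]
  {K : Subgroup G} {κ : Measure K} {xt : ℝ → G}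

theorem bi_inv (hx : Ax K xt) {f : G → ℝ} (hl : ∀ k ∈ K, ∀ h, f (k * h) = f h)
    (hr : ∀ k ∈ K, ∀ h, f (h * k) = f h) (g : G) : f g⁻¹ = f g := by
  obtain ⟨k, hk, s, hs, k', hk', rfl⟩ := hx.kak g
  obtain ⟨w, hw, hws⟩ := hx.weyl
  have e1 : (k * xt s * k')⁻¹ = k'⁻¹ * (w * xt s * w⁻¹) * k⁻¹ := by
    rw [hws s]
    group
  rw [e1, hr _ (K.inv_mem hk), hl _ (K.inv_mem hk'), hr _ (K.inv_mem hw), hl _ hw,
    hr _ hk', hl _ hk]

theorem Pk_right {f : G → ℝ} (hr : ∀ k ∈ K, ∀ h, f (h * k) = f h) (y : G) :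
    ∀ k ∈ K, ∀ h, Pk K κ y f (h * k) = Pk K κ y f h := by
  intro k hk h
  unfold Pk
  refine integral_congr_ae (Filter.Eventually.of_forall fun l => ?_)
  show f (y⁻¹ * (l : G)⁻¹ * (h * k)) = f (y⁻¹ * (l : G)⁻¹ * h)
  rw [← mul_assoc, hr k hk]

theorem Pk_eq (hκ : Kp K κ) (hK : IsCompact (K : Set G)) (hx : Ax K xt) {f : G → ℝ}
    (hf : Bk K f) (hr : ∀ k ∈ K, ∀ h, f (h * k) = f h) (y g : G) :
    Pk K κ y f g = ∫ k : K, f (g * k * y) ∂κ := by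
  rw [← bi_inv hx (Bk.pk hκ hK hf y).left (Pk_right hr y) g]
  unfold Pk
  refine integral_congr_ae (Filter.Eventually.of_forall fun l => ?_)
  show f (y⁻¹ * (l : G)⁻¹ * g⁻¹) = f (g * l * y)
  rw [← bi_inv hx hf.left hr (g * l * y)]
  congr 1
  group

theorem Pk_comm (hκ : Kp K κ) (hK : IsCompact (K : Set G)) (hx : Ax K xt) {f : G → ℝ}
    (hf : Bk K f) (hr : ∀ k ∈ K, ∀ h, f (h * k) = f h) (y z : G) :
    Pk K κ y (Pk K κ z f) = Pk K κ z (Pk K κ y f) := by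
  funext g
  rw [Pk_eq hκ hK hx (Bk.pk hκ hK hf y) (Pk_right hr y) z g]
  have e1 : Pk K κ y (Pk K κ z f) g
      = ∫ k : K, ∫ l : K, f (y⁻¹ * (k : G)⁻¹ * g * l * z) ∂κ ∂κ := by
    show ∫ k : K, Pk K κ z f (y⁻¹ * (k : G)⁻¹ * g) ∂κ = _
    refine integral_congr_ae (Filter.Eventually.of_forall fun k => ?_)
    exact Pk_eq hκ hK hx hf hr z _
  have e2 : ∫ l : K, Pk K κ y f (g * l * z) ∂κ
      = ∫ l : K, ∫ k : K, f (y⁻¹ * (k : G)⁻¹ * g * l * z) ∂κ ∂κ := by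
    refine integral_congr_ae (Filter.Eventually.of_forall fun l => ?_)
    show ∫ k : K, f (y⁻¹ * (k : G)⁻¹ * (g * l * z)) ∂κ
      = ∫ k : K, f (y⁻¹ * (k : G)⁻¹ * g * l * z) ∂κ
    refine integral_congr_ae (Filter.Eventually.of_forall fun k => ?_)
    show f (y⁻¹ * (k : G)⁻¹ * (g * l * z)) = f (y⁻¹ * (k : G)⁻¹ * g * l * z)
    congr 1
    group
  rw [e1, e2]
  have hcs : CompactSpace K := isCompact_iff_compactSpace.mp hK
  have hpr : IsProbabilityMeasure κ := hκ.prob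
  have hcont : Continuous (Function.uncurry
      (fun (k l : K) => f (y⁻¹ * (k : G)⁻¹ * g * l * z))) := by
    have h1 : Continuous fun q : K × K => y⁻¹ * (q.1 : G)⁻¹ * g * (q.2 : G) * z := by
      fun_prop
    exact hf.cont.comp h1
  exact integral_integral_swap_of_hasCompactSupport hcont (HasCompactSupport.of_compactSpace _)

private theorem gel_rk_bk {μ : Measure G} {x : G} {ρ : G → ℝ} (hw : Wk K κ μ x ρ) (j : ℕ) :
    Bk K (rk K κ x ρ j) := by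
  induction j with
  | zero => exact hw.bk
  | succ j ih =>
    rw [rk_succ]
    exact Bk.pk hw.kp hw.cpt ih x

private theorem gel_rk_right {x : G} {ρ : G → ℝ}
    (hr : Rh K xt ρ) (j : ℕ) : ∀ k ∈ K, ∀ h, rk K κ x ρ j (h * k) = rk K κ x ρ j h := by
  induction j with
  | zero => exact hr.right
  | succ j ih =>
    rw [rk_succ]
    exact Pk_right ih x

/-- `P_y ρ_j = P_x^j (P_y ρ)` -/
theorem Pk_rk (hx : Ax K xt) {μ : Measure G} {x : G} {ρ : G → ℝ} (hw : Wk K κ μ x ρ)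
    (hr : Rh K xt ρ) (y : G) (j : ℕ) :
    Pk K κ y (rk K κ x ρ j) = (Pk K κ x)^[j] (Pk K κ y ρ) := by
  induction j with
  | zero => rfl
  | succ j ih =>
    rw [rk_succ, Pk_comm hw.kp hw.cpt hx (gel_rk_bk hw j) (gel_rk_right hr j) y x, ih,
      Function.iterate_succ_apply']

theorem rk_right {μ : Measure G} {x : G} {ρ : G → ℝ} (hw : Wk K κ μ x ρ)
    (hr : Rh K xt ρ) (j : ℕ) : ∀ k ∈ K, ∀ h, rk K κ x ρ j (h * k) = rk K κ x ρ j h :=
  gel_rk_right hr j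

end SPN
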