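import Pool.Agent.SPN.Fun

/-! # finite index subgroups have fundamental domains -/

open MeasureTheory

namespace SPN

variable {G : Type*} [Group G] [MeasurableSpace G] [MeasurableMul₂ G] {μ : Measure G}
  [μ.IsMulLeftInvariant] {Γ : Subgroup G} {π : G → Γ}

/-- finite index subgroups have fundamental domains of finite measure -/
theorem Dm_finiteIndex (hD : Dm μ Γ π) (K : Subgroup Γ) (hK : K.FiniteIndex) :
    ∃ π' : G → K.map Γ.subtype, Dm μ (K.map Γ.subtype) π' := by
  classical
  have := hD.cnt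
  -- choose representatives of the cosets `K t`
  have hfin : Finite (Quotient (QuotientGroup.rightRel K)) := by
    have h1 : Finite (Γ ⧸ K) := Subgroup.finite_quotient_of_finiteIndex
    exact Finite.of_equiv _ (QuotientGroup.quotientRightRelEquivQuotientLeftRel K).symm
  let t : Γ → Γ := fun γ => (Quotient.mk (QuotientGroup.rightRel K) γ).out
  have ht : ∀ γ : Γ, γ * (t γ)⁻¹ ∈ K := by
    intro γ
    have h1 : (QuotientGroup.rightRel K) (t γ) γ := Quotient.exact (Quotient.out_eq _)
    exact QuotientGroup.rightRel_apply.1 h1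
  have ht2 : ∀ (κ : Γ), κ ∈ K → ∀ γ, t (κ * γ) = t γ := by
    intro κ hκ γ
    have h1 : (Quotient.mk (QuotientGroup.rightRel K) (κ * γ)) =
        Quotient.mk (QuotientGroup.rightRel K) γ := by
      apply Quotient.sound
      change (QuotientGroup.rightRel K) _ _
      rw [QuotientGroup.rightRel_apply]
      simpa [mul_inv_rev] using hκ
    simp only [t, h1]
  have htr : (Set.range t).Finite := by
    have : Set.range t ⊆ Set.range
        (fun c : Quotient (QuotientGroup.rightRel K) => c.out) := by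
      rintro _ ⟨γ, rfl⟩
      exact ⟨_, rfl⟩
    exact (Set.finite_range _).subset this
  let π' : G → K.map Γ.subtype := fun g =>
    ⟨((π g * (t (π g))⁻¹ : Γ) : G), ⟨π g * (t (π g))⁻¹, ht _, rfl⟩⟩
  refine ⟨π', ?_, ?_, ?_, ?_⟩
  · exact Set.Countable.to_subtype (by
      have : (Set.range (fun γ : Γ => (γ : G))).Countable := Set.countable_range _
      refine this.mono ?_
      rintro _ ⟨γ, _, rfl⟩
      exact ⟨γ, rfl⟩)
  · intro δ
    have h1 : π' ⁻¹' {δ} = ⋃ γ ∈ {γ : Γ | ((γ * (t γ)⁻¹ : Γ) : G) = δ}, π ⁻¹' {γ} := by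
      ext g
      simp only [Set.mem_preimage, Set.mem_singleton_iff, Set.mem_iUnion, Set.mem_ofPred_eq,
        exists_prop, π']
      constructor
      · intro h
        exact ⟨π g, congrArg Subtype.val h, rfl⟩
      · rintro ⟨γ, h, h2⟩
        apply Subtype.ext
        rw [h2]
        exact h
    rw [h1]
    exact MeasurableSet.biUnion (Set.to_countable _) fun γ _ => hD.meas γ
  · intro δ g
    obtain ⟨δ, κ, hκ, rfl⟩ := δ
    apply Subtype.ext
    have h1 : π (Γ.subtype κ * g) = κ * π g := hD.equiv κ g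
    change ((π (Γ.subtype κ * g) * (t (π (Γ.subtype κ * g)))⁻¹ : Γ) : G) =
      Γ.subtype κ * ((π g * (t (π g))⁻¹ : Γ) : G)
    rw [h1, ht2 κ hκ, mul_assoc]
    rfl
  · have h1 : π' ⁻¹' {1} ⊆ ⋃ γ ∈ Set.range t, π ⁻¹' {γ} := by
      intro g hg
      have h2 : ((π g * (t (π g))⁻¹ : Γ) : G) = 1 := congrArg Subtype.val hg
      have h3 : π g * (t (π g))⁻¹ = 1 := Subtype.ext h2
      have h4 : π g = t (π g) := mul_inv_eq_one.1 h3
      simp only [Set.mem_iUnion]
      exact ⟨t (π g), ⟨_, rfl⟩, h4⟩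
    refine (measure_mono h1).trans_lt ?_
    refine (measure_biUnion_lt_top htr fun γ _ => ?_)
    have h5 : π ⁻¹' {γ} = (fun g => (γ : G)⁻¹ * g) ⁻¹' (π ⁻¹' {1}) := by
      ext g
      simp only [Set.mem_preimage, Set.mem_singleton_iff]
      have h6 : π ((γ : G)⁻¹ * g) = γ⁻¹ * π g := by
        have := hD.equiv γ⁻¹ g
        simpa using this
      rw [h6, inv_mul_eq_one, eq_comm]
    rw [h5, measure_preimage_mul]
    exact hD.fin

/-- if all subgroups with a fundamental domain of finite measure act trivially on `X` then so do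
their finite index subgroups -/
theorem lt_finiteIndex {X : Type*} [LinearOrder X]
    (hG : ∀ (Γ : Subgroup G) (π : G → Γ), Dm μ Γ π → ∀ ψ : Γ →* (X ≃o X), ψ = 1)
    (hD : Dm μ Γ π) (K : Subgroup Γ) (hK : K.FiniteIndex) (ψ : K →* (X ≃o X)) : ψ = 1 := by
  obtain ⟨π', hD'⟩ := Dm_finiteIndex hD K hK
  let e : K ≃* K.map Γ.subtype := K.equivMapOfInjective Γ.subtype Γ.subtype_injective
  have h := hG _ π' hD' (ψ.comp e.symm.toMonoidHom)
  ext k x
  have h2 := DFunLike.congr_fun h (e k)
  simp only [MonoidHom.comp_apply, MulEquiv.toMonoidHom_eq_coe, MonoidHom.coe_coe,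
    MulEquiv.symm_apply_apply, MonoidHom.one_apply] at h2
  rw [h2]
  rfl

end SPN
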