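import Pool.Agent.SPN.Fin
import Pool.Agent.SPN.Fig

/-! # finite index subgroups of lattices in `Sp(n,1)` -/

open MeasureTheory

namespace SPN


theorem spn_core {n : ℕ} (hn : 2 ≤ n) {Γ : Subgroup (GG n)} {π : GG n → Γ}
    (hD : Dm (mu n) Γ π) {X : Type*} [LinearOrder X] (ψ : Γ →* (X ≃o X)) : ψ = 1 := by
  have : NeZero n := ⟨by omega⟩
  ext γ x
  let q : Γ → X := fun δ => ψ δ x
  have hq : Mo q := by
    refine ⟨fun γ a b h => ?_⟩
    simp only [q, map_mul]
    exact (ψ γ).le_iff_le.2 h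
  have h := main_a hD (dm_pos hD) hq ax_hy wk_rho rh_rho (en_inst hn hD hq) γ
  simpa [q] using h

theorem spn_finiteIndex {n : ℕ} (hn : 2 ≤ n) {Γ : Subgroup (GG n)} {π : GG n → Γ}
    (hD : Dm (mu n) Γ π) (K : Subgroup Γ) (hK : K.FiniteIndex) {X : Type*} [LinearOrder X]
    (ψ : K →* (X ≃o X)) : ψ = 1 := by
  obtain ⟨π', hD'⟩ := Dm_finiteIndex hD K hK
  let e : K ≃* K.map Γ.subtype := K.equivMapOfInjective Γ.subtype Γ.subtype_injective
  have h := spn_core hn hD' (ψ.comp e.symm.toMonoidHom)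
  ext k x
  have h2 := DFunLike.congr_fun h (e k)
  simp only [MonoidHom.comp_apply, MulEquiv.toMonoidHom_eq_coe, MonoidHom.coe_coe,
    MulEquiv.symm_apply_apply, MonoidHom.one_apply] at h2
  rw [h2]
  rfl

end SPN
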