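import Pool.Agent.SPN.PdA

/-! # Module PdC (difficulty 2): density

`dense_gen`. PROOF. Claim by induction on `m`: if `u₁, ..., u_m ∈ H` with `u_j ∈ U_j`, `U_j` a compact open subgroup, and
`γ ∈ Γ` has `γ.2 = u₁ ... u_m`, then `γ ∈ N`. `m = 0`: `γ.2 = 1` lies in any compact open subgroup (there is one: if there were
none, the closure in `hgen` would be trivial, `H = 1` and the trivial group `⊤` would be one; or handle `m = 0` by the
case `m = 1` when a compact open subgroup exists). `m = 1`: `hN`. Step: by density there is `δ ∈ Γ` with `δ.2` in the open set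
`u₁ (U₁ ∩ U₂)`; then `δ.2 ∈ U₁`, so `δ ∈ N`, and `(δ⁻¹ γ).2 = w⁻¹ u₂ u₃ ...` with `w ∈ U₁ ∩ U₂`, `w⁻¹ u₂ ∈ U₂`: product of
`m - 1` elements, so `δ⁻¹ γ ∈ N`. Every element of `H` is such a product (`Subgroup.closure_induction` or
`Subgroup.exists_list_of_mem_closure`; inverses stay in the same subgroup).
`order_torsion`: if `f x ≠ x`, say `x < f x`, then `x < f x < f (f x) < ... < f^m x = x`. -/

open MeasureTheory

namespace SPN

variable {G H : Type*} [Group G] [Group H] [TopologicalSpace H] [IsTopologicalGroup H]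

theorem dense_gen {Γ N : Subgroup (G × H)}
    (hN : ∀ U : Subgroup H, IsCompact (U : Set H) → IsOpen (U : Set H) →
      ∀ g ∈ Γ, g.2 ∈ U → g ∈ N)
    (hd : Dense {h : H | ∃ g ∈ Γ, g.2 = h})
    (hgen : Subgroup.closure {h : H | ∃ U : Subgroup H, IsCompact (U : Set H) ∧
      IsOpen (U : Set H) ∧ h ∈ U} = ⊤) : Γ ≤ N := by
  set S : Set H := {h : H | ∃ U : Subgroup H, IsCompact (U : Set H) ∧
      IsOpen (U : Set H) ∧ h ∈ U} with hS
  have hU0 : ∃ U : Subgroup H, IsCompact (U : Set H) ∧ IsOpen (U : Set H) := by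
    rcases S.eq_empty_or_nonempty with he | ⟨h, U, h1, h2, _⟩
    · rw [he, Subgroup.closure_empty] at hgen
      have hsub : Subsingleton H := by
        have : Subsingleton (Subgroup H) := subsingleton_of_bot_eq_top hgen
        exact Subgroup.subsingleton_iff.1 this
      refine ⟨⊤, ?_, ?_⟩
      · exact (Set.toFinite _).isCompact
      · rw [Subgroup.coe_top]
        exact isOpen_univ
    · exact ⟨U, h1, h2⟩
  have claim : ∀ n : ℕ, ∀ l : List H, l.length = n → (∀ x ∈ l, x ∈ S) → ∀ γ ∈ Γ,
      γ.2 = l.prod → γ ∈ N := by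
    intro n
    induction n with
    | zero =>
      intro l hl _ γ hγ hp
      rw [List.length_eq_zero_iff] at hl
      subst hl
      obtain ⟨U, h1, h2⟩ := hU0
      refine hN U h1 h2 γ hγ ?_
      rw [hp, List.prod_nil]
      exact U.one_mem
    | succ n ih =>
      intro l hl hx γ hγ hp
      match l, hl, hx, hp with
      | [u], _, hx, hp =>
        obtain ⟨U, h1, h2, h3⟩ := hx u (by simp)
        refine hN U h1 h2 γ hγ ?_
        rw [hp]
        simpa using h3
      | u :: v :: l', hl, hx, hp =>
        obtain ⟨U, h1, h2, h3⟩ := hx u (by simp)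
        obtain ⟨V, k1, k2, k3⟩ := hx v (by simp)
        have hopen : IsOpen {h : H | u⁻¹ * h ∈ (U : Set H) ∧ u⁻¹ * h ∈ (V : Set H)} :=
          (h2.preimage (continuous_const_mul u⁻¹)).inter (k2.preimage (continuous_const_mul u⁻¹))
        obtain ⟨h, ⟨δ, hδ, rfl⟩, hh⟩ := hd.exists_mem_open hopen
          ⟨u, by simp [U.one_mem, V.one_mem]⟩
        have hδU : δ.2 ∈ U := by
          have := U.mul_mem h3 hh.1
          rwa [mul_inv_cancel_left] at this
        have hδN : δ ∈ N := hN U h1 h2 δ hδ hδU
        have hmem : (δ.2⁻¹ * u) * v ∈ S := by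
          refine ⟨V, k1, k2, V.mul_mem ?_ k3⟩
          have := V.inv_mem hh.2
          rwa [mul_inv_rev, inv_inv] at this
        have hrec : δ⁻¹ * γ ∈ N := by
          refine ih ((δ.2⁻¹ * u) * v :: l') (by simpa using hl) ?_ (δ⁻¹ * γ)
            (Γ.mul_mem (Γ.inv_mem hδ) hγ) ?_
          · intro x hxl
            rcases List.mem_cons.1 hxl with rfl | hxl
            · exact hmem
            · exact hx x (by simp [hxl])
          · rw [Prod.snd_mul, Prod.snd_inv, hp]
            simp [mul_assoc]
        have := N.mul_mem hδN hrec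
        rwa [mul_inv_cancel_left] at this
  intro γ hγ
  have hmem : γ.2 ∈ Subgroup.closure S := by
    rw [hgen]
    exact Subgroup.mem_top _
  rw [← Subgroup.mem_toSubmonoid, Subgroup.closure_toSubmonoid] at hmem
  obtain ⟨l, hl, hp⟩ := Submonoid.exists_list_of_mem_closure hmem
  refine claim l.length l rfl ?_ γ hγ hp.symm
  intro x hx
  rcases hl x hx with h | ⟨U, h1, h2, h3⟩
  · exact h
  · exact ⟨U, h1, h2, by simpa using U.inv_mem h3⟩

theorem order_torsion {X : Type*} [LinearOrder X] (f : X ≃o X) {m : ℕ} (hm : 0 < m)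
    (h : f ^ m = 1) : f = 1 := by
  have hit : ∀ (n : ℕ) (x : X), (f ^ n) x = f^[n] x := by
    intro n
    induction n with
    | zero => intro x; rfl
    | succ n ih =>
      intro x
      rw [pow_succ, Function.iterate_succ_apply, ← ih]
      rfl
  have hmx : ∀ x, f^[m] x = x := by
    intro x
    rw [← hit, h]
    rfl
  ext x
  by_contra hne
  change ¬ f x = x at hne
  rcases lt_or_gt_of_ne hne with hlt | hgt
  · have := f.strictMono.strictAnti_iterate_of_map_lt hlt hm
    simp only [Function.iterate_zero, id_eq] at this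
    rw [hmx] at this
    exact lt_irrefl _ this
  · have := f.strictMono.strictMono_iterate_of_lt_map hgt hm
    simp only [Function.iterate_zero, id_eq] at this
    rw [hmx] at this
    exact lt_irrefl _ this

end SPN
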