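import Pool.Agent.SPN.PdB
import Pool.Agent.SPN.PdC
import Pool.Agent.SPN.Fig

/-! # lattices in `G × H`, `H` with compact open subgroups -/

open MeasureTheory

namespace SPN

section

variable {G H : Type*} [Group G] [Group H] [TopologicalSpace H] [IsTopologicalGroup H]

theorem dense_finiteIndex {Γ : Subgroup (G × H)} (hd : Dense {h : H | ∃ g ∈ Γ, g.2 = h})
    (hfi : ∀ V : Subgroup H, IsOpen (V : Set H) → V.FiniteIndex → V = ⊤)
    (K : Subgroup Γ) (hK : K.FiniteIndex) :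
    Dense {h : H | ∃ g ∈ K.map Γ.subtype, g.2 = h} := by
  classical
  set P : Subgroup H := (K.map Γ.subtype).map (MonoidHom.snd G H) with hP
  set V : Subgroup H := P.topologicalClosure with hV
  have hVc : IsClosed (V : Set H) := P.isClosed_topologicalClosure
  have hPV : P ≤ V := P.le_topologicalClosure
  have hfin : Finite (Γ ⧸ K) := Subgroup.finite_quotient_of_finiteIndex
  -- the finitely many cosets
  have hcov : ∀ h : H, ∃ c : Γ ⧸ K, ((c.out : Γ) : G × H).2⁻¹ * h ∈ V := by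
    intro h
    have h1 : IsClosed (⋃ c : Γ ⧸ K, {h : H | ((c.out : Γ) : G × H).2⁻¹ * h ∈ V}) := by
      refine isClosed_iUnion_of_finite fun c => ?_
      exact hVc.preimage (continuous_const.mul continuous_id)
    have h2 : {h : H | ∃ g ∈ Γ, g.2 = h} ⊆
        ⋃ c : Γ ⧸ K, {h : H | ((c.out : Γ) : G × H).2⁻¹ * h ∈ V} := by
      rintro _ ⟨g, hg, rfl⟩
      refine Set.mem_iUnion.2 ⟨QuotientGroup.mk (⟨g, hg⟩ : Γ), ?_⟩
      have h3 : ((QuotientGroup.mk (⟨g, hg⟩ : Γ) : Γ ⧸ K).out)⁻¹ * ⟨g, hg⟩ ∈ K := by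
        rw [← QuotientGroup.eq]
        exact Quotient.out_eq _
      apply hPV
      exact ⟨_, ⟨_, h3, rfl⟩, rfl⟩
    have h4 := h1.closure_subset_iff.2 h2
    rw [hd.closure_eq] at h4
    exact Set.mem_iUnion.1 (h4 (Set.mem_univ h))
  have hVfi : V.FiniteIndex := by
    have h5 : Finite (H ⧸ V) := by
      refine Finite.of_surjective (fun c : Γ ⧸ K =>
        (QuotientGroup.mk ((c.out : Γ) : G × H).2 : H ⧸ V)) ?_
      intro x
      obtain ⟨h, rfl⟩ := QuotientGroup.mk_surjective x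
      obtain ⟨c, hc⟩ := hcov h
      exact ⟨c, QuotientGroup.eq.2 hc⟩
    exact Subgroup.finiteIndex_of_finite_quotient
  have hVo : IsOpen (V : Set H) := V.isOpen_of_isClosed_of_finiteIndex hVc
  have hVt := hfi V hVo hVfi
  have h6 : {h : H | ∃ g ∈ K.map Γ.subtype, g.2 = h} = (P : Set H) := by
    ext h
    constructor
    · rintro ⟨g, hg, rfl⟩
      exact ⟨g, hg, rfl⟩
    · rintro ⟨g, hg, rfl⟩
      exact ⟨g, hg, rfl⟩
  rw [h6]
  intro x
  have h7 : x ∈ V := by rw [hVt]; exact Subgroup.mem_top x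
  exact h7

end

variable {G H : Type*} [Group G] [TopologicalSpace G] [IsTopologicalGroup G] [T2Space G]
  [LocallyCompactSpace G] [SecondCountableTopology G] [MeasurableSpace G] [BorelSpace G]
  [Group H] [TopologicalSpace H] [IsTopologicalGroup H] [T2Space H]
  [LocallyCompactSpace H] [SecondCountableTopology H] [MeasurableSpace H] [BorelSpace H]

theorem gu_lt {μ : Measure G} [μ.IsMulLeftInvariant] [SigmaFinite μ] {ν : Measure H} [ν.IsHaarMeasure]
    {X : Type*} [LinearOrder X]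
    (hG : ∀ (Γ : Subgroup G) (π : G → Γ), Dm μ Γ π → ∀ ψ : Γ →* (X ≃o X), ψ = 1)
    {Γ : Subgroup (G × H)} [DiscreteTopology Γ] {π : G × H → Γ}
    (hD : Dm (μ.prod ν) Γ π) {U : Subgroup H} (hc : IsCompact (U : Set H))
    (ho : IsOpen (U : Set H)) (K : Subgroup (gu Γ U)) (hK : K.FiniteIndex)
    (ψ : K →* (X ≃o X)) : ψ = 1 := by
  obtain ⟨π', hD'⟩ := pu_Dm hD hc ho
  let p : gu Γ U →* pu Γ U := (MonoidHom.fst G H).subgroupMap (gu Γ U)
  have hp : Function.Surjective p := MonoidHom.subgroupMap_surjective _ _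
  have hK' : (K.map p).FiniteIndex :=
    ⟨fun h0 => hK.index_ne_zero (Nat.eq_zero_of_zero_dvd (h0 ▸ K.index_map_dvd hp))⟩
  let r : K →* K.map p := p.subgroupMap K
  have hr : Function.Surjective r := MonoidHom.subgroupMap_surjective _ _
  have hker : r.ker ≤ ψ.ker := by
    intro k hk
    have h1 : ((k : gu Γ U) : G × H).1 = 1 :=
      congrArg (fun z : K.map p => ((z : pu Γ U) : G)) (MonoidHom.mem_ker.1 hk)
    have h2 : IsOfFinOrder ((k : gu Γ U) : G × H) := by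
      refine finite_powers.1 ((ker_finite (Γ := Γ) hc).subset ?_)
      rintro _ ⟨m, rfl⟩
      refine ⟨Γ.pow_mem (mem_gu.1 (k : gu Γ U).2).1 m, ?_, ?_⟩
      · change ((k : gu Γ U) : G × H).1 ^ m = 1
        rw [h1, one_pow]
      · exact U.pow_mem (mem_gu.1 (k : gu Γ U).2).2 m
    obtain ⟨m, hm, h3⟩ := isOfFinOrder_iff_pow_eq_one.1 h2
    have h4 : k ^ m = 1 := Subtype.ext (Subtype.ext h3)
    refine MonoidHom.mem_ker.2 (order_torsion (ψ k) hm ?_)
    rw [← map_pow, h4, map_one]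
  let ψ' : K.map p →* (X ≃o X) := r.liftOfSurjective hr ⟨ψ, hker⟩
  have h5 : ψ' = 1 := lt_finiteIndex hG hD' (K.map p) hK' ψ'
  ext k x
  have h6 : ψ' (r k) = ψ k :=
    r.liftOfRightInverse_comp_apply _ (Function.rightInverse_surjInv hr) ⟨ψ, hker⟩ k
  rw [← h6, h5]
  rfl

theorem prod_lt {μ : Measure G} [μ.IsMulLeftInvariant] [SigmaFinite μ] {ν : Measure H} [ν.IsHaarMeasure]
    {X : Type*} [LinearOrder X]
    (hG : ∀ (Γ : Subgroup G) (π : G → Γ), Dm μ Γ π → ∀ ψ : Γ →* (X ≃o X), ψ = 1)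
    {Γ : Subgroup (G × H)} [DiscreteTopology Γ] {π : G × H → Γ}
    (hD : Dm (μ.prod ν) Γ π) (hd : Dense {h : H | ∃ g ∈ Γ, g.2 = h})
    (hgen : Subgroup.closure {h : H | ∃ U : Subgroup H, IsCompact (U : Set H) ∧
      IsOpen (U : Set H) ∧ h ∈ U} = ⊤)
    (ψ : Γ →* (X ≃o X)) : ψ = 1 := by
  have hN : Γ ≤ (ψ.ker).map Γ.subtype := by
    refine dense_gen (fun U hc ho g hg hgU => ?_) hd hgen
    let i : gu Γ U →* Γ := Subgroup.inclusion inf_le_left
    have h1 := gu_lt hG hD hc ho (⊤ : Subgroup (gu Γ U)) inferInstance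
      ((ψ.comp i).comp (⊤ : Subgroup (gu Γ U)).subtype)
    have h2 := DFunLike.congr_fun h1 ⟨⟨g, mem_gu.2 ⟨hg, hgU⟩⟩, Subgroup.mem_top _⟩
    exact ⟨⟨g, hg⟩, MonoidHom.mem_ker.2 h2, rfl⟩
  ext γ x
  obtain ⟨γ', h1, h2⟩ := hN γ.2
  have h3 : γ' = γ := Subtype.ext h2
  rw [← h3, MonoidHom.mem_ker.1 h1]
  rfl

theorem prod_lt_finiteIndex {μ : Measure G} [μ.IsMulLeftInvariant] [SigmaFinite μ] {ν : Measure H} [ν.IsHaarMeasure]
    {X : Type*} [LinearOrder X]
    (hG : ∀ (Γ : Subgroup G) (π : G → Γ), Dm μ Γ π → ∀ ψ : Γ →* (X ≃o X), ψ = 1)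
    {Γ : Subgroup (G × H)} [hdis : DiscreteTopology Γ] {π : G × H → Γ}
    (hD : Dm (μ.prod ν) Γ π) (hd : Dense {h : H | ∃ g ∈ Γ, g.2 = h})
    (hgen : Subgroup.closure {h : H | ∃ U : Subgroup H, IsCompact (U : Set H) ∧
      IsOpen (U : Set H) ∧ h ∈ U} = ⊤)
    (hfi : ∀ V : Subgroup H, IsOpen (V : Set H) → V.FiniteIndex → V = ⊤)
    (K : Subgroup Γ) (hK : K.FiniteIndex)
    (ψ : K →* (X ≃o X)) : ψ = 1 := by
  obtain ⟨π', hD'⟩ := Dm_finiteIndex hD K hK
  let e : K ≃* K.map Γ.subtype := K.equivMapOfInjective Γ.subtype Γ.subtype_injective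
  have hsub : ((K.map Γ.subtype : Subgroup (G × H)) : Set (G × H)) ⊆ Γ := by
    rintro _ ⟨g, _, rfl⟩
    exact g.2
  have hdis' : DiscreteTopology (K.map Γ.subtype) :=
    DiscreteTopology.of_subset (s := (Γ : Set (G × H))) hdis hsub
  have h := prod_lt hG hD' (dense_finiteIndex hd hfi K hK) hgen
    (ψ.comp e.symm.toMonoidHom)
  ext k x
  have h2 := DFunLike.congr_fun h (e k)
  simp only [MonoidHom.comp_apply, MulEquiv.toMonoidHom_eq_coe, MonoidHom.coe_coe,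
    MulEquiv.symm_apply_apply, MonoidHom.one_apply] at h2
  rw [h2]
  rfl

end SPN
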