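import Pool.Agent.SPN.Psf

/-! # Module Trk (difficulty 3): transport `⟨P g⟩_a = ⟨g⟩_{P a}`

`av_pv`. PROOF. Write `⟨g⟩_a = av μ π a g`.
(1) `⟨P g⟩_a = ∫_D ∫_h a(h) ∫_k g(v k x, π(v h)) = ∫_k ⟨g(· k x)⟩_a` (Fubini: the integrand is a bounded
measurable function of `(v, h, k)` times `a(h)`), and `⟨g(· k x)⟩_a = ⟨g⟩_{a(k x ·)}` (`av_translate`)
`= ⟨g⟩_{a(x ·)}`, since `a` is left `K`-invariant. So `⟨P g⟩_a = ⟨g⟩_{a(x ·)}`.
(2) for every `k ∈ K`: `⟨g⟩_{a(x ·)} = ⟨g(· k)⟩_{a(x ·)} = ⟨g⟩_{a(x k ·)}` (`g` is right `K`-invariant,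
`av_translate`). So `⟨g⟩_{a(x ·)} = ∫_k ⟨g⟩_{a(x k ·)} = ⟨g⟩_{∫_k a(x k ·)}` (Fubini).
(3) `w x w⁻¹ = x⁻¹` gives `x = w⁻¹ x⁻¹ w`, so `a(x k h) = a(x⁻¹ w k h)` and
`∫_k a(x⁻¹ w k h) = ∫_k a(x⁻¹ k h) = ∫_k a(x⁻¹ k⁻¹ h) = Pk x a h` (left and inversion invariance of `κ`).
`av_pv_iter`: induction on `j`, for all `a` or for all `g` (`Gf.pv`, `Pv_rightK`, `Bk.pk`). -/

open MeasureTheory

namespace SPN

variable {G : Type*} [Group G] [TopologicalSpace G] [IsTopologicalGroup G] [T2Space G]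
  [LocallyCompactSpace G] [SecondCountableTopology G] [MeasurableSpace G] [BorelSpace G]
  {μ : Measure G} [IsFiniteMeasureOnCompacts μ] [μ.IsMulLeftInvariant] [SigmaFinite μ]
  [μ.IsMulRightInvariant] {Γ : Subgroup G} {π : G → Γ} {K : Subgroup G} {κ : Measure K}

omit [TopologicalSpace G] [IsTopologicalGroup G] [T2Space G] [LocallyCompactSpace G]
  [SecondCountableTopology G] [BorelSpace G] [IsFiniteMeasureOnCompacts μ]
  [μ.IsMulLeftInvariant] [SigmaFinite μ] [μ.IsMulRightInvariant] in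
private lemma Trk_meas (hD : Dm μ Γ π) {g : G → Γ → ℝ} (hg : ∀ γ, Measurable (fun v => g v γ))
    {Y : Type*} [MeasurableSpace Y] {φ ψ : Y → G} (hφ : Measurable φ) (hψ : Measurable ψ) :
    Measurable (fun y => g (φ y) (π (ψ y))) := by
  have := hD.cnt
  intro s hs
  have e : (fun y => g (φ y) (π (ψ y))) ⁻¹' s =
      ⋃ γ : Γ, (ψ ⁻¹' (π ⁻¹' {γ})) ∩ (φ ⁻¹' ((fun v => g v γ) ⁻¹' s)) := by
    ext y
    simp only [Set.mem_preimage, Set.mem_iUnion, Set.mem_inter_iff, Set.mem_singleton_iff]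
    constructor
    · intro h
      exact ⟨π (ψ y), rfl, h⟩
    · rintro ⟨γ, h1, h2⟩
      rw [h1]
      exact h2
  rw [e]
  exact MeasurableSet.iUnion fun γ => (hψ (hD.meas γ)).inter (hφ (hg γ hs))

omit [IsTopologicalGroup G] [T2Space G] [LocallyCompactSpace G] [TopologicalSpace G]
  [SecondCountableTopology G] [BorelSpace G] [IsFiniteMeasureOnCompacts μ]
  [μ.IsMulLeftInvariant] [μ.IsMulRightInvariant] in
private lemma Trk_fub (hκ : Kp K κ) {F : G → G → K → ℝ}
    (hF : Integrable (fun p : (G × G) × K => F p.1.1 p.1.2 p.2)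
      (((μ.restrict (D0 π)).prod μ).prod κ)) :
    ∫ v in D0 π, ∫ h, ∫ k, F v h k ∂κ ∂μ ∂μ = ∫ k, ∫ v in D0 π, ∫ h, F v h k ∂μ ∂μ ∂κ := by
  have := hκ.prob
  have e1 : ∫ p, (∫ k, F p.1 p.2 k ∂κ) ∂((μ.restrict (D0 π)).prod μ) =
      ∫ v in D0 π, ∫ h, ∫ k, F v h k ∂κ ∂μ ∂μ :=
    integral_prod (fun p : G × G => ∫ k, F p.1 p.2 k ∂κ) hF.integral_prod_left
  have e2 : ∫ p, (∫ k, F p.1 p.2 k ∂κ) ∂((μ.restrict (D0 π)).prod μ) =
      ∫ k, (∫ p, F p.1 p.2 k ∂((μ.restrict (D0 π)).prod μ)) ∂κ :=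
    integral_integral_swap (f := fun (p : G × G) (k : K) => F p.1 p.2 k) hF
  rw [← e1, e2]
  apply integral_congr_ae
  filter_upwards [hF.prod_left_ae] with k hk
  exact integral_prod (fun p : G × G => F p.1 p.2 k) hk

theorem av_pv (hD : Dm μ Γ π) (hκ : Kp K κ) (hK : IsCompact (K : Set G)) {x : G}
    (hx : ∃ w ∈ K, w * x * w⁻¹ = x⁻¹) {a : G → ℝ} (ha : Bk K a) {g : G → Γ → ℝ} (hg : Gf g)
    (hgK : ∀ v γ, ∀ k ∈ K, g (v * k) γ = g v γ) :
    av μ π a (fun v γ => Pv K κ x (fun u => g u γ) v) = av μ π (Pk K κ x a) g := by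
  have hpr := hκ.prob
  have hli := hκ.left
  have hii := hκ.inv
  have hai : Integrable a μ := ha.integrable
  obtain ⟨C, hC⟩ := hg.bdd
  have hfin : IsFiniteMeasure (μ.restrict (D0 π)) :=
    ⟨by rw [Measure.restrict_apply MeasurableSet.univ, Set.univ_inter]; exact hD.fin⟩
  -- first Fubini
  have hF1 : Integrable (fun p : (G × G) × K => a p.1.2 * g (p.1.1 * (p.2 : G) * x) (π (p.1.1 * p.1.2)))
      (((μ.restrict (D0 π)).prod μ).prod κ) := by
    have i1 : Integrable (fun p : G × G => a p.2) ((μ.restrict (D0 π)).prod μ) :=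
      hai.comp_snd _
    have i2 : Integrable (fun p : (G × G) × K => a p.1.2) (((μ.restrict (D0 π)).prod μ).prod κ) :=
      i1.comp_fst _
    have hm : Measurable (fun p : (G × G) × K =>
        g (p.1.1 * (p.2 : G) * x) (π (p.1.1 * p.1.2))) := by
      apply Trk_meas hD hg.meas
      · exact ((measurable_fst.comp measurable_fst).mul
          (measurable_subtype_coe.comp measurable_snd)).mul measurable_const
      · exact (measurable_fst.comp measurable_fst).mul (measurable_snd.comp measurable_fst)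
    refine Integrable.mono' (i2.norm.mul_const C) (i2.1.mul hm.aestronglyMeasurable)
      (Filter.Eventually.of_forall fun p => ?_)
    rw [norm_mul]
    exact mul_le_mul_of_nonneg_left (hC _ _) (norm_nonneg _)
  have s1 : av μ π a (fun v γ => Pv K κ x (fun u => g u γ) v) =
      ∫ k : K, av μ π a (fun v γ => g (v * ((k : G) * x)) γ) ∂κ := by
    have h1 := Trk_fub (μ := μ) (π := π) hκ
      (F := fun v h k => a h * g (v * (k : G) * x) (π (v * h))) hF1
    unfold av Pv
    have e1 : ∀ v h : G, a h * (∫ k : K, g (v * (k : G) * x) (π (v * h)) ∂κ) =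
        ∫ k : K, a h * g (v * (k : G) * x) (π (v * h)) ∂κ := by
      intro v h
      rw [integral_const_mul]
    simp only [e1]
    rw [h1]
    congr 1
    funext k
    simp only [mul_assoc]
  -- all the integrands are equal
  have s2 : ∀ k : K, av μ π a (fun v γ => g (v * ((k : G) * x)) γ) =
      av μ π (fun h => a (x * h)) g := by
    intro k
    rw [av_translate hD hai hg ((k : G) * x)]
    congr 1
    funext h
    rw [mul_assoc]
    exact ha.left k k.2 _
  have s3 : av μ π a (fun v γ => Pv K κ x (fun u => g u γ) v) =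
      av μ π (fun h => a (x * h)) g := by
    rw [s1]
    simp only [s2]
    rw [integral_const]
    simp
  have haxi : Integrable (fun h => a (x * h)) μ := hai.comp_mul_left x
  have s4 : ∀ k : K, av μ π (fun h => a (x * h)) g =
      av μ π (fun h => a (x * ((k : G) * h))) g := by
    intro k
    have h1 := av_translate hD haxi hg (k : G)
    rw [← h1]
    congr 1
    funext v γ
    exact (hgK v γ k k.2).symm
  -- second Fubini
  have hF2 : Integrable (fun p : (G × G) × K => a (x * ((p.2 : G) * p.1.2)) *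
      g p.1.1 (π (p.1.1 * p.1.2))) (((μ.restrict (D0 π)).prod μ).prod κ) := by
    have hc : Continuous (fun p : (G × G) × K => a (x * ((p.2 : G) * p.1.2))) := by
      apply ha.cont.comp
      fun_prop
    have hm0 : AEStronglyMeasurable (fun p : (G × G) × K => a (x * ((p.2 : G) * p.1.2)))
        (((μ.restrict (D0 π)).prod μ).prod κ) := hc.measurable.aestronglyMeasurable
    have i2 : Integrable (fun p : (G × G) × K => a (x * ((p.2 : G) * p.1.2)))
        (((μ.restrict (D0 π)).prod μ).prod κ) := by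
      rw [integrable_prod_iff' hm0]
      have hsec : ∀ k : K, Integrable (fun p : G × G => a (x * ((k : G) * p.2)))
          ((μ.restrict (D0 π)).prod μ) := by
        intro k
        have h1 : Integrable (fun h => a (x * ((k : G) * h))) μ := haxi.comp_mul_left (k : G)
        exact h1.comp_snd _
      refine ⟨Filter.Eventually.of_forall hsec, ?_⟩
      have e : ∀ k : K, ∫ p : G × G, ‖a (x * ((k : G) * p.2))‖ ∂((μ.restrict (D0 π)).prod μ) =
          ∫ v in D0 π, ∫ h, ‖a h‖ ∂μ ∂μ := by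
        intro k
        rw [integral_prod _ (hsec k).norm]
        congr 1
        funext v
        have e1 := integral_mul_left_eq_self (μ := μ) (fun h => ‖a (x * h)‖) (k : G)
        have e2 := integral_mul_left_eq_self (μ := μ) (fun h => ‖a h‖) x
        exact e1.trans e2
      simp only [e]
      exact integrable_const _
    have hm : Measurable (fun p : (G × G) × K => g p.1.1 (π (p.1.1 * p.1.2))) := by
      apply Trk_meas hD hg.meas
      · exact measurable_fst.comp measurable_fst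
      · exact (measurable_fst.comp measurable_fst).mul (measurable_snd.comp measurable_fst)
    refine Integrable.mono' (i2.norm.mul_const C) (i2.1.mul hm.aestronglyMeasurable)
      (Filter.Eventually.of_forall fun p => ?_)
    rw [norm_mul]
    exact mul_le_mul_of_nonneg_left (hC _ _) (norm_nonneg _)
  have s5 : av μ π (fun h => a (x * h)) g = av μ π (fun h => ∫ k : K, a (x * ((k : G) * h)) ∂κ) g := by
    have h1 := Trk_fub (μ := μ) (π := π) hκ
      (F := fun v h k => a (x * ((k : G) * h)) * g v (π (v * h))) hF2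
    have e0 : av μ π (fun h => ∫ k : K, a (x * ((k : G) * h)) ∂κ) g =
        ∫ k : K, av μ π (fun h => a (x * ((k : G) * h))) g ∂κ := by
      unfold av
      rw [← h1]
      have e1 : ∀ v h : G, (∫ k : K, a (x * ((k : G) * h)) ∂κ) * g v (π (v * h)) =
          ∫ k : K, a (x * ((k : G) * h)) * g v (π (v * h)) ∂κ := by
        intro v h
        rw [integral_mul_const]
      simp only [e1]
    rw [e0]
    simp only [← s4]
    rw [integral_const]
    simp
  rw [s3, s5]
  congr 1
  funext h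
  obtain ⟨w, hw, hwx⟩ := hx
  have hxw : x = w⁻¹ * (x⁻¹ * w) := by
    rw [← hwx]
    group
  unfold Pk
  have e1 : ∀ k : K, a (x * ((k : G) * h)) = a (x⁻¹ * ((⟨w, hw⟩ * k : K) : G) * h) := by
    intro k
    have : x * ((k : G) * h) = w⁻¹ * (x⁻¹ * ((⟨w, hw⟩ * k : K) : G) * h) := by
      conv_lhs => rw [hxw]
      simp only [Subgroup.coe_mul, mul_assoc]
    rw [this]
    exact ha.left _ (K.inv_mem hw) _
  simp only [e1]
  rw [integral_mul_left_eq_self (μ := κ) (fun k : K => a (x⁻¹ * (k : G) * h)) ⟨w, hw⟩]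
  have e2 := integral_inv_eq_self (fun k : K => a (x⁻¹ * (k : G) * h)) κ
  rw [← e2]
  rfl

omit [TopologicalSpace G] [IsTopologicalGroup G] [T2Space G] [LocallyCompactSpace G]
  [SecondCountableTopology G] [BorelSpace G] in
private lemma Trk_iterK [MeasurableMul₂ G] (hκ : Kp K κ) {x : G} {f : G → ℝ}
    (hf : ∀ v, ∀ k ∈ K, f (v * k) = f v) (j : ℕ) (v : G) {k : G} (hk : k ∈ K) :
    (Pv K κ x)^[j] f (v * k) = (Pv K κ x)^[j] f v := by
  cases j with
  | zero => exact hf v k hk
  | succ j =>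
    rw [Function.iterate_succ_apply']
    exact Pv_rightK hκ _ hk v

theorem av_pv_iter (hD : Dm μ Γ π) (hκ : Kp K κ) (hK : IsCompact (K : Set G)) {x : G}
    (hx : ∃ w ∈ K, w * x * w⁻¹ = x⁻¹) {a : G → ℝ} (ha : Bk K a) {g : G → Γ → ℝ} (hg : Gf g)
    (hgK : ∀ v γ, ∀ k ∈ K, g (v * k) γ = g v γ) (j : ℕ) :
    av μ π a (fun v γ => (Pv K κ x)^[j] (fun u => g u γ) v)
      = av μ π ((Pk K κ x)^[j] a) g := by
  induction j generalizing a with
  | zero => rfl
  | succ j ih =>
    have h1 := av_pv (μ := μ) hD hκ hK hx ha (Gf.pv_iter (x := x) hκ hg j)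
      (fun v γ k hk => Trk_iterK hκ (fun u k' hk' => hgK u γ k' hk') j v hk)
    rw [Function.iterate_succ_apply, ← ih (ha.pk hκ hK x), ← h1]
    congr 1
    funext v γ
    rw [Function.iterate_succ_apply']

theorem av_rk (hD : Dm μ Γ π) {x : G} {ρ : G → ℝ} (hw : Wk K κ μ x ρ) {g : G → Γ → ℝ}
    (hg : Gf g) (hgK : ∀ v γ, ∀ k ∈ K, g (v * k) γ = g v γ) (j : ℕ) :
    av μ π ρ (fun v γ => (Pv K κ x)^[j] (fun u => g u γ) v)
      = av μ π (rk K κ x ρ j) g :=
  av_pv_iter hD hw.kp hw.cpt hw.weyl hw.bk hg hgK j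

end SPN
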