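import Pool.Agent.SPN.Pos
import Pool.Agent.SPN.Trk

/-! # Module AOne (difficulty 4): the energy estimate (A1)

Let `b = Sf (mk m)`, `F = F m`. By `he.incr` at the point `v k` and `Sf_rightK`:
`(b(v k a_1) - b(v))² ≤ ∫_0^1 F(v k a_u) du`, so `grv (a_1) b v ≤ ∫_0^1 Pv (a_u) F v du` (integrate over `K`, exchange;
`F` is bounded and measurable, `(v, k, u) ↦ F(v k a_u)` is measurable since `xt` is continuous).
Integrate against `rk j` (`av_mono_right`; the right side `(v, γ) ↦ ∫_0^1 Pv (a_u) F` is `Gf`: measurable as a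
parametric integral, bounded, invariant) and exchange again:
`av (rk j) (grv b) ≤ ∫_0^1 av (rk j) (Pv (a_u) F) du = ∫_0^1 av (Pk (a_u) (rk j)) F du` (`av_pv`, `hx.weyl`).
By `Pk_rk`, `Pk_le` and `Pk_mono` (iterated): `Pk (a_u) (rk j) = (Pk a_1)^[j] (Pk (a_u) ρ) ≤ C₁ rk (j + l)`
(`rk_add`), so `av (Pk (a_u) (rk j)) F ≤ C₁ av (rk (j + l)) F` (`av_mono_left`). The sum over `j < n` is
`≤ C₁ av (mk (n + l)) F ≤ C₁ C₂ (n + l) ≤ C₁ C₂ (1 + l) n` for `n ≥ 1` (`av_sum_left`: the sum over `range (n + l)`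
contains the shifted range; `he.energy` with `m ≤ n ≤ n + l`); for `n = 0` both sides are `0`.
(`C₂` may be replaced by `max C₂ 0`.) -/

open MeasureTheory

namespace SPN

variable {G : Type*} [Group G] [TopologicalSpace G] [IsTopologicalGroup G] [T2Space G]
  [LocallyCompactSpace G] [SecondCountableTopology G] [MeasurableSpace G] [BorelSpace G]
  {μ : Measure G} [IsFiniteMeasureOnCompacts μ] [μ.IsMulLeftInvariant] [SigmaFinite μ]
  [μ.IsMulRightInvariant] {Γ : Subgroup G} {π : G → Γ} {X : Type*} [LinearOrder X] {q : Γ → X}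
  {K : Subgroup G} {κ : Measure K} {xt : ℝ → G}

set_option linter.unusedSectionVars false

private theorem AOne_meas {Ω : Type*} [MeasurableSpace Ω] (hD : Dm μ Γ π) {f : Ω → G}
    (hf : Measurable f) {g : Ω → Γ → ℝ} (hg : ∀ γ, Measurable (fun p => g p γ)) :
    Measurable (fun p => g p (π (f p))) := by
  have hcnt : Countable Γ := hD.cnt
  intro s hs
  have h1 : (fun p => g p (π (f p))) ⁻¹' s
      = ⋃ γ : Γ, (f ⁻¹' (π ⁻¹' {γ})) ∩ ((fun p => g p γ) ⁻¹' s) := by
    ext p
    simp only [Set.mem_preimage, Set.mem_iUnion, Set.mem_inter_iff, Set.mem_singleton_iff]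
    constructor
    · intro h
      exact ⟨π (f p), rfl, h⟩
    · rintro ⟨γ, h2, h3⟩
      rw [h2]
      exact h3
  rw [h1]
  exact MeasurableSet.iUnion (fun γ => (hf (hD.meas γ)).inter (hg γ hs))

private theorem AOne_av_int (hD : Dm μ Γ π) {a : G → ℝ} (ha : Integrable a μ) {ν : Measure ℝ}
    [IsFiniteMeasure ν] {g : ℝ → G → Γ → ℝ}
    (hm : ∀ γ, Measurable (fun p : ℝ × G => g p.1 p.2 γ)) {C : ℝ}
    (hC : ∀ u v γ, |g u v γ| ≤ C) :
    av μ π a (fun v γ => ∫ u, g u v γ ∂ν) = ∫ u, av μ π a (g u) ∂ν := by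
  have hfin : IsFiniteMeasure (μ.restrict (D0 π)) := ⟨by
    rw [Measure.restrict_apply_univ]
    exact hD.fin⟩
  -- the function on the triple product
  have hΦ : Integrable (fun p : (G × ℝ) × G => a p.2 * g p.1.2 p.1.1 (π (p.1.1 * p.2)))
      (((μ.restrict (D0 π)).prod ν).prod μ) := by
    have h1 : Integrable (fun p : (G × ℝ) × G => a p.2)
        (((μ.restrict (D0 π)).prod ν).prod μ) := by
      have h2 : Integrable (fun p : (G × ℝ) × G => (1 : ℝ) * a p.2)
          (((μ.restrict (D0 π)).prod ν).prod μ) :=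
        Integrable.mul_prod (f := fun _ : G × ℝ => (1 : ℝ)) (integrable_const _) ha
      simpa using h2
    have h3 : Measurable (fun p : (G × ℝ) × G => g p.1.2 p.1.1 (π (p.1.1 * p.2))) :=
      AOne_meas (Ω := (G × ℝ) × G) hD (f := fun p => p.1.1 * p.2)
        (measurable_fst.fst.mul measurable_snd)
        (g := fun p γ => g p.1.2 p.1.1 γ)
        (fun γ => (hm γ).comp (measurable_fst.snd.prodMk measurable_fst.fst))
    exact h1.mul_bdd (c := C) h3.aestronglyMeasurable
      (Filter.Eventually.of_forall (fun p => by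
        rw [Real.norm_eq_abs]
        exact hC _ _ _))
  have hin : ∀ v : G, Integrable (fun p : G × ℝ => a p.1 * g p.2 v (π (v * p.1)))
      (μ.prod ν) := by
    intro v
    have h1 : Integrable (fun p : G × ℝ => a p.1) (μ.prod ν) := by
      have h2 : Integrable (fun p : G × ℝ => a p.1 * (1 : ℝ)) (μ.prod ν) :=
        Integrable.mul_prod (g := fun _ : ℝ => (1 : ℝ)) ha (integrable_const _)
      simpa using h2
    have h3 : Measurable (fun p : G × ℝ => g p.2 v (π (v * p.1))) :=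
      AOne_meas (Ω := G × ℝ) hD (f := fun p => v * p.1)
        (measurable_fst.const_mul v)
        (g := fun p γ => g p.2 v γ)
        (fun γ => (hm γ).comp (measurable_snd.prodMk measurable_const))
    exact h1.mul_bdd (c := C) h3.aestronglyMeasurable
      (Filter.Eventually.of_forall (fun p => by
        rw [Real.norm_eq_abs]
        exact hC _ _ _))
  have e1 : ∀ v : G, ∫ h, a h * ∫ u, g u v (π (v * h)) ∂ν ∂μ
      = ∫ u, ∫ h, a h * g u v (π (v * h)) ∂μ ∂ν := by
    intro v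
    rw [← integral_integral_swap (f := fun h u => a h * g u v (π (v * h))) (hin v)]
    congr 1
    funext h
    rw [integral_const_mul]
  unfold av
  simp only [e1]
  rw [integral_integral_swap (f := fun v u => ∫ h, a h * g u v (π (v * h)) ∂μ)]
  exact hΦ.integral_prod_left

omit [T2Space G] [LocallyCompactSpace G] in
private theorem AOne_pv_meas (hκ : Kp K κ) (hx : Ax K xt) {g : G → Γ → ℝ}
    (hg : Gf g) (γ : Γ) :
    Measurable (fun p : ℝ × G => Pv K κ (xt p.1) (fun w => g w γ) p.2) := by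
  have hp := hκ.prob
  unfold Pv
  have h1 : Measurable (fun p : (ℝ × G) × K => g (p.1.2 * (p.2 : G) * xt p.1.1) γ) := by
    refine (hg.meas γ).comp ?_
    exact (measurable_fst.snd.mul (measurable_subtype_coe.comp measurable_snd)).mul
      (hx.cont.measurable.comp measurable_fst.fst)
  exact (h1.stronglyMeasurable.integral_prod_right' (ν := κ)).measurable

private theorem AOne_bk_int (hκ : Kp K κ) (hx : Ax K xt) {g : G → Γ → ℝ}
    (hg : Gf g) (v : G) (γ : Γ) :
    Integrable (fun p : K × ℝ => g (v * (p.1 : G) * xt p.2) γ)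
      (κ.prod (volume.restrict (Set.Ioc (0 : ℝ) 1))) := by
  have hp := hκ.prob
  obtain ⟨C, hC⟩ := hg.bdd
  have h1 : Measurable (fun p : K × ℝ => g (v * (p.1 : G) * xt p.2) γ) := by
    refine (hg.meas γ).comp ?_
    exact ((measurable_subtype_coe.comp measurable_fst).const_mul v).mul
      (hx.cont.measurable.comp measurable_snd)
  exact Integrable.of_bound h1.aestronglyMeasurable C
    (Filter.Eventually.of_forall (fun p => by
      rw [Real.norm_eq_abs]
      exact hC _ _))

private theorem AOne_grv_le (hx : Ax K xt) {ρ : G → ℝ}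
    (hw : Wk K κ μ (xt 1) ρ) {F : ℕ → G → Γ → ℝ}
    (he : En μ π q K κ xt ρ F) (hD : Dm μ Γ π) (hq : Mo q) (m : ℕ) (v : G) (γ : Γ) :
    grv K κ (xt 1) (fun u => Sf μ π q (mk K κ (xt 1) ρ m) u γ) v
      ≤ ∫ u in Set.Ioc (0 : ℝ) 1, Pv K κ (xt u) (fun w => F m w γ) v := by
  have hp := hw.kp.prob
  have hint := AOne_bk_int (κ := κ) hw.kp hx (he.gf m) v γ
  have hbk := mk_bk (μ := μ) hw m
  have hG : Gf (Sf μ π q (mk K κ (xt 1) ρ m)) := Gf_Sf hD hq hbk.integrable
  obtain ⟨C, hC⟩ := hG.bdd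
  have h1 : ∀ k : K, (Sf μ π q (mk K κ (xt 1) ρ m) (v * k * xt 1) γ
      - Sf μ π q (mk K κ (xt 1) ρ m) v γ) ^ 2
      ≤ ∫ u in Set.Ioc (0 : ℝ) 1, F m (v * k * xt u) γ := by
    intro k
    have h2 := he.incr m (v * k) γ 1 zero_le_one
    rw [Sf_rightK hbk v γ k.2, one_mul, intervalIntegral.integral_of_le zero_le_one] at h2
    exact h2
  have h3 : grv K κ (xt 1) (fun u => Sf μ π q (mk K κ (xt 1) ρ m) u γ) v
      ≤ ∫ k : K, (∫ u in Set.Ioc (0 : ℝ) 1, F m (v * k * xt u) γ) ∂κ := by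
    unfold grv
    refine integral_mono_of_nonneg (Filter.Eventually.of_forall (fun k => sq_nonneg _))
      ?_ (Filter.Eventually.of_forall h1)
    exact hint.integral_prod_left
  refine h3.trans (le_of_eq ?_)
  rw [integral_integral_swap (f := fun (k : K) (u : ℝ) => F m (v * k * xt u) γ) hint]
  rfl

private theorem AOne_pk_iter_le (hκ : Kp K κ) (hK : IsCompact (K : Set G)) (x : G)
    (j : ℕ) : ∀ {b c : G → ℝ}, Bk K b → Bk K c → (∀ h, b h ≤ c h) →
      ∀ h, (Pk K κ x)^[j] b h ≤ (Pk K κ x)^[j] c h := by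
  induction j with
  | zero => intro b c _ _ h; exact h
  | succ j ih =>
    intro b c hb hc h
    rw [Function.iterate_succ_apply, Function.iterate_succ_apply]
    exact ih (hb.pk hκ hK x) (hc.pk hκ hK x)
      (fun y => Pk_mono hκ hK hb.cont hc.cont h x y)

omit [T2Space G] [LocallyCompactSpace G] [SecondCountableTopology G] [BorelSpace G]
  [IsTopologicalGroup G] [TopologicalSpace G] in
private theorem AOne_pk_iter_cmul (x : G) (r : ℝ) (b : G → ℝ) (j : ℕ) :
    (Pk K κ x)^[j] (fun h => r * b h) = fun h => r * (Pk K κ x)^[j] b h := by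
  induction j generalizing b with
  | zero => rfl
  | succ j ih =>
    rw [Function.iterate_succ_apply, Function.iterate_succ_apply]
    have h1 : Pk K κ x (fun h => r * b h) = fun h => r * Pk K κ x b h := by
      funext y
      unfold Pk
      rw [integral_const_mul]
    rw [h1, ih]

theorem a_one (hD : Dm μ Γ π) (hq : Mo q) (hx : Ax K xt) {ρ : G → ℝ}
    (hw : Wk K κ μ (xt 1) ρ) (hr : Rh K xt ρ) {F : ℕ → G → Γ → ℝ}
    (he : En μ π q K κ xt ρ F) :
    ∃ C : ℝ, ∀ n m : ℕ, m ≤ n → ∑ j ∈ Finset.range n, av μ π (rk K κ (xt 1) ρ j)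
      (fun v γ => grv K κ (xt 1) (fun u => Sf μ π q (mk K κ (xt 1) ρ m) u γ) v) ≤ C * n := by
  have hκ : Kp K κ := hw.kp
  have hK := hw.cpt
  obtain ⟨l, C1, hC1, hPk⟩ := Pk_le (μ := μ) hx hw hr
  obtain ⟨C2, hC2⟩ := he.energy
  have hC2' : ∀ r n : ℕ, r ≤ n → av μ π (mk K κ (xt 1) ρ n) (F r) ≤ max C2 0 * n :=
    fun r n h => (hC2 r n h).trans
      (mul_le_mul_of_nonneg_right (le_max_left _ _) (Nat.cast_nonneg n))
  have hM0 : 0 ≤ max C2 0 := le_max_right _ _
  -- one term
  have hone : ∀ j m : ℕ, av μ π (rk K κ (xt 1) ρ j)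
      (fun v γ => grv K κ (xt 1) (fun u => Sf μ π q (mk K κ (xt 1) ρ m) u γ) v)
      ≤ C1 * av μ π (rk K κ (xt 1) ρ (l + j)) (F m) := by
    intro j m
    have hbj : Bk K (rk K κ (xt 1) ρ j) := rk_bk (μ := μ) hw j
    have hbj0 := rk_nonneg (μ := μ) hw j
    have haj : Integrable (rk K κ (xt 1) ρ j) μ := hbj.integrable
    obtain ⟨C, hC⟩ := (he.gf m).bdd
    have hC0 : 0 ≤ C := (abs_nonneg _).trans (hC 1 1)
    have hp := hκ.prob
    have hpv : ∀ u v γ, |Pv K κ (xt u) (fun w => F m w γ) v| ≤ C := by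
      intro u v γ
      unfold Pv
      rw [← Real.norm_eq_abs]
      refine (norm_integral_le_of_norm_le_const (Filter.Eventually.of_forall (fun k => by
        rw [Real.norm_eq_abs]; exact hC _ _))).trans ?_
      simp
    have hmeas := fun γ => AOne_pv_meas hκ hx (he.gf m) γ
    have hfinI : IsFiniteMeasure (volume.restrict (Set.Ioc (0 : ℝ) 1)) := by
      constructor
      rw [Measure.restrict_apply_univ, Real.volume_Ioc]
      exact ENNReal.ofReal_lt_top
    have hH : Gf (fun (v : G) (γ : Γ) =>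
        ∫ u in Set.Ioc (0 : ℝ) 1, Pv K κ (xt u) (fun w => F m w γ) v) := by
      refine ⟨?_, ⟨C, ?_⟩, ?_⟩
      · intro γ
        have h1 : StronglyMeasurable (fun p : G × ℝ =>
            Pv K κ (xt p.2) (fun w => F m w γ) p.1) :=
          ((hmeas γ).comp (measurable_snd.prodMk measurable_fst)).stronglyMeasurable
        exact (h1.integral_prod_right' (ν := volume.restrict (Set.Ioc (0 : ℝ) 1))).measurable
      · intro v γ
        rw [← Real.norm_eq_abs]
        refine (norm_integral_le_of_norm_le_const (Filter.Eventually.of_forall (fun u => by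
          rw [Real.norm_eq_abs]; exact hpv u v γ))).trans ?_
        simp
      · intro δ v γ
        congr 1
        funext u
        unfold Pv
        congr 1
        funext k
        have h1 := (he.gf m).inv δ (v * k * xt u) γ
        change F m (δ * v * k * xt u) (δ * γ) = F m (v * k * xt u) γ
        rw [← h1]
        simp only [mul_assoc]
    have hG : Gf (Sf μ π q (mk K κ (xt 1) ρ m)) :=
      Gf_Sf hD hq (mk_bk (μ := μ) hw m).integrable
    have h1 : av μ π (rk K κ (xt 1) ρ j)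
        (fun v γ => grv K κ (xt 1) (fun u => Sf μ π q (mk K κ (xt 1) ρ m) u γ) v)
        ≤ av μ π (rk K κ (xt 1) ρ j) (fun (v : G) (γ : Γ) =>
          ∫ u in Set.Ioc (0 : ℝ) 1, Pv K κ (xt u) (fun w => F m w γ) v) :=
      av_mono_right hD haj hbj0 (Gf.grv hκ hG) hH
        (fun v γ => AOne_grv_le hx hw he hD hq m v γ)
    have h2 := AOne_av_int (μ := μ) (π := π) hD haj
      (ν := volume.restrict (Set.Ioc (0 : ℝ) 1))
      (g := fun u v γ => Pv K κ (xt u) (fun w => F m w γ) v) hmeas hpv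
    rw [h2] at h1
    refine h1.trans ?_
    have h3 : ∀ u ∈ Set.Ioc (0 : ℝ) 1, av μ π (rk K κ (xt 1) ρ j)
        (fun v γ => Pv K κ (xt u) (fun w => F m w γ) v)
        ≤ C1 * av μ π (rk K κ (xt 1) ρ (l + j)) (F m) := by
      intro u hu
      have hweyl : ∃ w ∈ K, w * xt u * w⁻¹ = (xt u)⁻¹ := by
        obtain ⟨w, hw1, hw2⟩ := hx.weyl
        exact ⟨w, hw1, hw2 u⟩
      rw [av_pv hD hκ hK hweyl hbj (he.gf m) (he.right m), ← av_cmul_left]
      have hbl : Bk K (rk K κ (xt 1) ρ (l + j)) := rk_bk (μ := μ) hw (l + j)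
      refine av_mono_left hD (hbj.pk hκ hK (xt u)).integrable (hbl.cmul C1).integrable ?_
        (he.gf m) (he.nonneg m)
      intro h
      rw [Pk_rk (μ := μ) hx hw hr (xt u) j]
      have h4 := AOne_pk_iter_le hκ hK (xt 1) j (hw.bk.pk hκ hK (xt u))
        ((rk_bk (μ := μ) hw l).cmul C1) (hPk u hu.1.le hu.2) h
      refine h4.trans (le_of_eq ?_)
      rw [AOne_pk_iter_cmul, add_comm l j, rk_add]
    have h5 : 0 ≤ᵐ[volume.restrict (Set.Ioc (0 : ℝ) 1)] fun u =>
        av μ π (rk K κ (xt 1) ρ j) (fun v γ => Pv K κ (xt u) (fun w => F m w γ) v) :=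
      Filter.Eventually.of_forall (fun u => av_nonneg hbj0
        (fun v γ => Pv_nonneg (fun w => he.nonneg m w γ) v))
    have h6 : (fun u => av μ π (rk K κ (xt 1) ρ j)
        (fun v γ => Pv K κ (xt u) (fun w => F m w γ) v))
        ≤ᵐ[volume.restrict (Set.Ioc (0 : ℝ) 1)]
        fun _ => C1 * av μ π (rk K κ (xt 1) ρ (l + j)) (F m) := by
      rw [Filter.EventuallyLE, ae_restrict_iff' measurableSet_Ioc]
      exact Filter.Eventually.of_forall h3
    refine (integral_mono_of_nonneg h5 (integrable_const _) h6).trans (le_of_eq ?_)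
    simp
  refine ⟨C1 * (max C2 0 * (1 + l)), ?_⟩
  intro n m hmn
  rcases Nat.eq_zero_or_pos n with hn0 | hn0
  · subst hn0
    simp
  have h7 : ∑ j ∈ Finset.range n, av μ π (rk K κ (xt 1) ρ j)
      (fun v γ => grv K κ (xt 1) (fun u => Sf μ π q (mk K κ (xt 1) ρ m) u γ) v)
      ≤ ∑ j ∈ Finset.range n, C1 * av μ π (rk K κ (xt 1) ρ (l + j)) (F m) :=
    Finset.sum_le_sum (fun j _ => hone j m)
  refine h7.trans ?_
  rw [← Finset.mul_sum]
  have h8 : ∑ j ∈ Finset.range n, av μ π (rk K κ (xt 1) ρ (l + j)) (F m)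
      ≤ av μ π (mk K κ (xt 1) ρ (l + n)) (F m) := by
    have h9 : av μ π (mk K κ (xt 1) ρ (l + n)) (F m)
        = ∑ i ∈ Finset.range (l + n), av μ π (rk K κ (xt 1) ρ i) (F m) :=
      av_sum_left hD (Finset.range (l + n))
        (fun i _ => (rk_bk (μ := μ) hw i).integrable) (he.gf m)
    rw [h9, Finset.sum_range_add]
    have h10 : 0 ≤ ∑ i ∈ Finset.range l, av μ π (rk K κ (xt 1) ρ i) (F m) :=
      Finset.sum_nonneg (fun i _ => av_nonneg (rk_nonneg (μ := μ) hw i) (he.nonneg m))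
    linarith
  have h11 := hC2' m (l + n) (by omega)
  have h12 : ((l + n : ℕ) : ℝ) ≤ (1 + l) * n := by
    push_cast
    have h13 : (1 : ℝ) ≤ n := by exact_mod_cast hn0
    have h14 : (0 : ℝ) ≤ l := Nat.cast_nonneg l
    nlinarith
  calc C1 * ∑ j ∈ Finset.range n, av μ π (rk K κ (xt 1) ρ (l + j)) (F m)
      ≤ C1 * (max C2 0 * ((1 + l) * n)) := by
        apply mul_le_mul_of_nonneg_left _ hC1
        exact h8.trans (h11.trans (mul_le_mul_of_nonneg_left h12 hM0))
    _ = C1 * (max C2 0 * (1 + l)) * n := by ring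

end SPN
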