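import Pool.Agent.SPN.Hyp
import Pool.Agent.SPN.Ab

/-! # compactness of `K`, the Haar probability measure `kap` of `K`, the balls `BR` -/

open MeasureTheory Matrix
open scoped ContDiff

noncomputable section

namespace SPN

variable {n : ℕ}

theorem sum_norm_sq_col {A : Mt n} (h : Aᴴ * A = 1) (j : Fin (n + 1)) :
    ∑ i, ‖A i j‖ ^ 2 = 1 := by
  have h1 := congrArg (fun M : Mt n => (M j j).re) h
  simp only [Matrix.mul_apply, Matrix.conjTranspose_apply, Matrix.one_apply_eq] at h1
  have h2 : (∑ x, star (A x j) * A x j).re = ∑ x, ‖A x j‖ ^ 2 := by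
    have h3 : ∀ x, star (A x j) * A x j = ((‖A x j‖ ^ 2 : ℝ) : Quaternion ℝ) := by
      intro x
      rw [Quaternion.star_mul_self, Quaternion.normSq_eq_norm_mul_self, sq]
    have h4 : (∑ x, star (A x j) * A x j).re = ∑ x, (star (A x j) * A x j).re :=
      map_sum (QuaternionAlgebra.reₗ (R := ℝ) (c₁ := -1) (c₂ := 0) (c₃ := -1)) _ _
    rw [h4]
    refine Finset.sum_congr rfl fun x _ => ?_
    rw [h3 x]
    rfl
  rw [h2] at h1
  rw [h1]
  rfl

theorem isCompact_KK (n : ℕ) : IsCompact (KK n : Set (GG n)) := by
  have h1 : IsCompact {A : Mt n | Aᴴ * A = 1} := by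
    have h2 : IsCompact (Set.pi Set.univ
        (fun _ : Fin (n + 1) => Set.pi Set.univ
          (fun _ : Fin (n + 1) => Metric.closedBall (0 : Quaternion ℝ) 1))) := by
      have : ProperSpace (Quaternion ℝ) := FiniteDimensional.proper_real (Quaternion ℝ)
      exact isCompact_univ_pi fun _ => isCompact_univ_pi fun _ => isCompact_closedBall _ _
    refine IsCompact.of_isClosed_subset h2 (isClosed_eq (by fun_prop) continuous_const) ?_
    intro A hA i _ j _
    rw [Metric.mem_closedBall, dist_zero_right]
    have h3 := sum_norm_sq_col hA j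
    have h4 : ‖A i j‖ ^ 2 ≤ 1 := by
      rw [← h3]
      exact Finset.single_le_sum (f := fun i => ‖A i j‖ ^ 2) (fun _ _ => sq_nonneg _)
        (Finset.mem_univ i)
    nlinarith [norm_nonneg (A i j)]
  exact GG.isClosedEmbedding_mat.isCompact_preimage h1

instance : CompactSpace (KK n) := isCompact_iff_compactSpace.1 (isCompact_KK n)

/-- the Haar probability measure of `K` -/
def kap (n : ℕ) : Measure (KK n) := Measure.haarMeasure ⊤

instance (n : ℕ) : (kap n).IsHaarMeasure :=
  inferInstanceAs (Measure.haarMeasure (⊤ : TopologicalSpace.PositiveCompacts (KK n))).IsHaarMeasure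

instance (n : ℕ) : IsProbabilityMeasure (kap n) :=
  ⟨by
    have h := Measure.haarMeasure_self (K₀ := (⊤ : TopologicalSpace.PositiveCompacts (KK n)))
    rwa [TopologicalSpace.PositiveCompacts.coe_top] at h⟩

instance (n : ℕ) : (kap n).IsMulRightInvariant := by
  refine ⟨fun g => ?_⟩
  have : IsProbabilityMeasure (Measure.map (· * g) (kap n)) :=
    Measure.isProbabilityMeasure_map (by fun_prop)
  exact Measure.isHaarMeasure_eq_of_isProbabilityMeasure _ _

instance (n : ℕ) : (kap n).IsInvInvariant := by
  refine ⟨?_⟩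
  have : IsProbabilityMeasure (kap n).inv :=
    Measure.isProbabilityMeasure_map (by fun_prop)
  have h1 : (kap n).inv.IsMulLeftInvariant := inferInstance
  have : (kap n).inv.IsHaarMeasure :=
    { toIsMulLeftInvariant := h1
      lt_top_of_isCompact := fun s _ => measure_lt_top _ _
      open_pos := fun U hU hne => by
        rw [Measure.inv_apply]
        exact (hU.inv).measure_ne_zero _ hne.inv }
  exact Measure.isHaarMeasure_eq_of_isProbabilityMeasure _ _

theorem kp_kap (n : ℕ) : Kp (KK n) (kap n) :=
  ⟨inferInstance, inferInstance, inferInstance, inferInstance⟩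

end SPN

end
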