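import Pool.Agent.SPN.Com
import Pool.Agent.SPN.Kap

/-! # Module Kin (difficulty 4): derivatives of `K`-invariant functions

`exists_curve`. PROOF. `k t = exp (t • Y)` (matrix exponential, e.g. with the local instances
`Matrix.linftyOpNormedRing`, `Matrix.linftyOpNormedAlgebra`; `NormedSpace.exp`): `Matrix.exp_conjTranspose` or
`NormedSpace.star_exp`-like: `(exp (tY))ᴴ = exp (tYᴴ) = exp (-tY)`, which is the inverse, so
`(k t)ᴴ * k t = 1`; `exp (tY)` commutes with `J` since `Y` does, so `(k t)ᴴ J (k t) = J`; the derivative at `0` is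
`Y` (`hasDerivAt_exp_smul_const'`), entrywise. (Alternatively the Cayley transform.)
`LX_K_zero`: `m (act (k t).mat z) = m z` for all `t`; the derivative at `0` is `fderiv ℝ m z (act Y z) = 0`.
`D_comm`: `LX_comm` and `LX_K_zero` with `Y = Ym p q` (`Ym_conj`, `Ym_Jm`).
`D_triple`: the left side is `LX (Ym p q) (Dp r m) z` (`LX_comm` for `Dp r m`), and
`LX (Ym p q) (Dp r m) = Dp r (LX (Ym p q) m) + LX (Ym p q * Xm r - Xm r * Ym p q) m` (`LX_comm`), the first term is
`0` (`LX (Ym p q) m` vanishes identically), the second is `Dp (tp p q r) m` (`Xm_triple`).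
`av_Y`: `∫_K (LX Y g)(k⁻¹ z) dk = 0` for every smooth `g`: put `c t` from `exists_curve`. For every `t`
`∫_K g (k⁻¹ z) dk = ∫_K g ((c t) k⁻¹ z) dk` (`k⁻¹ ↦ (k (c t)⁻¹)⁻¹`, right invariance of `kap`). Differentiate at
`t = 0` under the integral sign (the derivative is needed only at `t = 0`, but domination needs a bound of the
increments: use the curve `c` given by `exp`, differentiable at every `t` with derivative `Y c(t)`; therefore
`exists_curve` states the derivative for all `t`). -/

open MeasureTheory Matrix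
open scoped ContDiff

noncomputable section

namespace SPN

variable {n : ℕ}

open scoped Matrix.Norms.Operator in
set_option backward.isDefEq.respectTransparency false in
theorem kin_hasDerivAt_exp (Y : Mt n) (t : ℝ) (i j : Fin (n + 1)) :
    HasDerivAt (fun s : ℝ => (NormedSpace.exp (s • Y)) i j) ((Y * NormedSpace.exp (t • Y)) i j) t := by
  have h := hasDerivAt_exp_smul_const' (𝕂 := ℝ) Y t
  have hL : HasDerivAt (fun s : ℝ =>
      (LinearMap.toContinuousLinearMap (Matrix.entryLinearMap ℝ (Quaternion ℝ) i j))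
        (NormedSpace.exp (s • Y)))
      ((LinearMap.toContinuousLinearMap (Matrix.entryLinearMap ℝ (Quaternion ℝ) i j))
        (Y * NormedSpace.exp (t • Y))) t :=
    (LinearMap.toContinuousLinearMap
      (Matrix.entryLinearMap ℝ (Quaternion ℝ) i j)).hasFDerivAt.comp_hasDerivAt t h
  exact hL

theorem kin_exp_add (A B : Mt n) (h : Commute A B) :
    NormedSpace.exp (A + B) = NormedSpace.exp A * NormedSpace.exp B := by
  letI : NormedAlgebra ℚ (Quaternion ℝ) := NormedAlgebra.restrictScalars ℚ ℝ (Quaternion ℝ)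
  exact Matrix.exp_add_of_commute A B h

theorem exists_curve {Y : Mt n} (h1 : Yᴴ = - Y) (h2 : Y * Jm n = Jm n * Y) :
    ∃ c : ℝ → GG n, c 0 = 1 ∧ (∀ t, c t ∈ KK n) ∧
      ∀ t i j, HasDerivAt (fun s => (c s).mat i j) ((Y * (c t).mat) i j) t := by
  have hst : ∀ t : ℝ, (NormedSpace.exp (t • Y))ᴴ = NormedSpace.exp ((-t) • Y) := by
    intro t
    rw [← Matrix.exp_conjTranspose]
    congr 1
    have h3 : (t • Y)ᴴ = t • Yᴴ := by
      ext a b : 1
      simp [Matrix.conjTranspose_apply]
    rw [h3, h1]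
    simp
  have hinv : ∀ t : ℝ, NormedSpace.exp ((-t) • Y) * NormedSpace.exp (t • Y) = 1 := by
    intro t
    rw [← kin_exp_add]
    · rw [← add_smul, neg_add_cancel, zero_smul, NormedSpace.exp_zero]
    · exact ((Commute.refl Y).smul_left _).smul_right _
  have hJ : ∀ t : ℝ, Jm n * NormedSpace.exp (t • Y) = NormedSpace.exp (t • Y) * Jm n := by
    intro t
    have h4 : Commute (Jm n) (t • Y) := (show Commute (Jm n) Y from h2.symm).smul_right t
    exact h4.exp_right
  have hform : ∀ t : ℝ, (NormedSpace.exp (t • Y))ᴴ * Jm n * NormedSpace.exp (t • Y) = Jm n := by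
    intro t
    rw [mul_assoc, hJ, ← mul_assoc, hst, hinv, one_mul]
  refine ⟨fun t => ⟨NormedSpace.exp (t • Y), hform t⟩, ?_, ?_, ?_⟩
  · apply GG.ext
    change NormedSpace.exp ((0 : ℝ) • Y) = 1
    rw [zero_smul, NormedSpace.exp_zero]
  · intro t
    rw [mem_KK]
    change (NormedSpace.exp (t • Y))ᴴ * NormedSpace.exp (t • Y) = 1
    rw [hst, hinv]
  · intro t i j
    exact kin_hasDerivAt_exp Y t i j

/-- the derivative of the curve `act (c t) z` -/
theorem kin_curve_act {c : ℝ → GG n} {Y : Mt n}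
    (hc : ∀ t i j, HasDerivAt (fun s => (c s).mat i j) ((Y * (c t).mat) i j) t) (w : EE n)
    (t : ℝ) : HasDerivAt (fun s => act (c s).mat w) (act Y (act (c t).mat w)) t := by
  rw [hasDerivAt_pi]
  intro i
  have h1 : HasDerivAt (fun s => ∑ j, (c s).mat i j * w j) (∑ j, (Y * (c t).mat) i j * w j) t := by
    apply HasDerivAt.fun_sum
    intro j _
    exact (hc t i j).mul_const (w j)
  have h2 : act Y (act (c t).mat w) i = ∑ j, (Y * (c t).mat) i j * w j := by
    rw [← act_mul, act_apply]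
    rfl
  rw [h2]
  exact h1

theorem kin_curve_fun {c : ℝ → GG n} {Y : Mt n}
    (hc : ∀ t i j, HasDerivAt (fun s => (c s).mat i j) ((Y * (c t).mat) i j) t)
    {g : EE n → ℝ} (hg : ContDiff ℝ ∞ g) (w : EE n) (t : ℝ) :
    HasDerivAt (fun s => g (act (c s).mat w)) (- LX Y g (act (c t).mat w)) t := by
  have h1 : HasFDerivAt g (fderiv ℝ g (act (c t).mat w)) (act (c t).mat w) :=
    (hg.differentiable (by simp) _).hasFDerivAt
  have h2 := h1.comp_hasDerivAt t (kin_curve_act hc w t)
  have h3 : - LX Y g (act (c t).mat w)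
      = fderiv ℝ g (act (c t).mat w) (act Y (act (c t).mat w)) := by
    unfold LX
    rw [neg_neg]
  rw [h3]
  exact h2

theorem LX_K_zero {Y : Mt n} (h1 : Yᴴ = - Y) (h2 : Y * Jm n = Jm n * Y) {m : EE n → ℝ}
    (hm : ContDiff ℝ ∞ m) (hK : ∀ k ∈ KK n, ∀ z, m (act k.mat z) = m z) (z : EE n) :
    LX Y m z = 0 := by
  obtain ⟨c, c0, cK, hc⟩ := exists_curve h1 h2
  have h3 := kin_curve_fun hc hm z 0
  have h4 : (fun s => m (act (c s).mat z)) = fun _ => m z := by
    funext s
    exact hK _ (cK s) z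
  rw [h4] at h3
  have h5 := h3.unique (hasDerivAt_const (0 : ℝ) (m z))
  have h6 : act (c 0).mat z = z := by
    rw [c0, GG.mat_one, act_apply, Matrix.one_mulVec]
  rw [h6] at h5
  linarith

theorem D_comm {m : EE n → ℝ} (hm : ContDiff ℝ ∞ m)
    (hK : ∀ k ∈ KK n, ∀ z, m (act k.mat z) = m z) (p q : PP n) (z : EE n) :
    Dp p (Dp q m) z = Dp q (Dp p m) z := by
  have h1 := LX_comm hm (Xm p) (Xm q) z
  have h2 : LX (Xm p * Xm q - Xm q * Xm p) m z = 0 :=
    LX_K_zero (Y := Ym p q) (Ym_conj p q) (Ym_Jm p q) hm hK z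
  rw [h2] at h1
  unfold Dp
  linarith

theorem D_triple {m : EE n → ℝ} (hm : ContDiff ℝ ∞ m)
    (hK : ∀ k ∈ KK n, ∀ z, m (act k.mat z) = m z) (p q r : PP n) (z : EE n) :
    Dp p (Dp q (Dp r m)) z - Dp q (Dp p (Dp r m)) z = Dp (tp p q r) m z := by
  have h1 := LX_comm (Dp_contDiff hm r) (Xm p) (Xm q) z
  have h2 := LX_comm hm (Ym p q) (Xm r) z
  have h3 : LX (Ym p q) m = fun _ => 0 := by
    funext w
    exact LX_K_zero (Ym_conj p q) (Ym_Jm p q) hm hK w
  have h4 : LX (Xm r) (fun _ => (0 : ℝ)) z = 0 := by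
    unfold LX
    simp
  rw [h3, h4, sub_zero, Xm_triple] at h2
  unfold Dp at h1 ⊢
  rw [h1]
  exact h2

theorem av_Y {Y : Mt n} (h1 : Yᴴ = - Y) (h2 : Y * Jm n = Jm n * Y) {g : EE n → ℝ}
    (hg : ContDiff ℝ ∞ g) (z : EE n) :
    ∫ k : KK n, LX Y g (act ((k : GG n)⁻¹).mat z) ∂(kap n) = 0 := by
  obtain ⟨c, c0, cK, hc⟩ := exists_curve h1 h2
  -- continuity
  have hcont : ∀ f : EE n → ℝ, Continuous f → ∀ a : GG n,
      Continuous fun k : KK n => f (act (a * (k : GG n)⁻¹).mat z) := by
    intro f hf a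
    apply hf.comp
    have h3 : Continuous fun k : KK n => (a * (k : GG n)⁻¹).mat :=
      GG.continuous_mat.comp (continuous_const.mul (continuous_subtype_val.inv))
    simp only [act_apply]
    exact h3.matrix_mulVec continuous_const
  have hLX : Continuous (LX Y g) := (LX_contDiff hg Y).continuous
  -- the bound
  obtain ⟨C, hC⟩ : ∃ C : ℝ, ∀ k : KK n, ‖LX Y g (act ((k : GG n)⁻¹).mat z)‖ ≤ C := by
    have h4 : Continuous fun k : KK n => LX Y g (act ((k : GG n)⁻¹).mat z) := by
      have := hcont _ hLX 1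
      simpa using this
    obtain ⟨C, hC⟩ := (isCompact_range h4.norm).bddAbove
    exact ⟨C, fun k => hC ⟨k, rfl⟩⟩
  have key := hasDerivAt_integral_of_dominated_loc_of_deriv_le (μ := kap n) (x₀ := (0 : ℝ))
    (s := Set.univ) (bound := fun _ => C)
    (F := fun (t : ℝ) (k : KK n) => g (act (c t * (k : GG n)⁻¹).mat z))
    (F' := fun (t : ℝ) (k : KK n) => - LX Y g (act (c t * (k : GG n)⁻¹).mat z))
    Filter.univ_mem
    (Filter.Eventually.of_forall fun t =>
      ((hcont g hg.continuous (c t)).aestronglyMeasurable))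
    ((hcont g hg.continuous (c 0)).integrable_of_hasCompactSupport (HasCompactSupport.of_compactSpace _))
    ((hcont _ hLX (c 0)).neg.aestronglyMeasurable)
    (Filter.Eventually.of_forall fun k t _ => by
      rw [norm_neg]
      have := hC ((k : KK n) * ⟨c t, cK t⟩⁻¹)
      simpa [_root_.mul_inv_rev] using this)
    (integrable_const _)
    (Filter.Eventually.of_forall fun k t _ => by
      have h5 := kin_curve_fun hc hg (act ((k : GG n)⁻¹).mat z) t
      simp only [← act_mul] at h5
      exact h5)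
  have h6 : (fun t : ℝ => ∫ k : KK n, g (act (c t * (k : GG n)⁻¹).mat z) ∂(kap n))
      = fun _ => ∫ k : KK n, g (act ((k : GG n)⁻¹).mat z) ∂(kap n) := by
    funext t
    have h7 := MeasureTheory.integral_mul_right_eq_self (μ := kap n)
      (fun k : KK n => g (act ((k : GG n)⁻¹).mat z)) (⟨c t, cK t⟩⁻¹ : KK n)
    rw [← h7]
    refine integral_congr_ae (Filter.Eventually.of_forall fun k => ?_)
    simp [_root_.mul_inv_rev]
  have h8 := key.2
  rw [h6] at h8
  have h9 := h8.unique (hasDerivAt_const (0 : ℝ) _)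
  rw [integral_neg, neg_eq_zero] at h9
  rw [← h9]
  refine integral_congr_ae (Filter.Eventually.of_forall fun k => ?_)
  simp [c0]

end SPN

end
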