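import Pool.Agent.SPN.Kap

/-! # Module Cpk (difficulty 3): matrix entries of elements of `Sp(n,1)`

Column 0 of `g* J g = J`: `∑_a ‖g_a0‖² = ‖g_00‖² - 1` (`a` runs over `succ`). Since `g⁻¹ = J g* J`, also
`g J g* = J`: row 0: `∑_b ‖g_0b‖² = ‖g_00‖² - 1`, row `a`: `∑_b ‖g_ab‖² = 1 + ‖g_a0‖² ≤ ‖g_00‖²`.
So all entries are bounded by `‖g_00‖ ≥ 1`. (Pattern: `sum_norm_sq_col` in Kap.lean.)
`isCompact_ball`: as `isCompact_KK`, preimage under `GG.isClosedEmbedding_mat` of the compact set of matrices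
with entries in the closed ball of radius `R`, intersected with a closed set.
`KK_block`: `k* k = 1` and `k* J k = J` give `J k = k J`, so the entries `(0, a)` and `(a, 0)` vanish, and
`‖k_00‖² = 1` (column 0 of `k* k = 1`). `norm_inv`: `GG.mat_inv`. -/

open MeasureTheory Matrix
open scoped ContDiff

noncomputable section

namespace SPN

variable {n : ℕ}

private theorem cpk_col {A : Mt n} (h : Aᴴ * Jm n * A = Jm n) (j : Fin (n + 1)) :
    - ‖A 0 j‖ ^ 2 + ∑ a : Fin n, ‖A a.succ j‖ ^ 2 = if j = 0 then -1 else 1 := by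
  have h1 := congrArg (fun M : Mt n => (M j j).re) h
  simp only [Matrix.mul_apply (M := Aᴴ * Jm n)] at h1
  have h3 : ∀ x : Quaternion ℝ, (star x * x).re = ‖x‖ ^ 2 := by
    intro x
    rw [Quaternion.star_mul_self, Quaternion.normSq_eq_norm_mul_self, sq]
    rfl
  have h4 : ∀ f : Fin (n + 1) → Quaternion ℝ, (∑ x, f x).re = ∑ x, (f x).re := fun f =>
    map_sum (QuaternionAlgebra.reₗ (R := ℝ) (c₁ := -1) (c₂ := 0) (c₃ := -1)) _ _
  rw [h4, Fin.sum_univ_succ] at h1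
  have h5 : ((Aᴴ * Jm n) j 0 * A 0 j).re = - ‖A 0 j‖ ^ 2 := by
    rw [Jm, Matrix.mul_diagonal, if_pos rfl, Matrix.conjTranspose_apply, mul_neg_one, neg_mul]
    rw [← h3 (A 0 j)]
    rfl
  have h6 : ∀ a : Fin n, ((Aᴴ * Jm n) j a.succ * A a.succ j).re = ‖A a.succ j‖ ^ 2 := by
    intro a
    rw [Jm, Matrix.mul_diagonal, if_neg (Fin.succ_ne_zero a), Matrix.conjTranspose_apply, mul_one,
      h3]
  rw [h5, Finset.sum_congr rfl fun a _ => h6 a] at h1
  rw [h1, Jm, Matrix.diagonal_apply_eq]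
  split_ifs <;> rfl

private theorem cpk_row (g : GG n) (j : Fin (n + 1)) :
    - ‖g.mat j 0‖ ^ 2 + ∑ a : Fin n, ‖g.mat j a.succ‖ ^ 2 = if j = 0 then -1 else 1 := by
  have h1 : (g.matᴴ)ᴴ * Jm n * g.matᴴ = Jm n := by
    rw [Matrix.conjTranspose_conjTranspose]
    have h2 := g.mul_inv
    calc g.mat * Jm n * g.matᴴ = g.mat * (Jm n * g.matᴴ * Jm n) * Jm n := by
          simp only [mul_assoc, Jm_mul_Jm, mul_one]
      _ = Jm n := by rw [h2, one_mul]
  have h2 := cpk_col h1 j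
  simp only [Matrix.conjTranspose_apply, norm_star] at h2
  exact h2

private theorem cpk_a0 (g : GG n) (a : Fin n) : ‖g.mat a.succ 0‖ ^ 2 ≤ ‖g.mat 0 0‖ ^ 2 - 1 := by
  have h1 := cpk_col g.form 0
  rw [if_pos rfl] at h1
  have h2 : ‖g.mat a.succ 0‖ ^ 2 ≤ ∑ a : Fin n, ‖g.mat a.succ 0‖ ^ 2 :=
    Finset.single_le_sum (f := fun a : Fin n => ‖g.mat a.succ 0‖ ^ 2) (fun _ _ => sq_nonneg _)
      (Finset.mem_univ a)
  linarith

private theorem cpk_one (g : GG n) : 1 ≤ ‖g.mat 0 0‖ ^ 2 := by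
  have h1 := cpk_col g.form 0
  rw [if_pos rfl] at h1
  have h2 : 0 ≤ ∑ a : Fin n, ‖g.mat a.succ 0‖ ^ 2 := Finset.sum_nonneg fun _ _ => sq_nonneg _
  linarith

theorem norm_entry_le (g : GG n) (i j : Fin (n + 1)) : ‖g.mat i j‖ ≤ ‖g.mat 0 0‖ := by
  have key : ‖g.mat i j‖ ^ 2 ≤ ‖g.mat 0 0‖ ^ 2 := by
    refine Fin.cases ?_ (fun b => ?_) j
    · refine Fin.cases le_rfl (fun a => ?_) i
      have := cpk_a0 g a
      linarith
    · have h2 : ‖g.mat i b.succ‖ ^ 2 ≤ ∑ a : Fin n, ‖g.mat i a.succ‖ ^ 2 :=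
        Finset.single_le_sum (f := fun a : Fin n => ‖g.mat i a.succ‖ ^ 2) (fun _ _ => sq_nonneg _)
          (Finset.mem_univ b)
      have h1 := cpk_row g i
      by_cases hi : i = 0
      · rw [if_pos hi] at h1
        subst hi
        linarith
      · rw [if_neg hi] at h1
        obtain ⟨a, rfl⟩ := Fin.exists_succ_eq.2 hi
        have := cpk_a0 g a
        linarith
  exact (pow_le_pow_iff_left₀ (norm_nonneg _) (norm_nonneg _) two_ne_zero).1 key

theorem one_le_norm (g : GG n) : 1 ≤ ‖g.mat 0 0‖ := by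
  have h1 := cpk_one g
  nlinarith [norm_nonneg (g.mat 0 0)]

theorem isCompact_ball (n : ℕ) (R : ℝ) : IsCompact {g : GG n | ‖g.mat 0 0‖ ≤ R} := by
  have h2 : IsCompact (Set.pi Set.univ
      (fun _ : Fin (n + 1) => Set.pi Set.univ
        (fun _ : Fin (n + 1) => Metric.closedBall (0 : Quaternion ℝ) R))) := by
    have : ProperSpace (Quaternion ℝ) := FiniteDimensional.proper_real (Quaternion ℝ)
    exact isCompact_univ_pi fun _ => isCompact_univ_pi fun _ => isCompact_closedBall _ _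
  have h3 := (GG.isClosedEmbedding_mat (n := n)).isCompact_preimage h2
  convert h3 using 1
  ext g
  constructor
  · intro hg i _ j _
    rw [Metric.mem_closedBall, dist_zero_right]
    exact (norm_entry_le g i j).trans hg
  · intro hg
    have h4 := hg 0 (Set.mem_univ _) 0 (Set.mem_univ _)
    rw [Metric.mem_closedBall, dist_zero_right] at h4
    exact h4

theorem bounded_of_compact {L : Set (GG n)} (hL : IsCompact L) :
    ∃ R : ℝ, ∀ g ∈ L, ‖g.mat 0 0‖ ≤ R := by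
  have hc : Continuous fun g : GG n => g.mat 0 0 := by
    have := GG.continuous_mat (n := n)
    fun_prop
  obtain ⟨R, hR⟩ := hL.exists_bound_of_continuousOn hc.continuousOn
  exact ⟨R, hR⟩

theorem KK_block {k : GG n} (hk : k ∈ KK n) :
    (∀ a : Fin n, k.mat a.succ 0 = 0 ∧ k.mat 0 a.succ = 0) ∧ ‖k.mat 0 0‖ = 1 := by
  have h1 : Jm n * k.mat = k.mat * Jm n := by
    have h2 : k.mat * k.matᴴ = 1 := mul_eq_one_comm.1 hk
    calc Jm n * k.mat = (k.mat * k.matᴴ) * Jm n * k.mat := by rw [h2, one_mul]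
      _ = k.mat * (k.matᴴ * Jm n * k.mat) := by simp only [mul_assoc]
      _ = k.mat * Jm n := by rw [k.form]
  have hz : ∀ x : Quaternion ℝ, x = -x → x = 0 := by
    intro x hx
    have h5 : (2 : ℝ) • x = 0 := by
      rw [two_smul]
      nth_rewrite 2 [hx]
      exact add_neg_cancel x
    exact (smul_eq_zero.1 h5).resolve_left two_ne_zero
  have h2 : ∀ a : Fin n, k.mat a.succ 0 = 0 ∧ k.mat 0 a.succ = 0 := by
    intro a
    have h3 := congrArg (fun M : Mt n => M a.succ 0) h1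
    have h4 := congrArg (fun M : Mt n => M 0 a.succ) h1
    simp only [Jm, Matrix.diagonal_mul, Matrix.mul_diagonal, if_neg (Fin.succ_ne_zero a),
      if_pos, one_mul, mul_neg_one, neg_one_mul, mul_one] at h3 h4
    exact ⟨hz _ h3, hz _ h4.symm⟩
  refine ⟨h2, ?_⟩
  have h3 := sum_norm_sq_col hk 0
  rw [Fin.sum_univ_succ, Finset.sum_eq_zero, add_zero] at h3
  · have h4 : (‖k.mat 0 0‖ - 1) * (‖k.mat 0 0‖ + 1) = 0 := by ring_nf; linarith
    rcases mul_eq_zero.1 h4 with h5 | h5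
    · linarith
    · linarith [norm_nonneg (k.mat 0 0)]
  · intro a _
    rw [(h2 a).1]
    simp

theorem act_KK_e0 {k : GG n} (hk : k ∈ KK n) :
    act k.mat (e0 n) = fun i => e0 n i * k.mat 0 0 := by
  funext i
  rw [act_apply, e0]
  refine Fin.cases ?_ (fun a => ?_) i
  · simp [Matrix.mulVec_single]
  · simp [Matrix.mulVec_single, (KK_block hk).1 a, Fin.succ_ne_zero]

theorem mat_inv_KK {k : GG n} (hk : k ∈ KK n) : (k⁻¹).mat = k.matᴴ := by
  have h2 : (k⁻¹).mat * k.mat = 1 := by rw [← GG.mat_mul, inv_mul_cancel, GG.mat_one]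
  calc (k⁻¹).mat = (k⁻¹).mat * (k.mat * k.matᴴ) := by rw [mul_eq_one_comm.1 hk, mul_one]
    _ = ((k⁻¹).mat * k.mat) * k.matᴴ := by rw [mul_assoc]
    _ = k.matᴴ := by rw [h2, one_mul]

theorem norm_KK_mul {k : GG n} (hk : k ∈ KK n) (g : GG n) :
    ‖(k * g).mat 0 0‖ = ‖g.mat 0 0‖ := by
  obtain ⟨h1, h2⟩ := KK_block hk
  rw [GG.mat_mul, Matrix.mul_apply, Fin.sum_univ_succ, Finset.sum_eq_zero, add_zero, norm_mul, h2,
    one_mul]
  intro a _
  rw [(h1 a).2, zero_mul]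

theorem norm_mul_KK {k : GG n} (hk : k ∈ KK n) (g : GG n) :
    ‖(g * k).mat 0 0‖ = ‖g.mat 0 0‖ := by
  obtain ⟨h1, h2⟩ := KK_block hk
  rw [GG.mat_mul, Matrix.mul_apply, Fin.sum_univ_succ, Finset.sum_eq_zero, add_zero, norm_mul, h2,
    mul_one]
  intro a _
  rw [(h1 a).1, mul_zero]

theorem norm_inv (g : GG n) : ‖(g⁻¹).mat 0 0‖ = ‖g.mat 0 0‖ := by
  rw [GG.mat_inv, Jm, Matrix.mul_diagonal, Matrix.diagonal_mul, if_pos rfl,
    Matrix.conjTranspose_apply, neg_one_mul, mul_neg_one, neg_neg, norm_star]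

theorem norm_mul_le (g h : GG n) :
    ‖(g * h).mat 0 0‖ ≤ (n + 1) * ‖g.mat 0 0‖ * ‖h.mat 0 0‖ := by
  rw [GG.mat_mul, Matrix.mul_apply]
  calc ‖∑ j, g.mat 0 j * h.mat j 0‖ ≤ ∑ j, ‖g.mat 0 j * h.mat j 0‖ := norm_sum_le _ _
    _ ≤ ∑ _j : Fin (n + 1), ‖g.mat 0 0‖ * ‖h.mat 0 0‖ := by
        refine Finset.sum_le_sum fun j _ => ?_
        rw [norm_mul]
        exact mul_le_mul (norm_entry_le g 0 j) (norm_entry_le h j 0) (norm_nonneg _)
          (norm_nonneg _)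
    _ = (n + 1) * ‖g.mat 0 0‖ * ‖h.mat 0 0‖ := by
        rw [Finset.sum_const, Finset.card_univ, Fintype.card_fin, nsmul_eq_mul]
        push_cast
        ring

theorem norm_hy (i : Fin n × Fin 4) (t : ℝ) : ‖(hy i t).mat 0 0‖ = Real.cosh t := by
  have h1 : (hy i t).mat 0 0 = Real.cosh t • (1 : Quaternion ℝ) := by
    rw [mat_hy, hyM_eq]
    simp only [Matrix.add_apply, Matrix.smul_apply, Matrix.one_apply_eq, Pj, Xm, Matrix.of_apply,
      Fin.cases_zero, smul_zero, add_zero, Matrix.single_apply_same]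
    rw [Matrix.single_apply_of_ne (h := fun h => Fin.succ_ne_zero _ h.1), add_zero]
    module
  rw [h1, norm_smul, norm_one, mul_one, Real.norm_eq_abs, abs_of_pos (Real.cosh_pos t)]

end SPN

end
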