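import Pool.Agent.SPN.Com
import Pool.Agent.SPN.Cpk

/-! # Module Smf (difficulty 3): the class `Sm` is stable

`Sm.dp_bs`: smooth: `Dp_contDiff`. Support: if `R < ‖g_00‖` then `‖((hy i (-t)) * g)_00‖ > R` for `t` near `0`
(continuity), so `t ↦ m (act (hyM i (-t)) (act g.mat (e0 n)))` (`act_mul`) vanishes near `t = 0`, so its derivative at
`0`, which is `Dp (bs i) m (act g.mat (e0 n))` (`hasDerivAt_hy`, `hyM_zero`), is `0`.
`Sm.dp`: `p = ∑ cf p i • bs i` (`cf_sum`, `Dp_sum_left`, `Dp_smul_left`), `Sm.sum`, `Sm.cmul`. -/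

open MeasureTheory Matrix
open scoped ContDiff

noncomputable section

namespace SPN

variable {n : ℕ}

theorem Sm.zero : Sm (fun _ : EE n => (0 : ℝ)) :=
  ⟨contDiff_const, 0, fun _ _ => rfl⟩

theorem Sm.add {m m' : EE n → ℝ} (hm : Sm m) (hm' : Sm m') : Sm (fun z => m z + m' z) := by
  obtain ⟨R, hR⟩ := hm.supp
  obtain ⟨R', hR'⟩ := hm'.supp
  refine ⟨hm.smooth.add hm'.smooth, max R R', fun g hg => ?_⟩
  show m (act g.mat (e0 n)) + m' (act g.mat (e0 n)) = 0
  rw [hR g ((le_max_left _ _).trans_lt hg), hR' g ((le_max_right _ _).trans_lt hg), add_zero]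

theorem Sm.cmul {m : EE n → ℝ} (hm : Sm m) (r : ℝ) : Sm (fun z => r * m z) := by
  obtain ⟨R, hR⟩ := hm.supp
  refine ⟨contDiff_const.mul hm.smooth, R, fun g hg => ?_⟩
  show r * m (act g.mat (e0 n)) = 0
  rw [hR g hg, mul_zero]

theorem Sm.sum {ι : Type*} (s : Finset ι) {m : ι → EE n → ℝ} (hm : ∀ i ∈ s, Sm (m i)) :
    Sm (fun z => ∑ i ∈ s, m i z) := by
  classical
  induction s using Finset.induction_on with
  | empty => simpa using (Sm.zero (n := n))
  | insert a s ha ih =>
    simp only [Finset.sum_insert ha]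
    exact Sm.add (hm a (Finset.mem_insert_self a s))
      (ih fun i hi => hm i (Finset.mem_insert_of_mem hi))

private theorem smf_dp_bs {m : EE n → ℝ} (hm : Sm m) (i : Fin n × Fin 4) :
    Sm (Dp (bs i) m) := by
  obtain ⟨R, hR⟩ := hm.supp
  refine ⟨Dp_contDiff hm.smooth (bs i), R, fun g hg => ?_⟩
  have h1 := hasDerivAt_hy hm.smooth i (act g.mat (e0 n)) 0
  have h2 : act (hyM i (-0)) (act g.mat (e0 n)) = act g.mat (e0 n) := by
    rw [← act_mul, neg_zero, hyM_zero, one_mul]
  rw [h2] at h1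
  have hcont : Continuous fun t : ℝ => ‖(hyM i (-t) * g.mat) 0 0‖ := by
    have h3 : Continuous fun t : ℝ => hyM i (-t) := (continuous_hyM i).comp continuous_neg
    have h4 : Continuous fun t : ℝ => (hyM i (-t) * g.mat) 0 0 :=
      (h3.matrix_mul continuous_const).matrix_elem 0 0
    exact h4.norm
  have hev : ∀ᶠ t in nhds (0 : ℝ), R < ‖(hyM i (-t) * g.mat) 0 0‖ := by
    refine hcont.continuousAt.eventually (lt_mem_nhds ?_)
    show R < ‖(hyM i (-0) * g.mat) 0 0‖
    rw [neg_zero, hyM_zero, one_mul]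
    exact hg
  have h5 : (fun t : ℝ => m (act (hyM i (-t)) (act g.mat (e0 n)))) =ᶠ[nhds 0] fun _ => (0 : ℝ) := by
    filter_upwards [hev] with t ht
    have h6 := hR (hy i (-t) * g) ht
    rw [GG.mat_mul, mat_hy, act_mul] at h6
    exact h6
  have h7 : HasDerivAt (fun t : ℝ => m (act (hyM i (-t)) (act g.mat (e0 n)))) 0 0 :=
    (hasDerivAt_const (0 : ℝ) (0 : ℝ)).congr_of_eventuallyEq h5
  exact h1.unique h7

theorem Sm.dp {m : EE n → ℝ} (hm : Sm m) (p : PP n) : Sm (Dp p m) := by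
  have h1 : Dp p m = fun z => ∑ i, cf p i * Dp (bs i) m z := by
    funext z
    conv_lhs => rw [cf_sum p]
    rw [Dp_sum_left]
    exact Finset.sum_congr rfl fun i _ => Dp_smul_left _ _ _ _
  rw [h1]
  exact Sm.sum _ fun i _ => (smf_dp_bs hm i).cmul _

theorem Sm.lap {m : EE n → ℝ} (hm : Sm m) : Sm (Lap m) :=
  Sm.sum Finset.univ fun i _ => (hm.dp (bs i)).dp (bs i)

theorem Kn.add {m m' : EE n → ℝ} (hm : Kn m) (hm' : Kn m') : Kn (fun z => m z + m' z) where
  toSm := hm.toSm.add hm'.toSm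
  left := fun k hk z => by
    show m (act k.mat z) + m' (act k.mat z) = m z + m' z
    rw [hm.left k hk, hm'.left k hk]
  right := fun x hx z => by
    show m (fun i => z i * x) + m' (fun i => z i * x) = m z + m' z
    rw [hm.right x hx, hm'.right x hx]

theorem Kn.cmul {m : EE n → ℝ} (hm : Kn m) (r : ℝ) : Kn (fun z => r * m z) where
  toSm := hm.toSm.cmul r
  left := fun k hk z => by
    show r * m (act k.mat z) = r * m z
    rw [hm.left k hk]
  right := fun x hx z => by
    show r * m (fun i => z i * x) = r * m z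
    rw [hm.right x hx]

theorem Kn.sum {ι : Type*} (s : Finset ι) {m : ι → EE n → ℝ} (hm : ∀ i ∈ s, Kn (m i)) :
    Kn (fun z => ∑ i ∈ s, m i z) where
  toSm := Sm.sum s fun i hi => (hm i hi).toSm
  left := fun k hk z => Finset.sum_congr rfl fun i hi => (hm i hi).left k hk z
  right := fun x hx z => Finset.sum_congr rfl fun i hi => (hm i hi).right x hx z

end SPN

end
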