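import Pool.Agent.SPN.Qe
import Pool.Agent.SPN.Smf
import Pool.Agent.SPN.Kin

/-! # Module Alga (difficulty 3): the Matsushima type identity (3.1)

`sum2`, `sum3`: induction from `add2`, `smul2` (`r = 0` for the empty sum: `T a 0 c = 0`) and `symm`.
`move`. Write `[b, c] = T m b c`. `hT.cyc r (Dp p m) (Dp q m) (Dp s m)`:
`T (D_p m) (D_q m) (D_rD_s m) + T (D_q m) (D_p m) (D_rD_s m) + T (D_rD_s m) (D_p m) (D_q m) = 0`.
By `hT.der`: the first term is `-[D_pD_q m, D_rD_s m] - [D_q m, D_pD_rD_s m]`, the second is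
`-[D_qD_p m, D_rD_s m] - [D_p m, D_qD_rD_s m]`, the third (twice) is
`[D_sD_rD_p m, D_q m] + [D_rD_p m, D_sD_q m] + [D_sD_p m, D_rD_q m] + [D_p m, D_sD_rD_q m]`.
With `D_pD_q m = D_qD_p m` (`D_comm`, as functions by `funext`) and
`D_sD_rD_p m - D_pD_rD_s m = D_sD_pD_r m - D_pD_sD_r m = D_{tp s p r} m` (`D_comm` inside, `D_triple`),
`D_sD_rD_q m - D_qD_rD_s m = D_{tp s q r} m` this is the claim. -/

open MeasureTheory Matrix
open scoped ContDiff

noncomputable section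

namespace SPN

variable {n : ℕ} {T : (EE n → ℝ) → (EE n → ℝ) → (EE n → ℝ) → ℝ}

theorem Tf.sum2 (hT : Tf n T) {ι : Type*} (s : Finset ι) {a c : EE n → ℝ} {b : ι → EE n → ℝ}
    (ha : Sm a) (hb : ∀ i ∈ s, Sm (b i)) (hc : Sm c) :
    T a (fun z => ∑ i ∈ s, b i z) c = ∑ i ∈ s, T a (b i) c := by
  classical
  induction s using Finset.induction_on with
  | empty =>
    simp only [Finset.sum_empty]
    have h := hT.smul2 0 a (fun _ => (0 : ℝ)) c
    simpa using h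
  | insert i s hi ih =>
    have h1 : ∀ j ∈ s, Sm (b j) := fun j hj => hb j (Finset.mem_insert_of_mem hj)
    have h2 : (fun z => ∑ j ∈ insert i s, b j z) = fun z => b i z + (fun z => ∑ j ∈ s, b j z) z := by
      funext z
      rw [Finset.sum_insert hi]
    rw [h2, hT.add2 a (b i) (fun z => ∑ j ∈ s, b j z) c ha (hb i (Finset.mem_insert_self i s))
      (Sm.sum s h1) hc, ih h1, Finset.sum_insert hi]

theorem Tf.sum3 (hT : Tf n T) {ι : Type*} (s : Finset ι) {a b : EE n → ℝ} {c : ι → EE n → ℝ}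
    (ha : Sm a) (hb : Sm b) (hc : ∀ i ∈ s, Sm (c i)) :
    T a b (fun z => ∑ i ∈ s, c i z) = ∑ i ∈ s, T a b (c i) := by
  rw [hT.symm, hT.sum2 s ha hc hb]
  exact Finset.sum_congr rfl fun i _ => hT.symm _ _ _

theorem Tf.add3 (hT : Tf n T) {a b c c' : EE n → ℝ} (ha : Sm a) (hb : Sm b) (hc : Sm c)
    (hc' : Sm c') : T a b (fun z => c z + c' z) = T a b c + T a b c' := by
  rw [hT.symm, hT.add2 a c c' b ha hc hc' hb, hT.symm a c b, hT.symm a c' b]

theorem Tf.smul3 (hT : Tf n T) (r : ℝ) (a b c : EE n → ℝ) :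
    T a b (fun z => r * c z) = r * T a b c := by
  rw [hT.symm, hT.smul2 r a c b, hT.symm a c b]

theorem move (hT : Tf n T) {m : EE n → ℝ} (hm : Kn m) (p q r s : PP n) :
    2 * T m (Dp p (Dp q m)) (Dp r (Dp s m))
      = T m (Dp r (Dp p m)) (Dp s (Dp q m)) + T m (Dp s (Dp p m)) (Dp r (Dp q m))
        + T m (Dp q m) (Dp (tp s p r) m) + T m (Dp p m) (Dp (tp s q r) m) := by
  have hs : Sm m := hm.toSm
  have hK : ∀ k ∈ KK n, ∀ z, m (act k.mat z) = m z := hm.left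
  have hsm : ContDiff ℝ ∞ m := hs.smooth
  have hcm : ∀ p q : PP n, Dp p (Dp q m) = Dp q (Dp p m) := fun p q =>
    funext fun z => D_comm hsm hK p q z
  have htr : ∀ u v w : PP n, Dp u (Dp w (Dp v m))
      = fun z => Dp v (Dp w (Dp u m)) z + Dp (tp u v w) m z := by
    intro u v w
    funext z
    rw [hcm w v, hcm w u, ← D_triple hsm hK u v w z]
    ring
  have e0 := hT.cyc r (Dp p m) (Dp q m) (Dp s m) (hs.dp p) (hs.dp q) (hs.dp s)
  have e1 := hT.der p m (Dp q m) (Dp r (Dp s m)) hs (hs.dp q) ((hs.dp s).dp r)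
  have e2 := hT.der q m (Dp p m) (Dp r (Dp s m)) hs (hs.dp p) ((hs.dp s).dp r)
  have e3 := hT.der r (Dp s m) (Dp p m) (Dp q m) (hs.dp s) (hs.dp p) (hs.dp q)
  have e4 := hT.der s m (Dp r (Dp p m)) (Dp q m) hs ((hs.dp p).dp r) (hs.dp q)
  have e5 := hT.der s m (Dp p m) (Dp r (Dp q m)) hs (hs.dp p) ((hs.dp q).dp r)
  have e6 : T m (Dp s (Dp r (Dp p m))) (Dp q m)
      = T m (Dp q m) (Dp p (Dp r (Dp s m))) + T m (Dp q m) (Dp (tp s p r) m) := by
    rw [hT.symm, htr s p r]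
    exact hT.add3 hs (hs.dp q) (((hs.dp s).dp r).dp p) (hs.dp _)
  have e7 : T m (Dp p m) (Dp s (Dp r (Dp q m)))
      = T m (Dp p m) (Dp q (Dp r (Dp s m))) + T m (Dp p m) (Dp (tp s q r) m) := by
    rw [htr s q r]
    exact hT.add3 hs (hs.dp p) (((hs.dp s).dp r).dp q) (hs.dp _)
  rw [hcm q p] at e2
  linarith

/-- the bilinear map `(p, q) ↦ T m (D_p b) (D_q c)` for `b, c` in `Sm` -/
theorem exists_bil1 (hT : Tf n T) {m b c : EE n → ℝ} (hm : Sm m) (hb : Sm b) (hc : Sm c) :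
    ∃ ψ : PP n →ₗ[ℝ] PP n →ₗ[ℝ] ℝ, ∀ p q, ψ p q = T m (Dp p b) (Dp q c) := by
  have ha1 : ∀ (p q : PP n) (m : EE n → ℝ), Dp (p + q) m = fun z => Dp p m z + Dp q m z :=
    fun p q m => funext fun z => Dp_add_left p q m z
  have ha2 : ∀ (r : ℝ) (p : PP n) (m : EE n → ℝ), Dp (r • p) m = fun z => r * Dp p m z :=
    fun r p m => funext fun z => Dp_smul_left r p m z
  refine ⟨LinearMap.mk₂ ℝ (fun p q => T m (Dp p b) (Dp q c)) ?_ ?_ ?_ ?_, fun p q => rfl⟩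
  · intro p p' q
    rw [ha1]
    exact hT.add2 _ _ _ _ hm (hb.dp p) (hb.dp p') (hc.dp q)
  · intro r p q
    rw [ha2, smul_eq_mul]
    exact hT.smul2 _ _ _ _
  · intro p q q'
    rw [ha1]
    exact hT.add3 hm (hb.dp p) (hc.dp q) (hc.dp q')
  · intro r p q
    rw [ha2, smul_eq_mul]
    exact hT.smul3 _ _ _ _

end SPN

end
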