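import Pool.Agent.SPN.Hyp

/-! # Module Quat (difficulty 4): two quaternionic trace identities

Basis `bs (a, μ) = e_a u_μ`. Identities for `x : H`: `∑_μ u_μ x u_μ = -2 star x`,
`∑_μ u_μ x star u_μ = 4 re x`, `∑_μ star u_μ x u_μ = 4 re x`, `∑_μ u_μ star x u_μ = -2 x`, `∑_μ u_μ star u_μ = 4`.
`tp p q r = p (q* r) - q (p* r) - r (p* q) + r (q* p)`.
`quat_c`: `tp e p e = e (p* e) - p (e* e) - e (e* p) + e (p* e)`: with `e = e_a u`: the `a` component of
`2 e (p* e)` is `2 u star(p_a) u`, sum over `u`: `-4 p_a`; `p (e* e)` sums to `4n p`; the `a` component of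
`e (e* p)` is `u star(u) p_a`, the sum over `u` is `4 p_a`. Total `-4 p - 4n p - 4 p = -(4n+8) p`.
`quat_V`: `J = uq c` with `star J = -J`, `J² = -1` (`c ≠ 0`). First term, `[pJ, e, eJ]
= pJ (e* e J) - e ((pJ)* e J) - eJ ((pJ)* e) + eJ (e* p J)`: sums `-4n p`, `-e((pJ)* e J)`: component
`-u star(p_a J) u J`, sum over `u`: `+2 p_a J J = -2 p_a`; `-eJ((pJ)* e)`: `-u J star(p_a J) u
= -u J star(J) star(p_a) u = -u star(p_a) u`, sum `+2 p_a`; `eJ(e* p J)`: `u J star(u) p_a J`, the sum over `u` of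
`u J star u` is `4 re J = 0`. Total `-4n p`. Second term,
`[eJ, e, pJ] = eJ (e* p J) - e ((eJ)* p J) - pJ ((eJ)* e) + pJ (e* e J)`: the first sums to `0`; the second:
`-u star(J) star(u) p_a J`, sum `-4 re(star J) p_a J = 0`; the third: `-pJ star(J) star(u) u = -p` for every `e`,
sum `-4n p`; the fourth: `p J J = -p` for every `e`, sum `-4n p`. Total `-8n p`. Sum `-12n p`. (All checked by
computer for random `p`.) -/

open MeasureTheory Matrix
open scoped ContDiff

noncomputable section

namespace SPN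

variable {n : ℕ}

private theorem quat_ss_bs_left (c : Fin n) (μ : Fin 4) (r : PP n) :
    ∑ b, star (bs (c, μ) b) * r b = star (uq μ) * r c := by
  rw [Finset.sum_eq_single c]
  · simp [bs]
  · intro b _ hb
    simp [bs, Pi.single_eq_of_ne hb]
  · intro h
    exact absurd (Finset.mem_univ c) h

private theorem quat_ss_bs_right (c : Fin n) (μ : Fin 4) (r : PP n) :
    ∑ b, star (r b) * bs (c, μ) b = star (r c) * uq μ := by
  rw [Finset.sum_eq_single c]
  · simp [bs]
  · intro b _ hb
    simp [bs, Pi.single_eq_of_ne hb]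
  · intro h
    exact absurd (Finset.mem_univ c) h

private theorem quat_bs_self (a : Fin n) (μ : Fin 4) : bs (a, μ) a = uq μ := by
  simp [bs]

private theorem quat_bs_ne {a c : Fin n} (h : c ≠ a) (μ : Fin 4) : bs (c, μ) a = 0 := by
  simp [bs, Pi.single_eq_of_ne (Ne.symm h)]

private theorem quat_id_c (x : Quaternion ℝ) :
    ∑ μ : Fin 4, (uq μ * (star x * uq μ) - x * (star (uq μ) * uq μ) - uq μ * (star (uq μ) * x)
      + uq μ * (star x * uq μ)) = (-12 : ℝ) • x := by
  rw [Fin.sum_univ_four]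
  ext <;> simp [uq] <;> ring

private theorem quat_id_V (x : Quaternion ℝ) (c : Fin 4) (hc : c ≠ 0) :
    ∑ μ : Fin 4, (((x * uq c) * (star (uq μ) * (uq μ * uq c))
        - uq μ * (star (x * uq c) * (uq μ * uq c))
        - (uq μ * uq c) * (star (x * uq c) * uq μ)
        + (uq μ * uq c) * (star (uq μ) * (x * uq c)))
      + ((uq μ * uq c) * (star (uq μ) * (x * uq c))
        - uq μ * (star (uq μ * uq c) * (x * uq c))
        - (x * uq c) * (star (uq μ * uq c) * uq μ)
        + (x * uq c) * (star (uq μ) * (uq μ * uq c)))) = (-12 : ℝ) • x := by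
  rw [Fin.sum_univ_four]
  fin_cases c
  · exact absurd rfl hc
  all_goals (ext <;> simp [uq] <;> ring)

private theorem quat_id_c0 (x : Quaternion ℝ) :
    ∑ μ : Fin 4, (0 * (star x * uq μ) - x * (star (uq μ) * uq μ) - 0 * (star (uq μ) * x)
      + 0 * (star x * uq μ)) = (-4 : ℝ) • x := by
  rw [Fin.sum_univ_four]
  ext <;> simp [uq] <;> ring

private theorem quat_id_V0 (x y : Quaternion ℝ) (c : Fin 4) (hc : c ≠ 0) :
    ∑ μ : Fin 4, (((x * uq c) * (star (uq μ) * (uq μ * uq c))
        - 0 * (star (y * uq c) * (uq μ * uq c))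
        - (0 * uq c) * (star (y * uq c) * uq μ)
        + (0 * uq c) * (star (uq μ) * (y * uq c)))
      + ((0 * uq c) * (star (uq μ) * (y * uq c))
        - 0 * (star (uq μ * uq c) * (y * uq c))
        - (x * uq c) * (star (uq μ * uq c) * uq μ)
        + (x * uq c) * (star (uq μ) * (uq μ * uq c)))) = (-12 : ℝ) • x := by
  simp only [zero_mul, sub_zero, add_zero, zero_sub]
  rw [Fin.sum_univ_four]
  fin_cases c
  · exact absurd rfl hc
  all_goals (ext <;> simp [uq] <;> ring)

private theorem quat_tp (p q r : PP n) (a : Fin n) : tp p q r a =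
    p a * (∑ b, star (q b) * r b) - q a * (∑ b, star (p b) * r b)
    - r a * (∑ b, star (p b) * q b) + r a * (∑ b, star (q b) * p b) := rfl

private theorem quat_rm_bs (c : Fin n) (μ : Fin 4) (x : Quaternion ℝ) (r : PP n) :
    ∑ b, star (rm (bs (c, μ)) x b) * r b = star (uq μ * x) * r c := by
  rw [Finset.sum_eq_single c]
  · simp [rm, bs]
  · intro b _ hb
    simp [rm, bs, Pi.single_eq_of_ne hb]
  · intro h
    exact absurd (Finset.mem_univ c) h

private theorem quat_bs_rm (c : Fin n) (μ : Fin 4) (x : Quaternion ℝ) (r : PP n) :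
    ∑ b, star (r b) * rm (bs (c, μ)) x b = star (r c) * (uq μ * x) := by
  rw [Finset.sum_eq_single c]
  · simp [rm, bs]
  · intro b _ hb
    simp [rm, bs, Pi.single_eq_of_ne hb]
  · intro h
    exact absurd (Finset.mem_univ c) h

private theorem quat_rm_app (p : PP n) (x : Quaternion ℝ) (a : Fin n) : rm p x a = p a * x := rfl

theorem quat_c (p : PP n) : ∑ i, tp (bs i) p (bs i) = (-(4 * (n : ℝ) + 8)) • p := by
  funext a
  rw [Finset.sum_apply, Fintype.sum_prod_type]
  have h1 : ∀ c : Fin n, ∑ μ : Fin 4, tp (bs (c, μ)) p (bs (c, μ)) a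
      = (-4 : ℝ) • p a + (if c = a then (-8 : ℝ) • p a else 0) := by
    intro c
    simp only [quat_tp, quat_ss_bs_left, quat_ss_bs_right]
    by_cases h : c = a
    · subst h
      simp only [quat_bs_self, if_true]
      rw [quat_id_c, ← add_smul]
      norm_num
    · simp only [quat_bs_self, quat_bs_ne h, if_neg h, add_zero]
      have h2 := quat_id_c0 (p a)
      rw [← h2]
      apply Finset.sum_congr rfl
      intro μ _
      simp only [zero_mul, quat_bs_self]
  rw [Finset.sum_congr rfl (fun c _ => h1 c), Finset.sum_add_distrib, Finset.sum_ite_eq' Finset.univ a,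
    if_pos (Finset.mem_univ a), Finset.sum_const, Finset.card_univ, Fintype.card_fin, Pi.smul_apply,
    ← Nat.cast_smul_eq_nsmul ℝ, smul_smul, ← add_smul]
  congr 1
  ring

theorem quat_V (p : PP n) (c : Fin 4) (hc : c ≠ 0) :
    ∑ i, (tp (rm p (uq c)) (bs i) (rm (bs i) (uq c))
      + tp (rm (bs i) (uq c)) (bs i) (rm p (uq c))) = (-(12 * (n : ℝ))) • p := by
  funext a
  rw [Finset.sum_apply, Fintype.sum_prod_type]
  have h1 : ∀ c' : Fin n, ∑ μ : Fin 4, (tp (rm p (uq c)) (bs (c', μ)) (rm (bs (c', μ)) (uq c))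
      + tp (rm (bs (c', μ)) (uq c)) (bs (c', μ)) (rm p (uq c))) a = (-12 : ℝ) • p a := by
    intro c'
    simp only [Pi.add_apply, quat_tp, quat_rm_bs, quat_bs_rm, quat_ss_bs_left, quat_ss_bs_right,
      quat_bs_self]
    by_cases h : c' = a
    · subst h
      simp only [quat_rm_app, quat_bs_self]
      exact quat_id_V (p c') c hc
    · simp only [quat_rm_app, quat_bs_ne h]
      exact quat_id_V0 (p a) (p c') c hc
  rw [Finset.sum_congr rfl (fun c _ => h1 c), Finset.sum_const, Finset.card_univ, Fintype.card_fin,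
    Pi.smul_apply, ← Nat.cast_smul_eq_nsmul ℝ, smul_smul]
  congr 1
  ring

end SPN

end
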