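import Pool.Agent.SPN.Alga
import Pool.Agent.SPN.Quat

/-! # Module Algb (difficulty 3): (3.2)

`move` with `p = q = bs i`, `r = s = bs j`: `2 [D_iD_i m, D_jD_j m] = 2 [D_jD_i m, D_jD_i m]
+ 2 [D_i m, D_{tp j i j} m]`. Sum over `i, j`: the left side is `2 [Lap m, Lap m]` (`Tf.sum2`, `Tf.sum3`), and
`∑_j D_{tp (bs j) (bs i) (bs j)} m = D_{∑_j ..} m = -(4n+8) D_i m` (`Dp_sum_left`, `quat_c`, `Dp_smul_left`,
`Tf.sum3`, `Tf.smul3`). -/

open MeasureTheory Matrix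
open scoped ContDiff

noncomputable section

namespace SPN

variable {n : ℕ} {T : (EE n → ℝ) → (EE n → ℝ) → (EE n → ℝ) → ℝ}

theorem alg_b (hT : Tf n T) {m : EE n → ℝ} (hm : Kn m) :
    T m (Lap m) (Lap m) = ∑ i, ∑ j, T m (Dp (bs i) (Dp (bs j) m)) (Dp (bs i) (Dp (bs j) m))
      - (4 * (n : ℝ) + 8) * ∑ i, T m (Dp (bs i) m) (Dp (bs i) m) := by
  have hS : Sm m := hm.toSm
  have h1 : ∀ i j : Fin n × Fin 4,
      T m (Dp (bs i) (Dp (bs i) m)) (Dp (bs j) (Dp (bs j) m)) =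
      T m (Dp (bs j) (Dp (bs i) m)) (Dp (bs j) (Dp (bs i) m)) +
        T m (Dp (bs i) m) (Dp (tp (bs j) (bs i) (bs j)) m) := by
    intro i j
    have h := move hT hm (bs i) (bs i) (bs j) (bs j)
    linarith
  have h2 : T m (Lap m) (Lap m) =
      ∑ i : Fin n × Fin 4, ∑ j : Fin n × Fin 4,
        T m (Dp (bs i) (Dp (bs i) m)) (Dp (bs j) (Dp (bs j) m)) := by
    have e1 : T m (Lap m) (Lap m) =
        ∑ i : Fin n × Fin 4, T m (Dp (bs i) (Dp (bs i) m)) (Lap m) :=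
      hT.sum2 Finset.univ (b := fun i : Fin n × Fin 4 => Dp (bs i) (Dp (bs i) m)) hS
        (fun i _ => (hS.dp _).dp _) hS.lap
    rw [e1]
    refine Finset.sum_congr rfl fun i _ => ?_
    exact hT.sum3 Finset.univ (c := fun j : Fin n × Fin 4 => Dp (bs j) (Dp (bs j) m)) hS
      ((hS.dp _).dp _) (fun j _ => (hS.dp _).dp _)
  have h3 : ∀ i : Fin n × Fin 4,
      ∑ j : Fin n × Fin 4, T m (Dp (bs i) m) (Dp (tp (bs j) (bs i) (bs j)) m) =
        (-(4 * (n : ℝ) + 8)) * T m (Dp (bs i) m) (Dp (bs i) m) := by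
    intro i
    have e0 := hT.sum3 Finset.univ
      (c := fun j : Fin n × Fin 4 => Dp (tp (bs j) (bs i) (bs j)) m) hS (hS.dp (bs i))
      (fun j _ => hS.dp _)
    have e2 : (fun z => ∑ j : Fin n × Fin 4, Dp (tp (bs j) (bs i) (bs j)) m z) =
        fun z => (-(4 * (n : ℝ) + 8)) * Dp (bs i) m z := by
      funext z
      rw [← Dp_sum_left, quat_c, Dp_smul_left]
    rw [e2, hT.smul3] at e0
    exact e0.symm
  rw [h2]
  simp_rw [h1, Finset.sum_add_distrib, h3]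
  rw [← Finset.mul_sum, Finset.sum_comm]
  ring

end SPN

end
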