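import Pool.Agent.SPN.Xal

/-! # Module Onb (difficulty 3): independence of the orthonormal basis

`nq p = ∑ i, cf p i ^ 2` (`nq_eq`), so `L` is an isometry of the Euclidean space with orthonormal basis
`bs i`. Write `L (bs i) = ∑ j, M j i • bs j`, `M j i = cf (L (bs i)) j` (`cf_sum`). By polarization `Mᵀ M = 1`
(`nq (L (p + q)) = nq (p + q)`), so `M Mᵀ = 1` (`mul_eq_one_comm`), i.e. `∑ i, M j i * M k i = δ_jk`. Then
`∑ i, ψ (L (bs i)) (L (bs i)) = ∑ i, ∑ j, ∑ k, M j i * M k i * ψ (bs j) (bs k) = ∑ j, ψ (bs j) (bs j)`. -/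

open MeasureTheory Matrix
open scoped ContDiff

noncomputable section

namespace SPN

variable {n : ℕ}

theorem onb_cf_add (p q : PP n) (i : Fin n × Fin 4) : cf (p + q) i = cf p i + cf q i := by
  obtain ⟨a, μ⟩ := i
  fin_cases μ <;> simp [cf]

theorem onb_cf_bs (i j : Fin n × Fin 4) : cf (bs i) j = if j = i then 1 else 0 := by
  obtain ⟨a, μ⟩ := i
  obtain ⟨b, ν⟩ := j
  by_cases h : b = a
  · subst h
    fin_cases μ <;> fin_cases ν <;> simp [cf, bs, uq] <;> rfl
  · have h2 : ¬ ((b, ν) = (a, μ)) := fun e => h (congrArg Prod.fst e)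
    rw [if_neg h2]
    have h3 : (bs (a, μ) : PP n) b = 0 := Pi.single_eq_of_ne h _
    fin_cases ν <;> simp only [cf, h3] <;> rfl

theorem onb_polar (p q : PP n) : nq (p + q) = nq p + nq q + 2 * ∑ i, cf p i * cf q i := by
  rw [nq_eq, nq_eq, nq_eq, Finset.mul_sum, ← Finset.sum_add_distrib, ← Finset.sum_add_distrib]
  refine Finset.sum_congr rfl fun i _ => ?_
  rw [onb_cf_add]
  ring

theorem onb {L : PP n →ₗ[ℝ] PP n} (hL : ∀ p, nq (L p) = nq p) (ψ : PP n →ₗ[ℝ] PP n →ₗ[ℝ] ℝ) :
    ∑ i, ψ (L (bs i)) (L (bs i)) = ∑ i, ψ (bs i) (bs i) := by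
  classical
  have hB : ∀ p q : PP n, ∑ i, cf (L p) i * cf (L q) i = ∑ i, cf p i * cf q i := by
    intro p q
    have h1 := onb_polar (L p) (L q)
    have h2 := onb_polar p q
    rw [← map_add, hL, hL, hL] at h1
    linarith
  let M : Matrix (Fin n × Fin 4) (Fin n × Fin 4) ℝ := Matrix.of fun j i => cf (L (bs i)) j
  have hM1 : Mᵀ * M = 1 := by
    ext i k
    rw [Matrix.mul_apply]
    have h1 : ∀ j, Mᵀ i j * M j k = cf (L (bs i)) j * cf (L (bs k)) j := fun j => rfl
    rw [Finset.sum_congr rfl fun j _ => h1 j, hB, Matrix.one_apply]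
    have h2 : ∀ j, cf (bs i) j * cf (bs k) j =
        (if j = i then 1 else 0) * (if j = k then (1 : ℝ) else 0) := fun j => by
      rw [onb_cf_bs, onb_cf_bs]
    rw [Finset.sum_congr rfl fun j _ => h2 j]
    simp [eq_comm]
  have hM2 : M * Mᵀ = 1 := mul_eq_one_comm.1 hM1
  have hM3 : ∀ j k, ∑ i, M j i * M k i = if j = k then 1 else 0 := by
    intro j k
    have := congrFun (congrFun hM2 j) k
    rw [Matrix.mul_apply, Matrix.one_apply] at this
    exact this
  have hexp : ∀ i, L (bs i) = ∑ j, M j i • bs j := fun i => cf_sum (L (bs i))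
  calc ∑ i, ψ (L (bs i)) (L (bs i))
      = ∑ i, ∑ j, ∑ k, (M j i * M k i) * ψ (bs j) (bs k) := by
        refine Finset.sum_congr rfl fun i _ => ?_
        rw [hexp i]
        simp only [map_sum, map_smul, LinearMap.sum_apply, LinearMap.smul_apply, smul_eq_mul,
          Finset.mul_sum]
        rw [Finset.sum_comm]
        refine Finset.sum_congr rfl fun j _ => ?_
        refine Finset.sum_congr rfl fun k _ => ?_
        ring
    _ = ∑ j, ∑ k, (∑ i, M j i * M k i) * ψ (bs j) (bs k) := by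
        rw [Finset.sum_comm]
        refine Finset.sum_congr rfl fun j _ => ?_
        rw [Finset.sum_comm]
        refine Finset.sum_congr rfl fun k _ => ?_
        rw [Finset.sum_mul]
    _ = ∑ j, ψ (bs j) (bs j) := by
        refine Finset.sum_congr rfl fun j _ => ?_
        simp [hM3]

end SPN

end
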