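import Pool.Agent.SPN.Alga
import Pool.Agent.SPN.Quat
import Pool.Agent.SPN.Onb

/-! # Module Algc (difficulty 4): (3.3)

Write `J p = rm p (uq c)` (`exists_Rm`: linear and isometric; `J (J p) = -p` since `uq c * uq c = -1` for
`c ≠ 0`), `Q = ∑_{i,j} [D_iD_j m, D_{Ji}D_{Jj} m]`. `move` with `p = e_i`, `q = e_j`, `r = J e_i`, `s = J e_j`, summed:
`2 Q = ∑ [D_{Ji}D_i m, D_{Jj}D_j m] + ∑ [D_{Jj}D_i m, D_{Ji}D_j m] + ∑ [D_j m, D_{tp (Jj) i (Ji)} m]
+ ∑ [D_i m, D_{tp (Jj) j (Ji)} m]`.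
First sum: `∑_i D_{Ji}D_i m = 0` as a function: at a point `z` let `ψ p q = D_{Jp}D_q m z` (bilinear,
`LinearMap.mk₂`, `Dp_add_left`, `Dp_smul_left`, `LX_add`, `LX_cmul`); by `onb` `∑ ψ i i = ∑ ψ (Ji) (Ji)
= ∑ D_{JJi}D_{Ji} m z = -∑ D_iD_{Ji} m z = -∑ D_{Ji}D_i m z` (`D_comm`), so it is `0`.
Second sum: for fixed `i`, `φ p q = [D_{Jp}D_i m, D_{Ji}D_q m]` is bilinear (`exists_bil1` with `b = D_i m` and,
after `D_{Ji}D_q m = D_qD_{Ji} m`, `c = D_{Ji} m`), so `∑_j φ j j = ∑_j φ (Jj) (Jj) = -∑_j [D_jD_i m, D_{Ji}D_{Jj} m]`: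
the second sum is `-Q` (`D_comm`).
Third and fourth sum: rename: `∑_p [D_p m, D_{V p} m]`, `V p = ∑_e (tp (Jp) e (Je) + tp (Je) e (Jp)) = -12 n p`
(`quat_V`). So `3 Q = -12 n S`. -/

open MeasureTheory Matrix
open scoped ContDiff

noncomputable section

namespace SPN

variable {n : ℕ} {T : (EE n → ℝ) → (EE n → ℝ) → (EE n → ℝ) → ℝ}

private theorem algc_norm (c : Fin 4) : ‖uq c‖ = 1 := by
  have h : Quaternion.normSq (uq c) = 1 := by
    rw [Quaternion.normSq_def']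
    fin_cases c <;> simp [uq]
    change (1 : ℝ) ^ 2 + 0 ^ 2 + 0 ^ 2 + 0 ^ 2 = 1
    norm_num
  rw [Quaternion.normSq_eq_norm_mul_self] at h
  rcases mul_self_eq_one_iff.mp h with h | h
  · exact h
  · have := norm_nonneg (uq c)
    linarith

private theorem algc_sq (c : Fin 4) (hc : c ≠ 0) : uq c * uq c = -1 := by
  fin_cases c
  · exact absurd rfl hc
  · ext <;> simp [uq] <;> rfl
  · ext <;> simp [uq] <;> rfl
  · ext <;> simp [uq] <;> rfl

private theorem algc_JJ (c : Fin 4) (hc : c ≠ 0) (p : PP n) :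
    rm (rm p (uq c)) (uq c) = (-1 : ℝ) • p := by
  funext a
  simp only [rm, Pi.smul_apply]
  rw [mul_assoc, algc_sq c hc]
  simp

private theorem algc_comm {m : EE n → ℝ} (hm : Kn m) (p q : PP n) :
    Dp p (Dp q m) = Dp q (Dp p m) :=
  funext fun z => D_comm hm.smooth hm.left p q z

private theorem algc_smul (r : ℝ) (p : PP n) (b : EE n → ℝ) :
    Dp (r • p) b = fun z => r * Dp p b z :=
  funext fun z => Dp_smul_left r p b z

private theorem algc_first {m : EE n → ℝ} (hm : Kn m) (c : Fin 4) (hc : c ≠ 0) :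
    (fun z => ∑ i : Fin n × Fin 4, Dp (rm (bs i) (uq c)) (Dp (bs i) m) z) = fun _ => (0 : ℝ) := by
  funext z
  obtain ⟨L, hL, hLr⟩ := exists_Rm (n := n) (algc_norm c)
  let ψ : PP n →ₗ[ℝ] PP n →ₗ[ℝ] ℝ := LinearMap.mk₂ ℝ (fun p q => Dp p (Dp q m) z)
    (fun p p' q => Dp_add_left p p' (Dp q m) z)
    (fun r p q => Dp_smul_left r p (Dp q m) z)
    (fun p q q' => by
      have h1 : Dp (q + q') m = fun z => Dp q m z + Dp q' m z :=
        funext fun z => Dp_add_left q q' m z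
      rw [h1]
      exact LX_add (Dp_contDiff hm.smooth q) (Dp_contDiff hm.smooth q') _ z)
    (fun r p q => by
      rw [algc_smul]
      exact LX_cmul (Dp_contDiff hm.smooth q) r _ z)
  have hψ : ∀ p q, ψ p q = Dp p (Dp q m) z := fun p q => rfl
  have h := onb hL (ψ.comp L)
  simp only [LinearMap.comp_apply, hψ, hLr, algc_JJ c hc] at h
  have h2 : ∑ i : Fin n × Fin 4, Dp ((-1 : ℝ) • bs i) (Dp (rm (bs i) (uq c)) m) z =
      - ∑ i : Fin n × Fin 4, Dp (rm (bs i) (uq c)) (Dp (bs i) m) z := by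
    rw [← Finset.sum_neg_distrib]
    refine Finset.sum_congr rfl fun i _ => ?_
    rw [Dp_smul_left, algc_comm hm (bs i) (rm (bs i) (uq c))]
    ring
  rw [h2] at h
  change ∑ i : Fin n × Fin 4, Dp (rm (bs i) (uq c)) (Dp (bs i) m) z = 0
  linarith

private theorem algc_zero2 (hT : Tf n T) (m c : EE n → ℝ) : T m (fun _ => (0 : ℝ)) c = 0 := by
  have h := hT.smul2 0 m (fun _ => (0 : ℝ)) c
  simpa using h

private theorem algc_second (hT : Tf n T) {m : EE n → ℝ} (hm : Kn m) (c : Fin 4) (hc : c ≠ 0)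
    (i : Fin n × Fin 4) :
    ∑ j : Fin n × Fin 4, T m (Dp (rm (bs j) (uq c)) (Dp (bs i) m))
        (Dp (rm (bs i) (uq c)) (Dp (bs j) m)) =
      - ∑ j : Fin n × Fin 4, T m (Dp (bs i) (Dp (bs j) m))
        (Dp (rm (bs i) (uq c)) (Dp (rm (bs j) (uq c)) m)) := by
  have hs : Sm m := hm.toSm
  obtain ⟨L, hL, hLr⟩ := exists_Rm (n := n) (algc_norm c)
  obtain ⟨ψ, hψ⟩ := exists_bil1 hT hs (hs.dp (bs i)) (hs.dp (rm (bs i) (uq c)))
  have h := onb hL (ψ.comp L)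
  simp only [LinearMap.comp_apply, hψ, hLr, algc_JJ c hc] at h
  have e1 : ∑ j : Fin n × Fin 4, T m (Dp (rm (bs j) (uq c)) (Dp (bs i) m))
        (Dp (rm (bs i) (uq c)) (Dp (bs j) m)) =
      ∑ j : Fin n × Fin 4, T m (Dp (rm (bs j) (uq c)) (Dp (bs i) m))
        (Dp (bs j) (Dp (rm (bs i) (uq c)) m)) := by
    refine Finset.sum_congr rfl fun j _ => ?_
    rw [algc_comm hm (rm (bs i) (uq c)) (bs j)]
  rw [e1, ← h, ← Finset.sum_neg_distrib]
  refine Finset.sum_congr rfl fun j _ => ?_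
  rw [algc_smul, hT.smul2, algc_comm hm (bs j) (bs i),
    algc_comm hm (rm (bs j) (uq c)) (rm (bs i) (uq c))]
  ring

private theorem algc_vec (hT : Tf n T) {m b : EE n → ℝ} (hm : Sm m) (hb : Sm b)
    (v w : Fin n × Fin 4 → PP n) :
    ∑ i, T m b (Dp (v i) m) + ∑ i, T m b (Dp (w i) m) =
      T m b (Dp (∑ i, (v i + w i)) m) := by
  have h1 : Dp (∑ i, (v i + w i)) m = fun z => ∑ i, Dp (v i + w i) m z :=
    funext fun z => Dp_sum_left Finset.univ _ m z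
  rw [h1, hT.sum3 Finset.univ hm hb fun i _ => hm.dp _, ← Finset.sum_add_distrib]
  refine Finset.sum_congr rfl fun i _ => ?_
  have h2 : Dp (v i + w i) m = fun z => Dp (v i) m z + Dp (w i) m z :=
    funext fun z => Dp_add_left _ _ m z
  rw [h2, hT.add3 hm hb (hm.dp _) (hm.dp _)]

theorem alg_c (hT : Tf n T) {m : EE n → ℝ} (hm : Kn m) (c : Fin 4) (hc : c ≠ 0) :
    ∑ i, ∑ j, T m (Dp (bs i) (Dp (bs j) m))
        (Dp (rm (bs i) (uq c)) (Dp (rm (bs j) (uq c)) m))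
      = -(4 * (n : ℝ)) * ∑ i, T m (Dp (bs i) m) (Dp (bs i) m) := by
  have hs : Sm m := hm.toSm
  have hmove : ∀ i j : Fin n × Fin 4,
      2 * T m (Dp (bs i) (Dp (bs j) m)) (Dp (rm (bs i) (uq c)) (Dp (rm (bs j) (uq c)) m)) =
      T m (Dp (rm (bs i) (uq c)) (Dp (bs i) m)) (Dp (rm (bs j) (uq c)) (Dp (bs j) m)) +
      T m (Dp (rm (bs j) (uq c)) (Dp (bs i) m)) (Dp (rm (bs i) (uq c)) (Dp (bs j) m)) +
      T m (Dp (bs j) m) (Dp (tp (rm (bs j) (uq c)) (bs i) (rm (bs i) (uq c))) m) +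
      T m (Dp (bs i) m) (Dp (tp (rm (bs j) (uq c)) (bs j) (rm (bs i) (uq c))) m) := fun i j =>
    move hT hm (bs i) (bs j) (rm (bs i) (uq c)) (rm (bs j) (uq c))
  have hsum : 2 * ∑ i, ∑ j, T m (Dp (bs i) (Dp (bs j) m))
        (Dp (rm (bs i) (uq c)) (Dp (rm (bs j) (uq c)) m)) =
      ∑ i, ∑ j, T m (Dp (rm (bs i) (uq c)) (Dp (bs i) m))
        (Dp (rm (bs j) (uq c)) (Dp (bs j) m)) +
      ∑ i, ∑ j, T m (Dp (rm (bs j) (uq c)) (Dp (bs i) m))
        (Dp (rm (bs i) (uq c)) (Dp (bs j) m)) +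
      ∑ i, ∑ j, T m (Dp (bs j) m) (Dp (tp (rm (bs j) (uq c)) (bs i) (rm (bs i) (uq c))) m) +
      ∑ i, ∑ j, T m (Dp (bs i) m) (Dp (tp (rm (bs j) (uq c)) (bs j) (rm (bs i) (uq c))) m) := by
    simp only [Finset.mul_sum, hmove, Finset.sum_add_distrib]
  have hfirst : ∑ i, ∑ j, T m (Dp (rm (bs i) (uq c)) (Dp (bs i) m))
        (Dp (rm (bs j) (uq c)) (Dp (bs j) m)) = 0 := by
    rw [Finset.sum_comm]
    refine Finset.sum_eq_zero fun j _ => ?_
    rw [← hT.sum2 Finset.univ hs (fun i _ => (hs.dp _).dp _) ((hs.dp _).dp _),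
      algc_first hm c hc, algc_zero2 hT]
  have hsecond : ∑ i, ∑ j, T m (Dp (rm (bs j) (uq c)) (Dp (bs i) m))
        (Dp (rm (bs i) (uq c)) (Dp (bs j) m)) =
      - ∑ i, ∑ j, T m (Dp (bs i) (Dp (bs j) m))
        (Dp (rm (bs i) (uq c)) (Dp (rm (bs j) (uq c)) m)) := by
    rw [← Finset.sum_neg_distrib]
    exact Finset.sum_congr rfl fun i _ => algc_second hT hm c hc i
  have hthird : ∑ i, ∑ j, T m (Dp (bs j) m)
        (Dp (tp (rm (bs j) (uq c)) (bs i) (rm (bs i) (uq c))) m) +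
      ∑ i, ∑ j, T m (Dp (bs i) m) (Dp (tp (rm (bs j) (uq c)) (bs j) (rm (bs i) (uq c))) m) =
      -(12 * (n : ℝ)) * ∑ i, T m (Dp (bs i) m) (Dp (bs i) m) := by
    rw [Finset.sum_comm, ← Finset.sum_add_distrib, Finset.mul_sum]
    refine Finset.sum_congr rfl fun p _ => ?_
    rw [algc_vec hT hs (hs.dp (bs p))
      (fun i => tp (rm (bs p) (uq c)) (bs i) (rm (bs i) (uq c)))
      (fun i => tp (rm (bs i) (uq c)) (bs i) (rm (bs p) (uq c))), quat_V (bs p) c hc,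
      algc_smul, hT.smul3]
  linarith

end SPN

end
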