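import Pool.Agent.SPN.Alga
import Pool.Agent.SPN.Onb

/-! # Module Algd (difficulty 4): (3.4)

`R_c p = rm p (uq c)`, `c : Fin 4`, `H_ij = ∑_c D_{R_c i}D_{R_c j} m` (in `Sm`). By `hT.nonneg`
`0 ≤ ∑_{i,j} T m H_ij H_ij = ∑_{c,c'} ∑_{i,j} T m (D_{R_c i}D_{R_c j} m) (D_{R_c' i}D_{R_c' j} m)` (`Tf.sum2`, `Tf.sum3`).
For fixed `c, c'` put `x = uq c`, `y = uq c'`, `u = star x * y`. By `onb` (with `L = R_c`) in `i` for fixed `j`,
with `ψ p q = T m (D_p D_{jx} m) (D_{rm q u} D_{jy} m)` (`exists_bil1`, `exists_Rm`; `rm (rm i x) u = rm i y`):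
`∑_i T m (D_{ix}D_{jx} m) (D_{iy}D_{jy} m) = ∑_i T m (D_iD_{jx} m) (D_{iu}D_{jy} m)`; the same in `j` (after `D_comm`)
gives `∑_{i,j} T m (D_iD_j m) (D_{iu}D_{ju} m)`. Now `star (uq c) * uq c' = ± uq c''` (16 cases) and the sign occurs
twice in `D_{iu}D_{ju}`, so this is `Q c'' = ∑_{i,j} T m (D_iD_j m) (D_{R_c'' i}D_{R_c'' j} m)`; for fixed `c` the map
`c' ↦ c''` is a bijection of `Fin 4`. So the total is `4 ∑_c Q c`. -/

open MeasureTheory Matrix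
open scoped ContDiff

noncomputable section

namespace SPN

variable {n : ℕ} {T : (EE n → ℝ) → (EE n → ℝ) → (EE n → ℝ) → ℝ}

private theorem algd_norm (c : Fin 4) : ‖uq c‖ = 1 := by
  have h : Quaternion.normSq (uq c) = 1 := by
    rw [Quaternion.normSq_def']
    fin_cases c <;> simp [uq]
    change (1 : ℝ) ^ 2 + 0 ^ 2 + 0 ^ 2 + 0 ^ 2 = 1
    norm_num
  rw [Quaternion.normSq_eq_norm_mul_self] at h
  rcases mul_self_eq_one_iff.mp h with h | h
  · exact h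
  · have := norm_nonneg (uq c)
    linarith

private theorem algd_step (hT : Tf n T) {m b c : EE n → ℝ} (hm : Sm m) (hb : Sm b) (hc : Sm c)
    {x y : Quaternion ℝ} (hx : ‖x‖ = 1) (hxx : x * star x = 1) (hy : ‖y‖ = 1) :
    ∑ i : Fin n × Fin 4, T m (Dp (rm (bs i) x) b) (Dp (rm (bs i) y) c) =
      ∑ i : Fin n × Fin 4, T m (Dp (bs i) b) (Dp (rm (bs i) (star x * y)) c) := by
  obtain ⟨ψ, hψ⟩ := exists_bil1 hT hm hb hc
  obtain ⟨L, hL, hLr⟩ := exists_Rm (n := n) hx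
  have hu : ‖star x * y‖ = 1 := by rw [norm_mul, norm_star, hx, hy, one_mul]
  obtain ⟨M, hM, hMr⟩ := exists_Rm (n := n) hu
  have h := onb hL (ψ.compl₂ M)
  have e1 : ∀ p : PP n, rm (rm p x) (star x * y) = rm p y := by
    intro p
    funext a
    simp only [rm]
    rw [mul_assoc, ← mul_assoc x, hxx, one_mul]
  simp only [LinearMap.compl₂_apply, hψ, hLr, hMr, e1] at h
  exact h

/-- the sum `Q u` -/
private def algdQ (T : (EE n → ℝ) → (EE n → ℝ) → (EE n → ℝ) → ℝ) (m : EE n → ℝ)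
    (u : Quaternion ℝ) : ℝ :=
  ∑ i : Fin n × Fin 4, ∑ j : Fin n × Fin 4, T m (Dp (bs i) (Dp (bs j) m))
    (Dp (rm (bs i) u) (Dp (rm (bs j) u) m))

private theorem algd_comm {m : EE n → ℝ} (hm : Kn m) (p q : PP n) :
    Dp p (Dp q m) = Dp q (Dp p m) :=
  funext fun z => D_comm hm.smooth hm.left p q z

private theorem algd_two (hT : Tf n T) {m : EE n → ℝ} (hm : Kn m)
    {x y : Quaternion ℝ} (hx : ‖x‖ = 1) (hxx : x * star x = 1) (hy : ‖y‖ = 1) :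
    ∑ i : Fin n × Fin 4, ∑ j : Fin n × Fin 4, T m (Dp (rm (bs i) x) (Dp (rm (bs j) x) m))
      (Dp (rm (bs i) y) (Dp (rm (bs j) y) m)) = algdQ T m (star x * y) := by
  have hs : Sm m := hm.toSm
  rw [Finset.sum_comm]
  have h1 : ∀ j : Fin n × Fin 4,
      ∑ i : Fin n × Fin 4, T m (Dp (rm (bs i) x) (Dp (rm (bs j) x) m))
        (Dp (rm (bs i) y) (Dp (rm (bs j) y) m)) =
      ∑ i : Fin n × Fin 4, T m (Dp (bs i) (Dp (rm (bs j) x) m))
        (Dp (rm (bs i) (star x * y)) (Dp (rm (bs j) y) m)) := fun j =>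
    algd_step hT hs (hs.dp _) (hs.dp _) hx hxx hy
  rw [Finset.sum_congr rfl fun j _ => h1 j, Finset.sum_comm]
  unfold algdQ
  refine Finset.sum_congr rfl fun i _ => ?_
  have h2 := algd_step hT hs (hs.dp (bs i)) (hs.dp (rm (bs i) (star x * y))) hx hxx hy
  calc ∑ j : Fin n × Fin 4, T m (Dp (bs i) (Dp (rm (bs j) x) m))
        (Dp (rm (bs i) (star x * y)) (Dp (rm (bs j) y) m)) =
      ∑ j : Fin n × Fin 4, T m (Dp (rm (bs j) x) (Dp (bs i) m))
        (Dp (rm (bs j) y) (Dp (rm (bs i) (star x * y)) m)) := by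
        refine Finset.sum_congr rfl fun j _ => ?_
        rw [algd_comm hm (bs i) (rm (bs j) x), algd_comm hm (rm (bs i) (star x * y)) (rm (bs j) y)]
    _ = ∑ j : Fin n × Fin 4, T m (Dp (bs j) (Dp (bs i) m))
        (Dp (rm (bs j) (star x * y)) (Dp (rm (bs i) (star x * y)) m)) := h2
    _ = _ := by
        refine Finset.sum_congr rfl fun j _ => ?_
        rw [algd_comm hm (bs i) (bs j),
          algd_comm hm (rm (bs i) (star x * y)) (rm (bs j) (star x * y))]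

private theorem algd_neg {m : EE n → ℝ} (hm : Kn m) (u : Quaternion ℝ) :
    algdQ T m (-u) = algdQ T m u := by
  unfold algdQ
  refine Finset.sum_congr rfl fun i _ => Finset.sum_congr rfl fun j _ => ?_
  have e1 : ∀ p : PP n, rm p (-u) = (-1 : ℝ) • rm p u := by
    intro p
    funext a
    simp [rm]
  have e2 : Dp (rm (bs i) (-u)) (Dp (rm (bs j) (-u)) m) =
      Dp (rm (bs i) u) (Dp (rm (bs j) u) m) := by
    have e3 : Dp (rm (bs j) (-u)) m = fun z => (-1 : ℝ) * Dp (rm (bs j) u) m z := by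
      funext z
      rw [e1, Dp_smul_left]
    rw [e3]
    funext z
    rw [e1, Dp_smul_left]
    have e4 : Dp (rm (bs i) u) (fun z => (-1 : ℝ) * Dp (rm (bs j) u) m z) z =
        (-1 : ℝ) * Dp (rm (bs i) u) (Dp (rm (bs j) u) m) z :=
      LX_cmul (Dp_contDiff hm.smooth _) (-1) _ z
    rw [e4]
    ring
  rw [e2]

private theorem algd_mul : ∀ c : Fin 4,
    (c = 0 ∧ star (uq c) * uq 0 = uq 0 ∧ star (uq c) * uq 1 = uq 1 ∧ star (uq c) * uq 2 = uq 2 ∧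
      star (uq c) * uq 3 = uq 3) ∨
    (c = 1 ∧ star (uq c) * uq 0 = -uq 1 ∧ star (uq c) * uq 1 = uq 0 ∧ star (uq c) * uq 2 = -uq 3 ∧
      star (uq c) * uq 3 = uq 2) ∨
    (c = 2 ∧ star (uq c) * uq 0 = -uq 2 ∧ star (uq c) * uq 1 = uq 3 ∧ star (uq c) * uq 2 = uq 0 ∧
      star (uq c) * uq 3 = -uq 1) ∨
    (c = 3 ∧ star (uq c) * uq 0 = -uq 3 ∧ star (uq c) * uq 1 = -uq 2 ∧ star (uq c) * uq 2 = uq 1 ∧
      star (uq c) * uq 3 = uq 0) := by
  intro c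
  fin_cases c
  · left
    refine ⟨rfl, ?_, ?_, ?_, ?_⟩ <;> ext <;> simp [uq]
  · right; left
    refine ⟨rfl, ?_, ?_, ?_, ?_⟩ <;> ext <;> simp [uq] <;> rfl
  · right; right; left
    refine ⟨rfl, ?_, ?_, ?_, ?_⟩ <;> ext <;> simp [uq] <;> rfl
  · right; right; right
    refine ⟨rfl, ?_, ?_, ?_, ?_⟩ <;> ext <;> simp [uq] <;> rfl

private theorem algd_row {m : EE n → ℝ} (hm : Kn m) (c : Fin 4) :
    ∑ c' : Fin 4, algdQ T m (star (uq c) * uq c') = ∑ c' : Fin 4, algdQ T m (uq c') := by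
  rw [Fin.sum_univ_four, Fin.sum_univ_four]
  rcases algd_mul c with h | h | h | h <;> obtain ⟨-, h0, h1, h2, h3⟩ := h <;>
    rw [h0, h1, h2, h3] <;> simp only [algd_neg hm] <;> ring

theorem alg_d (hT : Tf n T) {m : EE n → ℝ} (hm : Kn m) (h0 : ∀ z, 0 ≤ m z) :
    0 ≤ ∑ c : Fin 4, ∑ i, ∑ j, T m (Dp (bs i) (Dp (bs j) m))
        (Dp (rm (bs i) (uq c)) (Dp (rm (bs j) (uq c)) m)) := by
  have hs : Sm m := hm.toSm
  have key : ∀ i j : Fin n × Fin 4, 0 ≤ ∑ c : Fin 4, ∑ c' : Fin 4,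
      T m (Dp (rm (bs i) (uq c)) (Dp (rm (bs j) (uq c)) m))
        (Dp (rm (bs i) (uq c')) (Dp (rm (bs j) (uq c')) m)) := by
    intro i j
    have hS : ∀ c : Fin 4, Sm (Dp (rm (bs i) (uq c)) (Dp (rm (bs j) (uq c)) m)) := fun c =>
      (hs.dp _).dp _
    have hH : Sm (fun z => ∑ c : Fin 4, Dp (rm (bs i) (uq c)) (Dp (rm (bs j) (uq c)) m) z) :=
      Sm.sum Finset.univ fun c _ => hS c
    have h1 := hT.nonneg m _ hs h0 hH
    rw [hT.sum2 Finset.univ hs (fun c _ => hS c) hH] at h1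
    refine h1.trans_eq ?_
    refine Finset.sum_congr rfl fun c _ => ?_
    exact hT.sum3 Finset.univ hs (hS c) fun c' _ => hS c'
  have h1 : 0 ≤ ∑ i : Fin n × Fin 4, ∑ j : Fin n × Fin 4, ∑ c : Fin 4, ∑ c' : Fin 4,
      T m (Dp (rm (bs i) (uq c)) (Dp (rm (bs j) (uq c)) m))
        (Dp (rm (bs i) (uq c')) (Dp (rm (bs j) (uq c')) m)) :=
    Finset.sum_nonneg fun i _ => Finset.sum_nonneg fun j _ => key i j
  have h2 : ∑ i : Fin n × Fin 4, ∑ j : Fin n × Fin 4, ∑ c : Fin 4, ∑ c' : Fin 4,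
      T m (Dp (rm (bs i) (uq c)) (Dp (rm (bs j) (uq c)) m))
        (Dp (rm (bs i) (uq c')) (Dp (rm (bs j) (uq c')) m)) =
      ∑ c : Fin 4, ∑ c' : Fin 4, ∑ i : Fin n × Fin 4, ∑ j : Fin n × Fin 4,
      T m (Dp (rm (bs i) (uq c)) (Dp (rm (bs j) (uq c)) m))
        (Dp (rm (bs i) (uq c')) (Dp (rm (bs j) (uq c')) m)) := by
    calc _ = ∑ i : Fin n × Fin 4, ∑ c : Fin 4, ∑ j : Fin n × Fin 4, ∑ c' : Fin 4,
          T m (Dp (rm (bs i) (uq c)) (Dp (rm (bs j) (uq c)) m))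
            (Dp (rm (bs i) (uq c')) (Dp (rm (bs j) (uq c')) m)) :=
          Finset.sum_congr rfl fun i _ => Finset.sum_comm
      _ = ∑ c : Fin 4, ∑ i : Fin n × Fin 4, ∑ j : Fin n × Fin 4, ∑ c' : Fin 4,
          T m (Dp (rm (bs i) (uq c)) (Dp (rm (bs j) (uq c)) m))
            (Dp (rm (bs i) (uq c')) (Dp (rm (bs j) (uq c')) m)) := Finset.sum_comm
      _ = ∑ c : Fin 4, ∑ i : Fin n × Fin 4, ∑ c' : Fin 4, ∑ j : Fin n × Fin 4,
          T m (Dp (rm (bs i) (uq c)) (Dp (rm (bs j) (uq c)) m))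
            (Dp (rm (bs i) (uq c')) (Dp (rm (bs j) (uq c')) m)) :=
          Finset.sum_congr rfl fun c _ => Finset.sum_congr rfl fun i _ => Finset.sum_comm
      _ = _ := Finset.sum_congr rfl fun c _ => Finset.sum_comm
  rw [h2] at h1
  have h3 : ∀ c : Fin 4, ∑ c' : Fin 4, ∑ i : Fin n × Fin 4, ∑ j : Fin n × Fin 4,
      T m (Dp (rm (bs i) (uq c)) (Dp (rm (bs j) (uq c)) m))
        (Dp (rm (bs i) (uq c')) (Dp (rm (bs j) (uq c')) m)) =
      ∑ c' : Fin 4, algdQ T m (uq c') := by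
    intro c
    rw [← algd_row (T := T) hm c]
    refine Finset.sum_congr rfl fun c' _ => ?_
    exact algd_two hT hm (algd_norm c) (uq_mul_star c) (algd_norm c')
  rw [Finset.sum_congr rfl fun c _ => h3 c, Finset.sum_const, Finset.card_univ, Fintype.card_fin,
    nsmul_eq_mul] at h1
  have h4 : 0 ≤ ∑ c' : Fin 4, algdQ T m (uq c') := by
    by_contra hneg
    push Not at hneg
    norm_num at h1
    linarith
  exact h4

end SPN

end
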