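import Pool.Agent.SPN.Algb
import Pool.Agent.SPN.Algc
import Pool.Agent.SPN.Algd

/-! # Module Alge (difficulty 1): (3.5) -/

open MeasureTheory Matrix
open scoped ContDiff

noncomputable section

namespace SPN

variable {n : ℕ} {T : (EE n → ℝ) → (EE n → ℝ) → (EE n → ℝ) → ℝ}

theorem alg_e (hT : Tf n T) {m : EE n → ℝ} (hm : Kn m) (h0 : ∀ z, 0 ≤ m z) :
    (8 * (n : ℝ) - 8) * ∑ i, T m (Dp (bs i) m) (Dp (bs i) m) ≤ T m (Lap m) (Lap m) := by
  have h1 := alg_b hT hm
  have h2 := alg_d hT hm h0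
  have h3 := alg_c hT hm 1 (by decide)
  have h4 := alg_c hT hm 2 (by decide)
  have h5 := alg_c hT hm 3 (by decide)
  have h6 : ∀ p : PP n, rm p (uq 0) = p := by
    intro p
    funext a
    simp [rm, uq]
  rw [Fin.sum_univ_four, h3, h4, h5] at h2
  simp only [h6] at h2
  linarith

end SPN

end
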