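import Pool.Agent.SPN.Xal

/-! # Module Com (difficulty 3): calculus of the derivations `L_A`

`LX A m z = - fderiv ℝ m z (act A z)`; `act` is linear in `A`.
`LX_comm`: `L_A (L_B m) z = D²m(z)(Az, Bz) + Dm(z)(B A z)`: derivative of
`z ↦ - fderiv ℝ m z (act B z)` (`HasFDerivAt.clm_apply`), symmetric second derivative
(`ContDiffAt.isSymmSndFDerivAt` or `second_derivative_symmetric`).
`LX_comp`: chain rule. `hasDerivAt_hy`: `t ↦ act (hyM i (-t)) z` is differentiable with derivative
`- act (Xm (bs i)) (act (hyM i (-t)) z)` (`hyM_eq`; `X (1 + (cosh t - 1) P + sinh t X)`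
`= cosh t X + sinh t P`, using `Xm_sq`, `Xm_mul_Pj`), chain rule. -/

open MeasureTheory Matrix
open scoped ContDiff

noncomputable section

namespace SPN

variable {n : ℕ}

theorem act_add (A B : Mt n) (z : EE n) : act (A + B) z = act A z + act B z := by
  simp only [act_apply, Matrix.add_mulVec]

theorem act_smul (r : ℝ) (A : Mt n) (z : EE n) : act (r • A) z = r • act A z := by
  simp only [act_apply]
  exact Matrix.smul_mulVec r A z

theorem LX_contDiff {m : EE n → ℝ} (hm : ContDiff ℝ ∞ m) (A : Mt n) :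
    ContDiff ℝ ∞ (LX A m) := by
  have h1 : ContDiff ℝ ∞ (fderiv ℝ m) := hm.fderiv_right (by simp)
  exact (h1.clm_apply (act A).contDiff).neg

theorem LX_add_left (A B : Mt n) (m : EE n → ℝ) (z : EE n) :
    LX (A + B) m z = LX A m z + LX B m z := by
  simp only [LX, act_add, map_add]
  ring

theorem LX_smul_left (r : ℝ) (A : Mt n) (m : EE n → ℝ) (z : EE n) :
    LX (r • A) m z = r * LX A m z := by
  simp only [LX, act_smul, map_smul, smul_eq_mul]
  ring

theorem LX_add {m m' : EE n → ℝ} (hm : ContDiff ℝ ∞ m) (hm' : ContDiff ℝ ∞ m') (A : Mt n)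
    (z : EE n) : LX A (fun z => m z + m' z) z = LX A m z + LX A m' z := by
  have h1 : DifferentiableAt ℝ m z := (hm.differentiable (by simp)) z
  have h2 : DifferentiableAt ℝ m' z := (hm'.differentiable (by simp)) z
  simp only [LX]
  rw [fderiv_fun_add h1 h2]
  simp only [_root_.add_apply]
  ring

theorem LX_cmul {m : EE n → ℝ} (hm : ContDiff ℝ ∞ m) (r : ℝ) (A : Mt n) (z : EE n) :
    LX A (fun z => r * m z) z = r * LX A m z := by
  have h1 : DifferentiableAt ℝ m z := (hm.differentiable (by simp)) z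
  simp only [LX]
  rw [fderiv_const_mul h1 r]
  simp only [_root_.smul_apply, smul_eq_mul]
  ring

theorem LX_sum {ι : Type*} (s : Finset ι) {m : ι → EE n → ℝ} (hm : ∀ i ∈ s, ContDiff ℝ ∞ (m i))
    (A : Mt n) (z : EE n) : LX A (fun z => ∑ i ∈ s, m i z) z = ∑ i ∈ s, LX A (m i) z := by
  have h1 : ∀ i ∈ s, DifferentiableAt ℝ (m i) z := fun i hi =>
    ((hm i hi).differentiable (by simp)) z
  simp only [LX]
  rw [fderiv_fun_sum h1]
  simp only [_root_.sum_apply, Finset.sum_neg_distrib]

theorem LX_comm {m : EE n → ℝ} (hm : ContDiff ℝ ∞ m) (A B : Mt n) (z : EE n) :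
    LX A (LX B m) z - LX B (LX A m) z = LX (A * B - B * A) m z := by
  have hd : ContDiff ℝ ∞ (fderiv ℝ m) := hm.fderiv_right (by simp)
  have hdd : DifferentiableAt ℝ (fderiv ℝ m) z := (hd.differentiable (by simp)) z
  have key : ∀ A B : Mt n, LX A (LX B m) z =
      fderiv ℝ (fderiv ℝ m) z (act A z) (act B z) + fderiv ℝ m z (act B (act A z)) := by
    intro A B
    have h1 : HasFDerivAt (fun z => - (fderiv ℝ m z (act B z)))
        (-((fderiv ℝ m z).comp (act B) + (fderiv ℝ (fderiv ℝ m) z).flip (act B z))) z :=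
      (hdd.hasFDerivAt.clm_apply (act B).hasFDerivAt).neg
    have h2 : fderiv ℝ (LX B m) z =
        -((fderiv ℝ m z).comp (act B) + (fderiv ℝ (fderiv ℝ m) z).flip (act B z)) := h1.fderiv
    change - (fderiv ℝ (LX B m) z (act A z)) = _
    rw [h2]
    simp only [_root_.neg_apply, _root_.add_apply,
      ContinuousLinearMap.comp_apply, ContinuousLinearMap.flip_apply]
    ring
  have hsym : fderiv ℝ (fderiv ℝ m) z (act A z) (act B z) =
      fderiv ℝ (fderiv ℝ m) z (act B z) (act A z) := by
    have h3 : IsSymmSndFDerivAt ℝ m z := by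
      apply ContDiffAt.isSymmSndFDerivAt (n := ∞) hm.contDiffAt
      rw [minSmoothness_of_isRCLikeNormedField]
      exact WithTop.coe_le_coe.mpr (le_top : (2 : ℕ∞) ≤ ⊤)
    exact h3 (act A z) (act B z)
  rw [key A B, key B A, hsym]
  have h4 : act (A * B - B * A) z = act A (act B z) - act B (act A z) := by
    simp only [act_apply, Matrix.sub_mulVec, Matrix.mulVec_mulVec]
  simp only [LX, h4, map_sub]
  ring

theorem LX_comp {m : EE n → ℝ} (hm : ContDiff ℝ ∞ m) {A B g : Mt n} (h : g * A = B * g)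
    (z : EE n) : LX A (fun z => m (act g z)) z = LX B m (act g z) := by
  have h1 : DifferentiableAt ℝ m (act g z) := (hm.differentiable (by simp)) _
  have h2 : HasFDerivAt (fun z => m (act g z)) ((fderiv ℝ m (act g z)).comp (act g)) z :=
    h1.hasFDerivAt.comp z (act g).hasFDerivAt
  simp only [LX]
  rw [h2.fderiv]
  simp only [ContinuousLinearMap.comp_apply]
  rw [← act_mul, h, act_mul]

theorem hasDerivAt_hy {m : EE n → ℝ} (hm : ContDiff ℝ ∞ m) (i : Fin n × Fin 4) (z : EE n)
    (t : ℝ) : HasDerivAt (fun t => m (act (hyM i (-t)) z))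
      (Dp (bs i) m (act (hyM i (-t)) z)) t := by
  have e1 : ∀ t : ℝ, act (hyM i (-t)) z =
      z + (Real.cosh t - 1) • act (Pj i.1) z - Real.sinh t • act (Xm (bs i)) z := by
    intro t
    have h0 : act (1 : Mt n) z = z := by simp [act_apply]
    rw [hyM_eq, act_add, act_add, act_smul, act_smul, Real.cosh_neg, Real.sinh_neg, h0, neg_smul]
    abel
  have e2 : HasDerivAt (fun t : ℝ => act (hyM i (-t)) z)
      (Real.sinh t • act (Pj i.1) z - Real.cosh t • act (Xm (bs i)) z) t := by
    have h1 : HasDerivAt (fun t : ℝ => (Real.cosh t - 1) • act (Pj i.1) z)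
        (Real.sinh t • act (Pj i.1) z) t :=
      ((Real.hasDerivAt_cosh t).sub_const 1).smul_const _
    have h2 : HasDerivAt (fun t : ℝ => Real.sinh t • act (Xm (bs i)) z)
        (Real.cosh t • act (Xm (bs i)) z) t :=
      (Real.hasDerivAt_sinh t).smul_const _
    have h3 := (h1.const_add z).sub h2
    have h4 : (fun t : ℝ => act (hyM i (-t)) z) =
        fun t : ℝ => z + (Real.cosh t - 1) • act (Pj i.1) z - Real.sinh t • act (Xm (bs i)) z :=
      funext e1
    rw [h4]
    exact h3
  have e3 : Real.sinh t • act (Pj i.1) z - Real.cosh t • act (Xm (bs i)) z =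
      - act (Xm (bs i)) (act (hyM i (-t)) z) := by
    have h5 : act (Xm (bs i)) (act (Pj i.1) z) = act (Xm (bs i)) z := by
      rw [← act_mul, Xm_mul_Pj]
    have h6 : act (Xm (bs i)) (act (Xm (bs i)) z) = act (Pj i.1) z := by
      rw [← act_mul, Xm_sq]
    rw [e1 t, map_sub, map_add, map_smul, map_smul, h5, h6]
    module
  rw [e3] at e2
  have h7 : DifferentiableAt ℝ m (act (hyM i (-t)) z) := (hm.differentiable (by simp)) _
  have h8 := h7.hasFDerivAt.comp_hasDerivAt t e2
  have h9 : Dp (bs i) m (act (hyM i (-t)) z) =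
      fderiv ℝ m (act (hyM i (-t)) z) (- act (Xm (bs i)) (act (hyM i (-t)) z)) := by
    simp only [Dp, LX, map_neg]
  rw [h9]
  exact h8

theorem Dp_add_left (p q : PP n) (m : EE n → ℝ) (z : EE n) :
    Dp (p + q) m z = Dp p m z + Dp q m z := by
  simp only [Dp, Xm_add, LX_add_left]

theorem Dp_smul_left (r : ℝ) (p : PP n) (m : EE n → ℝ) (z : EE n) :
    Dp (r • p) m z = r * Dp p m z := by
  simp only [Dp, Xm_smul, LX_smul_left]

theorem Dp_sum_left {ι : Type*} (s : Finset ι) (p : ι → PP n) (m : EE n → ℝ) (z : EE n) :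
    Dp (∑ i ∈ s, p i) m z = ∑ i ∈ s, Dp (p i) m z := by
  classical
  induction s using Finset.induction_on with
  | empty =>
    have h := Dp_smul_left 0 (0 : PP n) m z
    simpa using h
  | insert a s ha ih =>
    rw [Finset.sum_insert ha, Finset.sum_insert ha, Dp_add_left, ih]

theorem Dp_contDiff {m : EE n → ℝ} (hm : ContDiff ℝ ∞ m) (p : PP n) :
    ContDiff ℝ ∞ (Dp p m) := by
  exact LX_contDiff hm (Xm p)

end SPN

end
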