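import Pool.Agent.SPN.Qe

/-! # Module Dra (difficulty 4): root vectors

`H = Xm (bs (ih n))`, `X = Xm (bs i)`, `Y = Yi i = λ⁻¹ (H X - X H)`, `i = (a, μ) ≠ (0, 0)`, `u = uq μ`.
`Xm_bs`: `H = E_01 + E_10`, `X = star u E_0a' + u E_a'0` (`a' = a.succ`, `1 = (0 : Fin n).succ`).
Case `a ≠ 0` (`λ = 1`): `Y = star u E_1a' - u E_a'1`; `[H, Y] = X`, `[X, Y] = -H` (`star u * u = 1`).
Case `a = 0`, `μ ≠ 0` (`λ = 2`, `star u = -u`, `u * u = -1`): `X = -u E_01 + u E_10`, `Y = u E_00 - u E_11`,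
`[H, Y] = 2 X`, `[X, Y] = -2 H`.
`Yi_conj_id`: `hyM (ih n) (-t) * (C Y + S X) = Y * hyM (ih n) (-t)`, `C = cosh (λ t)`, `S = sinh (λ t)`,
`hyM (ih n) (-t) = 1 + (c - 1) P - s H`, `P = Pj 0`, `c = cosh t`, `s = sinh t`.
`λ = 2`: `P X = X`, `P Y = Y`, `Y P = Y`, `H Y = X`, `H X = Y`, `Y H = -X`: the left side is
`(c C - s S) Y + (c S - s C) X = c Y + s X`, the right side `c Y + s X`.
`λ = 1` (`C = c`, `S = s`): let `U = star u E_1a'`, `U' = u E_a'1`, `W = star u E_0a'`, `W' = u E_a'0`; `Y = U - U'`,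
`X = W + W'`, `P Y = U`, `P X = W`, `H Y = W`, `H X = U`, `Y P = -U'`, `Y H = -W'`: both sides are
`U - c U' + s W'` (use `c² - s² = 1`). -/

open MeasureTheory Matrix
open scoped ContDiff

noncomputable section

namespace SPN

variable {n : ℕ} [NeZero n]

omit [NeZero n] in
private lemma Dra_smul_conj (r : ℝ) (A : Mt n) : (r • A)ᴴ = r • Aᴴ := by
  ext a b : 1
  simp [Matrix.conjTranspose_apply]

private lemma Dra_H : Xm (bs (ih n)) =
    Matrix.single 0 (Fin.succ (0 : Fin n)) 1 + Matrix.single (Fin.succ (0 : Fin n)) 0 1 := by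
  rw [Xm_bs]
  simp [ih, uq]

private lemma Dra_star {μ : Fin 4} (h : μ ≠ 0) : star (uq μ) = - uq μ := by
  fin_cases μ
  · exact absurd rfl h
  all_goals ext <;> simp [uq]

private lemma Dra_sq {μ : Fin 4} (h : μ ≠ 0) : uq μ * uq μ = -1 := by
  have h1 := star_uq_mul μ
  rw [Dra_star h, neg_mul] at h1
  rw [← h1, neg_neg]

omit [NeZero n] in
private lemma Dra_ne (a : Fin n) : (0 : Fin (n + 1)) ≠ a.succ := (Fin.succ_ne_zero a).symm

omit [NeZero n] in
private lemma Dra_ne' (a : Fin n) : a.succ ≠ (0 : Fin (n + 1)) := Fin.succ_ne_zero a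

omit [NeZero n] in
private lemma Dra_single_neg (i j : Fin (n + 1)) (u : Quaternion ℝ) :
    (Matrix.single i j (-u) : Mt n) = - Matrix.single i j u := by
  ext a b : 1
  rw [Matrix.neg_apply, Matrix.single_apply, Matrix.single_apply]
  split_ifs <;> simp

omit [NeZero n] in
private lemma Dra_zero {i j k l : Fin (n + 1)} (h : j ≠ k) (x y : Quaternion ℝ) :
    (Matrix.single i j x : Mt n) * Matrix.single k l y = 0 := by
  rw [Matrix.single_mul_single_of_ne]
  exact h

/-- `X` for `i.1 = 0`, `μ ≠ 0` -/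
private lemma Dra_Xa {i : Fin n × Fin 4} (h0 : i.1 = 0) (h1 : i.2 ≠ 0) :
    Xm (bs i) = Matrix.single (Fin.succ (0 : Fin n)) 0 (uq i.2) -
      Matrix.single 0 (Fin.succ (0 : Fin n)) (uq i.2) := by
  rw [Xm_bs, h0, Dra_star h1, Dra_single_neg]
  abel

private lemma Dra_Ya {i : Fin n × Fin 4} (h0 : i.1 = 0) (h1 : i.2 ≠ 0) :
    Yi i = Matrix.single 0 0 (uq i.2) -
      Matrix.single (Fin.succ (0 : Fin n)) (Fin.succ (0 : Fin n)) (uq i.2) := by
  have e1 : Xm (bs (ih n)) * Xm (bs i) = Matrix.single 0 0 (uq i.2) -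
      Matrix.single (Fin.succ (0 : Fin n)) (Fin.succ (0 : Fin n)) (uq i.2) := by
    rw [Dra_H, Dra_Xa h0 h1]
    simp only [add_mul, mul_sub, Matrix.single_mul_single_same,
      Dra_zero (Dra_ne _),
      Dra_zero (Dra_ne' _), one_mul]
    abel
  have e2 : Xm (bs i) * Xm (bs (ih n)) = - (Matrix.single 0 0 (uq i.2) -
      Matrix.single (Fin.succ (0 : Fin n)) (Fin.succ (0 : Fin n)) (uq i.2)) := by
    rw [Dra_H, Dra_Xa h0 h1]
    simp only [mul_add, sub_mul, Matrix.single_mul_single_same,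
      Dra_zero (Dra_ne _),
      Dra_zero (Dra_ne' _), mul_one]
    abel
  unfold Yi Ym lam
  rw [if_pos h0, e1, e2]
  module

private lemma Dra_Yb {i : Fin n × Fin 4} (h0 : i.1 ≠ 0) :
    Yi i = Matrix.single (Fin.succ (0 : Fin n)) i.1.succ (star (uq i.2)) -
      Matrix.single i.1.succ (Fin.succ (0 : Fin n)) (uq i.2) := by
  have k1 : i.1.succ ≠ Fin.succ (0 : Fin n) := fun h => h0 (Fin.succ_injective _ h)
  have e1 : Xm (bs (ih n)) * Xm (bs i) =
      Matrix.single (Fin.succ (0 : Fin n)) i.1.succ (star (uq i.2)) := by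
    rw [Dra_H, Xm_bs]
    simp only [add_mul, mul_add, Matrix.single_mul_single_same,
      Dra_zero (Dra_ne _),
      Dra_zero (Dra_ne' _),
      Dra_zero k1.symm, one_mul]
    abel
  have e2 : Xm (bs i) * Xm (bs (ih n)) =
      Matrix.single i.1.succ (Fin.succ (0 : Fin n)) (uq i.2) := by
    rw [Dra_H, Xm_bs]
    simp only [mul_add, add_mul, Matrix.single_mul_single_same,
      Dra_zero (Dra_ne _),
      Dra_zero (Dra_ne' _),
      Dra_zero k1, mul_one]
    abel
  unfold Yi Ym lam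
  rw [if_neg h0, e1, e2, inv_one, one_smul]

private lemma Dra_cases {i : Fin n × Fin 4} (hi : i ≠ ih n) : (i.1 = 0 ∧ i.2 ≠ 0) ∨ i.1 ≠ 0 := by
  by_cases h : i.1 = 0
  · refine Or.inl ⟨h, fun h2 => hi ?_⟩
    exact Prod.ext h h2
  · exact Or.inr h

theorem Yi_herm (i : Fin n × Fin 4) : (Yi i)ᴴ = - Yi i := by
  unfold Yi Ym
  rw [Dra_smul_conj, Matrix.conjTranspose_sub, Matrix.conjTranspose_mul, Matrix.conjTranspose_mul,
    Xm_conj, Xm_conj]
  rw [← smul_neg, neg_sub]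

theorem Yi_Jm (i : Fin n × Fin 4) : Yi i * Jm n = Jm n * Yi i := by
  have h : ∀ p q : PP n, Xm p * Xm q * Jm n = Jm n * (Xm p * Xm q) := by
    intro p q
    rw [← mul_assoc, Jm_mul_Xm, neg_mul, mul_assoc (Xm p) (Jm n), Jm_mul_Xm, mul_neg, neg_neg,
      mul_assoc]
  unfold Yi Ym
  rw [smul_mul_assoc, mul_smul_comm, sub_mul, mul_sub, h, h]

theorem Xm_Yi {i : Fin n × Fin 4} (hi : i ≠ ih n) :
    Xm (bs i) * Yi i - Yi i * Xm (bs i) = (-(lam i)) • Xm (bs (ih n)) := by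
  rcases Dra_cases hi with ⟨h0, h1⟩ | h0
  · have hl : lam i = 2 := if_pos h0
    rw [Dra_Ya h0 h1, Dra_Xa h0 h1, hl, Dra_H]
    simp only [mul_sub, sub_mul, Matrix.single_mul_single_same,
      Dra_zero (Dra_ne _),
      Dra_zero (Dra_ne' _), Dra_sq h1, Dra_single_neg]
    module
  · have hl : lam i = 1 := if_neg h0
    have k1 : i.1.succ ≠ Fin.succ (0 : Fin n) := fun h => h0 (Fin.succ_injective _ h)
    rw [Dra_Yb h0, Xm_bs, hl, Dra_H]
    simp only [mul_sub, sub_mul, add_mul, mul_add, Matrix.single_mul_single_same,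
      Dra_zero (Dra_ne _),
      Dra_zero (Dra_ne' _),
      Dra_zero k1,
      Dra_zero k1.symm, star_uq_mul]
    module

private lemma Dra_absA {R : Type*} [Ring R] [Algebra ℝ R] (P H X Y : R) (q1 : P * X = X)
    (q2 : P * Y = Y) (q3 : Y * P = Y) (q4 : H * X = Y) (q5 : H * Y = X) (q6 : Y * H = -X)
    (c s : ℝ) (hcs : c ^ 2 = s ^ 2 + 1) :
    (1 + (c - 1) • P + (-s) • H) * ((c ^ 2 + s ^ 2) • Y + (2 * s * c) • X) =
      Y * (1 + (c - 1) • P + (-s) • H) := by
  simp only [add_mul, mul_add, one_mul, mul_one, smul_mul_assoc, mul_smul_comm, q1, q2, q3, q4,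
    q5, q6]
  match_scalars
  · linear_combination (c : ℝ) * hcs
  · linear_combination (s : ℝ) * hcs

theorem Yi_conj_id {i : Fin n × Fin 4} (hi : i ≠ ih n) (t : ℝ) :
    hyM (ih n) (-t) * (Real.cosh (lam i * t) • Yi i + Real.sinh (lam i * t) • Xm (bs i))
      = Yi i * hyM (ih n) (-t) := by
  have hP : (Pj (ih n).1 : Mt n) = Matrix.single 0 0 1 +
      Matrix.single (Fin.succ (0 : Fin n)) (Fin.succ (0 : Fin n)) 1 := rfl
  rcases Dra_cases hi with ⟨h0, h1⟩ | h0
  · have hl : lam i = 2 := if_pos h0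
    have q1 : (Pj (ih n).1 : Mt n) * Xm (bs i) = Xm (bs i) := by
      have := Pj_mul_Xm i
      rw [h0] at this
      exact this
    have q2 : (Pj (ih n).1 : Mt n) * Yi i = Yi i := by
      rw [hP, Dra_Ya h0 h1]
      simp only [mul_sub, add_mul, Matrix.single_mul_single_same,
        Dra_zero (Dra_ne _),
        Dra_zero (Dra_ne' _), one_mul]
      abel
    have q3 : Yi i * (Pj (ih n).1 : Mt n) = Yi i := by
      rw [hP, Dra_Ya h0 h1]
      simp only [sub_mul, mul_add, Matrix.single_mul_single_same,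
        Dra_zero (Dra_ne _),
        Dra_zero (Dra_ne' _), mul_one]
      abel
    have q4 : Xm (bs (ih n)) * Xm (bs i) = Yi i := by
      rw [Dra_Ya h0 h1, Dra_H, Dra_Xa h0 h1]
      simp only [add_mul, mul_sub, Matrix.single_mul_single_same,
        Dra_zero (Dra_ne _),
        Dra_zero (Dra_ne' _), one_mul]
      abel
    have q5 : Xm (bs (ih n)) * Yi i = Xm (bs i) := by
      rw [Dra_Ya h0 h1, Dra_H, Dra_Xa h0 h1]
      simp only [add_mul, mul_sub, Matrix.single_mul_single_same,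
        Dra_zero (Dra_ne _),
        Dra_zero (Dra_ne' _), one_mul]
      abel
    have q6 : Yi i * Xm (bs (ih n)) = - Xm (bs i) := by
      rw [Dra_Ya h0 h1, Dra_H, Dra_Xa h0 h1]
      simp only [mul_add, sub_mul, Matrix.single_mul_single_same,
        Dra_zero (Dra_ne _),
        Dra_zero (Dra_ne' _), mul_one]
      abel
    have hC : Real.cosh (2 * t) = Real.cosh t ^ 2 + Real.sinh t ^ 2 := Real.cosh_two_mul t
    have hS : Real.sinh (2 * t) = 2 * Real.sinh t * Real.cosh t := Real.sinh_two_mul t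
    have hcs : Real.cosh t ^ 2 = Real.sinh t ^ 2 + 1 := Real.cosh_sq t
    rw [hyM_eq, Real.cosh_neg, Real.sinh_neg, hl, hC, hS]
    exact Dra_absA (Pj (ih n).1) (Xm (bs (ih n))) (Xm (bs i)) (Yi i) q1 q2 q3 q4 q5 q6
      (Real.cosh t) (Real.sinh t) hcs
  · have hl : lam i = 1 := if_neg h0
    have k1 : i.1.succ ≠ Fin.succ (0 : Fin n) := fun h => h0 (Fin.succ_injective _ h)
    have hcs : Real.cosh t ^ 2 = Real.sinh t ^ 2 + 1 := Real.cosh_sq t
    rw [hyM_eq, Real.cosh_neg, Real.sinh_neg, hl, one_mul, hP, Dra_Yb h0, Dra_H, Xm_bs]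
    simp only [add_mul, mul_add, mul_sub, sub_mul, one_mul, mul_one, smul_mul_assoc,
      mul_smul_comm, Matrix.single_mul_single_same,
      Dra_zero (Dra_ne _),
      Dra_zero (Dra_ne' _),
      Dra_zero k1,
      Dra_zero k1.symm, smul_add, smul_sub, smul_smul, smul_zero,
      add_zero, zero_add, sub_zero, zero_sub]
    match_scalars
    all_goals first | ring1 | linear_combination hcs | linear_combination (-1 : ℝ) * hcs

theorem hyM_H (t : ℝ) : hyM (ih n) t * Xm (bs (ih n)) = Xm (bs (ih n)) * hyM (ih n) t := by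
  rw [hyM_eq]
  simp only [add_mul, mul_add, one_mul, mul_one, smul_mul_assoc, mul_smul_comm, Pj_mul_Xm,
    Xm_mul_Pj]

/-- `∑_i [i ≠ ih n] λ_i coth (λ_i t) = (4n-4) coth t + 6 coth 2t` -/
theorem sum_lam (t : ℝ) :
    ∑ i ∈ Finset.univ.erase (ih n), lam i * (Real.cosh (lam i * t) / Real.sinh (lam i * t))
      = hc n t := by
  obtain ⟨f, hf⟩ : ∃ f : Fin n × Fin 4 → ℝ, f = fun i =>
    lam i * (Real.cosh (lam i * t) / Real.sinh (lam i * t)) := ⟨_, rfl⟩
  obtain ⟨A, hA⟩ : ∃ A : ℝ, A = 2 * (Real.cosh (2 * t) / Real.sinh (2 * t)) := ⟨_, rfl⟩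
  obtain ⟨B, hB⟩ : ∃ B : ℝ, B = Real.cosh t / Real.sinh t := ⟨_, rfl⟩
  have h1 : ∀ i : Fin n × Fin 4, f i = B + (if i.1 = 0 then A - B else 0) := by
    intro i
    rw [hf]
    show lam i * (Real.cosh (lam i * t) / Real.sinh (lam i * t)) = _
    by_cases h : i.1 = 0
    · have hl : lam i = 2 := if_pos h
      rw [if_pos h, hl, hA]
      ring
    · have hl : lam i = 1 := if_neg h
      rw [if_neg h, hl, hB, one_mul, one_mul, add_zero]
  have h2 : ∑ i : Fin n × Fin 4, f i = 4 * (n * B) + 4 * (A - B) := by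
    have e : ∀ a : Fin n, ∑ b : Fin 4, f (a, b) = 4 * (B + (if a = 0 then A - B else 0)) := by
      intro a
      have e1 : ∀ b : Fin 4, f (a, b) = B + (if a = 0 then A - B else 0) := fun b => h1 (a, b)
      rw [Finset.sum_congr rfl (fun b _ => e1 b), Finset.sum_const, Finset.card_univ,
        Fintype.card_fin, nsmul_eq_mul]
      push_cast
      rfl
    rw [Fintype.sum_prod_type, Finset.sum_congr rfl (fun a _ => e a), ← Finset.mul_sum,
      Finset.sum_add_distrib, Finset.sum_ite_eq' Finset.univ (0 : Fin n),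
      if_pos (Finset.mem_univ _), Finset.sum_const, Finset.card_univ, Fintype.card_fin,
      nsmul_eq_mul]
    ring
  have h3 : ∑ i ∈ Finset.univ.erase (ih n), f i = ∑ i : Fin n × Fin 4, f i - f (ih n) :=
    Finset.sum_erase_eq_sub (Finset.mem_univ _)
  have h4 : f (ih n) = A := by
    rw [h1, if_pos (show (ih n).1 = 0 from rfl)]
    ring
  have h5 : ∑ i ∈ Finset.univ.erase (ih n),
      lam i * (Real.cosh (lam i * t) / Real.sinh (lam i * t)) =
      ∑ i ∈ Finset.univ.erase (ih n), f i := by rw [hf]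
  rw [h5, h3, h2, h4]
  unfold hc
  rw [← hB, hA]
  ring

end SPN

end
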