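import Pool.Agent.SPN.Smf
import Pool.Agent.SPN.Onb

/-! # Module Lpk (difficulty 3): the Laplacian commutes with `K`

`exists_Ad` for `k⁻¹`... precisely: for `k ∈ K` take `L` with `k.mat * Xm p = Xm (L p) * k.mat` for all `p`.
`Lap_comp`: `LX_comp` with `g = k.mat`, `A = Xm p`, `B = Xm (L p)`: `Dp p (m ∘ k) z = Dp (L p) m (k z)`; again:
`Dp p (Dp p (m ∘ k)) z = Dp (L p) (Dp (L p) m) (k z)`. Sum over the basis and apply `onb` with
`ψ p q = Dp p (Dp q m) (act k.mat z)` (bilinear: `Dp_add_left`, `Dp_smul_left` and `LX_add`, `LX_cmul` for the inner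
variable; `LinearMap.mk₂`).
`Lap_KK`: if `m ∘ k = m` then `Lap m (k z) = Lap (m ∘ k) z = Lap m z`.
`grad_KK`: the same for the gradient: for `K`-invariant `m`, `Dp p m z = Dp (L p) m (k z)`. So for a linear
functional `Φ` ... it is stated as: for every symmetric bilinear construction only the following is used:
there is `L` isometric with `Dp p m z = Dp (L p) m (act k.mat z)`. -/

open MeasureTheory Matrix
open scoped ContDiff

noncomputable section

namespace SPN

variable {n : ℕ}

private def psiL {m : EE n → ℝ} (hm : ContDiff ℝ ∞ m) (w : EE n) : PP n →ₗ[ℝ] PP n →ₗ[ℝ] ℝ :=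
  LinearMap.mk₂ ℝ (fun p q => Dp p (Dp q m) w)
    (fun p p' q => Dp_add_left p p' (Dp q m) w)
    (fun c p q => Dp_smul_left c p (Dp q m) w)
    (fun p q q' => by
      have h : Dp (q + q') m = fun z => Dp q m z + Dp q' m z := by
        funext z; exact Dp_add_left q q' m z
      change Dp p (Dp (q + q') m) w = _
      rw [h]
      exact LX_add (Dp_contDiff hm q) (Dp_contDiff hm q') (Xm p) w)
    (fun c p q => by
      have h : Dp (c • q) m = fun z => c * Dp q m z := by
        funext z; exact Dp_smul_left c q m z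
      change Dp p (Dp (c • q) m) w = _
      rw [h]
      exact LX_cmul (Dp_contDiff hm q) c (Xm p) w)

private theorem psiL_apply {m : EE n → ℝ} (hm : ContDiff ℝ ∞ m) (w : EE n) (p q : PP n) :
    psiL hm w p q = Dp p (Dp q m) w := rfl

theorem Lap_comp {k : GG n} (hk : k ∈ KK n) {m : EE n → ℝ} (hm : ContDiff ℝ ∞ m) (z : EE n) :
    Lap (fun z => m (act k.mat z)) z = Lap m (act k.mat z) := by
  obtain ⟨L, hL, hX⟩ := exists_Ad hk
  have h1 : ∀ p, Dp p (fun z => m (act k.mat z)) = fun z => Dp (L p) m (act k.mat z) := by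
    intro p; funext z
    exact LX_comp hm (hX p) z
  have h2 : ∀ p, Dp p (Dp p (fun z => m (act k.mat z))) z
      = Dp (L p) (Dp (L p) m) (act k.mat z) := by
    intro p
    rw [h1 p]
    exact LX_comp (Dp_contDiff hm (L p)) (hX p) z
  unfold Lap
  rw [Finset.sum_congr rfl (fun i _ => h2 (bs i))]
  have h3 := onb hL (psiL hm (act k.mat z))
  simpa only [psiL_apply] using h3

/-- right multiplication by a quaternion -/
private def RxL (x : Quaternion ℝ) : EE n →L[ℝ] EE n :=
  LinearMap.toContinuousLinearMap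
    { toFun := fun z i => z i * x
      map_add' := fun a b => by funext i; simp [add_mul]
      map_smul' := fun c a => by funext i; simp }

private theorem RxL_apply (x : Quaternion ℝ) (z : EE n) : RxL x z = fun i => z i * x := rfl

private theorem act_RxL (A : Mt n) (x : Quaternion ℝ) (z : EE n) :
    act A (RxL x z) = RxL x (act A z) := by
  funext i
  simp only [RxL_apply, act_apply, Matrix.mulVec, dotProduct, Finset.sum_mul, mul_assoc]

private theorem LX_right {m : EE n → ℝ} (hm : ContDiff ℝ ∞ m) (A : Mt n) (x : Quaternion ℝ)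
    (z : EE n) : LX A (fun z => m (RxL x z)) z = LX A m (RxL x z) := by
  unfold LX
  have hd : DifferentiableAt ℝ m (RxL x z) := (hm.differentiable (by simp)).differentiableAt
  have h : HasFDerivAt (fun z => m (RxL x z)) ((fderiv ℝ m (RxL x z)).comp (RxL x : EE n →L[ℝ] EE n)) z :=
    HasFDerivAt.comp z hd.hasFDerivAt (RxL x : EE n →L[ℝ] EE n).hasFDerivAt
  rw [h.fderiv, ContinuousLinearMap.comp_apply, act_RxL]

theorem Kn.lap {m : EE n → ℝ} (hm : Kn m) : Kn (Lap m) := by
  refine { toSm := hm.toSm.lap, left := ?_, right := ?_ }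
  · intro k hk z
    have h := Lap_comp hk hm.smooth z
    have h' : (fun z => m (act k.mat z)) = m := by
      funext z; exact hm.left k hk z
    rw [h'] at h
    exact h.symm
  · intro x hx z
    change Lap m (RxL x z) = Lap m z
    have h' : (fun z => m (RxL x z)) = m := by
      funext z; exact hm.right x hx z
    unfold Lap
    refine Finset.sum_congr rfl fun i _ => ?_
    have h1 : (fun z => Dp (bs i) m (RxL x z)) = Dp (bs i) m := by
      funext z
      have h2 := LX_right hm.smooth (Xm (bs i)) x z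
      rw [h'] at h2
      exact h2.symm
    have h3 := LX_right (Dp_contDiff hm.smooth (bs i)) (Xm (bs i)) x z
    rw [h1] at h3
    exact h3.symm

theorem grad_KK {k : GG n} (hk : k ∈ KK n) {m : EE n → ℝ} (hm : ContDiff ℝ ∞ m)
    (hK : ∀ k ∈ KK n, ∀ z, m (act k.mat z) = m z) :
    ∃ L : PP n →ₗ[ℝ] PP n, (∀ p, nq (L p) = nq p) ∧
      ∀ p z, Dp p m z = Dp (L p) m (act k.mat z) := by
  obtain ⟨L, hL, hX⟩ := exists_Ad hk
  refine ⟨L, hL, fun p z => ?_⟩
  have h := LX_comp hm (hX p) z
  have h' : (fun z => m (act k.mat z)) = m := by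
    funext z; exact hK k hk z
  rw [h'] at h
  exact h

end SPN

end
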