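import Pool.Agent.SPN.Cpk

/-! # Module Krn (difficulty 3): the kernels on the group

`kr m g = m (act g.mat (e0 n))`. Continuous: `m` is continuous, `g ↦ g.mat *ᵥ e0` is continuous
(`GG.continuous_mat`). Support: contained in the compact set `{g | ‖g.mat 0 0‖ ≤ R}` (`isCompact_ball`), by
`hm.supp` (`HasCompactSupport.intro`). `kr_left`: `hm.left`. `kr_right`: `act (g k) e0 = act g (act k e0)
= act g (e0 · k_00) = (act g e0) · k_00` (`act_KK_e0`, matrices act on the left), `hm.right`. -/

open MeasureTheory Matrix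
open scoped ContDiff

noncomputable section

namespace SPN

variable {n : ℕ}

theorem kr_continuous {m : EE n → ℝ} (hm : Sm m) : Continuous (kr m) := by
  have h1 : Continuous m := hm.smooth.continuous
  have h2 : Continuous (fun g : GG n => g.mat *ᵥ (e0 n)) :=
    GG.continuous_mat.matrix_mulVec continuous_const
  exact h1.comp h2

theorem kr_compact {m : EE n → ℝ} (hm : Sm m) : HasCompactSupport (kr m) := by
  obtain ⟨R, hR⟩ := hm.supp
  refine HasCompactSupport.intro (isCompact_ball n R) ?_
  intro g hg
  refine hR g ?_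
  rw [Set.mem_ofPred_eq, not_le] at hg
  exact hg

theorem kr_integrable {m : EE n → ℝ} (hm : Sm m) : Integrable (kr m) (mu n) :=
  (kr_continuous hm).integrable_of_hasCompactSupport (kr_compact hm)

theorem Kn.bk {m : EE n → ℝ} (hm : Kn m) : Bk (KK n) (kr m) := by
  refine ⟨kr_continuous hm.toSm, kr_compact hm.toSm, ?_⟩
  intro k hk h
  show m (act (k * h).mat (e0 n)) = m (act h.mat (e0 n))
  rw [GG.mat_mul, act_mul]
  exact hm.left k hk _

theorem kr_right {m : EE n → ℝ} (hm : Kn m) : ∀ k ∈ KK n, ∀ h, kr m (h * k) = kr m h := by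
  intro k hk h
  show m (act (h * k).mat (e0 n)) = m (act h.mat (e0 n))
  rw [GG.mat_mul, act_mul, act_KK_e0 hk]
  have h1 : act h.mat (fun i => e0 n i * k.mat 0 0)
      = fun i => (act h.mat (e0 n)) i * k.mat 0 0 := by
    funext i
    simp only [act_apply, Matrix.mulVec, dotProduct]
    rw [Finset.sum_mul]
    refine Finset.sum_congr rfl fun j _ => ?_
    rw [mul_assoc]
  rw [h1]
  exact hm.right _ (KK_block hk).2 _

end SPN

end
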