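import Pool.Agent.SPN.Smf
import Pool.Agent.SPN.Krn

/-! # Module Ldo (difficulty 4): derivative of the kernels in `L¹`

`kr b ((hy i t)⁻¹ * h) = b (act (hyM i (-t)) (act h.mat (e0 n)))` (`hy_neg`, `act_mul`). For fixed `h` let
`f t` be this number: `f' t = Dp (bs i) b (..)`, `f'' t = Dp (bs i) (Dp (bs i) b) (..)` (`hasDerivAt_hy`), so by
Taylor (mean value inequality twice) `|f t - f 0 - t f' 0| ≤ t² M`, `M = sup |kr (Dp (bs i) (Dp (bs i) b))|`
(finite: continuous with compact support, `Sm.dp`, `kr_continuous`, `kr_compact`). For `|t| ≤ 1` the integrand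
vanishes outside of the compact set `hy i '' [-1,1] * tsupport (kr b) ∪ tsupport (kr (Dp (bs i) b))`, whose
measure is finite. So the quotient is at most `M μ(L) |t| → 0`. -/

open MeasureTheory Matrix
open scoped ContDiff

noncomputable section

namespace SPN

variable {n : ℕ}

private theorem ldo_key {b : EE n → ℝ} (hb : Sm b) (i : Fin n × Fin 4) {M : ℝ}
    (hM : ∀ g, |kr (Dp (bs i) (Dp (bs i) b)) g| ≤ M) (t : ℝ) (h : GG n) :
    |kr b ((hy i t)⁻¹ * h) - kr b h - t * kr (Dp (bs i) b) h| ≤ M * |t| * |t| := by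
  have hk : ∀ (m : EE n → ℝ) (s : ℝ),
      m (act (hyM i (-s)) (act h.mat (e0 n))) = kr m ((hy i s)⁻¹ * h) := by
    intro m s
    rw [← hy_neg]
    unfold kr
    rw [GG.mat_mul, mat_hy, act_mul]
  have hk0 : ∀ (m : EE n → ℝ), m (act (hyM i (-0)) (act h.mat (e0 n))) = kr m h := by
    intro m
    rw [hk m 0, hy_zero, inv_one, one_mul]
  set z := act h.mat (e0 n) with hz
  have d1 : ∀ s, HasDerivAt (fun s => b (act (hyM i (-s)) z))
      (Dp (bs i) b (act (hyM i (-s)) z)) s := fun s => hasDerivAt_hy hb.smooth i z s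
  have d2 : ∀ s, HasDerivAt (fun s => Dp (bs i) b (act (hyM i (-s)) z))
      (Dp (bs i) (Dp (bs i) b) (act (hyM i (-s)) z)) s :=
    fun s => hasDerivAt_hy (hb.dp (bs i)).smooth i z s
  have s1 : ∀ s : ℝ, ‖Dp (bs i) b (act (hyM i (-s)) z) - Dp (bs i) b (act (hyM i (-0)) z)‖ ≤
      M * ‖s - 0‖ := by
    intro s
    refine Convex.norm_image_sub_le_of_norm_hasDerivWithin_le (s := Set.univ)
      (f := fun s => Dp (bs i) b (act (hyM i (-s)) z))
      (f' := fun s => Dp (bs i) (Dp (bs i) b) (act (hyM i (-s)) z))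
      (fun x _ => (d2 x).hasDerivWithinAt) ?_ convex_univ (Set.mem_univ _) (Set.mem_univ _)
    intro x _
    rw [Real.norm_eq_abs, hk (Dp (bs i) (Dp (bs i) b)) x]
    exact hM _
  have s2 : ‖(b (act (hyM i (-t)) z) - t * Dp (bs i) b (act (hyM i (-0)) z)) -
      (b (act (hyM i (-0)) z) - 0 * Dp (bs i) b (act (hyM i (-0)) z))‖ ≤
      M * |t| * ‖t - 0‖ := by
    refine Convex.norm_image_sub_le_of_norm_hasDerivWithin_le (s := Metric.closedBall 0 |t|)
      (f := fun s => b (act (hyM i (-s)) z) - s * Dp (bs i) b (act (hyM i (-0)) z))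
      (f' := fun s => Dp (bs i) b (act (hyM i (-s)) z) -
        1 * Dp (bs i) b (act (hyM i (-0)) z))
      (fun x _ => ((d1 x).sub ((hasDerivAt_id x).mul_const _)).hasDerivWithinAt) ?_
      (convex_closedBall _ _) ?_ ?_
    · intro x hx
      rw [one_mul]
      refine (s1 x).trans ?_
      have h1 : ‖x - 0‖ ≤ |t| := by
        rw [Metric.mem_closedBall, dist_eq_norm] at hx
        exact hx
      have h2 : 0 ≤ M := (abs_nonneg _).trans (hM 1)
      exact mul_le_mul_of_nonneg_left h1 h2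
    · simp
    · rw [Metric.mem_closedBall, dist_zero_right, Real.norm_eq_abs]
  rw [hk0 b, hk0 (Dp (bs i) b), hk b t, Real.norm_eq_abs, Real.norm_eq_abs, sub_zero, zero_mul, sub_zero] at s2
  calc |kr b ((hy i t)⁻¹ * h) - kr b h - t * kr (Dp (bs i) b) h|
      = |kr b ((hy i t)⁻¹ * h) - t * kr (Dp (bs i) b) h - kr b h| := by congr 1; ring
    _ ≤ _ := s2

theorem ld_kr {b : EE n → ℝ} (hb : Sm b) (i : Fin n × Fin 4) :
    LD (mu n) (hy i) (kr b) (kr (Dp (bs i) b)) := by
  obtain ⟨M, hM⟩ : ∃ M, ∀ g, |kr (Dp (bs i) (Dp (bs i) b)) g| ≤ M := by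
    obtain ⟨C, hC⟩ := (kr_compact ((hb.dp (bs i)).dp (bs i))).exists_bound_of_continuous
      (kr_continuous ((hb.dp (bs i)).dp (bs i)))
    exact ⟨C, fun g => by rw [← Real.norm_eq_abs]; exact hC g⟩
  set L1 : Set (GG n) := (fun p : ℝ × GG n => hy i p.1 * p.2) ''
    (Set.Icc (-1) 1 ×ˢ tsupport (kr b)) with hL1
  have hc1 : IsCompact L1 :=
    (isCompact_Icc.prod (kr_compact hb)).image
      (((continuous_hy i).comp continuous_fst).mul continuous_snd)
  set L : Set (GG n) := L1 ∪ tsupport (kr (Dp (bs i) b)) with hL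
  have hc : IsCompact L := hc1.union (kr_compact (hb.dp (bs i)))
  have hfin : mu n L < ⊤ := hc.measure_lt_top
  have hzero : ∀ t : ℝ, |t| ≤ 1 → ∀ h, h ∉ L →
      |kr b ((hy i t)⁻¹ * h) - kr b h - t * kr (Dp (bs i) b) h| = 0 := by
    intro t ht h hh
    have a1 : kr b ((hy i t)⁻¹ * h) = 0 := by
      by_contra hne
      apply hh
      left
      refine ⟨(t, (hy i t)⁻¹ * h), ⟨abs_le.1 ht, subset_tsupport _ hne⟩, ?_⟩
      simp
    have a2 : kr b h = 0 := by
      by_contra hne
      apply hh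
      left
      refine ⟨(0, h), ⟨by norm_num, subset_tsupport _ hne⟩, ?_⟩
      simp [hy_zero]
    have a3 : kr (Dp (bs i) b) h = 0 := by
      by_contra hne
      exact hh (Or.inr (subset_tsupport _ hne))
    rw [a1, a2, a3]
    simp
  unfold LD
  have hup : Filter.Tendsto (fun t : ℝ => (M * (mu n).real L) * |t|) (nhdsWithin 0 {0}ᶜ) (nhds 0) := by
    have h1 : Filter.Tendsto (fun t : ℝ => (M * (mu n).real L) * |t|) (nhds 0)
        (nhds ((M * (mu n).real L) * |0|)) :=
      (by fun_prop : Continuous (fun t : ℝ => (M * (mu n).real L) * |t|)).tendsto 0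
    rw [abs_zero, mul_zero] at h1
    exact h1.mono_left nhdsWithin_le_nhds
  refine squeeze_zero' (Filter.Eventually.of_forall fun t => ?_) ?_ hup
  · exact div_nonneg (integral_nonneg fun h => abs_nonneg _) (abs_nonneg _)
  · filter_upwards [self_mem_nhdsWithin,
      nhdsWithin_le_nhds (Metric.closedBall_mem_nhds (0 : ℝ) one_pos)] with t ht ht1
    have ht0 : 0 < |t| := abs_pos.2 ht
    have ht2 : |t| ≤ 1 := by
      rw [Metric.mem_closedBall, dist_zero_right, Real.norm_eq_abs] at ht1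
      exact ht1
    rw [div_le_iff₀ ht0]
    have e1 : (∫ h, |kr b ((hy i t)⁻¹ * h) - kr b h - t * kr (Dp (bs i) b) h| ∂(mu n)) =
        ∫ h in L, |kr b ((hy i t)⁻¹ * h) - kr b h - t * kr (Dp (bs i) b) h| ∂(mu n) :=
      (setIntegral_eq_integral_of_forall_compl_eq_zero (hzero t ht2)).symm
    rw [e1]
    have e2 := norm_setIntegral_le_of_norm_le_const (μ := mu n) (s := L)
      (f := fun h => |kr b ((hy i t)⁻¹ * h) - kr b h - t * kr (Dp (bs i) b) h|)
      (C := M * |t| * |t|) hfin (fun h _ => by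
        rw [Real.norm_eq_abs, abs_abs]
        exact ldo_key hb i hM t h)
    refine (le_abs_self _).trans ((Real.norm_eq_abs _ ▸ e2).trans (le_of_eq ?_))
    ring

end SPN

end
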