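import Pool.Agent.SPN.Kak

/-! # Module Uni (difficulty 4): `Sp(n,1)` is unimodular

Mathlib: `MeasureTheory.Measure.modularCharacterFun`, `map_right_mul_eq_modularCharacterFun_smul`,
`modularCharacter` (continuous homomorphism to the positive reals). It is `1` on `K`: the image of the
compact group `K` is a compact subgroup of the positive reals (if `χ k > 1` then `χ (k^m) → ∞`, but `χ` is
bounded on `K`; same for the inverse). With `w a_s w⁻¹ = a_s⁻¹` (`ax_hy.weyl`): `χ (a_s)² = 1`, so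
`χ (a_s) = 1`; `G = K A K` (`kak`) gives `χ = 1`, so `mu` is right invariant.
`mu_inv`: `(mu n).inv` is left invariant (since `mu` is right invariant) and a Haar measure, so it is `c • mu n`
(`isHaarMeasure_eq_smul` or `haarScalarFactor`); applying `inv` twice gives `c² = 1`, `c = 1`. -/

open MeasureTheory Matrix
open scoped ContDiff

noncomputable section

namespace SPN

variable (n : ℕ) [NeZero n]

private theorem Uni_cont : Continuous (fun g : GG n => ‖g.mat 0 0‖) :=
  (GG.continuous_mat.matrix_elem 0 0).norm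

private theorem Uni_meas : MeasurableSet {g : GG n | ‖g.mat 0 0‖ ≤ 2} :=
  (isClosed_le (Uni_cont n) continuous_const).measurableSet

private theorem Uni_pos : mu n {g : GG n | ‖g.mat 0 0‖ ≤ 2} ≠ 0 := by
  have h1 : IsOpen {g : GG n | ‖g.mat 0 0‖ < 2} := isOpen_lt (Uni_cont n) continuous_const
  have h2 : 0 < mu n {g : GG n | ‖g.mat 0 0‖ < 2} := by
    refine h1.measure_pos (mu n) ⟨1, ?_⟩
    show ‖(1 : GG n).mat 0 0‖ < 2
    rw [GG.mat_one, Matrix.one_apply_eq, norm_one]
    norm_num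
  have h3 : mu n {g : GG n | ‖g.mat 0 0‖ < 2} ≤ mu n {g : GG n | ‖g.mat 0 0‖ ≤ 2} :=
    measure_mono fun g (hg : ‖g.mat 0 0‖ < 2) => show ‖g.mat 0 0‖ ≤ 2 from le_of_lt hg
  exact (h2.trans_le h3).ne'

private theorem Uni_top : mu n {g : GG n | ‖g.mat 0 0‖ ≤ 2} ≠ ⊤ :=
  (isCompact_ball n 2).measure_lt_top.ne

private theorem Uni_eq_one {c : NNReal} {a : ENNReal} (h0 : a ≠ 0) (h1 : a ≠ ⊤)
    (h : a = (c : ENNReal) * a) : c = 1 := by
  have h2 : (1 : ENNReal) * a = (c : ENNReal) * a := by rw [one_mul]; exact h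
  have h3 := (ENNReal.mul_left_inj h0 h1).1 h2
  exact_mod_cast h3.symm

private theorem Uni_K {k : GG n} (hk : k ∈ KK n) : Measure.modularCharacterFun k = 1 := by
  have h1 := Measure.map_right_mul_eq_modularCharacterFun_smul (mu n) k
  have h2 := congrArg (fun ν : Measure (GG n) => ν {g : GG n | ‖g.mat 0 0‖ ≤ 2}) h1
  simp only [Measure.smul_apply] at h2
  rw [Measure.map_apply (measurable_mul_const k) (Uni_meas n)] at h2
  have h3 : (fun x => x * k) ⁻¹' {g : GG n | ‖g.mat 0 0‖ ≤ 2} = {g : GG n | ‖g.mat 0 0‖ ≤ 2} := by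
    ext g
    show ‖(g * k).mat 0 0‖ ≤ 2 ↔ ‖g.mat 0 0‖ ≤ 2
    rw [norm_mul_KK hk]
  rw [h3] at h2
  exact Uni_eq_one (Uni_pos n) (Uni_top n) h2

private theorem Uni_A (s : ℝ) :
    Measure.modularCharacterFun (hy ((0 : Fin n), (0 : Fin 4)) s) = 1 := by
  have h1 := wJ_hy ((0 : Fin n), (0 : Fin 4)) s
  have h2 := congrArg (fun g : GG n => Measure.modularCharacter g) h1
  simp only [map_mul] at h2
  have h3 : Measure.modularCharacter (wJ n) = 1 := Uni_K n wJ_mem
  have h4 : Measure.modularCharacter ((wJ n)⁻¹) = 1 := Uni_K n ((KK n).inv_mem wJ_mem)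
  have h5 : Measure.modularCharacter ((hy ((0 : Fin n), (0 : Fin 4)) s)⁻¹) *
      Measure.modularCharacter (hy ((0 : Fin n), (0 : Fin 4)) s) = 1 := by
    rw [← map_mul, inv_mul_cancel, map_one]
  rw [h3, h4, one_mul, mul_one] at h2
  rw [← h2] at h5
  have h6 : Measure.modularCharacter (hy ((0 : Fin n), (0 : Fin 4)) s) ^ 2 = 1 := by
    rw [sq]; exact h5
  rcases pow_eq_one_iff.1 h6 with h7 | h7
  · exact h7
  · exact absurd h7 two_ne_zero

private theorem Uni_all (g : GG n) : Measure.modularCharacterFun g = 1 := by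
  obtain ⟨k, hk, s, _, k', hk', rfl⟩ := kak g
  rw [Measure.modularCharacterFun_map_mul, Measure.modularCharacterFun_map_mul, Uni_K n hk,
    Uni_K n hk', Uni_A n s, one_mul, one_mul]

instance mu_right : (mu n).IsMulRightInvariant := by
  refine ⟨fun g => ?_⟩
  rw [Measure.map_right_mul_eq_modularCharacterFun_smul, Uni_all n g, one_smul]

instance mu_inv : (mu n).IsInvInvariant := by
  refine ⟨?_⟩
  have h1 : (mu n).inv.IsMulLeftInvariant := inferInstance
  have hH : (mu n).inv.IsHaarMeasure :=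
    { toIsMulLeftInvariant := h1
      lt_top_of_isCompact := fun s hs => by
        rw [Measure.inv_apply]
        exact hs.inv.measure_lt_top
      open_pos := fun U hU hne => by
        rw [Measure.inv_apply]
        exact (hU.inv).measure_ne_zero _ hne.inv }
  have h2 := Measure.isMulLeftInvariant_eq_smul (mu n).inv (mu n)
  have h3 := congrArg (fun ν : Measure (GG n) => ν {g : GG n | ‖g.mat 0 0‖ ≤ 2}) h2
  simp only [Measure.smul_apply] at h3
  rw [Measure.inv_apply] at h3
  have h4 : ({g : GG n | ‖g.mat 0 0‖ ≤ 2})⁻¹ = {g : GG n | ‖g.mat 0 0‖ ≤ 2} := by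
    ext g
    show ‖(g⁻¹).mat 0 0‖ ≤ 2 ↔ ‖g.mat 0 0‖ ≤ 2
    rw [norm_inv]
  rw [h4] at h3
  have h5 := Uni_eq_one (Uni_pos n) (Uni_top n) h3
  rw [h5, one_smul] at h2
  exact h2

end SPN

end
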