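import Pool.Agent.SPN.Qe
import Pool.Agent.SPN.Ldo
import Pool.Agent.SPN.Der
import Pool.Agent.SPN.Cyc
import Pool.Agent.SPN.Uni

/-! # Module Tfi (difficulty 3): `T(a; b, c) = TT (kr a) (kr b) (kr c)` satisfies `Tf`

`kr (fun z => a z + b z) = fun h => kr a h + kr b h` etc. hold by `rfl`. `TT_symm`, `TT_add1`, `TT_add2`,
`TT_cmul1`, `TT_cmul2`, `TT_nonneg`, `kr_integrable`, `Sm.dp`. `der`: for `p = bs i` this is `TT_deriv` with `x = hy i` and
`ld_kr`; in general `p = ∑ cf p i • bs i` (`cf_sum`) and `Dp p a z = ∑ cf p i * Dp (bs i) a z`, so by linearity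
(`TT_sum2`, ... or prove additivity in `p` first). `cyc`: `TT_cyc` and `∫ kr (Dp p c) = 0` (`int_deriv` with `ld_kr` for
the basis vectors, then linearity). -/

open MeasureTheory Matrix
open scoped ContDiff

noncomputable section

namespace SPN

variable {n : ℕ} [NeZero n] {Γ : Subgroup (GG n)} {π : GG n → Γ} {X : Type*} [LinearOrder X]
  {q : Γ → X}

theorem kr_int_zero {m : EE n → ℝ} (hm : Sm m) (p : PP n) : ∫ g, kr (Dp p m) g ∂(mu n) = 0 := by
  have h1 : ∀ i : Fin n × Fin 4, ∫ g, kr (Dp (bs i) m) g ∂(mu n) = 0 := fun i =>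
    int_deriv (kr_integrable hm) (kr_integrable (hm.dp _)) (ld_kr hm i)
  have h2 : ∀ g : GG n, kr (Dp p m) g = ∑ i : Fin n × Fin 4, cf p i * kr (Dp (bs i) m) g := by
    intro g
    unfold kr
    conv_lhs => rw [cf_sum p]
    rw [Dp_sum_left]
    exact Finset.sum_congr rfl fun i _ => Dp_smul_left _ _ _ _
  simp_rw [h2]
  rw [integral_finsetSum _ fun i _ => ((kr_integrable (hm.dp _)).const_mul _)]
  refine Finset.sum_eq_zero fun i _ => ?_
  rw [integral_const_mul, h1, mul_zero]

theorem tf_inst (hD : Dm (mu n) Γ π) (hq : Mo q) :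
    Tf n (fun a b c => TT (mu n) π q (kr a) (kr b) (kr c)) := by
  have sy : ∀ a b c : EE n → ℝ, TT (mu n) π q (kr a) (kr b) (kr c) =
      TT (mu n) π q (kr a) (kr c) (kr b) := fun a b c => TT_symm _ _ _
  have ad1 : ∀ a a' b c : EE n → ℝ, Sm a → Sm a' → Sm b → Sm c →
      TT (mu n) π q (kr (fun z => a z + a' z)) (kr b) (kr c) =
        TT (mu n) π q (kr a) (kr b) (kr c) + TT (mu n) π q (kr a') (kr b) (kr c) :=
    fun a a' b c ha ha' hb hc =>
      TT_add1 hD hq (kr_integrable ha) (kr_integrable ha') (kr_integrable hb) (kr_integrable hc)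
  have sm1 : ∀ (r : ℝ) (a b c : EE n → ℝ), TT (mu n) π q (kr (fun z => r * a z)) (kr b) (kr c) =
      r * TT (mu n) π q (kr a) (kr b) (kr c) := fun r a b c => TT_cmul1 r _ _ _
  have ad2 : ∀ a b b' c : EE n → ℝ, Sm a → Sm b → Sm b' → Sm c →
      TT (mu n) π q (kr a) (kr (fun z => b z + b' z)) (kr c) =
        TT (mu n) π q (kr a) (kr b) (kr c) + TT (mu n) π q (kr a) (kr b') (kr c) :=
    fun a b b' c ha hb hb' hc =>
      TT_add2 hD hq (kr_integrable ha) (kr_integrable hb) (kr_integrable hb') (kr_integrable hc)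
  have sm2 : ∀ (r : ℝ) (a b c : EE n → ℝ), TT (mu n) π q (kr a) (kr (fun z => r * b z)) (kr c) =
      r * TT (mu n) π q (kr a) (kr b) (kr c) := fun r a b c => TT_cmul2 r _ _ _
  have ad3 : ∀ a b c c' : EE n → ℝ, Sm a → Sm b → Sm c → Sm c' →
      TT (mu n) π q (kr a) (kr b) (kr (fun z => c z + c' z)) =
        TT (mu n) π q (kr a) (kr b) (kr c) + TT (mu n) π q (kr a) (kr b) (kr c') := by
    intro a b c c' ha hb hc hc'
    rw [sy a b (fun z => c z + c' z), ad2 a c c' b ha hc hc' hb, sy a c b, sy a c' b]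
  have sm3 : ∀ (r : ℝ) (a b c : EE n → ℝ), TT (mu n) π q (kr a) (kr b) (kr (fun z => r * c z)) =
      r * TT (mu n) π q (kr a) (kr b) (kr c) := by
    intro r a b c
    rw [sy a b (fun z => r * c z), sm2, sy a c b]
  have dadd : ∀ (p p' : PP n) (a : EE n → ℝ),
      Dp (p + p') a = fun z => Dp p a z + Dp p' a z := fun p p' a =>
    funext fun z => Dp_add_left p p' a z
  have dsm : ∀ (r : ℝ) (p : PP n) (a : EE n → ℝ), Dp (r • p) a = fun z => r * Dp p a z :=
    fun r p a => funext fun z => Dp_smul_left r p a z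
  refine ⟨sy, ad1, sm1, ad2, sm2, ?_, ?_, ?_⟩
  · intro p a b c ha hb hc
    have h := TT_cyc hD hq (kr_integrable ha) (kr_integrable hb) (kr_integrable (hc.dp p))
    rw [kr_int_zero hc p, mul_zero] at h
    exact h
  · intro p a b c ha hb hc
    set L : PP n → ℝ := fun p => TT (mu n) π q (kr (Dp p a)) (kr b) (kr c) +
      TT (mu n) π q (kr a) (kr (Dp p b)) (kr c) + TT (mu n) π q (kr a) (kr b) (kr (Dp p c)) with hL
    have hadd : ∀ p p', L (p + p') = L p + L p' := by
      intro p p'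
      simp only [hL]
      rw [dadd, dadd, dadd, ad1 _ _ _ _ (ha.dp p) (ha.dp p') hb hc,
        ad2 _ _ _ _ ha (hb.dp p) (hb.dp p') hc, ad3 _ _ _ _ ha hb (hc.dp p) (hc.dp p')]
      ring
    have hsm : ∀ (r : ℝ) p, L (r • p) = r * L p := by
      intro r p
      simp only [hL]
      rw [dsm, dsm, dsm, sm1, sm2, sm3]
      ring
    have hbs : ∀ i, L (bs i) = 0 := fun i =>
      TT_deriv hD hq (kr_integrable ha) (kr_integrable (ha.dp _)) (kr_integrable hb)
        (kr_integrable (hb.dp _)) (kr_integrable hc) (kr_integrable (hc.dp _))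
        (ld_kr ha i) (ld_kr hb i) (ld_kr hc i)
    show L p = 0
    rw [cf_sum p]
    refine Finset.sum_induction _ (fun p => L p = 0) ?_ ?_ ?_
    · intro p p' h h'
      rw [hadd, h, h', add_zero]
    · have h := hsm 0 0
      rw [smul_zero, zero_mul] at h
      exact h
    · intro i _
      rw [hsm, hbs, mul_zero]
  · intro m b hm h0 hb
    exact TT_nonneg (fun h => h0 _) _

end SPN

end
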