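import Pool.Agent.SPN.Mnn
import Pool.Agent.SPN.Alge
import Pool.Agent.SPN.Tfi
import Pool.Agent.SPN.Ene
import Pool.Agent.SPN.Ctn
import Pool.Agent.SPN.Tra
import Pool.Agent.SPN.Pkb

/-! # Module Egy (difficulty 4): the energy data

`gf`: sum of squares of `Gf_Sf`. `nonneg`: squares. `right`: `Sf b (v k) γ = Sf (b (k⁻¹ ·)) v γ` (`Sf_mul_right`), and for
`b = kr (Dp p m)`: `b (k⁻¹ h) = (Dp p m) (k⁻¹ h e0) = kr (Dp (L p) m) h` by `grad_KK` (applied to `k⁻¹ ∈ K`... choose the
direction: `Dp p' m z = Dp (L p') m (k z)` for all `p'`, `z`; with `k⁻¹` in place of `k`: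
`Dp (L p) m (k⁻¹ z) = Dp p m z`; so `b_{L p} (k⁻¹ h) = b_p h`). The form `ψ p q = Sf (kr (Dp p m)) v γ * Sf (kr (Dp q m)) v γ`
is bilinear (`Dp_add_left`, `Sf_add`, `Sf_cmul`), so `onb` gives `∑_i ψ' (L i) (L i) = ∑_i ψ' i i` and the claim.
`incr`: `Sf_incr` with `x = hy (ih n)` (`hy_zero`, `hy_add`), `b = kr (mE n r) = mk r` (`kr_mE`),
`b' = kr (Dp (bs (ih n)) (mE n r))` (`ld_kr`), continuity by `Sf_continuous` and `continuous_hy`; then
`Sf b' ^ 2 ≤ Fn` (one term of the sum of squares), monotonicity of the interval integral (both sides are interval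
integrable: continuous).
`energy`: `energy_of` with `ι = Fin n × Fin 4`, `m n = kr (mE n)`, `Λ = kr (Lap (mE ..))`, `e = kr (Dp (bs i) (mE ..))`,
`A = 8 n - 8 > 0`, `h1` from `alg_e` for `mE k` (`tf_inst`), `h2` from `alg_e` for `mE k + mE r` (`Kn.add`; `Dp` and `Lap` of the
sum are the sums, `LX_add`), `hL`: `lap_mE_int`, `∫ kr (mE k) = k` (`kr_mE`, `mk_integral`, `wk_rho`); and `av_grad`. -/

open MeasureTheory Matrix
open scoped ContDiff

noncomputable section

namespace SPN

variable {n : ℕ} [NeZero n] {Γ : Subgroup (GG n)} {π : GG n → Γ} {X : Type*} [LinearOrder X]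
  {q : Γ → X}

omit [NeZero n] in
private theorem int_Dp {m : EE n → ℝ} (hm : Sm m) (p : PP n) :
    Integrable (kr (Dp p m)) (mu n) := kr_integrable (hm.dp p)

/-- `p ↦ S_{D_p m}(v, γ)` as a linear map -/
private def phi (hD : Dm (mu n) Γ π) (q : Γ → X) {m : EE n → ℝ} (hm : Sm m) (v : GG n) (γ : Γ) :
    PP n →ₗ[ℝ] ℝ where
  toFun p := Sf (mu n) π q (kr (Dp p m)) v γ
  map_add' p p' := by
    rw [← Sf_add hD (int_Dp hm p) (int_Dp hm p') v γ]
    congr 1
    funext h
    exact Dp_add_left p p' m _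
  map_smul' r p := by
    rw [RingHom.id_apply, smul_eq_mul, ← Sf_cmul]
    congr 1
    funext h
    exact Dp_smul_left r p m _

private theorem phi_apply (hD : Dm (mu n) Γ π) {m : EE n → ℝ} (hm : Sm m) (v : GG n) (γ : Γ)
    (p : PP n) : phi hD q hm v γ p = Sf (mu n) π q (kr (Dp p m)) v γ := rfl

theorem Fn_right (hD : Dm (mu n) Γ π) (hq : Mo q) (r : ℕ) (v : GG n) (γ : Γ) {k : GG n}
    (hk : k ∈ KK n) : Fn π q r (v * k) γ = Fn π q r v γ := by
  have hm : Kn (mE n r) := mE_kn r
  obtain ⟨L, hL, hL2⟩ := grad_KK hk hm.smooth hm.left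
  have h1 : ∀ p : PP n, Sf (mu n) π q (kr (Dp p (mE n r))) (v * k) γ
      = phi hD q hm.toSm v γ (L p) := by
    intro p
    rw [phi_apply, Sf_mul_right]
    congr 1
    funext h
    have h2 := hL2 p (act (k⁻¹ * h).mat (e0 n))
    rw [← act_mul, ← GG.mat_mul, mul_inv_cancel_left] at h2
    exact h2
  have h3 := onb hL ((phi hD q hm.toSm v γ).smulRight (phi hD q hm.toSm v γ))
  simp only [LinearMap.smulRight_apply, LinearMap.smul_apply, smul_eq_mul] at h3
  unfold Fn
  calc ∑ i : Fin n × Fin 4, Sf (mu n) π q (kr (Dp (bs i) (mE n r))) (v * k) γ ^ 2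
      = ∑ i : Fin n × Fin 4, phi hD q hm.toSm v γ (L (bs i)) * phi hD q hm.toSm v γ (L (bs i)) :=
        Finset.sum_congr rfl fun i _ => by rw [h1, sq]
    _ = ∑ i : Fin n × Fin 4, phi hD q hm.toSm v γ (bs i) * phi hD q hm.toSm v γ (bs i) := h3
    _ = ∑ i : Fin n × Fin 4, Sf (mu n) π q (kr (Dp (bs i) (mE n r))) v γ ^ 2 :=
        Finset.sum_congr rfl fun i _ => by rw [phi_apply, sq]

theorem en_inst (hn : 2 ≤ n) (hD : Dm (mu n) Γ π) (hq : Mo q) :
    En (mu n) π q (KK n) (kap n) (hy (ih n)) (rho n) (Fn π q) := by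
  have hsm : ∀ r, Sm (mE n r) := fun r => (mE_kn r).toSm
  have hgf : ∀ r, Gf (Fn π q r) := fun r => by
    unfold Fn
    refine Gf.sum fun i _ => ?_
    simp only [sq]
    exact (Gf_Sf hD hq (int_Dp (hsm r) (bs i))).mul (Gf_Sf hD hq (int_Dp (hsm r) (bs i)))
  have hct : ∀ r i γ, Continuous (fun v => Sf (mu n) π q (kr (Dp (bs i) (mE n r))) v γ) :=
    fun r i γ => Sf_continuous hD (kr_continuous ((hsm r).dp _)) (kr_compact ((hsm r).dp _)) γ
  have hle : ∀ r i v γ, Sf (mu n) π q (kr (Dp (bs i) (mE n r))) v γ ^ 2 ≤ Fn π q r v γ := by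
    intro r i v γ
    exact Finset.single_le_sum
      (f := fun i => Sf (mu n) π q (kr (Dp (bs i) (mE n r))) v γ ^ 2)
      (fun _ _ => sq_nonneg _) (Finset.mem_univ i)
  have hcF : ∀ r γ, Continuous (fun v => Fn π q r v γ) := by
    intro r γ
    unfold Fn
    exact continuous_finsetSum _ fun i _ => (hct r i γ).pow 2
  have hcx : ∀ v : GG n, Continuous (fun u : ℝ => v * hy (ih n) u) := fun v =>
    continuous_const.mul (continuous_hy (ih n))
  refine ⟨hgf, fun r v γ => Finset.sum_nonneg fun _ _ => sq_nonneg _,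
    fun r v γ k hk => Fn_right hD hq r v γ hk, ?_, ?_⟩
  · intro r v γ s hs
    rw [← kr_mE]
    refine (Sf_incr hD (x := hy (ih n)) (hy_zero (ih n)) (hy_add (ih n)) (kr_integrable (hsm r))
      (int_Dp (hsm r) (bs (ih n))) (ld_kr (hsm r) (ih n)) v γ
      ((hct r (ih n) γ).comp (hcx v)) hs).trans ?_
    refine mul_le_mul_of_nonneg_left ?_ hs
    refine intervalIntegral.integral_mono_on hs ?_ ?_ fun u _ => hle r (ih n) (v * hy (ih n) u) γ
    · exact (((hct r (ih n) γ).comp (hcx v)).pow 2).intervalIntegrable _ _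
    · exact ((hcF r γ).comp (hcx v)).intervalIntegrable _ _
  · have hT := tf_inst (n := n) hD hq
    have hA : 0 < 8 * (n : ℝ) - 8 := by
      have : (2 : ℝ) ≤ n := by exact_mod_cast hn
      linarith
    obtain ⟨C, hC⟩ := energy_of (ι := Fin n × Fin 4) (μ := mu n) (π := π) (q := q) hD hq
      (m := fun r => kr (mE n r)) (Λ := fun r => kr (Lap (mE n r)))
      (e := fun r i => kr (Dp (bs i) (mE n r)))
      (fun r => kr_integrable (hsm r)) (fun r => kr_integrable (hsm r).lap)
      (fun r i => int_Dp (hsm r) (bs i)) (fun r h => mE_nonneg r _)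
      (fun r => by rw [kr_mE]; exact mk_integral wk_rho r)
      (L := 2 * ((cc n)⁻¹ * ∫ g, kr (sig : EE n → ℝ) g ∂(mu n)))
      (fun r => lap_mE_int r) hA
      (fun r => alg_e hT (mE_kn r) (mE_nonneg r))
      (fun r r' => by
        have h := alg_e hT ((mE_kn r).add (mE_kn r'))
          (fun z => add_nonneg (mE_nonneg r z) (mE_nonneg r' z))
        have hd : ∀ p : PP n, Dp p (fun z => mE n r z + mE n r' z)
            = fun z => Dp p (mE n r) z + Dp p (mE n r') z := fun p =>
          funext fun z => LX_add (hsm r).smooth (hsm r').smooth _ z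
        have hl : Lap (fun z => mE n r z + mE n r' z)
            = fun z => Lap (mE n r) z + Lap (mE n r') z := by
          funext z
          unfold Lap
          rw [← Finset.sum_add_distrib]
          refine Finset.sum_congr rfl fun i _ => ?_
          rw [hd]
          exact LX_add (Dp_contDiff (hsm r).smooth _) (Dp_contDiff (hsm r').smooth _) _ z
        simp only [hd, hl] at h
        exact h)
    refine ⟨C, fun r k hrk => ?_⟩
    rw [← kr_mE]
    have h1 := av_grad (ι := Fin n × Fin 4) hD hq (kr_integrable (hsm k))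
      (e := fun i => kr (Dp (bs i) (mE n r))) (fun i => int_Dp (hsm r) (bs i))
    refine le_trans (le_of_eq ?_) (hC r k hrk)
    exact h1

end SPN

end
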