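import Pool.Agent.SPN.Gel

/-! # Module Pos (difficulty 3): positivity of the kernels `ρ_j` on compact sets

`rk_pos`: induction on `j`, for all `k k' s`. `j = 0`: `ρ (k a_s k') = ρ (a_s) > 0` (`hw.bk.left`, `hr.right`,
`hr.pos`). Step: `rk (j+1) h = ∫_K rk j (a_1⁻¹ l⁻¹ h) dl`, the integrand is continuous and nonnegative on the
compact group `K`, and it is positive for `l = k`: with `h = k a_s k'` it is `rk j (a_1⁻¹ a_s k')`; if `1 ≤ s`
then `a_1⁻¹ a_s = a_{s-1}` and `s - 1 ≤ 1 + j`; if `s < 1` then `a_1⁻¹ a_s = (a_{1-s})⁻¹ = w a_{1-s} w⁻¹` and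
`1 - s ≤ 1 + j`. `κ` is positive on nonempty open sets
(`isOpenPosMeasure_of_mulLeftInvariant_of_compact` with the compact set `univ`), so
`Continuous.integral_pos_of_hasCompactSupport_nonneg_nonzero` or
`integral_pos_iff_support_of_nonneg` give positivity.
`rk_lower`: for `L` compact take `S` from `hx.proper`, `j` with `S ≤ 1 + j`; every `h ∈ L` is `k a_s k'`
(`hx.kak`) with `0 ≤ s ≤ S`, so `rk j h > 0` on `L`; minimum on the compact set (`IsCompact.exists_isMinOn`; the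
case `L = ∅` is trivial).
`Pk_le`: for `0 ≤ u ≤ 1` `Pk (a_u) ρ` is supported in the compact set `K * xt '' [0,1] * tsupport ρ` and bounded by
`sup ρ`; use `rk_lower` on this compact set. -/

open MeasureTheory

namespace SPN

variable {G : Type*} [Group G] [TopologicalSpace G] [IsTopologicalGroup G] [T2Space G]
  [LocallyCompactSpace G] [SecondCountableTopology G] [MeasurableSpace G] [BorelSpace G]
  {μ : Measure G} {K : Subgroup G} {κ : Measure K} {xt : ℝ → G}

private theorem pos_rk_bk {x : G} {ρ : G → ℝ} (hw : Wk K κ μ x ρ) (j : ℕ) :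
    Bk K (rk K κ x ρ j) := by
  induction j with
  | zero => exact hw.bk
  | succ j ih =>
    rw [rk_succ]
    exact Bk.pk hw.kp hw.cpt ih x

private theorem pos_rk_nonneg {x : G} {ρ : G → ℝ} (hw : Wk K κ μ x ρ) (j : ℕ) (h : G) :
    0 ≤ rk K κ x ρ j h := by
  induction j generalizing h with
  | zero => exact hw.nonneg h
  | succ j ih =>
    rw [rk_succ]
    exact integral_nonneg fun k => ih _

private theorem pos_inv (hx : Ax K xt) (t : ℝ) : (xt t)⁻¹ = xt (-t) := by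
  rw [inv_eq_iff_mul_eq_one, ← hx.add, add_neg_cancel, hx.zero]

private theorem pos_open (hκ : Kp K κ) (hK : IsCompact (K : Set G)) : κ.IsOpenPosMeasure := by
  have hcs : CompactSpace K := isCompact_iff_compactSpace.mp hK
  have hpr : IsProbabilityMeasure κ := hκ.prob
  have hl : κ.IsMulLeftInvariant := hκ.left
  refine isOpenPosMeasure_of_mulLeftInvariant_of_compact Set.univ isCompact_univ ?_
  rw [measure_univ]
  exact one_ne_zero

private theorem pos_step (hκ : Kp K κ) (hK : IsCompact (K : Set G)) {b : G → ℝ}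
    (hb : Continuous b) (h0 : ∀ h, 0 ≤ b h) {x h k : G} (hk : k ∈ K)
    (hp : 0 < b (x⁻¹ * k⁻¹ * h)) : 0 < Pk K κ x b h := by
  have hcs : CompactSpace K := isCompact_iff_compactSpace.mp hK
  have hpr : IsProbabilityMeasure κ := hκ.prob
  have hop : κ.IsOpenPosMeasure := pos_open hκ hK
  have hcont : Continuous fun l : K => b (x⁻¹ * (l : G)⁻¹ * h) := by
    have h1 : Continuous fun l : K => x⁻¹ * (l : G)⁻¹ * h := by fun_prop
    exact hb.comp h1
  exact hcont.integral_pos_of_hasCompactSupport_nonneg_nonzero (x := ⟨k, hk⟩)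
    (HasCompactSupport.of_compactSpace _) (fun l => h0 _) hp.ne'

theorem rk_pos (hx : Ax K xt) {ρ : G → ℝ} (hw : Wk K κ μ (xt 1) ρ) (hr : Rh K xt ρ) (j : ℕ) :
    ∀ k ∈ K, ∀ k' ∈ K, ∀ s : ℝ, 0 ≤ s → s ≤ 1 + j → 0 < rk K κ (xt 1) ρ j (k * xt s * k') := by
  induction j with
  | zero =>
    intro k hk k' hk' s hs hs1
    rw [rk_zero, hr.right _ hk', hw.bk.left _ hk]
    refine hr.pos s hs ?_
    simpa using hs1
  | succ j ih =>
    intro k hk k' hk' s hs hs1
    rw [rk_succ]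
    refine pos_step hw.kp hw.cpt (pos_rk_bk hw j).cont (pos_rk_nonneg hw j) hk ?_
    have e1 : (xt 1)⁻¹ * k⁻¹ * (k * xt s * k') = xt (s - 1) * k' := by
      have e2 : xt (s - 1) = (xt 1)⁻¹ * xt s := by
        rw [pos_inv hx, ← hx.add]
        congr 1
        ring
      rw [e2]
      group
    rw [e1]
    by_cases h1 : 1 ≤ s
    · have h2 := ih 1 K.one_mem k' hk' (s - 1) (by linarith) (by push_cast at hs1; linarith)
      rwa [one_mul] at h2
    · push Not at h1
      obtain ⟨w, hwK, hws⟩ := hx.weyl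
      have e3 : xt (s - 1) * k' = w * xt (1 - s) * (w⁻¹ * k') := by
        rw [← mul_assoc, hws, pos_inv hx]
        congr 2
        ring
      rw [e3]
      have hj : (0 : ℝ) ≤ j := Nat.cast_nonneg j
      exact ih w hwK _ (K.mul_mem (K.inv_mem hwK) hk') (1 - s) (by linarith) (by linarith)

theorem rk_lower (hx : Ax K xt) {ρ : G → ℝ} (hw : Wk K κ μ (xt 1) ρ) (hr : Rh K xt ρ)
    {L : Set G} (hL : IsCompact L) :
    ∃ j : ℕ, ∃ c : ℝ, 0 < c ∧ ∀ h ∈ L, c ≤ rk K κ (xt 1) ρ j h := by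
  obtain ⟨S, hS⟩ := hx.proper L hL
  obtain ⟨j, hj⟩ := exists_nat_ge S
  refine ⟨j, ?_⟩
  rcases L.eq_empty_or_nonempty with he | hne
  · exact ⟨1, one_pos, fun h hh => by simp [he] at hh⟩
  · obtain ⟨h0, h0L, hmin⟩ := hL.exists_isMinOn hne (pos_rk_bk hw j).cont.continuousOn
    refine ⟨rk K κ (xt 1) ρ j h0, ?_, fun h hh => hmin hh⟩
    obtain ⟨k, hk, s, hs, k', hk', he⟩ := hx.kak h0
    have h1 : s ≤ S := hS k hk k' hk' s hs (he ▸ h0L)
    rw [he]
    exact rk_pos hx hw hr j k hk k' hk' s hs (by linarith)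

theorem Pk_le (hx : Ax K xt) {ρ : G → ℝ} (hw : Wk K κ μ (xt 1) ρ) (hr : Rh K xt ρ) :
    ∃ l : ℕ, ∃ C : ℝ, 0 ≤ C ∧ ∀ u : ℝ, 0 ≤ u → u ≤ 1 →
      ∀ h, Pk K κ (xt u) ρ h ≤ C * rk K κ (xt 1) ρ l h := by
  have hpr : IsProbabilityMeasure κ := hw.kp.prob
  have hcs : CompactSpace K := isCompact_iff_compactSpace.mp hw.cpt
  have hxc := hx.cont
  have hL : IsCompact ((fun q : G × ℝ × G => q.1 * xt q.2.1 * q.2.2) ''
      ((K : Set G) ×ˢ (Set.Icc (0 : ℝ) 1 ×ˢ tsupport ρ))) :=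
    (hw.cpt.prod (isCompact_Icc.prod hw.bk.supp)).image (by fun_prop)
  obtain ⟨l, c, hc, hlow⟩ := rk_lower hx hw hr hL
  obtain ⟨M, hM⟩ := hw.bk.supp.exists_bound_of_continuous hw.bk.cont
  have hM0 : 0 ≤ M := (norm_nonneg _).trans (hM 1)
  have hMb : ∀ h, ρ h ≤ M := fun h => (le_abs_self _).trans (hM h)
  refine ⟨l, M / c, by positivity, fun u hu0 hu1 h => ?_⟩
  by_cases hh : h ∈ (fun q : G × ℝ × G => q.1 * xt q.2.1 * q.2.2) ''
      ((K : Set G) ×ˢ (Set.Icc (0 : ℝ) 1 ×ˢ tsupport ρ))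
  · have h1 := hlow h hh
    have h2 : Pk K κ (xt u) ρ h ≤ M := by
      have hcont : Continuous fun k : K => ρ ((xt u)⁻¹ * (k : G)⁻¹ * h) := by
        have h3 : Continuous fun k : K => (xt u)⁻¹ * (k : G)⁻¹ * h := by fun_prop
        exact hw.bk.cont.comp h3
      have hint : Integrable (fun k : K => ρ ((xt u)⁻¹ * (k : G)⁻¹ * h)) κ :=
        hcont.integrable_of_hasCompactSupport (HasCompactSupport.of_compactSpace _)
      calc Pk K κ (xt u) ρ h = ∫ k : K, ρ ((xt u)⁻¹ * (k : G)⁻¹ * h) ∂κ := rfl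
        _ ≤ ∫ _ : K, M ∂κ := integral_mono hint (integrable_const M) fun k => hMb _
        _ = M := by simp
    calc Pk K κ (xt u) ρ h ≤ M := h2
      _ = M / c * c := by field_simp
      _ ≤ M / c * rk K κ (xt 1) ρ l h := mul_le_mul_of_nonneg_left h1 (by positivity)
  · have h1 : Pk K κ (xt u) ρ h = 0 := by
      unfold Pk
      refine integral_eq_zero_of_ae (Filter.Eventually.of_forall fun k => ?_)
      show ρ ((xt u)⁻¹ * (k : G)⁻¹ * h) = 0
      by_contra hne
      apply hh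
      refine ⟨((k : G), u, (xt u)⁻¹ * (k : G)⁻¹ * h),
        ⟨k.2, ⟨hu0, hu1⟩, subset_tsupport _ hne⟩, ?_⟩
      show (k : G) * xt u * ((xt u)⁻¹ * (k : G)⁻¹ * h) = h
      group
    rw [h1]
    have h2 := pos_rk_nonneg hw l h
    positivity

end SPN
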