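import Pool.Agent.SPN.Unf
import Pool.Agent.SPN.Pos

/-! # Module Enl (difficulty 3): energy on compact sets

`om_lower`: `0 < μ (D0 π)` and `μ` is σ-finite with `G` σ-compact, so there is a compact `L₀` with
`0 < μ (D0 π ∩ L₀) < ⊤` (`compactCovering G`, continuity of `μ` along the monotone union). `L = B⁻¹ * L₀` is
compact, `rk_lower` gives `j`, `c`; for `v ∈ B`:
`om (rk j) v = ∫_{z ∈ D} rk j (v⁻¹ z) ≥ ∫_{z ∈ D ∩ L₀} rk j (v⁻¹ z) ≥ c (μ (D0 π ∩ L₀)).toReal`.
`en_local`: `∫_B F ≤ (1/c) ∫_B F(v) om (rk j) v ≤ (1/c) ∫ F om (rk j) = (1/c) av (rk j) F` (`av_unfold`)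
`≤ (1/c) av (mk N) F ≤ (C/c) N` for `j < N` (`av_mono_left`: `rk j ≤ mk N` pointwise, `he.energy`). -/

open MeasureTheory
open scoped Pointwise

namespace SPN

variable {G : Type*} [Group G] [TopologicalSpace G] [IsTopologicalGroup G] [T2Space G]
  [LocallyCompactSpace G] [SecondCountableTopology G] [MeasurableSpace G] [BorelSpace G]
  {μ : Measure G} [IsFiniteMeasureOnCompacts μ] [μ.IsMulLeftInvariant] [SigmaFinite μ]
  [μ.IsMulRightInvariant] [μ.IsInvInvariant] {Γ : Subgroup G} {π : G → Γ} {X : Type*}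
  [LinearOrder X] {q : Γ → X} {K : Subgroup G} {κ : Measure K} {xt : ℝ → G}

theorem om_lower (hD : Dm μ Γ π) (hd : 0 < dm μ π) (hx : Ax K xt) {ρ : G → ℝ}
    (hw : Wk K κ μ (xt 1) ρ) (hr : Rh K xt ρ) {B : Set G} (hB : IsCompact B) :
    ∃ j : ℕ, ∃ c : ℝ, 0 < c ∧ ∀ v ∈ B, c ≤ om μ π (rk K κ (xt 1) ρ j) v := by
  have hD0 : MeasurableSet (D0 π) := hD.meas 1
  -- a compact set meeting the fundamental domain
  obtain ⟨n, hn⟩ : ∃ n, 0 < μ (D0 π ∩ compactCovering G n) := by
    by_contra hcon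
    push Not at hcon
    have h1 : μ (⋃ n, D0 π ∩ compactCovering G n) = 0 :=
      measure_iUnion_null fun n => le_antisymm (hcon n) (zero_le)
    rw [← Set.inter_iUnion, iUnion_compactCovering, Set.inter_univ] at h1
    unfold dm at hd
    rw [h1] at hd
    simp at hd
  set L₀ := compactCovering G n with hL₀
  have hL₀c : IsCompact L₀ := isCompact_compactCovering G n
  have hL₀m : MeasurableSet L₀ := hL₀c.measurableSet
  have hfin : μ (D0 π ∩ L₀) < ⊤ := lt_of_le_of_lt (measure_mono Set.inter_subset_left) hD.fin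
  have hL : IsCompact (B⁻¹ * L₀) := hB.inv.mul hL₀c
  obtain ⟨j, c, hc, hjc⟩ := rk_lower hx hw hr hL
  refine ⟨j, c * (μ (D0 π ∩ L₀)).toReal, ?_, ?_⟩
  · exact mul_pos hc (ENNReal.toReal_pos hn.ne' hfin.ne)
  · intro v hv
    have hint : Integrable (rk K κ (xt 1) ρ j) μ := (rk_bk hw j).integrable
    have hint' : Integrable (fun z => rk K κ (xt 1) ρ j (v⁻¹ * z)) μ := hint.comp_mul_left v⁻¹
    have h1 : ∫ z in D0 π ∩ L₀, rk K κ (xt 1) ρ j (v⁻¹ * z) ∂μ ≤
        ∫ z in D0 π, rk K κ (xt 1) ρ j (v⁻¹ * z) ∂μ := by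
      apply setIntegral_mono_set hint'.integrableOn
      · exact Filter.Eventually.of_forall fun z => rk_nonneg hw j _
      · exact Filter.Eventually.of_forall fun z hz => hz.1
    have h2 : ∫ _z in D0 π ∩ L₀, c ∂μ ≤
        ∫ z in D0 π ∩ L₀, rk K κ (xt 1) ρ j (v⁻¹ * z) ∂μ := by
      apply setIntegral_mono_on
      · exact integrableOn_const hfin.ne
      · exact hint'.integrableOn
      · exact hD0.inter hL₀m
      · intro z hz
        apply hjc
        exact Set.mul_mem_mul (Set.inv_mem_inv.2 hv) hz.2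
    have h3 : ∫ _z in D0 π ∩ L₀, c ∂μ = c * (μ (D0 π ∩ L₀)).toReal := by
      rw [setIntegral_const, smul_eq_mul, mul_comm]
      rfl
    unfold om
    linarith

theorem en_local (hD : Dm μ Γ π) (hd : 0 < dm μ π) (hx : Ax K xt) {ρ : G → ℝ}
    (hw : Wk K κ μ (xt 1) ρ) (hr : Rh K xt ρ) {F : ℕ → G → Γ → ℝ}
    (he : En μ π q K κ xt ρ F) {B : Set G} (hB : IsCompact B) :
    ∃ C : ℝ, ∃ N₀ : ℕ, 0 ≤ C ∧ ∀ N, N₀ ≤ N → ∫ v in B, F N v 1 ∂μ ≤ C * N := by
  obtain ⟨j, c, hc, hjc⟩ := om_lower hD hd hx hw hr hB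
  obtain ⟨C, hC⟩ := he.energy
  refine ⟨max C 0 / c, j + 1, by positivity, ?_⟩
  intro N hN
  have hBm : MeasurableSet B := hB.measurableSet
  have hint : Integrable (rk K κ (xt 1) ρ j) μ := (rk_bk hw j).integrable
  have hintm : Integrable (mk K κ (xt 1) ρ N) μ := (mk_bk hw N).integrable
  have hg := he.gf N
  obtain ⟨A, hA⟩ := hg.bdd
  have hom : Integrable (om μ π (rk K κ (xt 1) ρ j)) μ := om_integrable hD hint
  have hprod : Integrable (fun v => F N v 1 * om μ π (rk K κ (xt 1) ρ j) v) μ := by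
    apply hom.bdd_mul (c := A) (hg.meas 1).aestronglyMeasurable
    exact Filter.Eventually.of_forall fun v => by
      rw [Real.norm_eq_abs]
      exact hA v 1
  have hF : IntegrableOn (fun v => F N v 1) B μ := by
    apply Measure.integrableOn_of_bounded (M := A) hB.measure_lt_top.ne
      (hg.meas 1).aestronglyMeasurable
    exact Filter.Eventually.of_forall fun v => by
      rw [Real.norm_eq_abs]
      exact hA v 1
  have h1 : ∫ v in B, c * F N v 1 ∂μ ≤
      ∫ v in B, F N v 1 * om μ π (rk K κ (xt 1) ρ j) v ∂μ := by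
    apply setIntegral_mono_on (hF.const_mul c) hprod.integrableOn hBm
    intro v hv
    have h2 := hjc v hv
    have h3 := he.nonneg N v 1
    rw [mul_comm]
    exact mul_le_mul_of_nonneg_left h2 h3
  have h2 : ∫ v in B, F N v 1 * om μ π (rk K κ (xt 1) ρ j) v ∂μ ≤
      ∫ v, F N v 1 * om μ π (rk K κ (xt 1) ρ j) v ∂μ := by
    apply setIntegral_le_integral hprod
    exact Filter.Eventually.of_forall fun v =>
      mul_nonneg (he.nonneg N v 1) (om_nonneg (fun h => rk_nonneg hw j h) v)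
  rw [← av_unfold hD hint hg] at h2
  have h3 : av μ π (rk K κ (xt 1) ρ j) (F N) ≤ av μ π (mk K κ (xt 1) ρ N) (F N) := by
    apply av_mono_left hD hint hintm _ hg (he.nonneg N)
    intro h
    unfold mk
    exact Finset.single_le_sum (f := fun j => rk K κ (xt 1) ρ j h)
      (fun i _ => rk_nonneg hw i h) (Finset.mem_range.2 (by omega))
  have h4 := hC N N le_rfl
  have h5 : C * (N : ℝ) ≤ max C 0 * N :=
    mul_le_mul_of_nonneg_right (le_max_left _ _) (Nat.cast_nonneg N)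
  rw [integral_const_mul] at h1
  rw [div_mul_eq_mul_div, le_div_iff₀ hc]
  linarith

end SPN
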