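import Pool.Agent.SPN.Egy
import Pool.Agent.SPN.MainA
import Pool.Agent.SPN.Fun

/-! # Module Fin (difficulty 2): lattices in `Sp(n,1)` act trivially on linear orders

`exists_Dm` gives `π`, `dm_pos`, `q γ = γ • x₀` (`Mo`: `hmono`, `mul_smul`), `main_a` with `ax_hy`, `wk_rho`, `rh_rho`,
`en_inst`: `γ • x₀ = 1 • x₀ = x₀`. -/

open MeasureTheory Matrix
open scoped ContDiff

noncomputable section

namespace SPN

theorem spn_trivial {n : ℕ} (hn : 2 ≤ n) (Γ : Subgroup (GG n)) [DiscreteTopology Γ]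
    {F : Set (GG n)} (hF : IsFundamentalDomain Γ F (mu n)) (hfin : mu n F < ⊤)
    {X : Type*} [LinearOrder X] [MulAction Γ X]
    (hmono : ∀ (g : Γ) (x y : X), x ≤ y → g • x ≤ g • y) (g : Γ) (x : X) : g • x = x := by
  have hne : NeZero n := ⟨by omega⟩
  have hr := mu_right n
  have hi := mu_inv n
  obtain ⟨π, hD⟩ := exists_Dm (μ := mu n) Γ hF hfin
  have hd : 0 < dm (mu n) π := dm_pos hD
  have hq : Mo (fun γ : Γ => γ • x) := by
    refine ⟨fun γ a b hab => ?_⟩
    have h1 := hmono γ (a • x) (b • x) hab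
    simpa only [mul_smul] using h1
  have hax : Ax (KK n) (hy (ih n)) := ax_hy
  have h := main_a hD hd hq hax wk_rho rh_rho (en_inst hn hD hq) g
  have h2 : g • x = (1 : Γ) • x := h
  rw [h2, one_smul]

end SPN

end
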