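import Pool.Agent.SPN.Main
import Pool.Agent.SPT.PolP

/-! Project SPN, module Fin: the recognition algorithm for graphs with at most `c` centres in every prime induced subgraph. -/

set_option autoImplicit false

namespace Pool.Agent.SPN

open Pool.Agent.SOC Pool.Agent.SOD Pool.Agent.SOS Pool.Agent.SOE Pool.Agent.SOV Pool.Agent.SOT Pool.Agent.SOK Pool.Agent.SOZ Pool.Agent.SOX Pool.Agent.SOW Pool.Agent.SON Pool.Agent.SPE Pool.Agent.SPT FP

/-- all lists of `c` pairs of numbers below `n` -/
def pinL : ℕ → ℕ → List Prs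
  | 0, _ => [[]]
  | c + 1, n => (pinL c n).flatMap fun P => (List.range n).flatMap fun z => (List.range n).map fun a => (z, a) :: P

/-- the test for prime graphs with given pins -/
def primeP (rig : Mat → Ord → List Ivl → List (List Ord) → List Ord) (x : Mat × Prs) : Bool :=
  primeQ (parP rig good keys) (fun x l => tokP x.1 l) eOrderP strLP x

/-- the test for prime graphs, all pins -/
def primeX (rig : Mat → Ord → List Ivl → List (List Ord) → List Ord) (c : ℕ) (M : Mat) : Bool :=
  (pinL c M.length).any fun pn => primeP rig (M, pn)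

/-- the vertex after `z` in the cyclic order -/
def nxt (l : Ord) (z : ℕ) : ℕ := l.getD (if l.idxOf z + 1 < l.length then l.idxOf z + 1 else 0) 0

theorem nxt_ok {l : Ord} (hl : l.Nodup) (h2 : 2 ≤ l.length) {z : ℕ} (hz : z ∈ l) : nxt l z ∈ l ∧ nxt l z ≠ z ∧ Nbi l z (nxt l z) := by
  have h1 := List.idxOf_lt_length_of_mem hz
  unfold nxt Nbi
  by_cases h : l.idxOf z + 1 < l.length
  · rw [if_pos h, List.getD_eq_getElem _ _ h]
    have e := hl.idxOf_getElem _ h
    refine ⟨List.getElem_mem h, ?_, Or.inl e⟩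
    intro k
    rw [k] at e
    omega
  · rw [if_neg h]
    have h0 : 0 < l.length := by omega
    rw [List.getD_eq_getElem _ _ h0]
    have e := hl.idxOf_getElem _ h0
    refine ⟨List.getElem_mem h0, ?_, Or.inr (Or.inr (Or.inr ⟨e, by omega⟩))⟩
    intro k
    rw [k] at e
    omega

theorem mem_pinL {n : ℕ} {l : Ord} (hl : ∀ x, x ∈ l ↔ x < n) (hn : l.Nodup) (h2 : 2 ≤ l.length) : ∀ (zs : List ℕ), (∀ z ∈ zs, z < n) →
    zs.map (fun z => (z, nxt l z)) ∈ pinL zs.length n
  | [], _ => by simp [pinL]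
  | z :: zs, h => by
    have h1 := mem_pinL hl hn h2 zs (fun y hy => h y (List.mem_cons_of_mem _ hy))
    have hz := h z List.mem_cons_self
    show (z, nxt l z) :: zs.map (fun z => (z, nxt l z)) ∈ (pinL zs.length n).flatMap
      (fun P => (List.range n).flatMap fun z => (List.range n).map fun a => (z, a) :: P)
    rw [List.mem_flatMap]
    refine ⟨_, h1, List.mem_flatMap.2 ⟨z, List.mem_range.2 hz, List.mem_map.2 ⟨nxt l z, ?_, rfl⟩⟩⟩
    exact List.mem_range.2 ((hl _).1 (nxt_ok hn h2 ((hl z).2 hz)).1)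

theorem primeP_sound {rig : Mat → Ord → List Ivl → List (List Ord) → List Ord} {x : Mat × Prs} (h : primeP rig x = true) : SOR (graphOf x.1) := by
  unfold primeP primeQ at h
  cases hb : eOrderP x with
  | none => rw [hb] at h; exact absurd h (by simp)
  | some s0 =>
    rw [hb] at h
    simp only [solveQ, List.any_eq_true, Bool.and_eq_true] at h
    obtain ⟨L, -, -, ht⟩ := h
    exact tokP_sound ht

theorem primeX_sound {rig : Mat → Ord → List Ivl → List (List Ord) → List Ord} {c : ℕ} {M : Mat} (h : primeX rig c M = true) : SOR (graphOf M) := by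
  unfold primeX at h
  rw [List.any_eq_true] at h
  obtain ⟨pn, -, h⟩ := h
  exact primeP_sound h

/-- completeness for given pins -/
theorem primeP_of {rig : Mat → Ord → List Ivl → List (List Ord) → List Ord} {M : Mat} {pn : Prs} (h4 : 4 ≤ M.length) (hG : PrimeG (graphOf M))
    (hc : PinC (graphOf M) (PS M pn)) (hp : PinOk M.length pn)
    (hr : ∀ s : List (Fin M.length), EWP (graphOf M) (PS M pn) s → RigP rig M pn (s.map Fin.val) (strLP (M, pn) (s.map Fin.val)))
    {l : Ord} (hl : VOP M pn l) : primeP rig (M, pn) = true := by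
  unfold primeP primeQ
  cases hb : eOrderP (M, pn) with
  | none =>
    obtain ⟨⟨s, rfl, hs, T, hT⟩, hpv⟩ := hl
    exact (eOrderP_none hb s ⟨ewo_of_qt hs hT, vop_ci hs hpv⟩).elim
  | some s0 =>
    obtain ⟨s, rfl, hs⟩ := eOrderP_some hG hc hb
    exact solveQ_of (hypP (good := good) (keys := keys) hG hc hs hp h4 (hr s hs) (repP hG.1)) (fun l' h => (tokP_vo (vo_perm h.1)).2 h.1) hl

/-- completeness -/
theorem primeX_of {rig : Mat → Ord → List Ivl → List (List Ord) → List Ord} {c : ℕ} {M : Mat} (h4 : 4 ≤ M.length) (hG : PrimeG (graphOf M))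
    (hc : {z | ∃ L, Centre (graphOf M) z L}.ncard ≤ c)
    (hr : ∀ pn, PinC (graphOf M) (PS M pn) → PinOk M.length pn → ∀ s : List (Fin M.length), EWP (graphOf M) (PS M pn) s →
      RigP rig M pn (s.map Fin.val) (strLP (M, pn) (s.map Fin.val)))
    (h : SOR (graphOf M)) : primeX rig c M = true := by
  obtain ⟨l, hl⟩ := vo_sor.2 h
  have hlp := vo_perm hl
  have hln : l.Nodup := hlp.nodup_iff.2 List.nodup_range
  have hlm : ∀ x, x ∈ l ↔ x < M.length := fun x => by rw [hlp.mem_iff, List.mem_range]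
  have hl2 : 2 ≤ l.length := by
    rw [hlp.length_eq, List.length_range]
    omega
  -- a list with all centres
  obtain ⟨zs, hz1, hz2, hz3⟩ : ∃ zs : List ℕ, zs.length = c ∧ (∀ z ∈ zs, z < M.length) ∧ ∀ z : Fin M.length, (∃ L, Centre (graphOf M) z L) → z.val ∈ zs := by
    have hfin : {z | ∃ L, Centre (graphOf M) z L}.Finite := Set.toFinite _
    have hcard : hfin.toFinset.card ≤ c := by
      rw [← Set.ncard_eq_toFinset_card]
      exact hc
    refine ⟨hfin.toFinset.toList.map Fin.val ++ List.replicate (c - hfin.toFinset.card) 0, ?_, ?_, ?_⟩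
    · rw [List.length_append, List.length_map, Finset.length_toList, List.length_replicate]
      omega
    · intro z hz
      rcases List.mem_append.1 hz with hz | hz
      · obtain ⟨v, -, rfl⟩ := List.mem_map.1 hz
        exact v.2
      · rw [List.eq_of_mem_replicate hz]
        omega
    · intro z hz
      refine List.mem_append_left _ (List.mem_map.2 ⟨z, ?_, rfl⟩)
      rw [Finset.mem_toList, Set.Finite.mem_toFinset]
      exact hz
  obtain ⟨pn, hpn⟩ : ∃ pn : Prs, pn = zs.map (fun z => (z, nxt l z)) := ⟨_, rfl⟩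
  have hmem : pn ∈ pinL c M.length := by
    rw [hpn, ← hz1]
    exact mem_pinL hlm hln hl2 zs hz2
  have hpm : ∀ p ∈ pn, ∃ z ∈ zs, p = (z, nxt l z) := by
    intro p hp
    rw [hpn] at hp
    obtain ⟨z, hz, rfl⟩ := List.mem_map.1 hp
    exact ⟨z, hz, rfl⟩
  have hok : ∀ z ∈ zs, nxt l z ∈ l ∧ nxt l z ≠ z ∧ Nbi l z (nxt l z) := fun z hz => nxt_ok hln hl2 ((hlm z).2 (hz2 z hz))
  have hp : PinOk M.length pn := by
    intro p hp
    obtain ⟨z, hz, rfl⟩ := hpm p hp
    exact ⟨hz2 z hz, (hlm _).1 (hok z hz).1, (hok z hz).2.1.symm⟩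
  have hvop : VOP M pn l := by
    refine ⟨hl, fun p hp => ?_⟩
    obtain ⟨z, hz, rfl⟩ := hpm p hp
    exact (hok z hz).2.2
  have hcen : PinC (graphOf M) (PS M pn) := by
    refine pinC_pairs hG ?_
    intro z L hL
    have hz := hz3 z ⟨L, hL⟩
    obtain ⟨k1, k2, k3⟩ := hok _ hz
    refine ⟨⟨nxt l z.val, (hlm _).1 k1⟩, fun e => k2 (congrArg Fin.val e), z, ⟨nxt l z.val, (hlm _).1 k1⟩, ?_, fun e => k2 (congrArg Fin.val e).symm, rfl⟩
    rw [hpn]
    exact List.mem_map.2 ⟨z.val, hz, rfl⟩
  unfold primeX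
  rw [List.any_eq_true]
  exact ⟨pn, hmem, primeP_of h4 hG hcen hp (hr pn hcen hp) hvop⟩

theorem primeX_iff {c : ℕ} {M : Mat} (h4 : 4 ≤ M.length) (hG : PrimeG (graphOf M))
    (hc : {z | ∃ L, Centre (graphOf M) z L}.ncard ≤ c) (hk : NoK6P4 (graphOf M)) : primeX rigA c M = true ↔ SOR (graphOf M) :=
  ⟨primeX_sound, primeX_of h4 hG hc (fun pn hc' hp s hs => rigA_okP hG hc' hs hp h4 hk)⟩

/-! ### polynomial time -/

theorem poly_pinL (c : ℕ) : Poly (fun M : Mat => pinL c M.length) := by
  induction c with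
  | zero => exact FP.Poly.const _
  | succ c ih =>
    unfold pinL
    refine Poly.flatMap (f := fun M : Mat => pinL c M.length) (g := fun (M : Mat) (P : Prs) =>
      (List.range M.length).flatMap fun z => (List.range M.length).map fun a => (z, a) :: P) ih ?_
    have hr : Poly (fun p : Mat × Prs => List.range p.1.length) := Poly.range (Poly.length Poly.fst') (PolyBdd.length Poly.fst')
    refine Poly.flatMap (f := fun p : Mat × Prs => List.range p.1.length) (g := fun (p : Mat × Prs) z =>
      (List.range p.1.length).map fun a => (z, a) :: p.2) hr ?_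
    refine FP.Poly.map (f := fun q : (Mat × Prs) × ℕ => List.range q.1.1.length) (g := fun (q : (Mat × Prs) × ℕ) a => (q.2, a) :: q.1.2)
      (hr.comp Poly.fst') ?_
    fun_prop

theorem poly_primeX {rig : Mat → Ord → List Ivl → List (List Ord) → List Ord}
    (hr : Poly (fun x : Mat × Ord × List Ivl × List (List Ord) => rig x.1 x.2.1 x.2.2.1 x.2.2.2)) (c : ℕ) : Poly (primeX rig c) := by
  have ht : Poly (fun x : Mat × Ord => tokP x.1 x.2) := by
    unfold tokP
    exact Poly.and (poly_permB (by fun_prop) (Poly.range (by fun_prop) (PolyBdd.length (by fun_prop)))) (poly_tOk (by fun_prop) (by fun_prop))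
  have h1 : Poly (primeP rig) := by
    unfold primeP
    refine poly_primeQ (poly_parP hr ?_ ?_) ?_ poly_eOrderP poly_strLP
    · exact poly_good (by fun_prop) (by fun_prop) (by fun_prop)
    · exact poly_keys Poly.ident
    · exact ht.comp (f := fun x : (Mat × Prs) × Ord => (x.1.1, x.2)) (by fun_prop)
  unfold primeX
  exact Poly.any (f := fun M : Mat => pinL c M.length) (g := fun (M : Mat) (pn : Prs) => primeP rig (M, pn)) (poly_pinL c) h1

/-- THE ALGORITHM for graphs whose prime induced subgraphs have at most `c` centres -/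
def algX (c : ℕ) : List (List Bool) → Bool := allSOR (primeX rigA c)

theorem poly_algX (c : ℕ) : Poly (algX c) := poly_allSOR (poly_primeX poly_rigA c)

theorem algX_iff {c : ℕ} {M : List (List Bool)} (h : ∀ (n : ℕ) (H : SimpleGraph (Fin n)), Nonempty (H ↪g graphOf M) → PrimeG H →
    {z | ∃ L, Centre H z L}.ncard ≤ c ∧ NoK6P4 H) : algX c M = true ↔ SOR (graphOf M) :=
  allSOR_of fun _ h4 hG he => primeX_iff h4 hG (h _ _ he hG).1 (h _ _ he hG).2

theorem algX_free {c : ℕ} {M : List (List Bool)} (h1 : ∀ p p' q q' r, ¬ W4 (graphOf M) p p' q q' r) (h2 : NoK6P4 (graphOf M)) :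
    algX c M = true ↔ SOR (graphOf M) := by
  refine algX_iff fun n H ⟨e⟩ _ => ⟨?_, fun _ _ _ _ _ _ hk => h2 _ _ _ _ _ _ (k6p4_emb e hk)⟩
  have hc : ∀ z L, ¬ Centre H z L := cfree_now4 fun _ _ _ _ _ hw => h1 _ _ _ _ _ (w4_emb e hw)
  have h0 : {z | ∃ L, Centre H z L} = ∅ := Set.eq_empty_iff_forall_notMem.2 fun z ⟨L, hL⟩ => hc z L hL
  rw [h0, Set.ncard_empty]
  exact Nat.zero_le c

/-- a test for prime graphs whose answer yes is right gives an algorithm whose answer yes is right -/
theorem allSOR_sound {prime : List (List Bool) → Bool} (hp : ∀ N, prime N = true → SOR (graphOf N)) {M : List (List Bool)}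
    (h : allSOR prime M = true) : SOR (graphOf M) := by
  rw [rounds_iff M.length]
  unfold allSOR at h
  rw [List.all_eq_true] at h
  intro W hW
  have hs := rounds_sub hW
  have hn : W.Nodup := List.Nodup.sublist hs List.nodup_range
  have hr : ∀ w ∈ W, w < M.length := fun w hw => List.mem_range.1 (hs.subset hw)
  have h1 := h W hW
  simp only [Bool.or_eq_true, decide_eq_true_eq] at h1
  rcases h1 with h1 | h1
  · exact sor_small _ (algsor_ncard.trans h1)
  · rw [sorw_iff hn hr]
    exact hp _ h1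

theorem algX_sound {c : ℕ} {M : List (List Bool)} (h : algX c M = true) : SOR (graphOf M) :=
  allSOR_sound (fun _ h => primeX_sound h) h

end Pool.Agent.SPN
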