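import Pool.Agent.SPN.Qd

/-! # the one parameter groups `hy i t = exp (t X_{e_a u_μ})` and further definitions -/

open MeasureTheory Matrix
open scoped ContDiff

noncomputable section

namespace SPN

variable {n : ℕ}

theorem star_uq_mul (μ : Fin 4) : star (uq μ) * uq μ = 1 := by
  fin_cases μ <;> ext <;> simp [uq] <;> rfl

theorem uq_mul_star (μ : Fin 4) : uq μ * star (uq μ) = 1 := by
  fin_cases μ <;> ext <;> simp [uq] <;> rfl

theorem Xm_bs (i : Fin n × Fin 4) :
    Xm (bs i) = Matrix.single 0 i.1.succ (star (uq i.2)) + Matrix.single i.1.succ 0 (uq i.2) := by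
  ext a b : 1
  obtain ⟨c, μ⟩ := i
  refine Fin.cases ?_ (fun a => ?_) a
  · refine Fin.cases ?_ (fun b => ?_) b
    · simp [Xm, Matrix.single, Fin.succ_ne_zero]
    · simp only [Xm, bs, Matrix.of_apply, Fin.cases_zero, Fin.cases_succ, Matrix.add_apply,
        Matrix.single_apply]
      by_cases h : c = b
      · subst h; simp
      · simp [h, Ne.symm h, Fin.succ_ne_zero]
  · refine Fin.cases ?_ (fun b => ?_) b
    · simp only [Xm, bs, Matrix.of_apply, Fin.cases_zero, Fin.cases_succ, Matrix.add_apply,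
        Matrix.single_apply]
      by_cases h : c = a
      · subst h; simp
      · simp [h, Ne.symm h, Fin.succ_ne_zero]
    · simp [Xm, (Fin.succ_ne_zero _).symm]

/-- the projection `E_00 + E_aa` -/
def Pj (a : Fin n) : Mt n := Matrix.single 0 0 1 + Matrix.single a.succ a.succ 1

theorem Xm_sq (i : Fin n × Fin 4) : Xm (bs i) * Xm (bs i) = Pj i.1 := by
  rw [Xm_bs]
  simp only [add_mul, mul_add, Matrix.single_mul_single_same]
  rw [Matrix.single_mul_single_of_ne, Matrix.single_mul_single_of_ne]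
  · simp only [star_uq_mul, uq_mul_star, Pj, zero_add, add_zero]
    first | rfl | exact add_comm _ _
  all_goals simp [Fin.succ_ne_zero, (Fin.succ_ne_zero _).symm]

theorem Pj_sq (a : Fin n) : Pj a * Pj a = Pj a := by
  simp only [Pj, add_mul, mul_add, Matrix.single_mul_single_same]
  rw [Matrix.single_mul_single_of_ne, Matrix.single_mul_single_of_ne]
  · simp
  all_goals simp [Fin.succ_ne_zero, (Fin.succ_ne_zero _).symm]

theorem Pj_mul_Xm (i : Fin n × Fin 4) : Pj i.1 * Xm (bs i) = Xm (bs i) := by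
  rw [Xm_bs]
  simp only [Pj, add_mul, mul_add, Matrix.single_mul_single_same]
  rw [Matrix.single_mul_single_of_ne, Matrix.single_mul_single_of_ne]
  · simp
  all_goals simp [Fin.succ_ne_zero, (Fin.succ_ne_zero _).symm]

theorem Xm_mul_Pj (i : Fin n × Fin 4) : Xm (bs i) * Pj i.1 = Xm (bs i) := by
  rw [Xm_bs]
  simp only [Pj, add_mul, mul_add, Matrix.single_mul_single_same]
  rw [Matrix.single_mul_single_of_ne, Matrix.single_mul_single_of_ne]
  · simp only [mul_one, zero_add, add_zero]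
    first | rfl | exact add_comm _ _
  all_goals simp [Fin.succ_ne_zero, (Fin.succ_ne_zero _).symm]

theorem Xm_conj (p : PP n) : (Xm p)ᴴ = Xm p := by
  ext a b : 1
  refine Fin.cases ?_ (fun a => ?_) a
  · refine Fin.cases ?_ (fun b => ?_) b <;> simp [Xm]
  · refine Fin.cases ?_ (fun b => ?_) b <;> simp [Xm]

theorem Pj_conj (a : Fin n) : (Pj a)ᴴ = Pj a := by
  simp [Pj, Matrix.conjTranspose_add]

theorem Jm_mul_Xm (p : PP n) : Jm n * Xm p = - (Xm p * Jm n) := by
  ext a b : 1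
  rw [Jm, Matrix.diagonal_mul, Matrix.neg_apply, Matrix.mul_diagonal]
  refine Fin.cases ?_ (fun a => ?_) a
  · refine Fin.cases ?_ (fun b => ?_) b <;> simp [Xm, Fin.succ_ne_zero]
  · refine Fin.cases ?_ (fun b => ?_) b <;> simp [Xm, Fin.succ_ne_zero]

theorem Jm_mul_Pj (a : Fin n) : Jm n * Pj a = Pj a * Jm n := by
  ext c b : 1
  rw [Jm, Matrix.diagonal_mul, Matrix.mul_diagonal]
  refine Fin.cases ?_ (fun c => ?_) c
  · refine Fin.cases ?_ (fun b => ?_) b <;>
      simp [Pj, Fin.succ_ne_zero, (Fin.succ_ne_zero _).symm]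
  · refine Fin.cases ?_ (fun b => ?_) b <;>
      simp [Pj, Fin.succ_ne_zero, (Fin.succ_ne_zero _).symm]

theorem hyM_eq (i : Fin n × Fin 4) (t : ℝ) :
    hyM i t = 1 + (Real.cosh t - 1) • Pj i.1 + Real.sinh t • Xm (bs i) := rfl

theorem hyM_zero (i : Fin n × Fin 4) : hyM i 0 = 1 := by
  simp [hyM_eq]

theorem hyM_add (i : Fin n × Fin 4) (s t : ℝ) : hyM i (s + t) = hyM i s * hyM i t := by
  rw [hyM_eq, hyM_eq, hyM_eq, Real.cosh_add, Real.sinh_add]
  simp only [add_mul, mul_add, one_mul, mul_one, smul_mul_assoc, mul_smul_comm, Pj_sq,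
    Xm_sq, Pj_mul_Xm, Xm_mul_Pj]
  module

theorem hyM_conj (i : Fin n × Fin 4) (t : ℝ) : (hyM i t)ᴴ = hyM i t := by
  have h (r : ℝ) (A : Mt n) : (r • A)ᴴ = r • Aᴴ := by
    ext a b : 1
    simp [Matrix.conjTranspose_apply]
  simp only [hyM_eq, Matrix.conjTranspose_add, Matrix.conjTranspose_one, h, Xm_conj, Pj_conj]

theorem Jm_mul_hyM (i : Fin n × Fin 4) (t : ℝ) : Jm n * hyM i t = hyM i (-t) * Jm n := by
  simp only [hyM_eq, mul_add, add_mul, mul_one, one_mul, mul_smul_comm, smul_mul_assoc,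
    Jm_mul_Xm, Jm_mul_Pj, Real.cosh_neg, Real.sinh_neg, smul_neg, neg_smul, neg_mul]

theorem hyM_form (i : Fin n × Fin 4) (t : ℝ) : (hyM i t)ᴴ * Jm n * hyM i t = Jm n := by
  rw [hyM_conj, mul_assoc, Jm_mul_hyM, ← mul_assoc, ← hyM_add, add_neg_cancel, hyM_zero, one_mul]

/-- `exp (t X_{e_a u_μ})` as an element of `Sp(n,1)` -/
def hy (i : Fin n × Fin 4) (t : ℝ) : GG n := ⟨hyM i t, hyM_form i t⟩

@[simp] theorem mat_hy (i : Fin n × Fin 4) (t : ℝ) : (hy i t).mat = hyM i t := rfl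

theorem hy_zero (i : Fin n × Fin 4) : hy i 0 = 1 := GG.ext (hyM_zero i)

theorem hy_add (i : Fin n × Fin 4) (s t : ℝ) : hy i (s + t) = hy i s * hy i t :=
  GG.ext (hyM_add i s t)

theorem hy_neg (i : Fin n × Fin 4) (t : ℝ) : hy i (-t) = (hy i t)⁻¹ := by
  rw [eq_inv_iff_mul_eq_one, ← hy_add, neg_add_cancel, hy_zero]

theorem continuous_hyM (i : Fin n × Fin 4) : Continuous (hyM i : ℝ → Mt n) := by
  unfold hyM
  fun_prop

theorem continuous_hy (i : Fin n × Fin 4) : Continuous (hy i : ℝ → GG n) :=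
  Continuous.subtype_mk (continuous_hyM i) _

/-- the Cartan involution `J` as an element of `K` -/
def wJ (n : ℕ) : GG n := ⟨Jm n, by rw [Jm_star, Jm_mul_Jm, one_mul]⟩

theorem wJ_mem : wJ n ∈ KK n := by
  rw [mem_KK]
  change (Jm n)ᴴ * Jm n = 1
  rw [Jm_star, Jm_mul_Jm]

theorem wJ_hy (i : Fin n × Fin 4) (s : ℝ) : wJ n * hy i s * (wJ n)⁻¹ = (hy i s)⁻¹ := by
  rw [← hy_neg, mul_inv_eq_iff_eq_mul]
  exact GG.ext (Jm_mul_hyM i s)

/-- the bracket `[X_p, X_q]` -/
def Ym (p q : PP n) : Mt n := Xm p * Xm q - Xm q * Xm p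

/-- squared norm of `P = H^n` -/
def nq (p : PP n) : ℝ := ∑ a, ‖p a‖ ^ 2

end SPN

end
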