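import Pool.Agent.SPT.HypP
import Pool.Agent.SON.Main
import Pool.Agent.SON.Fin

/-! Project SPN, module Ifc: keys of E-P-cuts. -/

set_option autoImplicit false

namespace Pool.Agent.SPN

open Pool.Agent.SOC Pool.Agent.SOD Pool.Agent.SOS Pool.Agent.SOP Pool.Agent.SOE Pool.Agent.SOV Pool.Agent.SOF Pool.Agent.SOT Pool.Agent.SOK Pool.Agent.SOZ Pool.Agent.SOY Pool.Agent.SON Pool.Agent.SPE Pool.Agent.SPT

variable {M : Mat} {pn : Prs} {s : List (Fin M.length)}

theorem edge_exP {M : List (List Bool)} {L R : List ℕ} (hc : (graphOf M).Connected)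
    (hn : Nontriv (setW M L)) (hvo : Pool.Agent.SOT.VO M (L ++ R)) :
    ∃ x ∈ L, Atd (gN M) R x := by
  obtain ⟨s, hs, he, T, hT⟩ := hvo
  obtain ⟨l, r, rfl, hl, hr⟩ := List.map_eq_append_iff.1 hs
  subst hl hr
  have hadj : ∀ a b : Fin M.length, (graphOf M).Adj a b ↔ (gN M).Adj a.val b.val := fun a b => Iff.rfl
  obtain ⟨x, hx, _⟩ := hn.1
  obtain ⟨y, hy, _⟩ := hn.2
  rw [set_map] at hx hy
  have key : ∀ {u v : Fin M.length}, (graphOf M).Reachable u v → u ∈ l → v ∉ l → ∃ a b, a ∈ l ∧ b ∉ l ∧ (graphOf M).Adj a b := by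
    intro u v huv
    obtain ⟨p⟩ := huv
    induction p with
    | nil => exact fun h h' => absurd h h'
    | cons e p ih =>
      intro h h'
      rename_i a b c
      by_cases hb : b ∈ l
      · exact ih hb h'
      · exact ⟨a, b, h, hb, e⟩
  obtain ⟨a, b, ha, hb, e⟩ := key (hc.preconnected x y) hx hy
  refine ⟨a.val, List.mem_map_of_mem ha, b.val, List.mem_map_of_mem ?_, e⟩
  exact (List.mem_append.1 (he.2 b)).resolve_left hb


variable {L R : Ord}

/-- keys of nontrivial E-P-cuts -/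
theorem key_epc (hc : (graphOf M).Connected) (hE : EPC (graphOf M) (setW M L)) (hn : Nontriv (setW M L)) (hV : VO M (L ++ R)) :
    ∃ k, KeyR M L R k := by
  have hA := edge_exP hc hn hV
  obtain ⟨k, hk⟩ := key_exF hE hA hV
  have hn : (L ++ R).Nodup := (vo_perm hV).nodup_iff.2 List.nodup_range
  have hcov : CovL (gN M) L R k.2.1 := LRp.cov hk.sd
  refine ⟨k, hk.mem, hk.f3, hk.good, hk.all, hk.sub.nodup (List.nodup_append.1 hn).2.1, ?_, hcov.1, hcov.2⟩
  obtain ⟨x, hx, y, hy, e⟩ := hA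
  obtain ⟨b, hb, _⟩ := hcov.2 y hy ⟨x, hx, e.symm⟩
  exact List.ne_nil_of_mem hb

/-- the hypothesis on the keys -/
theorem repP (hc : (graphOf M).Connected) : RepP good keys M := by
  intro L R hE hn hV
  obtain ⟨k, hk⟩ := key_epc hc hE hn hV
  exact ⟨k, hk.mem, hk.good, hk.all⟩

end Pool.Agent.SPN
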