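import Pool.Agent.SPN.Cpk

/-! # Module Kak (difficulty 4): Cartan decomposition

`exists_unitary`. PROOF. Let `w = z' / ‖z'‖` (`z' ≠ 0`), a unit vector of `H^n`; choose a unit quaternion `α`
such that `star (e_1) · (w α) = w_1 α` is real (`α = star w_1 / ‖w_1‖`, or `1` if `w_1 = 0`), `u = e_1 - w α`. If
`u = 0` take `A = 1`; otherwise the reflection `A = 1 - 2 u u* / |u|²` (a quaternionic matrix) satisfies
`A* A = 1` and `A e_1 = w α`. Check: `u* e_1 = 1 - conj(w_1 α) = 1 - w_1 α` is real and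
`|u|² = 2 - 2 w_1 α`, so `A e_1 = e_1 - 2 u (1 - w_1 α) / (2 - 2 w_1 α) = e_1 - u = w α`.
(If `z' = 0` any `A` works, e.g. `1`.)
`kak`. `g e_0 = (z_0, z')` (column 0 of `g`), `|z_0|² = 1 + |z'|²`. Let `s = arcosh ‖z_0‖ ≥ 0`
(`Real.cosh s = ‖z_0‖`, `Real.sinh s = ‖z'‖`), `A` with `A e_1 = w α`, `z' = w ‖z'‖`, and put
`k = diag(β, A)` with `β = z_0 α / ‖z_0‖` (a unit quaternion, `z_0 ≠ 0`). Then
`k a_s e_0 = (β cosh s, A e_1 sinh s) = (z_0 α, z' α) = g e_0 α`. So `g₁ = (k a_s)⁻¹ g` maps `e_0` to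
`e_0 star α`: column 0 of `g₁` is `(star α, 0)`, so by the form row 0 of `g₁` has `∑_b ‖g₁_0b‖² = 0`, `g₁` is block
diagonal, commutes with `J`, and `g₁* g₁ = 1`: `k' = g₁ ∈ K`.
`ax_hy`: `cont`, `zero`, `add`: `continuous_hy`, `hy_zero`, `hy_add`; `weyl`: `wJ_mem`, `wJ_hy`; `proper`:
`bounded_of_compact`, `‖(k a_s k')_00‖ = cosh s ≥ s` (`norm_KK_mul`, `norm_mul_KK`, `norm_hy`). -/

open MeasureTheory Matrix
open scoped ContDiff

noncomputable section

namespace SPN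

variable {n : ℕ} [NeZero n]

private theorem Kak_star_mul (x : Quaternion ℝ) : star x * x = ((‖x‖ ^ 2 : ℝ) : Quaternion ℝ) := by
  rw [Quaternion.star_mul_self, Quaternion.normSq_eq_norm_mul_self, sq]

private theorem Kak_mul_star (x : Quaternion ℝ) : x * star x = ((‖x‖ ^ 2 : ℝ) : Quaternion ℝ) := by
  rw [Quaternion.self_mul_star, Quaternion.normSq_eq_norm_mul_self, sq]

private theorem Kak_sum_coe {ι : Type*} (s : Finset ι) (f : ι → ℝ) :
    ∑ i ∈ s, ((f i : ℝ) : Quaternion ℝ) = ((∑ i ∈ s, f i : ℝ) : Quaternion ℝ) := by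
  classical
  induction s using Finset.induction_on with
  | empty => simp
  | insert a s ha ih => rw [Finset.sum_insert ha, Finset.sum_insert ha, ih, Quaternion.coe_add]

private theorem Kak_smul_conj {m k : ℕ} (r : ℝ) (A : Matrix (Fin m) (Fin k) (Quaternion ℝ)) :
    (r • A)ᴴ = r • Aᴴ := by
  ext a b : 1
  simp [Matrix.conjTranspose_apply]

/-- the reflection -/
private theorem Kak_refl (u : PP n) (N : ℝ) (hN : 0 < N) (hu : ∑ a, ‖u a‖ ^ 2 = N) :
    ∃ A : Matrix (Fin n) (Fin n) (Quaternion ℝ), Aᴴ * A = 1 ∧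
      ∀ a, A a 0 = (if a = 0 then 1 else 0) - (2 / N : ℝ) • (u a * star (u 0)) := by
  set U : Matrix (Fin n) (Fin 1) (Quaternion ℝ) := Matrix.of fun a _ => u a with hU
  have hUU : Uᴴ * U = N • (1 : Matrix (Fin 1) (Fin 1) (Quaternion ℝ)) := by
    ext i j : 1
    rw [Matrix.mul_apply]
    have h1 : ∀ a, Uᴴ i a * U a j = ((‖u a‖ ^ 2 : ℝ) : Quaternion ℝ) := by
      intro a
      rw [Matrix.conjTranspose_apply]
      exact Kak_star_mul (u a)
    simp_rw [h1]
    rw [Kak_sum_coe, hu, Subsingleton.elim i j, Matrix.smul_apply, Matrix.one_apply_eq,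
      ← Quaternion.coe_mul_eq_smul, mul_one]
  set P : Matrix (Fin n) (Fin n) (Quaternion ℝ) := U * Uᴴ with hP
  have hPP : P * P = N • P := by
    calc P * P = U * (Uᴴ * U) * Uᴴ := by simp only [hP, Matrix.mul_assoc]
      _ = N • P := by rw [hUU, Matrix.mul_smul, Matrix.mul_one, Matrix.smul_mul]
  have hPc : Pᴴ = P := by
    rw [hP, Matrix.conjTranspose_mul, Matrix.conjTranspose_conjTranspose]
  refine ⟨1 - (2 / N : ℝ) • P, ?_, ?_⟩
  · have h1 : (1 - (2 / N : ℝ) • P)ᴴ = 1 - (2 / N : ℝ) • P := by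
      rw [Matrix.conjTranspose_sub, Matrix.conjTranspose_one, Kak_smul_conj, hPc]
    rw [h1]
    have h2 : (1 - (2 / N : ℝ) • P) * (1 - (2 / N : ℝ) • P) =
        1 - (2 / N : ℝ) • P - (2 / N : ℝ) • P + ((2 / N : ℝ) * (2 / N)) • (P * P) := by
      simp only [sub_mul, mul_sub, one_mul, mul_one, smul_mul_assoc, mul_smul_comm, smul_sub,
        smul_smul]
      abel
    rw [h2, hPP, smul_smul]
    have h3 : (2 / N : ℝ) * (2 / N) * N = 2 / N + 2 / N := by
      field_simp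
      ring
    rw [h3, add_smul]
    abel
  · intro a
    rw [Matrix.sub_apply, Matrix.smul_apply, Matrix.one_apply]
    congr 2
    rw [hP, Matrix.mul_apply, Fin.sum_univ_one, Matrix.conjTranspose_apply]
    rfl

theorem exists_unitary (z : PP n) : ∃ A : Matrix (Fin n) (Fin n) (Quaternion ℝ), Aᴴ * A = 1 ∧
    ∃ α : Quaternion ℝ, ‖α‖ = 1 ∧ ∀ a, (Real.sqrt (nq z)) • (A a 0) = z a * α := by
  have hq0 : 0 ≤ nq z := Finset.sum_nonneg fun a _ => sq_nonneg _
  rcases hq0.eq_or_lt with hq | hq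
  · refine ⟨1, by simp, 1, norm_one, fun a => ?_⟩
    have h1 : ‖z a‖ ^ 2 = 0 := by
      have h2 := (Finset.sum_eq_zero_iff_of_nonneg (fun a _ => sq_nonneg (‖z a‖))).1 hq.symm
      exact h2 a (Finset.mem_univ a)
    have h3 : z a = 0 := by
      rw [← norm_eq_zero]
      exact pow_eq_zero_iff (two_ne_zero) |>.1 h1
    rw [← hq, Real.sqrt_zero, zero_smul, h3, zero_mul]
  · set r := Real.sqrt (nq z) with hr
    have hr0 : 0 < r := Real.sqrt_pos.2 hq
    have hr2 : r ^ 2 = nq z := Real.sq_sqrt hq0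
    -- the unit quaternion
    obtain ⟨α, hα, t, ht⟩ : ∃ α : Quaternion ℝ, ‖α‖ = 1 ∧ ∃ t : ℝ,
        z 0 * α = ((t : ℝ) : Quaternion ℝ) := by
      by_cases h0 : z 0 = 0
      · exact ⟨1, norm_one, 0, by rw [h0, zero_mul]; simp⟩
      · have h1 : ‖z 0‖ ≠ 0 := norm_ne_zero_iff.2 h0
        refine ⟨(‖z 0‖)⁻¹ • star (z 0), ?_, (‖z 0‖)⁻¹ * ‖z 0‖ ^ 2, ?_⟩
        · rw [norm_smul, _root_.norm_inv, norm_norm, norm_star, inv_mul_cancel₀ h1]
        · rw [mul_smul_comm, Kak_mul_star, Quaternion.coe_mul, ← Quaternion.coe_mul_eq_smul]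
    set v : PP n := fun a => r⁻¹ • (z a * α) with hv
    have hv2 : ∑ a, ‖v a‖ ^ 2 = 1 := by
      have h1 : ∀ a, ‖v a‖ ^ 2 = (r ^ 2)⁻¹ * ‖z a‖ ^ 2 := by
        intro a
        rw [hv]
        simp only [norm_smul, norm_mul, hα, mul_one, _root_.norm_inv, mul_pow, Real.norm_eq_abs,
          abs_of_pos hr0, inv_pow]
      simp_rw [h1]
      rw [← Finset.mul_sum, hr2]
      exact inv_mul_cancel₀ hq.ne'
    have hv0 : v 0 = ((r⁻¹ * t : ℝ) : Quaternion ℝ) := by
      rw [hv]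
      simp only [ht]
      rw [Quaternion.coe_mul, ← Quaternion.coe_mul_eq_smul]
    set τ : ℝ := r⁻¹ * t with hτ
    set u : PP n := fun a => (if a = 0 then 1 else 0) - v a with hu
    have hu0 : u 0 = ((1 - τ : ℝ) : Quaternion ℝ) := by
      rw [hu]
      simp only [if_true, hv0]
      push_cast
      rfl
    have hus : ∑ a, ‖u a‖ ^ 2 = 2 - 2 * τ := by
      have h1 : ∑ a, ‖u a‖ ^ 2 = ‖u 0‖ ^ 2 + ∑ a ∈ Finset.univ.erase 0, ‖u a‖ ^ 2 :=
        (Finset.add_sum_erase _ _ (Finset.mem_univ 0)).symm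
      have h2 : ∑ a, ‖v a‖ ^ 2 = ‖v 0‖ ^ 2 + ∑ a ∈ Finset.univ.erase 0, ‖v a‖ ^ 2 :=
        (Finset.add_sum_erase _ _ (Finset.mem_univ 0)).symm
      have h3 : ∑ a ∈ Finset.univ.erase 0, ‖u a‖ ^ 2 = ∑ a ∈ Finset.univ.erase 0, ‖v a‖ ^ 2 := by
        refine Finset.sum_congr rfl fun a ha => ?_
        rw [hu]
        simp only [if_neg (Finset.ne_of_mem_erase ha), zero_sub, norm_neg]
      rw [h1, h3, hu0]
      rw [hv2, hv0] at h2
      rw [Quaternion.norm_coe, Real.norm_eq_abs, sq_abs] at h2 ⊢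
      linarith [h2, sq (1 - τ), sq τ, (by ring : (1 - τ) ^ 2 = 1 - 2 * τ + τ ^ 2)]
    have hus0 : 0 ≤ 2 - 2 * τ := by
      rw [← hus]; exact Finset.sum_nonneg fun a _ => sq_nonneg _
    rcases hus0.eq_or_lt with h1 | h1
    · -- u = 0
      refine ⟨1, by simp, α, hα, fun a => ?_⟩
      rw [← h1] at hus
      have h2 := (Finset.sum_eq_zero_iff_of_nonneg (fun a _ => sq_nonneg (‖u a‖))).1 hus a
        (Finset.mem_univ a)
      have h3 : u a = 0 := by
        rw [← norm_eq_zero]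
        exact pow_eq_zero_iff (two_ne_zero) |>.1 h2
      have h4 : (if a = 0 then (1 : Quaternion ℝ) else 0) = v a := sub_eq_zero.1 h3
      rw [Matrix.one_apply, h4, hv]
      simp only [smul_smul]
      rw [mul_inv_cancel₀ hr0.ne', one_smul]
    · obtain ⟨A, hA, hA0⟩ := Kak_refl u (2 - 2 * τ) h1 hus
      refine ⟨A, hA, α, hα, fun a => ?_⟩
      have h2 : A a 0 = v a := by
        rw [hA0, hu0]
        have h3 : star ((1 - τ : ℝ) : Quaternion ℝ) = ((1 - τ : ℝ) : Quaternion ℝ) :=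
          Quaternion.star_coe _
        rw [h3, Quaternion.mul_coe_eq_smul, smul_smul]
        have h4 : 2 / (2 - 2 * τ) * (1 - τ) = 1 := by
          have h5 : (2 - 2 * τ) ≠ 0 := h1.ne'
          rw [div_mul_eq_mul_div, div_eq_one_iff_eq h5]
          ring
        rw [h4, one_smul, hu]
        simp
      rw [h2, hv]
      simp only [smul_smul]
      rw [mul_inv_cancel₀ hr0.ne', one_smul]

omit [NeZero n] in
private theorem Kak_col (g : GG n) : ‖g.mat 0 0‖ ^ 2 = 1 + ∑ a : Fin n, ‖g.mat a.succ 0‖ ^ 2 := by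
  have h1 : (g.matᴴ * Jm n * g.mat) 0 0 = Jm n 0 0 := by rw [g.form]
  have h2 : ∀ j, (g.matᴴ * Jm n) 0 j = star (g.mat j 0) * (if j = 0 then -1 else 1) := by
    intro j
    rw [Jm, Matrix.mul_diagonal, Matrix.conjTranspose_apply]
  have h3 : Jm n 0 0 = -1 := by
    rw [Jm, Matrix.diagonal_apply_eq, if_pos rfl]
  rw [h3, Matrix.mul_apply] at h1
  simp_rw [h2] at h1
  rw [Fin.sum_univ_succ] at h1
  simp only [if_true, Fin.succ_ne_zero, if_false, mul_one, mul_neg, neg_mul] at h1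
  simp_rw [Kak_star_mul] at h1
  rw [Kak_sum_coe] at h1
  have h4 : ((-(‖g.mat 0 0‖ ^ 2) + ∑ a : Fin n, ‖g.mat a.succ 0‖ ^ 2 : ℝ) : Quaternion ℝ) =
      ((-1 : ℝ) : Quaternion ℝ) := by
    rw [Quaternion.coe_add, Quaternion.coe_neg, h1, Quaternion.coe_neg, Quaternion.coe_one]
  have h5 := Quaternion.coe_injective h4
  linarith

omit [NeZero n] in
private theorem Kak_row (g : GG n) : ‖g.mat 0 0‖ ^ 2 = 1 + ∑ a : Fin n, ‖g.mat 0 a.succ‖ ^ 2 := by
  have h1 := Kak_col g⁻¹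
  have h2 : ∀ i, ‖(g⁻¹).mat i 0‖ = ‖g.mat 0 i‖ := by
    intro i
    rw [GG.mat_inv, Jm, Matrix.mul_diagonal, Matrix.diagonal_mul, Matrix.conjTranspose_apply]
    rw [norm_mul, norm_mul, norm_star]
    by_cases hi : i = 0
    · simp [hi]
    · simp [hi]
  simp_rw [h2] at h1
  exact h1

omit [NeZero n] in
/-- block diagonal elements belong to `K` -/
private theorem Kak_mem (g : GG n) (h : ‖g.mat 0 0‖ = 1) : g ∈ KK n := by
  have hc : ∀ a : Fin n, g.mat a.succ 0 = 0 := by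
    intro a
    have h1 := Kak_col g
    rw [h] at h1
    have h2 : ∑ a : Fin n, ‖g.mat a.succ 0‖ ^ 2 = 0 := by linarith
    have h3 := (Finset.sum_eq_zero_iff_of_nonneg (fun a _ => sq_nonneg (‖g.mat a.succ 0‖))).1 h2 a
      (Finset.mem_univ a)
    rw [← norm_eq_zero]
    exact pow_eq_zero_iff (two_ne_zero) |>.1 h3
  have hr : ∀ a : Fin n, g.mat 0 a.succ = 0 := by
    intro a
    have h1 := Kak_row g
    rw [h] at h1
    have h2 : ∑ a : Fin n, ‖g.mat 0 a.succ‖ ^ 2 = 0 := by linarith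
    have h3 := (Finset.sum_eq_zero_iff_of_nonneg (fun a _ => sq_nonneg (‖g.mat 0 a.succ‖))).1 h2 a
      (Finset.mem_univ a)
    rw [← norm_eq_zero]
    exact pow_eq_zero_iff (two_ne_zero) |>.1 h3
  have hJ : Jm n * g.mat = g.mat * Jm n := by
    ext i j : 1
    rw [Jm, Matrix.diagonal_mul, Matrix.mul_diagonal]
    refine Fin.cases ?_ (fun a => ?_) i
    · refine Fin.cases ?_ (fun b => ?_) j
      · simp
      · simp [hr b]
    · refine Fin.cases ?_ (fun b => ?_) j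
      · simp [hc a]
      · simp [Fin.succ_ne_zero]
  rw [mem_KK]
  have h1 := g.form
  rw [mul_assoc, hJ, ← mul_assoc] at h1
  calc g.matᴴ * g.mat = g.matᴴ * g.mat * (Jm n * Jm n) := by rw [Jm_mul_Jm, mul_one]
    _ = (g.matᴴ * g.mat * Jm n) * Jm n := by simp only [mul_assoc]
    _ = 1 := by rw [h1, Jm_mul_Jm]

/-- the block diagonal matrix -/
private def Kak_bd (β : Quaternion ℝ) (A : Matrix (Fin n) (Fin n) (Quaternion ℝ)) : Mt n :=
  Matrix.of fun i j =>
    Fin.cases (motive := fun _ => Quaternion ℝ)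
      (Fin.cases (motive := fun _ => Quaternion ℝ) β (fun _ => 0) j)
      (fun a => Fin.cases (motive := fun _ => Quaternion ℝ) 0 (fun b => A a b) j) i

omit [NeZero n] in
private theorem Kak_bd_unit {β : Quaternion ℝ} (hβ : ‖β‖ = 1)
    {A : Matrix (Fin n) (Fin n) (Quaternion ℝ)} (hA : Aᴴ * A = 1) :
    (Kak_bd β A)ᴴ * Kak_bd β A = 1 := by
  ext i j : 1
  rw [Matrix.mul_apply, Fin.sum_univ_succ]
  simp only [Matrix.conjTranspose_apply]
  refine Fin.cases ?_ (fun a => ?_) i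
  · refine Fin.cases ?_ (fun b => ?_) j
    · simp only [Kak_bd, Matrix.of_apply, Fin.cases_zero, Fin.cases_succ, Kak_star_mul, hβ]
      simp
    · simp only [Kak_bd, Matrix.of_apply, Fin.cases_zero, Fin.cases_succ]
      simp [(Fin.succ_ne_zero _).symm]
  · refine Fin.cases ?_ (fun b => ?_) j
    · simp only [Kak_bd, Matrix.of_apply, Fin.cases_zero, Fin.cases_succ]
      simp [Fin.succ_ne_zero]
    · have h1 := congrArg (fun M : Matrix (Fin n) (Fin n) (Quaternion ℝ) => M a b) hA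
      simp only [Matrix.mul_apply, Matrix.conjTranspose_apply] at h1
      simp only [Kak_bd, Matrix.of_apply, Fin.cases_zero, Fin.cases_succ, star_zero, zero_mul,
        zero_add]
      rw [h1, Matrix.one_apply, Matrix.one_apply]
      simp [Fin.succ_inj]

omit [NeZero n] in
private theorem Kak_bd_form {β : Quaternion ℝ} (hβ : ‖β‖ = 1)
    {A : Matrix (Fin n) (Fin n) (Quaternion ℝ)} (hA : Aᴴ * A = 1) :
    (Kak_bd β A)ᴴ * Jm n * Kak_bd β A = Jm n := by
  have hJ : Jm n * Kak_bd β A = Kak_bd β A * Jm n := by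
    ext i j : 1
    rw [Jm, Matrix.diagonal_mul, Matrix.mul_diagonal]
    refine Fin.cases ?_ (fun a => ?_) i
    · refine Fin.cases ?_ (fun b => ?_) j <;> simp [Kak_bd, Fin.succ_ne_zero]
    · refine Fin.cases ?_ (fun b => ?_) j <;> simp [Kak_bd, Fin.succ_ne_zero]
  rw [mul_assoc, hJ, ← mul_assoc, Kak_bd_unit hβ hA, one_mul]

private theorem Kak_hy_col (s : ℝ) (i : Fin (n + 1)) :
    (hy ((0 : Fin n), (0 : Fin 4)) s).mat i 0 =
      if i = 0 then ((Real.cosh s : ℝ) : Quaternion ℝ)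
      else if i = (0 : Fin n).succ then ((Real.sinh s : ℝ) : Quaternion ℝ) else 0 := by
  rw [mat_hy, hyM_eq, Xm_bs]
  simp only [Pj, Matrix.add_apply, Matrix.smul_apply, Matrix.single_apply, Matrix.one_apply]
  by_cases h0 : i = 0
  · subst h0
    simp only [if_true, Fin.succ_ne_zero, false_and, and_false, if_false, and_self, add_zero,
      and_true, (Fin.succ_ne_zero _).symm, smul_zero]
    rw [← Quaternion.coe_mul_eq_smul, mul_one, Quaternion.coe_sub, Quaternion.coe_one]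
    abel
  · by_cases h1 : i = (0 : Fin n).succ
    · subst h1
      simp only [if_true, Fin.succ_ne_zero, if_false, (Fin.succ_ne_zero _).symm, and_true,
        and_false, add_zero, smul_zero, zero_add]
      have hu : uq 0 = 1 := rfl
      rw [hu, ← Quaternion.coe_mul_eq_smul, mul_one]
    · have h0' : (0 : Fin (n + 1)) ≠ i := Ne.symm h0
      have h1' : (0 : Fin n).succ ≠ i := Ne.symm h1
      simp only [h0, if_false, h1, h0', h1', false_and, add_zero, smul_zero]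

theorem kak (g : GG n) : ∃ k ∈ KK n, ∃ s : ℝ, 0 ≤ s ∧ ∃ k' ∈ KK n,
    g = k * hy ((0 : Fin n), (0 : Fin 4)) s * k' := by
  set z : PP n := fun a => g.mat a.succ 0 with hz
  obtain ⟨A, hA, α, hα, hAα⟩ := exists_unitary z
  have hnq : nq z = ‖g.mat 0 0‖ ^ 2 - 1 := by
    have h1 := Kak_col g
    unfold nq
    linarith
  have hg1 := one_le_norm g
  have hg0 : ‖g.mat 0 0‖ ≠ 0 := by linarith
  set s := Real.arsinh (Real.sqrt (nq z)) with hs
  have hs0 : 0 ≤ s := Real.arsinh_nonneg_iff.2 (Real.sqrt_nonneg _)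
  have hsinh : Real.sinh s = Real.sqrt (nq z) := Real.sinh_arsinh _
  have hnq0 : 0 ≤ nq z := Finset.sum_nonneg fun a _ => sq_nonneg _
  have hcosh : Real.cosh s = ‖g.mat 0 0‖ := by
    rw [hs, Real.cosh_arsinh, Real.sq_sqrt hnq0, hnq]
    rw [show 1 + (‖g.mat 0 0‖ ^ 2 - 1) = ‖g.mat 0 0‖ ^ 2 by ring]
    exact Real.sqrt_sq (norm_nonneg _)
  set β : Quaternion ℝ := (‖g.mat 0 0‖)⁻¹ • (g.mat 0 0 * α) with hβ
  have hβ1 : ‖β‖ = 1 := by
    rw [hβ, norm_smul, norm_mul, hα, mul_one, _root_.norm_inv, norm_norm, inv_mul_cancel₀ hg0]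
  set k : GG n := ⟨Kak_bd β A, Kak_bd_form hβ1 hA⟩ with hk
  have hkm : k.mat = Kak_bd β A := rfl
  have hkK : k ∈ KK n := by
    rw [mem_KK, hkm]
    exact Kak_bd_unit hβ1 hA
  set h : GG n := k * hy ((0 : Fin n), (0 : Fin 4)) s with hh
  have hcol : ∀ i, h.mat i 0 = g.mat i 0 * α := by
    intro i
    rw [hh, GG.mat_mul, Matrix.mul_apply]
    simp_rw [Kak_hy_col]
    rw [Fin.sum_univ_succ]
    simp only [if_true, Fin.succ_ne_zero, if_false, Fin.succ_inj]
    rw [hkm]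
    refine Fin.cases ?_ (fun a => ?_) i
    · simp only [Kak_bd, Matrix.of_apply, Fin.cases_zero, Fin.cases_succ, zero_mul,
        Finset.sum_const_zero, add_zero]
      rw [hcosh, Quaternion.mul_coe_eq_smul, hβ, smul_smul, mul_inv_cancel₀ hg0, one_smul]
    · simp only [Kak_bd, Matrix.of_apply, Fin.cases_zero, Fin.cases_succ, zero_mul, zero_add,
        mul_ite, mul_zero, Finset.sum_ite_eq', Finset.mem_univ, if_true]
      rw [hsinh, Quaternion.mul_coe_eq_smul, hAα]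
  set k' : GG n := h⁻¹ * g with hk'
  have hαs : α * star α = 1 := by
    rw [Kak_mul_star, hα]
    simp
  have hgh : ∀ i, g.mat i 0 = h.mat i 0 * star α := by
    intro i
    rw [hcol, mul_assoc, hαs, mul_one]
  have hk0 : k'.mat 0 0 = star α := by
    rw [hk', GG.mat_mul, Matrix.mul_apply]
    simp_rw [hgh]
    simp_rw [← mul_assoc]
    rw [← Finset.sum_mul, ← Matrix.mul_apply, ← GG.mat_mul, inv_mul_cancel, GG.mat_one,
      Matrix.one_apply_eq, one_mul]
  refine ⟨k, hkK, s, hs0, k', ?_, ?_⟩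
  · apply Kak_mem
    rw [hk0, norm_star, hα]
  · rw [hk', ← hh, mul_inv_cancel_left]

theorem ax_hy : Ax (KK n) (hy ((0 : Fin n), (0 : Fin 4))) where
  cont := continuous_hy _
  zero := hy_zero _
  add := hy_add _
  weyl := ⟨wJ n, wJ_mem, fun s => wJ_hy _ s⟩
  kak := fun g => kak g
  proper := by
    intro L hL
    obtain ⟨R, hR⟩ := bounded_of_compact hL
    refine ⟨R, fun k hk k' hk' s hs hm => ?_⟩
    have h1 := hR _ hm
    rw [norm_mul_KK hk', norm_KK_mul hk, norm_hy] at h1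
    have h2 : s ≤ Real.sinh s := Real.self_le_sinh_iff.2 hs
    have h3 := Real.sinh_lt_cosh s
    linarith

end SPN

end
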