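import Pool.Agent.SPN.NodF

/-! Project SPN, module Main: the rigid step relative to pins. -/

set_option autoImplicit false

namespace Pool.Agent.SPN

open Pool.Agent.SOC Pool.Agent.SOD Pool.Agent.SOS Pool.Agent.SOP Pool.Agent.SOE Pool.Agent.SOV Pool.Agent.SOF Pool.Agent.SOT Pool.Agent.SOK Pool.Agent.SOZ Pool.Agent.SOY Pool.Agent.SOB Pool.Agent.SOI Pool.Agent.SON Pool.Agent.SPE Pool.Agent.SPT FP

variable {M : Mat} {pn : Prs} {s : List (Fin M.length)}

variable {L R : Ord}

/-- keys of a node -/
theorem key_nodP (hG : PrimeG (graphOf M)) (hc : PinC (graphOf M) (PS M pn)) (hs : EWP (graphOf M) (PS M pn) s) (hp : PinOk M.length pn) (h4 : 4 ≤ M.length)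
    {I : Ivl} (hI : Nod s.length (strLP (M, pn) (s.map Fin.val)) I) (hL : L.Perm (seg (s.map Fin.val) I)) (hV : VO M (L ++ R)) :
    ∃ k, KeyR M L R k := by
  rcases hI with hI | rfl
  · have h1 := strp_str hG hc hs hp hI
    have e : setW M L = setW M (seg (s.map Fin.val) I) := by
      ext x
      exact hL.mem_iff
    rw [← e] at h1
    exact key_epc hG.1 h1.epp.epc h1.nt hV
  · have hl : s.length = M.length := by
      have := hs.ewo.enum
      have h2 := (List.perm_ext_iff_of_nodup this.1 (List.nodup_finRange M.length)).2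
        (fun x => ⟨fun _ => List.mem_finRange x, fun _ => this.2 x⟩)
      rw [h2.length_eq, List.length_finRange]
    have h1 : L.length = M.length - 1 := by
      rw [hL.length_eq]
      unfold seg
      rw [List.length_take, List.length_drop, List.length_map]
      omega
    have h2 := (vo_perm hV).length_eq
    rw [List.length_append, List.length_range] at h2
    have h3 : R.length = 1 := by omega
    obtain ⟨v, rfl⟩ := List.length_eq_one_iff.1 h3
    exact key_one hV

/-- the orders of the children in the result -/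
theorem outF_f2 {C : Ivl → List Ord} {Ps : List Ord} {O : Ord} {Ks : List Ivl} (hP : Ps.length = Ks.length) (f : ℕ → Bool)
    (h : ∀ j < Ks.length, entE M Ps O (Ks.map C) j ∈ C (Ks.getD j (0, 0))) (hC : ∀ K ∈ Ks, ∀ L ∈ C K, L.reverse ∈ C K) :
    ∃ Ls' : List Ord, outF M Ps O (Ks.map C) f = Ls'.flatten ∧ List.Forall₂ (fun L K => L ∈ C K) Ls' Ks := by
  refine ⟨(List.range Ps.length).map fun j => ordE M Ps O (Ks.map C) j (f j), ?_, ?_⟩
  · unfold outF
    rw [List.flatMap_def]
  · rw [List.forall₂_iff_get]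
    refine ⟨by rw [List.length_map, List.length_range, hP], ?_⟩
    intro i h1 h2
    rw [List.get_eq_getElem, List.get_eq_getElem, List.getElem_map, List.getElem_range]
    have h3 := h i h2
    rw [List.getD_eq_getElem _ _ h2] at h3
    unfold ordE
    split
    · exact hC _ (List.getElem_mem h2) _ h3
    · exact h3

/-- the rigid step relative to pins -/
theorem rigA_okP (hG : PrimeG (graphOf M)) (hc : PinC (graphOf M) (PS M pn)) (hs : EWP (graphOf M) (PS M pn) s) (hp : PinOk M.length pn) (h4 : 4 ≤ M.length)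
    (hk : NoK6P4 (graphOf M)) : RigP rigA M pn (s.map Fin.val) (strLP (M, pn) (s.map Fin.val)) := by
  intro I hI h6 C hC Ls hL R hVP
  have hV := hVP.1
  have hlen : (s.map Fin.val).length = s.length := List.length_map _
  rw [hlen] at hI h6 hC hL ⊢
  have hF : Lam s.length (strLP (M, pn) (s.map Fin.val)) := by
    have h := strLP_lam (M := M) (pn := pn) (s.map Fin.val)
    rwa [hlen] at h
  have hsl : s.length = M.length := prt_len hs.ewo.enum
  have hb : I.1 < I.2 ∧ I.2 ≤ s.length := by
    rcases hI with h | h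
    · exact ⟨by have := hF.len I h; omega, hF.hi I h⟩
    · rw [h]
      exact ⟨by show 1 < s.length; omega, le_rfl⟩
  have hfl := kids_flat (s.map Fin.val) hF hb.1 hb.2
  generalize hKs : kids s.length (strLP (M, pn) (s.map Fin.val)) I = Ks at *
  have hL1 : List.Forall₂ (fun L K => L.Perm (seg (s.map Fin.val) K)) Ls Ks :=
    Main_f4 hL fun L K hK h => (hC K hK L h).1
  obtain ⟨hN, hR⟩ := nds_of_vop hG hc hs hp h4 hk hI (by rw [hKs]; exact h6) (by rw [hKs]; exact hL1) hVP
  rw [hKs] at hN hR
  have hCP : List.Forall₂ (fun (C : List Ord) P => ∀ L ∈ C, L.Perm P ∧ L.reverse ∈ C) (Ks.map C) (Ks.map (seg (s.map Fin.val))) :=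
    Main_f3 fun K hK => hC K hK
  have hLC : List.Forall₂ (fun L (C : List Ord) => L ∈ C) Ls (Ks.map C) := Main_f2 hL fun _ _ _ h => h
  have hV' : Val (gN M) (Ls.flatten ++ R) := (vo_val (vo_perm hV)).1 hV
  obtain ⟨⟨φ, hφ⟩, hent⟩ := domA hN hCP hLC hR hV'
  have hent' : ∀ j < (Ks.map (seg (s.map Fin.val))).length,
      (entE M (Ks.map (seg (s.map Fin.val))) (outO (s.map Fin.val) Ks) (Ks.map C) j).Perm ((Ks.map (seg (s.map Fin.val))).getD j []) := by
    intro j hj
    have h1 := hent j hj
    rw [List.length_map] at hj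
    have e1 : (Ks.map C).getD j [] = C Ks[j] := by
      rw [List.getD_eq_getElem?_getD, List.getElem?_map, List.getElem?_eq_getElem hj]
      rfl
    have e2 : (Ks.map (seg (s.map Fin.val))).getD j [] = seg (s.map Fin.val) Ks[j] := by
      rw [List.getD_eq_getElem?_getD, List.getElem?_map, List.getElem?_eq_getElem hj]
      rfl
    rw [e1] at h1
    rw [e2]
    exact (hC _ (List.getElem_mem hj) _ h1).1
  have hout : ∀ f : ℕ → Bool, (outF M (Ks.map (seg (s.map Fin.val))) (outO (s.map Fin.val) Ks) (Ks.map C) f).Perm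
      (Ks.map (seg (s.map Fin.val))).flatten := by
    intro f
    refine Main_perm fun j hj => ?_
    unfold ordE
    split
    · exact (List.reverse_perm _).trans (hent' j hj)
    · exact hent' j hj
  have hpr : (outF M (Ks.map (seg (s.map Fin.val))) (outO (s.map Fin.val) Ks) (Ks.map C) φ ++ R).Perm (List.range M.length) :=
    ((hout φ).append hR).trans hN.perm
  have hVO : VO M (outF M (Ks.map (seg (s.map Fin.val))) (outO (s.map Fin.val) Ks) (Ks.map C) φ ++ R) := (vo_val hpr).2 hφ
  obtain ⟨k, hkey⟩ := key_nodP hG hc hs hp h4 hI ((hout φ).trans (by rw [hfl])) hVO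
  have hH : Hyn M (Ks.map (seg (s.map Fin.val))) (outO (s.map Fin.val) Ks) (Ks.map C) R φ k :=
    ⟨hN, by rw [List.length_map]; exact h6, hent', hR, hφ, hkey⟩
  obtain ⟨u, hu, hvo⟩ := solve_node hH
  refine ⟨_, ?_, hvo, outF_f2 (M := M) (by rw [List.length_map]) (val u) (fun j hj => ?_) (fun K hK L hL => (hC K hK L hL).2)⟩
  swap
  · have h1 := hent j (by rw [List.length_map]; exact hj)
    have e1 : (Ks.map C).getD j [] = C Ks[j] := by
      rw [List.getD_eq_getElem?_getD, List.getElem?_map, List.getElem?_eq_getElem hj]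
      rfl
    rw [e1] at h1
    rw [List.getD_eq_getElem _ _ hj]
    exact h1
  unfold rigA
  refine List.mem_flatMap.2 ⟨k, hkey.mem, ?_⟩
  rw [hu]
  exact List.mem_singleton.2 rfl

end Pool.Agent.SPN
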