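import Pool.Agent.SPN.Ab

/-! # Module Meg (difficulty 2): measurability -/

open MeasureTheory

namespace SPN

variable {G : Type*} [Group G] [MeasurableSpace G] [MeasurableMul₂ G] {μ : Measure G}
  {Γ : Subgroup G} {π : G → Γ}

theorem meas_D0 (hD : Dm μ Γ π) : MeasurableSet (D0 π) := hD.meas 1

theorem meas_pair (hD : Dm μ Γ π) {g : G → Γ → ℝ} (hg : ∀ γ, Measurable (fun v => g v γ)) :
    Measurable (fun p : G × G => g p.1 (π (p.1 * p.2))) := by
  haveI := hD.cnt
  intro s hs
  have e : (fun p : G × G => g p.1 (π (p.1 * p.2))) ⁻¹' s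
      = ⋃ γ : Γ, ((fun p : G × G => p.1 * p.2) ⁻¹' (π ⁻¹' {γ})) ∩
          ((fun p : G × G => g p.1 γ) ⁻¹' s) := by
    ext p
    simp only [Set.mem_preimage, Set.mem_iUnion, Set.mem_inter_iff, Set.mem_singleton_iff]
    constructor
    · intro h
      exact ⟨_, rfl, h⟩
    · rintro ⟨γ, h1, h2⟩
      rw [h1]
      exact h2
  rw [e]
  refine MeasurableSet.iUnion fun γ => ?_
  refine MeasurableSet.inter ?_ ?_
  · exact (measurable_fst.mul measurable_snd) (hD.meas γ)
  · exact ((hg γ).comp measurable_fst) hs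

theorem integrable_in (hD : Dm μ Γ π) {g : G → Γ → ℝ} (hg : Gf g) {a : G → ℝ}
    (ha : Integrable a μ) (v : G) : Integrable (fun h => a h * g v (π (v * h))) μ := by
  obtain ⟨C, hC⟩ := hg.bdd
  have hm : Measurable (fun h => g v (π (v * h))) :=
    (meas_pair hD hg.meas).comp (measurable_const.prodMk measurable_id)
  refine ha.mul_bdd (c := C) hm.aestronglyMeasurable ?_
  exact Filter.Eventually.of_forall fun h => by simpa using hC v _

theorem integrable_pair [SigmaFinite μ] (hD : Dm μ Γ π) {g : G → Γ → ℝ} (hg : Gf g) {a : G → ℝ}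
    (ha : Integrable a μ) :
    Integrable (fun p : G × G => a p.2 * g p.1 (π (p.1 * p.2)))
      ((μ.restrict (D0 π)).prod μ) := by
  obtain ⟨C, hC⟩ := hg.bdd
  haveI : IsFiniteMeasure (μ.restrict (D0 π)) :=
    ⟨by rw [Measure.restrict_apply_univ]; exact hD.fin⟩
  have h1 : Integrable (fun p : G × G => a p.2) ((μ.restrict (D0 π)).prod μ) := ha.comp_snd _
  refine h1.mul_bdd (c := C) (meas_pair hD hg.meas).aestronglyMeasurable ?_
  exact Filter.Eventually.of_forall fun p => by simpa using hC p.1 _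

theorem integrable_out [SigmaFinite μ] (hD : Dm μ Γ π) {g : G → Γ → ℝ} (hg : Gf g) {a : G → ℝ}
    (ha : Integrable a μ) :
    Integrable (fun v => ∫ h, a h * g v (π (v * h)) ∂μ) (μ.restrict (D0 π)) :=
  (integrable_pair hD hg ha).integral_prod_left

end SPN
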