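import Pool.Agent.SPN.Taa
import Pool.Agent.SPN.Drb

/-! # Module Tab (difficulty 4): `Lap (tau m) = P_1 m - m`

`Lap_tau_int`: `Lap (tau m) z = ∫_0^1 w(s) Lap (Pt s m) z ds`: `LX_tau` gives `Dp p (tau m) z = ∫ w(s) (Dp p (Pt s m)) z`;
the function `(s, z) ↦ Dp p (Pt s m) z` is again jointly smooth (it is a partial derivative of the jointly smooth
function `Pt_joint`), so `par_interval_fderiv` applies once more; sum over the basis.
`tau_lap`: fix `z`, `φ s = Pt s m z`, `φ' s = Pt s (Dp h m) z`, `φ'' s = Pt s (Dp h (Dp h m)) z` (`Pt_hasDerivAt` twice,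
`h = bs (ih n)`). For `0 < s < 1`: `d/ds (w φ' + φ) = (hc w - 1) φ' + w φ'' + φ' = w (φ'' + hc φ') = w Lap (Pt s m) z`
(`wf_deriv`, `dar`). `w φ' + φ` is continuous on `[0, 1]`, so by
`intervalIntegral.integral_eq_sub_of_hasDerivAt_of_le` the integral is `φ 1 - φ 0` (`wf_zero`, `wf_one`, `Pt_zero`). The
integrand `s ↦ w(s) Lap (Pt s m) z` is continuous on `[0, 1]`. -/

open MeasureTheory Matrix
open scoped ContDiff

noncomputable section

namespace SPN

variable {n : ℕ} [NeZero n]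

omit [NeZero n] in
/-- a Lie derivative of a jointly smooth family is jointly smooth -/
private theorem Tab_joint {f : ℝ → EE n → ℝ} (hf : ContDiff ℝ ∞ (fun p : ℝ × EE n => f p.1 p.2))
    (A : Mt n) : ContDiff ℝ ∞ (fun p : ℝ × EE n => LX A (f p.1) p.2) := by
  unfold LX
  refine ContDiff.neg ?_
  refine ContDiff.fderiv_apply (n := ∞) (m := ∞) (f := fun p : ℝ × EE n => f p.1)
    (g := fun p : ℝ × EE n => p.2) (k := fun p : ℝ × EE n => act A p.2) ?_ ?_ ?_ ?_
  · exact hf.comp ((contDiff_fst.comp contDiff_fst).prodMk contDiff_snd)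
  · exact contDiff_snd
  · exact (act A).contDiff.comp contDiff_snd
  · simp

private theorem Tab_one_le : 1 ≤ n := Nat.one_le_iff_ne_zero.2 (NeZero.ne n)

private theorem Tab_LX2_joint {m : EE n → ℝ} (hm : ContDiff ℝ ∞ m) (A B : Mt n) :
    ContDiff ℝ ∞ (fun p : ℝ × EE n => LX A (LX B (Pt p.1 m)) p.2) :=
  Tab_joint (f := fun s => LX B (Pt s m)) (Tab_joint (f := fun s => Pt s m) (Pt_joint hm) B) A

private theorem Tab_LX2_cont {m : EE n → ℝ} (hm : ContDiff ℝ ∞ m) (A B : Mt n) (z : EE n) :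
    Continuous (fun s => LX A (LX B (Pt s m)) z) := by
  have h := (Tab_LX2_joint hm A B).continuous
  have h2 : Continuous (fun s : ℝ => ((s, z) : ℝ × EE n)) :=
    Continuous.prodMk continuous_id continuous_const
  exact Continuous.comp (g := fun p : ℝ × EE n => LX A (LX B (Pt p.1 m)) p.2)
    (f := fun s : ℝ => ((s, z) : ℝ × EE n)) h h2

private theorem Tab_LX2_tau {m : EE n → ℝ} (hm : ContDiff ℝ ∞ m) (A B : Mt n) (z : EE n) :
    LX A (LX B (tau m)) z = ∫ s in (0)..1, wf n s * LX A (LX B (Pt s m)) z := by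
  have h1 : LX B (tau m) = fun v => ∫ s in (0)..1, wf n s * LX B (Pt s m) v := by
    funext v
    exact LX_tau hm B v
  have h2 := par_interval_fderiv (f := fun s v => LX B (Pt s m) v)
    (Tab_joint (f := fun s => Pt s m) (Pt_joint hm) B) (wf_cont n Tab_one_le) z (act A z)
  rw [h1]
  show - (fderiv ℝ (fun v => ∫ s in (0)..1, wf n s * LX B (Pt s m) v) z (act A z)) = _
  rw [h2, ← intervalIntegral.integral_neg]
  refine intervalIntegral.integral_congr fun s _ => ?_
  show -(wf n s * fderiv ℝ (LX B (Pt s m)) z (act A z))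
    = wf n s * -(fderiv ℝ (LX B (Pt s m)) z (act A z))
  ring

theorem Lap_Pt_cont {m : EE n → ℝ} (hm : ContDiff ℝ ∞ m) (z : EE n) :
    Continuous (fun s => Lap (Pt s m) z) := by
  unfold Lap
  refine continuous_finsetSum _ fun i _ => ?_
  exact Tab_LX2_cont hm (Xm (bs i)) (Xm (bs i)) z

theorem Lap_tau_int {m : EE n → ℝ} (hm : ContDiff ℝ ∞ m) (z : EE n) :
    Lap (tau m) z = ∫ s in (0)..1, wf n s * Lap (Pt s m) z := by
  have h0 : Lap (tau m) z
      = ∑ i : Fin n × Fin 4, ∫ s in (0)..1, wf n s * Dp (bs i) (Dp (bs i) (Pt s m)) z := by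
    unfold Lap
    refine Finset.sum_congr rfl fun i _ => ?_
    exact Tab_LX2_tau hm (Xm (bs i)) (Xm (bs i)) z
  rw [h0, ← intervalIntegral.integral_finsetSum]
  · refine intervalIntegral.integral_congr fun s _ => ?_
    show ∑ i : Fin n × Fin 4, wf n s * Dp (bs i) (Dp (bs i) (Pt s m)) z
      = wf n s * ∑ i : Fin n × Fin 4, Dp (bs i) (Dp (bs i) (Pt s m)) z
    rw [Finset.mul_sum]
  · intro i _
    refine ContinuousOn.intervalIntegrable ?_
    rw [Set.uIcc_of_le zero_le_one]
    exact (wf_cont n Tab_one_le).mul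
      (Tab_LX2_cont hm (Xm (bs i)) (Xm (bs i)) z).continuousOn

theorem tau_lap {m : EE n → ℝ} (hm : Kn m) (z : EE n) :
    Lap (tau m) z = Pt 1 m z - m z := by
  have hs : ContDiff ℝ ∞ m := hm.smooth
  have hs1 : ContDiff ℝ ∞ (Dp (bs (ih n)) m) := Dp_contDiff hs _
  have h1 : ∀ t, HasDerivAt (fun s => Pt s m z) (Pt t (Dp (bs (ih n)) m) z) t :=
    fun t => Pt_hasDerivAt hs z t
  have h2 : ∀ t, HasDerivAt (fun s => Pt s (Dp (bs (ih n)) m) z)
      (Pt t (Dp (bs (ih n)) (Dp (bs (ih n)) m)) z) t := fun t => Pt_hasDerivAt hs1 z t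
  have c1 : Continuous (fun s => Pt s m z) :=
    continuous_iff_continuousAt.2 fun t => (h1 t).continuousAt
  have c2 : Continuous (fun s => Pt s (Dp (bs (ih n)) m) z) :=
    continuous_iff_continuousAt.2 fun t => (h2 t).continuousAt
  have hw := wf_cont n Tab_one_le
  rw [Lap_tau_int hs z]
  have key := intervalIntegral.integral_eq_sub_of_hasDerivAt_of_le (a := (0 : ℝ)) (b := 1)
    (f := fun s => wf n s * Pt s (Dp (bs (ih n)) m) z + Pt s m z)
    (f' := fun s => wf n s * Lap (Pt s m) z) zero_le_one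
    ((hw.mul c2.continuousOn).add c1.continuousOn) ?_ ?_
  · rw [key]
    simp only [wf_one, wf_zero, zero_mul, zero_add]
    rw [Pt_zero hm z]
  · intro s hs'
    have h3 := ((wf_deriv n Tab_one_le hs'.1 hs'.2).mul (h2 s)).add (h1 s)
    refine h3.congr_deriv ?_
    rw [dar hm hs'.1 z]
    ring
  · refine ContinuousOn.intervalIntegrable ?_
    rw [Set.uIcc_of_le zero_le_one]
    exact hw.mul (Lap_Pt_cont hs z).continuousOn

end SPN

end
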