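import Pool.Agent.SPN.Rhoo
import Pool.Agent.SPN.Tab
import Pool.Agent.SPN.Lpk

/-! # Module Mnn (difficulty 3): the kernels `m_k`

`sgk_kn`: induction (`Function.iterate_succ_apply'`, `Pt_kn`, `sig_kn`). `sgk_int`: `∫ kr (sgk k) = ∫ kr sig` (`kr_Pt`,
`Pk_integral`). `mE_kn`: `tau_kn`, `Kn.sum`, `Kn.cmul`. `kr_mE`: `kr (tau (sgk j)) = Pk_1^[j] (kr (tau sig))` by induction
(`tau_comm` with `m = sgk j`), and `rk j (rho) = cc⁻¹ • Pk_1^[j] (kr (tau sig))` (`Pk_cmul`, induction).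
`lap_mE`: `Lap` is linear on smooth functions (`LX_sum`, `LX_cmul`; `funext`), `tau_lap` for `sgk j`
(`Pt 1 (sgk j) = sgk (j+1)`), telescoping (`Finset.sum_range_sub`), `sgk 0 = sig`.
`lap_mE_int`: `|..| ≤ cc⁻¹ (kr (sgk k) + kr sig)`, both nonnegative with integral `∫ kr sig`. -/

open MeasureTheory Matrix
open scoped ContDiff

noncomputable section

namespace SPN

variable {n : ℕ} [NeZero n]

private theorem Mnn_sgk_zero : sgk n 0 = sig := rfl

private theorem Mnn_sgk_succ (k : ℕ) : sgk n (k + 1) = Pt 1 (sgk n k) := by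
  unfold sgk
  rw [Function.iterate_succ_apply']

theorem sgk_kn (k : ℕ) : Kn (sgk n k) := by
  induction k with
  | zero => rw [Mnn_sgk_zero]; exact sig_kn
  | succ k ih => rw [Mnn_sgk_succ]; exact Pt_kn ih 1

theorem sgk_nonneg (k : ℕ) (z : EE n) : 0 ≤ sgk n k z := by
  induction k generalizing z with
  | zero => rw [Mnn_sgk_zero]; exact sig_nonneg z
  | succ k ih => rw [Mnn_sgk_succ]; exact Pt_nonneg ih 1 z

theorem sgk_int (k : ℕ) : ∫ g, kr (sgk n k) g ∂(mu n) = ∫ g, kr (sig : EE n → ℝ) g ∂(mu n) := by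
  induction k with
  | zero => rw [Mnn_sgk_zero]
  | succ k ih =>
    rw [Mnn_sgk_succ, kr_Pt, Pk_integral (kp_kap n) (isCompact_KK n) (sgk_kn k).bk, ih]

theorem mE_kn (k : ℕ) : Kn (mE n k) :=
  Kn.cmul (Kn.sum (Finset.range k) fun j _ => tau_kn (sgk_kn j)) (cc n)⁻¹

theorem mE_nonneg (k : ℕ) (z : EE n) : 0 ≤ mE n k z := by
  unfold mE
  exact mul_nonneg (inv_nonneg.2 cc_pos.le)
    (Finset.sum_nonneg fun j _ => tau_nonneg (sgk_nonneg j) z)

private theorem Mnn_rk (j : ℕ) (g : GG n) :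
    rk (KK n) (kap n) (hy (ih n) 1) (rho n) j g = (cc n)⁻¹ * kr (tau (sgk n j)) g := by
  induction j generalizing g with
  | zero => rfl
  | succ j ih =>
    rw [rk_succ, Mnn_sgk_succ, tau_comm (sgk_kn j), ← Pk_cmul]
    congr 1
    funext h
    exact ih h

theorem kr_mE (k : ℕ) : kr (mE n k) = mk (KK n) (kap n) (hy (ih n) 1) (rho n) k := by
  funext g
  have h1 : mk (KK n) (kap n) (hy (ih n) 1) (rho n) k g
      = ∑ j ∈ Finset.range k, (cc n)⁻¹ * kr (tau (sgk n j)) g :=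
    Finset.sum_congr rfl fun j _ => Mnn_rk j g
  rw [h1, ← Finset.mul_sum]
  rfl

private theorem Mnn_Dp_cmul {m : EE n → ℝ} (hm : ContDiff ℝ ∞ m) (r : ℝ) (p : PP n) :
    Dp p (fun z => r * m z) = fun z => r * Dp p m z := by
  funext z
  exact LX_cmul hm r _ z

private theorem Mnn_Dp_sum {ι : Type*} (s : Finset ι) {m : ι → EE n → ℝ}
    (hm : ∀ i ∈ s, ContDiff ℝ ∞ (m i)) (p : PP n) :
    Dp p (fun z => ∑ i ∈ s, m i z) = fun z => ∑ i ∈ s, Dp p (m i) z := by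
  funext z
  exact LX_sum s hm _ z

private theorem Mnn_Lap_cmul {m : EE n → ℝ} (hm : ContDiff ℝ ∞ m) (r : ℝ) (z : EE n) :
    Lap (fun z => r * m z) z = r * Lap m z := by
  unfold Lap
  rw [Finset.mul_sum]
  refine Finset.sum_congr rfl fun i _ => ?_
  rw [Mnn_Dp_cmul hm, Mnn_Dp_cmul (Dp_contDiff hm _)]

private theorem Mnn_Lap_sum {ι : Type*} (s : Finset ι) {m : ι → EE n → ℝ}
    (hm : ∀ i ∈ s, ContDiff ℝ ∞ (m i)) (z : EE n) :
    Lap (fun z => ∑ i ∈ s, m i z) z = ∑ i ∈ s, Lap (m i) z := by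
  unfold Lap
  rw [Finset.sum_comm]
  refine Finset.sum_congr rfl fun i _ => ?_
  rw [Mnn_Dp_sum s hm, Mnn_Dp_sum s fun j hj => Dp_contDiff (hm j hj) _]

theorem lap_mE (k : ℕ) (z : EE n) : Lap (mE n k) z = (cc n)⁻¹ * (sgk n k z - sig z) := by
  have h1 : mE n k = fun z => (cc n)⁻¹ * (fun z => ∑ j ∈ Finset.range k, tau (sgk n j) z) z := rfl
  have h2 : ∀ j ∈ Finset.range k, ContDiff ℝ ∞ (tau (sgk n j)) := fun j _ =>
    tau_contDiff (sgk_kn j).smooth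
  have h3 : ContDiff ℝ ∞ (fun z : EE n => ∑ j ∈ Finset.range k, tau (sgk n j) z) :=
    ContDiff.sum h2
  rw [h1, Mnn_Lap_cmul h3, Mnn_Lap_sum _ h2]
  congr 1
  have h4 : ∀ j ∈ Finset.range k, Lap (tau (sgk n j)) z = sgk n (j + 1) z - sgk n j z := by
    intro j _
    rw [tau_lap (sgk_kn j), Mnn_sgk_succ]
  rw [Finset.sum_congr rfl h4, Finset.sum_range_sub (fun j => sgk n j z), Mnn_sgk_zero]

theorem lap_mE_int (k : ℕ) : ∫ g, |kr (Lap (mE n k)) g| ∂(mu n)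
    ≤ 2 * ((cc n)⁻¹ * ∫ g, kr (sig : EE n → ℝ) g ∂(mu n)) := by
  have hc : 0 ≤ (cc n)⁻¹ := inv_nonneg.2 cc_pos.le
  have h1 : ∀ g, |kr (Lap (mE n k)) g| ≤ (cc n)⁻¹ * (kr (sgk n k) g + kr (sig : EE n → ℝ) g) := by
    intro g
    have e : kr (Lap (mE n k)) g = (cc n)⁻¹ * (kr (sgk n k) g - kr (sig : EE n → ℝ) g) :=
      lap_mE k _
    have a1 : 0 ≤ kr (sgk n k) g := sgk_nonneg k _
    have a2 : 0 ≤ kr (sig : EE n → ℝ) g := sig_nonneg _
    rw [e, abs_mul, abs_of_nonneg hc]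
    refine mul_le_mul_of_nonneg_left ?_ hc
    rw [abs_le]
    constructor <;> linarith
  have i1 : Integrable (kr (sgk n k)) (mu n) := kr_integrable (sgk_kn k).toSm
  have i2 : Integrable (kr (sig : EE n → ℝ)) (mu n) := kr_integrable sig_kn.toSm
  have i3 : Integrable (kr (Lap (mE n k))) (mu n) := kr_integrable (mE_kn k).lap.toSm
  calc ∫ g, |kr (Lap (mE n k)) g| ∂(mu n)
      ≤ ∫ g, (cc n)⁻¹ * (kr (sgk n k) g + kr (sig : EE n → ℝ) g) ∂(mu n) :=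
        integral_mono i3.abs ((i1.add i2).const_mul _) h1
    _ = (cc n)⁻¹ * (∫ g, kr (sgk n k) g ∂(mu n) + ∫ g, kr (sig : EE n → ℝ) g ∂(mu n)) := by
        rw [integral_const_mul, integral_add i1 i2]
    _ = 2 * ((cc n)⁻¹ * ∫ g, kr (sig : EE n → ℝ) g ∂(mu n)) := by
        rw [sgk_int]; ring

end SPN

end
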