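import Pool.Agent.SPN.Ifc

/-! Project SPN, module NodF: the facts about a node with at least six children, relative to pins. -/

set_option autoImplicit false

namespace Pool.Agent.SPN

open Pool.Agent.SOC Pool.Agent.SOD Pool.Agent.SOS Pool.Agent.SOP Pool.Agent.SOE Pool.Agent.SOV Pool.Agent.SOF Pool.Agent.SOT Pool.Agent.SOK Pool.Agent.SOZ Pool.Agent.SOY Pool.Agent.SON Pool.Agent.SPE Pool.Agent.SPT

variable {M : Mat} {pn : Prs} {s : List (Fin M.length)}

private theorem NodF_base (hs : EWP (graphOf M) (PS M pn) s) (h4 : 4 ≤ M.length) {I : Ivl}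
    (hI : Nod s.length (strLP (M, pn) (s.map Fin.val)) I) :
    (s.map Fin.val).length = s.length ∧ s.length = M.length ∧ Lam s.length (strLP (M, pn) (s.map Fin.val)) ∧
      1 ≤ I.1 ∧ I.1 < I.2 ∧ I.2 ≤ s.length := by
  have hse := hs.ewo.enum
  have hlen : (s.map Fin.val).length = s.length := List.length_map _
  have hF : Lam s.length (strLP (M, pn) (s.map Fin.val)) := by
    have h := strLP_lam (M := M) (pn := pn) (s.map Fin.val)
    rwa [hlen] at h
  have hsl : s.length = M.length := prt_len hse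
  refine ⟨hlen, hsl, hF, ?_⟩
  rcases hI with h | h
  · exact ⟨hF.lo I h, by have := hF.len I h; omega, hF.hi I h⟩
  · rw [h]
    exact ⟨le_rfl, by show 1 < s.length; omega, le_rfl⟩

private theorem NodF_mem (hs : IsEnum s) (K : Ivl) (v : Fin M.length) :
    v.val ∈ seg (s.map Fin.val) K ↔ K.1 ≤ s.idxOf v ∧ s.idxOf v < K.2 := by
  rw [prt_seg]
  have h1 : (s.map Fin.val)[s.idxOf v]? = some v.val := by
    rw [List.getElem?_map, List.getElem?_idxOf (hs.2 v)]
    rfl
  constructor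
  · rintro ⟨i, h2, h3, h4⟩
    have := prt_pos (prt_nod hs) h1 h4
    omega
  · rintro ⟨h2, h3⟩
    exact ⟨_, h2, h3, h1⟩

private theorem NodF_lt (_hs : IsEnum s) {K : Ivl} {x : ℕ} (hx : x ∈ seg (s.map Fin.val) K) : x < M.length := by
  obtain ⟨i, -, -, h⟩ := prt_seg.1 hx
  have h1 : x ∈ s.map Fin.val := List.mem_iff_getElem?.2 ⟨i, h⟩
  obtain ⟨v, -, rfl⟩ := List.mem_map.1 h1
  exact v.2

theorem kid_epp (hG : PrimeG (graphOf M)) (hc : PinC (graphOf M) (PS M pn)) (hs : EWP (graphOf M) (PS M pn) s) (hp : PinOk M.length pn) (h4 : 4 ≤ M.length) {I K : Ivl}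
    (hI : Nod s.length (strLP (M, pn) (s.map Fin.val)) I) (hK : K ∈ kids s.length (strLP (M, pn) (s.map Fin.val)) I) :
    EPP (graphOf M) (PS M pn) (setW M (seg (s.map Fin.val) K)) := by
  obtain ⟨hlen, hsl, hF, hI1, hI2, hI3⟩ := NodF_base hs h4 hI
  obtain ⟨h1, h2, h3, h5⟩ := kids_mem hF hI2 hI3 hK
  rcases h1 with h1 | ⟨h1, -⟩
  · have hk1 : K.1 < s.length := by omega
    refine nodeP_single (w := s[K.1]) ?_
    intro u hu
    have h6 := (NodF_mem hs.ewo.enum K u).1 hu
    have h7 : s.idxOf u = K.1 := by omega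
    have h8 := List.getElem_idxOf (List.idxOf_lt_length_of_mem (hs.ewo.enum.2 u))
    rw [← h8]
    congr 1
  · exact (strp_str hG hc hs hp h1).epp

theorem nod_epp (hG : PrimeG (graphOf M)) (hc : PinC (graphOf M) (PS M pn)) (hs : EWP (graphOf M) (PS M pn) s) (hp : PinOk M.length pn) (h4 : 4 ≤ M.length) {I : Ivl}
    (hI : Nod s.length (strLP (M, pn) (s.map Fin.val)) I) : EPP (graphOf M) (PS M pn) (setW M (seg (s.map Fin.val) I)) := by
  obtain ⟨hlen, hsl, hF, hI1, hI2, hI3⟩ := NodF_base hs h4 hI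
  rcases hI with h | h
  · exact (strp_str hG hc hs hp h).epp
  · have h0 : 0 < s.length := by omega
    rw [← compl_compl (setW M (seg (s.map Fin.val) I))]
    refine (nodeP_single (w := s[0]) ?_).compl
    intro u hu
    have h6 : ¬ (I.1 ≤ s.idxOf u ∧ s.idxOf u < I.2) := fun h' => hu ((NodF_mem hs.ewo.enum I u).2 h')
    have h8 := List.getElem_idxOf (List.idxOf_lt_length_of_mem (hs.ewo.enum.2 u))
    have h9 := List.idxOf_lt_length_of_mem (hs.ewo.enum.2 u)
    have h10 : s.idxOf u = 0 := by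
      rw [h] at h6
      by_contra hne
      exact h6 ⟨Nat.one_le_iff_ne_zero.2 hne, h9⟩
    rw [← h8]
    congr 1

private theorem NodF_zipLast : ∀ L : List ℕ, 2 ≤ L.length → ((L.zip L.tail).getLastD (0, 0)).2 = L.getLastD 0
  | [], h => by simp at h
  | [_], h => by simp at h
  | [a, b], _ => rfl
  | a :: b :: c :: L, _ => by
    have h := NodF_zipLast (b :: c :: L) (by simp)
    have e : (a :: b :: c :: L).zip (a :: b :: c :: L).tail = (a, b) :: (b :: c :: L).zip (b :: c :: L).tail := rfl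
    have e2 : (b :: c :: L).zip (b :: c :: L).tail = (b, c) :: (c :: L).zip (c :: L).tail := rfl
    rw [e, e2]
    rw [e2] at h
    simp only [List.getLastD_cons] at h ⊢
    exact h

private theorem NodF_zipHead : ∀ L : List ℕ, 2 ≤ L.length → ((L.zip L.tail).headD (0, 0)).1 = L.headD 0
  | [], h => by simp at h
  | [_], h => by simp at h
  | a :: b :: L, _ => rfl

private theorem NodF_sLast : ∀ (L : List ℕ), L.Pairwise (· < ·) → ∀ b ∈ L, (∀ x ∈ L, x ≤ b) → L.getLastD 0 = b
  | [], _, b, hb, _ => absurd hb List.not_mem_nil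
  | [a], _, b, hb, _ => (List.mem_singleton.1 hb).symm
  | a :: c :: L, hL, b, hb, hm => by
    rw [List.getLastD_cons, List.getLastD_cons]
    have hL' := List.pairwise_cons.1 hL
    have h1 := NodF_sLast (c :: L) hL'.2 b ?_ (fun x hx => hm x (List.mem_cons_of_mem _ hx))
    · rw [List.getLastD_cons] at h1
      exact h1
    · rcases List.mem_cons.1 hb with rfl | h
      · have h1 := hL'.1 c List.mem_cons_self
        have h2 := hm c (List.mem_cons_of_mem _ List.mem_cons_self)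
        omega
      · exact h

private theorem NodF_sHead : ∀ (L : List ℕ), L.Pairwise (· < ·) → ∀ b ∈ L, (∀ x ∈ L, b ≤ x) → L.headD 0 = b
  | [], _, b, hb, _ => absurd hb List.not_mem_nil
  | a :: L, hL, b, hb, hm => by
    rcases List.mem_cons.1 hb with rfl | h
    · rfl
    · have h1 := (List.pairwise_cons.1 hL).1 b h
      have h2 := hm a List.mem_cons_self
      omega

private theorem NodF_two {L : List ℕ} {a b : ℕ} (ha : a ∈ L) (hb : b ∈ L) (h : a ≠ b) : 2 ≤ L.length := by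
  rcases L with _ | ⟨c, _ | ⟨d, L⟩⟩
  · cases ha
  · rw [List.mem_singleton] at ha hb
    exact absurd (ha.trans hb.symm) h
  · simp

private theorem NodF_out (s0 : Ord) {n : ℕ} {F : List Ivl} {I : Ivl} (h : I.1 < I.2) (hn : I.2 ≤ n) :
    outO s0 (kids n F I) = s0.drop I.2 ++ s0.take I.1 := by
  have hl := kid_lo (F := F) h hn
  have hh := kid_hi (F := F) h hn
  have hs := kid_sorted n F I
  have h2 : 2 ≤ (bds n F I).length := NodF_two hl hh h.ne
  unfold outO kids
  rw [NodF_zipLast _ h2, NodF_zipHead _ h2, NodF_sLast _ hs _ hh (fun x hx => (kid_mem.1 hx).2.2.1),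
    NodF_sHead _ hs _ hl (fun x hx => (kid_mem.1 hx).2.1)]

private theorem NodF_seg (s0 : Ord) {I : Ivl} (h : I.1 ≤ I.2) :
    (seg s0 I ++ (s0.drop I.2 ++ s0.take I.1)).Perm s0 := by
  unfold seg
  have e2 : s0.drop I.2 = (s0.drop I.1).drop (I.2 - I.1) := by
    rw [List.drop_drop]
    congr 1
    omega
  rw [e2, ← List.append_assoc, List.take_append_drop]
  refine List.perm_append_comm.trans ?_
  rw [List.take_append_drop]

private theorem NodF_nt {X Y : Ord} (hXr : ∀ x ∈ X, x < M.length) (hYr : ∀ y ∈ Y, y < M.length) (hXn : X.Nodup) (hYn : Y.Nodup)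
    (hX : 2 ≤ X.length) (hY : 2 ≤ Y.length) (hd : ∀ x ∈ X, x ∉ Y) : Nontriv (setW M X) := by
  have key : ∀ Z : Ord, Z.Nodup → 2 ≤ Z.length → ∃ a ∈ Z, ∃ b ∈ Z, a ≠ b := by
    intro Z h1 h2
    match Z, h1, h2 with
    | a :: b :: Z, h1, _ =>
      refine ⟨a, by simp, b, by simp, ?_⟩
      intro e
      rw [List.nodup_cons] at h1
      exact h1.1 (by rw [e]; simp)
  obtain ⟨a, ha, b, hb, hab⟩ := key X hXn hX
  obtain ⟨c, hc, d, hdd, hcd⟩ := key Y hYn hY
  refine ⟨⟨⟨a, hXr a ha⟩, ha, ⟨b, hXr b hb⟩, hb, fun e => hab (congrArg Fin.val e)⟩, ⟨c, hYr c hc⟩, fun k => hd c k hc, ⟨d, hYr d hdd⟩,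
    fun k => hd d k hdd, fun e => hcd (congrArg Fin.val e)⟩

private theorem NodF_bic {X Y : Ord} (hk : NoK6P4 (graphOf M)) (hXr : ∀ x ∈ X, x < M.length) (hYr : ∀ y ∈ Y, y < M.length)
    (hXn : X.Nodup) (hYn : Y.Nodup)
    (hX : EPP (graphOf M) (PS M pn) (setW M X)) (hY : EPP (graphOf M) (PS M pn) (setW M Y)) (hd : ∀ x ∈ X, x ∉ Y)
    (hU : ¬ EPP (graphOf M) (PS M pn) (setW M X ∪ setW M Y)) : Bic (gN M) X Y := by
  by_cases h1 : X.length ≤ 1
  · intro a ha a' ha' b hb b' hb' h h'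
    have e : a = a' := by
      match X, h1 with
      | [], _ => exact absurd ha List.not_mem_nil
      | [c], _ => rw [List.mem_singleton] at ha ha'; exact ha.trans ha'.symm
    rw [e]
    exact h'
  by_cases h2 : Y.length ≤ 1
  · intro a ha a' ha' b hb b' hb' h h'
    have e : b = b' := by
      match Y, h2 with
      | [], _ => exact absurd hb List.not_mem_nil
      | [c], _ => rw [List.mem_singleton] at hb hb'; exact hb.trans hb'.symm
    rw [← e]
    exact h
  have n1 := NodF_nt hXr hYr hXn hYn (by omega) (by omega) hd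
  have n2 := NodF_nt hYr hXr hYn hXn (by omega) (by omega) (fun y h k => hd y k h)
  have hU' : ¬ EPC (graphOf M) (setW M X ∪ setW M Y) := by
    intro hE
    refine hU ⟨hE, ?_⟩
    rintro S ⟨z, a, k1, k2, rfl⟩
    have e1 := (nc_pair n1).1 (hX.pin _ ⟨z, a, k1, k2, rfl⟩)
    have e2 := (nc_pair n2).1 (hY.pin _ ⟨z, a, k1, k2, rfl⟩)
    have e3 : z ∈ setW M X ∪ setW M Y ↔ a ∈ setW M X ∪ setW M Y := by
      rw [Set.mem_union, Set.mem_union, e1, e2]
    rintro ⟨⟨p, p1, p2⟩, -, ⟨q, q1, q2⟩, -⟩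
    rcases p2 with rfl | rfl <;> rcases q2 with rfl | rfl
    · exact q1 p1
    · exact q1 (e3.1 p1)
    · exact q1 (e3.2 p1)
    · exact q1 p1
  intro a ha a' ha' b hb b' hb' h h'
  have hdj : Disjoint (setW M X) (setW M Y) := Set.disjoint_left.2 fun u h1 h2 => hd _ h1 h2
  exact SOZ.biclique (x := (⟨a, hXr a ha⟩ : Fin M.length)) (x' := ⟨a', hXr a' ha'⟩) (y := ⟨b, hYr b hb⟩) (y' := ⟨b', hYr b' hb'⟩)
    hX.epc hY.epc hdj hk hU' ha ha' hb hb' h h'

theorem nds_of_vop (hG : PrimeG (graphOf M)) (hc : PinC (graphOf M) (PS M pn)) (hs : EWP (graphOf M) (PS M pn) s) (hp : PinOk M.length pn) (h4 : 4 ≤ M.length) (hk : NoK6P4 (graphOf M))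
    {I : Ivl} (hI : Nod s.length (strLP (M, pn) (s.map Fin.val)) I) (h6 : 6 ≤ (kids s.length (strLP (M, pn) (s.map Fin.val)) I).length)
    {Ls : List Ord} {R : Ord} (hL : List.Forall₂ (fun L K => L.Perm (seg (s.map Fin.val) K)) Ls (kids s.length (strLP (M, pn) (s.map Fin.val)) I))
    (hVP : VOP M pn (Ls.flatten ++ R)) :
    NdS M ((kids s.length (strLP (M, pn) (s.map Fin.val)) I).map (seg (s.map Fin.val)))
        (outO (s.map Fin.val) (kids s.length (strLP (M, pn) (s.map Fin.val)) I)) ∧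
      R.Perm (outO (s.map Fin.val) (kids s.length (strLP (M, pn) (s.map Fin.val)) I)) := by
  have hV := hVP.1
  obtain ⟨hlen, hsl, hF, hI1, hI2, hI3⟩ := NodF_base hs h4 hI
  have hse := hs.ewo.enum
  have hnode : NodeP (graphOf M) (PS M pn) (prt M (s.map Fin.val) (strLP (M, pn) (s.map Fin.val)) I) := prt_nodeP hG hc hs hp h4 hI
  have hpi : ∀ K ∈ kids s.length (strLP (M, pn) (s.map Fin.val)) I, ∀ u v : Fin M.length, v.val ∈ seg (s.map Fin.val) K →
      (prt M (s.map Fin.val) (strLP (M, pn) (s.map Fin.val)) I u = prt M (s.map Fin.val) (strLP (M, pn) (s.map Fin.val)) I v ↔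
        u.val ∈ seg (s.map Fin.val) K) := by
    intro K hK u v hv
    rw [← hlen] at hK
    exact prt_in (prt_nod hse) hK hv
  have hkm : ∀ K ∈ kids s.length (strLP (M, pn) (s.map Fin.val)) I, I.1 ≤ K.1 ∧ K.1 < K.2 ∧ K.2 ≤ I.2 := by
    intro K hK
    obtain ⟨-, h1, h2, h3⟩ := kids_mem hF hI2 hI3 hK
    exact ⟨h1, h2, h3⟩
  have hsort := kids_sort s.length (strLP (M, pn) (s.map Fin.val)) I
  have hnd := kids_nodup s.length (strLP (M, pn) (s.map Fin.val)) I
  have hflat : ((kids s.length (strLP (M, pn) (s.map Fin.val)) I).map (seg (s.map Fin.val))).flatten = seg (s.map Fin.val) I :=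
    kids_flat _ hF hI2 hI3
  have hout : outO (s.map Fin.val) (kids s.length (strLP (M, pn) (s.map Fin.val)) I) = (s.map Fin.val).drop I.2 ++ (s.map Fin.val).take I.1 :=
    NodF_out _ hI2 hI3
  have hkE : ∀ K ∈ kids s.length (strLP (M, pn) (s.map Fin.val)) I, EPP (graphOf M) (PS M pn) (setW M (seg (s.map Fin.val) K)) :=
    fun K hK => kid_epp hG hc hs hp h4 hI hK
  have hIE := nod_epp hG hc hs hp h4 hI
  have hsp : (s.map Fin.val).Perm (List.range M.length) := by
    refine (List.perm_ext_iff_of_nodup (prt_nod hse) List.nodup_range).2 ?_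
    intro x
    rw [List.mem_map, List.mem_range]
    exact ⟨fun ⟨v, _, e⟩ => e ▸ v.2, fun h => ⟨⟨x, h⟩, hse.2 _, rfl⟩⟩
  have hPO : (seg (s.map Fin.val) I ++ outO (s.map Fin.val) (kids s.length (strLP (M, pn) (s.map Fin.val)) I)).Perm (List.range M.length) := by
    rw [hout]
    exact (NodF_seg _ hI2.le).trans hsp
  generalize hOe : outO (s.map Fin.val) (kids s.length (strLP (M, pn) (s.map Fin.val)) I) = O at hPO ⊢
  generalize hπe : prt M (s.map Fin.val) (strLP (M, pn) (s.map Fin.val)) I = π at hnode hpi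
  generalize hkse : kids s.length (strLP (M, pn) (s.map Fin.val)) I = ks at *
  -- the kids are disjoint
  have hcmp : ∀ A ∈ ks, ∀ B ∈ ks, A ≠ B → A.2 ≤ B.1 ∨ B.2 ≤ A.1 := by
    intro A hA B hB hAB
    have hs3 : ks.Pairwise (fun K K' => K.2 ≤ K'.1 ∨ K'.2 ≤ K.1) := hsort.1.imp (fun h => Or.inl h)
    have hsy : Std.Symm (fun K K' : Ivl => K.2 ≤ K'.1 ∨ K'.2 ≤ K.1) := ⟨fun a b hab => Or.symm hab⟩
    exact hs3.forall hA hB hAB
  have hdis : ∀ A ∈ ks, ∀ B ∈ ks, A ≠ B → ∀ y ∈ seg (s.map Fin.val) A, y ∉ seg (s.map Fin.val) B := by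
    intro A hA B hB hAB y hyA hyB
    have h1 := (NodF_mem hse A ⟨y, NodF_lt hse hyA⟩).1 hyA
    have h2 := (NodF_mem hse B ⟨y, NodF_lt hse hyA⟩).1 hyB
    have := hcmp A hA B hB hAB
    omega
  have h0 : 0 < s.length := by omega
  obtain ⟨v₀, hv0⟩ : ∃ v₀, s.idxOf v₀ = 0 := ⟨s[0], List.Nodup.idxOf_getElem hse.1 0 h0⟩
  obtain ⟨x, hx⟩ : ∃ x : Ivl → Fin M.length, ∀ K ∈ ks, s.idxOf (x K) = K.1 := by
    refine ⟨fun K => if h : K.1 < s.length then s[K.1] else v₀, fun K hK => ?_⟩
    obtain ⟨h1, h2, h3⟩ := hkm K hK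
    have h4 : K.1 < s.length := by omega
    simp only [h4, dif_pos]
    exact List.Nodup.idxOf_getElem hse.1 K.1 h4
  have hxs : ∀ K ∈ ks, (x K).val ∈ seg (s.map Fin.val) K := by
    intro K hK
    rw [NodF_mem hse, hx K hK]
    exact ⟨le_rfl, (hkm K hK).2.1⟩
  have hkI : ∀ K ∈ ks, ∀ y ∈ seg (s.map Fin.val) K, y ∈ seg (s.map Fin.val) I := by
    intro K hK y hy
    rw [← hflat]
    exact List.mem_flatten.2 ⟨_, List.mem_map_of_mem hK, hy⟩
  have hv0I : v₀.val ∉ seg (s.map Fin.val) I := by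
    intro h
    rw [NodF_mem hse, hv0] at h
    omega
  have hv0s : ∀ K ∈ ks, v₀.val ∉ seg (s.map Fin.val) K := fun K hK h => hv0I (hkI K hK _ h)
  have hπx : ∀ A ∈ ks, ∀ B ∈ ks, A ≠ B → π (x A) ≠ π (x B) := by
    intro A hA B hB hAB h
    exact hdis A hA B hB hAB _ (hxs A hA) ((hpi B hB _ _ (hxs B hB)).1 h)
  have hπ0 : ∀ A ∈ ks, π v₀ ≠ π (x A) := by
    intro A hA h
    exact hv0s A hA ((hpi A hA _ _ (hxs A hA)).1 h)
  obtain ⟨v, hv⟩ : ∃ v : Fin 7 → Fin M.length, ∀ i j, i ≠ j → π (v i) ≠ π (v j) := by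
    refine ⟨fun i => if i.val = 0 then v₀ else x (ks.getD (i.val - 1) (0, 0)), ?_⟩
    have hgd : ∀ i : Fin 7, i.val ≠ 0 → ks.getD (i.val - 1) (0, 0) ∈ ks := by
      intro i hi
      have h1 : i.val - 1 < ks.length := by have := i.2; omega
      rw [List.getD_eq_getElem _ _ h1]
      exact List.getElem_mem h1
    intro i j hij
    by_cases hi : i.val = 0
    · have hj : j.val ≠ 0 := fun hj => hij (Fin.ext (hi.trans hj.symm))
      simp only [hi, hj, if_true, if_false]
      exact hπ0 _ (hgd j hj)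
    · by_cases hj : j.val = 0
      · simp only [hi, hj, if_true, if_false]
        exact (hπ0 _ (hgd i hi)).symm
      · simp only [hi, hj, if_false]
        refine hπx _ (hgd i hi) _ (hgd j hj) ?_
        have h1 : i.val - 1 < ks.length := by have := i.2; omega
        have h2 : j.val - 1 < ks.length := by have := j.2; omega
        rw [List.getD_eq_getElem _ _ h1, List.getD_eq_getElem _ _ h2]
        intro h
        have h3 := (List.Nodup.getElem_inj_iff hnd).1 h
        apply hij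
        apply Fin.ext
        omega
  -- two other kids
  have htwo : ∀ K K' : Ivl, ∃ A ∈ ks, ∃ B ∈ ks, A ≠ B ∧ A ≠ K ∧ A ≠ K' ∧ B ≠ K ∧ B ≠ K' := by
    intro K K'
    have h1 : ks.toFinset.card = ks.length := List.toFinset_card_of_nodup hnd
    have h2 : 1 < ((ks.toFinset.erase K).erase K').card := by
      have h3 := Finset.pred_card_le_card_erase (s := ks.toFinset) (a := K)
      have h5 := Finset.pred_card_le_card_erase (s := ks.toFinset.erase K) (a := K')
      omega
    obtain ⟨A, hA, B, hB, hAB⟩ := Finset.one_lt_card.1 h2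
    rw [Finset.mem_erase, Finset.mem_erase, List.mem_toFinset] at hA hB
    exact ⟨A, hA.2.2, B, hB.2.2, hAB, hA.2.1, hA.1, hB.2.1, hB.1⟩
  have hrig : ∀ X : Set (Fin M.length), EPP (graphOf M) (PS M pn) X → (∃ a b, a ∈ X ∧ b ∈ X ∧ π a ≠ π b) →
      (∃ a b, a ∉ X ∧ b ∉ X ∧ π a ≠ π b) → False := by
    obtain ⟨⟨s₁, hs1, hse1, T, hT⟩, hpv⟩ := hVP
    intro X hX h2 h2'
    exact node_rigidP hG hc hse1 hT (vop_ci hse1 (pn := pn) (by rw [hs1]; exact hpv)) hnode hv hX h2 h2'
  -- the outer part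
  have hnod2 : (seg (s.map Fin.val) I ++ O).Nodup := hPO.nodup_iff.2 List.nodup_range
  have hOI : ∀ y ∈ O, y ∉ seg (s.map Fin.val) I := by
    intro y hy hy'
    exact (List.nodup_append.1 hnod2).2.2 y hy' y hy rfl
  have hOn : O.Nodup := (List.nodup_append.1 hnod2).2.1
  have hsn : ∀ K : Ivl, (seg (s.map Fin.val) K).Nodup := fun K =>
    ((List.take_sublist _ _).trans (List.drop_sublist _ _)).nodup (prt_nod hse)
  have hOr : ∀ y ∈ O, y < M.length := by
    intro y hy
    exact List.mem_range.1 (hPO.mem_iff.1 (List.mem_append.2 (Or.inr hy)))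
  have hOm : ∀ u : Fin M.length, u.val ∈ O ↔ u.val ∉ seg (s.map Fin.val) I := by
    intro u
    refine ⟨hOI _, fun h => ?_⟩
    have h1 := hPO.mem_iff.2 (List.mem_range.2 u.2)
    exact (List.mem_append.1 h1).resolve_left h
  have hOset : setW M O = (setW M (seg (s.map Fin.val) I))ᶜ := by
    ext u
    exact hOm u
  have hOE : EPP (graphOf M) (PS M pn) (setW M O) := by
    rw [hOset]
    exact hIE.compl
  have hv0O : v₀.val ∈ O := (hOm v₀).2 hv0I
  -- Ls and the parts
  have hL2 : List.Forall₂ (fun L P => List.Perm L P) Ls (ks.map (seg (s.map Fin.val))) :=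
    List.forall₂_map_right_iff.2 hL
  have hflp : ∀ {X Y : List Ord}, List.Forall₂ (fun L P => List.Perm L P) X Y → X.flatten.Perm Y.flatten := by
    intro X Y h
    induction h with
    | nil => exact List.Perm.refl _
    | cons h1 _ ih =>
      rw [List.flatten_cons, List.flatten_cons]
      exact h1.append ih
  have hRO : R.Perm O := by
    have h1 : (Ls.flatten ++ R).Perm (seg (s.map Fin.val) I ++ O) := (vo_perm hV).trans hPO.symm
    have h2 : Ls.flatten.Perm (seg (s.map Fin.val) I) := by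
      rw [← hflat]
      exact hflp hL2
    exact (List.perm_append_left_iff _).1 ((h2.symm.append_right R).trans h1)
  have hpart : ∀ A P D, ks.map (seg (s.map Fin.val)) = A ++ P :: D → ∃ (L Y : Ord) (K : Ivl), K ∈ ks ∧ P = seg (s.map Fin.val) K ∧
      L.Perm P ∧ (D.flatten ++ (O ++ A.flatten)).Perm Y ∧ VO M (L ++ Y) := by
    intro A P D hPs
    have h1 := hL2
    rw [hPs] at h1
    have h2 := List.forall₂_take_append _ _ _ h1
    have h3 := List.forall₂_drop_append _ _ _ h1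
    have h5 : Ls = Ls.take A.length ++ Ls.drop A.length := (List.take_append_drop _ _).symm
    generalize Ls.take A.length = A' at h2 h5
    generalize Ls.drop A.length = B' at h3 h5
    cases h3 with
    | @cons L _ D' _ h6 h7 =>
      have hPm : P ∈ ks.map (seg (s.map Fin.val)) := by
        rw [hPs]
        simp
      obtain ⟨K, hK, rfl⟩ := List.mem_map.1 hPm
      refine ⟨L, D'.flatten ++ (R ++ A'.flatten), K, hK, rfl, h6, ?_, ?_⟩
      · exact (hflp h7).symm.append (hRO.symm.append (hflp h2).symm)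
      · have h8 := hV
        rw [h5, List.flatten_append, List.flatten_cons, List.append_assoc] at h8
        have h9 := vo_rot h8
        rw [List.append_assoc, List.append_assoc] at h9
        exact h9
  have hrest : ∀ (K : Ivl) (L Y : Ord), K ∈ ks → L.Perm (seg (s.map Fin.val) K) → VO M (L ++ Y) → 2 ≤ Y.length := by
    intro K L Y hK hLK hVV
    obtain ⟨A, hA, B, hB, hAB, hAK, -, hBK, -⟩ := htwo K K
    have hin : ∀ C ∈ ks, C ≠ K → (x C).val ∈ Y := by
      intro C hC hCK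
      have h1 := (vo_perm hVV).mem_iff.2 (List.mem_range.2 (x C).2)
      refine (List.mem_append.1 h1).resolve_left ?_
      intro h2
      exact hdis C hC K hK hCK _ (hxs C hC) (hLK.mem_iff.1 h2)
    refine NodF_two (hin A hA hAK) (hin B hB hBK) ?_
    intro h
    exact hdis A hA B hB hAB _ (hxs A hA) (h ▸ hxs B hB)
  refine ⟨⟨?_, ?_, ?_, ?_, ?_⟩, hRO⟩
  · rw [hflat]
    exact hPO
  · intro P hP
    obtain ⟨K, hK, rfl⟩ := List.mem_map.1 hP
    exact List.ne_nil_of_mem (hxs K hK)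
  · rw [List.pairwise_cons]
    constructor
    · intro P hP
      obtain ⟨K, hK, rfl⟩ := List.mem_map.1 hP
      refine NodF_bic hk hOr (fun y hy => NodF_lt hse hy) hOn (hsn K) hOE (hkE K hK) (fun y hy hy' => hOI y hy (hkI K hK y hy')) ?_
      intro hU
      obtain ⟨A, hA, B, hB, hAB, hAK, -, hBK, -⟩ := htwo K K
      have hno : ∀ C ∈ ks, C ≠ K → x C ∉ setW M O ∪ setW M (seg (s.map Fin.val) K) := by
        rintro C hC hCK (h1 | h1)
        · exact hOI _ h1 (hkI C hC _ (hxs C hC))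
        · exact hdis C hC K hK hCK _ (hxs C hC) h1
      exact hrig _ hU ⟨v₀, x K, Or.inl hv0O, Or.inr (hxs K hK), hπ0 K hK⟩
        ⟨x A, x B, hno A hA hAK, hno B hB hBK, hπx A hA B hB hAB⟩
    · rw [List.pairwise_map]
      refine hsort.1.imp_of_mem ?_
      intro K K' hK hK' hKK
      have hne : K ≠ K' := by
        rintro rfl
        have := hsort.2 K hK
        omega
      refine NodF_bic hk (fun y hy => NodF_lt hse hy) (fun y hy => NodF_lt hse hy) (hsn K) (hsn K') (hkE K hK) (hkE K' hK')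
        (hdis K hK K' hK' hne) ?_
      intro hU
      obtain ⟨A, hA, B, hB, hAB, hAK, hAK', hBK, hBK'⟩ := htwo K K'
      have hno : ∀ C ∈ ks, C ≠ K → C ≠ K' → x C ∉ setW M (seg (s.map Fin.val) K) ∪ setW M (seg (s.map Fin.val) K') := by
        rintro C hC hCK hCK' (h1 | h1)
        · exact hdis C hC K hK hCK _ (hxs C hC) h1
        · exact hdis C hC K' hK' hCK' _ (hxs C hC) h1
      exact hrig _ hU ⟨x K, x K', Or.inl (hxs K hK), Or.inr (hxs K' hK'), hπx K hK K' hK' hne⟩
        ⟨x A, x B, hno A hA hAK hAK', hno B hB hBK hBK', hπx A hA B hB hAB⟩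
  · intro A P D hPs h2
    obtain ⟨L, Y, K, hK, hPK, hLP, hY, hVV⟩ := hpart A P D hPs
    subst hPK
    have hset : setW M L = setW M (seg (s.map Fin.val) K) := by
      ext u
      exact hLP.mem_iff
    have hE : EPC (graphOf M) (setW M L) := by
      rw [hset]
      exact (hkE K hK).epc
    refine stl_perm (st_of_vo hG hk hE ?_ (hrest K L Y hK hLP hVV) hVV) hLP.symm hY
    rw [hLP.length_eq]
    exact h2
  · intro A P D hPs
    obtain ⟨L, Y, K, hK, hPK, hLP, hY, hVV⟩ := hpart A P D hPs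
    subst hPK
    have hL0 : L ≠ [] := List.ne_nil_of_mem (hLP.mem_iff.2 (hxs K hK))
    have hY0 : Y ≠ [] := by
      rintro rfl
      have := hrest K L [] hK hLP hVV
      simp at this
    obtain ⟨y, hy, hyL⟩ := con_of_vo hG hL0 hY0 hVV
    refine ⟨y, hY.mem_iff.2 hy, ?_⟩
    unfold attB at hyL ⊢
    rw [List.any_eq_true] at hyL ⊢
    obtain ⟨b, hb, hyb⟩ := hyL
    exact ⟨b, hLP.mem_iff.1 hb, hyb⟩

end Pool.Agent.SPN
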