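import Pool.Agent.SPN.Fun

/-! # Module PdA (difficulty 3): projections of discrete subgroups of products

`Γ` is a discrete subgroup of `G × H`, `U` a compact subgroup of `H`, `pu Γ U` the projection to `G` of
`{γ ∈ Γ | γ.2 ∈ U}`.
`fin_inter`: for a compact set `C ⊆ G` the set `Γ ∩ (C × U)` is finite: `Γ` is closed (discrete subgroup of a
Hausdorff group, `Subgroup.isClosed_of_discrete`), so this set is compact and discrete.
`pu_discrete`: take a compact neighbourhood `C` of `1` in `G`; the projection meets `C` in a finite set, so `1` is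
isolated (`T2`), and the projection is a discrete subgroup (`discreteTopology_of_isOpen_singleton_one` or similar).
`ker_finite`: `C = {1}`. -/

open MeasureTheory

namespace SPN

variable {G H : Type*} [Group G] [TopologicalSpace G] [IsTopologicalGroup G] [T2Space G]
  [LocallyCompactSpace G] [Group H] [TopologicalSpace H] [IsTopologicalGroup H] [T2Space H]

/-- `{γ ∈ Γ | γ.2 ∈ U}` -/
def gu (Γ : Subgroup (G × H)) (U : Subgroup H) : Subgroup (G × H) :=
  Γ ⊓ Subgroup.comap (MonoidHom.snd G H) U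

/-- its projection to `G` -/
def pu (Γ : Subgroup (G × H)) (U : Subgroup H) : Subgroup G :=
  (gu Γ U).map (MonoidHom.fst G H)

theorem mem_gu {Γ : Subgroup (G × H)} {U : Subgroup H} {g : G × H} :
    g ∈ gu Γ U ↔ g ∈ Γ ∧ g.2 ∈ U := Iff.rfl

theorem fin_inter {Γ : Subgroup (G × H)} [DiscreteTopology Γ] {U : Subgroup H}
    (hU : IsCompact (U : Set H)) {C : Set G} (hC : IsCompact C) :
    {g : G × H | g ∈ Γ ∧ g.1 ∈ C ∧ g.2 ∈ U}.Finite := by
  have e : {g : G × H | g ∈ Γ ∧ g.1 ∈ C ∧ g.2 ∈ U} = (C ×ˢ (U : Set H)) ∩ (Γ : Set (G × H)) := by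
    ext g
    simp only [Set.mem_setOf_eq, Set.mem_inter_iff, Set.mem_prod, SetLike.mem_coe]
    tauto
  rw [e]
  have hcl : IsClosed (Γ : Set (G × H)) := Subgroup.isClosed_of_discrete
  have hcp : IsCompact ((C ×ˢ (U : Set H)) ∩ (Γ : Set (G × H))) := (hC.prod hU).inter_right hcl
  have hd : DiscreteTopology ((C ×ˢ (U : Set H)) ∩ (Γ : Set (G × H)) : Set (G × H)) :=
    DiscreteTopology.of_subset (s := (Γ : Set (G × H))) inferInstance Set.inter_subset_right
  exact hcp.finite ⟨hd⟩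

theorem pu_discrete {Γ : Subgroup (G × H)} [DiscreteTopology Γ] {U : Subgroup H}
    (hU : IsCompact (U : Set H)) : DiscreteTopology (pu Γ U) := by
  obtain ⟨C, hC, hC1⟩ := exists_compact_mem_nhds (1 : G)
  have hF : {x : G | x ∈ pu Γ U ∧ x ∈ C}.Finite := by
    refine ((fin_inter (Γ := Γ) hU hC).image Prod.fst).subset ?_
    rintro x ⟨hx, hxC⟩
    obtain ⟨g, hg, rfl⟩ := Subgroup.mem_map.mp hx
    obtain ⟨hg1, hg2⟩ := mem_gu.mp hg
    exact ⟨g, ⟨hg1, hxC, hg2⟩, rfl⟩
  have hF' : IsClosed ({x : G | x ∈ pu Γ U ∧ x ∈ C} \ {1}) := (hF.subset Set.diff_subset).isClosed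
  refine discreteTopology_of_isOpen_singleton_one ?_
  have ho : IsOpen (interior C ∩ ({x : G | x ∈ pu Γ U ∧ x ∈ C} \ {1})ᶜ) :=
    isOpen_interior.inter hF'.isOpen_compl
  have e : ({1} : Set (pu Γ U)) = (Subtype.val : pu Γ U → G) ⁻¹'
      (interior C ∩ ({x : G | x ∈ pu Γ U ∧ x ∈ C} \ {1})ᶜ) := by
    ext x
    simp only [Set.mem_singleton_iff, Set.mem_preimage, Set.mem_inter_iff, Set.mem_compl_iff,
      Set.mem_diff, Set.mem_setOf_eq]
    constructor
    · rintro rfl
      exact ⟨mem_interior_iff_mem_nhds.mpr hC1, fun h => h.2 rfl⟩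
    · rintro ⟨h1, h2⟩
      by_contra hx
      refine h2 ⟨⟨x.2, interior_subset h1⟩, fun h => hx (Subtype.ext h)⟩
  rw [e]
  exact ho.preimage continuous_subtype_val

theorem ker_finite {Γ : Subgroup (G × H)} [DiscreteTopology Γ] {U : Subgroup H}
    (hU : IsCompact (U : Set H)) : {g : G × H | g ∈ Γ ∧ g.1 = 1 ∧ g.2 ∈ U}.Finite := by
  have h := fin_inter (Γ := Γ) hU (isCompact_singleton (x := (1 : G)))
  simpa using h

end SPN
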