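import Pool.Agent.SPN.PdA

/-! # Module PdB (difficulty 4): finite covolume of the projection

`pu Γ U` is discrete (`pu_discrete`), so `exists_pi` gives `π' : G → pu Γ U`; let `D' = π' ⁻¹' {1}`, `D = π ⁻¹' {1}`,
`F = {g ∈ Γ | g.1 = 1, g.2 ∈ U}` (finite, `ker_finite`, `c = card F`). Claim:
`(μ.prod ν) (D' ×ˢ U) ≤ c * (μ.prod ν) D < ⊤`. Indeed `D' ×ˢ U` is the disjoint union over `γ : Γ` (countable, `hD.cnt`) of its
intersections with `π ⁻¹' {γ} = γ D`, so by left invariance its measure is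
`∑_γ (μ.prod ν) (D ∩ {v | γ v ∈ D' ×ˢ U}) = ∫⁻_{v ∈ D} card {γ : Γ | γ v ∈ D' ×ˢ U}`, and for every `v` this set of `γ` has at most `c`
elements: if `γ v` and `γ₂ v` are in `D' ×ˢ U` then `δ = γ₂ γ⁻¹` maps a point of `D' ×ˢ U` to a point of `D' ×ˢ U`, so
`δ.2 ∈ U`, `δ.1 ∈ pu Γ U` and `δ.1 D' ∩ D' ≠ ∅`, so `δ.1 = 1` (equivariance of `π'`) and `δ ∈ F`.
Since `(μ.prod ν) (D' ×ˢ U) = μ D' * ν U` (`Measure.prod_prod`) and `ν U > 0` (`U` is open and nonempty), `μ D' < ⊤`.
Countability of `pu Γ U`: image of the countable `Γ`. The product measure is left invariant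
(`Measure.prod.instIsMulLeftInvariant`). -/

open MeasureTheory

namespace SPN

variable {G H : Type*} [Group G] [TopologicalSpace G] [IsTopologicalGroup G] [T2Space G]
  [LocallyCompactSpace G] [SecondCountableTopology G] [MeasurableSpace G] [BorelSpace G]
  [Group H] [TopologicalSpace H] [IsTopologicalGroup H] [T2Space H]
  [LocallyCompactSpace H] [SecondCountableTopology H] [MeasurableSpace H] [BorelSpace H]

theorem pu_Dm {μ : Measure G} {ν : Measure H} [μ.IsMulLeftInvariant] [SigmaFinite μ]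
    [ν.IsMulLeftInvariant] [SigmaFinite ν] [ν.IsOpenPosMeasure]
    {Γ : Subgroup (G × H)} [DiscreteTopology Γ] {π : G × H → Γ} (hD : Dm (μ.prod ν) Γ π)
    {U : Subgroup H} (hc : IsCompact (U : Set H)) (ho : IsOpen (U : Set H)) :
    ∃ π' : G → pu Γ U, Dm μ (pu Γ U) π' := by
  classical
  have hdis : DiscreteTopology (pu Γ U) := pu_discrete hc
  obtain ⟨π', hmeas, heq⟩ := exists_pi (pu Γ U)
  have hcnt : Countable Γ := hD.cnt
  have hcnt' : Countable (pu Γ U) := by
    have h1 : ((pu Γ U : Subgroup G) : Set G) ⊆ Set.range (fun g : Γ => (g : G × H).1) := by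
      rintro x ⟨g, hg, rfl⟩
      exact ⟨⟨g, (mem_gu.1 hg).1⟩, rfl⟩
    exact ((Set.countable_range _).mono h1).to_subtype
  refine ⟨π', hcnt', hmeas, heq, ?_⟩
  set D' : Set G := π' ⁻¹' {1} with hD'
  set S : Set (G × H) := D' ×ˢ (U : Set H) with hS
  have hSm : MeasurableSet S := (hmeas 1).prod ho.measurableSet
  have hF := ker_finite (Γ := Γ) hc
  set F : Finset (G × H) := hF.toFinset with hFdef
  have hmemF : ∀ g : G × H, g ∈ F ↔ g ∈ Γ ∧ g.1 = 1 ∧ g.2 ∈ U := fun g => by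
    rw [hFdef, Set.Finite.mem_toFinset]; rfl
  have hfund : π ⁻¹' {1} = D0 π := rfl
  have hDm : MeasurableSet (π ⁻¹' {1}) := hD.meas 1
  -- the elements moving a point of `S` to a point of `S`
  have hkey : ∀ (v : G × H) (γ γ₀ : Γ), (γ : G × H) * v ∈ S → (γ₀ : G × H) * v ∈ S →
      (γ : G × H) * (γ₀ : G × H)⁻¹ ∈ F := by
    intro v γ γ₀ h1 h2
    rw [hmemF]
    have h3 : ((γ : G × H) * (γ₀ : G × H)⁻¹).2 ∈ U := by
      have h4 : ((γ : G × H) * (γ₀ : G × H)⁻¹).2
          = ((γ : G × H) * v).2 * (((γ₀ : G × H) * v).2)⁻¹ := by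
        simp only [Prod.snd_mul, Prod.snd_inv, mul_inv_rev]
        group
      rw [h4]
      exact U.mul_mem h1.2 (U.inv_mem h2.2)
    have h5 : (γ : G × H) * (γ₀ : G × H)⁻¹ ∈ Γ := Γ.mul_mem γ.2 (Γ.inv_mem γ₀.2)
    refine ⟨h5, ?_, h3⟩
    have h6 : ((γ : G × H) * (γ₀ : G × H)⁻¹).1 ∈ pu Γ U := ⟨_, mem_gu.2 ⟨h5, h3⟩, rfl⟩
    have h7 : ((γ : G × H) * v).1
        = ((γ : G × H) * (γ₀ : G × H)⁻¹).1 * ((γ₀ : G × H) * v).1 := by
      simp only [Prod.fst_mul, Prod.fst_inv]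
      group
    have h8 := heq ⟨_, h6⟩ ((γ₀ : G × H) * v).1
    have h9 : π' ((γ : G × H) * v).1 = 1 := h1.1
    have h10 : π' ((γ₀ : G × H) * v).1 = 1 := h2.1
    rw [h10, mul_one] at h8
    change π' (((γ : G × H) * (γ₀ : G × H)⁻¹).1 * ((γ₀ : G × H) * v).1) = _ at h8
    rw [← h7, h9] at h8
    exact (congrArg Subtype.val h8).symm
  have hbound : ∀ v : G × H, ∑' γ : Γ, S.indicator (1 : G × H → ENNReal) ((γ : G × H) * v)
      ≤ F.card := by
    intro v
    by_cases hex : ∃ γ₀ : Γ, (γ₀ : G × H) * v ∈ S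
    · obtain ⟨γ₀, h0⟩ := hex
      have hinj : Set.InjOn (fun γ : Γ => (γ : G × H) * (γ₀ : G × H)⁻¹) Set.univ := by
        intro a _ b _ hab
        exact Subtype.ext (mul_right_cancel hab)
      set A : Finset Γ := F.preimage (fun γ : Γ => (γ : G × H) * (γ₀ : G × H)⁻¹)
        (hinj.mono (Set.subset_univ _)) with hA
      have h1 : ∀ γ : Γ, γ ∉ A → S.indicator (1 : G × H → ENNReal) ((γ : G × H) * v) = 0 := by
        intro γ hγ
        refine Set.indicator_of_notMem (fun h2 => hγ ?_) _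
        rw [hA, Finset.mem_preimage]
        exact hkey v γ γ₀ h2 h0
      rw [tsum_eq_sum h1]
      calc ∑ γ ∈ A, S.indicator (1 : G × H → ENNReal) ((γ : G × H) * v)
          ≤ ∑ γ ∈ A, (1 : ENNReal) := Finset.sum_le_sum fun γ _ =>
            Set.indicator_le_self' (fun _ _ => zero_le) _
        _ = A.card := by simp
        _ ≤ F.card := by
          have h2 : A.card ≤ F.card := by
            have h3 : (A.image (fun γ : Γ => (γ : G × H) * (γ₀ : G × H)⁻¹)).card = A.card :=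
              Finset.card_image_of_injOn (hinj.mono (Set.subset_univ _))
            rw [← h3]
            refine Finset.card_le_card ?_
            intro x hx
            obtain ⟨γ, hγ, rfl⟩ := Finset.mem_image.1 hx
            rw [hA, Finset.mem_preimage] at hγ
            exact hγ
          exact_mod_cast h2
    · push Not at hex
      have h1 : ∀ γ : Γ, S.indicator (1 : G × H → ENNReal) ((γ : G × H) * v) = 0 :=
        fun γ => Set.indicator_of_notMem (hex γ) _
      simp [h1]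
  have hmain : (μ.prod ν) S ≤ F.card * (μ.prod ν) (π ⁻¹' {1}) := by
    have h1 : S = ⋃ γ : Γ, S ∩ π ⁻¹' {γ} := by
      ext v
      simp only [Set.mem_iUnion, Set.mem_inter_iff, Set.mem_preimage, Set.mem_singleton_iff]
      exact ⟨fun h => ⟨π v, h, rfl⟩, fun ⟨_, h, _⟩ => h⟩
    have h2 : (μ.prod ν) S ≤ ∑' γ : Γ, (μ.prod ν) (S ∩ π ⁻¹' {γ}) := by
      conv_lhs => rw [h1]
      exact measure_iUnion_le _
    have h3 : ∀ γ : Γ, (μ.prod ν) (S ∩ π ⁻¹' {γ})
        = ∫⁻ v in π ⁻¹' {1}, S.indicator (1 : G × H → ENNReal) ((γ : G × H) * v) ∂(μ.prod ν) := by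
      intro γ
      have h4 : (μ.prod ν) ((fun v => (γ : G × H) * v) ⁻¹' (S ∩ π ⁻¹' {γ}))
          = (μ.prod ν) (S ∩ π ⁻¹' {γ}) := measure_preimage_mul _ _ _
      rw [← h4]
      have h5 : (fun v => (γ : G × H) * v) ⁻¹' (S ∩ π ⁻¹' {γ})
          = ((fun v => (γ : G × H) * v) ⁻¹' S) ∩ π ⁻¹' {1} := by
        ext v
        simp only [Set.mem_preimage, Set.mem_inter_iff, Set.mem_singleton_iff, hD.equiv,
          mul_eq_left]
      have h6 : MeasurableSet ((fun v => (γ : G × H) * v) ⁻¹' S) :=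
        hSm.preimage (measurable_const_mul _)
      rw [h5, ← Measure.restrict_apply h6, ← lintegral_indicator_one h6]
      rfl
    calc (μ.prod ν) S ≤ ∑' γ : Γ, (μ.prod ν) (S ∩ π ⁻¹' {γ}) := h2
      _ = ∑' γ : Γ, ∫⁻ v in π ⁻¹' {1}, S.indicator (1 : G × H → ENNReal) ((γ : G × H) * v)
            ∂(μ.prod ν) := by simp_rw [h3]
      _ = ∫⁻ v in π ⁻¹' {1}, ∑' γ : Γ, S.indicator (1 : G × H → ENNReal) ((γ : G × H) * v)
            ∂(μ.prod ν) := by
          rw [lintegral_tsum]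
          intro γ
          exact ((measurable_one.indicator hSm).comp (measurable_const_mul _)).aemeasurable
      _ ≤ ∫⁻ _ in π ⁻¹' {1}, (F.card : ENNReal) ∂(μ.prod ν) := lintegral_mono hbound
      _ = F.card * (μ.prod ν) (π ⁻¹' {1}) := by
          rw [lintegral_const, Measure.restrict_apply MeasurableSet.univ, Set.univ_inter]
  have hlt : (μ.prod ν) S < ⊤ :=
    hmain.trans_lt (ENNReal.mul_lt_top (ENNReal.natCast_lt_top _) hD.fin)
  rw [hS, Measure.prod_prod] at hlt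
  have hU : ν (U : Set H) ≠ 0 := (ho.measure_pos ν ⟨1, U.one_mem⟩).ne'
  exact ENNReal.lt_top_of_mul_ne_top_left hlt.ne hU


end SPN
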