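import Pool.Agent.SPN.PdB
import Pool.Agent.SPN.PdC
import Pool.Agent.SPN.Fix

/-! # Module PdD (difficulty 3): lattices in `Sp(n,1) × H`, `H` totally disconnected

`gu_trivial`. PROOF. `pu_Dm` gives `Dm (mu n) (pu Γ U) π'`. Let `p : gu Γ U →* pu Γ U` be the projection (surjective). Its
kernel consists of elements `g ∈ Γ` with `g.1 = 1`, `g.2 ∈ U`: a finite group (`ker_finite`), so `ψ` is trivial on
`K ∩ ker p` (`order_torsion`). `K' = K.map p` has finite index in `pu Γ U` (`Subgroup.FiniteIndex` of the image under a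
surjective map), and `ψ` factors through `K → K'` (`ψ' (p k) = ψ k`; well defined since `ψ` is trivial on the kernel):
`spn_finiteIndex` gives `ψ' = 1`, so `ψ = 1`.
`prod_trivial`: apply `dense_gen` with `N` = the elements of `Γ` acting trivially (as a subgroup of `G × H`:
`(ψ.ker).map Γ.subtype`); `hN` by `gu_trivial` with `K = ⊤` applied to `ψ` restricted to `gu Γ U ≤ Γ`. -/

open MeasureTheory

namespace SPN

variable {H : Type*} [Group H] [TopologicalSpace H] [IsTopologicalGroup H] [T2Space H]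
  [LocallyCompactSpace H] [SecondCountableTopology H] [MeasurableSpace H] [BorelSpace H]

theorem gu_trivial {n : ℕ} (hn : 2 ≤ n) {ν : Measure H} [ν.IsHaarMeasure]
    {Γ : Subgroup (GG n × H)} [DiscreteTopology Γ] {π : GG n × H → Γ}
    (hD : Dm ((mu n).prod ν) Γ π) {U : Subgroup H} (hc : IsCompact (U : Set H))
    (ho : IsOpen (U : Set H)) (K : Subgroup (gu Γ U)) (hK : K.FiniteIndex)
    {X : Type*} [LinearOrder X] (ψ : K →* (X ≃o X)) : ψ = 1 := by
  obtain ⟨π', hD'⟩ := pu_Dm hD hc ho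
  let p : gu Γ U →* pu Γ U := (MonoidHom.fst (GG n) H).subgroupMap (gu Γ U)
  have hp : Function.Surjective p := MonoidHom.subgroupMap_surjective _ _
  have hK' : (K.map p).FiniteIndex :=
    ⟨fun h0 => hK.index_ne_zero (Nat.eq_zero_of_zero_dvd (h0 ▸ K.index_map_dvd hp))⟩
  let r : K →* K.map p := p.subgroupMap K
  have hr : Function.Surjective r := MonoidHom.subgroupMap_surjective _ _
  have hker : r.ker ≤ ψ.ker := by
    intro k hk
    have h1 : ((k : gu Γ U) : GG n × H).1 = 1 :=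
      congrArg (fun z : K.map p => ((z : pu Γ U) : GG n)) (MonoidHom.mem_ker.1 hk)
    have h2 : IsOfFinOrder ((k : gu Γ U) : GG n × H) := by
      refine finite_powers.1 ((ker_finite (Γ := Γ) hc).subset ?_)
      rintro _ ⟨m, rfl⟩
      refine ⟨Γ.pow_mem (mem_gu.1 (k : gu Γ U).2).1 m, ?_, ?_⟩
      · change ((k : gu Γ U) : GG n × H).1 ^ m = 1
        rw [h1, one_pow]
      · exact U.pow_mem (mem_gu.1 (k : gu Γ U).2).2 m
    obtain ⟨m, hm, h3⟩ := isOfFinOrder_iff_pow_eq_one.1 h2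
    have h4 : k ^ m = 1 := Subtype.ext (Subtype.ext h3)
    refine MonoidHom.mem_ker.2 (order_torsion (ψ k) hm ?_)
    rw [← map_pow, h4, map_one]
  let ψ' : K.map p →* (X ≃o X) := r.liftOfSurjective hr ⟨ψ, hker⟩
  have h5 : ψ' = 1 := spn_finiteIndex hn hD' (K.map p) hK' ψ'
  ext k x
  have h6 : ψ' (r k) = ψ k :=
    r.liftOfRightInverse_comp_apply _ (Function.rightInverse_surjInv hr) ⟨ψ, hker⟩ k
  rw [← h6, h5]
  rfl

theorem prod_trivial {n : ℕ} (hn : 2 ≤ n) {ν : Measure H} [ν.IsHaarMeasure]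
    {Γ : Subgroup (GG n × H)} [DiscreteTopology Γ] {π : GG n × H → Γ}
    (hD : Dm ((mu n).prod ν) Γ π) (hd : Dense {h : H | ∃ g ∈ Γ, g.2 = h})
    (hgen : Subgroup.closure {h : H | ∃ U : Subgroup H, IsCompact (U : Set H) ∧
      IsOpen (U : Set H) ∧ h ∈ U} = ⊤)
    {X : Type*} [LinearOrder X] (ψ : Γ →* (X ≃o X)) : ψ = 1 := by
  have hN : Γ ≤ (ψ.ker).map Γ.subtype := by
    refine dense_gen (fun U hc ho g hg hgU => ?_) hd hgen
    let i : gu Γ U →* Γ := Subgroup.inclusion inf_le_left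
    have h1 := gu_trivial hn hD hc ho (⊤ : Subgroup (gu Γ U)) inferInstance
      ((ψ.comp i).comp (⊤ : Subgroup (gu Γ U)).subtype)
    have h2 := DFunLike.congr_fun h1 ⟨⟨g, mem_gu.2 ⟨hg, hgU⟩⟩, Subgroup.mem_top _⟩
    exact ⟨⟨g, hg⟩, MonoidHom.mem_ker.2 h2, rfl⟩
  ext γ x
  obtain ⟨γ', h1, h2⟩ := hN γ.2
  have h3 : γ' = γ := Subtype.ext h2
  rw [← h3, MonoidHom.mem_ker.1 h1]
  rfl

end SPN
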