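import Pool.Agent.SPN.PdD

/-! # finite index subgroups of lattices in `Sp(n,1) × H` -/

open MeasureTheory

namespace SPN

section

variable {G H : Type*} [Group G] [Group H] [TopologicalSpace H] [IsTopologicalGroup H]

theorem dense_finiteIndex {Γ : Subgroup (G × H)} (hd : Dense {h : H | ∃ g ∈ Γ, g.2 = h})
    (hfi : ∀ V : Subgroup H, IsOpen (V : Set H) → V.FiniteIndex → V = ⊤)
    (K : Subgroup Γ) (hK : K.FiniteIndex) :
    Dense {h : H | ∃ g ∈ K.map Γ.subtype, g.2 = h} := by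
  classical
  set P : Subgroup H := (K.map Γ.subtype).map (MonoidHom.snd G H) with hP
  set V : Subgroup H := P.topologicalClosure with hV
  have hVc : IsClosed (V : Set H) := P.isClosed_topologicalClosure
  have hPV : P ≤ V := P.le_topologicalClosure
  have hfin : Finite (Γ ⧸ K) := Subgroup.finite_quotient_of_finiteIndex
  -- the finitely many cosets
  have hcov : ∀ h : H, ∃ c : Γ ⧸ K, ((c.out : Γ) : G × H).2⁻¹ * h ∈ V := by
    intro h
    have h1 : IsClosed (⋃ c : Γ ⧸ K, {h : H | ((c.out : Γ) : G × H).2⁻¹ * h ∈ V}) := by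
      refine isClosed_iUnion_of_finite fun c => ?_
      exact hVc.preimage (continuous_const.mul continuous_id)
    have h2 : {h : H | ∃ g ∈ Γ, g.2 = h} ⊆
        ⋃ c : Γ ⧸ K, {h : H | ((c.out : Γ) : G × H).2⁻¹ * h ∈ V} := by
      rintro _ ⟨g, hg, rfl⟩
      refine Set.mem_iUnion.2 ⟨QuotientGroup.mk (⟨g, hg⟩ : Γ), ?_⟩
      have h3 : ((QuotientGroup.mk (⟨g, hg⟩ : Γ) : Γ ⧸ K).out)⁻¹ * ⟨g, hg⟩ ∈ K := by
        rw [← QuotientGroup.eq]
        exact Quotient.out_eq _
      apply hPV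
      exact ⟨_, ⟨_, h3, rfl⟩, rfl⟩
    have h4 := h1.closure_subset_iff.2 h2
    rw [hd.closure_eq] at h4
    exact Set.mem_iUnion.1 (h4 (Set.mem_univ h))
  have hVfi : V.FiniteIndex := by
    have h5 : Finite (H ⧸ V) := by
      refine Finite.of_surjective (fun c : Γ ⧸ K =>
        (QuotientGroup.mk ((c.out : Γ) : G × H).2 : H ⧸ V)) ?_
      intro x
      obtain ⟨h, rfl⟩ := QuotientGroup.mk_surjective x
      obtain ⟨c, hc⟩ := hcov h
      exact ⟨c, QuotientGroup.eq.2 hc⟩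
    exact Subgroup.finiteIndex_of_finite_quotient
  have hVo : IsOpen (V : Set H) := V.isOpen_of_isClosed_of_finiteIndex hVc
  have hVt := hfi V hVo hVfi
  have h6 : {h : H | ∃ g ∈ K.map Γ.subtype, g.2 = h} = (P : Set H) := by
    ext h
    constructor
    · rintro ⟨g, hg, rfl⟩
      exact ⟨g, hg, rfl⟩
    · rintro ⟨g, hg, rfl⟩
      exact ⟨g, hg, rfl⟩
  rw [h6]
  intro x
  have h7 : x ∈ V := by rw [hVt]; exact Subgroup.mem_top x
  exact h7

end

variable {H : Type*} [Group H] [TopologicalSpace H] [IsTopologicalGroup H] [T2Space H]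
  [LocallyCompactSpace H] [SecondCountableTopology H] [MeasurableSpace H] [BorelSpace H]

theorem prod_finiteIndex {n : ℕ} (hn : 2 ≤ n) {ν : Measure H} [ν.IsHaarMeasure]
    {Γ : Subgroup (GG n × H)} [hdis : DiscreteTopology Γ] {π : GG n × H → Γ}
    (hD : Dm ((mu n).prod ν) Γ π) (hd : Dense {h : H | ∃ g ∈ Γ, g.2 = h})
    (hgen : Subgroup.closure {h : H | ∃ U : Subgroup H, IsCompact (U : Set H) ∧
      IsOpen (U : Set H) ∧ h ∈ U} = ⊤)
    (hfi : ∀ V : Subgroup H, IsOpen (V : Set H) → V.FiniteIndex → V = ⊤)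
    (K : Subgroup Γ) (hK : K.FiniteIndex)
    {X : Type*} [LinearOrder X] (ψ : K →* (X ≃o X)) : ψ = 1 := by
  obtain ⟨π', hD'⟩ := Dm_finiteIndex hD K hK
  let e : K ≃* K.map Γ.subtype := K.equivMapOfInjective Γ.subtype Γ.subtype_injective
  have hsub : ((K.map Γ.subtype : Subgroup (GG n × H)) : Set (GG n × H)) ⊆ Γ := by
    rintro _ ⟨g, _, rfl⟩
    exact g.2
  have hdis' : DiscreteTopology (K.map Γ.subtype) :=
    DiscreteTopology.of_subset (s := (Γ : Set (GG n × H))) hdis hsub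
  have h := prod_trivial hn hD' (dense_finiteIndex hd hfi K hK) hgen
    (ψ.comp e.symm.toMonoidHom)
  ext k x
  have h2 := DFunLike.congr_fun h (e k)
  simp only [MonoidHom.comp_apply, MulEquiv.toMonoidHom_eq_coe, MonoidHom.coe_coe,
    MulEquiv.symm_apply_apply, MonoidHom.one_apply] at h2
  rw [h2]
  rfl

end SPN
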