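import Pool.Agent.SPN.Ab

/-! # Module Pvb (difficulty 3): the Markov operator `Pv` on functions

`Pv K κ x f v = ∫_K f(v k x) dk`, `κ` a probability measure. For `f` bounded and measurable the function
`k ↦ f(v k x)` is bounded and measurable, hence integrable; `(v, k) ↦ f(v k x)` is measurable, so
`v ↦ Pv f v` is measurable (`StronglyMeasurable.integral_prod_right'`). Everything else is linearity and
monotonicity. `Pv_rightK`: left invariance of `κ`. The statements on iterates: induction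
(`Function.iterate_succ_apply'`). `Gf.pv`: pointwise in `γ`; invariance: `(δ v) k x = δ (v k x)`. -/

open MeasureTheory

namespace SPN

variable {G : Type*} [Group G] [MeasurableSpace G] [MeasurableMul₂ G]
  {K : Subgroup G} {κ : Measure K} {x : G}

private theorem pvb_meas {f : G → ℝ} (hf : Measurable f) :
    Measurable (fun p : G × K => f (p.1 * (p.2 : G) * x)) :=
  hf.comp ((measurable_fst.mul (measurable_subtype_coe.comp measurable_snd)).mul_const x)

private theorem pvb_meas1 {f : G → ℝ} (hf : Measurable f) (v : G) :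
    Measurable (fun k : K => f (v * (k : G) * x)) :=
  hf.comp (((measurable_subtype_coe).const_mul v).mul_const x)

private theorem pvb_bound (hκ : Kp K κ) {f : G → ℝ} {C : ℝ} (hC : ∀ u, |f u| ≤ C) (v : G) :
    |Pv K κ x f v| ≤ C := by
  have := hκ.prob
  have h := norm_integral_le_of_norm_le_const (μ := κ) (f := fun k : K => f (v * k * x)) (C := C)
    (Filter.Eventually.of_forall fun k => by simpa [Real.norm_eq_abs] using hC (v * k * x))
  simpa [Pv, Real.norm_eq_abs] using h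

private theorem pvb_int (hκ : Kp K κ) {f : G → ℝ} (hf : Bm f) (v : G) :
    Integrable (fun k : K => f (v * k * x)) κ := by
  have := hκ.prob
  obtain ⟨C, hC⟩ := hf.bdd
  exact Integrable.of_bound (pvb_meas1 hf.meas v).aestronglyMeasurable C
    (Filter.Eventually.of_forall fun k => by simpa [Real.norm_eq_abs] using hC (v * k * x))

private theorem pvb_shift (hκ : Kp K κ) (F : G → ℝ) {k : G} (hk : k ∈ K) (v : G) :
    ∫ k' : K, F (v * k * k' * x) ∂κ = ∫ k' : K, F (v * k' * x) ∂κ := by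
  have := hκ.left
  have : MeasurableMul K :=
    { measurable_const_mul := fun c => (measurable_subtype_coe.const_mul (c : G)).subtype_mk
      measurable_mul_const := fun c => (measurable_subtype_coe.mul_const (c : G)).subtype_mk }
  have h := integral_mul_left_eq_self (μ := κ) (fun k' : K => F (v * k' * x)) ⟨k, hk⟩
  rw [← h]
  congr 1
  ext k'
  simp only [Subgroup.coe_mul, mul_assoc]

theorem Bm.const (c : ℝ) : Bm (fun _ : G => c) :=
  ⟨measurable_const, |c|, fun _ => le_rfl⟩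

theorem Bm.add {f g : G → ℝ} (hf : Bm f) (hg : Bm g) : Bm (fun v => f v + g v) := by
  obtain ⟨C, hC⟩ := hf.bdd
  obtain ⟨D, hD⟩ := hg.bdd
  exact ⟨hf.meas.add hg.meas, C + D, fun v => (abs_add_le _ _).trans (add_le_add (hC v) (hD v))⟩

theorem Bm.mul {f g : G → ℝ} (hf : Bm f) (hg : Bm g) : Bm (fun v => f v * g v) := by
  obtain ⟨C, hC⟩ := hf.bdd
  obtain ⟨D, hD⟩ := hg.bdd
  refine ⟨hf.meas.mul hg.meas, C * D, fun v => ?_⟩
  rw [abs_mul]
  exact mul_le_mul (hC v) (hD v) (abs_nonneg _) ((abs_nonneg _).trans (hC v))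

theorem Bm.cmul {f : G → ℝ} (hf : Bm f) (r : ℝ) : Bm (fun v => r * f v) :=
  (Bm.const r).mul hf

theorem Bm.sum {ι : Type*} (s : Finset ι) {f : ι → G → ℝ} (hf : ∀ i ∈ s, Bm (f i)) :
    Bm (fun v => ∑ i ∈ s, f i v) := by
  classical
  induction s using Finset.induction_on with
  | empty => simpa using Bm.const (G := G) 0
  | insert a s ha ih =>
    simp only [Finset.sum_insert ha]
    exact (hf a (Finset.mem_insert_self a s)).add
      (ih fun i hi => hf i (Finset.mem_insert_of_mem hi))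

theorem Bm.pv (hκ : Kp K κ) {f : G → ℝ} (hf : Bm f) : Bm (Pv K κ x f) := by
  have := hκ.prob
  obtain ⟨C, hC⟩ := hf.bdd
  refine ⟨?_, C, fun v => pvb_bound hκ hC v⟩
  have h := (pvb_meas (K := K) (x := x) hf.meas).stronglyMeasurable
  exact (h.integral_prod_right' (ν := κ)).measurable

theorem Bm.pv_iter (hκ : Kp K κ) {f : G → ℝ} (hf : Bm f) (j : ℕ) : Bm ((Pv K κ x)^[j] f) := by
  induction j with
  | zero => simpa using hf
  | succ j ih =>
    rw [Function.iterate_succ_apply']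
    exact ih.pv hκ

theorem Pv_add (hκ : Kp K κ) {f g : G → ℝ} (hf : Bm f) (hg : Bm g) (v : G) :
    Pv K κ x (fun u => f u + g u) v = Pv K κ x f v + Pv K κ x g v :=
  integral_add (pvb_int hκ hf v) (pvb_int hκ hg v)

theorem Pv_cmul (r : ℝ) (f : G → ℝ) (v : G) :
    Pv K κ x (fun u => r * f u) v = r * Pv K κ x f v :=
  integral_const_mul r _

theorem Pv_sum (hκ : Kp K κ) {ι : Type*} (s : Finset ι) {f : ι → G → ℝ}
    (hf : ∀ i ∈ s, Bm (f i)) (v : G) :
    Pv K κ x (fun u => ∑ i ∈ s, f i u) v = ∑ i ∈ s, Pv K κ x (f i) v :=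
  integral_finsetSum s fun i hi => pvb_int hκ (hf i hi) v

theorem Pv_const (hκ : Kp K κ) (c : ℝ) (v : G) : Pv K κ x (fun _ => c) v = c := by
  have := hκ.prob
  simp [Pv]

theorem Pv_mono (hκ : Kp K κ) {f g : G → ℝ} (hf : Bm f) (hg : Bm g) (h : ∀ u, f u ≤ g u)
    (v : G) : Pv K κ x f v ≤ Pv K κ x g v :=
  integral_mono (pvb_int hκ hf v) (pvb_int hκ hg v) fun k => h _

theorem Pv_nonneg {f : G → ℝ} (h : ∀ u, 0 ≤ f u) (v : G) : 0 ≤ Pv K κ x f v :=
  integral_nonneg fun k => h _

theorem Pv_iter_nonneg {f : G → ℝ} (h : ∀ u, 0 ≤ f u) (j : ℕ) (v : G) :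
    0 ≤ (Pv K κ x)^[j] f v := by
  induction j generalizing v with
  | zero => simpa using h v
  | succ j ih =>
    rw [Function.iterate_succ_apply']
    exact Pv_nonneg ih v

theorem Pv_iter_mono (hκ : Kp K κ) {f g : G → ℝ} (hf : Bm f) (hg : Bm g) (h : ∀ u, f u ≤ g u)
    (j : ℕ) (v : G) : (Pv K κ x)^[j] f v ≤ (Pv K κ x)^[j] g v := by
  induction j generalizing v with
  | zero => simpa using h v
  | succ j ih =>
    rw [Function.iterate_succ_apply', Function.iterate_succ_apply']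
    exact Pv_mono hκ (hf.pv_iter hκ j) (hg.pv_iter hκ j) ih v

theorem Pv_iter_add (hκ : Kp K κ) {f g : G → ℝ} (hf : Bm f) (hg : Bm g) (j : ℕ) (v : G) :
    (Pv K κ x)^[j] (fun u => f u + g u) v = (Pv K κ x)^[j] f v + (Pv K κ x)^[j] g v := by
  induction j generalizing v with
  | zero => simp
  | succ j ih =>
    rw [Function.iterate_succ_apply', Function.iterate_succ_apply', Function.iterate_succ_apply',
      funext ih]
    exact Pv_add hκ (hf.pv_iter hκ j) (hg.pv_iter hκ j) v

theorem Pv_iter_sum (hκ : Kp K κ) {ι : Type*} (s : Finset ι) {f : ι → G → ℝ}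
    (hf : ∀ i ∈ s, Bm (f i)) (j : ℕ) (v : G) :
    (Pv K κ x)^[j] (fun u => ∑ i ∈ s, f i u) v = ∑ i ∈ s, (Pv K κ x)^[j] (f i) v := by
  induction j generalizing v with
  | zero => simp
  | succ j ih =>
    simp only [Function.iterate_succ_apply']
    rw [funext ih]
    exact Pv_sum hκ s (fun i hi => (hf i hi).pv_iter hκ j) v

theorem Pv_rightK (hκ : Kp K κ) (f : G → ℝ) {k : G} (hk : k ∈ K) (v : G) :
    Pv K κ x f (v * k) = Pv K κ x f v :=
  pvb_shift hκ f hk v

/-- `P (b²) - (P b)² ≤ ∫_K (b(v k x) - b(v))² dk` (expand: the difference is `(P b v - b v)²`). -/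
theorem Pv_var (hκ : Kp K κ) {b : G → ℝ} (hb : Bm b) (v : G) :
    Pv K κ x (fun u => b u ^ 2) v - Pv K κ x b v ^ 2 ≤ grv K κ x b v := by
  have h2 : Bm (fun u => b u ^ 2) := by
    have := hb.mul hb
    simpa [pow_two] using this
  have e : grv K κ x b v =
      Pv K κ x (fun u => (b u ^ 2 + (-(2 * b v)) * b u) + b v ^ 2) v := by
    unfold grv Pv
    congr 1
    ext k
    ring
  rw [e, Pv_add hκ (h2.add (hb.cmul _)) (Bm.const _), Pv_add hκ h2 (hb.cmul _), Pv_cmul,
    Pv_const hκ]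
  nlinarith [sq_nonneg (Pv K κ x b v - b v)]

theorem grv_bm (hκ : Kp K κ) {b : G → ℝ} (hb : Bm b) : Bm (grv K κ x b) := by
  have := hκ.prob
  obtain ⟨C, hC⟩ := hb.bdd
  refine ⟨?_, (C + C) ^ 2, fun v => ?_⟩
  · have h : Measurable (fun p : G × K => (b (p.1 * (p.2 : G) * x) - b p.1) ^ 2) :=
      ((pvb_meas (K := K) (x := x) hb.meas).sub (hb.meas.comp measurable_fst)).pow_const 2
    exact (h.stronglyMeasurable.integral_prod_right' (ν := κ)).measurable
  · have h := norm_integral_le_of_norm_le_const (μ := κ)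
      (f := fun k : K => (b (v * k * x) - b v) ^ 2) (C := (C + C) ^ 2)
      (Filter.Eventually.of_forall fun k => by
        rw [norm_pow, Real.norm_eq_abs]
        refine pow_le_pow_left₀ (abs_nonneg _) ?_ 2
        exact (abs_sub _ _).trans (add_le_add (hC _) (hC _)))
    simpa [grv, Real.norm_eq_abs] using h

theorem grv_nonneg (b : G → ℝ) (v : G) : 0 ≤ grv K κ x b v :=
  integral_nonneg fun k => sq_nonneg _

theorem grv_rightK (hκ : Kp K κ) {b : G → ℝ} (hb : ∀ u, ∀ k ∈ K, b (u * k) = b u) {k : G}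
    (hk : k ∈ K) (v : G) : grv K κ x b (v * k) = grv K κ x b v := by
  unfold grv
  rw [hb v k hk]
  exact pvb_shift hκ (fun u => (b u - b v) ^ 2) hk v

variable {Γ : Subgroup G}

theorem Gf.pv (hκ : Kp K κ) {g : G → Γ → ℝ} (hg : Gf g) :
    Gf (fun v γ => Pv K κ x (fun u => g u γ) v) := by
  obtain ⟨C, hC⟩ := hg.bdd
  refine ⟨fun γ => ?_, ⟨C, fun v γ => pvb_bound hκ (fun u => hC u γ) v⟩, fun δ v γ => ?_⟩
  · exact (Bm.pv hκ (⟨hg.meas γ, C, fun u => hC u γ⟩ : Bm fun u => g u γ)).meas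
  · unfold Pv
    congr 1
    ext k
    change g (δ * v * k * x) (δ * γ) = g (v * k * x) γ
    rw [mul_assoc (δ : G) v, mul_assoc (δ : G), hg.inv]

theorem Gf.pv_iter (hκ : Kp K κ) {g : G → Γ → ℝ} (hg : Gf g) (j : ℕ) :
    Gf (fun v γ => (Pv K κ x)^[j] (fun u => g u γ) v) := by
  induction j with
  | zero => simpa using hg
  | succ j ih =>
    simp only [Function.iterate_succ_apply']
    exact ih.pv hκ

theorem Gf.grv (hκ : Kp K κ) {g : G → Γ → ℝ} (hg : Gf g) :
    Gf (fun v γ => SPN.grv K κ x (fun u => g u γ) v) := by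
  have := hκ.prob
  obtain ⟨C, hC⟩ := hg.bdd
  refine ⟨fun γ => ?_, ⟨(C + C) ^ 2, fun v γ => ?_⟩, fun δ v γ => ?_⟩
  · exact (grv_bm hκ (⟨hg.meas γ, C, fun u => hC u γ⟩ : Bm fun u => g u γ)).meas
  · have h := norm_integral_le_of_norm_le_const (μ := κ)
      (f := fun k : K => (g (v * k * x) γ - g v γ) ^ 2) (C := (C + C) ^ 2)
      (Filter.Eventually.of_forall fun k => by
        rw [norm_pow, Real.norm_eq_abs]
        refine pow_le_pow_left₀ (abs_nonneg _) ?_ 2
        exact (abs_sub _ _).trans (add_le_add (hC _ _) (hC _ _)))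
    simpa [SPN.grv, Real.norm_eq_abs] using h
  · unfold SPN.grv
    congr 1
    ext k
    change (g (δ * v * k * x) (δ * γ) - g (δ * v) (δ * γ)) ^ 2 = (g (v * k * x) γ - g v γ) ^ 2
    rw [mul_assoc (δ : G) v, mul_assoc (δ : G), hg.inv, hg.inv]

end SPN
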