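import Pool.Agent.SPN.Pkb
import Pool.Agent.SPN.Pvb
import Pool.Agent.SPN.Tra

/-! # Module Psf (difficulty 3): `S_b` and the two averaging operators

`Sf_rightK`: `Sf_mul_right` gives `S_b(v k) = S_{b(k⁻¹ ·)}(v)` and `b (k⁻¹ h) = b h` (`hb.left`).
`Sf_pk`: `S_{P b}(v) = ∫_h ∫_k b(x⁻¹ k⁻¹ h) sg(q γ, q (π (v h)))`; exchange (Fubini; the integrand is bounded
measurable times the function `(h, k) ↦ b(x⁻¹ k⁻¹ h)`, which is integrable on `μ.prod κ`: continuous, and for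
every `k` the integral of its absolute value over `h` is `∫ |b|`), then substitute `h = k x h'` (left
invariance): `∫_k S_b(v k x)`.
`Sf_rk`: induction on `j` (`rk_succ`, `Function.iterate_succ_apply'`, `rk_bk`). `Sf_mk`: `Sf_sum`. -/

open MeasureTheory

namespace SPN

variable {G : Type*} [Group G] [TopologicalSpace G] [IsTopologicalGroup G] [T2Space G]
  [LocallyCompactSpace G] [SecondCountableTopology G] [MeasurableSpace G] [BorelSpace G]
  {μ : Measure G} [IsFiniteMeasureOnCompacts μ] [μ.IsMulLeftInvariant] [SigmaFinite μ]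
  {Γ : Subgroup G} {π : G → Γ} {X : Type*} [LinearOrder X] {q : Γ → X}
  {K : Subgroup G} {κ : Measure K}

theorem Sf_rightK {b : G → ℝ} (hb : Bk K b) (v : G) (γ : Γ) {k : G} (hk : k ∈ K) :
    Sf μ π q b (v * k) γ = Sf μ π q b v γ := by
  rw [Sf_mul_right]
  congr 1
  funext h
  exact hb.left k⁻¹ (K.inv_mem hk) h

theorem Nf_rightK {b : G → ℝ} (hb : Bk K b) (v : G) (γ : Γ) {k : G} (hk : k ∈ K) :
    Nf μ π q b (v * k) γ = Nf μ π q b v γ := by
  rw [Nf_mul_right]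
  congr 1
  funext h
  exact hb.left k⁻¹ (K.inv_mem hk) h

/-- the kernel `(h, k) ↦ b(x⁻¹ k⁻¹ h)` is integrable -/
private lemma Psf_int (hκ : Kp K κ) {b : G → ℝ} (hb : Bk K b) (x : G) :
    Integrable (fun p : G × K => b (x⁻¹ * (p.2 : G)⁻¹ * p.1)) (μ.prod κ) := by
  haveI := hκ.prob
  have hbi : Integrable b μ := hb.integrable
  have hc : Continuous (fun p : G × K => b (x⁻¹ * (p.2 : G)⁻¹ * p.1)) := by
    apply hb.cont.comp
    fun_prop
  have hm : AEStronglyMeasurable (fun p : G × K => b (x⁻¹ * (p.2 : G)⁻¹ * p.1)) (μ.prod κ) :=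
    hc.measurable.aestronglyMeasurable
  rw [integrable_prod_iff' hm]
  refine ⟨Filter.Eventually.of_forall fun k => ?_, ?_⟩
  · exact hbi.comp_mul_left (x⁻¹ * (k : G)⁻¹)
  · have e : (fun k : K => ∫ h, ‖b (x⁻¹ * (k : G)⁻¹ * h)‖ ∂μ) = fun _ => ∫ h, ‖b h‖ ∂μ := by
      funext k
      exact integral_mul_left_eq_self (fun h => ‖b h‖) (x⁻¹ * (k : G)⁻¹)
    rw [show (fun y : K => ∫ h, ‖(fun p : G × K => b (x⁻¹ * (p.2 : G)⁻¹ * p.1)) (h, y)‖ ∂μ) =
      fun _ => ∫ h, ‖b h‖ ∂μ from e]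
    exact integrable_const _

theorem Sf_pk (hD : Dm μ Γ π) (hκ : Kp K κ) (hK : IsCompact (K : Set G)) {b : G → ℝ}
    (hb : Bk K b) (x v : G) (γ : Γ) :
    Sf μ π q (Pk K κ x b) v γ = Pv K κ x (fun u => Sf μ π q b u γ) v := by
  haveI := hκ.prob
  have hs : Measurable (fun h : G => sg (q γ) (q (π (v * h)))) := by
    have h1 := meas_pair hD (g := fun (_ : G) (γ' : Γ) => sg (q γ) (q γ')) (fun _ => measurable_const)
    exact h1.comp (measurable_prodMk_left (x := v))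
  have hF : Integrable (fun p : G × K => b (x⁻¹ * (p.2 : G)⁻¹ * p.1) *
      sg (q γ) (q (π (v * p.1)))) (μ.prod κ) := by
    have h1 := Psf_int (μ := μ) hκ hb x
    refine h1.mono (h1.1.mul (hs.comp measurable_fst).aestronglyMeasurable)
      (Filter.Eventually.of_forall fun p => ?_)
    rw [norm_mul]
    have : ‖sg (q γ) (q (π (v * p.1)))‖ ≤ 1 := sg_abs_le _ _
    exact mul_le_of_le_one_right (norm_nonneg _) this
  unfold Sf Pv Pk
  calc ∫ h, (∫ k : K, b (x⁻¹ * (k : G)⁻¹ * h) ∂κ) * sg (q γ) (q (π (v * h))) ∂μ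
      = ∫ h, ∫ k : K, b (x⁻¹ * (k : G)⁻¹ * h) * sg (q γ) (q (π (v * h))) ∂κ ∂μ := by
        congr 1
        funext h
        rw [integral_mul_const]
    _ = ∫ k : K, ∫ h, b (x⁻¹ * (k : G)⁻¹ * h) * sg (q γ) (q (π (v * h))) ∂μ ∂κ :=
        integral_integral_swap hF
    _ = _ := by
        congr 1
        funext k
        rw [← integral_mul_left_eq_self
          (fun h => b (x⁻¹ * (k : G)⁻¹ * h) * sg (q γ) (q (π (v * h)))) ((k : G) * x)]
        congr 1
        funext h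
        have e1 : x⁻¹ * (k : G)⁻¹ * ((k : G) * x * h) = h := by group
        have e2 : v * ((k : G) * x * h) = v * k * x * h := by group
        rw [e1, e2]

theorem Sf_rk (hD : Dm μ Γ π) {x : G} {ρ : G → ℝ} (hw : Wk K κ μ x ρ) (j : ℕ) (v : G) (γ : Γ) :
    Sf μ π q (rk K κ x ρ j) v γ = (Pv K κ x)^[j] (fun u => Sf μ π q ρ u γ) v := by
  induction j generalizing v with
  | zero => rfl
  | succ j ih =>
    rw [rk_succ, Sf_pk hD hw.kp hw.cpt (rk_bk hw j) x v γ, Function.iterate_succ_apply']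
    congr 1
    funext u
    exact ih u

theorem Sf_mk (hD : Dm μ Γ π) {x : G} {ρ : G → ℝ} (hw : Wk K κ μ x ρ) (n : ℕ) (v : G) (γ : Γ) :
    Sf μ π q (mk K κ x ρ n) v γ
      = ∑ j ∈ Finset.range n, (Pv K κ x)^[j] (fun u => Sf μ π q ρ u γ) v := by
  have h1 := Sf_sum (q := q) hD (Finset.range n) (b := fun j => rk K κ x ρ j)
    (fun i _ => (rk_bk hw i).integrable) v γ
  have h2 : Sf μ π q (mk K κ x ρ n) v γ = Sf μ π q (fun h => ∑ i ∈ Finset.range n,
      rk K κ x ρ i h) v γ := rfl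
  rw [h2, h1]
  apply Finset.sum_congr rfl
  intro j _
  exact Sf_rk hD hw j v γ

end SPN
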