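import Pool.Agent.SPN.Qe
import Pool.Agent.SPN.Par
import Pool.Agent.SPN.Smf
import Pool.Agent.SPN.Krn

/-! # Module Pts (difficulty 4): the operators `P_t`

`Pt t m z = ∫_K m (a_{-t} k⁻¹ z) dk`, `a_t = hyM (ih n) t`.
`Pt_joint`: `par_contDiff` with `T = KK n`, `W = V = ℝ × EE n`, `f (t, y) = m (act (hyM (ih n) (-t)) y)` (smooth:
`hyM` is a combination of `1`, `cosh t`, `sinh t`; `act` is linear in the matrix), `c = 0`,
`M k (t, z) = (t, k⁻¹ z)`, `A = id`.
`Pt_hasDerivAt`: the derivative in `t`: `par_hasFDerivAt`, or directly `hasDerivAt_integral_of_dominated_loc_of_deriv_le`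
with `hasDerivAt_hy`.
`LX_Pt`: differentiation in `z` under the integral: `LX A (Pt t m) z = ∫_K LX A (fun y => m (a_{-t} k⁻¹ y)) z dk`
(`par_hasFDerivAt` with `V = EE n`, `W = EE n`, `f y = m (act (hyM (ih n) (-t)) y)`, `M k = act k⁻¹`).
`Pt_kn`: smooth: `Pt_joint` composed with `z ↦ (t, z)`. Left invariance: `k⁻¹ k₀ z = (k₀⁻¹ k)⁻¹ z`, left invariance of
`kap`. Right invariance: `act` commutes with right multiplication. Support: for `z = g e0`,
`m (a_{-t} k⁻¹ g e0) ≠ 0` implies `‖(a_{-t} k⁻¹ g)_00‖ ≤ R`, so `‖g_00‖ ≤ (n+1) cosh t R` (`norm_mul_le`, `norm_hy`,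
`norm_KK_mul`, `g = (a_{-t} k⁻¹)⁻¹ (a_{-t} k⁻¹ g)`); `Pt_supp` is the uniform version for `t ∈ [0, 1]`.
`kr_Pt`: both sides are `∫_K m (act (hyM (-t)) (act k⁻¹ (act g e0)))` (`hy_neg`, `act_mul`). -/

open MeasureTheory Matrix
open scoped ContDiff

noncomputable section

namespace SPN

section gen

variable {T : Type} [TopologicalSpace T] [CompactSpace T] [SecondCountableTopology T]
  [MeasurableSpace T] [OpensMeasurableSpace T] (ν : Measure T) [IsFiniteMeasure ν]
  {V W : Type} [NormedAddCommGroup V] [NormedSpace ℝ V] [FiniteDimensional ℝ V]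
  [NormedAddCommGroup W] [NormedSpace ℝ W] [FiniteDimensional ℝ W]

private lemma Pts_par {f : W → ℝ} (hf : ContDiff ℝ ∞ f) {M : T → V →L[ℝ] W} (hM : Continuous M)
    (v w : V) : fderiv ℝ (fun v => ∫ k, f (M k v) ∂ν) v w =
      ∫ k, fderiv ℝ (fun y => f (M k y)) v w ∂ν := by
  have h := par_hasFDerivAt ν hf (c := fun _ : T => (0 : W)) continuous_const (M := M) hM
    (A := fun _ : T => ContinuousLinearMap.id ℝ ℝ) continuous_const v
  have e1 : (fun v => ∫ k, (ContinuousLinearMap.id ℝ ℝ) (f (0 + M k v)) ∂ν) =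
      fun v => ∫ k, f (M k v) ∂ν := by
    funext v
    simp
  rw [e1] at h
  have hfd : ∀ k : T, fderiv ℝ (fun y => f (M k y)) v =
      (fderiv ℝ f (0 + M k v)).comp (M k) := by
    intro k
    rw [zero_add]
    have h2 : HasFDerivAt f (fderiv ℝ f (M k v)) (M k v) :=
      (hf.differentiable (by simp) _).hasFDerivAt
    exact (h2.comp v (M k).hasFDerivAt).fderiv
  have hMv : Continuous (fun k : T => M k v) := hM.clm_apply continuous_const
  have hc : Continuous (fun k : T => (ContinuousLinearMap.id ℝ ℝ).comp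
      ((fderiv ℝ f (0 + M k v)).comp (M k))) := by
    have hfd' : Continuous (fderiv ℝ f) := hf.continuous_fderiv (by simp)
    have h3 : Continuous (fun k : T => fderiv ℝ f (0 + M k v)) :=
      hfd'.comp (continuous_const.add hMv)
    exact continuous_const.clm_comp (h3.clm_comp hM)
  have hint : Integrable (fun k : T => (ContinuousLinearMap.id ℝ ℝ).comp
      ((fderiv ℝ f (0 + M k v)).comp (M k))) ν :=
    hc.integrable_of_hasCompactSupport (HasCompactSupport.of_compactSpace _)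
  rw [h.fderiv, ContinuousLinearMap.integral_apply hint]
  congr 1
  funext k
  rw [hfd k]
  rfl

end gen

variable {n : ℕ} [NeZero n]

omit [NeZero n] in
private lemma Pts_sc : SecondCountableTopology (KK n) :=
  Topology.IsEmbedding.subtypeVal.secondCountableTopology

omit [NeZero n] in
private lemma Pts_act_one (z : EE n) : act (1 : Mt n) z = z := by
  rw [act_apply, Matrix.one_mulVec]

omit [NeZero n] in
private lemma Pts_hy (i : Fin n × Fin 4) (t : ℝ) (y : EE n) :
    act (hyM i t) y = y + (Real.cosh t - 1) • act (Pj i.1) y + Real.sinh t • act (Xm (bs i)) y := by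
  rw [hyM_eq, act_add, act_add, act_smul, act_smul, Pts_act_one]

private lemma Pts_fs {m : EE n → ℝ} (hm : ContDiff ℝ ∞ m) :
    ContDiff ℝ ∞ (fun p : ℝ × EE n => m (act (hyM (ih n) (-p.1)) p.2)) := by
  apply hm.comp
  have e : (fun p : ℝ × EE n => act (hyM (ih n) (-p.1)) p.2) = fun p : ℝ × EE n =>
      p.2 + (Real.cosh (-p.1) - 1) • act (Pj (ih n).1) p.2 +
        Real.sinh (-p.1) • act (Xm (bs (ih n))) p.2 := by
    funext p
    exact Pts_hy _ _ _
  rw [e]
  have h1 : ContDiff ℝ ∞ (fun p : ℝ × EE n => Real.cosh (-p.1) - 1) :=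
    (Real.contDiff_cosh.comp contDiff_fst.neg).sub contDiff_const
  have h2 : ContDiff ℝ ∞ (fun p : ℝ × EE n => Real.sinh (-p.1)) :=
    Real.contDiff_sinh.comp contDiff_fst.neg
  have h3 : ∀ A : Mt n, ContDiff ℝ ∞ (fun p : ℝ × EE n => act A p.2) :=
    fun A => (act A).contDiff.comp contDiff_snd
  exact (contDiff_snd.add (h1.smul (h3 _))).add (h2.smul (h3 _))

omit [NeZero n] in
private lemma Pts_cont (z : EE n) : Continuous (fun k : KK n => act ((k : GG n)⁻¹).mat z) := by
  have h1 : Continuous (fun k : KK n => ((k : GG n)⁻¹).mat) :=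
    GG.continuous_mat.comp (continuous_inv.comp continuous_subtype_val)
  exact Continuous.matrix_mulVec h1 continuous_const

omit [NeZero n] in
private lemma Pts_cont2 : Continuous (fun p : KK n × EE n => act ((p.1 : GG n)⁻¹).mat p.2) := by
  have h1 : Continuous (fun p : KK n × EE n => ((p.1 : GG n)⁻¹).mat) :=
    GG.continuous_mat.comp (continuous_inv.comp (continuous_subtype_val.comp continuous_fst))
  exact Continuous.matrix_mulVec h1 continuous_snd

theorem Pt_joint {m : EE n → ℝ} (hm : ContDiff ℝ ∞ m) :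
    ContDiff ℝ ∞ (fun p : ℝ × EE n => Pt p.1 m p.2) := by
  have hsc : SecondCountableTopology (KK n) := Pts_sc
  have h := par_contDiff (kap n) (Pts_fs hm) (c := fun _ : KK n => (0 : ℝ × EE n))
    continuous_const
    (M := fun k : KK n => (ContinuousLinearMap.fst ℝ ℝ (EE n)).prod
      ((act ((k : GG n)⁻¹).mat).comp (ContinuousLinearMap.snd ℝ ℝ (EE n))))
    (by
      rw [continuous_clm_apply]
      intro v
      exact continuous_const.prodMk (Pts_cont v.2))
    (A := fun _ : KK n => ContinuousLinearMap.id ℝ ℝ) continuous_const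
  have e : (fun p : ℝ × EE n => Pt p.1 m p.2) = fun v : ℝ × EE n =>
      ∫ k : KK n, (ContinuousLinearMap.id ℝ ℝ) ((fun p : ℝ × EE n =>
        m (act (hyM (ih n) (-p.1)) p.2)) ((0 : ℝ × EE n) +
        ((ContinuousLinearMap.fst ℝ ℝ (EE n)).prod
          ((act ((k : GG n)⁻¹).mat).comp (ContinuousLinearMap.snd ℝ ℝ (EE n)))) v)) ∂(kap n) := by
    funext p
    unfold Pt
    congr 1
    funext k
    rw [zero_add]
    rfl
  rw [e]
  exact h

theorem Pt_contDiff {m : EE n → ℝ} (hm : ContDiff ℝ ∞ m) (t : ℝ) : ContDiff ℝ ∞ (Pt t m) := by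
  have h2 : ContDiff ℝ ∞ (fun z : EE n => ((t, z) : ℝ × EE n)) :=
    contDiff_const.prodMk contDiff_id
  exact ContDiff.comp (g := fun p : ℝ × EE n => Pt p.1 m p.2)
    (f := fun z : EE n => ((t, z) : ℝ × EE n)) (Pt_joint hm) h2

theorem Pt_hasDerivAt {m : EE n → ℝ} (hm : ContDiff ℝ ∞ m) (z : EE n) (t : ℝ) :
    HasDerivAt (fun s => Pt s m z) (Pt t (Dp (bs (ih n)) m) z) t := by
  have hD : ContDiff ℝ ∞ (Dp (bs (ih n)) m) := Dp_contDiff hm _
  have hc : ∀ {f : EE n → ℝ}, ContDiff ℝ ∞ f → Continuous (fun p : ℝ × KK n =>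
      f (act (hyM (ih n) (-p.1)) (act ((p.2 : GG n)⁻¹).mat z))) := by
    intro f hf
    have h1 : Continuous (fun q : ℝ × EE n => f (act (hyM (ih n) (-q.1)) q.2)) :=
      (Pts_fs hf).continuous
    have h2 : Continuous (fun p : ℝ × KK n => ((p.1, act ((p.2 : GG n)⁻¹).mat z) : ℝ × EE n)) :=
      continuous_fst.prodMk ((Pts_cont z).comp continuous_snd)
    exact Continuous.comp (g := fun q : ℝ × EE n => f (act (hyM (ih n) (-q.1)) q.2))
      (f := fun p : ℝ × KK n => ((p.1, act ((p.2 : GG n)⁻¹).mat z) : ℝ × EE n)) h1 h2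
  have hcs : ∀ {f : EE n → ℝ}, ContDiff ℝ ∞ f → ∀ s : ℝ, Continuous (fun k : KK n =>
      f (act (hyM (ih n) (-s)) (act ((k : GG n)⁻¹).mat z))) := by
    intro f hf s
    have h2 : Continuous (fun k : KK n => ((s, k) : ℝ × KK n)) :=
      continuous_const.prodMk continuous_id
    exact Continuous.comp (g := fun p : ℝ × KK n =>
      f (act (hyM (ih n) (-p.1)) (act ((p.2 : GG n)⁻¹).mat z)))
      (f := fun k : KK n => ((s, k) : ℝ × KK n)) (hc hf) h2
  obtain ⟨C, hC⟩ := ((isCompact_Icc (a := t - 1) (b := t + 1)).prod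
    (isCompact_univ (X := KK n))).exists_bound_of_continuousOn (hc hD).continuousOn
  have hs : Set.Icc (t - 1) (t + 1) ∈ nhds t := Icc_mem_nhds (by linarith) (by linarith)
  have key := hasDerivAt_integral_of_dominated_loc_of_deriv_le (μ := kap n)
    (F := fun (s : ℝ) (k : KK n) => m (act (hyM (ih n) (-s)) (act ((k : GG n)⁻¹).mat z)))
    (F' := fun (s : ℝ) (k : KK n) =>
      Dp (bs (ih n)) m (act (hyM (ih n) (-s)) (act ((k : GG n)⁻¹).mat z)))
    (x₀ := t) (s := Set.Icc (t - 1) (t + 1)) (bound := fun _ => C) hs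
    (Filter.Eventually.of_forall fun s => (hcs hm s).aestronglyMeasurable)
    ((hcs hm t).integrable_of_hasCompactSupport (HasCompactSupport.of_compactSpace _))
    (hcs hD t).aestronglyMeasurable
    (Filter.Eventually.of_forall fun k s hsm => hC (s, k) ⟨hsm, Set.mem_univ _⟩)
    (integrable_const _)
    (Filter.Eventually.of_forall fun k s _ => hasDerivAt_hy hm (ih n) _ s)
  exact key.2

theorem LX_Pt {m : EE n → ℝ} (hm : ContDiff ℝ ∞ m) (t : ℝ) (A : Mt n) (z : EE n) :
    LX A (Pt t m) z = ∫ k : KK n, LX A (fun y => m (act (hyM (ih n) (-t))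
      (act ((k : GG n)⁻¹).mat y))) z ∂(kap n) := by
  have hsc : SecondCountableTopology (KK n) := Pts_sc
  have hfc : ContDiff ℝ ∞ (fun y : EE n => m (act (hyM (ih n) (-t)) y)) :=
    hm.comp (act (hyM (ih n) (-t))).contDiff
  have hMc : Continuous (fun k : KK n => act ((k : GG n)⁻¹).mat) := by
    rw [continuous_clm_apply]
    exact fun v => Pts_cont v
  have h := Pts_par (kap n) hfc hMc z (act A z)
  unfold LX
  rw [integral_neg]
  exact congrArg Neg.neg h

omit [NeZero n] in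
private lemma Pts_right (A : Mt n) (z : EE n) (x : Quaternion ℝ) :
    act A (fun i => z i * x) = fun i => act A z i * x := by
  funext i
  rw [act_apply, act_apply]
  simp only [Matrix.mulVec, dotProduct, Finset.sum_mul, mul_assoc]

private lemma Pts_supp {m : EE n → ℝ} {R : ℝ}
    (hR : ∀ g : GG n, R < ‖g.mat 0 0‖ → m (act g.mat (e0 n)) = 0) (t : ℝ) (g : GG n)
    (hg : (n + 1) * Real.cosh t * |R| < ‖g.mat 0 0‖) : Pt t m (act g.mat (e0 n)) = 0 := by
  unfold Pt
  have h0 : ∀ k : KK n, m (act (hyM (ih n) (-t)) (act ((k : GG n)⁻¹).mat (act g.mat (e0 n)))) = 0 := by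
    intro k
    have e1 : act (hyM (ih n) (-t)) (act ((k : GG n)⁻¹).mat (act g.mat (e0 n))) =
        act (hy (ih n) (-t) * ((k : GG n)⁻¹ * g)).mat (e0 n) := by
      rw [GG.mat_mul, GG.mat_mul, act_mul, act_mul, mat_hy]
    rw [e1]
    apply hR
    by_contra hcon
    rw [not_lt] at hcon
    have e2 : g = (k : GG n) * (hy (ih n) t * (hy (ih n) (-t) * ((k : GG n)⁻¹ * g))) := by
      rw [hy_neg]
      group
    have h1 : ‖g.mat 0 0‖ = ‖(hy (ih n) t * (hy (ih n) (-t) * ((k : GG n)⁻¹ * g))).mat 0 0‖ := by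
      conv_lhs => rw [e2]
      exact norm_KK_mul k.2 _
    have h2 := norm_mul_le (hy (ih n) t) (hy (ih n) (-t) * ((k : GG n)⁻¹ * g))
    rw [norm_hy, ← h1] at h2
    have h3 : (n + 1) * Real.cosh t * ‖(hy (ih n) (-t) * ((k : GG n)⁻¹ * g)).mat 0 0‖ ≤
        (n + 1) * Real.cosh t * |R| := by
      apply mul_le_mul_of_nonneg_left (hcon.trans (le_abs_self R))
      have := Real.cosh_pos t
      positivity
    linarith
  simp only [h0]
  simp

theorem Pt_kn {m : EE n → ℝ} (hm : Kn m) (t : ℝ) : Kn (Pt t m) := by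
  obtain ⟨R, hR⟩ := hm.supp
  refine { smooth := Pt_contDiff hm.smooth t, supp := ⟨(n + 1) * Real.cosh t * |R|,
    fun g hg => Pts_supp hR t g hg⟩, left := ?_, right := ?_ }
  · intro k₀ hk₀ z
    unfold Pt
    rw [← integral_mul_left_eq_self (μ := kap n) (fun k : KK n => m (act (hyM (ih n) (-t))
      (act ((k : GG n)⁻¹).mat (act k₀.mat z)))) (⟨k₀, hk₀⟩ : KK n)]
    congr 1
    funext k
    congr 2
    rw [← act_mul, ← GG.mat_mul]
    congr 2
    have : (((⟨k₀, hk₀⟩ * k : KK n) : GG n))⁻¹ * k₀ = (k : GG n)⁻¹ := by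
      rw [Subgroup.coe_mul]
      group
    rw [this]
  · intro x hx z
    unfold Pt
    congr 1
    funext k
    rw [Pts_right, Pts_right]
    exact hm.right x hx _

theorem Pt_supp {m : EE n → ℝ} (hm : Kn m) : ∃ R : ℝ, ∀ t : ℝ, 0 ≤ t → t ≤ 1 → ∀ g : GG n,
    R < ‖g.mat 0 0‖ → Pt t m (act g.mat (e0 n)) = 0 := by
  obtain ⟨R, hR⟩ := hm.supp
  refine ⟨(n + 1) * Real.cosh 1 * |R|, ?_⟩
  intro t ht0 ht1 g hg
  apply Pts_supp hR t g
  refine lt_of_le_of_lt ?_ hg
  apply mul_le_mul_of_nonneg_right _ (abs_nonneg _)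
  apply mul_le_mul_of_nonneg_left _ (by positivity)
  rw [Real.cosh_le_cosh, abs_of_nonneg ht0, abs_one]
  exact ht1

theorem Pt_nonneg {m : EE n → ℝ} (h0 : ∀ z, 0 ≤ m z) (t : ℝ) (z : EE n) : 0 ≤ Pt t m z :=
  integral_nonneg fun _ => h0 _

theorem Pt_zero {m : EE n → ℝ} (hm : Kn m) (z : EE n) : Pt 0 m z = m z := by
  unfold Pt
  have h : ∀ k : KK n, m (act (hyM (ih n) (-0)) (act ((k : GG n)⁻¹).mat z)) = m z := by
    intro k
    rw [neg_zero, hyM_zero, Pts_act_one]
    exact hm.left _ ((KK n).inv_mem k.2) z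
  simp only [h]
  simp

theorem kr_Pt (m : EE n → ℝ) (t : ℝ) :
    kr (Pt t m) = Pk (KK n) (kap n) (hy (ih n) t) (kr m) := by
  funext g
  unfold kr Pt Pk
  congr 1
  funext k
  rw [← hy_neg]
  show _ = m (act ((hy (ih n) (-t)) * ((k : GG n))⁻¹ * g).mat (e0 n))
  rw [GG.mat_mul, GG.mat_mul, act_mul, act_mul, mat_hy]

end SPN

end
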