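import Mathlib

/-! # SPN: the group Sp(n,1) and its action on `E = H^{n+1}` -/

open MeasureTheory Matrix
open scoped ContDiff

noncomputable section

namespace SPN

/-- quaternionic matrices of size `n + 1` -/
abbrev Mt (n : ℕ) := Matrix (Fin (n + 1)) (Fin (n + 1)) (Quaternion ℝ)

/-- the form `diag(-1, 1, ..., 1)` -/
def Jm (n : ℕ) : Mt n := Matrix.diagonal (fun i => if i = 0 then -1 else 1)

theorem Jm_mul_Jm (n : ℕ) : Jm n * Jm n = 1 := by
  unfold Jm
  rw [Matrix.diagonal_mul_diagonal]
  rw [← Matrix.diagonal_one]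
  congr 1
  funext i
  split_ifs <;> simp

theorem Jm_star (n : ℕ) : (Jm n)ᴴ = Jm n := by
  unfold Jm
  rw [Matrix.diagonal_conjTranspose]
  congr 1
  funext i
  simp only [Pi.star_apply]
  split_ifs <;> simp

/-- `Sp(n,1)`: quaternionic matrices `g` of size `n + 1` with `g* J g = J` -/
def GG (n : ℕ) : Type := {g : Mt n // gᴴ * Jm n * g = Jm n}

namespace GG

variable {n : ℕ}

/-- the matrix of an element of `Sp(n,1)` -/
def mat (g : GG n) : Mt n := g.1

theorem form (g : GG n) : g.matᴴ * Jm n * g.mat = Jm n := g.2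

theorem ext {g h : GG n} (H : g.mat = h.mat) : g = h := Subtype.ext H

theorem inv_mul (g : GG n) : (Jm n * g.matᴴ * Jm n) * g.mat = 1 := by
  have h : Jm n * g.matᴴ * Jm n * g.mat = Jm n * (g.matᴴ * Jm n * g.mat) := by
    simp only [mul_assoc]
  rw [h, g.form, Jm_mul_Jm]

theorem mul_inv (g : GG n) : g.mat * (Jm n * g.matᴴ * Jm n) = 1 := by
  have h := g.inv_mul
  exact mul_eq_one_comm.1 h

instance : Group (GG n) where
  mul g h := ⟨g.mat * h.mat, by
    rw [Matrix.conjTranspose_mul]
    calc h.matᴴ * g.matᴴ * Jm n * (g.mat * h.mat)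
        = h.matᴴ * (g.matᴴ * Jm n * g.mat) * h.mat := by simp only [mul_assoc]
      _ = Jm n := by rw [g.form, h.form]⟩
  one := ⟨1, by simp⟩
  inv g := ⟨Jm n * g.matᴴ * Jm n, by
    rw [Matrix.conjTranspose_mul, Matrix.conjTranspose_mul, Matrix.conjTranspose_conjTranspose,
      Jm_star]
    calc Jm n * (g.mat * Jm n) * Jm n * (Jm n * g.matᴴ * Jm n)
        = Jm n * g.mat * (Jm n * Jm n) * (Jm n * g.matᴴ * Jm n) := by simp only [mul_assoc]
      _ = Jm n * (g.mat * (Jm n * g.matᴴ * Jm n)) := by rw [Jm_mul_Jm]; simp only [mul_assoc, one_mul]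
      _ = Jm n := by rw [g.mul_inv, mul_one]⟩
  mul_assoc a b c := Subtype.ext (mul_assoc a.mat b.mat c.mat)
  one_mul a := Subtype.ext (one_mul a.mat)
  mul_one a := Subtype.ext (mul_one a.mat)
  inv_mul_cancel a := Subtype.ext a.inv_mul

@[simp] theorem mat_mul (g h : GG n) : (g * h).mat = g.mat * h.mat := rfl

@[simp] theorem mat_one : (1 : GG n).mat = 1 := rfl

theorem mat_inv (g : GG n) : (g⁻¹).mat = Jm n * g.matᴴ * Jm n := rfl

instance : TopologicalSpace (GG n) := inferInstanceAs (TopologicalSpace {g : Mt n // gᴴ * Jm n * g = Jm n})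

theorem continuous_mat : Continuous (mat : GG n → Mt n) := continuous_subtype_val

instance : IsTopologicalGroup (GG n) where
  continuous_mul := by
    apply Continuous.subtype_mk
    exact (continuous_mat.comp continuous_fst).mul (continuous_mat.comp continuous_snd)
  continuous_inv := by
    apply Continuous.subtype_mk
    exact (continuous_const.mul continuous_mat.matrix_conjTranspose).mul continuous_const

instance : T2Space (GG n) := inferInstanceAs (T2Space {g : Mt n // gᴴ * Jm n * g = Jm n})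

theorem isClosedEmbedding_mat : Topology.IsClosedEmbedding (mat : GG n → Mt n) := by
  apply IsClosed.isClosedEmbedding_subtypeVal
  exact isClosed_eq (by fun_prop) continuous_const

instance : SecondCountableTopology (GG n) := by
  have h0 : SecondCountableTopology (Quaternion ℝ) := by
    have : ProperSpace (Quaternion ℝ) := FiniteDimensional.proper_real (Quaternion ℝ)
    exact secondCountable_of_proper
  have : SecondCountableTopology (Mt n) :=
    inferInstanceAs (SecondCountableTopology (Fin (n + 1) → Fin (n + 1) → Quaternion ℝ))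
  exact isClosedEmbedding_mat.isEmbedding.secondCountableTopology

instance : LocallyCompactSpace (GG n) := by
  have : LocallyCompactSpace (Mt n) :=
    inferInstanceAs (LocallyCompactSpace (Fin (n + 1) → Fin (n + 1) → Quaternion ℝ))
  exact isClosedEmbedding_mat.locallyCompactSpace

instance : MeasurableSpace (GG n) := borel (GG n)

instance : BorelSpace (GG n) := ⟨rfl⟩

end GG

/-- Haar measure of `Sp(n,1)` -/
def mu (n : ℕ) : Measure (GG n) := Measure.haar

instance (n : ℕ) : (mu n).IsHaarMeasure := inferInstanceAs (Measure.haar).IsHaarMeasure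

/-- the space `H^{n+1}` of columns -/
abbrev EE (n : ℕ) := Fin (n + 1) → Quaternion ℝ

/-- a matrix as a continuous real linear map of `H^{n+1}` -/
def act {n : ℕ} (A : Mt n) : EE n →L[ℝ] EE n :=
  LinearMap.toContinuousLinearMap
    { toFun := fun z => A *ᵥ z
      map_add' := fun x y => Matrix.mulVec_add A x y
      map_smul' := fun c x => Matrix.mulVec_smul A c x }

theorem act_apply {n : ℕ} (A : Mt n) (z : EE n) : act A z = A *ᵥ z := rfl

theorem act_mul {n : ℕ} (A B : Mt n) (z : EE n) : act (A * B) z = act A (act B z) := by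
  simp only [act_apply, Matrix.mulVec_mulVec]

/-- the base point `(1, 0, ..., 0)` -/
def e0 (n : ℕ) : EE n := Pi.single 0 1

/-- the maximal compact subgroup `Sp(1) x Sp(n)` -/
def KK (n : ℕ) : Subgroup (GG n) where
  carrier := {g | g.matᴴ * g.mat = 1}
  one_mem' := by simp
  mul_mem' := by
    intro a b ha hb
    simp only [Set.mem_ofPred_eq, GG.mat_mul, Matrix.conjTranspose_mul] at *
    calc b.matᴴ * a.matᴴ * (a.mat * b.mat) = b.matᴴ * (a.matᴴ * a.mat) * b.mat := by
          simp only [mul_assoc]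
      _ = 1 := by rw [ha, mul_one, hb]
  inv_mem' := by
    intro a ha
    simp only [Set.mem_ofPred_eq] at *
    have h1 : (a⁻¹).mat = a.matᴴ := by
      have h2 : (a⁻¹).mat * a.mat = 1 := by rw [← GG.mat_mul, inv_mul_cancel, GG.mat_one]
      calc (a⁻¹).mat = (a⁻¹).mat * (a.mat * a.matᴴ) := by rw [mul_eq_one_comm.1 ha, mul_one]
        _ = ((a⁻¹).mat * a.mat) * a.matᴴ := by rw [mul_assoc]
        _ = a.matᴴ := by rw [h2, one_mul]
    rw [h1, Matrix.conjTranspose_conjTranspose]
    exact mul_eq_one_comm.1 ha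

theorem mem_KK {n : ℕ} {g : GG n} : g ∈ KK n ↔ g.matᴴ * g.mat = 1 := Iff.rfl

/-- the quaternion units `1, i, j, k` -/
def uq : Fin 4 → Quaternion ℝ := ![1, ⟨0, 1, 0, 0⟩, ⟨0, 0, 1, 0⟩, ⟨0, 0, 0, 1⟩]

/-- the space `P = H^n` -/
abbrev PP (n : ℕ) := Fin n → Quaternion ℝ

/-- the basis vector `e_a u_μ` -/
def bs {n : ℕ} (i : Fin n × Fin 4) : PP n := Pi.single i.1 (uq i.2)

/-- the matrix `X_p = [[0, p*], [p, 0]]` -/
def Xm {n : ℕ} (p : PP n) : Mt n := Matrix.of fun i j =>
  Fin.cases (motive := fun _ => Quaternion ℝ)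
    (Fin.cases (motive := fun _ => Quaternion ℝ) 0 (fun b => star (p b)) j)
    (fun a => Fin.cases (motive := fun _ => Quaternion ℝ) (p a) (fun _ => 0) j) i

/-- the triple product `[p, q, r] = (p q* - q p*) r - r (p* q - q* p)` -/
def tp {n : ℕ} (p q r : PP n) : PP n := fun a =>
  p a * (∑ b, star (q b) * r b) - q a * (∑ b, star (p b) * r b)
    - r a * (∑ b, star (p b) * q b) + r a * (∑ b, star (q b) * p b)

/-- right multiplication of `p` by a quaternion -/
def rm {n : ℕ} (p : PP n) (x : Quaternion ℝ) : PP n := fun a => p a * x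

/-- the matrix of `exp (t X_p)`, `p = e_a u_μ` -/
def hyM {n : ℕ} (i : Fin n × Fin 4) (t : ℝ) : Mt n :=
  1 + (Real.cosh t - 1) • (Matrix.single 0 0 1 + Matrix.single i.1.succ i.1.succ 1)
    + Real.sinh t • Xm (bs i)

/-- `L_X m (z) = - Dm(z)[X z]`, the derivative of `t ↦ m (exp (- t X) z)` -/
def LX {n : ℕ} (A : Mt n) (m : EE n → ℝ) (z : EE n) : ℝ :=
  - (fderiv ℝ m z (act A z))

/-- `D_p = L_{X_p}` -/
def Dp {n : ℕ} (p : PP n) (m : EE n → ℝ) : EE n → ℝ := LX (Xm p) m

/-- the Laplacian -/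
def Lap {n : ℕ} (m : EE n → ℝ) (z : EE n) : ℝ :=
  ∑ i : Fin n × Fin 4, Dp (bs i) (Dp (bs i) m) z

/-- smooth kernels, compactly supported on the orbit of `e0` -/
structure Sm {n : ℕ} (m : EE n → ℝ) : Prop where
  smooth : ContDiff ℝ ∞ m
  supp : ∃ R : ℝ, ∀ g : GG n, R < ‖g.mat 0 0‖ → m (act g.mat (e0 n)) = 0

/-- smooth kernels, invariant under `K` and under right multiplication by unit quaternions -/
structure Kn {n : ℕ} (m : EE n → ℝ) : Prop extends Sm m where
  left : ∀ k ∈ KK n, ∀ z, m (act k.mat z) = m z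
  right : ∀ x : Quaternion ℝ, ‖x‖ = 1 → ∀ z : EE n, m (fun i => z i * x) = m z

/-- the kernel as a function on the group -/
def kr {n : ℕ} (m : EE n → ℝ) (g : GG n) : ℝ := m (act g.mat (e0 n))

end SPN

end
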