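import Pool.Agent.SPN.Kap

/-! # definitions for the second half: the operators `P_t`, the Green operator `tau`, the kernels -/

open MeasureTheory Matrix
open scoped ContDiff

noncomputable section

namespace SPN

/-- properties of the trilinear form `T(a; b, c) = TT (kr a) (kr b) (kr c)` on smooth kernels -/
structure Tf (n : ℕ) (T : (EE n → ℝ) → (EE n → ℝ) → (EE n → ℝ) → ℝ) : Prop where
  symm : ∀ a b c, T a b c = T a c b
  add1 : ∀ a a' b c, Sm a → Sm a' → Sm b → Sm c →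
    T (fun z => a z + a' z) b c = T a b c + T a' b c
  smul1 : ∀ (r : ℝ) (a b c), T (fun z => r * a z) b c = r * T a b c
  add2 : ∀ a b b' c, Sm a → Sm b → Sm b' → Sm c →
    T a (fun z => b z + b' z) c = T a b c + T a b' c
  smul2 : ∀ (r : ℝ) (a b c), T a (fun z => r * b z) c = r * T a b c
  cyc : ∀ p a b c, Sm a → Sm b → Sm c →
    T a b (Dp p c) + T b a (Dp p c) + T (Dp p c) a b = 0
  der : ∀ p a b c, Sm a → Sm b → Sm c →
    T (Dp p a) b c + T a (Dp p b) c + T a b (Dp p c) = 0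
  nonneg : ∀ m b, Sm m → (∀ z, 0 ≤ m z) → Sm b → 0 ≤ T m b b

variable {n : ℕ} [NeZero n]

/-- the index of `H = X_{e_1}` -/
def ih (n : ℕ) [NeZero n] : Fin n × Fin 4 := (0, 0)

/-- `(P_t m)(z) = ∫_K m (a_t⁻¹ k⁻¹ z) dk` -/
def Pt (t : ℝ) (m : EE n → ℝ) (z : EE n) : ℝ :=
  ∫ k : KK n, m (act (hyM (ih n) (-t)) (act ((k : GG n)⁻¹).mat z)) ∂(kap n)

/-- the root `λ = 2` or `1` of the basis vector `i` -/
def lam (i : Fin n × Fin 4) : ℝ := if i.1 = 0 then 2 else 1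

/-- `Y_i = [H, X_i] / λ_i` -/
def Yi (i : Fin n × Fin 4) : Mt n := (lam i)⁻¹ • Ym (bs (ih n)) (bs i)

/-- the density `J(s) = sinh(s)^(4n-4) sinh(2s)^3` -/
def Jf (n : ℕ) (s : ℝ) : ℝ := Real.sinh s ^ (4 * n - 4) * Real.sinh (2 * s) ^ 3

/-- `w(s) = J(s) ∫_s^1 dr / J(r)` -/
def wf (n : ℕ) (s : ℝ) : ℝ := Jf n s * ∫ r in s..1, (Jf n r)⁻¹

/-- the mean curvature `(4n-4) coth s + 6 coth 2s = J' / J` -/
def hc (n : ℕ) (s : ℝ) : ℝ :=
  (4 * (n : ℝ) - 4) * (Real.cosh s / Real.sinh s) + 6 * (Real.cosh (2 * s) / Real.sinh (2 * s))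

/-- the Green operator `tau m = ∫_0^1 w(s) P_s m ds` -/
def tau (m : EE n → ℝ) (z : EE n) : ℝ := ∫ s in (0)..1, wf n s * Pt s m z

/-- the bump `σ(z) = smoothTransition (5 - |z_0|²)` -/
def sig (z : EE n) : ℝ := Real.smoothTransition (5 - ‖z 0‖ ^ 2)

/-- `P_1^k σ` -/
def sgk (n : ℕ) [NeZero n] (k : ℕ) : EE n → ℝ := (Pt 1)^[k] sig

/-- the normalization `∫ tau σ` -/
def cc (n : ℕ) [NeZero n] : ℝ := ∫ g, kr (tau (sig : EE n → ℝ)) g ∂(mu n)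

/-- the density `ρ = tau σ / ∫ tau σ` on `G` -/
def rho (n : ℕ) [NeZero n] (g : GG n) : ℝ := (cc n)⁻¹ * kr (tau sig) g

/-- the kernel `m_k` on `E` -/
def mE (n : ℕ) [NeZero n] (k : ℕ) (z : EE n) : ℝ :=
  (cc n)⁻¹ * ∑ j ∈ Finset.range k, tau (sgk n j) z

/-- `F_r = ∑_e S_{D_e m_r}²` -/
def Fn {Γ : Subgroup (GG n)} {X : Type*} [LinearOrder X] (π : GG n → Γ) (q : Γ → X) (r : ℕ)
    (v : GG n) (γ : Γ) : ℝ :=
  ∑ i : Fin n × Fin 4, Sf (mu n) π q (kr (Dp (bs i) (mE n r))) v γ ^ 2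

end SPN

end
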