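import Pool.Agent.SPN.Qe
import Pool.Agent.SPN.Cpk

/-! # Module Sig (difficulty 2): the bump `σ`

`sig z = Real.smoothTransition (5 - ‖z 0‖ ^ 2)`. Smooth: `Real.smoothTransition.contDiff`, `‖z 0‖ ^ 2` is smooth
(`contDiff_norm_sq` for the inner product space `ℍ`, or `Quaternion.normSq` as a polynomial). Support: for `z = g e0`,
`z 0 = g.mat 0 0`; if `‖g.mat 0 0‖ > 3` then `5 - ‖z 0‖² ≤ 0` and `smoothTransition = 0`
(`Real.smoothTransition.zero_of_nonpos`). `K`-invariance: `(k z) 0 = k_00 z 0` (`KK_block`), norm preserved. Right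
invariance: `‖z 0 * x‖ = ‖z 0‖`. Positivity: `Real.smoothTransition.pos_of_pos`. `act_hy_e0`: the entries of column
`0` of `hyM (ih n) t`. -/

open MeasureTheory Matrix
open scoped ContDiff

noncomputable section

namespace SPN

variable {n : ℕ} [NeZero n]

omit [NeZero n] in
private theorem sig_act0 (A : Mt n) : (act A (e0 n)) 0 = A 0 0 := by
  rw [act_apply, e0, Matrix.mulVec_single_one]
  rfl

omit [NeZero n] in
private theorem sig_smooth : ContDiff ℝ ∞ (sig : EE n → ℝ) := by
  unfold sig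
  have h1 : ContDiff ℝ ∞ (fun z : EE n => ‖z 0‖ ^ 2) := by
    have h2 : ContDiff ℝ ∞ (fun z : EE n => z 0) := contDiff_apply ℝ (Quaternion ℝ) (0 : Fin (n + 1))
    exact h2.norm_sq ℝ
  exact Real.smoothTransition.contDiff.comp (contDiff_const.sub h1)

theorem sig_kn : Kn (sig : EE n → ℝ) := by
  refine ⟨⟨sig_smooth, 3, ?_⟩, ?_, ?_⟩
  · intro g hg
    unfold sig
    rw [sig_act0]
    apply Real.smoothTransition.zero_of_nonpos
    nlinarith
  · intro k hk z
    unfold sig
    obtain ⟨h1, h2⟩ := KK_block hk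
    have h3 : (act k.mat z) 0 = k.mat 0 0 * z 0 := by
      rw [act_apply, Matrix.mulVec, dotProduct, Fin.sum_univ_succ]
      have h4 : ∑ i : Fin n, k.mat 0 i.succ * z i.succ = 0 := by
        refine Finset.sum_eq_zero fun i _ => ?_
        rw [(h1 i).2, zero_mul]
      rw [h4, add_zero]
    rw [h3, norm_mul, h2, one_mul]
  · intro x hx z
    unfold sig
    rw [norm_mul, hx, mul_one]

theorem sig_nonneg (z : EE n) : 0 ≤ sig z := Real.smoothTransition.nonneg _

theorem sig_pos {z : EE n} (hz : ‖z 0‖ ^ 2 < 5) : 0 < sig z := by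
  unfold sig
  apply Real.smoothTransition.pos_of_pos
  linarith

/-- `(a_t e0)_0 = cosh t`, also for products `a_{-u} a_s` -/
theorem act_hy_e0 (t : ℝ) : (act (hyM (ih n) t) (e0 n)) 0 = (Real.cosh t : ℝ) := by
  rw [sig_act0, hyM]
  simp only [Matrix.add_apply, Matrix.one_apply_eq, Matrix.smul_apply, Matrix.single_apply_same]
  have h1 : (Matrix.single (ih n).1.succ (ih n).1.succ (1 : Quaternion ℝ)) 0 0 = 0 := by
    rw [Matrix.single_apply_of_row_ne]
    exact Fin.succ_ne_zero _
  have h2 : (Xm (bs (ih n)) : Mt n) 0 0 = 0 := by simp [Xm]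
  rw [h1, h2, smul_zero, add_zero, add_zero]
  have h3 : (1 : Quaternion ℝ) + (Real.cosh t - 1) • (1 : Quaternion ℝ) =
      Real.cosh t • (1 : Quaternion ℝ) := by module
  rw [h3, ← Algebra.algebraMap_eq_smul_one]
  rfl

theorem cosh_one_sq : Real.cosh 1 ^ 2 < 5 := by
  have h1 := Real.exp_one_lt_d9
  have h2 : Real.exp (-1) < 1 := by
    rw [Real.exp_lt_one_iff]
    norm_num
  have h3 : Real.cosh 1 = (Real.exp 1 + Real.exp (-1)) / 2 := Real.cosh_eq 1
  have h4 : 0 < Real.cosh 1 := Real.cosh_pos 1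
  have h5 : Real.cosh 1 < 2 := by
    rw [h3]
    linarith
  nlinarith

end SPN

end
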