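import Pool.Agent.SPN.Taa
import Pool.Agent.SPN.Sig
import Pool.Agent.SPN.Uni

/-! # Module Rhoo (difficulty 3): the density `ρ`

`tau_sig_pos`: `tau sig (a_s e0) = ∫_0^1 w(u) Pt u sig (a_s e0) du`, `Pt u sig (a_s e0) = ∫_K σ(a_{-u} k⁻¹ a_s e0) dk > 0` for
`u, s ∈ [0, 1]`: the integrand is continuous, nonnegative and positive at `k = 1`, where it is `σ(a_{s-u} e0)` with
`‖(a_{s-u} e0)_0‖² = cosh² (s-u) ≤ cosh² 1 < 5` (`sig_pos`, `act_hy_e0`, `cosh_one_sq`), `kap` is positive on nonempty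
open sets (`IsHaarMeasure`). `w > 0` on `(0, 1)` (`wf_pos`), so the integral is positive
(`intervalIntegral.intervalIntegral_pos_of_pos_on`).
`cc_pos`: `kr (tau sig)` is continuous, nonnegative, compactly supported, positive at `1` (`hy_zero`).
`rho_bk`: `Bk` from `Kn.bk` (`tau_kn`), scaled. `rh_rho`: `kr_right`, `tau_sig_pos`. `wk_rho`: `kp_kap`, `isCompact_KK`,
`wJ_mem`, `wJ_hy`, `rho_bk`, `∫ ρ = cc⁻¹ cc = 1`. -/

open MeasureTheory Matrix
open scoped ContDiff

noncomputable section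

namespace SPN

variable {n : ℕ} [NeZero n]

omit [NeZero n] in
private theorem Rhoo_act_one (z : EE n) : act (1 : Mt n) z = z := by
  rw [act_apply, Matrix.one_mulVec]

private theorem Rhoo_cont (u : ℝ) (z : EE n) : Continuous fun k : KK n =>
    (sig : EE n → ℝ) (act (hyM (ih n) (-u)) (act ((k : GG n)⁻¹).mat z)) := by
  have h1 : Continuous (sig : EE n → ℝ) := sig_kn.smooth.continuous
  have h2 : Continuous fun k : KK n => act ((k : GG n)⁻¹).mat z := by
    simp only [act_apply]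
    have h3 : Continuous fun k : KK n => ((k : GG n)⁻¹).mat :=
      GG.continuous_mat.comp (continuous_inv.comp continuous_subtype_val)
    exact h3.matrix_mulVec continuous_const
  exact h1.comp ((act (hyM (ih n) (-u))).continuous.comp h2)

private theorem Rhoo_Pt_pos {u s : ℝ} (hu0 : 0 ≤ u) (hu1 : u ≤ 1) (h0 : 0 ≤ s) (h1 : s ≤ 1) :
    0 < Pt u (sig : EE n → ℝ) (act (hyM (ih n) s) (e0 n)) := by
  unfold Pt
  apply Continuous.integral_pos_of_hasCompactSupport_nonneg_nonzero (x := (1 : KK n))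
    (Rhoo_cont u _) (HasCompactSupport.of_compactSpace _)
  · intro k
    exact sig_nonneg _
  · apply ne_of_gt
    have e1 : (((1 : KK n) : GG n)⁻¹).mat = 1 := by
      rw [OneMemClass.coe_one, inv_one, GG.mat_one]
    rw [e1, Rhoo_act_one, ← act_mul, ← hyM_add]
    apply sig_pos
    rw [act_hy_e0]
    have e2 : ‖((Real.cosh (-u + s) : ℝ) : Quaternion ℝ)‖ = Real.cosh (-u + s) := by
      rw [Quaternion.norm_coe, Real.norm_eq_abs, abs_of_pos (Real.cosh_pos _)]
    rw [e2]
    have h3 : Real.cosh (-u + s) ≤ Real.cosh 1 := by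
      rw [Real.cosh_le_cosh, abs_one, abs_le]
      constructor <;> linarith
    have h4 := Real.cosh_pos (-u + s)
    have h5 := cosh_one_sq
    nlinarith

private theorem Rhoo_Pt_cont (z : EE n) : Continuous fun u : ℝ => Pt u (sig : EE n → ℝ) z := by
  have h3 := (Pt_joint (sig_kn : Kn (sig : EE n → ℝ)).smooth).continuous
  have h4 : Continuous fun u : ℝ => ((u, z) : ℝ × EE n) := by fun_prop
  have h5 := h3.comp h4
  exact h5

theorem tau_sig_pos {s : ℝ} (h0 : 0 ≤ s) (h1 : s ≤ 1) : 0 < kr (tau sig) (hy (ih n) s) := by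
  have hn : 1 ≤ n := Nat.one_le_iff_ne_zero.mpr (NeZero.ne n)
  show 0 < tau sig (act (hy (ih n) s).mat (e0 n))
  rw [mat_hy]
  unfold tau
  apply intervalIntegral.intervalIntegral_pos_of_pos_on
  · apply ContinuousOn.intervalIntegrable
    rw [Set.uIcc_of_le zero_le_one]
    apply (wf_cont n hn).mul
    exact (Rhoo_Pt_cont _).continuousOn
  · intro u hu
    exact mul_pos (wf_pos n hu.1 hu.2) (Rhoo_Pt_pos hu.1.le hu.2.le h0 h1)
  · exact zero_lt_one

private theorem Rhoo_nonneg (g : GG n) : 0 ≤ kr (tau sig) g := tau_nonneg sig_nonneg _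

theorem cc_pos : 0 < cc n := by
  have hk : Kn (tau (sig : EE n → ℝ)) := tau_kn sig_kn
  unfold cc
  apply Continuous.integral_pos_of_hasCompactSupport_nonneg_nonzero (x := (1 : GG n))
    (kr_continuous hk.toSm) (kr_compact hk.toSm)
  · intro g
    exact Rhoo_nonneg g
  · apply ne_of_gt
    have := tau_sig_pos (n := n) le_rfl zero_le_one
    rwa [hy_zero] at this

private theorem Rhoo_bk : Bk (KK n) (rho n) := by
  have hb := (tau_kn (sig_kn : Kn (sig : EE n → ℝ))).bk
  refine ⟨?_, ?_, ?_⟩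
  · exact continuous_const.mul hb.cont
  · exact hb.supp.mul_left
  · intro k hk h
    show (cc n)⁻¹ * kr (tau sig) (k * h) = (cc n)⁻¹ * kr (tau sig) h
    rw [hb.left k hk h]

theorem wk_rho : Wk (KK n) (kap n) (mu n) (hy (ih n) 1) (rho n) := by
  refine ⟨kp_kap n, isCompact_KK n, ⟨wJ n, wJ_mem, wJ_hy _ _⟩, Rhoo_bk, ?_, ?_⟩
  · intro h
    exact mul_nonneg (inv_nonneg.mpr cc_pos.le) (Rhoo_nonneg h)
  · show ∫ g, (cc n)⁻¹ * kr (tau sig) g ∂(mu n) = 1
    rw [integral_const_mul]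
    exact inv_mul_cancel₀ cc_pos.ne'

theorem rh_rho : Rh (KK n) (hy (ih n)) (rho n) := by
  refine ⟨?_, ?_⟩
  · intro k hk h
    show (cc n)⁻¹ * kr (tau sig) (h * k) = (cc n)⁻¹ * kr (tau sig) h
    rw [kr_right (tau_kn sig_kn) k hk h]
  · intro s h0 h1
    exact mul_pos (inv_pos.mpr cc_pos) (tau_sig_pos h0 h1)

end SPN

end
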