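import Pool.Agent.SPN.Meg

/-! # Module Sgf (difficulty 3): the functions `S_b`, `N_b` are bounded, measurable and invariant

`sg_abs_le : |sg s t| ≤ 1` (cases), `eqi_nonneg`, `eqi_le_one`.
`Mo.sg`: for `hq : Mo q`, `sg (q (δ * γ)) (q (δ * γ')) = sg (q γ) (q γ')`: `q a ≤ q b ↔ q (δ a) ≤ q (δ b)`
(`hq.mono δ`, and `hq.mono δ⁻¹` for the converse). The same for `eqi` (`q a = q b ↔ q (δ a) = q (δ b)` by
antisymmetry of `≤`).
`Sf_abs_le`: `norm_integral_le_integral_norm`, `|b h * sg| ≤ |b h|`, `integral_mono_of_nonneg`.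
`Gf_Sf`: measurability: for fixed `γ`, `v ↦ ∫ b h * sg (q γ) (q (π (v h)))` is (strongly) measurable:
`StronglyMeasurable.integral_prod_right'` applied to `(v, h) ↦ b h * F v h`; if `b` is only
ae-strongly-measurable replace it by `hb.1.mk b` (the integral does not change). The function
`(v, h) ↦ sg (q γ) (q (π (v h)))` is measurable by `meas_pair` with `g v γ' = sg (q γ) (q γ')`.
Boundedness: `Sf_abs_le`. Invariance: `π (δ v h) = δ π (v h)` (`hD.equiv`, `mul_assoc`) and `Mo.sg`.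
`Gf_Nf`: the same. -/

open MeasureTheory

namespace SPN

section

variable {X : Type*} [LinearOrder X]

theorem sg_abs_le (s t : X) : |sg s t| ≤ 1 := by
  unfold sg
  split_ifs <;> norm_num

theorem eqi_nonneg (s t : X) : 0 ≤ eqi s t := by
  unfold eqi
  split_ifs <;> norm_num

theorem eqi_le_one (s t : X) : eqi s t ≤ 1 := by
  unfold eqi
  split_ifs <;> norm_num

theorem sg_anti (s t : X) : sg s t = - sg t s := by
  unfold sg
  ring

theorem eqi_symm (s t : X) : eqi s t = eqi t s := by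
  unfold eqi
  simp only [eq_comm]

end

variable {G : Type*} [Group G] [MeasurableSpace G] {μ : Measure G}
  {Γ : Subgroup G} {π : G → Γ} {X : Type*} [LinearOrder X] {q : Γ → X}

private theorem sgf_le_iff (hq : Mo q) (δ a b : Γ) : q (δ * a) ≤ q (δ * b) ↔ q a ≤ q b := by
  constructor
  · intro h
    have h1 := hq.mono δ⁻¹ _ _ h
    simpa using h1
  · intro h
    exact hq.mono δ _ _ h

theorem Mo.sg (hq : Mo q) (δ γ γ' : Γ) : SPN.sg (q (δ * γ)) (q (δ * γ')) = SPN.sg (q γ) (q γ') := by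
  unfold SPN.sg
  simp only [sgf_le_iff hq]

theorem Mo.eqi (hq : Mo q) (δ γ γ' : Γ) :
    SPN.eqi (q (δ * γ)) (q (δ * γ')) = SPN.eqi (q γ) (q γ') := by
  unfold SPN.eqi
  have h : q (δ * γ) = q (δ * γ') ↔ q γ = q γ' := by
    rw [le_antisymm_iff, le_antisymm_iff, sgf_le_iff hq, sgf_le_iff hq]
  simp only [h]

theorem Sf_abs_le {b : G → ℝ} (hb : Integrable b μ) (v : G) (γ : Γ) :
    |Sf μ π q b v γ| ≤ ∫ h, |b h| ∂μ := by
  unfold Sf
  have h1 : |∫ h, b h * SPN.sg (q γ) (q (π (v * h))) ∂μ| ≤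
      ∫ h, |b h * SPN.sg (q γ) (q (π (v * h)))| ∂μ := abs_integral_le_integral_abs
  refine h1.trans ?_
  refine integral_mono_of_nonneg (Filter.Eventually.of_forall fun h => abs_nonneg _) hb.abs
    (Filter.Eventually.of_forall fun h => ?_)
  show |b h * SPN.sg (q γ) (q (π (v * h)))| ≤ |b h|
  rw [abs_mul]
  exact mul_le_of_le_one_right (abs_nonneg _) (sg_abs_le _ _)

theorem Nf_abs_le {b : G → ℝ} (hb : Integrable b μ) (v : G) (γ : Γ) :
    |Nf μ π q b v γ| ≤ ∫ h, |b h| ∂μ := by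
  unfold Nf
  have h1 : |∫ h, b h * SPN.eqi (q γ) (q (π (v * h))) ∂μ| ≤
      ∫ h, |b h * SPN.eqi (q γ) (q (π (v * h)))| ∂μ := abs_integral_le_integral_abs
  refine h1.trans ?_
  refine integral_mono_of_nonneg (Filter.Eventually.of_forall fun h => abs_nonneg _) hb.abs
    (Filter.Eventually.of_forall fun h => ?_)
  show |b h * SPN.eqi (q γ) (q (π (v * h)))| ≤ |b h|
  rw [abs_mul, abs_of_nonneg (eqi_nonneg _ _)]
  exact mul_le_of_le_one_right (abs_nonneg _) (eqi_le_one _ _)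

theorem Nf_nonneg {b : G → ℝ} (hb : ∀ h, 0 ≤ b h) (v : G) (γ : Γ) : 0 ≤ Nf μ π q b v γ := by
  unfold Nf
  exact integral_nonneg fun h => mul_nonneg (hb h) (eqi_nonneg _ _)

private theorem sgf_meas [MeasurableMul₂ G] [SigmaFinite μ] (hD : Dm μ Γ π) {b : G → ℝ}
    (hb : Integrable b μ) (F : Γ → ℝ) :
    Measurable (fun v => ∫ h, b h * F (π (v * h)) ∂μ) := by
  have e : (fun v => ∫ h, b h * F (π (v * h)) ∂μ) =
      fun v => ∫ h, hb.1.mk b h * F (π (v * h)) ∂μ := by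
    funext v
    refine integral_congr_ae ?_
    filter_upwards [hb.1.ae_eq_mk] with h hh
    rw [hh]
  rw [e]
  have h1 : Measurable (fun p : G × G => hb.1.mk b p.2 * F (π (p.1 * p.2))) :=
    (hb.1.stronglyMeasurable_mk.measurable.comp measurable_snd).mul
      (meas_pair hD (g := fun _ γ' => F γ') (fun _ => measurable_const))
  exact (h1.stronglyMeasurable.integral_prod_right' (ν := μ)).measurable

theorem Gf_Sf [MeasurableMul₂ G] [SigmaFinite μ] (hD : Dm μ Γ π) (hq : Mo q) {b : G → ℝ}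
    (hb : Integrable b μ) : Gf (Sf μ π q b) := by
  refine ⟨fun γ => ?_, ⟨∫ h, |b h| ∂μ, fun v γ => Sf_abs_le hb v γ⟩, fun δ v γ => ?_⟩
  · exact sgf_meas hD hb (fun γ' => SPN.sg (q γ) (q γ'))
  · unfold Sf
    congr 1
    funext h
    rw [mul_assoc, hD.equiv, hq.sg]

theorem Gf_Nf [MeasurableMul₂ G] [SigmaFinite μ] (hD : Dm μ Γ π) (hq : Mo q) {b : G → ℝ}
    (hb : Integrable b μ) : Gf (Nf μ π q b) := by
  refine ⟨fun γ => ?_, ⟨∫ h, |b h| ∂μ, fun v γ => Nf_abs_le hb v γ⟩, fun δ v γ => ?_⟩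
  · exact sgf_meas hD hb (fun γ' => SPN.eqi (q γ) (q γ'))
  · unfold Nf
    congr 1
    funext h
    rw [mul_assoc, hD.equiv, hq.eqi]

theorem Gf_const (c : ℝ) : Gf (fun (_ : G) (_ : Γ) => c) :=
  ⟨fun _ => measurable_const, ⟨|c|, fun _ _ => le_rfl⟩, fun _ _ _ => rfl⟩

theorem Gf.mul {f g : G → Γ → ℝ} (hf : Gf f) (hg : Gf g) : Gf (fun v γ => f v γ * g v γ) := by
  obtain ⟨C, hC⟩ := hf.bdd
  obtain ⟨D, hD⟩ := hg.bdd
  refine ⟨fun γ => (hf.meas γ).mul (hg.meas γ), ⟨C * D, fun v γ => ?_⟩, fun δ v γ => ?_⟩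
  · rw [abs_mul]
    exact mul_le_mul (hC v γ) (hD v γ) (abs_nonneg _) ((abs_nonneg _).trans (hC v γ))
  · show f (δ * v) (δ * γ) * g (δ * v) (δ * γ) = f v γ * g v γ
    rw [hf.inv, hg.inv]

theorem Gf.add {f g : G → Γ → ℝ} (hf : Gf f) (hg : Gf g) : Gf (fun v γ => f v γ + g v γ) := by
  obtain ⟨C, hC⟩ := hf.bdd
  obtain ⟨D, hD⟩ := hg.bdd
  refine ⟨fun γ => (hf.meas γ).add (hg.meas γ), ⟨C + D, fun v γ => ?_⟩, fun δ v γ => ?_⟩
  · exact (abs_add_le _ _).trans (add_le_add (hC v γ) (hD v γ))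
  · show f (δ * v) (δ * γ) + g (δ * v) (δ * γ) = f v γ + g v γ
    rw [hf.inv, hg.inv]

theorem Gf.cmul {f : G → Γ → ℝ} (c : ℝ) (hf : Gf f) : Gf (fun v γ => c * f v γ) :=
  (Gf_const c).mul hf

theorem Gf.abs {f : G → Γ → ℝ} (hf : Gf f) : Gf (fun v γ => |f v γ|) := by
  obtain ⟨C, hC⟩ := hf.bdd
  refine ⟨fun γ => (hf.meas γ).abs, ⟨C, fun v γ => ?_⟩, fun δ v γ => ?_⟩
  · rw [abs_abs]
    exact hC v γ
  · show |f (δ * v) (δ * γ)| = |f v γ|
    rw [hf.inv]

theorem Gf.sum {ι : Type*} {s : Finset ι} {f : ι → G → Γ → ℝ} (hf : ∀ i ∈ s, Gf (f i)) :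
    Gf (fun v γ => ∑ i ∈ s, f i v γ) := by
  classical
  induction s using Finset.induction_on with
  | empty => simpa using Gf_const (G := G) (Γ := Γ) 0
  | insert a s ha ih =>
    have h1 : Gf (fun v γ => f a v γ + ∑ i ∈ s, f i v γ) :=
      (hf a (Finset.mem_insert_self a s)).add
        (ih fun i hi => hf i (Finset.mem_insert_of_mem hi))
    simpa [Finset.sum_insert ha] using h1

end SPN
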