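import Pool.Agent.SPN.Qe

/-! # Module Wfn (difficulty 3): the weight `w(s) = J(s) ∫_s^1 dr / J(r)`

`J(s) = sinh(s)^(4n-4) sinh(2s)^3 > 0` for `s > 0`, smooth, `J' = hc n s * J` for `s > 0`.
`wf_deriv`: product rule and `d/ds ∫_s^1 1/J = -1/J(s)` (`intervalIntegral.integral_hasDerivAt_left`, `1/J` is continuous
on `(0, ∞)`). `wf_cont`: on `(0, 1]` from the derivative formula (it holds for all `s > 0`); at `0`: `wf n 0 = 0`
(`J(0) = 0` because of the factor `sinh(0)^3`) and `0 ≤ wf n s ≤ s`: for `0 < s ≤ r`: `sinh r / sinh s ≥ 1`,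
`sinh 2r / sinh 2s ≥ r / s` (`sinh x / x` is increasing, e.g. convexity of `sinh` on `[0, ∞)`, `sinh 0 = 0`), so
`J(s)/J(r) ≤ (s/r)³ ≤ (s/r)²` and `wf n s ≤ ∫_s^1 s²/r² dr = s² (1/s - 1) ≤ s`. -/

open MeasureTheory Matrix

noncomputable section

namespace SPN

private theorem wfn_cont (n : ℕ) : Continuous (Jf n) := by
  unfold Jf
  exact (Real.continuous_sinh.pow _).mul
    ((Real.continuous_sinh.comp (continuous_const.mul continuous_id)).pow 3)

private theorem wfn_pos (n : ℕ) {s : ℝ} (h0 : 0 < s) : 0 < Jf n s := by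
  unfold Jf
  have h1 : 0 < Real.sinh s := Real.sinh_pos_iff.2 h0
  have h2 : 0 < Real.sinh (2 * s) := Real.sinh_pos_iff.2 (by linarith)
  positivity

private theorem wfn_int (n : ℕ) {s : ℝ} (h0 : 0 < s) :
    IntervalIntegrable (fun r => (Jf n r)⁻¹) volume s 1 := by
  refine ContinuousOn.intervalIntegrable ?_
  refine (wfn_cont n).continuousOn.inv₀ ?_
  intro x hx
  have h1 : 0 < x := by
    rw [Set.mem_uIcc] at hx
    rcases hx with h | h <;> linarith [h.1]
  exact (wfn_pos n h1).ne'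

private theorem wfn_J (n : ℕ) (hn : 1 ≤ n) {s : ℝ} (h0 : 0 < s) :
    HasDerivAt (Jf n) (hc n s * Jf n s) s := by
  have h1 : 0 < Real.sinh s := Real.sinh_pos_iff.2 h0
  have h2 : 0 < Real.sinh (2 * s) := Real.sinh_pos_iff.2 (by linarith)
  have e1 := (Real.hasDerivAt_sinh s).pow (4 * n - 4)
  have e2 : HasDerivAt (fun x : ℝ => 2 * x) 2 s := by
    simpa using (hasDerivAt_id s).const_mul 2
  have e3 := ((Real.hasDerivAt_sinh (2 * s)).comp s e2).pow 3
  have e4 := e1.mul e3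
  have e5 : HasDerivAt (Jf n) _ s := e4
  convert e5 using 1
  have hcast : (4 * (n : ℝ) - 4) = ((4 * n - 4 : ℕ) : ℝ) := by
    rw [Nat.cast_sub (by omega)]
    push_cast
    ring
  unfold hc Jf
  rw [hcast]
  have hpow : ((4 * n - 4 : ℕ) : ℝ) * (Real.cosh s / Real.sinh s) * Real.sinh s ^ (4 * n - 4) =
      ((4 * n - 4 : ℕ) : ℝ) * Real.sinh s ^ (4 * n - 4 - 1) * Real.cosh s := by
    rcases Nat.eq_zero_or_pos (4 * n - 4) with h | h
    · rw [h]
      simp
    · obtain ⟨m, hm⟩ : ∃ m, 4 * n - 4 = m + 1 := ⟨4 * n - 4 - 1, by omega⟩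
      rw [hm, Nat.add_sub_cancel, pow_succ]
      field_simp
  have h3 : 6 * (Real.cosh (2 * s) / Real.sinh (2 * s)) * Real.sinh (2 * s) ^ 3 =
      3 * Real.sinh (2 * s) ^ 2 * (Real.cosh (2 * s) * 2) := by
    field_simp
    ring
  have h4 : (((4 * n - 4 : ℕ) : ℝ) * (Real.cosh s / Real.sinh s) +
      6 * (Real.cosh (2 * s) / Real.sinh (2 * s))) *
      (Real.sinh s ^ (4 * n - 4) * Real.sinh (2 * s) ^ 3) =
      (((4 * n - 4 : ℕ) : ℝ) * (Real.cosh s / Real.sinh s) * Real.sinh s ^ (4 * n - 4)) *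
        Real.sinh (2 * s) ^ 3 + Real.sinh s ^ (4 * n - 4) *
        (6 * (Real.cosh (2 * s) / Real.sinh (2 * s)) * Real.sinh (2 * s) ^ 3) := by
    ring
  rw [h4, hpow, h3]
  simp only [Function.comp]
  norm_num

private theorem wfn_der (n : ℕ) (hn : 1 ≤ n) {s : ℝ} (h0 : 0 < s) :
    HasDerivAt (wf n) (hc n s * wf n s - 1) s := by
  have h1 := wfn_J n hn h0
  have hmeas : Measurable (fun r => (Jf n r)⁻¹) := (wfn_cont n).measurable.inv
  have h2 : HasDerivAt (fun u => ∫ r in u..1, (Jf n r)⁻¹) (-(Jf n s)⁻¹) s :=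
    intervalIntegral.integral_hasDerivAt_left (wfn_int n h0)
      hmeas.stronglyMeasurable.stronglyMeasurableAtFilter
      ((wfn_cont n).continuousAt.inv₀ (wfn_pos n h0).ne')
  have h3 := h1.mul h2
  have h4 : HasDerivAt (wf n) _ s := h3
  convert h4 using 1
  unfold wf
  have h5 := (wfn_pos n h0).ne'
  field_simp
  ring

private theorem wfn_sinh {s r : ℝ} (h0 : 0 < s) (h1 : s ≤ r) :
    Real.sinh (2 * s) / Real.sinh (2 * r) ≤ s / r := by
  have hr : 0 < r := by linarith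
  have h2 : 0 < Real.sinh (2 * r) := Real.sinh_pos_iff.2 (by linarith)
  have hcv : ConvexOn ℝ (Set.Ici (0 : ℝ)) Real.sinh := by
    refine MonotoneOn.convexOn_of_deriv (convex_Ici 0) Real.continuous_sinh.continuousOn
      Real.differentiable_sinh.differentiableOn ?_
    rw [Real.deriv_sinh, interior_Ici]
    intro x hx y hy hxy
    rw [Set.mem_Ioi] at hx hy
    rw [Real.cosh_le_cosh, abs_of_pos hx, abs_of_pos hy]
    exact hxy
  have ht0 : 0 ≤ s / r := by positivity
  have ht1 : s / r ≤ 1 := by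
    rw [div_le_one hr]
    exact h1
  have h3 := hcv.2 (show (2 * r) ∈ Set.Ici (0 : ℝ) from by
    rw [Set.mem_Ici]
    linarith) (show (0 : ℝ) ∈ Set.Ici (0 : ℝ) from Set.mem_Ici.2 le_rfl) ht0
    (show 0 ≤ 1 - s / r by linarith) (by ring)
  simp only [smul_eq_mul, mul_zero, add_zero, Real.sinh_zero] at h3
  have h4 : s / r * (2 * r) = 2 * s := by
    field_simp
  rw [h4] at h3
  rw [div_le_iff₀ h2]
  exact h3

private theorem wfn_le (n : ℕ) {s : ℝ} (h0 : 0 < s) (h1 : s ≤ 1) : wf n s ≤ Real.negMulLog s := by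
  have h2 : wf n s = ∫ r in s..1, Jf n s * (Jf n r)⁻¹ := by
    unfold wf
    rw [intervalIntegral.integral_const_mul]
  have h3 : ∫ r in s..1, s * r⁻¹ = Real.negMulLog s := by
    rw [intervalIntegral.integral_const_mul, integral_inv_of_pos h0 one_pos, Real.log_div one_ne_zero
      h0.ne', Real.log_one, Real.negMulLog]
    ring
  rw [h2, ← h3]
  refine intervalIntegral.integral_mono_on h1 ((wfn_int n h0).const_mul _) ?_ ?_
  · refine ContinuousOn.intervalIntegrable ?_
    refine continuousOn_const.mul (continuousOn_id.inv₀ ?_)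
    intro x hx
    rw [Set.uIcc_of_le h1] at hx
    have : 0 < x := lt_of_lt_of_le h0 hx.1
    exact this.ne'
  · intro r hr
    have hr0 : 0 < r := lt_of_lt_of_le h0 hr.1
    have hS : 0 < Real.sinh s := Real.sinh_pos_iff.2 h0
    have hR : 0 < Real.sinh r := Real.sinh_pos_iff.2 hr0
    have hS2 : 0 < Real.sinh (2 * s) := Real.sinh_pos_iff.2 (by linarith)
    have hR2 : 0 < Real.sinh (2 * r) := Real.sinh_pos_iff.2 (by linarith)
    have e1 : Jf n s * (Jf n r)⁻¹ = (Real.sinh s / Real.sinh r) ^ (4 * n - 4) *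
        (Real.sinh (2 * s) / Real.sinh (2 * r)) ^ 3 := by
      unfold Jf
      rw [div_pow, div_pow, mul_inv]
      ring
    have e2 : (Real.sinh s / Real.sinh r) ^ (4 * n - 4) ≤ 1 := by
      refine pow_le_one₀ (by positivity) ?_
      rw [div_le_one hR, Real.sinh_le_sinh]
      exact hr.1
    have hq : Real.sinh (2 * s) / Real.sinh (2 * r) ≤ s / r := wfn_sinh h0 hr.1
    have hsr : s / r ≤ 1 := by
      rw [div_le_one hr0]
      exact hr.1
    have hsr0 : 0 ≤ s / r := by positivity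
    have e3 : (Real.sinh (2 * s) / Real.sinh (2 * r)) ^ 3 ≤ s / r := by
      calc (Real.sinh (2 * s) / Real.sinh (2 * r)) ^ 3 ≤ (s / r) ^ 3 :=
            pow_le_pow_left₀ (by positivity) hq 3
        _ ≤ (s / r) ^ 1 := pow_le_pow_of_le_one hsr0 hsr (by norm_num)
        _ = s / r := pow_one _
    rw [e1]
    calc (Real.sinh s / Real.sinh r) ^ (4 * n - 4) *
        (Real.sinh (2 * s) / Real.sinh (2 * r)) ^ 3 ≤ 1 * (s / r) :=
          mul_le_mul e2 e3 (by positivity) (by norm_num)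
      _ = s * r⁻¹ := by rw [one_mul, div_eq_mul_inv]

theorem wf_zero (n : ℕ) : wf n 0 = 0 := by
  unfold wf Jf
  simp

theorem wf_one (n : ℕ) : wf n 1 = 0 := by
  unfold wf
  simp

theorem wf_nonneg (n : ℕ) {s : ℝ} (h0 : 0 ≤ s) (h1 : s ≤ 1) : 0 ≤ wf n s := by
  rcases h0.eq_or_lt with h | h
  · rw [← h, wf_zero]
  · unfold wf
    refine mul_nonneg (wfn_pos n h).le (intervalIntegral.integral_nonneg h1 ?_)
    intro r hr
    exact (inv_pos.2 (wfn_pos n (lt_of_lt_of_le h hr.1))).le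

theorem wf_pos (n : ℕ) {s : ℝ} (h0 : 0 < s) (h1 : s < 1) : 0 < wf n s := by
  unfold wf
  refine mul_pos (wfn_pos n h0) ?_
  refine intervalIntegral.intervalIntegral_pos_of_pos_on (wfn_int n h0) ?_ h1
  intro r hr
  exact inv_pos.2 (wfn_pos n (lt_trans h0 hr.1))

theorem wf_cont (n : ℕ) (hn : 1 ≤ n) : ContinuousOn (wf n) (Set.Icc 0 1) := by
  intro s hs
  rcases hs.1.eq_or_lt with h | h
  · rw [← h]
    unfold ContinuousWithinAt
    rw [wf_zero]
    have h1 : Filter.Tendsto Real.negMulLog (nhdsWithin 0 (Set.Icc 0 1)) (nhds 0) := by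
      have h2 := (Real.continuous_negMulLog.continuousAt (x := 0)).continuousWithinAt
        (s := Set.Icc (0 : ℝ) 1)
      unfold ContinuousWithinAt at h2
      rwa [Real.negMulLog_zero] at h2
    refine tendsto_of_tendsto_of_tendsto_of_le_of_le' tendsto_const_nhds h1 ?_ ?_
    · filter_upwards [self_mem_nhdsWithin] with x hx
      exact wf_nonneg n hx.1 hx.2
    · filter_upwards [self_mem_nhdsWithin] with x hx
      rcases hx.1.eq_or_lt with h3 | h3
      · rw [← h3, wf_zero, Real.negMulLog_zero]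
      · exact wfn_le n h3 hx.2
  · exact (wfn_der n hn h).continuousAt.continuousWithinAt

theorem wf_deriv (n : ℕ) (hn : 1 ≤ n) {s : ℝ} (h0 : 0 < s) (h1 : s < 1) :
    HasDerivAt (wf n) (hc n s * wf n s - 1) s :=
  wfn_der n hn h0

end SPN

end
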