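import Pool.Agent.SPN.Pts
import Pool.Agent.SPN.Wfn
import Pool.Agent.SPN.Gel
import Pool.Agent.SPN.Kak

/-! # Module Taa (difficulty 3): the operator `tau`

`tau_contDiff`: `par_interval` with `f s z = Pt s m z` (`Pt_joint`) and `wf_cont`. `LX_tau`: `par_interval_fderiv`.
`tau_kn`: invariance under `K` and right multiplication from `Pt_kn`; support from `Pt_supp`.
`tau_nonneg`: `wf_nonneg`, `Pt_nonneg`, `intervalIntegral.integral_nonneg`.
`kr_tau`: definition and `kr_Pt`. `tau_comm`: `kr (tau (Pt 1 m)) g = ∫ w(s) Pk_s (Pk_1 (kr m)) g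
= ∫ w(s) Pk_1 (Pk_s (kr m)) g` (`kr_Pt`, `Pk_comm` with `ax_hy`, `Kn.bk`, `kr_right`)
`= ∫_0^1 w(s) ∫_K (Pk_s (kr m)) (a_1⁻¹ k⁻¹ g) dk ds`, exchange the integrals (continuous integrand on a compact set):
`= ∫_K kr (tau m) (a_1⁻¹ k⁻¹ g) dk = Pk_1 (kr (tau m)) g`. -/

open MeasureTheory Matrix
open scoped ContDiff

noncomputable section

namespace SPN

variable {n : ℕ} [NeZero n]

private theorem Taa_swap {V : Type*} [TopologicalSpace V] {T : Type*} [TopologicalSpace T]
    [CompactSpace T] [SecondCountableTopology T] [MeasurableSpace T] [BorelSpace T]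
    (κ : Measure T) [IsFiniteMeasure κ] {φ : ℝ → V → ℝ}
    (hφ : Continuous (fun p : ℝ × V => φ p.1 p.2)) {w : ℝ → ℝ}
    (hw : ContinuousOn w (Set.Icc 0 1)) {ψ : T → V} (hψ : Continuous ψ) :
    ∫ s in Set.Icc (0 : ℝ) 1, ∫ k : T, w s * φ s (ψ k) ∂κ
      = ∫ k : T, (∫ s in Set.Icc (0 : ℝ) 1, w s * φ s (ψ k)) ∂κ := by
  have h1 : Continuous (fun p : ℝ × T => φ p.1 (ψ p.2)) :=
    hφ.comp (continuous_fst.prodMk (hψ.comp continuous_snd))
  have hco : ContinuousOn (fun p : ℝ × T => w p.1 * φ p.1 (ψ p.2))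
      (Set.Icc (0 : ℝ) 1 ×ˢ (Set.univ : Set T)) :=
    (hw.comp continuousOn_fst (fun p hp => hp.1)).mul h1.continuousOn
  have hm : MeasurableSet (Set.Icc (0 : ℝ) 1 ×ˢ (Set.univ : Set T)) :=
    measurableSet_Icc.prod MeasurableSet.univ
  have h3 := ContinuousOn.integrableOn_compact' (μ := (volume : Measure ℝ).prod κ)
    (isCompact_Icc.prod isCompact_univ) hm hco
  rw [IntegrableOn, ← Measure.prod_restrict, Measure.restrict_univ] at h3
  exact integral_integral_swap (f := fun s k => w s * φ s (ψ k)) h3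

theorem tau_contDiff {m : EE n → ℝ} (hm : ContDiff ℝ ∞ m) : ContDiff ℝ ∞ (tau m) := by
  have hn : 1 ≤ n := Nat.one_le_iff_ne_zero.2 (NeZero.ne n)
  exact par_interval (f := fun s z => Pt s m z) (Pt_joint hm) (wf_cont n hn)

theorem LX_tau {m : EE n → ℝ} (hm : ContDiff ℝ ∞ m) (A : Mt n) (z : EE n) :
    LX A (tau m) z = ∫ s in (0)..1, wf n s * LX A (Pt s m) z := by
  have hn : 1 ≤ n := Nat.one_le_iff_ne_zero.2 (NeZero.ne n)
  have h1 : fderiv ℝ (tau m) z (act A z) = ∫ s in (0)..1, wf n s * fderiv ℝ (Pt s m) z (act A z) :=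
    par_interval_fderiv (f := fun s z => Pt s m z) (Pt_joint hm) (wf_cont n hn) z (act A z)
  unfold LX
  rw [h1, ← intervalIntegral.integral_neg]
  congr 1
  funext s
  ring

theorem tau_kn {m : EE n → ℝ} (hm : Kn m) : Kn (tau m) := by
  refine { smooth := tau_contDiff hm.smooth, supp := ?_, left := ?_, right := ?_ }
  · obtain ⟨R, hR⟩ := Pt_supp hm
    refine ⟨R, fun g hg => ?_⟩
    unfold tau
    rw [intervalIntegral.integral_congr (g := fun _ => (0 : ℝ))]
    · simp
    · intro s hs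
      rw [Set.uIcc_of_le zero_le_one] at hs
      simp only
      rw [hR s hs.1 hs.2 g hg, mul_zero]
  · intro k hk z
    unfold tau
    congr 1
    funext s
    rw [(Pt_kn hm s).left k hk z]
  · intro x hx z
    unfold tau
    congr 1
    funext s
    rw [(Pt_kn hm s).right x hx z]

theorem tau_nonneg {m : EE n → ℝ} (h0 : ∀ z, 0 ≤ m z) (z : EE n) : 0 ≤ tau m z := by
  exact intervalIntegral.integral_nonneg zero_le_one
    (fun s hs => mul_nonneg (wf_nonneg n hs.1 hs.2) (Pt_nonneg h0 s z))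

theorem tau_comm {m : EE n → ℝ} (hm : Kn m) :
    kr (tau (Pt 1 m)) = Pk (KK n) (kap n) (hy (ih n) 1) (kr (tau m)) := by
  have hn : 1 ≤ n := Nat.one_le_iff_ne_zero.2 (NeZero.ne n)
  have hax : Ax (KK n) (hy (ih n)) := ax_hy
  funext g
  set ψ : KK n → EE n := fun k =>
    act (((hy (ih n) 1)⁻¹ * ((k : GG n))⁻¹ * g).mat) (e0 n) with hψdef
  have hψ : Continuous ψ := by
    rw [hψdef]
    simp only [act_apply]
    refine Continuous.matrix_mulVec ?_ continuous_const
    refine GG.continuous_mat.comp ?_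
    exact (continuous_const.mul continuous_subtype_val.inv).mul continuous_const
  have hs : ∀ s : ℝ, Pt s (Pt 1 m) (act g.mat (e0 n))
      = ∫ k : KK n, Pt s m (ψ k) ∂(kap n) := by
    intro s
    have h1 : kr (Pt s (Pt 1 m)) = Pk (KK n) (kap n) (hy (ih n) 1) (kr (Pt s m)) := by
      rw [kr_Pt, kr_Pt, kr_Pt]
      exact Pk_comm (kp_kap n) (isCompact_KK n) hax hm.bk (kr_right hm) _ _
    exact congrFun h1 g
  have e1 : kr (tau (Pt 1 m)) g = ∫ s in Set.Icc (0 : ℝ) 1, ∫ k : KK n,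
      wf n s * Pt s m (ψ k) ∂(kap n) := by
    have e3 : kr (tau (Pt 1 m)) g
        = ∫ s in (0)..1, wf n s * Pt s (Pt 1 m) (act g.mat (e0 n)) := rfl
    rw [e3, intervalIntegral.integral_of_le zero_le_one, ← integral_Icc_eq_integral_Ioc]
    congr 1
    funext s
    rw [hs s, integral_const_mul]
  have e2 : Pk (KK n) (kap n) (hy (ih n) 1) (kr (tau m)) g = ∫ k : KK n,
      (∫ s in Set.Icc (0 : ℝ) 1, wf n s * Pt s m (ψ k)) ∂(kap n) := by
    have e3 : Pk (KK n) (kap n) (hy (ih n) 1) (kr (tau m)) g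
        = ∫ k : KK n, (∫ s in (0)..1, wf n s * Pt s m (ψ k)) ∂(kap n) := rfl
    rw [e3]
    congr 1
    funext k
    rw [intervalIntegral.integral_of_le zero_le_one, ← integral_Icc_eq_integral_Ioc]
  rw [e1, e2]
  have hsc : SecondCountableTopology (KK n) :=
    (Topology.IsEmbedding.subtypeVal (p := fun g : GG n => g ∈ KK n)).secondCountableTopology
  exact Taa_swap (kap n) (φ := fun s z => Pt s m z) (Pt_joint hm.smooth).continuous
    (wf_cont n hn) hψ

end SPN

end
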