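import Pool.Agent.SPN.Inv
import Pool.Agent.SPN.Lin

/-! # Module Unf (difficulty 4): unfolding

`av a g = ∫_{v ∈ D} ∫_h a(h) g(v, π(v h)) = ∫_{v ∈ D} ∫_z a(v⁻¹ z) g(v, π z)` (substitution `h = v⁻¹ z`,
`integral_mul_left_eq_self`) `= ∫_{z ∈ D} ∫_v a(v⁻¹ z) g(v, π z)` by `mass` (the function
`F v z = a(v⁻¹ z) g(v, π z)` is invariant: `hg.inv`, `hD.equiv`; integrable: `integrable_pair` after the
measure preserving change of variables `(v, h) ↦ (v, v h)`, `measurePreserving_prod_mul` and its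
inverse), `π z = 1` for `z ∈ D`, and Fubini once more. (`g v 1` is bounded and measurable.)
`om_integral`: `av_unfold` with `g = 1` (`Gf_const`) and `av_const`.
`om_le`: `∫_{z ∈ D} a(v⁻¹ z) ≤ ∫_G a(v⁻¹ z) dz = ∫ a` (`setIntegral_le_integral`, left invariance). -/

open MeasureTheory

namespace SPN

variable {G : Type*} [Group G] [MeasurableSpace G] [MeasurableMul₂ G] [MeasurableInv G]
  {μ : Measure G} [μ.IsMulLeftInvariant] [μ.IsMulRightInvariant] [μ.IsInvInvariant] [SigmaFinite μ]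
  {Γ : Subgroup G} {π : G → Γ}

/-- the weight `ω_a(v) = ∫_{z ∈ D} a(v⁻¹ z)` -/
noncomputable def om (μ : Measure G) (π : G → Γ) (a : G → ℝ) (v : G) : ℝ :=
  ∫ z in D0 π, a (v⁻¹ * z) ∂μ

private theorem unf_pair0 (hD : Dm μ Γ π) {a : G → ℝ} (ha : Integrable a μ) :
    Integrable (fun p : G × G => a (p.2⁻¹ * p.1)) ((μ.restrict (D0 π)).prod μ) := by
  have hfin : IsFiniteMeasure (μ.restrict (D0 π)) := ⟨by
    rw [Measure.restrict_apply_univ]; exact hD.fin⟩
  have h1 : Integrable (fun p : G × G => a p.2) ((μ.restrict (D0 π)).prod μ) := ha.comp_snd _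
  have h2 : MeasurePreserving (fun p : G × G => (p.1, p.1⁻¹ * p.2)) ((μ.restrict (D0 π)).prod μ)
      ((μ.restrict (D0 π)).prod μ) := measurePreserving_prod_inv_mul (μ.restrict (D0 π)) μ
  have h3 : MeasurePreserving (Prod.map (id : G → G) (fun x : G => x⁻¹))
      ((μ.restrict (D0 π)).prod μ) ((μ.restrict (D0 π)).prod μ) :=
    (MeasurePreserving.id _).prod (Measure.measurePreserving_inv μ)
  have h4 := (h3.comp h2).integrable_comp_of_integrable h1
  refine h4.congr (Filter.Eventually.of_forall fun p => ?_)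
  simp [Function.comp_def, mul_inv_rev]

theorem av_unfold (hD : Dm μ Γ π) {a : G → ℝ} (ha : Integrable a μ) {g : G → Γ → ℝ}
    (hg : Gf g) : av μ π a g = ∫ v, g v 1 * om μ π a v ∂μ := by
  have hfin : IsFiniteMeasure (μ.restrict (D0 π)) := ⟨by
    rw [Measure.restrict_apply_univ]; exact hD.fin⟩
  -- the substitution
  have e1 : ∀ v : G, ∫ h, a h * g v (π (v * h)) ∂μ = ∫ z, a (v⁻¹ * z) * g v (π z) ∂μ := by
    intro v
    rw [← integral_mul_left_eq_self (fun h => a h * g v (π (v * h))) v⁻¹]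
    simp only [mul_inv_cancel_left]
  have hF : Integrable (fun p : G × G => a (p.1⁻¹ * p.2) * g p.1 (π p.2))
      ((μ.restrict (D0 π)).prod μ) := by
    have h2 : MeasurePreserving (fun p : G × G => (p.1, p.1⁻¹ * p.2)) ((μ.restrict (D0 π)).prod μ)
      ((μ.restrict (D0 π)).prod μ) := measurePreserving_prod_inv_mul (μ.restrict (D0 π)) μ
    have h3 := h2.integrable_comp_of_integrable (integrable_pair hD hg ha)
    refine h3.congr (Filter.Eventually.of_forall fun p => ?_)
    simp [Function.comp_def]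
  have hinv : ∀ (γ : Γ) (v z : G), a (((γ : G) * v)⁻¹ * ((γ : G) * z)) *
      g ((γ : G) * v) (π ((γ : G) * z)) = a (v⁻¹ * z) * g v (π z) := by
    intro γ v z
    rw [hD.equiv, hg.inv]
    congr 2
    group
  unfold av
  simp only [e1]
  rw [mass (F := fun v z => a (v⁻¹ * z) * g v (π z)) hD hinv hF]
  have e2 : ∫ z in D0 π, ∫ v, a (v⁻¹ * z) * g v (π z) ∂μ ∂μ =
      ∫ z in D0 π, ∫ v, a (v⁻¹ * z) * g v 1 ∂μ ∂μ := by
    refine setIntegral_congr_fun (meas_D0 hD) fun z hz => ?_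
    have hz1 : π z = 1 := hz
    simp only [hz1]
  rw [e2]
  have hH : Integrable (Function.uncurry fun z v : G => a (v⁻¹ * z) * g v 1)
      ((μ.restrict (D0 π)).prod μ) := by
    obtain ⟨C, hC⟩ := hg.bdd
    have h1 := unf_pair0 hD ha
    have h2 : AEStronglyMeasurable (fun p : G × G => g p.2 1) ((μ.restrict (D0 π)).prod μ) :=
      ((hg.meas 1).comp measurable_snd).aestronglyMeasurable
    exact h1.mul_bdd (c := C) h2 (Filter.Eventually.of_forall fun p => by
      rw [Real.norm_eq_abs]; exact hC _ _)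
  rw [integral_integral_swap hH]
  refine integral_congr_ae (Filter.Eventually.of_forall fun v => ?_)
  show ∫ z in D0 π, a (v⁻¹ * z) * g v 1 ∂μ = g v 1 * om μ π a v
  unfold om
  rw [integral_mul_const, mul_comm]

theorem om_integrable (hD : Dm μ Γ π) {a : G → ℝ} (ha : Integrable a μ) :
    Integrable (om μ π a) μ := by
  have h1 := unf_pair0 hD ha
  have hfin : IsFiniteMeasure (μ.restrict (D0 π)) := ⟨by
    rw [Measure.restrict_apply_univ]; exact hD.fin⟩
  exact h1.integral_prod_right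

theorem om_integral (hD : Dm μ Γ π) {a : G → ℝ} (ha : Integrable a μ) :
    ∫ v, om μ π a v ∂μ = dm μ π * ∫ h, a h ∂μ := by
  have h1 := av_unfold hD ha (g := fun _ _ => (1 : ℝ)) (Gf_const 1)
  rw [av_const hD ha 1, mul_one] at h1
  rw [h1]
  simp

theorem om_nonneg {a : G → ℝ} (h0 : ∀ h, 0 ≤ a h) (v : G) : 0 ≤ om μ π a v :=
  integral_nonneg fun z => h0 _

theorem om_le {a : G → ℝ} (ha : Integrable a μ) (h0 : ∀ h, 0 ≤ a h) (v : G) :
    om μ π a v ≤ ∫ h, a h ∂μ := by
  have h1 : Integrable (fun z => a (v⁻¹ * z)) μ := ha.comp_mul_left v⁻¹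
  calc om μ π a v ≤ ∫ z, a (v⁻¹ * z) ∂μ :=
        setIntegral_le_integral h1 (Filter.Eventually.of_forall fun z => h0 _)
    _ = ∫ h, a h ∂μ := integral_mul_left_eq_self a v⁻¹

theorem om_mono {a a' : G → ℝ} (ha : Integrable a μ) (ha' : Integrable a' μ)
    (h : ∀ x, a x ≤ a' x) (v : G) : om μ π a v ≤ om μ π a' v := by
  have h1 : Integrable (fun z => a (v⁻¹ * z)) μ := ha.comp_mul_left v⁻¹
  have h2 : Integrable (fun z => a' (v⁻¹ * z)) μ := ha'.comp_mul_left v⁻¹
  exact integral_mono h1.restrict h2.restrict fun z => h _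

end SPN
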