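import Pool.Agent.SPN.Pvb

/-! # Module Vrc (difficulty 3): second moment of the walk

Notation: `P = Pv K κ x`, `b N = fun u => ∑ k ∈ range N, P^[k] f u`. All functions are bounded and
measurable (`Bm`), so `P` is linear on them.
`SNv_bm`: induction on `N`.
`bN_succ`: `b (N+1) v = f v + P (b N) v` (`Finset.sum_range_succ'`, `Pv_sum`, `Function.iterate_succ_apply'`).
`SNv_le`: induction on `N`, for all `v`. `N = 0`: both sides are `0`. Step:
`SNv (N+1) v - b (N+1) v ^ 2 = f² + 2 f P(b N) + P (SNv N) - (f + P (b N))² = P (SNv N) v - (P (b N) v)²`; by the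
induction hypothesis, `Pv_mono` and linearity
`P (SNv N) v ≤ P (fun u => b N u ^ 2) v + ∑ m ∈ range N, P^[N - m] (grv (b m)) v` and `Pv_var` bounds the rest by
`grv (b N) v = P^[0] (grv (b N)) v`. `Finset.sum_range_succ`, `N + 1 - 1 - m = N - m`.
`SNv_expand`: induction on `N`; the `k = 0` term for `N + 1` is
`f² + 2 f ∑_{j<N} P^[j+1] f = f² + 2 f P (b N)`, the terms `k + 1` are `P` of the induction hypothesis. -/

open MeasureTheory

namespace SPN

variable {G : Type*} [Group G] [MeasurableSpace G] [MeasurableMul₂ G]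
  {K : Subgroup G} {κ : Measure K} {x : G}

private theorem vrc_sum (hκ : Kp K κ) {f : G → ℝ} (hf : Bm f) (N : ℕ) :
    Bm (fun u => ∑ k ∈ Finset.range N, (Pv K κ x)^[k] f u) :=
  Bm.sum _ fun k _ => hf.pv_iter hκ k

private theorem vrc_sq {f : G → ℝ} (hf : Bm f) : Bm (fun u => f u ^ 2) := by
  have := hf.mul hf
  simpa [pow_two] using this

theorem SNv_bm (hκ : Kp K κ) {f : G → ℝ} (hf : Bm f) (N : ℕ) : Bm (SNv K κ x f N) := by
  induction N with
  | zero => exact Bm.const 0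
  | succ N ih =>
    exact ((vrc_sq hf).add ((hf.cmul 2).mul ((vrc_sum hκ hf N).pv hκ))).add (ih.pv hκ)

theorem bN_succ (hκ : Kp K κ) {f : G → ℝ} (hf : Bm f) (N : ℕ) (v : G) :
    ∑ k ∈ Finset.range (N + 1), (Pv K κ x)^[k] f v
      = f v + Pv K κ x (fun u => ∑ k ∈ Finset.range N, (Pv K κ x)^[k] f u) v := by
  rw [Finset.sum_range_succ', Pv_sum hκ _ fun k _ => hf.pv_iter hκ k]
  simp only [Function.iterate_succ_apply', Function.iterate_zero, id_eq]
  ring

theorem SNv_le (hκ : Kp K κ) {f : G → ℝ} (hf : Bm f) (N : ℕ) (v : G) :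
    SNv K κ x f N v - (∑ k ∈ Finset.range N, (Pv K κ x)^[k] f v) ^ 2
      ≤ ∑ m ∈ Finset.range N, (Pv K κ x)^[N - 1 - m]
          (grv K κ x (fun u => ∑ k ∈ Finset.range m, (Pv K κ x)^[k] f u)) v := by
  induction N generalizing v with
  | zero => simp [SNv]
  | succ N ih =>
    set b : G → ℝ := fun u => ∑ k ∈ Finset.range N, (Pv K κ x)^[k] f u with hb
    have hbB : Bm b := vrc_sum hκ hf N
    have hgB : ∀ m : ℕ, Bm (grv K κ x (fun u => ∑ k ∈ Finset.range m, (Pv K κ x)^[k] f u)) :=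
      fun m => grv_bm hκ (vrc_sum hκ hf m)
    have hR : Bm (fun u => ∑ m ∈ Finset.range N, (Pv K κ x)^[N - 1 - m]
        (grv K κ x (fun u => ∑ k ∈ Finset.range m, (Pv K κ x)^[k] f u)) u) :=
      Bm.sum _ fun m _ => (hgB m).pv_iter hκ _
    have h1 : Pv K κ x (SNv K κ x f N) v ≤ Pv K κ x (fun u => b u ^ 2 +
        ∑ m ∈ Finset.range N, (Pv K κ x)^[N - 1 - m]
          (grv K κ x (fun u => ∑ k ∈ Finset.range m, (Pv K κ x)^[k] f u)) u) v :=
      Pv_mono hκ (SNv_bm hκ hf N) ((vrc_sq hbB).add hR)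
        (fun u => by have := ih u; linarith) v
    rw [Pv_add hκ (vrc_sq hbB) hR, Pv_sum hκ _ fun m _ => (hgB m).pv_iter hκ _] at h1
    have h2 := Pv_var (x := x) hκ hbB v
    have h3 : SNv K κ x f (N + 1) v =
        f v ^ 2 + 2 * f v * Pv K κ x b v + Pv K κ x (SNv K κ x f N) v := rfl
    have h4 : ∑ k ∈ Finset.range (N + 1), (Pv K κ x)^[k] f v = f v + Pv K κ x b v :=
      bN_succ hκ hf N v
    have h5 : ∑ m ∈ Finset.range (N + 1), (Pv K κ x)^[N + 1 - 1 - m]
          (grv K κ x (fun u => ∑ k ∈ Finset.range m, (Pv K κ x)^[k] f u)) v =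
        ∑ m ∈ Finset.range N, Pv K κ x ((Pv K κ x)^[N - 1 - m]
          (grv K κ x (fun u => ∑ k ∈ Finset.range m, (Pv K κ x)^[k] f u))) v +
          grv K κ x b v := by
      rw [Finset.sum_range_succ]
      congr 1
      · refine Finset.sum_congr rfl fun m hm => ?_
        rw [Finset.mem_range] at hm
        rw [← Function.iterate_succ_apply' (Pv K κ x),
          show N + 1 - 1 - m = (N - 1 - m).succ by omega]
      · simp [hb]
    rw [h3, h4, h5]
    nlinarith [h1, h2]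

theorem SNv_expand (hκ : Kp K κ) {f : G → ℝ} (hf : Bm f) (N : ℕ) (v : G) :
    SNv K κ x f N v = ∑ k ∈ Finset.range N, ((Pv K κ x)^[k] (fun u => f u ^ 2) v
      + 2 * ∑ j ∈ Finset.range (N - 1 - k),
          (Pv K κ x)^[k] (fun u => f u * (Pv K κ x)^[j + 1] f u) v) := by
  induction N generalizing v with
  | zero => simp [SNv]
  | succ N ih =>
    have hm : ∀ j : ℕ, Bm (fun u => f u * (Pv K κ x)^[j + 1] f u) := fun j =>
      hf.mul (hf.pv_iter hκ (j + 1))
    have hs : ∀ k : ℕ, Bm (fun u => (Pv K κ x)^[k] (fun u => f u ^ 2) u) := fun k =>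
      (vrc_sq hf).pv_iter hκ k
    have hi : ∀ k : ℕ, Bm (fun u => 2 * ∑ j ∈ Finset.range (N - 1 - k),
        (Pv K κ x)^[k] (fun u => f u * (Pv K κ x)^[j + 1] f u) u) := fun k =>
      (Bm.sum _ fun j _ => (hm j).pv_iter hκ k).cmul 2
    have h3 : SNv K κ x f (N + 1) v = f v ^ 2 + 2 * f v *
        Pv K κ x (fun u => ∑ k ∈ Finset.range N, (Pv K κ x)^[k] f u) v +
          Pv K κ x (SNv K κ x f N) v := rfl
    rw [h3, funext ih, Pv_sum hκ _ fun k _ => (hs k).add (hi k),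
      Pv_sum hκ _ fun k _ => hf.pv_iter hκ k, Finset.sum_range_succ']
    have h4 : ∀ k ∈ Finset.range N, Pv K κ x (fun u => (Pv K κ x)^[k] (fun u => f u ^ 2) u +
        2 * ∑ j ∈ Finset.range (N - 1 - k),
          (Pv K κ x)^[k] (fun u => f u * (Pv K κ x)^[j + 1] f u) u) v =
        (Pv K κ x)^[k + 1] (fun u => f u ^ 2) v + 2 * ∑ j ∈ Finset.range (N + 1 - 1 - (k + 1)),
          (Pv K κ x)^[k + 1] (fun u => f u * (Pv K κ x)^[j + 1] f u) v := by
      intro k _
      rw [Pv_add hκ (hs k) (hi k), Pv_cmul, Pv_sum hκ _ fun j _ => (hm j).pv_iter hκ k,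
        show N + 1 - 1 - (k + 1) = N - 1 - k by omega]
      simp only [Function.iterate_succ_apply']
    rw [Finset.sum_congr rfl h4]
    have h5 : ∀ k : ℕ, Pv K κ x ((Pv K κ x)^[k] f) v = (Pv K κ x)^[k + 1] f v := fun k => by
      rw [Function.iterate_succ_apply']
    simp only [h5, Function.iterate_zero, id_eq, Nat.add_sub_cancel, Nat.sub_zero]
    rw [Finset.mul_sum, Finset.mul_sum]
    have h6 : ∑ i ∈ Finset.range N, 2 * f v * (Pv K κ x)^[i + 1] f v =
        ∑ i ∈ Finset.range N, 2 * (f v * (Pv K κ x)^[i + 1] f v) :=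
      Finset.sum_congr rfl fun i _ => by ring
    rw [h6]
    ring

end SPN
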