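import Pool.Agent.SPN.Trk
import Pool.Agent.SPN.Vrc

/-! # Module Upw (difficulty 3): upper bound for the second moment of the walk

`hA` is the energy estimate (A1). Write `f = fun u => Sf ρ u γ` and `b_m = fun u => Sf (mk m) u γ
= fun u => ∑ j < m, P^[j] f u` (`Sf_mk`). `SNv_le` gives pointwise
`SNv f N v ≤ b_N v ^ 2 + ∑ m ∈ range N, P^[N - 1 - m] (grv b_m) v`. Integrate against `ρ`: all functions are `Gf`
(`Gf_Sf`, `Gf.pv_iter`, `Gf.grv`; for `SNv` prove `Gf` by induction on `N` with `Gf.add`, `Gf.mul`, `Gf.pv`,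
`Gf.sum`), `av_mono_right`, `av_add_right`, `av_sum_right`, and `av_rk` (`grv b_m` is right `K`-invariant by
`grv_rightK` and `Sf_rightK`) give
`av ρ (SNv N) ≤ av ρ (b_N²) + ∑ m ∈ range N, av (rk (N - 1 - m)) (grv b_m)`.
Sum over `N < n + 1` and exchange: for fixed `m` the indices `j = N - 1 - m` run through `range (n - m)`,
which is contained in `range n`; the terms are nonnegative; `hA n m`. -/

open MeasureTheory

namespace SPN

variable {G : Type*} [Group G] [TopologicalSpace G] [IsTopologicalGroup G] [T2Space G]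
  [LocallyCompactSpace G] [SecondCountableTopology G] [MeasurableSpace G] [BorelSpace G]
  {μ : Measure G} [IsFiniteMeasureOnCompacts μ] [μ.IsMulLeftInvariant] [SigmaFinite μ]
  [μ.IsMulRightInvariant] {Γ : Subgroup G} {π : G → Γ} {X : Type*} [LinearOrder X] {q : Γ → X}
  {K : Subgroup G} {κ : Measure K}

theorem Gf_SNv (hD : Dm μ Γ π) (hq : Mo q) {x : G} {ρ : G → ℝ} (hw : Wk K κ μ x ρ) (N : ℕ) :
    Gf (fun v γ => SNv K κ x (fun u => Sf μ π q ρ u γ) N v) := by
  have hf : Gf (Sf μ π q ρ) := Gf_Sf hD hq hw.bk.integrable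
  induction N with
  | zero => exact Gf_const 0
  | succ N ih =>
    have h1 : Gf (fun v γ => Sf μ π q ρ v γ * Sf μ π q ρ v γ) := hf.mul hf
    have h2 : Gf (fun v γ => ∑ k ∈ Finset.range N,
        (Pv K κ x)^[k] (fun u => Sf μ π q ρ u γ) v) :=
      Gf.sum (f := fun k v γ => (Pv K κ x)^[k] (fun u => Sf μ π q ρ u γ) v)
        (fun k _ => hf.pv_iter hw.kp k)
    have h3 := h2.pv (x := x) hw.kp
    have h4 := ((hf.mul h3).cmul 2)
    have h5 := ih.pv (x := x) hw.kp
    have h6 := (h1.add h4).add h5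
    have he : (fun (v : G) (γ : Γ) => SNv K κ x (fun u => Sf μ π q ρ u γ) (N + 1) v)
        = fun v γ => Sf μ π q ρ v γ * Sf μ π q ρ v γ
          + 2 * (Sf μ π q ρ v γ * Pv K κ x (fun u => ∑ k ∈ Finset.range N,
              (Pv K κ x)^[k] (fun u => Sf μ π q ρ u γ) u) v)
          + Pv K κ x (fun u => SNv K κ x (fun u => Sf μ π q ρ u γ) N u) v := by
      funext v γ
      simp only [SNv]
      ring
    rw [he]
    exact h6

theorem upper (hD : Dm μ Γ π) (hq : Mo q) {x : G} {ρ : G → ℝ} (hw : Wk K κ μ x ρ) {C : ℝ}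
    (hA : ∀ n m : ℕ, m ≤ n → ∑ j ∈ Finset.range n, av μ π (rk K κ x ρ j)
      (fun v γ => grv K κ x (fun u => Sf μ π q (mk K κ x ρ m) u γ) v) ≤ C * n) (n : ℕ) :
    ∑ N ∈ Finset.range (n + 1), av μ π ρ (fun v γ => SNv K κ x (fun u => Sf μ π q ρ u γ) N v)
      ≤ C * (n : ℝ) ^ 2
        + ∑ N ∈ Finset.range (n + 1), av μ π ρ (fun v γ => Sf μ π q (mk K κ x ρ N) v γ ^ 2) := by
  have hκ := hw.kp
  have hρi : Integrable ρ μ := hw.bk.integrable
  have hf : Gf (Sf μ π q ρ) := Gf_Sf hD hq hρi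
  have hfm : ∀ γ, Bm (fun u => Sf μ π q ρ u γ) := by
    intro γ
    obtain ⟨C, hC⟩ := hf.bdd
    exact ⟨hf.meas γ, C, fun v => hC v γ⟩
  have hb : ∀ m, Gf (Sf μ π q (mk K κ x ρ m)) := fun m => Gf_Sf hD hq (mk_bk hw m).integrable
  have hg : ∀ m, Gf (fun v γ => grv K κ x (fun u => Sf μ π q (mk K κ x ρ m) u γ) v) :=
    fun m => (hb m).grv hκ
  have hgK : ∀ m v γ, ∀ k ∈ K, grv K κ x (fun u => Sf μ π q (mk K κ x ρ m) u γ) (v * k)
      = grv K κ x (fun u => Sf μ π q (mk K κ x ρ m) u γ) v := fun m v γ k hk =>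
    grv_rightK hκ (fun u k hk => Sf_rightK (mk_bk hw m) u γ hk) hk v
  have key : ∀ N, av μ π ρ (fun v γ => SNv K κ x (fun u => Sf μ π q ρ u γ) N v)
      ≤ av μ π ρ (fun v γ => Sf μ π q (mk K κ x ρ N) v γ ^ 2)
        + ∑ m ∈ Finset.range N, av μ π (rk K κ x ρ (N - 1 - m))
            (fun v γ => grv K κ x (fun u => Sf μ π q (mk K κ x ρ m) u γ) v) := by
    intro N
    have hsq : Gf (fun v γ => Sf μ π q (mk K κ x ρ N) v γ ^ 2) := by
      have h := (hb N).mul (hb N)
      simpa only [sq] using h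
    have hit : ∀ m ∈ Finset.range N, Gf (fun v γ => (Pv K κ x)^[N - 1 - m]
        (fun u => grv K κ x (fun u => Sf μ π q (mk K κ x ρ m) u γ) u) v) :=
      fun m _ => (hg m).pv_iter hκ _
    have hle := av_mono_right (π := π) (μ := μ) hD hρi hw.nonneg (Gf_SNv hD hq hw N)
      (hsq.add (Gf.sum hit)) (by
        intro v γ
        have h := SNv_le (x := x) hκ (hfm γ) N v
        simp only [← Sf_mk hD hw] at h
        linarith)
    rw [av_add_right hD hρi hsq (Gf.sum hit), av_sum_right hD hρi _ hit] at hle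
    refine hle.trans (le_of_eq ?_)
    congr 1
    refine Finset.sum_congr rfl (fun m hm => ?_)
    exact av_rk hD hw (hg m) (hgK m) (N - 1 - m)
  have hnn : ∀ j m, 0 ≤ av μ π (rk K κ x ρ j)
      (fun v γ => grv K κ x (fun u => Sf μ π q (mk K κ x ρ m) u γ) v) := fun j m =>
    av_nonneg (rk_nonneg hw j) (fun v γ => grv_nonneg _ _)
  have hsum := Finset.sum_le_sum (fun N (_ : N ∈ Finset.range (n + 1)) => key N)
  rw [Finset.sum_add_distrib] at hsum
  have hdouble : ∑ N ∈ Finset.range (n + 1), ∑ m ∈ Finset.range N,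
      av μ π (rk K κ x ρ (N - 1 - m))
        (fun v γ => grv K κ x (fun u => Sf μ π q (mk K κ x ρ m) u γ) v) ≤ C * (n : ℝ) ^ 2 := by
    rw [Finset.sum_comm' (t' := Finset.range n) (s' := fun m => Finset.Ico (m + 1) (n + 1))
      (by
        intro N m
        simp only [Finset.mem_range, Finset.mem_Ico]
        omega)]
    have h1 : ∀ m ∈ Finset.range n, ∑ N ∈ Finset.Ico (m + 1) (n + 1),
        av μ π (rk K κ x ρ (N - 1 - m))
          (fun v γ => grv K κ x (fun u => Sf μ π q (mk K κ x ρ m) u γ) v) ≤ C * n := by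
      intro m hm
      rw [Finset.mem_range] at hm
      rw [Finset.sum_Ico_eq_sum_range]
      have h2 : ∀ j ∈ Finset.range (n + 1 - (m + 1)),
          av μ π (rk K κ x ρ (m + 1 + j - 1 - m))
            (fun v γ => grv K κ x (fun u => Sf μ π q (mk K κ x ρ m) u γ) v)
          = av μ π (rk K κ x ρ j)
            (fun v γ => grv K κ x (fun u => Sf μ π q (mk K κ x ρ m) u γ) v) := by
        intro j _
        have : m + 1 + j - 1 - m = j := by omega
        rw [this]
      rw [Finset.sum_congr rfl h2]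
      refine le_trans ?_ (hA n m hm.le)
      refine Finset.sum_le_sum_of_subset_of_nonneg ?_ (fun j _ _ => hnn j m)
      intro j hj
      rw [Finset.mem_range] at hj ⊢
      omega
    refine (Finset.sum_le_sum h1).trans (le_of_eq ?_)
    rw [Finset.sum_const, Finset.card_range, nsmul_eq_mul]
    ring
  linarith

end SPN
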