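import Pool.Agent.SPN.Cpk

/-! # Module Xal (difficulty 3): algebra of the matrices `X_p`

Entrywise computations with `Matrix.mul_apply`, `Fin.sum_univ_succ`.
`Xm_triple`: `X_p X_q = diag(p* q, p q*)` (entry `(0,0)`: `∑ star (p b) * q b`; entry `(a, b)`: `p a * star (q b)`;
the others vanish), so `Ym p q = diag(p* q - q* p, p q* - q p*)`, and `[Ym p q, X_r]` has the entries
`(a, 0)`: `∑_b (p a star(q b) - q a star(p b)) r b - r a (p* q - q* p) = tp p q r a`, and `(0, a)`: its conjugate
(`(p* q - q* p)` is skew: its star is its negative).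
`exists_Ad`: for `k ∈ K` (`KK_block`, `mat_inv_KK`): `k X_p k⁻¹ = k X_p k*` has entries `(a, 0)`:
`∑_b k_ab p_b star(k_00)`, put `L p a` equal to this; `(0, a)` its conjugate; the others vanish. `nq (L p) = nq p`:
the block `(k_ab)` satisfies `A* A = 1`, so it preserves `∑ ‖p_a‖²`, and `‖k_00‖ = 1`.
`exists_Rm`: `L p = rm p x`. `cf_sum`: `p a = re + imI i + imJ j + imK k`. `nq_eq`: `Quaternion.normSq_def'`,
`Quaternion.normSq_eq_norm_mul_self`. -/

open MeasureTheory Matrix
open scoped ContDiff

noncomputable section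

namespace SPN

variable {n : ℕ}

private theorem Xm00 (p : PP n) : Xm p 0 0 = 0 := rfl

private theorem Xm0s (p : PP n) (b : Fin n) : Xm p 0 b.succ = star (p b) := rfl

private theorem Xms0 (p : PP n) (a : Fin n) : Xm p a.succ 0 = p a := rfl

private theorem Xmss (p : PP n) (a b : Fin n) : Xm p a.succ b.succ = 0 := rfl

private theorem mm00 (p q : PP n) : (Xm p * Xm q) 0 0 = ∑ b, star (p b) * q b := by
  rw [Matrix.mul_apply, Fin.sum_univ_succ]
  simp only [Xm00, Xm0s, Xms0, zero_mul, zero_add]

private theorem mm0s (p q : PP n) (b : Fin n) : (Xm p * Xm q) 0 b.succ = 0 := by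
  rw [Matrix.mul_apply, Fin.sum_univ_succ]
  simp only [Xm00, Xm0s, Xmss, zero_mul, mul_zero, zero_add, Finset.sum_const_zero]

private theorem mms0 (p q : PP n) (a : Fin n) : (Xm p * Xm q) a.succ 0 = 0 := by
  rw [Matrix.mul_apply, Fin.sum_univ_succ]
  simp only [Xm00, Xms0, Xmss, zero_mul, mul_zero, zero_add, Finset.sum_const_zero]

private theorem mmss (p q : PP n) (a b : Fin n) :
    (Xm p * Xm q) a.succ b.succ = p a * star (q b) := by
  rw [Matrix.mul_apply, Fin.sum_univ_succ]
  simp only [Xm0s, Xms0, Xmss, mul_zero, add_zero, Finset.sum_const_zero]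

private theorem Ym00 (p q : PP n) :
    Ym p q 0 0 = (∑ b, star (p b) * q b) - ∑ b, star (q b) * p b := by
  rw [Ym, Matrix.sub_apply, mm00, mm00]

private theorem Ym0s (p q : PP n) (b : Fin n) : Ym p q 0 b.succ = 0 := by
  rw [Ym, Matrix.sub_apply, mm0s, mm0s, sub_zero]

private theorem Yms0 (p q : PP n) (a : Fin n) : Ym p q a.succ 0 = 0 := by
  rw [Ym, Matrix.sub_apply, mms0, mms0, sub_zero]

private theorem Ymss (p q : PP n) (a b : Fin n) :
    Ym p q a.succ b.succ = p a * star (q b) - q a * star (p b) := by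
  rw [Ym, Matrix.sub_apply, mmss, mmss]

private theorem coe_nq (p : PP n) : ((nq p : ℝ) : Quaternion ℝ) = ∑ a, star (p a) * p a := by
  have h3 : ∀ a, star (p a) * p a = ((‖p a‖ ^ 2 : ℝ) : Quaternion ℝ) := by
    intro a
    rw [Quaternion.star_mul_self, Quaternion.normSq_eq_norm_mul_self, sq]
  simp only [h3, nq]
  exact map_sum (algebraMap ℝ (Quaternion ℝ)) (fun a => ‖p a‖ ^ 2) Finset.univ

private theorem re1 : (1 : Quaternion ℝ).re = 1 := rfl

private theorem imI1 : (1 : Quaternion ℝ).imI = 0 := rfl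

private theorem imJ1 : (1 : Quaternion ℝ).imJ = 0 := rfl

private theorem imK1 : (1 : Quaternion ℝ).imK = 0 := rfl

private theorem ssm (r : ℝ) (q : Quaternion ℝ) : star (r • q) = r • star q := by
  ext <;> simp

/-- real coordinates of a vector of `P` -/
def cf (p : PP n) (i : Fin n × Fin 4) : ℝ :=
  ![(p i.1).re, (p i.1).imI, (p i.1).imJ, (p i.1).imK] i.2

theorem cf_sum (p : PP n) : p = ∑ i, cf p i • bs i := by
  funext a
  rw [Finset.sum_apply, Fintype.sum_prod_type, Finset.sum_eq_single a]
  · rw [Fin.sum_univ_four]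
    simp only [cf, bs, uq, Pi.smul_apply, Pi.single_eq_same]
    ext <;> simp [re1, imI1, imJ1, imK1]
  · intro b _ hb
    refine Finset.sum_eq_zero fun μ _ => ?_
    simp only [bs, Pi.smul_apply, Pi.single_eq_of_ne hb.symm, smul_zero]
  · intro h
    exact absurd (Finset.mem_univ a) h

theorem nq_eq (p : PP n) : nq p = ∑ i, cf p i ^ 2 := by
  rw [Fintype.sum_prod_type, nq]
  refine Finset.sum_congr rfl fun a _ => ?_
  rw [Fin.sum_univ_four, sq, ← Quaternion.normSq_eq_norm_mul_self, Quaternion.normSq_def']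
  simp [cf]

theorem nq_bs (i : Fin n × Fin 4) : nq (bs i) = 1 := by
  obtain ⟨a, μ⟩ := i
  rw [nq, Finset.sum_eq_single a]
  · simp only [bs, Pi.single_eq_same]
    rw [sq, ← Quaternion.normSq_eq_norm_mul_self, Quaternion.normSq_def']
    fin_cases μ <;> simp [uq, re1, imI1, imJ1, imK1]
  · intro b _ hb
    simp only [bs, Pi.single_eq_of_ne hb, norm_zero]
    norm_num
  · intro h
    exact absurd (Finset.mem_univ a) h

theorem Xm_add (p q : PP n) : Xm (p + q) = Xm p + Xm q := by
  ext a b : 1
  rw [Matrix.add_apply]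
  refine Fin.cases ?_ (fun a => ?_) a
  · refine Fin.cases ?_ (fun b => ?_) b
    · simp only [Xm00, add_zero]
    · simp only [Xm0s, Pi.add_apply, star_add]
  · refine Fin.cases ?_ (fun b => ?_) b
    · simp only [Xms0, Pi.add_apply]
    · simp only [Xmss, add_zero]

theorem Xm_smul (r : ℝ) (p : PP n) : Xm (r • p) = r • Xm p := by
  ext a b : 1
  rw [Matrix.smul_apply]
  refine Fin.cases ?_ (fun a => ?_) a
  · refine Fin.cases ?_ (fun b => ?_) b
    · simp only [Xm00, smul_zero]
    · simp only [Xm0s, Pi.smul_apply, ssm]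
  · refine Fin.cases ?_ (fun b => ?_) b
    · simp only [Xms0, Pi.smul_apply]
    · simp only [Xmss, smul_zero]

theorem Ym_conj (p q : PP n) : (Ym p q)ᴴ = - Ym p q := by
  rw [Ym, Matrix.conjTranspose_sub, Matrix.conjTranspose_mul, Matrix.conjTranspose_mul, Xm_conj,
    Xm_conj, neg_sub]

theorem Ym_Jm (p q : PP n) : Ym p q * Jm n = Jm n * Ym p q := by
  have h (p q : PP n) : Jm n * (Xm p * Xm q) = Xm p * Xm q * Jm n := by
    rw [← mul_assoc, Jm_mul_Xm, neg_mul, mul_assoc, Jm_mul_Xm, mul_neg, neg_neg, mul_assoc]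
  rw [Ym, mul_sub, sub_mul, h, h]

theorem Xm_triple (p q r : PP n) : Ym p q * Xm r - Xm r * Ym p q = Xm (tp p q r) := by
  ext a b : 1
  rw [Matrix.sub_apply, Matrix.mul_apply, Matrix.mul_apply, Fin.sum_univ_succ, Fin.sum_univ_succ]
  refine Fin.cases ?_ (fun a => ?_) a
  · refine Fin.cases ?_ (fun b => ?_) b
    · simp only [Xm00, Xm0s, Xms0, Ym0s, Yms0, mul_zero, zero_mul, Finset.sum_const_zero,
        sub_zero, add_zero]
    · simp only [Xm00, Xm0s, Xmss, Ym0s, Ym00, Ymss, mul_zero, zero_mul, Finset.sum_const_zero,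
        zero_add, add_zero, tp, star_sub, star_add, star_mul, star_star, star_sum, mul_sub,
        sub_mul, Finset.sum_sub_distrib, Finset.sum_mul, Finset.mul_sum, mul_assoc]
      abel
  · refine Fin.cases ?_ (fun b => ?_) b
    · simp only [Xm00, Xms0, Xmss, Yms0, Ym00, Ymss, mul_zero, zero_mul, Finset.sum_const_zero,
        zero_add, add_zero, tp, mul_sub, sub_mul, Finset.sum_sub_distrib, Finset.mul_sum,
        mul_assoc]
      abel
    · simp only [Xm0s, Xms0, Xmss, Yms0, Ym0s, mul_zero, zero_mul, Finset.sum_const_zero,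
        sub_zero, add_zero]

theorem exists_Ad {k : GG n} (hk : k ∈ KK n) : ∃ L : PP n →ₗ[ℝ] PP n, (∀ p, nq (L p) = nq p) ∧
    ∀ p, k.mat * Xm p = Xm (L p) * k.mat := by
  obtain ⟨h0, h1⟩ := KK_block hk
  have hs : star (k.mat 0 0) * k.mat 0 0 = 1 := by
    rw [Quaternion.star_mul_self, Quaternion.normSq_eq_norm_mul_self, h1]
    simp
  have hs' : k.mat 0 0 * star (k.mat 0 0) = 1 := by
    rw [Quaternion.self_mul_star, Quaternion.normSq_eq_norm_mul_self, h1]
    simp
  have hb : ∀ b c : Fin n, ∑ a : Fin n, star (k.mat a.succ b.succ) * k.mat a.succ c.succ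
      = if b = c then 1 else 0 := by
    intro b c
    have h2 := congrArg (fun M : Mt n => M b.succ c.succ) (mem_KK.1 hk)
    simp only [Matrix.mul_apply, Matrix.conjTranspose_apply] at h2
    rw [Fin.sum_univ_succ, (h0 c).2, mul_zero, zero_add, Matrix.one_apply] at h2
    rw [h2]
    simp only [Fin.succ_inj]
  have key : ∀ (p : PP n) (c : Fin n), ∑ a : Fin n, star (∑ b : Fin n, k.mat a.succ b.succ * p b)
      * k.mat a.succ c.succ = star (p c) := by
    intro p c
    simp only [star_sum, star_mul, Finset.sum_mul, mul_assoc]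
    rw [Finset.sum_comm]
    simp only [← Finset.mul_sum, hb]
    simp
  refine ⟨{ toFun := fun p a => (∑ b : Fin n, k.mat a.succ b.succ * p b) * star (k.mat 0 0)
            map_add' := ?_
            map_smul' := ?_ }, ?_, ?_⟩
  · intro p q
    funext a
    simp only [Pi.add_apply, mul_add, Finset.sum_add_distrib, add_mul]
  · intro r p
    funext a
    simp only [Pi.smul_apply, mul_smul_comm, ← Finset.smul_sum, smul_mul_assoc, RingHom.id_apply]
  · intro p
    have h5 : ((nq fun a => (∑ b : Fin n, k.mat a.succ b.succ * p b) * star (k.mat 0 0) : ℝ)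
        : Quaternion ℝ) = ((nq p : ℝ) : Quaternion ℝ) := by
      rw [coe_nq]
      have h6 : ∀ a : Fin n, star ((∑ b : Fin n, k.mat a.succ b.succ * p b) * star (k.mat 0 0)) *
          ((∑ b : Fin n, k.mat a.succ b.succ * p b) * star (k.mat 0 0))
          = k.mat 0 0 * (star (∑ b : Fin n, k.mat a.succ b.succ * p b)
            * (∑ b : Fin n, k.mat a.succ b.succ * p b)) * star (k.mat 0 0) := by
        intro a
        simp only [star_mul, star_star, mul_assoc]
      simp only [h6]
      rw [← Finset.sum_mul, ← Finset.mul_sum]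
      have h7 : ∑ a : Fin n, star (∑ b : Fin n, k.mat a.succ b.succ * p b)
            * (∑ b : Fin n, k.mat a.succ b.succ * p b) = ((nq p : ℝ) : Quaternion ℝ) := by
        rw [coe_nq]
        have h8 : ∀ a : Fin n, star (∑ b : Fin n, k.mat a.succ b.succ * p b)
            * (∑ c : Fin n, k.mat a.succ c.succ * p c)
            = ∑ c : Fin n, (star (∑ b : Fin n, k.mat a.succ b.succ * p b)
              * k.mat a.succ c.succ) * p c := by
          intro a
          rw [Finset.mul_sum]
          refine Finset.sum_congr rfl fun c _ => ?_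
          rw [mul_assoc]
        simp only [h8]
        rw [Finset.sum_comm]
        refine Finset.sum_congr rfl fun c _ => ?_
        rw [← Finset.sum_mul, key]
      rw [h7, ← Quaternion.coe_commutes, mul_assoc, hs', mul_one]
    exact Quaternion.coe_injective h5
  · intro p
    ext a b : 1
    rw [Matrix.mul_apply, Matrix.mul_apply, Fin.sum_univ_succ, Fin.sum_univ_succ]
    refine Fin.cases ?_ (fun a => ?_) a
    · refine Fin.cases ?_ (fun b => ?_) b
      · simp only [Xm00, Xms0, (h0 _).1, (h0 _).2, mul_zero, zero_mul, Finset.sum_const_zero]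
      · simp only [Xm00, Xm0s, Xmss, (h0 _).2, mul_zero, zero_mul, Finset.sum_const_zero,
          add_zero, zero_add, LinearMap.coe_mk, AddHom.coe_mk]
        have h9 : ∀ a : Fin n, star ((∑ b : Fin n, k.mat a.succ b.succ * p b) * star (k.mat 0 0))
            * k.mat a.succ b.succ = k.mat 0 0 * (star (∑ b : Fin n, k.mat a.succ b.succ * p b)
              * k.mat a.succ b.succ) := by
          intro a
          rw [star_mul, star_star, mul_assoc]
        simp only [h9]
        rw [← Finset.mul_sum, key]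
    · refine Fin.cases ?_ (fun b => ?_) b
      · simp only [Xm00, Xms0, Xmss, (h0 _).1, mul_zero, zero_mul, Finset.sum_const_zero,
          add_zero, zero_add, LinearMap.coe_mk, AddHom.coe_mk]
        rw [mul_assoc, hs, mul_one]
      · simp only [Xm0s, Xms0, Xmss, (h0 _).1, (h0 _).2, mul_zero, zero_mul,
          Finset.sum_const_zero, add_zero]

theorem exists_Rm {x : Quaternion ℝ} (hx : ‖x‖ = 1) : ∃ L : PP n →ₗ[ℝ] PP n,
    (∀ p, nq (L p) = nq p) ∧ ∀ p, L p = rm p x := by
  refine ⟨{ toFun := fun p => rm p x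
            map_add' := ?_
            map_smul' := ?_ }, ?_, ?_⟩
  · intro p q
    funext a
    simp only [rm, Pi.add_apply, add_mul]
  · intro r p
    funext a
    simp only [rm, Pi.smul_apply, smul_mul_assoc, RingHom.id_apply]
  · intro p
    simp only [LinearMap.coe_mk, AddHom.coe_mk, nq, rm, norm_mul, hx, mul_one]
  · intro p
    rfl

theorem tp_add1 (p p' q r : PP n) : tp (p + p') q r = tp p q r + tp p' q r := by
  funext a
  simp only [tp, Pi.add_apply, star_add, add_mul, mul_add, Finset.sum_add_distrib]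
  abel

theorem tp_add2 (p q q' r : PP n) : tp p (q + q') r = tp p q r + tp p q' r := by
  funext a
  simp only [tp, Pi.add_apply, star_add, add_mul, mul_add, Finset.sum_add_distrib]
  abel

theorem tp_add3 (p q r r' : PP n) : tp p q (r + r') = tp p q r + tp p q r' := by
  funext a
  simp only [tp, Pi.add_apply, star_add, add_mul, mul_add, Finset.sum_add_distrib]
  abel

theorem tp_smul1 (t : ℝ) (p q r : PP n) : tp (t • p) q r = t • tp p q r := by
  funext a
  simp only [tp, Pi.smul_apply, ssm, smul_mul_assoc, mul_smul_comm,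
    ← Finset.smul_sum, smul_sub, smul_add]

theorem tp_smul2 (t : ℝ) (p q r : PP n) : tp p (t • q) r = t • tp p q r := by
  funext a
  simp only [tp, Pi.smul_apply, ssm, smul_mul_assoc, mul_smul_comm,
    ← Finset.smul_sum, smul_sub, smul_add]

theorem tp_smul3 (t : ℝ) (p q r : PP n) : tp p q (t • r) = t • tp p q r := by
  funext a
  simp only [tp, Pi.smul_apply, ssm, smul_mul_assoc, mul_smul_comm,
    ← Finset.smul_sum, smul_sub, smul_add]

end SPN

end
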